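import Pool.Agent.Helper41.CE.Defs


/-!
# Semiclassical eigenvalue bounds for Schroedinger operators: definitions
-/

open MeasureTheory Filter Topology Set
open scoped ENNReal NNReal ContDiff

namespace Pool.Agent.Helper41.CE

/-! ## TARGETS: prove these (statements must not be changed; helper lemmas are welcome) -/

theorem abs_eig_cs {H : Type*} [NormedAddCommGroup H] [InnerProductSpace ℝ H]
    (S : H →L[ℝ] H) (hs : ∀ x y, inner ℝ (S x) y = inner ℝ x (S y))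
    (h0 : ∀ x, 0 ≤ inner ℝ (S x) x) (x : H) : ‖S x‖ ^ 2 ≤ ‖S‖ * inner ℝ (S x) x := by
  have hq : inner ℝ (S (S x)) (S x) ≤ ‖S‖ * ‖S x‖ ^ 2 := by
    calc inner ℝ (S (S x)) (S x) ≤ ‖S (S x)‖ * ‖S x‖ := real_inner_le_norm _ _
      _ ≤ (‖S‖ * ‖S x‖) * ‖S x‖ := mul_le_mul_of_nonneg_right (S.le_opNorm _) (norm_nonneg _)
      _ = _ := by ring
  have key : ∀ t : ℝ, 0 ≤ inner ℝ (S (S x)) (S x) * (t * t) + 2 * ‖S x‖ ^ 2 * t +
      inner ℝ (S x) x := by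
    intro t
    have := h0 (x + t • S x)
    rw [map_add, map_smul, inner_add_left, inner_add_right, inner_add_right, real_inner_smul_left,
      real_inner_smul_left, real_inner_smul_right, real_inner_smul_right, hs (S x) x,
      real_inner_self_eq_norm_sq] at this
    linarith
  have hd := discrim_le_zero key
  rw [discrim] at hd
  rcases eq_or_ne (S x) 0 with h | h
  · rw [h]
    simp
  · have hpos : 0 < ‖S x‖ ^ 2 := by
      have := norm_pos_iff.2 h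
      positivity
    have h1 : (‖S x‖ ^ 2) * (‖S x‖ ^ 2) ≤ (‖S‖ * inner ℝ (S x) x) * ‖S x‖ ^ 2 := by
      have h2 := mul_le_mul_of_nonneg_right hq (h0 x)
      nlinarith
    exact le_of_mul_le_mul_right h1 hpos

theorem abs_eig {H : Type*} [NormedAddCommGroup H] [InnerProductSpace ℝ H] [CompleteSpace H]
    (T : H →L[ℝ] H) (hc : IsCompactOperator T) (hs : ∀ x y, inner ℝ (T x) y = inner ℝ x (T y))
    (M : ℝ) (hM : 0 < M) (hle : ∀ x, inner ℝ (T x) x ≤ M * ‖x‖ ^ 2)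
    (hsup : ∀ M' < M, ∃ x, M' * ‖x‖ ^ 2 < inner ℝ (T x) x) :
    ∃ x, x ≠ 0 ∧ T x = M • x := by
  let S : H →L[ℝ] H := M • ContinuousLinearMap.id ℝ H - T
  have hSx : ∀ x, S x = M • x - T x := fun x => rfl
  have hSs : ∀ x y, inner ℝ (S x) y = inner ℝ x (S y) := by
    intro x y
    rw [hSx, hSx, inner_sub_left, inner_sub_right, real_inner_smul_left, real_inner_smul_right, hs]
  have hS0 : ∀ x, 0 ≤ inner ℝ (S x) x := by
    intro x
    rw [hSx, inner_sub_left, real_inner_smul_left, real_inner_self_eq_norm_sq]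
    linarith [hle x]
  have hseq : ∀ n : ℕ, ∃ y : H, ‖y‖ = 1 ∧ inner ℝ (S y) y ≤ 1 / ((n : ℝ) + 1) := by
    intro n
    obtain ⟨x, hx⟩ := hsup (M - 1 / ((n : ℝ) + 1)) (by
      have : 0 < 1 / ((n : ℝ) + 1) := by positivity
      linarith)
    have hx0 : x ≠ 0 := by
      rintro rfl
      simp at hx
    have hnx : 0 < ‖x‖ := norm_pos_iff.2 hx0
    refine ⟨‖x‖⁻¹ • x, ?_, ?_⟩
    · rw [norm_smul, norm_inv, norm_norm]
      field_simp
    · rw [hSx, inner_sub_left, map_smul, real_inner_smul_left, real_inner_smul_left,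
        real_inner_smul_left, real_inner_smul_right, real_inner_smul_right,
        real_inner_self_eq_norm_sq]
      have e1 : M * (‖x‖⁻¹ * (‖x‖⁻¹ * ‖x‖ ^ 2)) = M := by
        field_simp
      rw [e1]
      have e2 : (M - 1 / ((n : ℝ) + 1)) = ‖x‖⁻¹ * (‖x‖⁻¹ * ((M - 1 / ((n : ℝ) + 1)) * ‖x‖ ^ 2)) := by
        field_simp
      have e3 : ‖x‖⁻¹ * (‖x‖⁻¹ * ((M - 1 / ((n : ℝ) + 1)) * ‖x‖ ^ 2)) ≤
          ‖x‖⁻¹ * (‖x‖⁻¹ * inner ℝ (T x) x) := by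
        have : 0 < ‖x‖⁻¹ := inv_pos.2 hnx
        exact mul_le_mul_of_nonneg_left (mul_le_mul_of_nonneg_left hx.le this.le) this.le
      linarith
  choose y hy1 hy2 using hseq
  have hSy : Tendsto (fun n => S (y n)) atTop (𝓝 0) := by
    rw [tendsto_zero_iff_norm_tendsto_zero]
    have h1 : Tendsto (fun n => ‖S (y n)‖ ^ 2) atTop (𝓝 0) := by
      have h2 : Tendsto (fun n : ℕ => ‖S‖ * (1 / ((n : ℝ) + 1))) atTop (𝓝 (‖S‖ * 0)) :=
        tendsto_one_div_add_atTop_nhds_zero_nat.const_mul _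
      rw [mul_zero] at h2
      refine squeeze_zero (fun n => by positivity) (fun n => ?_) h2
      exact (abs_eig_cs S hSs hS0 (y n)).trans (mul_le_mul_of_nonneg_left (hy2 n) (norm_nonneg _))
    have h3 := h1.sqrt
    simpa [Real.sqrt_sq] using h3
  have hK := hc.isCompact_closure_image_closedBall (1 : ℝ)
  have hmem : ∀ n, T (y n) ∈ closure (T '' Metric.closedBall 0 1) := fun n =>
    subset_closure ⟨y n, by simp [hy1 n], rfl⟩
  obtain ⟨a, -, φ, hφ, hlim⟩ := hK.tendsto_subseq hmem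
  have hlim' : Tendsto (fun n => T (y (φ n))) atTop (𝓝 a) := hlim
  have hy : Tendsto (fun n => y (φ n)) atTop (𝓝 (M⁻¹ • a)) := by
    have h1 : Tendsto (fun n => M⁻¹ • (S (y (φ n)) + T (y (φ n)))) atTop (𝓝 (M⁻¹ • (0 + a))) :=
      ((hSy.comp hφ.tendsto_atTop).add hlim').const_smul _
    rw [zero_add] at h1
    refine h1.congr (fun n => ?_)
    rw [hSx, sub_add_cancel, smul_smul, inv_mul_cancel₀ hM.ne', one_smul]
  refine ⟨M⁻¹ • a, ?_, ?_⟩
  · have h1 : Tendsto (fun n => ‖y (φ n)‖) atTop (𝓝 ‖M⁻¹ • a‖) := hy.norm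
    have h2 : ‖M⁻¹ • a‖ = 1 := by
      refine tendsto_nhds_unique h1 ?_
      simp only [hy1]
      exact tendsto_const_nhds
    intro h
    rw [h] at h2
    simp at h2
  · have h1 : Tendsto (fun n => T (y (φ n))) atTop (𝓝 (T (M⁻¹ • a))) :=
      (T.continuous.tendsto _).comp hy
    rw [tendsto_nhds_unique h1 hlim', smul_smul, mul_inv_cancel₀ hM.ne', one_smul]

theorem abs_ivt {H : Type*} [NormedAddCommGroup H] [InnerProductSpace ℝ H] [CompleteSpace H]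
    (T : ℝ → (H →L[ℝ] H)) (κ0 : ℝ) (hcont : ContinuousOn T (Ici κ0))
    (hc : ∀ κ, κ0 ≤ κ → IsCompactOperator (T κ))
    (hs : ∀ κ, κ0 ≤ κ → ∀ x y, inner ℝ (T κ x) y = inner ℝ x (T κ y))
    (h0 : Tendsto (fun κ => ‖T κ‖) atTop (𝓝 0)) (μ : ℝ) (hμ : 0 < μ) (g : H) (hg : g ≠ 0)
    (hlow : μ * ‖g‖ ^ 2 ≤ inner ℝ (T κ0 g) g) :
    ∃ κ, κ0 ≤ κ ∧ ∃ x, x ≠ 0 ∧ T κ x = μ • x := by
  let Q : (H →L[ℝ] H) → Set ℝ := fun A => (fun x => inner ℝ (A x) x) '' {x : H | ‖x‖ = 1}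
  have hgn : 0 < ‖g‖ := norm_pos_iff.2 hg
  have hg1 : ‖(‖g‖⁻¹ • g)‖ = 1 := by
    rw [norm_smul, norm_inv, norm_norm]
    field_simp
  have hne : ∀ A, (Q A).Nonempty := fun A => ⟨_, ‖g‖⁻¹ • g, hg1, rfl⟩
  have hbd1 : ∀ (A : H →L[ℝ] H) (x : H), ‖x‖ = 1 → inner ℝ (A x) x ≤ ‖A‖ := by
    intro A x hx
    calc inner ℝ (A x) x ≤ ‖A x‖ * ‖x‖ := real_inner_le_norm _ _
      _ ≤ (‖A‖ * ‖x‖) * ‖x‖ := mul_le_mul_of_nonneg_right (A.le_opNorm _) (norm_nonneg _)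
      _ = ‖A‖ := by rw [hx]; ring
  have hbd : ∀ A, BddAbove (Q A) := by
    intro A
    refine ⟨‖A‖, ?_⟩
    rintro _ ⟨x, hx, rfl⟩
    exact hbd1 A x hx
  have hle1 : ∀ A B : H →L[ℝ] H, sSup (Q A) ≤ sSup (Q B) + ‖A - B‖ := by
    intro A B
    apply csSup_le (hne A)
    rintro _ ⟨x, hx, rfl⟩
    have h1 : inner ℝ (A x) x = inner ℝ (B x) x + inner ℝ ((A - B) x) x := by
      rw [ContinuousLinearMap.sub_apply, inner_sub_left]; ring
    have h2 : inner ℝ (B x) x ≤ sSup (Q B) := le_csSup (hbd B) ⟨x, hx, rfl⟩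
    have h3 := hbd1 (A - B) x hx
    simp only
    rw [h1]
    linarith
  have hdist : ∀ A B : H →L[ℝ] H, dist (sSup (Q A)) (sSup (Q B)) ≤ dist A B := by
    intro A B
    rw [Real.dist_eq, dist_eq_norm, abs_le]
    have h1 := hle1 A B
    have h2 := hle1 B A
    rw [norm_sub_rev] at h2
    constructor <;> linarith
  let F : ℝ → ℝ := fun κ => sSup (Q (T κ))
  have hFc : ContinuousOn F (Ici κ0) := by
    rw [Metric.continuousOn_iff] at hcont ⊢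
    intro b hb ε hε
    obtain ⟨δ, hδ, h⟩ := hcont b hb ε hε
    exact ⟨δ, hδ, fun a ha hab => (hdist _ _).trans_lt (h a ha hab)⟩
  have hF0 : μ ≤ F κ0 := by
    have h1 : inner ℝ (T κ0 (‖g‖⁻¹ • g)) (‖g‖⁻¹ • g) ≤ F κ0 := le_csSup (hbd _) ⟨_, hg1, rfl⟩
    refine le_trans ?_ h1
    rw [map_smul, real_inner_smul_left, real_inner_smul_right]
    have e2 : μ = ‖g‖⁻¹ * (‖g‖⁻¹ * (μ * ‖g‖ ^ 2)) := by
      field_simp
    have : 0 < ‖g‖⁻¹ := inv_pos.2 hgn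
    calc μ = ‖g‖⁻¹ * (‖g‖⁻¹ * (μ * ‖g‖ ^ 2)) := e2
      _ ≤ _ := mul_le_mul_of_nonneg_left (mul_le_mul_of_nonneg_left hlow this.le) this.le
  have hFle : ∀ κ, F κ ≤ ‖T κ‖ := by
    intro κ
    apply csSup_le (hne _)
    rintro _ ⟨x, hx, rfl⟩
    exact hbd1 _ x hx
  obtain ⟨κ1, hκ1, hκ1'⟩ : ∃ κ1, κ0 ≤ κ1 ∧ ‖T κ1‖ < μ :=
    ((eventually_ge_atTop κ0).and (h0.eventually (gt_mem_nhds hμ))).exists
  have hivt := intermediate_value_Icc' hκ1 (hFc.mono Icc_subset_Ici_self)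
  obtain ⟨κ, hκ, hFκ⟩ := hivt (show μ ∈ Icc (F κ1) (F κ0) from ⟨(hFle κ1).trans hκ1'.le, hF0⟩)
  refine ⟨κ, hκ.1, ?_⟩
  apply abs_eig (T κ) (hc κ hκ.1) (hs κ hκ.1) μ hμ
  · intro x
    rcases eq_or_ne x 0 with rfl | hx
    · simp
    · have hnx : 0 < ‖x‖ := norm_pos_iff.2 hx
      have hx1 : ‖(‖x‖⁻¹ • x)‖ = 1 := by
        rw [norm_smul, norm_inv, norm_norm]
        field_simp
      have h1 : inner ℝ (T κ (‖x‖⁻¹ • x)) (‖x‖⁻¹ • x) ≤ μ := by
        rw [← hFκ]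
        exact le_csSup (hbd _) ⟨_, hx1, rfl⟩
      rw [map_smul, real_inner_smul_left, real_inner_smul_right] at h1
      have h2 : inner ℝ (T κ x) x = ‖x‖ ^ 2 * (‖x‖⁻¹ * (‖x‖⁻¹ * inner ℝ (T κ x) x)) := by
        field_simp
      rw [h2, mul_comm μ]
      exact mul_le_mul_of_nonneg_left h1 (by positivity)
  · intro M' hM'
    rw [← hFκ] at hM'
    obtain ⟨_, ⟨x, hx, rfl⟩, hlt⟩ := exists_lt_of_lt_csSup (hne _) hM'
    refine ⟨x, ?_⟩
    have hx' : ‖x‖ = 1 := hx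
    rw [hx']
    simpa using hlt

end Pool.Agent.Helper41.CE
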