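import Pool.Agent.Helper41.CE.Defs


/-!
# Semiclassical eigenvalue bounds for Schroedinger operators: definitions
-/

open MeasureTheory Filter Topology Set
open scoped ENNReal NNReal ContDiff

namespace Pool.Agent.Helper41.CE

section kop

variable {X : Type*} [MeasurableSpace X]

theorem ko_ae (m : Measure X) (k : X → X → ℝ≥0∞) (hk : Measurable (Function.uncurry k))
    (C : ℝ) (hb : ∀ x, ∫⁻ y, k x y ∂m ≤ ENNReal.ofReal C) (x : X) : ∀ᵐ y ∂m, k x y < ⊤ :=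
  ae_lt_top (hk.comp measurable_prodMk_left) (ne_top_of_le_ne_top ENNReal.ofReal_ne_top (hb x))

/-- Cauchy-Schwarz with weight -/
theorem ko_cs (m : Measure X) (k : X → X → ℝ≥0∞) (hk : Measurable (Function.uncurry k))
    (C : ℝ) (hb : ∀ x, ∫⁻ y, k x y ∂m ≤ ENNReal.ofReal C) (F : X → ℝ≥0∞) (hF : Measurable F)
    (x : X) : (∫⁻ y, k x y * F y ∂m) ^ 2 ≤ ENNReal.ofReal C * ∫⁻ y, k x y * F y ^ 2 ∂m := by
  have hkx : Measurable (fun y => k x y) := hk.comp measurable_prodMk_left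
  have h1 := ENNReal.lintegral_mul_le_Lp_mul_Lq m (Real.HolderConjugate.two_two)
    (f := fun y => (k x y) ^ (1 / 2 : ℝ)) (g := fun y => (k x y) ^ (1 / 2 : ℝ) * F y)
    (hkx.pow_const _).aemeasurable ((hkx.pow_const _).mul hF).aemeasurable
  have e1 : ∀ y, ((fun y => (k x y) ^ (1 / 2 : ℝ)) * (fun y => (k x y) ^ (1 / 2 : ℝ) * F y)) y =
      k x y * F y := by
    intro y
    show (k x y) ^ (1 / 2 : ℝ) * ((k x y) ^ (1 / 2 : ℝ) * F y) = _
    rw [← mul_assoc, ← ENNReal.rpow_add_of_nonneg _ _ (by norm_num) (by norm_num)]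
    norm_num
  have e2 : ∀ y, ((k x y) ^ (1 / 2 : ℝ)) ^ (2 : ℝ) = k x y := by
    intro y
    rw [← ENNReal.rpow_mul]
    norm_num
  have e3 : ∀ y, ((k x y) ^ (1 / 2 : ℝ) * F y) ^ (2 : ℝ) = k x y * F y ^ 2 := by
    intro y
    rw [ENNReal.mul_rpow_of_nonneg _ _ (by norm_num), e2]
    norm_num
  simp only [e1, e2, e3] at h1
  have h2 := pow_le_pow_left' h1 2
  refine h2.trans ?_
  rw [mul_pow]
  have e4 : ∀ a : ℝ≥0∞, (a ^ (1 / 2 : ℝ)) ^ 2 = a := by
    intro a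
    rw [← ENNReal.rpow_natCast, ← ENNReal.rpow_mul]
    norm_num
  rw [e4, e4]
  exact mul_le_mul_left (hb x) _

theorem ko_meas (m : Measure X) [SFinite m] (k : X → X → ℝ≥0∞)
    (hk : Measurable (Function.uncurry k)) (F : X → ℝ≥0∞) (hF : Measurable F) :
    Measurable (Function.uncurry fun x y => k x y * F y) :=
  hk.mul (hF.comp measurable_snd)

/-- Tonelli -/
theorem ko_ton (m : Measure X) [SFinite m] (k : X → X → ℝ≥0∞)
    (hk : Measurable (Function.uncurry k)) (hsym : ∀ x y, k x y = k y x)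
    (C : ℝ) (hb : ∀ x, ∫⁻ y, k x y ∂m ≤ ENNReal.ofReal C) (F : X → ℝ≥0∞) (hF : Measurable F) :
    ∫⁻ x, ∫⁻ y, k x y * F y ∂m ∂m ≤ ENNReal.ofReal C * ∫⁻ y, F y ∂m := by
  rw [lintegral_lintegral_swap (ko_meas m k hk F hF).aemeasurable]
  rw [← lintegral_const_mul _ hF]
  refine lintegral_mono fun y => ?_
  have hky : Measurable (fun x => k x y) := hk.comp measurable_prodMk_right
  show ∫⁻ x, k x y * F y ∂m ≤ ENNReal.ofReal C * F y
  rw [lintegral_mul_const _ hky]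
  refine mul_le_mul_left ?_ _
  calc ∫⁻ x, k x y ∂m = ∫⁻ x, k y x ∂m := by simp only [hsym _ y]
    _ ≤ _ := hb y

theorem ko_ton' (m : Measure X) [SFinite m] (k : X → X → ℝ≥0∞)
    (hk : Measurable (Function.uncurry k))
    (C : ℝ) (hb : ∀ x, ∫⁻ y, k x y ∂m ≤ ENNReal.ofReal C) (F : X → ℝ≥0∞) (hF : Measurable F) :
    ∫⁻ x, ∫⁻ y, k x y * F x ∂m ∂m ≤ ENNReal.ofReal C * ∫⁻ y, F y ∂m := by
  rw [← lintegral_const_mul _ hF]
  refine lintegral_mono fun x => ?_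
  have hkx : Measurable (fun y => k x y) := hk.comp measurable_prodMk_left
  show ∫⁻ y, k x y * F x ∂m ≤ ENNReal.ofReal C * F x
  rw [lintegral_mul_const _ hkx]
  exact mul_le_mul_left (hb x) _

theorem ko_sq (a b : ℝ≥0∞) : a * b ≤ a ^ 2 + b ^ 2 := by
  rcases le_total a b with h | h
  · calc a * b ≤ b * b := mul_le_mul_left h _
      _ = b ^ 2 := (sq b).symm
      _ ≤ _ := le_add_self
  · calc a * b ≤ a * a := mul_le_mul_right h _
      _ = a ^ 2 := (sq a).symm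
      _ ≤ _ := le_self_add

/-- double integral bound -/
theorem ko_double (m : Measure X) [SFinite m] (k : X → X → ℝ≥0∞)
    (hk : Measurable (Function.uncurry k)) (hsym : ∀ x y, k x y = k y x)
    (C : ℝ) (hb : ∀ x, ∫⁻ y, k x y ∂m ≤ ENNReal.ofReal C) (F G : X → ℝ≥0∞)
    (hF : Measurable F) (hG : Measurable G) (hF2 : ∫⁻ y, F y ^ 2 ∂m < ⊤)
    (hG2 : ∫⁻ y, G y ^ 2 ∂m < ⊤) :
    ∫⁻ x, ∫⁻ y, k x y * F x * G y ∂m ∂m < ⊤ := by
  have h1 := ko_ton m k hk hsym C hb (fun y => G y ^ 2) (hG.pow_const 2)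
  have h2 := ko_ton' m k hk C hb (fun y => F y ^ 2) (hF.pow_const 2)
  have h3 : ∫⁻ x, ∫⁻ y, k x y * F x * G y ∂m ∂m ≤
      ∫⁻ x, ∫⁻ y, k x y * F x ^ 2 ∂m ∂m + ∫⁻ x, ∫⁻ y, k x y * G y ^ 2 ∂m ∂m := by
    have hm1 : Measurable (fun x => ∫⁻ y, k x y * F x ^ 2 ∂m) :=
      Measurable.lintegral_prod_right' (f := fun p : X × X => k p.1 p.2 * F p.1 ^ 2)
        (hk.mul ((hF.pow_const 2).comp measurable_fst))
    rw [← lintegral_add_left hm1]
    refine lintegral_mono fun x => ?_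
    have hm2 : Measurable (fun y => k x y * F x ^ 2) :=
      (hk.comp measurable_prodMk_left).mul measurable_const
    show ∫⁻ y, k x y * F x * G y ∂m ≤ ∫⁻ y, k x y * F x ^ 2 ∂m + ∫⁻ y, k x y * G y ^ 2 ∂m
    rw [← lintegral_add_left hm2]
    refine lintegral_mono fun y => ?_
    show k x y * F x * G y ≤ k x y * F x ^ 2 + k x y * G y ^ 2
    rw [← mul_add, mul_assoc]
    exact mul_le_mul_right (ko_sq _ _) _
  refine h3.trans_lt ?_
  refine ENNReal.add_lt_top.mpr ⟨h2.trans_lt ?_, h1.trans_lt ?_⟩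
  · exact ENNReal.mul_lt_top ENNReal.ofReal_lt_top hF2
  · exact ENNReal.mul_lt_top ENNReal.ofReal_lt_top hG2

/-- almost everywhere finite -/
theorem ko_fin (m : Measure X) [SFinite m] (k : X → X → ℝ≥0∞)
    (hk : Measurable (Function.uncurry k)) (hsym : ∀ x y, k x y = k y x)
    (C : ℝ) (hb : ∀ x, ∫⁻ y, k x y ∂m ≤ ENNReal.ofReal C) (F : X → ℝ≥0∞)
    (hF : Measurable F) (hF2 : ∫⁻ y, F y ^ 2 ∂m < ⊤) :
    ∫⁻ x, (∫⁻ y, k x y * F y ∂m) ^ 2 ∂m ≤ ENNReal.ofReal C ^ 2 * ∫⁻ y, F y ^ 2 ∂m ∧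
    ∀ᵐ x ∂m, ∫⁻ y, k x y * F y ∂m < ⊤ := by
  have hm : Measurable (fun x => ∫⁻ y, k x y * F y ∂m) :=
    Measurable.lintegral_prod_right' (f := fun p : X × X => k p.1 p.2 * F p.2)
      (ko_meas m k hk F hF)
  have hm2 : Measurable (fun x => ∫⁻ y, k x y * F y ^ 2 ∂m) :=
    Measurable.lintegral_prod_right' (f := fun p : X × X => k p.1 p.2 * F p.2 ^ 2)
      (ko_meas m k hk (fun y => F y ^ 2) (hF.pow_const 2))
  have h1 : ∫⁻ x, (∫⁻ y, k x y * F y ∂m) ^ 2 ∂m ≤ ENNReal.ofReal C ^ 2 * ∫⁻ y, F y ^ 2 ∂m := by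
    calc ∫⁻ x, (∫⁻ y, k x y * F y ∂m) ^ 2 ∂m
        ≤ ∫⁻ x, ENNReal.ofReal C * ∫⁻ y, k x y * F y ^ 2 ∂m ∂m :=
          lintegral_mono fun x => ko_cs m k hk C hb F hF x
      _ = ENNReal.ofReal C * ∫⁻ x, ∫⁻ y, k x y * F y ^ 2 ∂m ∂m := lintegral_const_mul _ hm2
      _ ≤ ENNReal.ofReal C * (ENNReal.ofReal C * ∫⁻ y, F y ^ 2 ∂m) :=
          mul_le_mul_right (ko_ton m k hk hsym C hb _ (hF.pow_const 2)) _
      _ = _ := by rw [sq, mul_assoc]
  refine ⟨h1, ?_⟩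
  have h2 : ∫⁻ x, (∫⁻ y, k x y * F y ∂m) ^ 2 ∂m ≠ ⊤ :=
    ne_top_of_le_ne_top (ENNReal.mul_ne_top (ENNReal.pow_ne_top ENNReal.ofReal_ne_top) hF2.ne) h1
  filter_upwards [ae_lt_top (hm.pow_const 2) h2] with x hx
  by_contra hcon
  have : ∫⁻ y, k x y * F y ∂m = ⊤ := not_lt_top_iff.mp hcon
  rw [this] at hx
  simp at hx

theorem ko_le (a : ℝ≥0∞) (b : ℝ) : ‖a.toReal * b‖ₑ ≤ a * ‖b‖ₑ := by
  rw [enorm_mul]
  refine mul_le_mul_left ?_ _
  rw [Real.enorm_eq_ofReal ENNReal.toReal_nonneg]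
  exact ENNReal.ofReal_toReal_le

theorem ko_two (m : Measure X) (f : X → ℝ) (hf : MemLp f 2 m) : ∫⁻ y, ‖f y‖ₑ ^ 2 ∂m < ⊤ := by
  have h := hf.2
  rw [eLpNorm_lt_top_iff_lintegral_rpow_enorm_lt_top two_ne_zero ENNReal.ofNat_ne_top] at h
  simpa using h

end kop

theorem ko_energy {X : Type*} [MeasurableSpace X] (m : Measure X) [SFinite m]
    (k : X → X → ℝ≥0∞) (hk : Measurable (Function.uncurry k)) (hsym : ∀ x y, k x y = k y x)
    (C : ℝ) (hb : ∀ x, ∫⁻ y, k x y ∂m ≤ ENNReal.ofReal C)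
    (f : X → ℝ) (hf : MemLp f 2 m) :
    (∫⁻ x, ∫⁻ y, k x y * ‖f x‖ₑ * ‖f y‖ₑ ∂m ∂m) < ⊤ ∧
      ∀ᵐ x ∂m, Integrable (fun y => (k x y).toReal * f y) m := by
  obtain ⟨f', hf', hff'⟩ := hf.1
  have hf'2 : MemLp f' 2 m := hf.ae_eq hff'
  have hF : Measurable (fun y => ‖f' y‖ₑ) := hf'.measurable.enorm
  have hF2 := ko_two m f' hf'2
  constructor
  · have h1 := ko_double m k hk hsym C hb _ _ hF hF hF2 hF2
    have h2 : ∫⁻ x, ∫⁻ y, k x y * ‖f x‖ₑ * ‖f y‖ₑ ∂m ∂m =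
        ∫⁻ x, ∫⁻ y, k x y * ‖f' x‖ₑ * ‖f' y‖ₑ ∂m ∂m := by
      refine lintegral_congr_ae ?_
      filter_upwards [hff'] with x hx
      refine lintegral_congr_ae ?_
      filter_upwards [hff'] with y hy
      rw [hx, hy]
    rw [h2]
    exact h1
  · filter_upwards [(ko_fin m k hk hsym C hb _ hF hF2).2] with x hx
    have hkx : Measurable (fun y => (k x y).toReal) :=
      (hk.comp measurable_prodMk_left).ennreal_toReal
    have hint : Integrable (fun y => (k x y).toReal * f' y) m := by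
      refine ⟨(hkx.mul hf'.measurable).aestronglyMeasurable, ?_⟩
      refine lt_of_le_of_lt (lintegral_mono fun y => ko_le _ _) hx
    refine hint.congr ?_
    filter_upwards [hff'] with y hy
    rw [hy]

/-- the operator on functions -/
noncomputable def ko_Phi {X : Type*} [MeasurableSpace X] (m : Measure X) (k : X → X → ℝ≥0∞)
    (g : X → ℝ) (x : X) : ℝ := ∫ y, (k x y).toReal * g y ∂m

theorem ko_Phi_meas {X : Type*} [MeasurableSpace X] (m : Measure X) [SFinite m]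
    (k : X → X → ℝ≥0∞) (hk : Measurable (Function.uncurry k)) (g : X → ℝ)
    (hg : StronglyMeasurable g) : StronglyMeasurable (ko_Phi m k g) := by
  have h : StronglyMeasurable (fun p : X × X => (k p.1 p.2).toReal * g p.2) :=
    (hk.ennreal_toReal.stronglyMeasurable).mul (hg.comp_measurable measurable_snd)
  exact h.integral_prod_right'

theorem ko_Phi_bound {X : Type*} [MeasurableSpace X] (m : Measure X) [SFinite m]
    (k : X → X → ℝ≥0∞) (hk : Measurable (Function.uncurry k)) (hsym : ∀ x y, k x y = k y x)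
    (C : ℝ) (hb : ∀ x, ∫⁻ y, k x y ∂m ≤ ENNReal.ofReal C) (g : X → ℝ)
    (hg : StronglyMeasurable g) (hg2 : MemLp g 2 m) :
    eLpNorm (ko_Phi m k g) 2 m ≤ ENNReal.ofReal C * eLpNorm g 2 m := by
  have hF : Measurable (fun y => ‖g y‖ₑ) := hg.measurable.enorm
  have hF2 := ko_two m g hg2
  have h1 := (ko_fin m k hk hsym C hb _ hF hF2).1
  have h2 : ∫⁻ x, ‖ko_Phi m k g x‖ₑ ^ 2 ∂m ≤ ENNReal.ofReal C ^ 2 * ∫⁻ y, ‖g y‖ₑ ^ 2 ∂m := by
    refine le_trans (lintegral_mono fun x => ?_) h1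
    refine pow_le_pow_left' ?_ 2
    unfold ko_Phi
    exact (enorm_integral_le_lintegral_enorm _).trans (lintegral_mono fun y => ko_le _ _)
  rw [eLpNorm_eq_lintegral_rpow_enorm_toReal two_ne_zero ENNReal.ofNat_ne_top,
    eLpNorm_eq_lintegral_rpow_enorm_toReal two_ne_zero ENNReal.ofNat_ne_top]
  simp only [ENNReal.toReal_ofNat, ENNReal.rpow_ofNat]
  have h3 := ENNReal.rpow_le_rpow h2 (by norm_num : (0:ℝ) ≤ 1 / 2)
  refine h3.trans ?_
  rw [ENNReal.mul_rpow_of_nonneg _ _ (by norm_num)]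
  have e4 : (ENNReal.ofReal C ^ 2) ^ (1 / 2 : ℝ) = ENNReal.ofReal C := by
    rw [← ENNReal.rpow_natCast, ← ENNReal.rpow_mul]
    norm_num
  rw [e4]

theorem ko_Phi_memLp {X : Type*} [MeasurableSpace X] (m : Measure X) [SFinite m]
    (k : X → X → ℝ≥0∞) (hk : Measurable (Function.uncurry k)) (hsym : ∀ x y, k x y = k y x)
    (C : ℝ) (hb : ∀ x, ∫⁻ y, k x y ∂m ≤ ENNReal.ofReal C) (g : X → ℝ)
    (hg : StronglyMeasurable g) (hg2 : MemLp g 2 m) : MemLp (ko_Phi m k g) 2 m :=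
  ⟨(ko_Phi_meas m k hk g hg).aestronglyMeasurable,
    (ko_Phi_bound m k hk hsym C hb g hg hg2).trans_lt
      (ENNReal.mul_lt_top ENNReal.ofReal_lt_top hg2.2)⟩

theorem ko_inner {X : Type*} [MeasurableSpace X] (m : Measure X) (f g : Lp ℝ 2 m) (F G : X → ℝ)
    (hF : f =ᵐ[m] F) (hG : g =ᵐ[m] G) : inner ℝ f g = ∫ x, F x * G x ∂m := by
  rw [L2.inner_def]
  refine integral_congr_ae ?_
  filter_upwards [hF, hG] with x h1 h2
  rw [h1, h2]
  simp [mul_comm]

/-- symmetry -/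
theorem ko_symm {X : Type*} [MeasurableSpace X] (m : Measure X) [SFinite m]
    (k : X → X → ℝ≥0∞) (hk : Measurable (Function.uncurry k)) (hsym : ∀ x y, k x y = k y x)
    (C : ℝ) (hb : ∀ x, ∫⁻ y, k x y ∂m ≤ ENNReal.ofReal C) (f g : X → ℝ)
    (hf : StronglyMeasurable f) (hf2 : MemLp f 2 m) (hg : StronglyMeasurable g)
    (hg2 : MemLp g 2 m) :
    ∫ x, ko_Phi m k f x * g x ∂m = ∫ x, f x * ko_Phi m k g x ∂m := by
  have hint : Integrable (Function.uncurry fun x y => (k x y).toReal * f y * g x)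
      (m.prod m) := by
    have hsm : StronglyMeasurable (Function.uncurry fun x y => (k x y).toReal * f y * g x) :=
      ((hk.ennreal_toReal.stronglyMeasurable).mul (hf.comp_measurable measurable_snd)).mul
        (hg.comp_measurable measurable_fst)
    refine ⟨hsm.aestronglyMeasurable, ?_⟩
    unfold HasFiniteIntegral
    rw [lintegral_prod _ hsm.aestronglyMeasurable.enorm]
    refine lt_of_le_of_lt ?_ (ko_double m k hk hsym C hb (fun x => ‖g x‖ₑ) (fun x => ‖f x‖ₑ)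
      hg.measurable.enorm hf.measurable.enorm (ko_two m g hg2) (ko_two m f hf2))
    refine lintegral_mono fun x => lintegral_mono fun y => ?_
    show ‖(k x y).toReal * f y * g x‖ₑ ≤ k x y * ‖g x‖ₑ * ‖f y‖ₑ
    rw [enorm_mul]
    calc ‖(k x y).toReal * f y‖ₑ * ‖g x‖ₑ ≤ (k x y * ‖f y‖ₑ) * ‖g x‖ₑ :=
          mul_le_mul_left (ko_le _ _) _
      _ = _ := by ring
  unfold ko_Phi
  calc ∫ x, (∫ y, (k x y).toReal * f y ∂m) * g x ∂m
      = ∫ x, ∫ y, (k x y).toReal * f y * g x ∂m ∂m := by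
        refine integral_congr_ae (Eventually.of_forall fun x => ?_)
        exact (integral_mul_const (g x) _).symm
    _ = ∫ y, ∫ x, (k x y).toReal * f y * g x ∂m ∂m := integral_integral_swap hint
    _ = ∫ y, f y * ∫ x, (k y x).toReal * g x ∂m ∂m := by
        refine integral_congr_ae (Eventually.of_forall fun y => ?_)
        show ∫ x, (k x y).toReal * f y * g x ∂m = f y * ∫ x, (k y x).toReal * g x ∂m
        rw [← integral_const_mul]
        refine integral_congr_ae (Eventually.of_forall fun x => ?_)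
        show (k x y).toReal * f y * g x = f y * ((k y x).toReal * g x)
        rw [hsym x y]
        ring

/-! ## TARGETS: prove these (statements must not be changed; helper lemmas are welcome) -/

theorem kernel_op {X : Type*} [MeasurableSpace X] (m : Measure X) [SFinite m]
    (k : X → X → ℝ≥0∞) (hk : Measurable (Function.uncurry k)) (hsym : ∀ x y, k x y = k y x)
    (C : ℝ) (hC : 0 ≤ C) (hb : ∀ x, ∫⁻ y, k x y ∂m ≤ ENNReal.ofReal C) :
    ∃ T : Lp ℝ 2 m →L[ℝ] Lp ℝ 2 m, ‖T‖ ≤ C ∧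
      (∀ g : Lp ℝ 2 m, T g =ᵐ[m] fun x => ∫ y, (k x y).toReal * g y ∂m) ∧
      ∀ f g : Lp ℝ 2 m, inner ℝ (T f) g = inner ℝ f (T g) := by
  have hmem : ∀ g : Lp ℝ 2 m, MemLp (ko_Phi m k g) 2 m := fun g =>
    ko_Phi_memLp m k hk hsym C hb g (Lp.stronglyMeasurable g) (Lp.memLp g)
  let T0 : Lp ℝ 2 m →ₗ[ℝ] Lp ℝ 2 m :=
    { toFun := fun g => (hmem g).toLp
      map_add' := by
        intro f g
        rw [← MemLp.toLp_add]
        apply MemLp.toLp_congr
        filter_upwards [(ko_energy m k hk hsym C hb f (Lp.memLp f)).2,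
          (ko_energy m k hk hsym C hb g (Lp.memLp g)).2] with x h1 h2
        show ko_Phi m k (f + g : Lp ℝ 2 m) x = ko_Phi m k f x + ko_Phi m k g x
        unfold ko_Phi
        rw [← integral_add h1 h2]
        refine integral_congr_ae ?_
        filter_upwards [Lp.coeFn_add f g] with y hy
        rw [hy]
        simp only [Pi.add_apply]
        ring
      map_smul' := by
        intro c g
        rw [RingHom.id_apply, ← MemLp.toLp_const_smul]
        apply MemLp.toLp_congr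
        refine Eventually.of_forall fun x => ?_
        show ko_Phi m k (c • g : Lp ℝ 2 m) x = c * ko_Phi m k g x
        unfold ko_Phi
        rw [← integral_const_mul]
        refine integral_congr_ae ?_
        filter_upwards [Lp.coeFn_smul c g] with y hy
        rw [hy]
        simp only [Pi.smul_apply, smul_eq_mul]
        ring }
  have hbound : ∀ g : Lp ℝ 2 m, ‖T0 g‖ ≤ C * ‖g‖ := by
    intro g
    show ‖(hmem g).toLp‖ ≤ C * ‖g‖
    rw [Lp.norm_toLp, Lp.norm_def]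
    have h1 := ko_Phi_bound m k hk hsym C hb g (Lp.stronglyMeasurable g) (Lp.memLp g)
    have h2 := ENNReal.toReal_mono
      (ENNReal.mul_ne_top ENNReal.ofReal_ne_top (Lp.memLp g).2.ne) h1
    rw [ENNReal.toReal_mul, ENNReal.toReal_ofReal hC] at h2
    exact h2
  have hae : ∀ g : Lp ℝ 2 m, T0 g =ᵐ[m] ko_Phi m k g := fun g => (hmem g).coeFn_toLp
  refine ⟨T0.mkContinuous C hbound, LinearMap.mkContinuous_norm_le _ hC _, hae, ?_⟩
  intro f g
  show inner ℝ (T0 f) g = inner ℝ f (T0 g)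
  rw [ko_inner m _ _ (ko_Phi m k f) g (hae f) Filter.EventuallyEq.rfl,
    ko_inner m _ _ f (ko_Phi m k g) Filter.EventuallyEq.rfl (hae g)]
  exact ko_symm m k hk hsym C hb f g (Lp.stronglyMeasurable f) (Lp.memLp f)
    (Lp.stronglyMeasurable g) (Lp.memLp g)

theorem kernel_energy {X : Type*} [MeasurableSpace X] (m : Measure X) [SFinite m]
    (k : X → X → ℝ≥0∞) (hk : Measurable (Function.uncurry k)) (hsym : ∀ x y, k x y = k y x)
    (C : ℝ) (hC : 0 ≤ C) (hb : ∀ x, ∫⁻ y, k x y ∂m ≤ ENNReal.ofReal C)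
    (f : X → ℝ) (hf : MemLp f 2 m) :
    (∫⁻ x, ∫⁻ y, k x y * ‖f x‖ₑ * ‖f y‖ₑ ∂m ∂m) < ⊤ ∧
      ∀ᵐ x ∂m, Integrable (fun y => (k x y).toReal * f y) m :=
  ko_energy m k hk hsym C hb f hf

end Pool.Agent.Helper41.CE
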