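import Pool.Agent.Helper41.CE.Defs


/-!
# Semiclassical eigenvalue bounds for Schroedinger operators: definitions
-/

open MeasureTheory Filter Topology Set
open scoped ENNReal NNReal ContDiff

namespace Pool.Agent.Helper41.CE

/-! ## TARGETS: prove these (statements must not be changed; helper lemmas are welcome) -/

/-- the bilinear map `(κ, g) ↦ ⟨g, κ(·)⟩` -/
noncomputable def kcPhi {d : ℕ} (m : Measure (E d)) :
    Lp (Lp ℝ 2 m) 2 m →L[ℝ] Lp ℝ 2 m →L[ℝ] Lp ℝ 2 m :=
  ((innerSL ℝ : Lp ℝ 2 m →L[ℝ] Lp ℝ 2 m →L[ℝ] ℝ).compLpL₂ 2 m).flip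

theorem kcPhi_apply {d : ℕ} (m : Measure (E d)) (κ : Lp (Lp ℝ 2 m) 2 m) (g : Lp ℝ 2 m) :
    kcPhi m κ g = (innerSL ℝ g).compLp κ := rfl

theorem kcPhi_compact {d : ℕ} (m : Measure (E d)) (κ : Lp (Lp ℝ 2 m) 2 m) :
    IsCompactOperator (kcPhi m κ) := by
  refine Lp.induction (by norm_num : (2:ℝ≥0∞) ≠ (⊤:ℝ≥0∞))
    (motive := fun κ => IsCompactOperator (kcPhi m κ)) ?_ ?_ ?_ κ
  · intro c s hs hμs
    have h1 : kcPhi m (Lp.simpleFunc.indicatorConst 2 hs hμs.ne c)
        = (ContinuousLinearMap.toSpanSingleton ℝ (indicatorConstLp 2 hs hμs.ne (1:ℝ))) ∘L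
          (innerSL ℝ c) := by
      ext1 g
      rw [kcPhi_apply]
      ext1
      have h2 := (innerSL ℝ g).coeFn_compLp'
        (Lp.simpleFunc.indicatorConst 2 hs hμs.ne c : Lp (Lp ℝ 2 m) 2 m)
      rw [Lp.simpleFunc.coe_indicatorConst] at h2
      have h3 : (indicatorConstLp 2 hs hμs.ne c : Lp (Lp ℝ 2 m) 2 m) =ᵐ[m]
        s.indicator fun _ => c := indicatorConstLp_coeFn
      have h4 : (indicatorConstLp 2 hs hμs.ne (1:ℝ) : Lp ℝ 2 m) =ᵐ[m]
        s.indicator fun _ => (1:ℝ) := indicatorConstLp_coeFn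
      have h5 := Lp.coeFn_smul (inner ℝ c g) (indicatorConstLp 2 hs hμs.ne (1:ℝ) : Lp ℝ 2 m)
      rw [Lp.simpleFunc.coe_indicatorConst]
      filter_upwards [h2, h3, h4, h5] with x a2 a3 a4 a5
      rw [a2, a3]
      show _ = (((inner ℝ c g) • (indicatorConstLp 2 hs hμs.ne (1:ℝ) : Lp ℝ 2 m) : Lp ℝ 2 m)) x
      rw [a5, Pi.smul_apply, a4]
      by_cases hx : x ∈ s
      · rw [Set.indicator_of_mem hx, Set.indicator_of_mem hx, smul_eq_mul, mul_one]
        exact real_inner_comm (F := Lp ℝ 2 m) c g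
      · rw [Set.indicator_of_notMem hx, Set.indicator_of_notMem hx, map_zero, smul_zero]
    rw [h1]
    exact (isCompactOperator_of_locallyCompactSpace_dom (innerSL ℝ c)).clm_comp
      (ContinuousLinearMap.toSpanSingleton ℝ (indicatorConstLp 2 hs hμs.ne (1:ℝ) : Lp ℝ 2 m))
  · intro f g hf hg _ h1 h2
    rw [map_add]
    exact h1.add h2
  · exact isClosed_setOfPred_isCompactOperator.preimage (kcPhi m).continuous

theorem kernel_compact {d : ℕ} (m : Measure (E d)) [IsFiniteMeasure m]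
    (k : E d → E d → ℝ) (hk : Continuous (Function.uncurry k)) (B : ℝ)
    (hB : ∀ x y, |k x y| ≤ B) (T : Lp ℝ 2 m →L[ℝ] Lp ℝ 2 m)
    (hT : ∀ g : Lp ℝ 2 m, T g =ᵐ[m] fun x => ∫ y, k x y * g y ∂m) : IsCompactOperator T := by
  have hkx : ∀ x, Continuous (k x) := fun x => hk.comp (continuous_const.prodMk continuous_id)
  have hmem : ∀ x, MemLp (k x) 2 m := fun x =>
    MemLp.of_bound (hkx x).aestronglyMeasurable B (Eventually.of_forall fun y => hB x y)
  set κ : E d → Lp ℝ 2 m := fun x => (hmem x).toLp (k x) with hκ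
  have hB0 : 0 ≤ B := (abs_nonneg _).trans (hB 0 0)
  have hκcont : Continuous κ := by
    rw [continuous_iff_continuousAt]
    intro x
    show Tendsto κ (𝓝 x) (𝓝 (κ x))
    rw [hκ]
    rw [Lp.tendsto_Lp_iff_tendsto_eLpNorm'']
    have h1 : ∀ z, eLpNorm (k z - k x) 2 m
        = (∫⁻ y, ‖(k z - k x) y‖ₑ ^ (2:ℝ) ∂m) ^ (1 / (2:ℝ)) := by
      intro z
      rw [eLpNorm_eq_lintegral_rpow_enorm_toReal (by norm_num) (by norm_num)]
      norm_num
    simp only [h1]
    have h2 : Tendsto (fun z => ∫⁻ y, ‖(k z - k x) y‖ₑ ^ (2:ℝ) ∂m) (𝓝 x)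
        (𝓝 (∫⁻ _y, (0:ℝ≥0∞) ∂m)) := by
      refine tendsto_lintegral_filter_of_dominated_convergence
        (fun _ => ENNReal.ofReal (2 * B) ^ (2:ℝ)) ?_ ?_ ?_ ?_
      · refine Eventually.of_forall fun z => ?_
        have := ((hkx z).sub (hkx x)).measurable
        exact (this.enorm).pow_const _
      · refine Eventually.of_forall fun z => Eventually.of_forall fun y => ?_
        apply ENNReal.rpow_le_rpow _ (by norm_num)
        rw [← ofReal_norm_eq_enorm]
        apply ENNReal.ofReal_le_ofReal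
        have a1 := hB z y
        have a2 := hB x y
        calc ‖(k z - k x) y‖ = |k z y - k x y| := rfl
          _ ≤ |k z y| + |k x y| := abs_sub _ _
          _ ≤ 2 * B := by linarith
      · rw [lintegral_const]
        exact ENNReal.mul_ne_top (ENNReal.rpow_ne_top_of_nonneg (by norm_num) ENNReal.ofReal_ne_top)
          (measure_ne_top _ _)
      · refine Eventually.of_forall fun y => ?_
        have h3 : Continuous (fun z => (k z - k x) y) := by
          have : Continuous (fun z => k z y) := hk.comp (continuous_id.prodMk continuous_const)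
          exact this.sub continuous_const
        have h4 : Tendsto (fun z => ‖(k z - k x) y‖ₑ ^ (2:ℝ)) (𝓝 x)
            (𝓝 (‖(k x - k x) y‖ₑ ^ (2:ℝ))) :=
          ((ENNReal.continuous_rpow_const.comp h3.enorm).tendsto x)
        simpa using h4
    rw [lintegral_zero] at h2
    have h5 := (ENNReal.continuous_rpow_const (y := 1 / (2:ℝ))).tendsto (0:ℝ≥0∞) |>.comp h2
    rw [ENNReal.zero_rpow_of_pos (by norm_num)] at h5
    simp only [Function.comp_def] at h5
    exact h5
  have hκm : MemLp κ 2 m := by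
    refine MemLp.of_bound hκcont.aestronglyMeasurable
      (((m Set.univ).toReal) ^ ((2:ℝ≥0∞).toReal⁻¹) * B) ?_
    refine Eventually.of_forall fun x => ?_
    refine Lp.norm_le_of_ae_bound hB0 ?_
    filter_upwards [(hmem x).coeFn_toLp] with y hy
    rw [hy]
    exact hB x y
  have hTΦ : T = kcPhi m (hκm.toLp κ) := by
    ext1 g
    ext1
    rw [kcPhi_apply]
    filter_upwards [hT g, (innerSL ℝ g).coeFn_compLp' (hκm.toLp κ), hκm.coeFn_toLp] with x h1 h2 h3
    rw [h1, h2, h3]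
    show ∫ y, k x y * g y ∂m = inner ℝ g (κ x)
    rw [L2.inner_def]
    apply integral_congr_ae
    filter_upwards [(hmem x).coeFn_toLp] with y hy
    rw [hκ]
    simp only
    rw [hy]
    simp
  rw [hTΦ]
  exact kcPhi_compact m _

end Pool.Agent.Helper41.CE
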