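import Pool.Agent.Helper41.CE.Defs


/-!
# Semiclassical eigenvalue bounds for Schroedinger operators: definitions
-/

open MeasureTheory Filter Topology Set
open scoped ENNReal NNReal ContDiff

namespace Pool.Agent.Helper41.CE

/-! ## TARGETS: prove these (statements must not be changed; helper lemmas are welcome) -/

theorem ptx_pos {d : ℕ} {t : ℝ} (ht : 0 < t) (z : E d) : 0 < pt t z := by
  unfold pt
  have := Real.pi_pos
  positivity

theorem ptx_cont {d : ℕ} (t : ℝ) : Continuous (pt t : E d → ℝ) := by
  unfold pt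
  fun_prop

theorem ptx_integral {d : ℕ} {t : ℝ} (ht : 0 < t) : ∫ z : E d, pt t z = 1 := by
  unfold pt
  rw [MeasureTheory.integral_const_mul]
  have h1 : ∀ z : E d, Real.exp (-‖z‖ ^ 2 / (4 * t)) = Real.exp (-(1 / (4 * t)) * ‖z‖ ^ 2) := by
    intro z
    congr 1
    ring
  simp_rw [h1]
  rw [GaussianFourier.integral_rexp_neg_mul_sq_norm (by positivity)]
  have h2 : Real.pi / (1 / (4 * t)) = 4 * Real.pi * t := by
    field_simp
  have h3 : (0 : ℝ) < 4 * Real.pi * t := by
    have := Real.pi_pos
    positivity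
  rw [h2, finrank_euclideanSpace_fin, ← Real.rpow_add h3, neg_add_cancel, Real.rpow_zero]

theorem ptx_integrable {d : ℕ} {t : ℝ} (ht : 0 < t) : Integrable (pt t : E d → ℝ) volume := by
  by_contra h
  have h1 := integral_undef h
  rw [ptx_integral ht] at h1
  exact one_ne_zero h1

theorem pt_facts {d : ℕ} {t : ℝ} (ht : 0 < t) :
    (∀ z : E d, 0 < pt t z) ∧ Continuous (pt t : E d → ℝ) ∧
      Integrable (pt t : E d → ℝ) volume ∧ ∫ z : E d, pt t z = 1 ∧
      (∀ z : E d, pt t z ≤ (4 * Real.pi * t) ^ (-((d : ℝ) / 2))) ∧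
      ∀ z : E d, pt t (-z) = pt t z := by
  refine ⟨ptx_pos ht, ptx_cont t, ptx_integrable ht, ptx_integral ht, ?_, ?_⟩
  · intro z
    unfold pt
    have h3 : (0 : ℝ) < 4 * Real.pi * t := by
      have := Real.pi_pos
      positivity
    have h4 : Real.exp (-‖z‖ ^ 2 / (4 * t)) ≤ 1 := by
      rw [Real.exp_le_one_iff]
      apply div_nonpos_of_nonpos_of_nonneg
      · have := sq_nonneg ‖z‖
        linarith
      · positivity
    have h5 : (0 : ℝ) ≤ (4 * Real.pi * t) ^ (-((d : ℝ) / 2)) := (Real.rpow_pos_of_pos h3 _).le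
    calc _ ≤ (4 * Real.pi * t) ^ (-((d : ℝ) / 2)) * 1 := mul_le_mul_of_nonneg_left h4 h5
      _ = _ := mul_one _
  · intro z
    unfold pt
    rw [norm_neg]

theorem pt_meas {d : ℕ} : Measurable (fun p : ℝ × E d => pt p.1 p.2) := by
  unfold pt
  refine Measurable.mul ?_ ?_
  · exact (measurable_fst.const_mul _).pow_const _
  · refine Real.measurable_exp.comp ?_
    refine Measurable.div ?_ (measurable_fst.const_mul _)
    exact (measurable_snd.norm.pow_const 2).neg

theorem ptx_prod {d : ℕ} {s t : ℝ} (hs : 0 < s) (ht : 0 < t) (x y z : E d) :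
    pt s (x - y) * pt t (x - z) =
      pt (s + t) (y - z) * pt (s * t / (s + t)) (x - ((t / (s + t)) • y + (s / (s + t)) • z)) := by
  have hst : 0 < s + t := by linarith
  have hpi := Real.pi_pos
  unfold pt
  rw [mul_mul_mul_comm, mul_mul_mul_comm ((4 * Real.pi * (s + t)) ^ (-((d : ℝ) / 2))),
    ← Real.mul_rpow (by positivity) (by positivity), ← Real.mul_rpow (by positivity) (by positivity),
    ← Real.exp_add, ← Real.exp_add]
  congr 1
  · congr 1
    field_simp
  · congr 1
    set p := (t / (s + t)) • y + (s / (s + t)) • z with hp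
    set X := x - p with hX
    set w := y - z with hw
    have h1 : x - y = X - (s / (s + t)) • w := by
      rw [hX, hw, hp]
      have e : (t / (s + t)) • y = y - (s / (s + t)) • y := by
        have : t / (s + t) = 1 - s / (s + t) := by field_simp; ring
        rw [this, sub_smul, one_smul]
      rw [e, smul_sub]
      abel
    have h2 : x - z = X + (t / (s + t)) • w := by
      rw [hX, hw, hp]
      have e : (s / (s + t)) • z = z - (t / (s + t)) • z := by
        have : s / (s + t) = 1 - t / (s + t) := by field_simp; ring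
        rw [this, sub_smul, one_smul]
      rw [e, smul_sub]
      abel
    rw [h1, h2, norm_sub_sq_real, norm_add_sq_real, inner_smul_right, inner_smul_right,
      norm_smul, norm_smul, Real.norm_of_nonneg (by positivity), Real.norm_of_nonneg (by positivity)]
    field_simp
    ring

theorem pt_semigroup {d : ℕ} {s t : ℝ} (hs : 0 < s) (ht : 0 < t) (y z : E d) :
    ∫⁻ x, ENNReal.ofReal (pt s (x - y)) * ENNReal.ofReal (pt t (x - z))
      = ENNReal.ofReal (pt (s + t) (y - z)) := by
  have hst : 0 < s + t := by linarith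
  have h1 : ∀ x : E d, ENNReal.ofReal (pt s (x - y)) * ENNReal.ofReal (pt t (x - z)) =
      ENNReal.ofReal (pt (s + t) (y - z)) *
        ENNReal.ofReal (pt (s * t / (s + t)) (x - ((t / (s + t)) • y + (s / (s + t)) • z))) := by
    intro x
    rw [← ENNReal.ofReal_mul (ptx_pos hs _).le, ptx_prod hs ht, ENNReal.ofReal_mul (ptx_pos hst _).le]
  simp_rw [h1]
  have hr : 0 < s * t / (s + t) := by positivity
  rw [lintegral_const_mul']
  · rw [lintegral_sub_right_eq_self (fun x => ENNReal.ofReal (pt (s * t / (s + t)) x))]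
    rw [← ofReal_integral_eq_lintegral_ofReal (ptx_integrable hr)
      (Filter.Eventually.of_forall fun x => (ptx_pos hr x).le), ptx_integral hr,
      ENNReal.ofReal_one, mul_one]
  · exact ENNReal.ofReal_ne_top

end Pool.Agent.Helper41.CE
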