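import Pool.Agent.Helper41.CE.Defs
import Pool.Agent.Helper41.CE.CE04

/-!
# Semiclassical eigenvalue bounds for Schroedinger operators: definitions
-/

open MeasureTheory Filter Topology Set
open scoped ENNReal NNReal ContDiff

namespace Pool.Agent.Helper41.CE


/-! ## TARGETS: prove these (statements must not be changed; helper lemmas are welcome) -/

theorem kwJoint {d : ℕ} (w : ℝ → ℝ≥0∞) (hw : Measurable w) :
    Measurable (fun p : E d × ℝ => w p.2 * ENNReal.ofReal (pt p.2 p.1)) := by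
  have h1 : Measurable (fun p : E d × ℝ => pt p.2 p.1) :=
    (pt_meas (d := d)).comp measurable_swap
  exact (hw.comp measurable_snd).mul h1.ennreal_ofReal

theorem Kw_meas {d : ℕ} (w : ℝ → ℝ≥0∞) (hw : Measurable w) :
    Measurable (Kw w : E d → ℝ≥0∞) := by
  exact (kwJoint (d := d) w hw).lintegral_prod_right'

theorem G_eq_Kw {d : ℕ} (κ : ℝ) (z : E d) :
    G κ z = Kw (fun t => ENNReal.ofReal (Real.exp (-κ ^ 2 * t))) z := by
  unfold G Kw
  refine lintegral_congr fun t => ?_
  rw [ENNReal.ofReal_mul (Real.exp_pos _).le]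

theorem G_meas {d : ℕ} (κ : ℝ) : Measurable (G κ : E d → ℝ≥0∞) := by
  have h : (G κ : E d → ℝ≥0∞) = Kw (fun t => ENNReal.ofReal (Real.exp (-κ ^ 2 * t))) :=
    funext fun z => G_eq_Kw κ z
  rw [h]
  apply Kw_meas
  fun_prop

theorem Kw_symm {d : ℕ} (w : ℝ → ℝ≥0∞) (z : E d) : Kw w (-z) = Kw w z := by
  unfold Kw
  refine setLIntegral_congr_fun measurableSet_Ioi fun t ht => ?_
  rw [(pt_facts (d := d) (show (0 : ℝ) < t from ht)).2.2.2.2.2 z]

theorem G_symm {d : ℕ} (κ : ℝ) (z : E d) : G κ (-z) = G κ z := by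
  rw [G_eq_Kw, G_eq_Kw, Kw_symm]

theorem heat_holder (d : ℕ) (q : ℝ) (hq : 1 ≤ q) : ∃ C : ℝ, 0 < C ∧ ∀ W : E d → ℝ,
    (∀ x, 0 ≤ W x) → MemLp W (ENNReal.ofReal q) volume → ∀ t, 0 < t → ∀ x : E d,
    ∫⁻ y, ENNReal.ofReal (pt t (x - y)) * ENNReal.ofReal (W y)
      ≤ ENNReal.ofReal (C * t ^ (-((d : ℝ) / (2 * q)))) *
          eLpNorm W (ENNReal.ofReal q) volume := by
  have hq0 : 0 < q := lt_of_lt_of_le one_pos hq
  refine ⟨(4 * Real.pi) ^ (-((d : ℝ) / (2 * q))), by positivity, ?_⟩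
  intro W hW0 hW t ht x
  obtain ⟨hpos, hcont, hint, hone, hsup, hsymm⟩ := pt_facts (d := d) ht
  have hcontx : Continuous (fun y : E d => pt t (x - y)) :=
    hcont.comp (continuous_const.sub continuous_id)
  have hmeasx : Measurable (fun y : E d => ENNReal.ofReal (pt t (x - y))) :=
    hcontx.measurable.ennreal_ofReal
  set ν : Measure (E d) := volume.withDensity (fun y => ENNReal.ofReal (pt t (x - y))) with hν
  have hprob : IsProbabilityMeasure ν := by
    constructor
    rw [hν, withDensity_apply _ MeasurableSet.univ, Measure.restrict_univ]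
    rw [← ofReal_integral_eq_lintegral_ofReal (hint.comp_sub_left x)
      (Filter.Eventually.of_forall fun y => (hpos _).le)]
    rw [integral_sub_left_eq_self (pt t) volume x, hone, ENNReal.ofReal_one]
  have hac : ν ≪ (volume : Measure (E d)) := withDensity_absolutelyContinuous _ _
  have hWm : AEStronglyMeasurable W volume := hW.1
  have hle : ν ≤ (ENNReal.ofReal ((4 * Real.pi * t) ^ (-((d : ℝ) / 2)))) •
      (volume : Measure (E d)) := by
    rw [hν, ← withDensity_const]
    exact withDensity_mono (Filter.Eventually.of_forall fun y =>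
      ENNReal.ofReal_le_ofReal (hsup _))
  have h1 : ∫⁻ y, ENNReal.ofReal (pt t (x - y)) * ENNReal.ofReal (W y) = eLpNorm W 1 ν := by
    rw [eLpNorm_one_eq_lintegral_enorm, hν,
      lintegral_withDensity_eq_lintegral_mul₀ hmeasx.aemeasurable hWm.enorm]
    refine lintegral_congr fun y => ?_
    simp only [Pi.mul_apply]
    rw [Real.enorm_of_nonneg (hW0 y)]
  rw [h1]
  have h2 : eLpNorm W 1 ν ≤ eLpNorm W (ENNReal.ofReal q) ν := by
    apply eLpNorm_le_eLpNorm_of_exponent_le
    · rw [← ENNReal.ofReal_one]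
      exact ENNReal.ofReal_le_ofReal hq
    · exact hWm.mono_ac hac
  refine h2.trans ((eLpNorm_mono_measure W hle).trans ?_)
  rw [eLpNorm_smul_measure_of_ne_top ENNReal.ofReal_ne_top]
  rw [smul_eq_mul]
  refine mul_le_mul_left (le_of_eq ?_) _
  have h4 : (1 / ENNReal.ofReal q).toReal = 1 / q := by
    rw [ENNReal.toReal_div, ENNReal.toReal_ofReal hq0.le, ENNReal.toReal_one]
  rw [h4, ENNReal.ofReal_rpow_of_nonneg (by positivity) (by positivity)]
  congr 1
  rw [← Real.rpow_mul (by positivity), Real.mul_rpow (by positivity) ht.le]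
  have : -((d : ℝ) / 2) * (1 / q) = -((d : ℝ) / (2 * q)) := by
    field_simp
  rw [this]

theorem Kw_bound (d : ℕ) (q : ℝ) (hq : 1 ≤ q) : ∃ C : ℝ, 0 < C ∧ ∀ W : E d → ℝ,
    (∀ x, 0 ≤ W x) → Measurable W → MemLp W (ENNReal.ofReal q) volume →
    ∀ w : ℝ → ℝ≥0∞, Measurable w → ∀ x : E d,
    ∫⁻ y, Kw w (x - y) * ENNReal.ofReal (W y)
      ≤ ENNReal.ofReal C * (∫⁻ t in Ioi (0 : ℝ), w t * ENNReal.ofReal (t ^ (-((d : ℝ) / (2 * q)))))
          * eLpNorm W (ENNReal.ofReal q) volume := by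
  obtain ⟨C, hC, hH⟩ := heat_holder d q hq
  refine ⟨C, hC, ?_⟩
  intro W hW0 hWm hW w hw x
  have hj : Measurable (fun p : E d × ℝ => w p.2 * ENNReal.ofReal (pt p.2 (x - p.1)) *
      ENNReal.ofReal (W p.1)) := by
    have h1 : Measurable (fun p : E d × ℝ => (x - p.1, p.2)) :=
      (measurable_const.sub measurable_fst).prodMk measurable_snd
    exact ((kwJoint (d := d) w hw).comp h1).mul (hWm.comp measurable_fst).ennreal_ofReal
  have e1 : ∀ y : E d, Kw w (x - y) * ENNReal.ofReal (W y)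
      = ∫⁻ t in Ioi (0 : ℝ), w t * ENNReal.ofReal (pt t (x - y)) * ENNReal.ofReal (W y) := by
    intro y
    unfold Kw
    rw [lintegral_mul_const']
    exact ENNReal.ofReal_ne_top
  simp_rw [e1]
  rw [lintegral_lintegral_swap (μ := (volume : Measure (E d)))
    (ν := volume.restrict (Ioi (0 : ℝ)))
    (f := fun y t => w t * ENNReal.ofReal (pt t (x - y)) * ENNReal.ofReal (W y))
    hj.aemeasurable]
  have e2 : ∀ t ∈ Ioi (0 : ℝ),
      ∫⁻ y, w t * ENNReal.ofReal (pt t (x - y)) * ENNReal.ofReal (W y)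
        ≤ ENNReal.ofReal C * (w t * ENNReal.ofReal (t ^ (-((d : ℝ) / (2 * q))))) *
          eLpNorm W (ENNReal.ofReal q) volume := by
    intro t ht
    have ht0 : (0 : ℝ) < t := ht
    have hcont := (pt_facts (d := d) ht0).2.1
    have hm : Measurable (fun y : E d => ENNReal.ofReal (pt t (x - y)) *
        ENNReal.ofReal (W y)) :=
      (hcont.comp (continuous_const.sub continuous_id)).measurable.ennreal_ofReal.mul
        hWm.ennreal_ofReal
    simp_rw [mul_assoc (w t)]
    rw [lintegral_const_mul _ hm]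
    refine (mul_le_mul_right (hH W hW0 hW t ht0 x) _).trans (le_of_eq ?_)
    rw [ENNReal.ofReal_mul hC.le]
    ring
  refine (setLIntegral_mono' measurableSet_Ioi e2).trans (le_of_eq ?_)
  have hwt : Measurable (fun t : ℝ => w t * ENNReal.ofReal (t ^ (-((d : ℝ) / (2 * q))))) := by
    apply hw.mul
    apply Measurable.ennreal_ofReal
    fun_prop
  rw [lintegral_mul_const _ (hwt.const_mul _), lintegral_const_mul _ hwt]

end Pool.Agent.Helper41.CE
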