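import Pool.Agent.Helper41.CE.Defs
import Pool.Agent.Helper41.CE.CE04
import Pool.Agent.Helper41.CE.CE05

/-!
# Semiclassical eigenvalue bounds for Schroedinger operators: definitions
-/

open MeasureTheory Filter Topology Set
open scoped ENNReal NNReal ContDiff

namespace Pool.Agent.Helper41.CE


/-! ## TARGETS: prove these (statements must not be changed; helper lemmas are welcome) -/

theorem exp_rpow_lint (κ : ℝ) (hκ : 0 < κ) (s : ℝ) (hs : 0 < s) :
    ∫⁻ t in Ioi (0 : ℝ), ENNReal.ofReal (Real.exp (-κ ^ 2 * t)) * ENNReal.ofReal (t ^ (s - 1))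
      = ENNReal.ofReal (Real.Gamma s * κ ^ (-2 * s)) := by
  have hk2 : 0 < κ ^ 2 := by positivity
  have h1 := Real.integral_rpow_mul_exp_neg_mul_Ioi hs hk2
  have hpos : 0 < (1 / κ ^ 2) ^ s * Real.Gamma s := by
    have := Real.Gamma_pos_of_pos hs
    positivity
  have hint : Integrable (fun t : ℝ => t ^ (s - 1) * Real.exp (-(κ ^ 2 * t)))
      (volume.restrict (Ioi 0)) := by
    by_contra hcon
    have := integral_undef hcon
    rw [h1] at this
    exact hpos.ne' this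
  have h2 : ∫⁻ t in Ioi (0 : ℝ), ENNReal.ofReal (Real.exp (-κ ^ 2 * t)) * ENNReal.ofReal (t ^ (s - 1))
      = ∫⁻ t in Ioi (0 : ℝ), ENNReal.ofReal (t ^ (s - 1) * Real.exp (-(κ ^ 2 * t))) := by
    apply setLIntegral_congr_fun measurableSet_Ioi
    intro t ht
    have ht' : (0 : ℝ) < t := ht
    show ENNReal.ofReal (Real.exp (-κ ^ 2 * t)) * ENNReal.ofReal (t ^ (s - 1)) = ENNReal.ofReal (t ^ (s - 1) * Real.exp (-(κ ^ 2 * t)))
    rw [mul_comm, ← ENNReal.ofReal_mul (by positivity)]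
    congr 2
    ring_nf
  rw [h2, ← ofReal_integral_eq_lintegral_ofReal hint, h1]
  · congr 1
    rw [mul_comm]
    congr 1
    rw [one_div, ← Real.rpow_natCast, ← Real.rpow_neg hκ.le, ← Real.rpow_mul hκ.le]
    norm_num
  · filter_upwards [ae_restrict_mem measurableSet_Ioi] with t ht
    have ht' : (0 : ℝ) < t := ht
    positivity

theorem G_bound (d : ℕ) (q : ℝ) (hq : 1 ≤ q) (hqd : (d : ℝ) / q < 2) : ∃ C : ℝ, 0 < C ∧
    ∀ W : E d → ℝ, (∀ x, 0 ≤ W x) → Measurable W → MemLp W (ENNReal.ofReal q) volume →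
    ∀ κ, 0 < κ → ∀ x : E d, ∫⁻ y, G κ (x - y) * ENNReal.ofReal (W y)
      ≤ ENNReal.ofReal (C * κ ^ ((d : ℝ) / q - 2)) * eLpNorm W (ENNReal.ofReal q) volume := by
  obtain ⟨C, hC, hK⟩ := Kw_bound d q hq
  have hs : 0 < 1 - (d : ℝ) / (2 * q) := by
    have : (d : ℝ) / (2 * q) = (d : ℝ) / q / 2 := by field_simp
    rw [this]; linarith
  refine ⟨C * Real.Gamma (1 - (d : ℝ) / (2 * q)), mul_pos hC (Real.Gamma_pos_of_pos hs), ?_⟩
  intro W hW0 hWm hW κ hκ x
  have h := hK W hW0 hWm hW (fun t => ENNReal.ofReal (Real.exp (-κ ^ 2 * t))) (by fun_prop) x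
  have e1 : ∀ y : E d, G κ (x - y) = Kw (fun t => ENNReal.ofReal (Real.exp (-κ ^ 2 * t))) (x - y) :=
    fun y => G_eq_Kw κ (x - y)
  simp_rw [e1]
  refine h.trans (le_of_eq ?_)
  have e2 := exp_rpow_lint κ hκ (1 - (d : ℝ) / (2 * q)) hs
  have e3 : (1 - (d : ℝ) / (2 * q)) - 1 = -((d : ℝ) / (2 * q)) := by ring
  rw [e3] at e2
  rw [e2, ← ENNReal.ofReal_mul hC.le]
  congr 2
  rw [mul_assoc]
  congr 2
  have hq0 : q ≠ 0 := by linarith
  have e4 : (d : ℝ) / (2 * q) = (d : ℝ) / q / 2 := by field_simp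
  rw [e4]
  ring_nf

theorem exp_lint (κ : ℝ) (hκ : 0 < κ) :
    ∫⁻ t in Ioi (0 : ℝ), ENNReal.ofReal (Real.exp (-κ ^ 2 * t)) = ENNReal.ofReal (κ ^ (-2 : ℝ)) := by
  have h := exp_rpow_lint κ hκ 1 one_pos
  simp only [sub_self, Real.rpow_zero, ENNReal.ofReal_one, mul_one, Real.Gamma_one, one_mul] at h
  exact h

theorem G_lint {d : ℕ} (κ : ℝ) (hκ : 0 < κ) :
    ∫⁻ z : E d, G κ z = ENNReal.ofReal (κ ^ (-2 : ℝ)) := by
  unfold G
  rw [lintegral_lintegral_swap]
  · rw [← exp_lint κ hκ]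
    apply setLIntegral_congr_fun measurableSet_Ioi
    intro t ht
    have ht' : (0 : ℝ) < t := ht
    obtain ⟨hp, -, hint, hone, -, -⟩ := pt_facts (d := d) ht'
    show ∫⁻ z : E d, ENNReal.ofReal (Real.exp (-κ ^ 2 * t) * pt t z) = ENNReal.ofReal (Real.exp (-κ ^ 2 * t))
    have : ∀ z : E d, ENNReal.ofReal (Real.exp (-κ ^ 2 * t) * pt t z)
        = ENNReal.ofReal (Real.exp (-κ ^ 2 * t)) * ENNReal.ofReal (pt t z) := fun z =>
      ENNReal.ofReal_mul (Real.exp_pos _).le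
    simp_rw [this]
    rw [lintegral_const_mul' _ _ ENNReal.ofReal_ne_top,
      ← ofReal_integral_eq_lintegral_ofReal hint (Eventually.of_forall fun z => (hp z).le), hone]
    simp
  · have hm := (pt_meas (d := d)).comp measurable_swap
    apply Measurable.aemeasurable
    apply Measurable.ennreal_ofReal
    apply Measurable.mul
    · fun_prop
    · exact hm

theorem G_bdd {d : ℕ} (M : ℝ) (hM : 0 ≤ M) (W : E d → ℝ) (hW : ∀ x, W x ≤ M)
    (hm : Measurable W) (κ : ℝ) (hκ : 0 < κ) (x : E d) :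
    ∫⁻ y, G κ (x - y) * ENNReal.ofReal (W y) ≤ ENNReal.ofReal (M * κ ^ (-2 : ℝ)) := by
  calc ∫⁻ y, G κ (x - y) * ENNReal.ofReal (W y)
      ≤ ∫⁻ y, G κ (x - y) * ENNReal.ofReal M := by
        apply lintegral_mono
        intro y
        exact mul_le_mul_right (ENNReal.ofReal_le_ofReal (hW y)) _
    _ = (∫⁻ y, G κ (x - y)) * ENNReal.ofReal M := by
        rw [lintegral_mul_const' _ _ ENNReal.ofReal_ne_top]
    _ = ENNReal.ofReal (κ ^ (-2 : ℝ)) * ENNReal.ofReal M := by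
        rw [lintegral_sub_left_eq_self (fun z => G κ z) x, G_lint κ hκ]
    _ = ENNReal.ofReal (M * κ ^ (-2 : ℝ)) := by
        rw [mul_comm, ← ENNReal.ofReal_mul hM]

theorem G_small (d : ℕ) (q : ℝ) (hq : 1 ≤ q) (hqd : (d : ℝ) / q < 2) (hd : 1 ≤ d)
    (W : E d → ℝ) (h0 : ∀ x, 0 ≤ W x) (hm : Measurable W)
    (hW : MemLp W (ENNReal.ofReal q) volume) (ε : ℝ) (hε : 0 < ε) :
    ∃ κ1 : ℝ, 0 < κ1 ∧ ∀ κ, κ1 ≤ κ → ∀ x : E d,
      ∫⁻ y, G κ (x - y) * ENNReal.ofReal (W y) ≤ ENNReal.ofReal (ε * κ ^ ((d : ℝ) / q - 2)) := by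
  obtain ⟨C, hC, hG⟩ := G_bound d q hq hqd
  have ha : 0 < (d : ℝ) / q := by
    have : (0 : ℝ) < d := by exact_mod_cast hd
    positivity
  obtain ⟨M, hM, hsm⟩ := hW.eLpNorm_indicator_norm_ge_pos_le hm.stronglyMeasurable
    (ε := ε / 2 / C) (by positivity)
  set S : Set (E d) := {x | M ≤ ‖W x‖₊} with hS
  have hSm : MeasurableSet S := measurableSet_le measurable_const hm.nnnorm.coe_nnreal_real
  refine ⟨max 1 ((2 * M / ε) ^ (1 / ((d : ℝ) / q))), by positivity, ?_⟩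
  intro κ hκ1 x
  have hκ : 0 < κ := lt_of_lt_of_le (by positivity) ((le_max_left _ _).trans hκ1)
  have hκa : 2 * M / ε ≤ κ ^ ((d : ℝ) / q) := by
    have h1 := (le_max_right _ _).trans hκ1
    have h2 : 0 ≤ 2 * M / ε := by positivity
    calc 2 * M / ε = ((2 * M / ε) ^ (1 / ((d : ℝ) / q))) ^ ((d : ℝ) / q) := by
          rw [← Real.rpow_mul h2, one_div, inv_mul_cancel₀ ha.ne', Real.rpow_one]
      _ ≤ κ ^ ((d : ℝ) / q) := Real.rpow_le_rpow (by positivity) h1 ha.le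
  set W1 : E d → ℝ := S.indicator W with hW1
  set W2 : E d → ℝ := Sᶜ.indicator W with hW2
  have hsplit : ∀ y, ENNReal.ofReal (W y) = ENNReal.ofReal (W1 y) + ENNReal.ofReal (W2 y) := by
    intro y
    by_cases hy : y ∈ S
    · simp [hW1, hW2, hy]
    · simp [hW1, hW2, hy]
  have hW1m : Measurable W1 := hm.indicator hSm
  have hW2m : Measurable W2 := hm.indicator hSm.compl
  have hW1p : ∀ y, 0 ≤ W1 y := fun y => Set.indicator_nonneg (fun z _ => h0 z) y
  have hW2le : ∀ y, W2 y ≤ M := by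
    intro y
    by_cases hy : y ∈ S
    · simp [hW2, hy, hM.le]
    · have : W2 y = W y := by simp [hW2, hy]
      rw [this]
      have h3 : ¬ (M ≤ ‖W y‖₊) := hy
      rw [coe_nnnorm, Real.norm_of_nonneg (h0 y)] at h3
      linarith
  have b1 := hG W1 hW1p hW1m (hW.indicator hSm) κ hκ x
  have b2 := G_bdd M hM.le W2 hW2le hW2m κ hκ x
  have hGm : Measurable (fun y : E d => G κ (x - y)) := (G_meas κ).comp (measurable_const.sub measurable_id)
  calc ∫⁻ y, G κ (x - y) * ENNReal.ofReal (W y)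
      = ∫⁻ y, (G κ (x - y) * ENNReal.ofReal (W1 y) + G κ (x - y) * ENNReal.ofReal (W2 y)) := by
        apply lintegral_congr
        intro y
        rw [hsplit y, mul_add]
    _ = (∫⁻ y, G κ (x - y) * ENNReal.ofReal (W1 y)) + ∫⁻ y, G κ (x - y) * ENNReal.ofReal (W2 y) := by
        rw [lintegral_add_left]
        exact hGm.mul hW1m.ennreal_ofReal
    _ ≤ ENNReal.ofReal (C * κ ^ ((d : ℝ) / q - 2)) * ENNReal.ofReal (ε / 2 / C)
          + ENNReal.ofReal (M * κ ^ (-2 : ℝ)) := by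
        gcongr
        exact b1.trans (mul_le_mul_right hsm _)
    _ ≤ ENNReal.ofReal (ε * κ ^ ((d : ℝ) / q - 2)) := by
        rw [← ENNReal.ofReal_mul (by positivity), ← ENNReal.ofReal_add (by positivity) (by positivity)]
        apply ENNReal.ofReal_le_ofReal
        have e1 : C * κ ^ ((d : ℝ) / q - 2) * (ε / 2 / C) = ε / 2 * κ ^ ((d : ℝ) / q - 2) := by
          field_simp
        have e2 : κ ^ ((d : ℝ) / q - 2) = κ ^ ((d : ℝ) / q) * κ ^ (-2 : ℝ) := by
          rw [← Real.rpow_add hκ]; congr 1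
        have e3 : 0 < κ ^ (-2 : ℝ) := by positivity
        have e4 : M * κ ^ (-2 : ℝ) ≤ ε / 2 * κ ^ ((d : ℝ) / q - 2) := by
          rw [e2, ← mul_assoc]
          apply mul_le_mul_of_nonneg_right _ e3.le
          have : 2 * M ≤ κ ^ ((d : ℝ) / q) * ε := by
            rwa [div_le_iff₀ hε] at hκa
          linarith
        rw [e1]; linarith

theorem G_int {d : ℕ} (κ : ℝ) (hκ : 0 < κ) :
    Integrable (fun z : E d => (G κ z).toReal) volume ∧ ∀ᵐ z : E d, G κ z < ⊤ := by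
  have h := G_lint (d := d) κ hκ
  have hne : ∫⁻ z : E d, G κ z ≠ ⊤ := by rw [h]; exact ENNReal.ofReal_ne_top
  exact ⟨integrable_toReal_of_lintegral_ne_top (G_meas κ).aemeasurable hne, ae_lt_top (G_meas κ) hne⟩

end Pool.Agent.Helper41.CE
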