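import Pool.Agent.Helper41.CE.Defs
import Pool.Agent.Helper41.CE.CE04

/-!
# Semiclassical eigenvalue bounds for Schroedinger operators: definitions
-/

open MeasureTheory Filter Topology Set
open scoped ENNReal NNReal ContDiff

namespace Pool.Agent.Helper41.CE


/-! ## TARGETS: prove these (statements must not be changed; helper lemmas are welcome) -/

theorem p147_gderiv {x : ℝ} (hx : 0 < x) (hx1 : x < 1) :
    HasDerivAt (fun r : ℝ => if r ≤ 0 then 0 else (1 - Real.log r)⁻¹)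
      (x⁻¹ * ((1 - Real.log x) ^ 2)⁻¹) x := by
  have hlog : Real.log x < 0 := Real.log_neg hx hx1
  have hne : (1 - Real.log x) ≠ 0 := by linarith
  have h1 : HasDerivAt (fun r : ℝ => (1 - Real.log r)⁻¹)
      (-(-x⁻¹) / (1 - Real.log x) ^ 2) x :=
    ((Real.hasDerivAt_log hx.ne').const_sub 1).inv hne
  have h2 : -(-x⁻¹) / (1 - Real.log x) ^ 2 = x⁻¹ * ((1 - Real.log x) ^ 2)⁻¹ := by
    rw [neg_neg, div_eq_mul_inv]
  rw [h2] at h1
  refine h1.congr_of_eventuallyEq ?_
  filter_upwards [Ioi_mem_nhds hx] with r hr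
  have hr' : 0 < r := hr
  rw [if_neg (not_le.2 hr')]

theorem p147_gcont : ContinuousOn (fun r : ℝ => if r ≤ 0 then 0 else (1 - Real.log r)⁻¹)
    (Icc 0 1) := by
  intro x hx
  rcases hx.1.eq_or_lt with h | h
  · subst h
    apply ContinuousAt.continuousWithinAt
    rw [ContinuousAt, ← nhdsLE_sup_nhdsGT, tendsto_sup]
    simp only [le_refl, if_true]
    constructor
    · refine Tendsto.congr' ?_ tendsto_const_nhds
      filter_upwards [self_mem_nhdsWithin] with r hr
      have hr' : r ≤ 0 := hr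
      rw [if_pos hr']
    · have h3 : Tendsto (fun r : ℝ => (1 - Real.log r)⁻¹) (𝓝[>] 0) (𝓝 0) := by
        refine tendsto_inv_atTop_zero.comp ?_
        have h4 := tendsto_neg_atBot_atTop.comp Real.tendsto_log_nhdsGT_zero
        exact (tendsto_atTop_add_const_left _ 1 h4).congr (fun r => by
          simp only [Function.comp]; ring)
      refine Tendsto.congr' ?_ h3
      filter_upwards [self_mem_nhdsWithin] with r hr
      have hr' : 0 < r := hr
      rw [if_neg (not_le.2 hr')]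
  · apply ContinuousAt.continuousWithinAt
    have hlog : Real.log x ≤ 0 := Real.log_nonpos h.le hx.2
    have h1 : ContinuousAt (fun r : ℝ => (1 - Real.log r)⁻¹) x :=
      (continuousAt_const.sub (Real.continuousAt_log h.ne')).inv₀ (by
        show 1 - Real.log x ≠ 0
        intro h9
        linarith)
    refine h1.congr ?_
    filter_upwards [Ioi_mem_nhds h] with r hr
    have hr' : 0 < r := hr
    rw [if_neg (not_le.2 hr')]

theorem p147_int0 : IntegrableOn (fun r : ℝ => r⁻¹ * ((1 - Real.log r) ^ 2)⁻¹) (Ioo 0 1) := by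
  have h := intervalIntegral.integrableOn_deriv_of_nonneg (a := (0 : ℝ)) (b := 1)
    (g := fun r : ℝ => if r ≤ 0 then 0 else (1 - Real.log r)⁻¹)
    (g' := fun r : ℝ => r⁻¹ * ((1 - Real.log r) ^ 2)⁻¹) p147_gcont
    (fun x hx => p147_gderiv hx.1 hx.2)
    (fun x hx => mul_nonneg (inv_nonneg.2 hx.1.le) (inv_nonneg.2 (sq_nonneg _)))
  exact h.mono_set Ioo_subset_Ioc_self

theorem p147_rad (d : ℕ) (hd : 1 ≤ d) (a b : ℝ) (ha : a ≤ d) (hb : 2 ≤ b) :
    Integrable (fun x : E d =>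
      if ‖x‖ < 1 then ‖x‖ ^ (-a) * (1 - Real.log ‖x‖) ^ (-b) else 0) volume := by
  have : Nonempty (Fin d) := ⟨⟨0, hd⟩⟩
  have : Nontrivial (E d) := inferInstance
  refine (integrable_fun_norm_addHaar (volume : Measure (E d)) (f := fun r : ℝ =>
    if r < 1 then r ^ (-a) * (1 - Real.log r) ^ (-b) else 0)).2 ?_
  have hdim : Module.finrank ℝ (E d) = d := by simp
  rw [hdim]
  have hG : IntegrableOn ((Ioo (0 : ℝ) 1).indicator
      (fun r : ℝ => r⁻¹ * ((1 - Real.log r) ^ 2)⁻¹)) (Ioi 0) :=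
    (p147_int0.integrable_indicator measurableSet_Ioo).integrableOn
  refine Integrable.mono' hG ?_ ?_
  · apply Measurable.aestronglyMeasurable
    have m1 : Measurable (fun y : ℝ => y ^ (d - 1)) := measurable_id.pow_const _
    have m2 : Measurable (fun y : ℝ =>
        if y < 1 then y ^ (-a) * (1 - Real.log y) ^ (-b) else 0) := by
      refine Measurable.ite (measurableSet_lt measurable_id measurable_const) ?_ measurable_const
      exact (measurable_id.pow_const _).mul
        ((measurable_const.sub Real.measurable_log).pow_const _)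
    exact m1.mul m2
  · filter_upwards [ae_restrict_mem measurableSet_Ioi] with y hy
    have hy0 : 0 < y := hy
    by_cases h1 : y < 1
    · rw [if_pos h1, indicator_of_mem (show y ∈ Ioo (0 : ℝ) 1 from ⟨hy0, h1⟩)]
      have hL : 1 ≤ 1 - Real.log y := by
        have := Real.log_nonpos hy0.le h1.le
        linarith
      have e1 : y ^ (d - 1) * y ^ (-a) ≤ y⁻¹ := by
        rw [← Real.rpow_natCast, ← Real.rpow_add hy0, ← Real.rpow_neg_one]
        refine Real.rpow_le_rpow_of_exponent_ge hy0 h1.le ?_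
        have : ((d - 1 : ℕ) : ℝ) = (d : ℝ) - 1 := by
          rw [Nat.cast_sub hd]; simp
        rw [this]
        linarith
      have e2 : (1 - Real.log y) ^ (-b) ≤ ((1 - Real.log y) ^ 2)⁻¹ := by
        have : ((1 - Real.log y) ^ 2)⁻¹ = (1 - Real.log y) ^ (-2 : ℝ) := by
          rw [Real.rpow_neg (by linarith)]
          norm_num
        rw [this]
        exact Real.rpow_le_rpow_of_exponent_le hL (by linarith)
      have p1 : 0 ≤ y ^ (d - 1) * y ^ (-a) := by positivity
      have p2 : 0 ≤ (1 - Real.log y) ^ (-b) := Real.rpow_nonneg (by linarith) _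
      rw [smul_eq_mul, ← mul_assoc, Real.norm_of_nonneg (mul_nonneg p1 p2)]
      exact mul_le_mul e1 e2 p2 (inv_nonneg.2 hy0.le)
    · rw [if_neg h1, smul_zero, norm_zero]
      exact indicator_nonneg (fun r hr => mul_nonneg (inv_nonneg.2 hr.1.le)
        (inv_nonneg.2 (sq_nonneg _))) y

theorem p147_L {r : ℝ} (h0 : 0 ≤ r) (h1 : r < 1) : 1 ≤ 1 - Real.log r := by
  have := Real.log_nonpos h0 h1.le
  linarith

theorem p147_WW_nonneg (d : ℕ) (q : ℝ) (x : E d) : 0 ≤ WW d q x := by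
  unfold WW
  split_ifs with h
  · exact mul_nonneg (Real.rpow_nonneg (norm_nonneg _) _) (inv_nonneg.2 (sq_nonneg _))
  · exact le_rfl

theorem p147_WW_meas (d : ℕ) (q : ℝ) : Measurable (WW d q) := by
  unfold WW
  refine Measurable.ite (measurableSet_lt measurable_norm measurable_const) ?_ measurable_const
  exact (measurable_norm.pow_const _).mul
    (((measurable_const.sub (Real.measurable_log.comp measurable_norm)).pow_const 2).inv)

theorem p147_WW_one (d : ℕ) (q : ℝ) (x : E d) : WW d q x =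
    if ‖x‖ < 1 then ‖x‖ ^ (-((d : ℝ) / q)) * (1 - Real.log ‖x‖) ^ (-2 : ℝ) else 0 := by
  unfold WW
  split_ifs with h
  · congr 1
    rw [Real.rpow_neg (by linarith [p147_L (norm_nonneg x) h])]
    norm_num
  · rfl

theorem p147_WW_pow (d : ℕ) (q : ℝ) (hq : 1 ≤ q) (x : E d) : ‖WW d q x‖ ^ q =
    if ‖x‖ < 1 then ‖x‖ ^ (-(d : ℝ)) * (1 - Real.log ‖x‖) ^ (-(2 * q)) else 0 := by
  rw [p147_WW_one]
  split_ifs with h
  · have hL := p147_L (norm_nonneg x) h
    have p1 : 0 ≤ ‖x‖ ^ (-((d : ℝ) / q)) := Real.rpow_nonneg (norm_nonneg _) _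
    have p2 : 0 ≤ (1 - Real.log ‖x‖) ^ (-2 : ℝ) := Real.rpow_nonneg (by linarith) _
    rw [Real.norm_of_nonneg (mul_nonneg p1 p2), Real.mul_rpow p1 p2,
      ← Real.rpow_mul (norm_nonneg _), ← Real.rpow_mul (by linarith)]
    congr 2
    · have : q ≠ 0 := by linarith
      field_simp
    · ring
  · rw [norm_zero, Real.zero_rpow (by linarith)]

theorem G_low (d : ℕ) : ∃ c : ℝ, 0 < c ∧ ∀ κ, 0 < κ → ∀ z : E d, ‖z‖ ≤ 2 / κ →
    ENNReal.ofReal (c * κ ^ ((d : ℝ) - 2)) ≤ G κ z := by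
  refine ⟨Real.exp (-2) * ((8 * Real.pi) ^ (-((d : ℝ) / 2)) * Real.exp (-1)), by positivity, ?_⟩
  intro κ hκ z hz
  set c0 : ℝ := Real.exp (-2) * ((8 * Real.pi) ^ (-((d : ℝ) / 2)) * Real.exp (-1)) with hc0
  have hc0p : 0 < c0 := by positivity
  have hk2 : 0 < κ ^ 2 := by positivity
  have hsub : Ioo ((κ ^ 2)⁻¹) (2 * (κ ^ 2)⁻¹) ⊆ Ioi (0 : ℝ) := by
    intro t ht
    exact lt_trans (inv_pos.2 hk2) ht.1
  have hbound : ∀ t ∈ Ioo ((κ ^ 2)⁻¹) (2 * (κ ^ 2)⁻¹),
      ENNReal.ofReal (c0 * κ ^ (d : ℝ)) ≤ ENNReal.ofReal (Real.exp (-κ ^ 2 * t) * pt t z) := by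
    intro t ht
    have ht0 : 0 < t := hsub ht
    apply ENNReal.ofReal_le_ofReal
    have a1 : κ ^ 2 * t ≤ 2 := by
      have := ht.2.le
      calc κ ^ 2 * t ≤ κ ^ 2 * (2 * (κ ^ 2)⁻¹) := by gcongr
        _ = 2 := by field_simp
    have a2 : 1 ≤ κ ^ 2 * t := by
      have := ht.1.le
      calc 1 = κ ^ 2 * (κ ^ 2)⁻¹ := by field_simp
        _ ≤ κ ^ 2 * t := by gcongr
    have b1 : Real.exp (-2) ≤ Real.exp (-κ ^ 2 * t) := Real.exp_le_exp.2 (by linarith)
    have b2 : (8 * Real.pi) ^ (-((d : ℝ) / 2)) * κ ^ (d : ℝ) ≤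
        (4 * Real.pi * t) ^ (-((d : ℝ) / 2)) := by
      have c1 : κ ^ (d : ℝ) = (κ ^ 2) ^ ((d : ℝ) / 2) := by
        rw [← Real.rpow_natCast κ 2, ← Real.rpow_mul hκ.le]
        congr 1
        push_cast
        ring
      have c2 : (8 * Real.pi) ^ (-((d : ℝ) / 2)) * (κ ^ 2) ^ ((d : ℝ) / 2) =
          (8 * Real.pi * (κ ^ 2)⁻¹) ^ (-((d : ℝ) / 2)) := by
        have c3 : (8 * Real.pi * (κ ^ 2)⁻¹) ^ (-((d : ℝ) / 2)) =
            (8 * Real.pi) ^ (-((d : ℝ) / 2)) * ((κ ^ 2)⁻¹) ^ (-((d : ℝ) / 2)) :=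
          Real.mul_rpow (by positivity) (by positivity)
        rw [c3, Real.inv_rpow hk2.le, ← Real.rpow_neg hk2.le, neg_neg]
      rw [c1, c2]
      refine Real.rpow_le_rpow_of_nonpos (by positivity) ?_ (by
        have : (0 : ℝ) ≤ d := Nat.cast_nonneg d
        linarith)
      have := ht.2.le
      have hpi := Real.pi_pos
      nlinarith
    have b3 : Real.exp (-1) ≤ Real.exp (-‖z‖ ^ 2 / (4 * t)) := by
      apply Real.exp_le_exp.2
      rw [neg_div, neg_le_neg_iff, div_le_one (by positivity)]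
      have c1 : ‖z‖ * κ ≤ 2 := by
        rwa [le_div_iff₀ hκ] at hz
      have c2 : (‖z‖ * κ) ^ 2 ≤ 4 := by
        have : 0 ≤ ‖z‖ * κ := by positivity
        nlinarith
      have c3 : ‖z‖ ^ 2 * κ ^ 2 ≤ (4 * t) * κ ^ 2 := by nlinarith
      exact le_of_mul_le_mul_right c3 hk2
    unfold pt
    have hq1 : 0 ≤ (8 * Real.pi) ^ (-((d : ℝ) / 2)) * κ ^ (d : ℝ) := by positivity
    calc c0 * κ ^ (d : ℝ) = Real.exp (-2) *
          (((8 * Real.pi) ^ (-((d : ℝ) / 2)) * κ ^ (d : ℝ)) * Real.exp (-1)) := by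
          rw [hc0]; ring
      _ ≤ Real.exp (-κ ^ 2 * t) *
          ((4 * Real.pi * t) ^ (-((d : ℝ) / 2)) * Real.exp (-‖z‖ ^ 2 / (4 * t))) := by
          gcongr
  calc ENNReal.ofReal (c0 * κ ^ ((d : ℝ) - 2))
      = ENNReal.ofReal (c0 * κ ^ (d : ℝ)) * ENNReal.ofReal ((κ ^ 2)⁻¹) := by
        rw [← ENNReal.ofReal_mul (by positivity)]
        congr 1
        have c4 : κ ^ (2 : ℝ) = κ ^ 2 := by norm_num
        rw [Real.rpow_sub hκ, c4]
        ring
    _ = ∫⁻ t in Ioo ((κ ^ 2)⁻¹) (2 * (κ ^ 2)⁻¹), ENNReal.ofReal (c0 * κ ^ (d : ℝ)) := by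
        rw [setLIntegral_const, Real.volume_Ioo]
        congr 2
        ring
    _ ≤ ∫⁻ t in Ioo ((κ ^ 2)⁻¹) (2 * (κ ^ 2)⁻¹),
          ENNReal.ofReal (Real.exp (-κ ^ 2 * t) * pt t z) :=
        setLIntegral_mono' measurableSet_Ioo hbound
    _ ≤ G κ z := by
        unfold G
        exact lintegral_mono_set hsub

theorem WW_facts (d : ℕ) (hd : 1 ≤ d) (q : ℝ) (hq : 1 ≤ q) :
    (∀ x, 0 ≤ WW d q x) ∧ Measurable (WW d q) ∧
      MemLp (WW d q) (ENNReal.ofReal q) volume ∧ Integrable (WW d q) volume ∧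
      0 < ∫ x, |WW d q x| ^ q := by
  have hq0 : 0 < q := by linarith
  have hd0 : (0 : ℝ) ≤ d := Nat.cast_nonneg d
  have hpow : Integrable (fun x : E d => ‖WW d q x‖ ^ q) volume := by
    refine (p147_rad d hd d (2 * q) le_rfl (by linarith)).congr ?_
    exact Eventually.of_forall fun x => (p147_WW_pow d q hq x).symm
  refine ⟨p147_WW_nonneg d q, p147_WW_meas d q, ?_, ?_, ?_⟩
  · rw [← integrable_norm_rpow_iff (p147_WW_meas d q).aestronglyMeasurable
      (by simp [hq0]) ENNReal.ofReal_ne_top, ENNReal.toReal_ofReal hq0.le]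
    exact hpow
  · refine (p147_rad d hd (d / q) 2 (div_le_self hd0 hq) le_rfl).congr ?_
    exact Eventually.of_forall fun x => (p147_WW_one d q x).symm
  · have hpow' : Integrable (fun x : E d => |WW d q x| ^ q) volume := hpow
    rw [integral_pos_iff_support_of_nonneg (fun x => by positivity) hpow']
    have hopen : IsOpen {x : E d | 0 < ‖x‖ ∧ ‖x‖ < 1} :=
      (isOpen_lt continuous_const continuous_norm).inter
        (isOpen_lt continuous_norm continuous_const)
    have hne : {x : E d | 0 < ‖x‖ ∧ ‖x‖ < 1}.Nonempty := by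
      refine ⟨EuclideanSpace.single ⟨0, hd⟩ (1 / 2 : ℝ), ?_⟩
      simp only [mem_ofPred_eq, PiLp.norm_single]
      norm_num
    refine lt_of_lt_of_le (hopen.measure_pos volume hne) (measure_mono ?_)
    intro x hx
    have hx1 : 0 < ‖x‖ := hx.1
    have hx2 : ‖x‖ < 1 := hx.2
    rw [Function.mem_support]
    have hL := p147_L hx1.le hx2
    have hpos : 0 < WW d q x := by
      rw [p147_WW_one, if_pos hx2]
      exact mul_pos (Real.rpow_pos_of_pos hx1 _) (Real.rpow_pos_of_pos (by linarith) _)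
    positivity

theorem WW_mass (d : ℕ) (hd : 1 ≤ d) (q : ℝ) (hq : 1 ≤ q) : ∃ c : ℝ, 0 < c ∧
    ∀ r : ℝ, 0 < r → r ≤ 1 / 2 →
      c * r ^ ((d : ℝ) - (d : ℝ) / q) * ((1 - Real.log r) ^ 2)⁻¹
        ≤ ∫ x in Metric.ball (0 : E d) r, WW d q x := by
  have : Nonempty (Fin d) := ⟨⟨0, hd⟩⟩
  have : Nontrivial (E d) := inferInstance
  set B : ℝ := (volume : Measure (E d)).real (Metric.ball 0 1) with hB
  have hBpos : 0 < B := by
    rw [hB, Measure.real]
    exact ENNReal.toReal_pos (Metric.measure_ball_pos _ _ one_pos).ne' measure_ball_lt_top.ne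
  have hhalf : (1 / 2 : ℝ) ^ d ≤ 1 / 2 := by
    calc (1 / 2 : ℝ) ^ d ≤ (1 / 2 : ℝ) ^ 1 :=
          pow_le_pow_of_le_one (by norm_num) (by norm_num) hd
      _ = 1 / 2 := pow_one _
  refine ⟨1 / 8 * B, by positivity, ?_⟩
  intro r hr hr2
  have hvol : ∀ s : ℝ, 0 < s → (volume : Measure (E d)).real (Metric.ball 0 s) = s ^ d * B := by
    intro s hs
    have := Measure.addHaar_ball_of_pos (volume : Measure (E d)) 0 hs
    have hdim : Module.finrank ℝ (E d) = d := by simp
    rw [hdim] at this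
    rw [Measure.real, this, ENNReal.toReal_mul, ENNReal.toReal_ofReal (by positivity)]
    rfl
  have hsub : Metric.ball (0 : E d) (r / 2) ⊆ Metric.ball 0 r :=
    Metric.ball_subset_ball (by linarith)
  have hann : (volume : Measure (E d)).real (Metric.ball 0 r \ Metric.ball 0 (r / 2)) ≥
      1 / 2 * (r ^ d * B) := by
    rw [measureReal_sdiff hsub measurableSet_ball, hvol r hr, hvol (r / 2) (by linarith)]
    have h1 : (r / 2) ^ d = r ^ d * (1 / 2) ^ d := by
      rw [← mul_pow]; congr 1; ring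
    rw [h1]
    have h2 : 0 < r ^ d * B := by positivity
    nlinarith
  have hint : Integrable (WW d q) volume := by
    have hd0 : (0 : ℝ) ≤ d := Nat.cast_nonneg d
    refine (p147_rad d hd (d / q) 2 (div_le_self hd0 hq) le_rfl).congr ?_
    exact Eventually.of_forall fun x => (p147_WW_one d q x).symm
  have hLr := p147_L hr.le (by linarith : r < 1)
  set m : ℝ := r ^ (-((d : ℝ) / q)) * (1 / 4 * ((1 - Real.log r) ^ 2)⁻¹) with hm
  have hm0 : 0 ≤ m := by positivity
  have hlow : ∀ x ∈ Metric.ball (0 : E d) r \ Metric.ball 0 (r / 2), m ≤ WW d q x := by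
    intro x hx
    have hx1 : ‖x‖ < r := by simpa using hx.1
    have hx2 : r / 2 ≤ ‖x‖ := by simpa using hx.2
    have hx0 : 0 < ‖x‖ := by linarith
    unfold WW
    rw [if_pos (by linarith), hm]
    have hd0 : (0 : ℝ) ≤ d := Nat.cast_nonneg d
    have e1 : r ^ (-((d : ℝ) / q)) ≤ ‖x‖ ^ (-((d : ℝ) / q)) := by
      refine Real.rpow_le_rpow_of_nonpos hx0 hx1.le ?_
      have : 0 ≤ (d : ℝ) / q := by positivity
      linarith
    have e2 : 1 / 4 * ((1 - Real.log r) ^ 2)⁻¹ ≤ ((1 - Real.log ‖x‖) ^ 2)⁻¹ := by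
      have f1 : Real.log (r / 2) ≤ Real.log ‖x‖ := Real.log_le_log (by linarith) hx2
      have f2 : Real.log (r / 2) = Real.log r - Real.log 2 :=
        Real.log_div hr.ne' (by norm_num)
      have f3 : Real.log 2 ≤ 1 := by
        have := Real.log_two_lt_d9
        linarith
      have f4 : 1 - Real.log ‖x‖ ≤ 2 * (1 - Real.log r) := by linarith
      have f5 : 1 ≤ 1 - Real.log ‖x‖ := p147_L hx0.le (by linarith)
      have f6 : (1 - Real.log ‖x‖) ^ 2 ≤ 4 * (1 - Real.log r) ^ 2 := by nlinarith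
      have f7 : 1 / 4 * ((1 - Real.log r) ^ 2)⁻¹ = (4 * (1 - Real.log r) ^ 2)⁻¹ := by
        rw [mul_inv]; norm_num
      rw [f7]
      exact inv_anti₀ (by positivity) f6
    exact mul_le_mul e1 e2 (by positivity) (by positivity)
  have hA : MeasurableSet (Metric.ball (0 : E d) r \ Metric.ball 0 (r / 2)) :=
    measurableSet_ball.diff measurableSet_ball
  have hfin : volume (Metric.ball (0 : E d) r \ Metric.ball 0 (r / 2)) ≠ ⊤ :=
    ((measure_mono sdiff_subset).trans_lt measure_ball_lt_top).ne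
  calc 1 / 8 * B * r ^ ((d : ℝ) - (d : ℝ) / q) * ((1 - Real.log r) ^ 2)⁻¹
      = m * (1 / 2 * (r ^ d * B)) := by
        rw [hm, sub_eq_add_neg, Real.rpow_add hr, Real.rpow_natCast]
        ring
    _ ≤ m * (volume : Measure (E d)).real (Metric.ball 0 r \ Metric.ball 0 (r / 2)) := by
        gcongr
    _ = ∫ x in Metric.ball (0 : E d) r \ Metric.ball 0 (r / 2), m := by
        rw [setIntegral_const, smul_eq_mul, mul_comm]
    _ ≤ ∫ x in Metric.ball (0 : E d) r \ Metric.ball 0 (r / 2), WW d q x := by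
        refine setIntegral_mono_on ?_ hint.integrableOn hA hlow
        exact integrableOn_const hfin
    _ ≤ ∫ x in Metric.ball (0 : E d) r, WW d q x := by
        refine setIntegral_mono_set hint.integrableOn ?_ ?_
        · exact Eventually.of_forall fun x => p147_WW_nonneg d q x
        · exact (sdiff_subset).eventuallyLE

end Pool.Agent.Helper41.CE
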