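import Pool.Agent.Helper41.CE.Defs
import Pool.Agent.Helper41.CE.CE02
import Pool.Agent.Helper41.CE.CE03
import Pool.Agent.Helper41.CE.CE04
import Pool.Agent.Helper41.CE.CE05

/-!
# Semiclassical eigenvalue bounds for Schroedinger operators: definitions
-/

open MeasureTheory Filter Topology Set
open scoped ENNReal NNReal ContDiff

namespace Pool.Agent.Helper41.CE


/-! ### helper lemmas -/

theorem tf_kint {X : Type*} [MeasurableSpace X] (m : Measure X) [SFinite m]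
    (k : X → X → ℝ≥0∞) (hk : Measurable (Function.uncurry k)) (hsym : ∀ x y, k x y = k y x)
    (C : ℝ) (hb : ∀ x, ∫⁻ y, k x y ∂m ≤ ENNReal.ofReal C) (g : Lp ℝ 2 m) :
    ∀ᵐ x ∂m, Integrable (fun y => (k x y).toReal * g y) m := by
  have hg : Measurable (g : X → ℝ) := (Lp.stronglyMeasurable g).measurable
  have hg2 : ∫⁻ y, ‖g y‖ₑ ^ 2 ∂m < ⊤ := by
    have h1 := (Lp.memLp g).2
    rw [eLpNorm_lt_top_iff_lintegral_rpow_enorm_lt_top (by norm_num) (by norm_num)] at h1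
    simpa using h1
  have hm2 : Measurable (Function.uncurry fun x y => k x y * ‖g y‖ₑ ^ 2) :=
    hk.mul ((hg.enorm.pow_const 2).comp measurable_snd)
  have h1 : ∫⁻ x, ∫⁻ y, k x y * ‖g y‖ₑ ^ 2 ∂m ∂m ≤ ENNReal.ofReal C * ∫⁻ y, ‖g y‖ₑ ^ 2 ∂m := by
    rw [lintegral_lintegral_swap hm2.aemeasurable,
      ← lintegral_const_mul _ (hg.enorm.pow_const 2)]
    refine lintegral_mono fun y => ?_
    rw [lintegral_mul_const]
    · gcongr
      calc ∫⁻ x, k x y ∂m = ∫⁻ x, k y x ∂m := lintegral_congr fun x => hsym x y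
        _ ≤ _ := hb y
    · exact hk.comp (measurable_id.prodMk measurable_const)
  have h2 : ∫⁻ x, ∫⁻ y, k x y * ‖g y‖ₑ ^ 2 ∂m ∂m ≠ ⊤ :=
    (h1.trans_lt (ENNReal.mul_lt_top ENNReal.ofReal_lt_top hg2)).ne
  filter_upwards [ae_lt_top hm2.lintegral_prod_right' h2] with x hx
  have hkx : Measurable (k x) := hk.comp (measurable_const.prodMk measurable_id)
  refine ⟨(hkx.ennreal_toReal.mul hg).aestronglyMeasurable, ?_⟩
  have h3 : ∫⁻ y, ‖(k x y).toReal * g y‖ₑ ∂m ≤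
      ∫⁻ y, (k x y + k x y * ‖g y‖ₑ ^ 2) ∂m := by
    refine lintegral_mono fun y => ?_
    rw [enorm_mul]
    have e1 : ‖(k x y).toReal‖ₑ ≤ k x y := by
      rw [Real.enorm_of_nonneg ENNReal.toReal_nonneg]
      exact ENNReal.ofReal_toReal_le
    have e2 : ‖g y‖ₑ ≤ 1 + ‖g y‖ₑ ^ 2 := by
      rcases le_total ‖g y‖ₑ 1 with h | h
      · exact h.trans le_self_add
      · calc ‖g y‖ₑ = ‖g y‖ₑ ^ 1 := (pow_one _).symm
          _ ≤ ‖g y‖ₑ ^ 2 := pow_le_pow_right₀ h (by norm_num)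
          _ ≤ _ := le_add_self
    calc ‖(k x y).toReal‖ₑ * ‖g y‖ₑ ≤ k x y * (1 + ‖g y‖ₑ ^ 2) := mul_le_mul' e1 e2
      _ = _ := by rw [mul_add, mul_one]
  refine lt_of_le_of_lt h3 ?_
  rw [lintegral_add_left hkx]
  exact ENNReal.add_lt_top.2 ⟨lt_of_le_of_lt (hb x) ENNReal.ofReal_lt_top, hx⟩

theorem tf_add {X : Type*} [MeasurableSpace X] (m : Measure X) [SFinite m]
    (k1 k2 k3 : X → X → ℝ≥0∞) (hk1 : Measurable (Function.uncurry k1))
    (hk2 : Measurable (Function.uncurry k2)) (hs1 : ∀ x y, k1 x y = k1 y x)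
    (hs2 : ∀ x y, k2 x y = k2 y x) (C1 C2 : ℝ)
    (hb1 : ∀ x, ∫⁻ y, k1 x y ∂m ≤ ENNReal.ofReal C1)
    (hb2 : ∀ x, ∫⁻ y, k2 x y ∂m ≤ ENNReal.ofReal C2)
    (h3 : ∀ x y, k3 x y = k1 x y + k2 x y)
    (T1 T2 T3 : Lp ℝ 2 m →L[ℝ] Lp ℝ 2 m)
    (hT1 : ∀ g : Lp ℝ 2 m, T1 g =ᵐ[m] fun x => ∫ y, (k1 x y).toReal * g y ∂m)
    (hT2 : ∀ g : Lp ℝ 2 m, T2 g =ᵐ[m] fun x => ∫ y, (k2 x y).toReal * g y ∂m)
    (hT3 : ∀ g : Lp ℝ 2 m, T3 g =ᵐ[m] fun x => ∫ y, (k3 x y).toReal * g y ∂m) :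
    T3 = T1 + T2 := by
  ext1 g
  apply Lp.ext
  rw [add_apply]
  filter_upwards [hT1 g, hT2 g, hT3 g, Lp.coeFn_add (T1 g) (T2 g),
    tf_kint m k1 hk1 hs1 C1 hb1 g, tf_kint m k2 hk2 hs2 C2 hb2 g] with x e1 e2 e3 e4 i1 i2
  rw [e4, Pi.add_apply, e1, e2, e3, ← integral_add i1 i2]
  have hk1x : Measurable (k1 x) := hk1.comp (measurable_const.prodMk measurable_id)
  have hk2x : Measurable (k2 x) := hk2.comp (measurable_const.prodMk measurable_id)
  have f1 := ae_lt_top hk1x (lt_of_le_of_lt (hb1 x) ENNReal.ofReal_lt_top).ne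
  have f2 := ae_lt_top hk2x (lt_of_le_of_lt (hb2 x) ENNReal.ofReal_lt_top).ne
  refine integral_congr_ae ?_
  filter_upwards [f1, f2] with y y1 y2
  rw [h3, ENNReal.toReal_add y1.ne y2.ne]
  ring

theorem tf_Kw_add {d : ℕ} (w1 w2 : ℝ → ℝ≥0∞) (h1 : Measurable w1) (z : E d) :
    Kw (fun t => w1 t + w2 t) z = Kw w1 z + Kw w2 z := by
  unfold Kw
  rw [← lintegral_add_left]
  · exact lintegral_congr fun t => add_mul _ _ _
  · exact h1.mul (pt_meas.comp (measurable_id.prodMk measurable_const)).ennreal_ofReal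

/-- the integral of the weight -/
noncomputable def tfI (A : ℝ) (w : ℝ → ℝ≥0∞) : ℝ≥0∞ :=
  ∫⁻ t in Ioi (0 : ℝ), w t * ENNReal.ofReal (t ^ (-A))

/-- exponential weight -/
noncomputable def tfw (κ : ℝ) (t : ℝ) : ℝ≥0∞ := ENNReal.ofReal (Real.exp (-κ ^ 2 * t))

theorem tfw_meas (κ : ℝ) : Measurable (tfw κ) := by
  unfold tfw
  fun_prop

theorem tfI_add (A : ℝ) (w1 w2 : ℝ → ℝ≥0∞) (h1 : Measurable w1) :
    tfI A (fun t => w1 t + w2 t) = tfI A w1 + tfI A w2 := by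
  unfold tfI
  rw [← lintegral_add_left]
  · exact lintegral_congr fun t => add_mul _ _ _
  · exact h1.mul (by fun_prop)

theorem tfI_exp (A : ℝ) (hA : A < 1) (κ : ℝ) (hκ : 0 < κ) :
    tfI A (tfw κ) = ENNReal.ofReal ((1 / κ ^ 2) ^ (1 - A) * Real.Gamma (1 - A)) := by
  have hk2 : 0 < κ ^ 2 := by positivity
  rw [← Real.integral_rpow_mul_exp_neg_mul_Ioi (by linarith : 0 < 1 - A) hk2]
  have hint : IntegrableOn (fun t : ℝ => t ^ (1 - A - 1) * Real.exp (-(κ ^ 2 * t))) (Ioi 0) := by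
    have h := integrableOn_rpow_mul_exp_neg_mul_rpow (p := 1) (s := 1 - A - 1) (b := κ ^ 2)
      (by linarith) one_pos hk2
    simpa using h
  rw [ofReal_integral_eq_lintegral_ofReal hint]
  · unfold tfI tfw
    refine setLIntegral_congr_fun measurableSet_Ioi fun t ht => ?_
    rw [← ENNReal.ofReal_mul (Real.exp_pos _).le, mul_comm]
    congr 2
    · congr 1; ring
    · congr 1; ring
  · filter_upwards [ae_restrict_mem measurableSet_Ioi] with t ht
    have : (0 : ℝ) < t := ht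
    positivity

theorem tf_mW_finite {d : ℕ} (W : E d → ℝ) (hI : Integrable W volume) : IsFiniteMeasure (mW W) :=
  isFiniteMeasure_withDensity_ofReal hI.2

theorem tf_Kw_meas2 {d : ℕ} (w : ℝ → ℝ≥0∞) (hw : Measurable w) :
    Measurable (Function.uncurry fun x y : E d => Kw w (x - y)) :=
  (Kw_meas w hw).comp (measurable_fst.sub measurable_snd)

theorem tf_Kw_sym2 {d : ℕ} (w : ℝ → ℝ≥0∞) (x y : E d) : Kw w (x - y) = Kw w (y - x) := by
  rw [← Kw_symm w (x - y), neg_sub]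

theorem tf_Kw_lint {d : ℕ} (W : E d → ℝ) (hm : Measurable W) (w : ℝ → ℝ≥0∞) (hw : Measurable w)
    (x : E d) : ∫⁻ y, Kw w (x - y) ∂(mW W) = ∫⁻ y, Kw w (x - y) * ENNReal.ofReal (W y) := by
  have hmeas : Measurable fun y => Kw w (x - y) :=
    (Kw_meas w hw).comp (measurable_const.sub measurable_id)
  unfold mW
  rw [lintegral_withDensity_eq_lintegral_mul _ hm.ennreal_ofReal hmeas]
  exact lintegral_congr fun y => mul_comm _ _

/-- the truncated weight gives a compact operator -/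
theorem tf_compact {d : ℕ} (W : E d → ℝ) (hI : Integrable W volume) (κ τ : ℝ) (hκ : 0 < κ)
    (hτ : 0 < τ) (T : Lp ℝ 2 (mW W) →L[ℝ] Lp ℝ 2 (mW W))
    (hT : ∀ g : Lp ℝ 2 (mW W), T g =ᵐ[mW W]
      fun x => ∫ y, (Kw (fun t => if t ≤ τ then 0 else tfw κ t) (x - y)).toReal * g y ∂(mW W)) :
    IsCompactOperator T := by
  have := tf_mW_finite W hI
  set H : E d → ℝ := fun z => ∫ t in Ioi τ, Real.exp (-κ ^ 2 * t) * pt t z with hH
  set c : ℝ := (4 * Real.pi * τ) ^ (-((d : ℝ) / 2)) with hc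
  have hc0 : 0 < c := Real.rpow_pos_of_pos (by positivity) _
  have hpt0 : ∀ t, τ < t → ∀ z : E d, 0 ≤ pt t z ∧ pt t z ≤ c := by
    intro t ht z
    have h0t : 0 < t := hτ.trans ht
    refine ⟨((pt_facts h0t).1 z).le, ((pt_facts h0t).2.2.2.2.1 z).trans ?_⟩
    rw [hc, Real.rpow_neg (by positivity), Real.rpow_neg (by positivity)]
    apply inv_anti₀ (Real.rpow_pos_of_pos (by positivity) _)
    apply Real.rpow_le_rpow (by positivity)
    · have : 0 < 4 * Real.pi := by positivity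
      nlinarith
    · positivity
  have hexpI : IntegrableOn (fun t : ℝ => Real.exp (-κ ^ 2 * t)) (Ioi τ) :=
    integrableOn_exp_mul_Ioi (by nlinarith [pow_pos hκ 2]) τ
  have hmeas : ∀ z : E d, Measurable fun t : ℝ => Real.exp (-κ ^ 2 * t) * pt t z := by
    intro z
    have h1 : Measurable fun t : ℝ => Real.exp (-κ ^ 2 * t) := by fun_prop
    exact h1.mul (pt_meas.comp (measurable_id.prodMk measurable_const))
  have hbd : ∀ z : E d, ∀ᵐ t ∂(volume.restrict (Ioi τ)),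
      ‖Real.exp (-κ ^ 2 * t) * pt t z‖ ≤ c * Real.exp (-κ ^ 2 * t) := by
    intro z
    filter_upwards [ae_restrict_mem measurableSet_Ioi] with t ht
    obtain ⟨h1, h2⟩ := hpt0 t ht z
    rw [Real.norm_of_nonneg (mul_nonneg (Real.exp_pos _).le h1), mul_comm]
    exact mul_le_mul_of_nonneg_right h2 (Real.exp_pos _).le
  have hHc : Continuous H := by
    refine continuous_of_dominated (bound := fun t => c * Real.exp (-κ ^ 2 * t))
      (fun z => (hmeas z).aestronglyMeasurable) hbd (hexpI.const_mul c) ?_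
    filter_upwards [ae_restrict_mem measurableSet_Ioi] with t ht
    have h0t : 0 < t := hτ.trans ht
    exact continuous_const.mul (pt_facts h0t).2.1
  have hHK : ∀ z, (Kw (fun t => if t ≤ τ then 0 else tfw κ t) z).toReal = H z := by
    intro z
    have h1 : Kw (fun t => if t ≤ τ then 0 else tfw κ t) z =
        ∫⁻ t in Ioi τ, ENNReal.ofReal (Real.exp (-κ ^ 2 * t) * pt t z) := by
      unfold Kw
      rw [← lintegral_indicator measurableSet_Ioi, ← lintegral_indicator measurableSet_Ioi]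
      refine lintegral_congr fun t => ?_
      by_cases ht : t ≤ τ
      · rw [indicator_of_notMem (s := Ioi τ) (not_lt.2 ht)]
        simp [indicator, ht]
      · push Not at ht
        have h0t : 0 < t := hτ.trans ht
        rw [indicator_of_mem (s := Ioi τ) ht, indicator_of_mem (s := Ioi (0 : ℝ)) h0t,
          ENNReal.ofReal_mul (Real.exp_pos _).le]
        show (if t ≤ τ then 0 else tfw κ t) * _ = _
        rw [if_neg (not_le.2 ht), tfw]
    rw [h1, hH]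
    simp only
    rw [integral_eq_lintegral_of_nonneg_ae]
    · filter_upwards [ae_restrict_mem measurableSet_Ioi] with t ht
      exact mul_nonneg (Real.exp_pos _).le (hpt0 t ht z).1
    · exact (hmeas z).aestronglyMeasurable
  refine kernel_compact (mW W) (fun x y => H (x - y))
    (hHc.comp (continuous_fst.sub continuous_snd))
    (∫ t in Ioi τ, c * Real.exp (-κ ^ 2 * t)) ?_ T ?_
  · intro x y
    rw [← Real.norm_eq_abs]
    exact norm_integral_le_of_norm_le (hexpI.const_mul c) (hbd (x - y))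
  · intro g
    simp only [← hHK]
    exact hT g

/-! ## TARGETS: prove these (statements must not be changed; helper lemmas are welcome) -/

section TF

variable (d : ℕ) (q : ℝ) (hq : 1 ≤ q) (hqd : (d : ℝ) / q < 2) (hd : 1 ≤ d)
  (W : E d → ℝ) (h0 : ∀ x, 0 ≤ W x) (hm : Measurable W)
  (hW : MemLp W (ENNReal.ofReal q) volume) (hI : Integrable W volume)

include hq h0 hm hW

include hqd hI

theorem Kw_op : ∃ C : ℝ, 0 < C ∧ ∀ w : ℝ → ℝ≥0∞, Measurable w →
    (∫⁻ t in Ioi (0 : ℝ), w t * ENNReal.ofReal (t ^ (-((d : ℝ) / (2 * q))))) < ⊤ →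
    ∃ T : Lp ℝ 2 (mW W) →L[ℝ] Lp ℝ 2 (mW W),
      ‖T‖ ≤ C * (∫⁻ t in Ioi (0 : ℝ),
        w t * ENNReal.ofReal (t ^ (-((d : ℝ) / (2 * q))))).toReal ∧
      (∀ g : Lp ℝ 2 (mW W), T g =ᵐ[mW W] fun x => ∫ y, (Kw w (x - y)).toReal * g y ∂(mW W)) ∧
      (∀ f g : Lp ℝ 2 (mW W), inner ℝ (T f) g = inner ℝ f (T g)) ∧
      (∀ x : E d, ∫⁻ y, Kw w (x - y) ∂(mW W) < ⊤) := by
  obtain ⟨C0, hC0, hKb⟩ := Kw_bound d q hq
  have hfin := tf_mW_finite W hI
  refine ⟨C0 * (eLpNorm W (ENNReal.ofReal q) volume).toReal + 1, by positivity, ?_⟩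
  intro w hw hwI
  set S : ℝ≥0∞ := ∫⁻ t in Ioi (0 : ℝ), w t * ENNReal.ofReal (t ^ (-((d : ℝ) / (2 * q)))) with hS
  set L : ℝ≥0∞ := eLpNorm W (ENNReal.ofReal q) volume with hL
  have hLt : L ≠ ⊤ := hW.2.ne
  have hb : ∀ x : E d, ∫⁻ y, Kw w (x - y) ∂(mW W) ≤
      ENNReal.ofReal ((C0 * L.toReal + 1) * S.toReal) := by
    intro x
    rw [tf_Kw_lint W hm w hw x]
    refine (hKb W h0 hm hW w hw x).trans ?_
    rw [← hS, ← hL]
    calc ENNReal.ofReal C0 * S * L
        = ENNReal.ofReal C0 * ENNReal.ofReal S.toReal * ENNReal.ofReal L.toReal := by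
          rw [ENNReal.ofReal_toReal hwI.ne, ENNReal.ofReal_toReal hLt]
      _ = ENNReal.ofReal (C0 * S.toReal * L.toReal) := by
          rw [ENNReal.ofReal_mul (by positivity), ENNReal.ofReal_mul hC0.le]
      _ ≤ _ := by
          apply ENNReal.ofReal_le_ofReal
          have : 0 ≤ S.toReal := ENNReal.toReal_nonneg
          nlinarith
  obtain ⟨T, hT1, hT2, hT3⟩ := kernel_op (mW W) (fun x y => Kw w (x - y)) (tf_Kw_meas2 w hw)
    (fun x y => tf_Kw_sym2 w x y) ((C0 * L.toReal + 1) * S.toReal) (by positivity) hb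
  exact ⟨T, hT1, hT2, hT3, fun x => lt_of_le_of_lt (hb x) ENNReal.ofReal_lt_top⟩

theorem T_family : ∃ T : ℝ → (Lp ℝ 2 (mW W) →L[ℝ] Lp ℝ 2 (mW W)),
    (∀ κ, 0 < κ → ∀ g : Lp ℝ 2 (mW W),
      T κ g =ᵐ[mW W] fun x => ∫ y, (G κ (x - y)).toReal * g y ∂(mW W)) ∧
    (∀ κ, 0 < κ → ∀ f g : Lp ℝ 2 (mW W), inner ℝ (T κ f) g = inner ℝ f (T κ g)) ∧
    (∀ κ, 0 < κ → IsCompactOperator (T κ)) ∧ ContinuousOn T (Ioi 0) ∧
    Tendsto (fun κ => ‖T κ‖) atTop (𝓝 0) := by
  obtain ⟨C, hC, hop⟩ := Kw_op d q hq hqd W h0 hm hW hI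
  have hfin := tf_mW_finite W hI
  obtain ⟨C0, hC0, hKb⟩ := Kw_bound d q hq
  have hA : (d : ℝ) / (2 * q) < 1 := by
    have hq0 : 0 < q := by linarith
    rw [div_lt_iff₀ (by linarith)]
    rw [div_lt_iff₀ hq0] at hqd
    linarith
  set A : ℝ := (d : ℝ) / (2 * q) with hAdef
  -- Schur bound for every admissible weight
  have hschur : ∀ w : ℝ → ℝ≥0∞, Measurable w → tfI A w < ⊤ → ∃ B : ℝ,
      ∀ x : E d, ∫⁻ y, Kw w (x - y) ∂(mW W) ≤ ENNReal.ofReal B := by
    intro w hw hwI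
    refine ⟨(ENNReal.ofReal C0 * tfI A w * eLpNorm W (ENNReal.ofReal q) volume).toReal, ?_⟩
    intro x
    rw [ENNReal.ofReal_toReal
      (ENNReal.mul_lt_top (ENNReal.mul_lt_top ENNReal.ofReal_lt_top hwI) hW.2).ne,
      tf_Kw_lint W hm w hw x]
    exact hKb W h0 hm hW w hw x
  -- additivity
  have hadd : ∀ w1 w2 : ℝ → ℝ≥0∞, Measurable w1 → Measurable w2 → tfI A w1 < ⊤ → tfI A w2 < ⊤ →
      ∀ T1 T2 T3 : Lp ℝ 2 (mW W) →L[ℝ] Lp ℝ 2 (mW W),
      (∀ g : Lp ℝ 2 (mW W), T1 g =ᵐ[mW W] fun x => ∫ y, (Kw w1 (x - y)).toReal * g y ∂(mW W)) →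
      (∀ g : Lp ℝ 2 (mW W), T2 g =ᵐ[mW W] fun x => ∫ y, (Kw w2 (x - y)).toReal * g y ∂(mW W)) →
      (∀ g : Lp ℝ 2 (mW W), T3 g =ᵐ[mW W]
        fun x => ∫ y, (Kw (fun t => w1 t + w2 t) (x - y)).toReal * g y ∂(mW W)) →
      T3 = T1 + T2 := by
    intro w1 w2 h1 h2 i1 i2 T1 T2 T3 e1 e2 e3
    obtain ⟨B1, hB1⟩ := hschur w1 h1 i1
    obtain ⟨B2, hB2⟩ := hschur w2 h2 i2
    exact tf_add (mW W) (fun x y => Kw w1 (x - y)) (fun x y => Kw w2 (x - y))
      (fun x y => Kw (fun t => w1 t + w2 t) (x - y)) (tf_Kw_meas2 w1 h1) (tf_Kw_meas2 w2 h2)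
      (fun x y => tf_Kw_sym2 w1 x y) (fun x y => tf_Kw_sym2 w2 x y) B1 B2 hB1 hB2
      (fun x y => tf_Kw_add w1 w2 h1 (x - y)) T1 T2 T3 e1 e2 e3
  have hfinI : ∀ κ : ℝ, 0 < κ → tfI A (tfw κ) < ⊤ := by
    intro κ hκ
    rw [tfI_exp A hA κ hκ]
    exact ENNReal.ofReal_lt_top
  set J : ℝ → ℝ := fun κ => (1 / κ ^ 2) ^ (1 - A) * Real.Gamma (1 - A) with hJ
  have hΓ : 0 < Real.Gamma (1 - A) := Real.Gamma_pos_of_pos (by linarith)
  have hJnn : ∀ κ, 0 ≤ J κ := by
    intro κ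
    simp only [hJ]
    positivity
  have hIJ : ∀ κ : ℝ, 0 < κ → (tfI A (tfw κ)).toReal = J κ := by
    intro κ hκ
    rw [tfI_exp A hA κ hκ, ENNReal.toReal_ofReal (hJnn κ)]
  have hex : ∀ κ : ℝ, ∃ T : Lp ℝ 2 (mW W) →L[ℝ] Lp ℝ 2 (mW W), 0 < κ →
      ‖T‖ ≤ C * J κ ∧
      (∀ g : Lp ℝ 2 (mW W), T g =ᵐ[mW W]
        fun x => ∫ y, (Kw (tfw κ) (x - y)).toReal * g y ∂(mW W)) ∧
      (∀ f g : Lp ℝ 2 (mW W), inner ℝ (T f) g = inner ℝ f (T g)) := by
    intro κ
    by_cases hκ : 0 < κ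
    · obtain ⟨T, t1, t2, t3, _⟩ := hop (tfw κ) (tfw_meas κ) (hfinI κ hκ)
      refine ⟨T, fun _ => ⟨?_, t2, t3⟩⟩
      have := hIJ κ hκ
      unfold tfI at this
      rwa [this] at t1
    · exact ⟨0, fun h => absurd h hκ⟩
  choose T hT using hex
  -- differences
  have hdiff : ∀ κ κ' : ℝ, 0 < κ → κ ≤ κ' → ‖T κ - T κ'‖ ≤ C * |J κ - J κ'| := by
    intro κ κ' hκ hle
    have hκ' : 0 < κ' := lt_of_lt_of_le hκ hle
    set w : ℝ → ℝ≥0∞ := fun t => tfw κ t - tfw κ' t with hw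
    have hwm : Measurable w := (tfw_meas κ).sub (tfw_meas κ')
    -- on the positive half line the weights add up
    have hpt : ∀ t : ℝ, 0 < t → tfw κ' t ≤ tfw κ t := by
      intro t ht
      unfold tfw
      apply ENNReal.ofReal_le_ofReal
      apply Real.exp_le_exp.2
      have : κ ^ 2 ≤ κ' ^ 2 := by gcongr
      nlinarith
    have hsum : ∀ t : ℝ, 0 < t → tfw κ' t + w t = tfw κ t := by
      intro t ht
      exact add_tsub_cancel_of_le (hpt t ht)
    have hIs : tfI A (fun t => tfw κ' t + w t) = tfI A (tfw κ) := by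
      unfold tfI
      refine setLIntegral_congr_fun measurableSet_Ioi fun t ht => ?_
      show (tfw κ' t + w t) * _ = _
      rw [hsum t ht]
    rw [tfI_add A _ _ (tfw_meas κ')] at hIs
    have hwI : tfI A w < ⊤ := by
      have h1 : tfI A w ≤ tfI A (tfw κ) := by rw [← hIs]; exact le_add_self
      exact lt_of_le_of_lt h1 (hfinI κ hκ)
    have hKs : ∀ z : E d, Kw (fun t => tfw κ' t + w t) z = Kw (tfw κ) z := by
      intro z
      unfold Kw
      refine setLIntegral_congr_fun measurableSet_Ioi fun t ht => ?_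
      show (tfw κ' t + w t) * _ = _
      rw [hsum t ht]
    obtain ⟨S, s1, s2, s3, _⟩ := hop w hwm hwI
    have h3 := hadd (tfw κ') w (tfw_meas κ') hwm (hfinI κ' hκ') hwI (T κ') S (T κ)
      (hT κ' hκ').2.1 s2 (by
        intro g
        simp only [hKs]
        exact (hT κ hκ).2.1 g)
    have h4 : T κ - T κ' = S := by rw [h3]; abel
    rw [h4]
    have h5 : (tfI A w).toReal = J κ - J κ' := by
      rw [← hIJ κ hκ, ← hIJ κ' hκ', ← hIs, ENNReal.toReal_add (hfinI κ' hκ').ne hwI.ne]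
      ring
    have h6 : ‖S‖ ≤ C * (tfI A w).toReal := s1
    rw [h5] at h6
    exact h6.trans (mul_le_mul_of_nonneg_left (le_abs_self _) hC.le)
  have hdiff' : ∀ κ κ' : ℝ, 0 < κ → 0 < κ' → ‖T κ - T κ'‖ ≤ C * |J κ - J κ'| := by
    intro κ κ' h1 h2
    rcases le_total κ κ' with h | h
    · exact hdiff κ κ' h1 h
    · rw [norm_sub_rev, abs_sub_comm]
      exact hdiff κ' κ h2 h
  refine ⟨T, ?_, fun κ hκ => (hT κ hκ).2.2, ?_, ?_, ?_⟩
  · intro κ hκ g
    have h1 := (hT κ hκ).2.1 g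
    have h2 : ∀ z : E d, G κ z = Kw (tfw κ) z := fun z => G_eq_Kw κ z
    simp only [h2]
    exact h1
  · -- compactness
    intro κ hκ
    have hF : ∀ n : ℕ, ∃ F : Lp ℝ 2 (mW W) →L[ℝ] Lp ℝ 2 (mW W), IsCompactOperator F ∧
        ‖T κ - F‖ ≤ C * (∫⁻ t in Iic (1 / ((n : ℝ) + 1)), tfw κ t * ENNReal.ofReal (t ^ (-A))
          ∂(volume.restrict (Ioi 0))).toReal := by
      intro n
      set τ : ℝ := 1 / ((n : ℝ) + 1) with hτ
      have hτ0 : 0 < τ := by positivity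
      set w1 : ℝ → ℝ≥0∞ := fun t => if t ≤ τ then tfw κ t else 0 with hw1
      set w2 : ℝ → ℝ≥0∞ := fun t => if t ≤ τ then 0 else tfw κ t with hw2
      have m1 : Measurable w1 :=
        Measurable.ite measurableSet_Iic (tfw_meas κ) measurable_const
      have m2 : Measurable w2 :=
        Measurable.ite measurableSet_Iic measurable_const (tfw_meas κ)
      have hsum : (fun t => w1 t + w2 t) = tfw κ := by
        funext t
        simp only [hw1, hw2]
        split_ifs <;> simp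
      have hIs : tfI A w1 + tfI A w2 = tfI A (tfw κ) := by
        rw [← tfI_add A _ _ m1, hsum]
      have hI1 : tfI A w1 < ⊤ := lt_of_le_of_lt (by rw [← hIs]; exact le_self_add) (hfinI κ hκ)
      have hI2 : tfI A w2 < ⊤ := lt_of_le_of_lt (by rw [← hIs]; exact le_add_self) (hfinI κ hκ)
      obtain ⟨S1, a1, a2, a3, _⟩ := hop w1 m1 hI1
      obtain ⟨S2, b1, b2, b3, _⟩ := hop w2 m2 hI2
      have h3 := hadd w1 w2 m1 m2 hI1 hI2 S1 S2 (T κ) a2 b2 (by
        rw [hsum]; exact (hT κ hκ).2.1)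
      refine ⟨S2, tf_compact W hI κ τ hκ hτ0 S2 b2, ?_⟩
      have h4 : T κ - S2 = S1 := by rw [h3]; abel
      rw [h4]
      have h5 : tfI A w1 = ∫⁻ t in Iic τ, tfw κ t * ENNReal.ofReal (t ^ (-A))
          ∂(volume.restrict (Ioi 0)) := by
        unfold tfI
        rw [← lintegral_indicator measurableSet_Iic]
        refine lintegral_congr fun t => ?_
        simp only [hw1]
        by_cases ht : t ≤ τ
        · rw [indicator_of_mem (s := Iic τ) ht, if_pos ht]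
        · rw [indicator_of_notMem (s := Iic τ) ht, if_neg ht, zero_mul]
      rw [← h5]
      exact a1
    choose F hF1 hF2 using hF
    have hlim : Tendsto (fun n : ℕ => ∫⁻ t in Iic (1 / ((n : ℝ) + 1)),
        tfw κ t * ENNReal.ofReal (t ^ (-A)) ∂(volume.restrict (Ioi 0))) atTop (𝓝 0) := by
      apply tendsto_setLIntegral_zero (hfinI κ hκ).ne
      have h1 : ∀ n : ℕ, (volume.restrict (Ioi (0 : ℝ))) (Iic (1 / ((n : ℝ) + 1))) =
          ENNReal.ofReal (1 / ((n : ℝ) + 1)) := by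
        intro n
        rw [Measure.restrict_apply measurableSet_Iic, inter_comm, Ioi_inter_Iic, Real.volume_Ioc,
          sub_zero]
      show Tendsto (fun n : ℕ => (volume.restrict (Ioi (0 : ℝ))) (Iic (1 / ((n : ℝ) + 1))))
        atTop (𝓝 0)
      simp only [h1]
      have h2 := ENNReal.tendsto_ofReal (tendsto_one_div_add_atTop_nhds_zero_nat (𝕜 := ℝ))
      simpa using h2
    have hlim2 : Tendsto F atTop (𝓝 (T κ)) := by
      rw [tendsto_iff_norm_sub_tendsto_zero]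
      have h1 := ((ENNReal.tendsto_toReal (by simp : (0 : ℝ≥0∞) ≠ ⊤)).comp hlim).const_mul C
      simp only [ENNReal.toReal_zero, mul_zero] at h1
      refine squeeze_zero (fun n => norm_nonneg _) (fun n => ?_) h1
      rw [norm_sub_rev]
      exact hF2 n
    exact isCompactOperator_of_tendsto hlim2 (Eventually.of_forall hF1)
  · -- continuity
    intro κ0 hκ0
    have hκ0' : (0 : ℝ) < κ0 := hκ0
    have hJc : ContinuousAt J κ0 := by
      simp only [hJ]
      refine ContinuousAt.mul ?_ continuousAt_const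
      refine ContinuousAt.rpow_const ?_ (Or.inr (by linarith))
      exact continuousAt_const.div (continuousAt_id.pow 2) (by positivity)
    show Tendsto T (𝓝[Ioi 0] κ0) (𝓝 (T κ0))
    rw [tendsto_iff_norm_sub_tendsto_zero]
    have h1 : Tendsto (fun κ => C * |J κ - J κ0|) (𝓝[Ioi 0] κ0) (𝓝 0) := by
      have h2 : Tendsto (fun κ => C * |J κ - J κ0|) (𝓝 κ0) (𝓝 (C * |J κ0 - J κ0|)) :=
        ((hJc.sub continuousAt_const).abs).const_mul C
      rw [sub_self, abs_zero, mul_zero] at h2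
      exact h2.mono_left nhdsWithin_le_nhds
    refine squeeze_zero' (Eventually.of_forall fun _ => norm_nonneg _) ?_ h1
    filter_upwards [self_mem_nhdsWithin] with κ hκ
    exact hdiff' κ κ0 hκ hκ0'
  · -- decay
    have hJ0 : Tendsto (fun κ => C * J κ) atTop (𝓝 0) := by
      have h1 : Tendsto (fun κ : ℝ => 1 / κ ^ 2) atTop (𝓝 0) := by
        have := tendsto_pow_neg_atTop (𝕜 := ℝ) (n := 2) (by norm_num)
        simp only [one_div]
        exact tendsto_inv_atTop_zero.comp (tendsto_pow_atTop (by norm_num))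
      have h2 := (h1.rpow_const (p := 1 - A) (Or.inr (by linarith)))
      rw [Real.zero_rpow (by linarith)] at h2
      have h3 := (h2.mul_const (Real.Gamma (1 - A))).const_mul C
      simpa [hJ] using h3
    refine squeeze_zero' (Eventually.of_forall fun _ => norm_nonneg _) ?_ hJ0
    filter_upwards [eventually_gt_atTop 0] with κ hκ
    exact (hT κ hκ).1

end TF

end Pool.Agent.Helper41.CE
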