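import Pool.Agent.Helper41.CE.Defs
import Pool.Agent.Helper41.CE.CE04
import Pool.Agent.Helper41.CE.CE05

/-!
# Semiclassical eigenvalue bounds for Schroedinger operators: definitions
-/

open MeasureTheory Filter Topology Set
open scoped ENNReal NNReal ContDiff

namespace Pool.Agent.Helper41.CE


/-! ## TARGETS: prove these (statements must not be changed; helper lemmas are welcome) -/

theorem rayleigh_low {d : ℕ} (W : E d → ℝ) (h0 : ∀ x, 0 ≤ W x) (hm : Measurable W)
    (hI : Integrable W volume) (κ : ℝ) (hκ : 0 < κ)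
    (hfin : ∀ x : E d, ∫⁻ y, G κ (x - y) * ENNReal.ofReal (W y) < ⊤) (c : ℝ) (hc : 0 < c)
    (hlow : ∀ z : E d, ‖z‖ ≤ 2 / κ → ENNReal.ofReal c ≤ G κ z)
    (T : Lp ℝ 2 (mW W) →L[ℝ] Lp ℝ 2 (mW W))
    (hT : ∀ g : Lp ℝ 2 (mW W),
      T g =ᵐ[mW W] fun x => ∫ y, (G κ (x - y)).toReal * g y ∂(mW W))
    (hpos : 0 < ∫ x in Metric.ball (0 : E d) (1 / κ), W x) :
    ∃ g : Lp ℝ 2 (mW W), g ≠ 0 ∧
      c * (∫ x in Metric.ball (0 : E d) (1 / κ), W x) * ‖g‖ ^ 2 ≤ inner ℝ (T g) g := by
  classical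
  obtain ⟨B, hBdef⟩ : ∃ B : Set (E d), B = Metric.ball (0 : E d) (1 / κ) := ⟨_, rfl⟩
  rw [← hBdef] at hpos ⊢
  have hB : MeasurableSet B := by rw [hBdef]; exact measurableSet_ball
  obtain ⟨m, hm'⟩ : ∃ m : ℝ, m = ∫ x in B, W x := ⟨_, rfl⟩
  rw [← hm'] at hpos ⊢
  have hμB : mW W B = ENNReal.ofReal m := by
    unfold mW
    rw [withDensity_apply _ hB, hm',
      ofReal_integral_eq_lintegral_ofReal hI.integrableOn (Eventually.of_forall h0)]
  have hμB' : mW W B ≠ ⊤ := by rw [hμB]; exact ENNReal.ofReal_ne_top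
  have hreal : (mW W).real B = m := by
    rw [measureReal_def, hμB, ENNReal.toReal_ofReal hpos.le]
  let g : Lp ℝ 2 (mW W) := indicatorConstLp 2 hB hμB' (1 : ℝ)
  have hg : (g : E d → ℝ) =ᵐ[mW W] B.indicator fun _ => (1 : ℝ) := indicatorConstLp_coeFn
  have hnorm : ‖g‖ ^ 2 = m := by
    change ‖indicatorConstLp 2 hB hμB' (1 : ℝ)‖ ^ 2 = m
    rw [norm_indicatorConstLp (by norm_num) (by norm_num), hreal]
    simp only [norm_one, one_mul, ENNReal.toReal_ofNat]
    rw [← Real.sqrt_eq_rpow, Real.sq_sqrt hpos.le]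
  refine ⟨g, ?_, ?_⟩
  · intro h
    rw [h, norm_zero] at hnorm
    norm_num at hnorm
    exact hpos.ne hnorm
  have hind : ∀ a : ℝ, Integrable (B.indicator fun _ => a) (mW W) := by
    intro a
    exact (integrable_indicator_iff hB).2 (integrableOn_const hμB')
  -- lower bound for the inner integral
  have hkey : ∀ x ∈ B, c * m ≤ ∫ y, (G κ (x - y)).toReal * g y ∂(mW W) := by
    intro x hx
    have hGm : Measurable fun y => G κ (x - y) := (G_meas κ).comp (measurable_const.sub measurable_id)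
    have hlt : ∫⁻ y, G κ (x - y) ∂(mW W) < ⊤ := by
      have h1 := hfin x
      unfold mW
      rw [lintegral_withDensity_eq_lintegral_mul _ hm.ennreal_ofReal hGm]
      refine lt_of_le_of_lt (le_of_eq ?_) h1
      refine lintegral_congr fun y => ?_
      simp only [Pi.mul_apply]
      exact mul_comm _ _
    have hfinae : ∀ᵐ y ∂(mW W), G κ (x - y) < ⊤ := ae_lt_top hGm hlt.ne
    have hGint : Integrable (fun y => (G κ (x - y)).toReal) (mW W) :=
      integrable_toReal_of_lintegral_ne_top hGm.aemeasurable hlt.ne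
    have h1 : ∫ y, (G κ (x - y)).toReal * g y ∂(mW W) =
        ∫ y, B.indicator (fun y => (G κ (x - y)).toReal) y ∂(mW W) := by
      refine integral_congr_ae ?_
      filter_upwards [hg] with y hy
      rw [hy]
      by_cases hyB : y ∈ B
      · simp [hyB]
      · simp [hyB]
    have h2 : c * m = ∫ y, B.indicator (fun _ => c) y ∂(mW W) := by
      rw [integral_indicator_const c hB, hreal, smul_eq_mul, mul_comm]
    rw [h1, h2]
    refine integral_mono_ae (hind c) (hGint.indicator hB) ?_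
    filter_upwards [hfinae] with y hy
    by_cases hyB : y ∈ B
    · rw [Set.indicator_of_mem hyB, Set.indicator_of_mem hyB]
      have h3 : ‖x - y‖ ≤ 2 / κ := by
        rw [hBdef, mem_ball_zero_iff] at hx hyB
        calc ‖x - y‖ ≤ ‖x‖ + ‖y‖ := norm_sub_le _ _
          _ ≤ 1 / κ + 1 / κ := by linarith
          _ = 2 / κ := by ring
      have h4 := hlow (x - y) h3
      rw [← ENNReal.ofReal_toReal hy.ne] at h4
      exact (ENNReal.ofReal_le_ofReal_iff ENNReal.toReal_nonneg).1 h4
    · rw [Set.indicator_of_notMem hyB, Set.indicator_of_notMem hyB]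
  rw [hnorm, L2.inner_def]
  have h5 : c * m * m = ∫ x, B.indicator (fun _ => c * m) x ∂(mW W) := by
    rw [integral_indicator_const _ hB, hreal, smul_eq_mul]; ring
  rw [h5]
  refine integral_mono_ae (hind _) (L2.integrable_inner (𝕜 := ℝ) _ _) ?_
  filter_upwards [hg, hT g] with x hx hTx
  rw [hx, hTx]
  by_cases hxB : x ∈ B
  · rw [Set.indicator_of_mem hxB, Set.indicator_of_mem hxB]
    simp only [RCLike.inner_apply, one_mul, conj_trivial]
    exact hkey x hxB
  · rw [Set.indicator_of_notMem hxB, Set.indicator_of_notMem hxB]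
    simp

end Pool.Agent.Helper41.CE
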