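import Pool.Agent.Helper41.CE.Defs
import Pool.Agent.Helper41.CE.CE01
import Pool.Agent.Helper41.CE.CE02
import Pool.Agent.Helper41.CE.CE05
import Pool.Agent.Helper41.CE.CE06
import Pool.Agent.Helper41.CE.CE07
import Pool.Agent.Helper41.CE.CE08
import Pool.Agent.Helper41.CE.CE09

/-!
# Semiclassical eigenvalue bounds for Schroedinger operators: definitions
-/

open MeasureTheory Filter Topology Set
open scoped ENNReal NNReal ContDiff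

namespace Pool.Agent.Helper41.CE


section TF

variable (d : ℕ) (q : ℝ) (hq : 1 ≤ q) (hqd : (d : ℝ) / q < 2) (hd : 1 ≤ d)
  (W : E d → ℝ) (h0 : ∀ x, 0 ≤ W x) (hm : Measurable W)
  (hW : MemLp W (ENNReal.ofReal q) volume) (hI : Integrable W volume)

include hq h0 hm hW

include hqd hI

end TF

/-! ## TARGETS: prove these (statements must not be changed; helper lemmas are welcome) -/

theorem bs_lint {d : ℕ} (W : E d → ℝ) (hm : Measurable W) (κ : ℝ) (x : E d) :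
    ∫⁻ y, G κ (x - y) ∂(mW W) = ∫⁻ y, G κ (x - y) * ENNReal.ofReal (W y) := by
  unfold mW
  have hg : Measurable (fun y : E d => G κ (x - y)) :=
    (G_meas κ).comp (measurable_const.sub measurable_id)
  rw [lintegral_withDensity_eq_lintegral_mul _ hm.ennreal_ofReal hg]
  apply lintegral_congr
  intro y
  simp only [Pi.mul_apply]
  rw [mul_comm]

theorem bs_upper_aux {d : ℕ} (W : E d → ℝ) (hm : Measurable W) (κ : ℝ) (A : ℝ) (hA : 0 ≤ A)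
    (hb : ∀ x : E d, ∫⁻ y, G κ (x - y) * ENNReal.ofReal (W y) ≤ ENNReal.ofReal A) :
    ∃ T : Lp ℝ 2 (mW W) →L[ℝ] Lp ℝ 2 (mW W), ‖T‖ ≤ A ∧
      (∀ g : Lp ℝ 2 (mW W), T g =ᵐ[mW W] fun x => ∫ y, (G κ (x - y)).toReal * g y ∂(mW W)) := by
  haveI : SFinite (mW W) := by unfold mW; infer_instance
  obtain ⟨T, h1, h2, -⟩ := kernel_op (mW W) (fun x y => G κ (x - y))
    ((G_meas κ).comp (measurable_fst.sub measurable_snd))
    (fun x y => by rw [← G_symm, neg_sub]) A hA (fun x => by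
      rw [bs_lint W hm]; exact hb x)
  exact ⟨T, h1, h2⟩

theorem bs_main (d : ℕ) (hd : 1 ≤ d) (q : ℝ) (hq : 1 ≤ q) (hqd : (d : ℝ) / q < 2) :
    ∃ c : ℝ, 0 < c ∧ ∀ κ0 : ℝ, 2 ≤ κ0 → ∀ lam : ℝ, 0 < lam →
      1 ≤ lam * (c * κ0 ^ ((d : ℝ) / q - 2) * ((1 + Real.log κ0) ^ 2)⁻¹) →
      ∃ κ : ℝ, κ0 ≤ κ ∧ ∃ g : E d → ℝ, Measurable g ∧ MemLp g 2 (mW (WW d q)) ∧
        ¬ (g =ᵐ[mW (WW d q)] 0) ∧
        ∀ᵐ x ∂(mW (WW d q)), g x = lam * ∫ y, (G κ (x - y)).toReal * g y ∂(mW (WW d q)) := by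
  obtain ⟨hW0, hWm, hWL, hWI, -⟩ := WW_facts d hd q hq
  obtain ⟨T, hT1, hT2, hT3, hT4, hT5⟩ := T_family d q hq hqd (WW d q) hW0 hWm hWL hWI
  obtain ⟨c1, hc1, hG⟩ := G_low d
  obtain ⟨c2, hc2, hmass⟩ := WW_mass d hd q hq
  obtain ⟨C, hC, hGb⟩ := G_bound d q hq hqd
  refine ⟨c1 * c2, mul_pos hc1 hc2, ?_⟩
  intro κ0 hκ0 lam hlam hle
  have hκ : 0 < κ0 := by linarith
  have hlog : 0 ≤ Real.log κ0 := Real.log_nonneg (by linarith)
  have hr : 0 < 1 / κ0 := by positivity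
  have hr2 : 1 / κ0 ≤ 1 / 2 := one_div_le_one_div_of_le (by norm_num) hκ0
  have hm1 := hmass (1 / κ0) hr hr2
  have hlog1 : Real.log (1 / κ0) = - Real.log κ0 := by rw [one_div, Real.log_inv]
  rw [hlog1, sub_neg_eq_add] at hm1
  have hpos : 0 < ∫ x in Metric.ball (0 : E d) (1 / κ0), WW d q x := by
    refine lt_of_lt_of_le ?_ hm1
    have : 0 < 1 + Real.log κ0 := by linarith
    positivity
  obtain ⟨g, hg0, hg⟩ := rayleigh_low (WW d q) hW0 hWm hWI κ0 hκ (fun x => by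
      refine lt_of_le_of_lt (hGb (WW d q) hW0 hWm hWL κ0 hκ x) ?_
      exact ENNReal.mul_lt_top ENNReal.ofReal_lt_top hWL.2) (c1 * κ0 ^ ((d : ℝ) - 2))
    (by positivity) (hG κ0 hκ) (T κ0) (hT1 κ0 hκ) hpos
  have hlow : lam⁻¹ * ‖g‖ ^ 2 ≤ inner ℝ (T κ0 g) g := by
    refine le_trans ?_ hg
    apply mul_le_mul_of_nonneg_right _ (by positivity)
    have h1 : c1 * κ0 ^ ((d : ℝ) - 2) * (c2 * (1 / κ0) ^ ((d : ℝ) - (d : ℝ) / q) *
        ((1 + Real.log κ0) ^ 2)⁻¹) ≤ c1 * κ0 ^ ((d : ℝ) - 2) *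
        ∫ x in Metric.ball (0 : E d) (1 / κ0), WW d q x :=
      mul_le_mul_of_nonneg_left hm1 (by positivity)
    refine le_trans ?_ h1
    have h2 : κ0 ^ ((d : ℝ) - 2) * (1 / κ0) ^ ((d : ℝ) - (d : ℝ) / q) =
        κ0 ^ ((d : ℝ) / q - 2) := by
      rw [one_div, Real.inv_rpow hκ.le, ← Real.rpow_neg hκ.le, ← Real.rpow_add hκ]
      congr 1
      ring
    have h3 : c1 * κ0 ^ ((d : ℝ) - 2) * (c2 * (1 / κ0) ^ ((d : ℝ) - (d : ℝ) / q) *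
        ((1 + Real.log κ0) ^ 2)⁻¹) = c1 * c2 * κ0 ^ ((d : ℝ) / q - 2) *
        ((1 + Real.log κ0) ^ 2)⁻¹ := by
      rw [← h2]; ring
    rw [h3]
    rw [inv_le_iff_one_le_mul₀ hlam]
    linarith [hle, mul_comm lam (c1 * c2 * κ0 ^ ((d : ℝ) / q - 2) * ((1 + Real.log κ0) ^ 2)⁻¹)]
  obtain ⟨κ, hκκ, x, hx0, hx⟩ := abs_ivt T κ0
    (hT4.mono (fun κ h => lt_of_lt_of_le hκ h)) (fun κ h => hT3 κ (lt_of_lt_of_le hκ h))
    (fun κ h => hT2 κ (lt_of_lt_of_le hκ h)) hT5 lam⁻¹ (inv_pos.2 hlam) g hg0 hlow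
  refine ⟨κ, hκκ, x, (Lp.stronglyMeasurable x).measurable, Lp.memLp x, ?_, ?_⟩
  · intro h
    exact hx0 ((Lp.eq_zero_iff_ae_eq_zero).2 h)
  · have h1 := hT1 κ (lt_of_lt_of_le hκ hκκ) x
    rw [hx] at h1
    filter_upwards [h1, Lp.coeFn_smul lam⁻¹ x] with y hy1 hy2
    rw [← hy1, hy2, Pi.smul_apply, smul_eq_mul, mul_inv_cancel_left₀ hlam.ne']

theorem bs_upper {d : ℕ} (W : E d → ℝ) (h0 : ∀ x, 0 ≤ W x) (hm : Measurable W)
    (hI : Integrable W volume) (κ : ℝ) (hκ : 0 < κ) (A : ℝ) (hA : 0 ≤ A)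
    (hb : ∀ x : E d, ∫⁻ y, G κ (x - y) * ENNReal.ofReal (W y) ≤ ENNReal.ofReal A)
    (lam : ℝ) (hlam : 0 < lam) (g : E d → ℝ) (hg : MemLp g 2 (mW W))
    (hne : ¬ (g =ᵐ[mW W] 0))
    (he : ∀ᵐ x ∂(mW W), g x = lam * ∫ y, (G κ (x - y)).toReal * g y ∂(mW W)) :
    1 ≤ lam * A := by
  obtain ⟨T, hT1, hT2⟩ := bs_upper_aux W hm κ A hA hb
  have hgg : (hg.toLp g : E d → ℝ) =ᵐ[mW W] g := hg.coeFn_toLp
  have h1 : hg.toLp g = lam • T (hg.toLp g) := by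
    apply Lp.ext
    have h2 := hT2 (hg.toLp g)
    filter_upwards [hgg, he, h2, Lp.coeFn_smul lam (T (hg.toLp g))] with x e1 e2 e3 e4
    rw [e4, Pi.smul_apply, smul_eq_mul, e3, e1, e2]
    congr 1
    apply integral_congr_ae
    filter_upwards [hgg] with y hy
    rw [hy]
  have hn : 0 < ‖hg.toLp g‖ := by
    rw [norm_pos_iff]
    intro h
    apply hne
    have := (Lp.eq_zero_iff_ae_eq_zero).1 h
    exact hgg.symm.trans this
  have h3 : ‖hg.toLp g‖ ≤ lam * A * ‖hg.toLp g‖ := by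
    calc ‖hg.toLp g‖ = ‖lam • T (hg.toLp g)‖ := by rw [← h1]
      _ = lam * ‖T (hg.toLp g)‖ := by rw [norm_smul, Real.norm_eq_abs, abs_of_pos hlam]
      _ ≤ lam * (A * ‖hg.toLp g‖) := by
        apply mul_le_mul_of_nonneg_left _ hlam.le
        exact (T.le_opNorm _).trans (mul_le_mul_of_nonneg_right hT1 (norm_nonneg _))
      _ = lam * A * ‖hg.toLp g‖ := by ring
  by_contra hcon
  push Not at hcon
  nlinarith

end Pool.Agent.Helper41.CE
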