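import Pool.Agent.Helper41.CE.Defs
import Pool.Agent.Helper41.CE.CE04
import Pool.Agent.Helper41.CE.CE05
import Pool.Agent.Helper41.CE.CE06

/-!
# Semiclassical eigenvalue bounds for Schroedinger operators: definitions
-/

open MeasureTheory Filter Topology Set
open scoped ENNReal NNReal ContDiff

namespace Pool.Agent.Helper41.CE


/-! ## TARGETS: prove these (statements must not be changed; helper lemmas are welcome) -/

theorem um_triple {α : Type} [MeasureSpace α] [SFinite (volume : Measure α)]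
    (K : α → α → ℝ≥0∞) (mK : Measurable (fun p : α × α => K p.1 p.2)) (H : α → ℝ≥0∞)
    (mH : Measurable H) (L : α → α → ℝ≥0∞) (mL : Measurable (fun p : α × α => L p.1 p.2))
    (C : ℝ≥0∞) (hK : ∀ y z, ∫⁻ x, K x y * K x z ≤ C * L y z) :
    ∫⁻ x, (∫⁻ y, K x y * H y) * (∫⁻ y, K x y * H y) ≤
      C * ∫⁻ y, ∫⁻ z, L y z * H y * H z := by
  have mGh : Measurable (fun p : α × α => K p.1 p.2 * H p.2) :=
    mK.mul (mH.comp measurable_snd)
  have h2 : ∫⁻ x, (∫⁻ y, K x y * H y) * (∫⁻ y, K x y * H y) =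
      ∫⁻ x, ∫⁻ y, ∫⁻ z, (K x y * H y) * (K x z * H z) := by
    refine lintegral_congr (fun x => ?_)
    have mx : Measurable (fun y : α => K x y * H y) :=
      mGh.comp (measurable_const.prodMk measurable_id)
    rw [← lintegral_mul_const _ mx]
    refine lintegral_congr (fun y => ?_)
    rw [← lintegral_const_mul _ mx]
  have m3 : Measurable (fun q : (α × α) × α =>
      (K q.1.1 q.1.2 * H q.1.2) * (K q.1.1 q.2 * H q.2)) :=
    (mGh.comp measurable_fst).mul
      (mGh.comp ((measurable_fst.comp measurable_fst).prodMk measurable_snd))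
  have m2 : Measurable (Function.uncurry (fun (x y : α) => ∫⁻ z : α,
      (K x y * H y) * (K x z * H z))) :=
    Measurable.lintegral_prod_right' m3
  have h3 : ∀ y : α, ∫⁻ x : α, ∫⁻ z : α, (K x y * H y) * (K x z * H z) =
      ∫⁻ z : α, ∫⁻ x : α, (K x y * H y) * (K x z * H z) := by
    intro y
    have m4 : Measurable (Function.uncurry (fun (x z : α) =>
        (K x y * H y) * (K x z * H z))) :=
      m3.comp ((measurable_fst.prodMk measurable_const).prodMk measurable_snd)
    exact lintegral_lintegral_swap m4.aemeasurable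
  rw [h2, lintegral_lintegral_swap m2.aemeasurable]
  simp only [h3]
  have h4 : ∀ y z : α, ∫⁻ x : α, (K x y * H y) * (K x z * H z) ≤
      C * (L y z * H y * H z) := by
    intro y z
    have h5 : ∀ x : α, (K x y * H y) * (K x z * H z) =
        (H y * H z) * (K x y * K x z) := by
      intro x; ring
    simp only [h5]
    have m9 : Measurable (fun x : α => K x y * K x z) :=
      (mK.comp (measurable_id.prodMk measurable_const)).mul
        (mK.comp (measurable_id.prodMk measurable_const))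
    rw [lintegral_const_mul _ m9]
    calc H y * H z * ∫⁻ x : α, K x y * K x z
        ≤ H y * H z * (C * L y z) := by
          gcongr
          exact hK y z
      _ = _ := by ring
  have m6 : Measurable (fun p : α × α => L p.1 p.2 * H p.1 * H p.2) :=
    (mL.mul (mH.comp measurable_fst)).mul (mH.comp measurable_snd)
  calc ∫⁻ y : α, ∫⁻ z : α, ∫⁻ x : α, (K x y * H y) * (K x z * H z)
      ≤ ∫⁻ y : α, ∫⁻ z : α, C * (L y z * H y * H z) :=
        lintegral_mono (fun y => lintegral_mono (fun z => h4 y z))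
    _ = C * ∫⁻ y : α, ∫⁻ z : α, L y z * H y * H z := by
        have h7 : ∀ y : α, ∫⁻ z : α, C * (L y z * H y * H z) =
            C * ∫⁻ z : α, L y z * H y * H z := by
          intro y
          exact lintegral_const_mul _ (m6.comp (measurable_const.prodMk measurable_id))
        simp only [h7]
        exact lintegral_const_mul _ (Measurable.lintegral_prod_right' m6)

theorem um_shear (g : ℝ → ℝ≥0∞) (hg : Measurable g) :
    ∫⁻ s in Ioi (0 : ℝ), ∫⁻ t in Ioi (0 : ℝ), g (s + t) =
      ∫⁻ r in Ioi (0 : ℝ), ENNReal.ofReal r * g r := by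
  have h1 : ∀ s : ℝ, ∫⁻ t in Ioi (0 : ℝ), g (s + t) = ∫⁻ r, (Ioi s).indicator g r := by
    intro s
    rw [← lintegral_indicator measurableSet_Ioi,
      ← lintegral_add_left_eq_self ((Ioi s).indicator g) s]
    refine lintegral_congr (fun t => ?_)
    by_cases ht : t ∈ Ioi (0 : ℝ)
    · rw [indicator_of_mem ht, indicator_of_mem (show s + t ∈ Ioi s by
        simp only [mem_Ioi] at ht ⊢; linarith)]
    · rw [indicator_of_notMem ht, indicator_of_notMem (show s + t ∉ Ioi s by
        simp only [mem_Ioi] at ht ⊢; linarith)]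
  simp only [h1]
  rw [← lintegral_indicator measurableSet_Ioi, ← lintegral_indicator measurableSet_Ioi]
  have h2 : ∀ s : ℝ, (Ioi (0 : ℝ)).indicator (fun s => ∫⁻ r, (Ioi s).indicator g r) s =
      ∫⁻ r, (if 0 < s ∧ s < r then g r else 0) := by
    intro s
    by_cases hs : s ∈ Ioi (0 : ℝ)
    · rw [indicator_of_mem hs]
      refine lintegral_congr (fun r => ?_)
      by_cases hr : s < r
      · rw [indicator_of_mem (show r ∈ Ioi s from hr), if_pos ⟨hs, hr⟩]
      · rw [indicator_of_notMem (show r ∉ Ioi s from hr), if_neg (fun h => hr h.2)]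
    · rw [indicator_of_notMem hs]
      symm
      rw [lintegral_congr (g := fun _ => 0) (fun r => if_neg (fun h => hs h.1))]
      simp
  simp only [h2]
  have hmF : Measurable (Function.uncurry (fun s r : ℝ => if 0 < s ∧ s < r then g r else 0)) := by
    refine Measurable.ite ?_ (hg.comp measurable_snd) measurable_const
    exact (measurableSet_lt measurable_const measurable_fst).inter
      (measurableSet_lt measurable_fst measurable_snd)
  rw [lintegral_lintegral_swap hmF.aemeasurable]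
  refine lintegral_congr (fun r => ?_)
  have h3 : ∫⁻ s : ℝ, (if 0 < s ∧ s < r then g r else 0) =
      ∫⁻ s, (Ioo (0 : ℝ) r).indicator (fun _ => g r) s := by
    refine lintegral_congr (fun s => ?_)
    by_cases hs : 0 < s ∧ s < r
    · rw [if_pos hs, indicator_of_mem (show s ∈ Ioo (0 : ℝ) r from hs)]
    · rw [if_neg hs, indicator_of_notMem (show s ∉ Ioo (0 : ℝ) r from hs)]
  rw [h3, lintegral_indicator measurableSet_Ioo, setLIntegral_const, Real.volume_Ioo, sub_zero]
  by_cases hr : r ∈ Ioi (0 : ℝ)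
  · rw [indicator_of_mem hr, mul_comm]
  · rw [indicator_of_notMem hr, ENNReal.ofReal_of_nonpos (not_lt.1 hr), mul_zero]

theorem um_ker {d : ℕ} (κ : ℝ) (y : E d) :
    Measurable (fun p : ℝ × E d =>
      ENNReal.ofReal (Real.exp (-κ ^ 2 * p.1) * pt p.1 (p.2 - y))) := by
  have h1 : Measurable (fun p : ℝ × E d => pt p.1 (p.2 - y)) :=
    pt_meas.comp (measurable_fst.prodMk (measurable_snd.sub_const y))
  have h2 : Measurable (fun p : ℝ × E d => Real.exp (-κ ^ 2 * p.1)) := by
    fun_prop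
  exact ENNReal.measurable_ofReal.comp (h2.mul h1)

theorem um_key {d : ℕ} (κ : ℝ) (hκ : 0 < κ) (y z : E d) :
    ∫⁻ x : E d, G κ (x - y) * G κ (x - z) ≤
      ENNReal.ofReal (2 / κ ^ 2) * G (κ / Real.sqrt 2) (y - z) := by
  have hx : ∀ (y x : E d), Measurable (fun s : ℝ =>
      ENNReal.ofReal (Real.exp (-κ ^ 2 * s) * pt s (x - y))) := fun y x =>
    (um_ker κ y).comp (measurable_id.prodMk measurable_const)
  have e1 : ∀ x : E d, G κ (x - y) * G κ (x - z) =
      ∫⁻ s in Ioi (0 : ℝ), ∫⁻ t in Ioi (0 : ℝ),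
        ENNReal.ofReal (Real.exp (-κ ^ 2 * s) * pt s (x - y)) *
          ENNReal.ofReal (Real.exp (-κ ^ 2 * t) * pt t (x - z)) := by
    intro x
    unfold G
    rw [← lintegral_mul_const _ (hx y x)]
    refine lintegral_congr (fun s => ?_)
    rw [← lintegral_const_mul _ (hx z x)]
  simp only [e1]
  have m3 : Measurable (fun q : (E d × ℝ) × ℝ =>
      ENNReal.ofReal (Real.exp (-κ ^ 2 * q.1.2) * pt q.1.2 (q.1.1 - y)) *
        ENNReal.ofReal (Real.exp (-κ ^ 2 * q.2) * pt q.2 (q.1.1 - z))) := by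
    have a1 : Measurable (fun q : (E d × ℝ) × ℝ =>
        ENNReal.ofReal (Real.exp (-κ ^ 2 * q.1.2) * pt q.1.2 (q.1.1 - y))) :=
      (um_ker κ y).comp ((measurable_snd.comp measurable_fst).prodMk
        (measurable_fst.comp measurable_fst))
    have a2 : Measurable (fun q : (E d × ℝ) × ℝ =>
        ENNReal.ofReal (Real.exp (-κ ^ 2 * q.2) * pt q.2 (q.1.1 - z))) :=
      (um_ker κ z).comp (measurable_snd.prodMk (measurable_fst.comp measurable_fst))
    exact a1.mul a2
  have m2 : Measurable (Function.uncurry (fun (x : E d) (s : ℝ) => ∫⁻ t in Ioi (0 : ℝ),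
        ENNReal.ofReal (Real.exp (-κ ^ 2 * s) * pt s (x - y)) *
          ENNReal.ofReal (Real.exp (-κ ^ 2 * t) * pt t (x - z)))) :=
    Measurable.lintegral_prod_right' m3
  rw [lintegral_lintegral_swap m2.aemeasurable]
  have e2 : ∀ s : ℝ, ∫⁻ x : E d, ∫⁻ t in Ioi (0 : ℝ),
        ENNReal.ofReal (Real.exp (-κ ^ 2 * s) * pt s (x - y)) *
          ENNReal.ofReal (Real.exp (-κ ^ 2 * t) * pt t (x - z)) =
      ∫⁻ t in Ioi (0 : ℝ), ∫⁻ x : E d,
        ENNReal.ofReal (Real.exp (-κ ^ 2 * s) * pt s (x - y)) *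
          ENNReal.ofReal (Real.exp (-κ ^ 2 * t) * pt t (x - z)) := by
    intro s
    have m4 : Measurable (Function.uncurry (fun (x : E d) (t : ℝ) =>
        ENNReal.ofReal (Real.exp (-κ ^ 2 * s) * pt s (x - y)) *
          ENNReal.ofReal (Real.exp (-κ ^ 2 * t) * pt t (x - z)))) :=
      m3.comp ((measurable_fst.prodMk measurable_const).prodMk measurable_snd)
    exact lintegral_lintegral_swap m4.aemeasurable
  simp only [e2]
  have hg : Measurable (fun r : ℝ => ENNReal.ofReal (Real.exp (-κ ^ 2 * r) * pt r (y - z))) :=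
    hx z y
  have e3 : ∫⁻ s in Ioi (0 : ℝ), ∫⁻ t in Ioi (0 : ℝ), ∫⁻ x : E d,
        ENNReal.ofReal (Real.exp (-κ ^ 2 * s) * pt s (x - y)) *
          ENNReal.ofReal (Real.exp (-κ ^ 2 * t) * pt t (x - z)) =
      ∫⁻ s in Ioi (0 : ℝ), ∫⁻ t in Ioi (0 : ℝ),
        (fun r : ℝ => ENNReal.ofReal (Real.exp (-κ ^ 2 * r) * pt r (y - z))) (s + t) := by
    refine setLIntegral_congr_fun measurableSet_Ioi (fun s hs => ?_)
    refine setLIntegral_congr_fun measurableSet_Ioi (fun t ht => ?_)
    show ∫⁻ x : E d, ENNReal.ofReal (Real.exp (-κ ^ 2 * s) * pt s (x - y)) *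
          ENNReal.ofReal (Real.exp (-κ ^ 2 * t) * pt t (x - z)) =
      ENNReal.ofReal (Real.exp (-κ ^ 2 * (s + t)) * pt (s + t) (y - z))
    have hs0 : 0 < s := hs
    have ht0 : 0 < t := ht
    have e4 : ∀ x : E d, ENNReal.ofReal (Real.exp (-κ ^ 2 * s) * pt s (x - y)) *
          ENNReal.ofReal (Real.exp (-κ ^ 2 * t) * pt t (x - z)) =
        ENNReal.ofReal (Real.exp (-κ ^ 2 * (s + t))) *
          (ENNReal.ofReal (pt s (x - y)) * ENNReal.ofReal (pt t (x - z))) := by
      intro x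
      rw [ENNReal.ofReal_mul (Real.exp_pos _).le, ENNReal.ofReal_mul (Real.exp_pos _).le,
        mul_add, Real.exp_add, ENNReal.ofReal_mul (Real.exp_pos _).le]
      ring
    have m5 : Measurable (fun x : E d =>
        ENNReal.ofReal (pt s (x - y)) * ENNReal.ofReal (pt t (x - z))) := by
      have a1 : Measurable (fun x : E d => ENNReal.ofReal (pt s (x - y))) :=
        ENNReal.measurable_ofReal.comp
          ((pt_facts hs0).2.1.measurable.comp (measurable_id.sub_const y))
      have a2 : Measurable (fun x : E d => ENNReal.ofReal (pt t (x - z))) :=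
        ENNReal.measurable_ofReal.comp
          ((pt_facts ht0).2.1.measurable.comp (measurable_id.sub_const z))
      exact a1.mul a2
    simp only [e4]
    rw [lintegral_const_mul _ m5, pt_semigroup hs0 ht0, ENNReal.ofReal_mul (Real.exp_pos _).le]
  rw [e3, um_shear _ hg]
  unfold G
  have m7 : Measurable (fun t : ℝ =>
      ENNReal.ofReal (Real.exp (-(κ / Real.sqrt 2) ^ 2 * t) * pt t (y - z))) :=
    (um_ker (κ / Real.sqrt 2) z).comp (measurable_id.prodMk (measurable_const (a := y)))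
  rw [← lintegral_const_mul _ m7]
  refine setLIntegral_mono_ae' measurableSet_Ioi (Filter.Eventually.of_forall (fun r hr => ?_))
  have hr0 : 0 < r := hr
  have hp : 0 ≤ pt r (y - z) := ((pt_facts hr0).1 _).le
  rw [← ENNReal.ofReal_mul hr0.le, ← ENNReal.ofReal_mul (by positivity)]
  refine ENNReal.ofReal_le_ofReal ?_
  have hk : (κ / Real.sqrt 2) ^ 2 = κ ^ 2 / 2 := by
    rw [div_pow, Real.sq_sqrt (by norm_num)]
  have hb : r * Real.exp (-κ ^ 2 * r) ≤ 2 / κ ^ 2 * Real.exp (-(κ / Real.sqrt 2) ^ 2 * r) := by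
    rw [hk]
    have h1 : κ ^ 2 / 2 * r ≤ Real.exp (κ ^ 2 / 2 * r) := by
      have := Real.add_one_le_exp (κ ^ 2 / 2 * r)
      linarith
    have h2 : Real.exp (-(κ ^ 2 / 2) * r) =
        Real.exp (κ ^ 2 / 2 * r) * Real.exp (-κ ^ 2 * r) := by
      rw [← Real.exp_add]; congr 1; ring
    rw [h2]
    have h3 : r ≤ 2 / κ ^ 2 * Real.exp (κ ^ 2 / 2 * r) := by
      rw [div_mul_eq_mul_div, le_div_iff₀ (by positivity)]
      nlinarith
    calc r * Real.exp (-κ ^ 2 * r)
        ≤ (2 / κ ^ 2 * Real.exp (κ ^ 2 / 2 * r)) * Real.exp (-κ ^ 2 * r) :=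
          mul_le_mul_of_nonneg_right h3 (Real.exp_pos _).le
      _ = _ := by ring
  calc r * (Real.exp (-κ ^ 2 * r) * pt r (y - z))
      = (r * Real.exp (-κ ^ 2 * r)) * pt r (y - z) := by ring
    _ ≤ (2 / κ ^ 2 * Real.exp (-(κ / Real.sqrt 2) ^ 2 * r)) * pt r (y - z) :=
        mul_le_mul_of_nonneg_right hb hp
    _ = _ := by ring

section PDE

variable {d : ℕ} (κ : ℝ) (hκ : 0 < κ) (h : E d → ℝ) (hmh : Measurable h)
  (hh : Integrable h volume)
  (hen : ∀ κ' : ℝ, 0 < κ' →
    (∫⁻ x : E d, ∫⁻ y : E d, G κ' (x - y) * ‖h x‖ₑ * ‖h y‖ₑ) < ⊤)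

include hκ hmh hh hen

theorem u_mem : MemLp (uG κ h) 2 volume ∧ Integrable (uG κ h) volume ∧
    ∀ᵐ x : E d, Integrable (fun y => (G κ (x - y)).toReal * h y) volume := by
  have mG : Measurable (fun p : E d × E d => G κ (p.1 - p.2)) :=
    (G_meas κ).comp (measurable_fst.sub measurable_snd)
  have mh : Measurable (fun y : E d => ‖h y‖ₑ) := hmh.enorm
  have mGh : Measurable (fun p : E d × E d => G κ (p.1 - p.2) * ‖h p.2‖ₑ) :=
    mG.mul (mh.comp measurable_snd)
  have mGr : Measurable (fun p : E d × E d => (G κ (p.1 - p.2)).toReal * h p.2) :=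
    mG.ennreal_toReal.mul (hmh.comp measurable_snd)
  set U : E d → ℝ≥0∞ := fun x => ∫⁻ y, G κ (x - y) * ‖h y‖ₑ with hU
  have mU : Measurable U := Measurable.lintegral_prod_right' mGh
  have hGfin : ∫⁻ z : E d, G κ z < ⊤ := by
    obtain ⟨g1, g2⟩ := G_int (d := d) κ hκ
    have h1 : ∫⁻ z : E d, G κ z = ∫⁻ z : E d, ‖(G κ z).toReal‖ₑ := by
      refine lintegral_congr_ae ?_
      filter_upwards [g2] with z hz
      rw [Real.enorm_eq_ofReal ENNReal.toReal_nonneg, ENNReal.ofReal_toReal hz.ne]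
    rw [h1]
    exact g1.2
  have hUfin : ∫⁻ x, U x < ⊤ := by
    have h1 : ∫⁻ x, U x = ∫⁻ y, ∫⁻ x, G κ (x - y) * ‖h y‖ₑ :=
      lintegral_lintegral_swap mGh.aemeasurable
    have h2 : ∀ y : E d, ∫⁻ x, G κ (x - y) * ‖h y‖ₑ = (∫⁻ x : E d, G κ x) * ‖h y‖ₑ := by
      intro y
      have m8 : Measurable (fun x : E d => G κ (x - y)) :=
        (G_meas κ).comp (measurable_id.sub_const y)
      rw [lintegral_mul_const _ m8, lintegral_sub_right_eq_self (fun x => G κ x) y]
    rw [h1]
    simp only [h2]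
    rw [lintegral_const_mul _ mh]
    exact ENNReal.mul_lt_top hGfin hh.2
  have hUae : ∀ᵐ x, U x < ⊤ := ae_lt_top mU hUfin.ne
  have hle : ∀ x y : E d, ‖(G κ (x - y)).toReal * h y‖ₑ ≤ G κ (x - y) * ‖h y‖ₑ := by
    intro x y
    rw [enorm_mul]
    gcongr
    rw [Real.enorm_eq_ofReal ENNReal.toReal_nonneg]
    exact ENNReal.ofReal_toReal_le
  have hint : ∀ᵐ x : E d, Integrable (fun y => (G κ (x - y)).toReal * h y) volume := by
    filter_upwards [hUae] with x hx
    refine ⟨(mGr.comp (measurable_const.prodMk measurable_id)).aestronglyMeasurable, ?_⟩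
    exact lt_of_le_of_lt (lintegral_mono (fun y => hle x y)) hx
  have huU : ∀ x, ‖uG κ h x‖ₑ ≤ U x := by
    intro x
    unfold uG
    exact (enorm_integral_le_lintegral_enorm _).trans (lintegral_mono (fun y => hle x y))
  have hum : AEStronglyMeasurable (uG κ h) volume := by
    have : StronglyMeasurable (fun x : E d => ∫ y, (G κ (x - y)).toReal * h y) :=
      StronglyMeasurable.integral_prod_right (f := fun x y : E d => (G κ (x - y)).toReal * h y)
        mGr.stronglyMeasurable
    exact this.aestronglyMeasurable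
  refine ⟨⟨hum, ?_⟩, ⟨hum, ?_⟩, hint⟩
  · rw [eLpNorm_lt_top_iff_lintegral_rpow_enorm_lt_top (by norm_num) (by norm_num)]
    have h1 : ∫⁻ x, ‖uG κ h x‖ₑ ^ (2 : ℝ≥0∞).toReal ≤ ∫⁻ x, U x * U x := by
      refine lintegral_mono (fun x => ?_)
      show ‖uG κ h x‖ₑ ^ (2 : ℝ≥0∞).toReal ≤ U x * U x
      rw [ENNReal.toReal_ofNat, ENNReal.rpow_ofNat, sq]
      exact mul_le_mul' (huU x) (huU x)
    refine lt_of_le_of_lt h1 ?_
    have hκ' : 0 < κ / Real.sqrt 2 := by positivity
    have hfin := hen (κ / Real.sqrt 2) hκ'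
    have h2 : ∫⁻ x, U x * U x ≤ ENNReal.ofReal (2 / κ ^ 2) * ∫⁻ y : E d, ∫⁻ z : E d,
          G (κ / Real.sqrt 2) (y - z) * ‖h y‖ₑ * ‖h z‖ₑ :=
      um_triple (fun x y : E d => G κ (x - y)) mG (fun y : E d => ‖h y‖ₑ) mh
        (fun y z : E d => G (κ / Real.sqrt 2) (y - z))
        ((G_meas _).comp (measurable_fst.sub measurable_snd)) (ENNReal.ofReal (2 / κ ^ 2))
        (um_key κ hκ)
    exact lt_of_le_of_lt h2 (ENNReal.mul_lt_top ENNReal.ofReal_lt_top hfin)
  · exact lt_of_le_of_lt (lintegral_mono huU) hUfin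

end PDE

end Pool.Agent.Helper41.CE
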