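import Pool.Agent.Helper41.CE.Defs
import Pool.Agent.Helper41.CE.CE04
import Pool.Agent.Helper41.CE.CE05
import Pool.Agent.Helper41.CE.CE06
import Pool.Agent.Helper41.CE.CE11

/-!
# Semiclassical eigenvalue bounds for Schroedinger operators: definitions
-/

open MeasureTheory Filter Topology Set
open scoped ENNReal NNReal ContDiff

namespace Pool.Agent.Helper41.CE


section PDE

variable {d : ℕ} (κ : ℝ) (hκ : 0 < κ) (h : E d → ℝ) (hmh : Measurable h)
  (hh : Integrable h volume)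
  (hen : ∀ κ' : ℝ, 0 < κ' →
    (∫⁻ x : E d, ∫⁻ y : E d, G κ' (x - y) * ‖h x‖ₑ * ‖h y‖ₑ) < ⊤)

include hκ hmh hh hen

end PDE

/-! ### helper lemmas -/

/-- partial derivative of the heat kernel -/
noncomputable def Dk {d : ℕ} (i : Fin d) (t : ℝ) (z : E d) : ℝ := -(z i) / (2 * t) * pt t z

theorem pt_hasFDerivAt {d : ℕ} (t : ℝ) (z : E d) :
    ∃ L : E d →L[ℝ] ℝ, HasFDerivAt (pt t : E d → ℝ) L z ∧
      ∀ i, L (EuclideanSpace.single i 1) = Dk i t z := by
  have h1 : HasFDerivAt (fun x : E d => ‖x‖ ^ 2) ((2 : ℝ) • innerSL ℝ z) z := by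
    have h := (hasStrictFDerivAt_norm_sq z).hasFDerivAt
    have e : (2 : ℕ) • innerSL ℝ z = (2 : ℝ) • innerSL ℝ z := by
      rw [two_smul, two_smul]
    rw [← e]
    exact h
  have h2 : HasFDerivAt (fun x : E d => -‖x‖ ^ 2 / (4 * t))
      ((-(1 / (4 * t))) • ((2 : ℝ) • innerSL ℝ z)) z := by
    have := h1.const_mul (-(1 / (4 * t)))
    refine this.congr_of_eventuallyEq (Eventually.of_forall fun x => ?_)
    ring
  have h3 := (h2.exp).const_mul ((4 * Real.pi * t) ^ (-((d : ℝ) / 2)))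
  refine ⟨_, h3, fun i => ?_⟩
  simp only [smul_apply, innerSL_apply_apply, smul_eq_mul]
  rw [EuclideanSpace.inner_single_right]
  simp only [Dk, pt]
  simp
  ring

theorem Dk_bound {d : ℕ} (i : Fin d) {t : ℝ} (ht : 0 < t) (z : E d) :
    |Dk i t z| ≤ (2 : ℝ) ^ ((d : ℝ) / 2) * (t ^ (-(1 / 2) : ℝ) * pt (2 * t) z) := by
  have hpt : pt t z = (2 : ℝ) ^ ((d : ℝ) / 2) * Real.exp (-‖z‖ ^ 2 / (8 * t)) * pt (2 * t) z := by
    unfold pt
    have e1 : (4 * Real.pi * (2 * t)) ^ (-((d : ℝ) / 2)) =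
        (2 : ℝ) ^ (-((d : ℝ) / 2)) * (4 * Real.pi * t) ^ (-((d : ℝ) / 2)) := by
      rw [← Real.mul_rpow (by norm_num) (by positivity)]
      congr 1
      ring
    have e2 : (2 : ℝ) ^ ((d : ℝ) / 2) * (2 : ℝ) ^ (-((d : ℝ) / 2)) = 1 := by
      rw [← Real.rpow_add (by norm_num)]
      simp
    have e3 : Real.exp (-‖z‖ ^ 2 / (8 * t)) * Real.exp (-‖z‖ ^ 2 / (4 * (2 * t))) =
        Real.exp (-‖z‖ ^ 2 / (4 * t)) := by
      rw [← Real.exp_add]
      congr 1
      field_simp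
      ring
    rw [e1]
    calc (4 * Real.pi * t) ^ (-((d : ℝ) / 2)) * Real.exp (-‖z‖ ^ 2 / (4 * t))
        = ((2 : ℝ) ^ ((d : ℝ) / 2) * (2 : ℝ) ^ (-((d : ℝ) / 2))) *
          (4 * Real.pi * t) ^ (-((d : ℝ) / 2)) *
          (Real.exp (-‖z‖ ^ 2 / (8 * t)) * Real.exp (-‖z‖ ^ 2 / (4 * (2 * t)))) := by
          rw [e2, e3, one_mul]
      _ = _ := by ring
  have hp : 0 < pt (2 * t) z := (pt_facts (d := d) (t := 2 * t) (by positivity)).1 z
  have hz : |z i| ≤ ‖z‖ := by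
    have := EuclideanSpace.norm_eq z
    have h2 : |z i| ^ 2 ≤ ∑ j, ‖z j‖ ^ 2 :=
      Finset.single_le_sum (f := fun j => ‖z j‖ ^ 2) (fun j _ => sq_nonneg _) (Finset.mem_univ i)
    rw [this]
    exact Real.le_sqrt_of_sq_le h2
  have hkey : |z i| / (2 * t) * Real.exp (-‖z‖ ^ 2 / (8 * t)) ≤ t ^ (-(1 / 2) : ℝ) := by
    have hst : t ^ (-(1 / 2) : ℝ) = (Real.sqrt t)⁻¹ := by
      rw [Real.rpow_neg ht.le, ← Real.sqrt_eq_rpow]
    rw [hst]
    have hs : 0 < Real.sqrt t := Real.sqrt_pos.2 ht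
    have hss : Real.sqrt t * Real.sqrt t = t := Real.mul_self_sqrt ht.le
    obtain ⟨s, hs'⟩ : ∃ s, s = ‖z‖ / Real.sqrt t := ⟨_, rfl⟩
    have hs0 : 0 ≤ s := by rw [hs']; positivity
    have hzs : ‖z‖ = s * Real.sqrt t := by rw [hs']; field_simp
    have e1 : -‖z‖ ^ 2 / (8 * t) = -(s ^ 2 / 8) := by
      rw [hzs, mul_pow, Real.sq_sqrt ht.le]
      field_simp
    have e2 : s / 2 * Real.exp (-(s ^ 2 / 8)) ≤ 1 := by
      rw [Real.exp_neg, ← div_eq_mul_inv, div_le_one (Real.exp_pos _)]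
      have := Real.add_one_le_exp (s ^ 2 / 8)
      nlinarith [sq_nonneg (s - 2)]
    rw [e1]
    calc |z i| / (2 * t) * Real.exp (-(s ^ 2 / 8))
        ≤ (s * Real.sqrt t) / (2 * t) * Real.exp (-(s ^ 2 / 8)) := by
          rw [← hzs]
          gcongr
      _ = (s / 2 * Real.exp (-(s ^ 2 / 8))) * (Real.sqrt t)⁻¹ := by
          rw [← hss]
          simp only [Real.sqrt_mul_self hs.le]
          field_simp
      _ ≤ 1 * (Real.sqrt t)⁻¹ := by gcongr
      _ = _ := one_mul _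
  have h2d : (0 : ℝ) < (2 : ℝ) ^ ((d : ℝ) / 2) := by positivity
  calc |Dk i t z| = |z i| / (2 * t) * pt t z := by
        unfold Dk
        rw [abs_mul, abs_div, abs_neg, abs_of_pos (show 0 < 2 * t by positivity),
          abs_of_pos ((pt_facts (d := d) ht).1 z)]
    _ = (2 : ℝ) ^ ((d : ℝ) / 2) *
        ((|z i| / (2 * t) * Real.exp (-‖z‖ ^ 2 / (8 * t))) * pt (2 * t) z) := by
        rw [hpt]
        ring
    _ ≤ _ := by gcongr

/-- time weight -/
noncomputable def aw (s : ℝ) : ℝ≥0∞ :=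
  (Ioi (0 : ℝ)).indicator (fun s => ENNReal.ofReal (s ^ (-(1 / 2) : ℝ))) s

theorem aw_meas : Measurable aw :=
  ((measurable_id.pow_const _).ennreal_ofReal).indicator measurableSet_Ioi

theorem aw_pos {s : ℝ} (hs : 0 < s) : aw s = ENNReal.ofReal (s ^ (-(1 / 2) : ℝ)) :=
  indicator_of_mem (show s ∈ Ioi (0 : ℝ) from hs) _

theorem aw_nonpos {s : ℝ} (hs : s ≤ 0) : aw s = 0 :=
  indicator_of_notMem (show s ∉ Ioi (0 : ℝ) from not_lt.2 hs) _

theorem beta_bound {r : ℝ} (hr : 0 < r) : ∫⁻ s, aw s * aw (r - s) ≤ 8 := by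
  obtain ⟨c, hc⟩ : ∃ c, c = (r / 2) ^ (-(1 / 2) : ℝ) := ⟨_, rfl⟩
  have hc0 : 0 < c := by rw [hc]; positivity
  have hpt : ∀ s, aw s * aw (r - s) ≤ (Ioc (0 : ℝ) r).indicator (fun s =>
      ENNReal.ofReal (c * (s ^ (-(1 / 2) : ℝ) + (r - s) ^ (-(1 / 2) : ℝ)))) s := by
    intro s
    by_cases hs : 0 < s ∧ s < r
    · obtain ⟨h1, h2⟩ := hs
      rw [indicator_of_mem (show s ∈ Ioc (0 : ℝ) r from ⟨h1, h2.le⟩), aw_pos h1,
        aw_pos (by linarith : 0 < r - s), ← ENNReal.ofReal_mul (by positivity)]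
      apply ENNReal.ofReal_le_ofReal
      have h3 : 0 < s ^ (-(1 / 2) : ℝ) := by positivity
      have h4 : 0 < (r - s) ^ (-(1 / 2) : ℝ) := Real.rpow_pos_of_pos (by linarith) _
      rcases le_total s (r / 2) with h | h
      · have h5 : (r - s) ^ (-(1 / 2) : ℝ) ≤ c := by
          rw [hc]
          exact Real.rpow_le_rpow_of_nonpos (by positivity) (by linarith) (by norm_num)
        nlinarith
      · have h5 : s ^ (-(1 / 2) : ℝ) ≤ c := by
          rw [hc]
          exact Real.rpow_le_rpow_of_nonpos (by positivity) h (by norm_num)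
        nlinarith
    · have : aw s * aw (r - s) = 0 := by
        rcases not_and_or.1 hs with h | h
        · rw [aw_nonpos (not_lt.1 h), zero_mul]
        · rw [aw_nonpos (by linarith [not_lt.1 h] : r - s ≤ 0), mul_zero]
      rw [this]
      exact zero_le
  have hint1 : IntervalIntegrable (fun s : ℝ => s ^ (-(1 / 2) : ℝ)) volume 0 r :=
    intervalIntegral.intervalIntegrable_rpow' (by norm_num)
  have hint2 : IntervalIntegrable (fun s : ℝ => (r - s) ^ (-(1 / 2) : ℝ)) volume 0 r := by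
    have := hint1.comp_sub_left r
    simpa using this.symm
  have hv1 : ∫ s in (0 : ℝ)..r, s ^ (-(1 / 2) : ℝ) = 2 * r ^ ((1 / 2) : ℝ) := by
    rw [integral_rpow (Or.inl (by norm_num))]
    norm_num
    ring
  have hv2 : ∫ s in (0 : ℝ)..r, (r - s) ^ (-(1 / 2) : ℝ) = 2 * r ^ ((1 / 2) : ℝ) := by
    rw [intervalIntegral.integral_comp_sub_left (fun s => s ^ (-(1 / 2) : ℝ)) r]
    simpa using hv1
  calc ∫⁻ s, aw s * aw (r - s)
      ≤ ∫⁻ s, (Ioc (0 : ℝ) r).indicator (fun s =>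
        ENNReal.ofReal (c * (s ^ (-(1 / 2) : ℝ) + (r - s) ^ (-(1 / 2) : ℝ)))) s :=
        lintegral_mono hpt
    _ = ∫⁻ s in Ioc (0 : ℝ) r,
        ENNReal.ofReal (c * (s ^ (-(1 / 2) : ℝ) + (r - s) ^ (-(1 / 2) : ℝ))) :=
        lintegral_indicator measurableSet_Ioc _
    _ = ENNReal.ofReal (∫ s in Ioc (0 : ℝ) r,
        c * (s ^ (-(1 / 2) : ℝ) + (r - s) ^ (-(1 / 2) : ℝ))) := by
        rw [ofReal_integral_eq_lintegral_ofReal]
        · exact ((hint1.add hint2).const_mul c).1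
        · rw [Filter.EventuallyLE, ae_restrict_iff' measurableSet_Ioc]
          refine Eventually.of_forall fun s hs => ?_
          have h1 : 0 ≤ s ^ (-(1 / 2) : ℝ) := Real.rpow_nonneg hs.1.le _
          have h2 : 0 ≤ (r - s) ^ (-(1 / 2) : ℝ) := Real.rpow_nonneg (by linarith [hs.2]) _
          show 0 ≤ c * (s ^ (-(1 / 2) : ℝ) + (r - s) ^ (-(1 / 2) : ℝ))
          positivity
    _ = ENNReal.ofReal (c * (4 * r ^ ((1 / 2) : ℝ))) := by
        congr 1
        rw [← intervalIntegral.integral_of_le hr.le, intervalIntegral.integral_const_mul,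
          intervalIntegral.integral_add hint1 hint2, hv1, hv2]
        ring
    _ ≤ ENNReal.ofReal 8 := by
        apply ENNReal.ofReal_le_ofReal
        have e1 : r ^ ((1 / 2) : ℝ) = (r / 2) ^ ((1 / 2) : ℝ) * (2 : ℝ) ^ ((1 / 2) : ℝ) := by
          rw [← Real.mul_rpow (by positivity) (by norm_num)]
          congr 1
          ring
        have e2 : c * (r / 2) ^ ((1 / 2) : ℝ) = 1 := by
          rw [hc, ← Real.rpow_add (by positivity)]
          norm_num
        have e3 : (2 : ℝ) ^ ((1 / 2) : ℝ) ≤ 2 := by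
          calc (2 : ℝ) ^ ((1 / 2) : ℝ) ≤ (2 : ℝ) ^ (1 : ℝ) :=
                Real.rpow_le_rpow_of_exponent_le (by norm_num) (by norm_num)
            _ = 2 := by norm_num
        calc c * (4 * r ^ ((1 / 2) : ℝ))
            = 4 * (c * (r / 2) ^ ((1 / 2) : ℝ)) * (2 : ℝ) ^ ((1 / 2) : ℝ) := by rw [e1]; ring
          _ ≤ 8 := by rw [e2]; linarith
    _ = 8 := by norm_num

theorem scale_G {d : ℕ} (κ : ℝ) (w : E d) :
    ∫⁻ r in Ioi (0 : ℝ), ENNReal.ofReal (Real.exp (-κ ^ 2 * r) * pt (2 * r) w) ≤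
      G (κ / Real.sqrt 2) w := by
  have hsq : (κ / Real.sqrt 2) ^ 2 = κ ^ 2 / 2 := by
    rw [div_pow, Real.sq_sqrt (by norm_num)]
  have hm : Measurable (fun t : ℝ => (Ioi (0 : ℝ)).indicator (fun t =>
      ENNReal.ofReal (Real.exp (-(κ / Real.sqrt 2) ^ 2 * t) * pt t w)) t) := by
    refine Measurable.indicator ?_ measurableSet_Ioi
    exact ((by fun_prop : Measurable fun t : ℝ => Real.exp (-(κ / Real.sqrt 2) ^ 2 * t)).mul
      (pt_meas.comp (measurable_id.prodMk measurable_const))).ennreal_ofReal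
  have h1 : ∫⁻ r in Ioi (0 : ℝ), ENNReal.ofReal (Real.exp (-κ ^ 2 * r) * pt (2 * r) w) =
      ∫⁻ r : ℝ, (Ioi (0 : ℝ)).indicator (fun t =>
        ENNReal.ofReal (Real.exp (-(κ / Real.sqrt 2) ^ 2 * t) * pt t w)) (2 * r) := by
    rw [← lintegral_indicator measurableSet_Ioi]
    congr 1
    funext r
    by_cases hr : 0 < r
    · rw [indicator_of_mem (show r ∈ Ioi (0 : ℝ) from hr),
        indicator_of_mem (show 2 * r ∈ Ioi (0 : ℝ) from by simpa using hr), hsq]
      congr 3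
      ring
    · rw [indicator_of_notMem (show r ∉ Ioi (0 : ℝ) from hr),
        indicator_of_notMem (show 2 * r ∉ Ioi (0 : ℝ) from by simpa using hr)]
  rw [h1]
  have h2 := lintegral_map (μ := (volume : Measure ℝ)) hm (measurable_const_mul (2 : ℝ))
  rw [← h2, Real.map_volume_mul_left (by norm_num : (2 : ℝ) ≠ 0), lintegral_smul_measure,
    lintegral_indicator measurableSet_Ioi]
  show ENNReal.ofReal |2⁻¹| • G (κ / Real.sqrt 2) w ≤ G (κ / Real.sqrt 2) w
  rw [smul_eq_mul]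
  calc ENNReal.ofReal |2⁻¹| * G (κ / Real.sqrt 2) w ≤ 1 * G (κ / Real.sqrt 2) w := by
        gcongr
        rw [ENNReal.ofReal_le_one]
        norm_num
    _ = _ := one_mul _

noncomputable def Ek {d : ℕ} (κ s : ℝ) (z : E d) : ℝ≥0∞ :=
  ENNReal.ofReal (Real.exp (-κ ^ 2 * s) * pt (2 * s) z)

noncomputable def Mk {d : ℕ} (κ : ℝ) (z : E d) : ℝ≥0∞ := ∫⁻ s, aw s * Ek κ s z

theorem Ek_meas {d : ℕ} (κ : ℝ) : Measurable (fun p : ℝ × E d => Ek κ p.1 p.2) := by
  unfold Ek
  have h1 : Measurable (fun p : ℝ × E d => Real.exp (-κ ^ 2 * p.1)) := by fun_prop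
  have h2 : Measurable (fun p : ℝ × E d => pt (2 * p.1) p.2) :=
    pt_meas.comp ((measurable_fst.const_mul 2).prodMk measurable_snd)
  exact (h1.mul h2).ennreal_ofReal

theorem awEk_meas {d : ℕ} (κ : ℝ) : Measurable (fun p : ℝ × E d => aw p.1 * Ek κ p.1 p.2) :=
  (aw_meas.comp measurable_fst).mul (Ek_meas κ)

theorem Mk_meas {d : ℕ} (κ : ℝ) : Measurable (Mk κ : E d → ℝ≥0∞) :=
  (awEk_meas κ).lintegral_prod_left'

theorem Ek_conv {d : ℕ} (κ : ℝ) {s t : ℝ} (hs : 0 < s) (ht : 0 < t) (y z : E d) :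
    ∫⁻ x, Ek κ s (x - y) * Ek κ t (x - z) = Ek κ (s + t) (y - z) := by
  unfold Ek
  have h0 : ∀ (u : ℝ) (w : E d), ENNReal.ofReal (Real.exp (-κ ^ 2 * u) * pt (2 * u) w) =
      ENNReal.ofReal (Real.exp (-κ ^ 2 * u)) * ENNReal.ofReal (pt (2 * u) w) := fun u w =>
    ENNReal.ofReal_mul (Real.exp_pos _).le
  simp only [h0]
  have h1 : ∀ x : E d, ENNReal.ofReal (Real.exp (-κ ^ 2 * s)) * ENNReal.ofReal (pt (2 * s) (x - y)) *
      (ENNReal.ofReal (Real.exp (-κ ^ 2 * t)) * ENNReal.ofReal (pt (2 * t) (x - z))) =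
      (ENNReal.ofReal (Real.exp (-κ ^ 2 * s)) * ENNReal.ofReal (Real.exp (-κ ^ 2 * t))) *
      (ENNReal.ofReal (pt (2 * s) (x - y)) * ENNReal.ofReal (pt (2 * t) (x - z))) := fun x => by
    ring
  simp only [h1]
  rw [lintegral_const_mul' _ _ (ENNReal.mul_ne_top ENNReal.ofReal_ne_top ENNReal.ofReal_ne_top),
    pt_semigroup (by positivity) (by positivity), ← ENNReal.ofReal_mul (Real.exp_pos _).le,
    ← Real.exp_add]
  congr 2
  · congr 2; ring
  · congr 1; ring

theorem Mk_conv {d : ℕ} (κ : ℝ) (y z : E d) :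
    ∫⁻ x, Mk κ (x - y) * Mk κ (x - z) ≤ 8 * G (κ / Real.sqrt 2) (y - z) := by
  have m1 : ∀ w : E d, Measurable (fun s => aw s * Ek κ s w) := fun w =>
    (awEk_meas κ).comp (measurable_id.prodMk measurable_const)
  have hT : Measurable (fun p : (E d × ℝ) × ℝ =>
      (aw p.1.2 * Ek κ p.1.2 (p.1.1 - y)) * (aw p.2 * Ek κ p.2 (p.1.1 - z))) := by
    refine Measurable.mul ?_ ?_
    · exact (awEk_meas κ).comp ((measurable_snd.comp measurable_fst).prodMk
        ((measurable_fst.comp measurable_fst).sub_const y))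
    · exact (awEk_meas κ).comp (measurable_snd.prodMk
        ((measurable_fst.comp measurable_fst).sub_const z))
  calc ∫⁻ x, Mk κ (x - y) * Mk κ (x - z)
      = ∫⁻ x, ∫⁻ s, ∫⁻ t, (aw s * Ek κ s (x - y)) * (aw t * Ek κ t (x - z)) := by
        refine lintegral_congr fun x => ?_
        unfold Mk
        rw [← lintegral_mul_const _ (m1 _)]
        refine lintegral_congr fun s => ?_
        rw [← lintegral_const_mul _ (m1 _)]
    _ = ∫⁻ s, ∫⁻ x, ∫⁻ t, (aw s * Ek κ s (x - y)) * (aw t * Ek κ t (x - z)) :=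
        lintegral_lintegral_swap hT.lintegral_prod_right'.aemeasurable
    _ = ∫⁻ s, ∫⁻ t, ∫⁻ x, (aw s * Ek κ s (x - y)) * (aw t * Ek κ t (x - z)) := by
        refine lintegral_congr fun s => ?_
        refine lintegral_lintegral_swap ?_
        exact (hT.comp ((measurable_fst.prodMk measurable_const).prodMk
          measurable_snd)).aemeasurable
    _ = ∫⁻ s, ∫⁻ t, aw s * aw t * Ek κ (s + t) (y - z) := by
        refine lintegral_congr fun s => lintegral_congr fun t => ?_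
        by_cases hs : 0 < s
        · by_cases ht : 0 < t
          · rw [← Ek_conv κ hs ht y z]
            have hne : aw s * aw t ≠ ⊤ := by
              rw [aw_pos hs, aw_pos ht]
              exact ENNReal.mul_ne_top ENNReal.ofReal_ne_top ENNReal.ofReal_ne_top
            rw [← lintegral_const_mul' _ _ hne]
            refine lintegral_congr fun x => ?_
            ring
          · simp [aw_nonpos (not_lt.1 ht)]
        · simp [aw_nonpos (not_lt.1 hs)]
    _ = ∫⁻ s, ∫⁻ r, aw s * aw (r - s) * Ek κ r (y - z) := by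
        refine lintegral_congr fun s => ?_
        rw [← lintegral_sub_right_eq_self (fun t => aw s * aw t * Ek κ (s + t) (y - z)) s]
        refine lintegral_congr fun r => ?_
        rw [add_sub_cancel]
    _ = ∫⁻ r, ∫⁻ s, aw s * aw (r - s) * Ek κ r (y - z) := by
        refine lintegral_lintegral_swap (Measurable.aemeasurable ?_)
        refine Measurable.mul (Measurable.mul (aw_meas.comp measurable_fst)
          (aw_meas.comp (measurable_snd.sub measurable_fst))) ?_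
        exact (Ek_meas κ).comp (measurable_snd.prodMk measurable_const)
    _ = ∫⁻ r, (∫⁻ s, aw s * aw (r - s)) * Ek κ r (y - z) := by
        refine lintegral_congr fun r => ?_
        rw [lintegral_mul_const]
        exact aw_meas.mul (aw_meas.comp (measurable_const.sub measurable_id))
    _ ≤ ∫⁻ r, (Ioi (0 : ℝ)).indicator (fun r => 8 * Ek κ r (y - z)) r := by
        refine lintegral_mono fun r => ?_
        by_cases hr : 0 < r
        · rw [indicator_of_mem (show r ∈ Ioi (0 : ℝ) from hr)]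
          gcongr
          exact beta_bound hr
        · have h0 : ∫⁻ s, aw s * aw (r - s) = 0 := by
            rw [← lintegral_zero (μ := (volume : Measure ℝ))]
            refine lintegral_congr fun s => ?_
            by_cases hs : 0 < s
            · rw [aw_nonpos (by linarith [not_lt.1 hr] : r - s ≤ 0), mul_zero]
            · rw [aw_nonpos (not_lt.1 hs), zero_mul]
          rw [h0, zero_mul]
          exact zero_le
    _ = 8 * ∫⁻ r in Ioi (0 : ℝ), Ek κ r (y - z) := by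
        rw [lintegral_indicator measurableSet_Ioi, lintegral_const_mul' _ _ (by norm_num)]
    _ ≤ 8 * G (κ / Real.sqrt 2) (y - z) := by
        gcongr
        exact scale_G κ (y - z)

noncomputable def K1 {d : ℕ} (κ : ℝ) (i : Fin d) (z : E d) : ℝ :=
  ∫ t in Ioi (0 : ℝ), Real.exp (-κ ^ 2 * t) * Dk i t z

theorem Dk_meas {d : ℕ} (i : Fin d) : Measurable (fun p : ℝ × E d => Dk i p.1 p.2) := by
  unfold Dk
  refine Measurable.mul (Measurable.div ?_ (measurable_fst.const_mul 2)) pt_meas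
  exact ((by fun_prop : Measurable fun p : ℝ × E d => -(p.2 i)))

theorem k1_meas {d : ℕ} (κ : ℝ) (i : Fin d) :
    Measurable (fun p : ℝ × E d => Real.exp (-κ ^ 2 * p.1) * Dk i p.1 p.2) :=
  (by fun_prop : Measurable fun p : ℝ × E d => Real.exp (-κ ^ 2 * p.1)).mul (Dk_meas i)

theorem k0_meas {d : ℕ} (κ : ℝ) :
    Measurable (fun p : ℝ × E d => Real.exp (-κ ^ 2 * p.1) * pt p.1 p.2) :=
  (by fun_prop : Measurable fun p : ℝ × E d => Real.exp (-κ ^ 2 * p.1)).mul pt_meas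

theorem K1_meas {d : ℕ} (κ : ℝ) (i : Fin d) : Measurable (K1 κ i : E d → ℝ) :=
  ((k1_meas κ i).stronglyMeasurable.integral_prod_left').measurable

theorem K1_bound {d : ℕ} (κ : ℝ) (i : Fin d) (z : E d) :
    ‖K1 κ i z‖ₑ ≤ ENNReal.ofReal ((2 : ℝ) ^ ((d : ℝ) / 2)) * Mk κ z := by
  unfold K1
  refine (enorm_integral_le_lintegral_enorm _).trans ?_
  have h1 : ∀ t ∈ Ioi (0 : ℝ), ‖Real.exp (-κ ^ 2 * t) * Dk i t z‖ₑ ≤
      ENNReal.ofReal ((2 : ℝ) ^ ((d : ℝ) / 2)) * (aw t * Ek κ t z) := by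
    intro t ht
    have ht' : 0 < t := ht
    rw [Real.enorm_eq_ofReal_abs, aw_pos ht']
    unfold Ek
    rw [← ENNReal.ofReal_mul (by positivity), ← ENNReal.ofReal_mul (by positivity)]
    apply ENNReal.ofReal_le_ofReal
    rw [abs_mul, abs_of_pos (Real.exp_pos _)]
    calc Real.exp (-κ ^ 2 * t) * |Dk i t z|
        ≤ Real.exp (-κ ^ 2 * t) *
          ((2 : ℝ) ^ ((d : ℝ) / 2) * (t ^ (-(1 / 2) : ℝ) * pt (2 * t) z)) :=
          mul_le_mul_of_nonneg_left (Dk_bound i ht' z) (Real.exp_pos _).le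
      _ = _ := by ring
  calc ∫⁻ t in Ioi (0 : ℝ), ‖Real.exp (-κ ^ 2 * t) * Dk i t z‖ₑ
      ≤ ∫⁻ t in Ioi (0 : ℝ), ENNReal.ofReal ((2 : ℝ) ^ ((d : ℝ) / 2)) * (aw t * Ek κ t z) :=
        setLIntegral_mono' measurableSet_Ioi h1
    _ = ENNReal.ofReal ((2 : ℝ) ^ ((d : ℝ) / 2)) * ∫⁻ t in Ioi (0 : ℝ), (aw t * Ek κ t z) :=
        lintegral_const_mul' _ _ ENNReal.ofReal_ne_top
    _ ≤ ENNReal.ofReal ((2 : ℝ) ^ ((d : ℝ) / 2)) * Mk κ z := by
        gcongr
        exact setLIntegral_le_lintegral _ _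

theorem energy {d : ℕ} {κ : ℝ} (hκ : 0 < κ) {h : E d → ℝ} (hmh : Measurable h)
    (hen : ∀ κ' : ℝ, 0 < κ' →
      (∫⁻ x : E d, ∫⁻ y : E d, G κ' (x - y) * ‖h x‖ₑ * ‖h y‖ₑ) < ⊤) :
    ∫⁻ x, (∫⁻ y, Mk κ (x - y) * ‖h y‖ₑ) ^ 2 < ⊤ := by
  have hhe : Measurable (fun y => ‖h y‖ₑ) := hmh.enorm
  have m1 : ∀ x : E d, Measurable (fun y => Mk κ (x - y) * ‖h y‖ₑ) := fun x =>
    ((Mk_meas κ).comp (measurable_const.sub measurable_id)).mul hhe
  have hT : Measurable (fun p : (E d × E d) × E d =>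
      (Mk κ (p.1.1 - p.1.2) * ‖h p.1.2‖ₑ) * (Mk κ (p.1.1 - p.2) * ‖h p.2‖ₑ)) := by
    refine Measurable.mul (Measurable.mul ?_ ?_) (Measurable.mul ?_ ?_)
    · exact (Mk_meas κ).comp ((measurable_fst.comp measurable_fst).sub
        (measurable_snd.comp measurable_fst))
    · exact hhe.comp (measurable_snd.comp measurable_fst)
    · exact (Mk_meas κ).comp ((measurable_fst.comp measurable_fst).sub measurable_snd)
    · exact hhe.comp measurable_snd
  calc ∫⁻ x, (∫⁻ y, Mk κ (x - y) * ‖h y‖ₑ) ^ 2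
      = ∫⁻ x, ∫⁻ y, ∫⁻ z, (Mk κ (x - y) * ‖h y‖ₑ) * (Mk κ (x - z) * ‖h z‖ₑ) := by
        refine lintegral_congr fun x => ?_
        rw [sq, ← lintegral_mul_const _ (m1 x)]
        refine lintegral_congr fun y => ?_
        rw [← lintegral_const_mul _ (m1 x)]
    _ = ∫⁻ y, ∫⁻ x, ∫⁻ z, (Mk κ (x - y) * ‖h y‖ₑ) * (Mk κ (x - z) * ‖h z‖ₑ) :=
        lintegral_lintegral_swap hT.lintegral_prod_right'.aemeasurable
    _ = ∫⁻ y, ∫⁻ z, ∫⁻ x, (Mk κ (x - y) * ‖h y‖ₑ) * (Mk κ (x - z) * ‖h z‖ₑ) := by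
        refine lintegral_congr fun y => ?_
        refine lintegral_lintegral_swap ?_
        exact (hT.comp ((measurable_fst.prodMk measurable_const).prodMk
          measurable_snd)).aemeasurable
    _ = ∫⁻ y, ∫⁻ z, (∫⁻ x, Mk κ (x - y) * Mk κ (x - z)) * ‖h y‖ₑ * ‖h z‖ₑ := by
        refine lintegral_congr fun y => lintegral_congr fun z => ?_
        rw [mul_assoc, ← lintegral_mul_const' _ _
          (ENNReal.mul_ne_top enorm_ne_top enorm_ne_top)]
        refine lintegral_congr fun x => ?_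
        ring
    _ ≤ ∫⁻ y, ∫⁻ z, (8 * G (κ / Real.sqrt 2) (y - z)) * ‖h y‖ₑ * ‖h z‖ₑ := by
        refine lintegral_mono fun y => lintegral_mono fun z => ?_
        gcongr
        exact Mk_conv κ y z
    _ = 8 * ∫⁻ y, ∫⁻ z, G (κ / Real.sqrt 2) (y - z) * ‖h y‖ₑ * ‖h z‖ₑ := by
        rw [← lintegral_const_mul' _ _ (by norm_num)]
        refine lintegral_congr fun y => ?_
        rw [← lintegral_const_mul' _ _ (by norm_num)]
        refine lintegral_congr fun z => ?_
        ring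
    _ < ⊤ := ENNReal.mul_lt_top (by norm_num) (hen _ (by positivity))

theorem g_memLp {d : ℕ} {κ : ℝ} (hκ : 0 < κ) {h : E d → ℝ} (hmh : Measurable h)
    (hen : ∀ κ' : ℝ, 0 < κ' →
      (∫⁻ x : E d, ∫⁻ y : E d, G κ' (x - y) * ‖h x‖ₑ * ‖h y‖ₑ) < ⊤) (i : Fin d) :
    MemLp (fun x => ∫ y, K1 κ i (x - y) * h y) 2 volume := by
  have hm : Measurable (fun p : E d × E d => K1 κ i (p.1 - p.2) * h p.2) :=
    ((K1_meas κ i).comp (measurable_fst.sub measurable_snd)).mul (hmh.comp measurable_snd)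
  refine ⟨(hm.stronglyMeasurable.integral_prod_right').aestronglyMeasurable, ?_⟩
  rw [eLpNorm_lt_top_iff_lintegral_rpow_enorm_lt_top (by norm_num) (by norm_num)]
  have hb : ∀ x, ‖∫ y, K1 κ i (x - y) * h y‖ₑ ≤
      ENNReal.ofReal ((2 : ℝ) ^ ((d : ℝ) / 2)) * ∫⁻ y, Mk κ (x - y) * ‖h y‖ₑ := by
    intro x
    refine (enorm_integral_le_lintegral_enorm _).trans ?_
    rw [← lintegral_const_mul' _ _ ENNReal.ofReal_ne_top]
    refine lintegral_mono fun y => ?_
    rw [enorm_mul, ← mul_assoc]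
    gcongr
    exact K1_bound κ i (x - y)
  calc ∫⁻ x, ‖∫ y, K1 κ i (x - y) * h y‖ₑ ^ (2 : ℝ≥0∞).toReal
      ≤ ∫⁻ x, (ENNReal.ofReal ((2 : ℝ) ^ ((d : ℝ) / 2)) *
          ∫⁻ y, Mk κ (x - y) * ‖h y‖ₑ) ^ (2 : ℝ≥0∞).toReal := by
        refine lintegral_mono fun x => ?_
        exact ENNReal.rpow_le_rpow (hb x) (by norm_num)
    _ = (ENNReal.ofReal ((2 : ℝ) ^ ((d : ℝ) / 2))) ^ 2 *
          ∫⁻ x, (∫⁻ y, Mk κ (x - y) * ‖h y‖ₑ) ^ 2 := by
        rw [← lintegral_const_mul' _ _ (ENNReal.pow_ne_top ENNReal.ofReal_ne_top)]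
        refine lintegral_congr fun x => ?_
        have : (2 : ℝ≥0∞).toReal = ((2 : ℕ) : ℝ) := by norm_num
        rw [this, ENNReal.rpow_natCast, mul_pow]
    _ < ⊤ := ENNReal.mul_lt_top (ENNReal.pow_lt_top ENNReal.ofReal_lt_top) (energy hκ hmh hen)

section fub

variable {d : ℕ}

/-- Lebesgue measure on the half line -/
noncomputable abbrev nu0 : Measure ℝ := volume.restrict (Ioi (0 : ℝ))

theorem ae_pos_prod : ∀ᵐ p ∂(nu0.prod (volume : Measure (E d))), 0 < p.1 := by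
  have h : ∀ᵐ t ∂nu0, 0 < t := by
    rw [ae_restrict_iff' measurableSet_Ioi]
    exact Eventually.of_forall fun t ht => ht
  exact Measure.quasiMeasurePreserving_fst.ae h

theorem k0_int {κ : ℝ} (hκ : 0 < κ) :
    Integrable (fun p : ℝ × E d => Real.exp (-κ ^ 2 * p.1) * pt p.1 p.2)
      (nu0.prod (volume : Measure (E d))) := by
  rw [integrable_prod_iff (k0_meas κ).aestronglyMeasurable]
  constructor
  · rw [ae_restrict_iff' measurableSet_Ioi]
    refine Eventually.of_forall fun t ht => ?_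
    show Integrable (fun z : E d => Real.exp (-κ ^ 2 * t) * pt t z) volume
    exact (pt_facts (d := d) ht).2.2.1.const_mul _
  · have h1 : Integrable (fun t : ℝ => Real.exp (-κ ^ 2 * t)) nu0 :=
      exp_neg_integrableOn_Ioi 0 (by positivity)
    refine h1.congr ?_
    rw [Filter.EventuallyEq, ae_restrict_iff' measurableSet_Ioi]
    refine Eventually.of_forall fun t ht => ?_
    obtain ⟨hp, -, -, hi, -, -⟩ := pt_facts (d := d) ht
    have : ∀ z : E d, ‖Real.exp (-κ ^ 2 * t) * pt t z‖ = Real.exp (-κ ^ 2 * t) * pt t z :=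
      fun z => Real.norm_of_nonneg (mul_nonneg (Real.exp_pos _).le (hp z).le)
    simp only [this]
    rw [integral_const_mul, hi, mul_one]

theorem m_int {κ : ℝ} (hκ : 0 < κ) :
    Integrable (fun p : ℝ × E d => Real.exp (-κ ^ 2 * p.1) *
      (p.1 ^ (-(1 / 2) : ℝ) * pt (2 * p.1) p.2)) (nu0.prod (volume : Measure (E d))) := by
  have hm : Measurable (fun p : ℝ × E d => Real.exp (-κ ^ 2 * p.1) *
      (p.1 ^ (-(1 / 2) : ℝ) * pt (2 * p.1) p.2)) := by
    refine Measurable.mul (by fun_prop) (Measurable.mul (measurable_fst.pow_const _) ?_)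
    exact pt_meas.comp ((measurable_fst.const_mul 2).prodMk measurable_snd)
  rw [integrable_prod_iff hm.aestronglyMeasurable]
  constructor
  · rw [ae_restrict_iff' measurableSet_Ioi]
    refine Eventually.of_forall fun t ht => ?_
    have ht' : 0 < t := ht
    show Integrable (fun z : E d => Real.exp (-κ ^ 2 * t) *
      (t ^ (-(1 / 2) : ℝ) * pt (2 * t) z)) volume
    exact ((pt_facts (d := d) (by positivity : 0 < 2 * t)).2.2.1.const_mul _).const_mul _
  · have h1 : Integrable (fun t : ℝ => t ^ (-(1 / 2) : ℝ) * Real.exp (-κ ^ 2 * t ^ (1 : ℝ))) nu0 :=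
      integrableOn_rpow_mul_exp_neg_mul_rpow (by norm_num) (by norm_num) (by positivity)
    refine h1.congr ?_
    rw [Filter.EventuallyEq, ae_restrict_iff' measurableSet_Ioi]
    refine Eventually.of_forall fun t ht => ?_
    have ht' : 0 < t := ht
    obtain ⟨hp, -, -, hi, -, -⟩ := pt_facts (d := d) (by positivity : 0 < 2 * t)
    have : ∀ z : E d, ‖Real.exp (-κ ^ 2 * t) * (t ^ (-(1 / 2) : ℝ) * pt (2 * t) z)‖ =
        Real.exp (-κ ^ 2 * t) * (t ^ (-(1 / 2) : ℝ) * pt (2 * t) z) :=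
      fun z => Real.norm_of_nonneg (mul_nonneg (Real.exp_pos _).le
        (mul_nonneg (by positivity) (hp z).le))
    simp only [this]
    rw [integral_const_mul, integral_const_mul, hi, mul_one, Real.rpow_one, mul_comm]

theorem k1_int {κ : ℝ} (hκ : 0 < κ) (i : Fin d) :
    Integrable (fun p : ℝ × E d => Real.exp (-κ ^ 2 * p.1) * Dk i p.1 p.2)
      (nu0.prod (volume : Measure (E d))) := by
  refine Integrable.mono' ((m_int hκ).const_mul ((2 : ℝ) ^ ((d : ℝ) / 2)))
    (k1_meas κ i).aestronglyMeasurable ?_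
  filter_upwards [ae_pos_prod] with p hp
  rw [Real.norm_eq_abs, abs_mul, abs_of_pos (Real.exp_pos _)]
  calc Real.exp (-κ ^ 2 * p.1) * |Dk i p.1 p.2|
      ≤ Real.exp (-κ ^ 2 * p.1) *
        ((2 : ℝ) ^ ((d : ℝ) / 2) * (p.1 ^ (-(1 / 2) : ℝ) * pt (2 * p.1) p.2)) :=
        mul_le_mul_of_nonneg_left (Dk_bound i hp p.2) (Real.exp_pos _).le
    _ = _ := by ring

/-- Fubini in the time variable -/
theorem fub_t {k : ℝ × E d → ℝ} (hk : Integrable k (nu0.prod (volume : Measure (E d))))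
    {ψ : E d → ℂ} (hψ : Continuous ψ) {B : ℝ} (hB : ∀ x, ‖ψ x‖ ≤ B) (y : E d) :
    ∫ x, ((∫ t, k (t, x - y) ∂nu0 : ℝ) : ℂ) * ψ x =
      ∫ t, (∫ x, (k (t, x - y) : ℂ) * ψ x) ∂nu0 := by
  have h1 : ∀ x, ((∫ t, k (t, x - y) ∂nu0 : ℝ) : ℂ) * ψ x =
      ∫ t, (k (t, x - y) : ℂ) * ψ x ∂nu0 := by
    intro x
    rw [← integral_complex_ofReal, integral_mul_const]
  simp only [h1]
  have hmp : MeasurePreserving (fun p : ℝ × E d => (p.1, p.2 - y))
      (nu0.prod (volume : Measure (E d))) (nu0.prod (volume : Measure (E d))) :=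
    (MeasurePreserving.id nu0).prod (measurePreserving_sub_right volume y)
  have h2 : Integrable (fun p : ℝ × E d => k (p.1, p.2 - y))
      (nu0.prod (volume : Measure (E d))) :=
    (hmp.integrable_comp hk.aestronglyMeasurable).2 hk
  have h3 : Integrable (fun p : ℝ × E d => (k (p.1, p.2 - y) : ℂ) * ψ p.2)
      (nu0.prod (volume : Measure (E d))) :=
    h2.ofReal.mul_bdd (c := B) (hψ.comp continuous_snd).aestronglyMeasurable
      (Eventually.of_forall fun p => hB p.2)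
  exact integral_integral_swap h3.swap

/-- Fubini for the convolution with `h` -/
theorem fub_h {K : E d → ℝ} (hK : Integrable K volume) {h : E d → ℝ} (hh : Integrable h volume)
    {ψ : E d → ℂ} (hψ : Continuous ψ) {B : ℝ} (hB : ∀ x, ‖ψ x‖ ≤ B) :
    ∫ x, ((∫ y, K (x - y) * h y : ℝ) : ℂ) * ψ x =
      ∫ y, (h y : ℂ) * ∫ x, (K (x - y) : ℂ) * ψ x := by
  have h1 : ∀ x, ((∫ y, K (x - y) * h y : ℝ) : ℂ) * ψ x =
      ∫ y, (h y : ℂ) * ((K (x - y) : ℂ) * ψ x) := by
    intro x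
    rw [← integral_complex_ofReal, ← integral_mul_const]
    congr 1
    funext y
    push_cast
    ring
  simp only [h1]
  have h2 : Integrable (fun p : E d × E d => h p.2 * K (p.1 - p.2))
      ((volume : Measure (E d)).prod volume) :=
    hh.convolution_integrand (ContinuousLinearMap.mul ℝ ℝ) hK
  have h3 : Integrable (fun p : E d × E d => ((h p.2 * K (p.1 - p.2) : ℝ) : ℂ) * ψ p.1)
      ((volume : Measure (E d)).prod volume) :=
    h2.ofReal.mul_bdd (c := B) (hψ.comp continuous_fst).aestronglyMeasurable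
      (Eventually.of_forall fun p => hB p.1)
  have h4 : Integrable (Function.uncurry fun x y : E d => (h y : ℂ) * ((K (x - y) : ℂ) * ψ x))
      ((volume : Measure (E d)).prod volume) := by
    refine h3.congr (Eventually.of_forall fun p => ?_)
    simp only [Function.uncurry]
    push_cast
    ring
  rw [integral_integral_swap h4]
  refine integral_congr_ae (Eventually.of_forall fun y => ?_)
  exact integral_const_mul _ _

theorem Dk_cont (i : Fin d) (t : ℝ) (ht : 0 < t) : Continuous (Dk i t : E d → ℝ) := by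
  unfold Dk
  refine Continuous.mul ?_ (pt_facts ht).2.1
  fun_prop

theorem ibp (i : Fin d) {t : ℝ} (ht : 0 < t) {φ : E d → ℂ} (hφ : IsTest φ) (y : E d) :
    ∫ x, (pt t (x - y) : ℂ) * pd i φ x = - ∫ x, (Dk i t (x - y) : ℂ) * φ x := by
  choose L hL hLi using fun z : E d => pt_hasFDerivAt t z
  have hpc : Continuous (fun x : E d => pt t (x - y)) :=
    (pt_facts ht).2.1.comp (continuous_id.sub continuous_const)
  have hdc : Continuous (fun x : E d => Dk i t (x - y)) :=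
    (Dk_cont i t ht).comp (continuous_id.sub continuous_const)
  have hφd : Continuous (fun x => fderiv ℝ φ x (EuclideanSpace.single i 1)) :=
    (hφ.1.continuous_fderiv (by simp)).clm_apply continuous_const
  have hf : ∀ x, HasFDerivAt (fun x : E d => pt t (x - y)) (L (x - y)) x := by
    intro x
    have h1 := (hL (x - y)).comp x ((hasFDerivAt_id x).sub_const y)
    simpa [Function.comp_def] using h1
  have hg : ∀ x, HasFDerivAt φ (fderiv ℝ φ x) x := fun x =>
    (hφ.1.differentiable (by simp) x).hasFDerivAt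
  have key := integral_bilinear_hasFDerivAt_right_eq_neg_left_of_integrable
    (μ := (volume : Measure (E d))) (f := fun x : E d => pt t (x - y))
    (f' := fun x => L (x - y)) (g := φ) (g' := fderiv ℝ φ) (v := EuclideanSpace.single i 1)
    (B := ContinuousLinearMap.lsmul ℝ ℝ) (by
      simp only [ContinuousLinearMap.lsmul_apply, hLi]
      exact (hdc.smul hφ.1.continuous).integrable_of_hasCompactSupport hφ.2.smul_left) (by
      simp only [ContinuousLinearMap.lsmul_apply]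
      exact (hpc.smul hφd).integrable_of_hasCompactSupport
        ((hφ.2.fderiv_apply ℝ _).smul_left)) (by
      simp only [ContinuousLinearMap.lsmul_apply]
      exact (hpc.smul hφ.1.continuous).integrable_of_hasCompactSupport hφ.2.smul_left)
    (fun x _ => hf x) (fun x _ => hg x)
  simp only [ContinuousLinearMap.lsmul_apply, hLi, Complex.real_smul] at key
  exact key

end fub

theorem K0_eq {d : ℕ} (κ : ℝ) (z : E d) :
    (G κ z).toReal = ∫ t in Ioi (0 : ℝ), Real.exp (-κ ^ 2 * t) * pt t z := by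
  unfold G
  rw [integral_eq_lintegral_of_nonneg_ae]
  · rw [Filter.EventuallyLE, ae_restrict_iff' measurableSet_Ioi]
    refine Eventually.of_forall fun t ht => ?_
    exact mul_nonneg (Real.exp_pos _).le ((pt_facts (d := d) ht).1 z).le
  · exact ((k0_meas κ).comp (measurable_id.prodMk measurable_const)).aestronglyMeasurable

/-! ## TARGETS: prove these (statements must not be changed; helper lemmas are welcome) -/

section PDE

variable {d : ℕ} (κ : ℝ) (hκ : 0 < κ) (h : E d → ℝ) (hmh : Measurable h)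
  (hh : Integrable h volume)
  (hen : ∀ κ' : ℝ, 0 < κ' →
    (∫⁻ x : E d, ∫⁻ y : E d, G κ' (x - y) * ‖h x‖ₑ * ‖h y‖ₑ) < ⊤)

include hκ hmh hh hen

theorem u_grad : ∃ g : Fin d → E d → ℝ, ∀ i, MemLp (g i) 2 volume ∧
    ∀ φ : E d → ℂ, IsTest φ →
      ∫ x, (uG κ h x : ℂ) * pd i φ x = - ∫ x, (g i x : ℂ) * φ x := by
  refine ⟨fun i x => ∫ y, K1 κ i (x - y) * h y, fun i => ⟨g_memLp hκ hmh hen i, ?_⟩⟩
  intro φ hφ
  have hφc : Continuous φ := hφ.1.continuous
  have hφd : Continuous (pd i φ) :=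
    (hφ.1.continuous_fderiv (by simp)).clm_apply continuous_const
  have hφdc : HasCompactSupport (pd i φ) := hφ.2.fderiv_apply ℝ _
  obtain ⟨B0, hB0⟩ := hφ.2.exists_bound_of_continuous hφc
  obtain ⟨B1, hB1⟩ := hφdc.exists_bound_of_continuous hφd
  have hk0 := k0_int (d := d) hκ
  have hk1 := k1_int (d := d) hκ i
  have hK0 : Integrable (fun z : E d => ∫ t in Ioi (0 : ℝ), Real.exp (-κ ^ 2 * t) * pt t z)
      volume := hk0.integral_prod_right
  have hK1 : Integrable (K1 κ i : E d → ℝ) volume := hk1.integral_prod_right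
  have e1 : ∀ x, uG κ h x =
      ∫ y, (∫ t in Ioi (0 : ℝ), Real.exp (-κ ^ 2 * t) * pt t (x - y)) * h y := by
    intro x
    unfold uG
    simp only [K0_eq]
  have e2 : ∀ y : E d, ∫ x, ((∫ t in Ioi (0 : ℝ), Real.exp (-κ ^ 2 * t) * pt t (x - y) : ℝ) : ℂ) *
      pd i φ x = - ∫ x, (K1 κ i (x - y) : ℂ) * φ x := by
    intro y
    have f1 := fub_t hk0 hφd hB1 y
    have f2 := fub_t hk1 hφc hB0 y
    simp only at f1 f2
    rw [f1]
    have f3 : ∫ x, (K1 κ i (x - y) : ℂ) * φ x =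
        ∫ t, (∫ x, ((Real.exp (-κ ^ 2 * t) * Dk i t (x - y) : ℝ) : ℂ) * φ x) ∂nu0 := f2
    rw [f3, ← integral_neg]
    refine integral_congr_ae ?_
    rw [Filter.EventuallyEq, ae_restrict_iff' measurableSet_Ioi]
    refine Eventually.of_forall fun t ht => ?_
    have g1 : ∫ x, ((Real.exp (-κ ^ 2 * t) * pt t (x - y) : ℝ) : ℂ) * pd i φ x =
        (Real.exp (-κ ^ 2 * t) : ℂ) * ∫ x, (pt t (x - y) : ℂ) * pd i φ x := by
      rw [← integral_const_mul]
      congr 1
      funext x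
      push_cast
      ring
    have g2 : ∫ x, ((Real.exp (-κ ^ 2 * t) * Dk i t (x - y) : ℝ) : ℂ) * φ x =
        (Real.exp (-κ ^ 2 * t) : ℂ) * ∫ x, (Dk i t (x - y) : ℂ) * φ x := by
      rw [← integral_const_mul]
      congr 1
      funext x
      push_cast
      ring
    show ∫ x, ((Real.exp (-κ ^ 2 * t) * pt t (x - y) : ℝ) : ℂ) * pd i φ x =
      - ∫ x, ((Real.exp (-κ ^ 2 * t) * Dk i t (x - y) : ℝ) : ℂ) * φ x
    rw [g1, g2, ibp i ht hφ y, mul_neg]
  calc ∫ x, (uG κ h x : ℂ) * pd i φ x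
      = ∫ x, ((∫ y, (∫ t in Ioi (0 : ℝ), Real.exp (-κ ^ 2 * t) * pt t (x - y)) * h y : ℝ) : ℂ) *
          pd i φ x := by simp only [e1]
    _ = ∫ y, (h y : ℂ) * ∫ x, ((∫ t in Ioi (0 : ℝ),
          Real.exp (-κ ^ 2 * t) * pt t (x - y) : ℝ) : ℂ) * pd i φ x :=
        fub_h hK0 hh hφd hB1
    _ = ∫ y, -((h y : ℂ) * ∫ x, (K1 κ i (x - y) : ℂ) * φ x) := by
        simp only [e2, mul_neg]
    _ = - ∫ x, ((∫ y, K1 κ i (x - y) * h y : ℝ) : ℂ) * φ x := by
        rw [integral_neg, fub_h hK1 hh hφc hB0]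

end PDE

end Pool.Agent.Helper41.CE
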