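import Pool.Agent.Helper41.CE.Defs
import Pool.Agent.Helper41.CE.CE04
import Pool.Agent.Helper41.CE.CE05
import Pool.Agent.Helper41.CE.CE06

/-!
# Semiclassical eigenvalue bounds for Schroedinger operators: definitions
-/

open MeasureTheory Filter Topology Set
open scoped ENNReal NNReal ContDiff

namespace Pool.Agent.Helper41.CE


/-! ## TARGETS: prove these (statements must not be changed; helper lemmas are welcome) -/

theorem pd_test {d : ℕ} (i : Fin d) (φ : E d → ℂ) (hφ : IsTest φ) : IsTest (pd i φ) := by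
  refine ⟨?_, ?_⟩
  · have h1 : ContDiff ℝ ∞ (fderiv ℝ φ) := hφ.1.fderiv_right (m := ∞) (by simp)
    exact h1.clm_apply contDiff_const
  · exact (hφ.2.fderiv (𝕜 := ℝ)).comp_left (g := fun L : E d →L[ℝ] ℂ => L (EuclideanSpace.single i 1))
      (by simp)

theorem pt_char {d : ℕ} {t : ℝ} (ht : 0 < t) (ξ : E d) :
    ∫ z : E d, (pt t z : ℂ) * Complex.exp (2 * Real.pi * Complex.I * (inner ℝ z ξ : ℝ)) =
      Complex.exp (-(4 * Real.pi ^ 2 * ‖ξ‖ ^ 2 * t : ℝ)) := by
  have hb : 0 < ((1 / (4 * t) : ℝ) : ℂ).re := by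
    rw [Complex.ofReal_re]; positivity
  have h1 := GaussianFourier.integral_cexp_neg_mul_sq_norm_add_of_euclideanSpace hb
    (2 * Real.pi * Complex.I) ξ
  have hpos : (0 : ℝ) < 4 * Real.pi * t := by positivity
  have h2 : ∀ z : E d, (pt t z : ℂ) * Complex.exp (2 * Real.pi * Complex.I * (inner ℝ z ξ : ℝ)) =
      (((4 * Real.pi * t) ^ (-((d : ℝ) / 2)) : ℝ) : ℂ) *
        Complex.exp (-((1 / (4 * t) : ℝ) : ℂ) * ‖z‖ ^ 2 + 2 * Real.pi * Complex.I * (inner ℝ ξ z : ℝ)) := by
    intro z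
    unfold pt
    rw [Complex.ofReal_mul, Complex.ofReal_exp, mul_assoc, ← Complex.exp_add, real_inner_comm]
    congr 3
    push_cast
    field_simp
  simp_rw [h2]
  rw [integral_const_mul, h1, Fintype.card_fin]
  have h3 : ((Real.pi : ℂ) / ((1 / (4 * t) : ℝ) : ℂ)) = ((4 * Real.pi * t : ℝ) : ℂ) := by
    have : (t : ℂ) ≠ 0 := by exact_mod_cast ht.ne'
    push_cast
    field_simp
  rw [h3, ← mul_assoc]
  have h4 : (((4 * Real.pi * t) ^ (-((d : ℝ) / 2)) : ℝ) : ℂ) * ((4 * Real.pi * t : ℝ) : ℂ) ^ ((d : ℂ) / 2) = 1 := by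
    have : ((d : ℂ) / 2) = (((d : ℝ) / 2 : ℝ) : ℂ) := by push_cast; rfl
    rw [this, ← Complex.ofReal_cpow hpos.le, ← Complex.ofReal_mul, ← Real.rpow_add hpos]
    simp
  rw [h4, one_mul]
  congr 1
  have : (t : ℂ) ≠ 0 := by exact_mod_cast ht.ne'
  push_cast
  field_simp
  rw [Complex.I_sq]
  ring

theorem G_conv_char {d : ℕ} (κ : ℝ) (hκ : 0 < κ) (ξ : E d) :
    ∫ z : E d, ((G κ z).toReal : ℂ) * Complex.exp (2 * Real.pi * Complex.I * (inner ℝ z ξ : ℝ))
      = ((κ ^ 2 + 4 * Real.pi ^ 2 * ‖ξ‖ ^ 2 : ℝ) : ℂ)⁻¹ := by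
  set e : E d → ℂ := fun z => Complex.exp (2 * Real.pi * Complex.I * (inner ℝ z ξ : ℝ)) with he
  have hen : ∀ z, ‖e z‖ = 1 := by
    intro z
    have : 2 * Real.pi * Complex.I * ((inner ℝ z ξ : ℝ) : ℂ) = ((2 * Real.pi * inner ℝ z ξ : ℝ) : ℂ) * Complex.I := by
      push_cast; ring
    rw [he]
    simp only
    rw [this, Complex.norm_exp_ofReal_mul_I]
  have hec : Continuous e := by
    rw [he]; fun_prop
  have hG : ∀ z : E d, (G κ z).toReal = ∫ t in Ioi (0 : ℝ), Real.exp (-κ ^ 2 * t) * pt t z := by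
    intro z
    unfold G
    rw [integral_eq_lintegral_of_nonneg_ae]
    · filter_upwards [ae_restrict_mem measurableSet_Ioi] with t ht
      exact mul_nonneg (Real.exp_pos _).le ((pt_facts (d := d) ht).1 z).le
    · apply Measurable.aestronglyMeasurable
      have h1 : Measurable fun t : ℝ => pt t z := pt_meas.comp (measurable_id.prodMk measurable_const)
      exact (by fun_prop : Measurable fun t : ℝ => Real.exp (-κ ^ 2 * t)).mul h1
  have hL : ∀ z : E d, ((G κ z).toReal : ℂ) * e z =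
      ∫ t in Ioi (0 : ℝ), ((Real.exp (-κ ^ 2 * t) * pt t z : ℝ) : ℂ) * e z := by
    intro z
    rw [integral_mul_const, hG, ← integral_complex_ofReal]
  have hmeas : AEStronglyMeasurable (Function.uncurry fun (z : E d) (t : ℝ) =>
      ((Real.exp (-κ ^ 2 * t) * pt t z : ℝ) : ℂ) * e z) (volume.prod (volume.restrict (Ioi (0 : ℝ)))) := by
    apply Measurable.aestronglyMeasurable
    have h1 : Measurable fun p : E d × ℝ => pt p.2 p.1 := pt_meas.comp (measurable_snd.prodMk measurable_fst)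
    have h2 : Measurable fun p : E d × ℝ => Real.exp (-κ ^ 2 * p.2) := by fun_prop
    exact (Complex.measurable_ofReal.comp (h2.mul h1)).mul (hec.measurable.comp measurable_fst)
  have hn : ∀ t ∈ Ioi (0 : ℝ), ∀ z : E d, ‖((Real.exp (-κ ^ 2 * t) * pt t z : ℝ) : ℂ) * e z‖ =
      Real.exp (-κ ^ 2 * t) * pt t z := by
    intro t ht z
    rw [norm_mul, hen, mul_one, Complex.norm_real, Real.norm_eq_abs, abs_of_nonneg]
    exact mul_nonneg (Real.exp_pos _).le ((pt_facts (d := d) ht).1 z).le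
  have hint : Integrable (Function.uncurry fun (z : E d) (t : ℝ) =>
      ((Real.exp (-κ ^ 2 * t) * pt t z : ℝ) : ℂ) * e z) (volume.prod (volume.restrict (Ioi (0 : ℝ)))) := by
    rw [integrable_prod_iff' hmeas]
    constructor
    · filter_upwards [ae_restrict_mem measurableSet_Ioi] with t ht
      have h1 : Integrable (fun z : E d => Real.exp (-κ ^ 2 * t) * pt t z) :=
        ((pt_facts (d := d) ht).2.2.1).const_mul _
      refine Integrable.mono' h1 ?_ ?_
      · have h3 : Continuous (pt t : E d → ℝ) := (pt_facts (d := d) ht).2.1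
        have h4 : Continuous fun z : E d => ((Real.exp (-κ ^ 2 * t) * pt t z : ℝ) : ℂ) * e z :=
          (Complex.continuous_ofReal.comp (continuous_const.mul h3)).mul hec
        exact h4.aestronglyMeasurable
      · exact Filter.Eventually.of_forall fun z => (hn t ht z).le
    · have h1 : IntegrableOn (fun t : ℝ => Real.exp (-κ ^ 2 * t)) (Ioi 0) :=
        integrableOn_exp_mul_Ioi (by have := pow_pos hκ 2; linarith) 0
      refine h1.congr ?_
      filter_upwards [ae_restrict_mem measurableSet_Ioi] with t ht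
      have h2 : ∫ z : E d, ‖((Real.exp (-κ ^ 2 * t) * pt t z : ℝ) : ℂ) * e z‖ =
          ∫ z : E d, Real.exp (-κ ^ 2 * t) * pt t z := integral_congr_ae
            (Filter.Eventually.of_forall fun z => hn t ht z)
      show Real.exp (-κ ^ 2 * t) = ∫ z : E d, ‖((Real.exp (-κ ^ 2 * t) * pt t z : ℝ) : ℂ) * e z‖
      rw [h2, integral_const_mul, (pt_facts (d := d) ht).2.2.2.1, mul_one]
  have hLHS : ∫ z : E d, ((G κ z).toReal : ℂ) * e z =
      ∫ z : E d, ∫ t in Ioi (0 : ℝ), ((Real.exp (-κ ^ 2 * t) * pt t z : ℝ) : ℂ) * e z :=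
    integral_congr_ae (Filter.Eventually.of_forall hL)
  show ∫ z : E d, ((G κ z).toReal : ℂ) * e z = _
  rw [hLHS, integral_integral_swap hint]
  have hpos : 0 < κ ^ 2 + 4 * Real.pi ^ 2 * ‖ξ‖ ^ 2 := by positivity
  have hin : ∀ t ∈ Ioi (0 : ℝ), ∫ z : E d, ((Real.exp (-κ ^ 2 * t) * pt t z : ℝ) : ℂ) * e z =
      Complex.exp (-((κ ^ 2 + 4 * Real.pi ^ 2 * ‖ξ‖ ^ 2 : ℝ) : ℂ) * t) := by
    intro t ht
    have h1 : ∀ z : E d, ((Real.exp (-κ ^ 2 * t) * pt t z : ℝ) : ℂ) * e z =
        (Real.exp (-κ ^ 2 * t) : ℂ) * ((pt t z : ℂ) * e z) := by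
      intro z; push_cast; ring
    simp_rw [h1]
    rw [integral_const_mul, pt_char ht ξ, Complex.ofReal_exp, ← Complex.exp_add]
    congr 1
    push_cast
    ring
  rw [setIntegral_congr_fun measurableSet_Ioi hin, integral_exp_mul_complex_Ioi (by
    rw [Complex.neg_re, Complex.ofReal_re]; linarith)]
  rw [Complex.ofReal_zero, mul_zero, Complex.exp_zero, neg_div_neg_eq, one_div]

end Pool.Agent.Helper41.CE
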