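import Pool.Agent.Helper41.CE.Defs
import Pool.Agent.Helper41.CE.CE04
import Pool.Agent.Helper41.CE.CE05
import Pool.Agent.Helper41.CE.CE06
import Pool.Agent.Helper41.CE.CE13

/-!
# Semiclassical eigenvalue bounds for Schroedinger operators: definitions
-/

open MeasureTheory Filter Topology Set
open scoped ENNReal NNReal ContDiff

namespace Pool.Agent.Helper41.CE


/-! ## TARGETS: prove these (statements must not be changed; helper lemmas are welcome) -/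

open scoped FourierTransform SchwartzMap LineDeriv in
theorem aux_fourier {d : ℕ} (κ : ℝ) (φ : E d → ℂ) (hφ : IsTest φ) :
    ∃ Φ Ψ : 𝓢(E d, ℂ), (∀ x, Φ x = φ x) ∧
      (∀ x, Ψ x = ((κ ^ 2 : ℝ) : ℂ) * φ x - ∑ i, pd i (pd i φ) x) ∧
      ∀ ξ, (𝓕 Ψ) ξ = ((κ ^ 2 + 4 * Real.pi ^ 2 * ‖ξ‖ ^ 2 : ℝ) : ℂ) * (𝓕 Φ) ξ := by
  obtain ⟨Φ, hΦ⟩ : ∃ Φ : 𝓢(E d, ℂ), Φ = hφ.2.toSchwartzMap hφ.1 := ⟨_, rfl⟩
  have hΦx : ∀ x, Φ x = φ x := by
    intro x
    rw [hΦ]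
    rfl
  have hΦf : (Φ : E d → ℂ) = φ := funext hΦx
  have h1 : ∀ i : Fin d, ((∂_{(EuclideanSpace.single i (1 : ℝ) : E d)} Φ : 𝓢(E d, ℂ)) : E d → ℂ)
      = pd i φ := by
    intro i
    funext x
    rw [SchwartzMap.lineDerivOp_apply_eq_fderiv, hΦf]
    rfl
  have h2 : ∀ (i : Fin d) (x : E d), (∂_{(EuclideanSpace.single i (1 : ℝ) : E d)}
      (∂_{(EuclideanSpace.single i (1 : ℝ) : E d)} Φ : 𝓢(E d, ℂ)) : 𝓢(E d, ℂ)) x
      = pd i (pd i φ) x := by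
    intro i x
    rw [SchwartzMap.lineDerivOp_apply_eq_fderiv, h1]
    rfl
  refine ⟨Φ, ((κ ^ 2 : ℝ) : ℂ) • Φ - ∑ i : Fin d, (∂_{(EuclideanSpace.single i (1 : ℝ) : E d)}
      (∂_{(EuclideanSpace.single i (1 : ℝ) : E d)} Φ : 𝓢(E d, ℂ)) : 𝓢(E d, ℂ)), hΦx, ?_, ?_⟩
  · intro x
    rw [_root_.sub_apply, _root_.smul_apply, _root_.sum_apply, hΦx, smul_eq_mul]
    congr 1
    exact Finset.sum_congr rfl fun i _ => h2 i x
  · intro ξ
    have h3 : ∀ i : Fin d, (𝓕 (∂_{(EuclideanSpace.single i (1 : ℝ) : E d)}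
      (∂_{(EuclideanSpace.single i (1 : ℝ) : E d)} Φ : 𝓢(E d, ℂ)) : 𝓢(E d, ℂ)) : 𝓢(E d, ℂ)) ξ =
        - (4 * Real.pi ^ 2 * (ξ i) ^ 2 : ℝ) * (𝓕 Φ) ξ := by
      intro i
      have ht : (fun v : E d => inner ℝ v (EuclideanSpace.single i (1 : ℝ) : E d)).HasTemperateGrowth :=
        ((innerSL ℝ).flip (EuclideanSpace.single i (1 : ℝ) : E d)).hasTemperateGrowth
      rw [SchwartzMap.fourier_lineDerivOp_eq, SchwartzMap.fourier_lineDerivOp_eq]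
      rw [_root_.smul_apply, SchwartzMap.smulLeftCLM_apply_apply ht, _root_.smul_apply,
        SchwartzMap.smulLeftCLM_apply_apply ht]
      have hi : inner ℝ ξ (EuclideanSpace.single i (1 : ℝ) : E d) = ξ i := by
        simp [EuclideanSpace.inner_single_right]
      rw [hi]
      simp only [smul_eq_mul, Complex.real_smul]
      push_cast
      linear_combination (4 * Real.pi ^ 2 * (ξ i : ℂ) ^ 2 * (𝓕 Φ) ξ) * Complex.I_sq
    have h4 : (𝓕 (((κ ^ 2 : ℝ) : ℂ) • Φ - ∑ i : Fin d, (∂_{(EuclideanSpace.single i (1 : ℝ) : E d)}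
      (∂_{(EuclideanSpace.single i (1 : ℝ) : E d)} Φ : 𝓢(E d, ℂ)) : 𝓢(E d, ℂ))) : 𝓢(E d, ℂ)) =
      ((κ ^ 2 : ℝ) : ℂ) • (𝓕 Φ) - ∑ i : Fin d, (𝓕 (∂_{(EuclideanSpace.single i (1 : ℝ) : E d)}
      (∂_{(EuclideanSpace.single i (1 : ℝ) : E d)} Φ : 𝓢(E d, ℂ)) : 𝓢(E d, ℂ)) : 𝓢(E d, ℂ)) := by
      simp only [← SchwartzMap.fourierTransformCLM_apply (𝕜 := ℂ)]
      rw [map_sub, map_smul, map_sum]
    rw [h4, _root_.sub_apply, _root_.smul_apply, _root_.sum_apply,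
      Finset.sum_congr rfl fun i _ => h3 i]
    rw [← Finset.sum_mul, smul_eq_mul]
    have h5 : ∑ i : Fin d, -(((4 * Real.pi ^ 2 * (ξ i) ^ 2 : ℝ)) : ℂ) =
        -((4 * Real.pi ^ 2 * ‖ξ‖ ^ 2 : ℝ) : ℂ) := by
      rw [EuclideanSpace.real_norm_sq_eq, Finset.mul_sum]
      push_cast
      rw [Finset.sum_neg_distrib]
    rw [h5]
    push_cast
    ring

open scoped FourierTransform SchwartzMap in
theorem aux_inv {d : ℕ} (Φ : 𝓢(E d, ℂ)) (x : E d) :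
    Φ x = ∫ ξ, Complex.exp ((2 * Real.pi * (inner ℝ ξ x : ℝ) : ℝ) * Complex.I) * (𝓕 Φ) ξ := by
  have h1 : (𝓕⁻ (𝓕 Φ) : 𝓢(E d, ℂ)) = Φ := FourierTransform.fourierInv_fourier_eq Φ
  conv_lhs => rw [← h1]
  rw [SchwartzMap.fourierInv_coe, Real.fourierInv_eq']
  rfl

open scoped FourierTransform SchwartzMap in
theorem res_test_aux {d : ℕ} (κ : ℝ) (hκ : 0 < κ) (φ : E d → ℂ) (hφ : IsTest φ) (y : E d) :
    ∫ x, ((G κ (x - y)).toReal : ℂ) *
      (((κ ^ 2 : ℝ) : ℂ) * φ x - ∑ i, pd i (pd i φ) x) = φ y := by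
  obtain ⟨Φ, Ψ, hΦ, hΨ, hF⟩ := aux_fourier κ φ hφ
  obtain ⟨hGi, -⟩ := G_int (d := d) κ hκ
  have e1 : ∀ x, ((G κ (x - y)).toReal : ℂ) *
      (((κ ^ 2 : ℝ) : ℂ) * φ x - ∑ i, pd i (pd i φ) x) =
      ∫ ξ, ((G κ (x - y)).toReal : ℂ) *
        (Complex.exp ((2 * Real.pi * (inner ℝ ξ x : ℝ) : ℝ) * Complex.I) * (𝓕 Ψ) ξ) := by
    intro x
    rw [← hΨ, aux_inv Ψ x, integral_const_mul]
  rw [integral_congr_ae (Filter.Eventually.of_forall e1)]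
  have hGy : Integrable (fun x : E d => ((G κ (x - y)).toReal : ℂ)) volume :=
    (hGi.comp_sub_right y).ofReal
  have hFi : Integrable (fun ξ : E d => (𝓕 Ψ) ξ) volume := (𝓕 Ψ).integrable
  have hint : Integrable (Function.uncurry fun (x ξ : E d) => ((G κ (x - y)).toReal : ℂ) *
        (Complex.exp ((2 * Real.pi * (inner ℝ ξ x : ℝ) : ℝ) * Complex.I) * (𝓕 Ψ) ξ))
        (volume.prod volume) := by
    have h1 := hGy.mul_prod hFi
    have hc : Continuous (fun p : E d × E d =>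
        Complex.exp ((2 * Real.pi * (inner ℝ p.2 p.1 : ℝ) : ℝ) * Complex.I)) := by
      fun_prop
    have h2 := h1.bdd_mul (c := 1) hc.aestronglyMeasurable (Filter.Eventually.of_forall fun p => by
      rw [Complex.norm_exp_ofReal_mul_I])
    refine h2.congr (Filter.Eventually.of_forall fun p => ?_)
    simp only [Function.uncurry]
    ring
  rw [integral_integral_swap hint]
  have e2 : ∀ ξ : E d, ∫ x, ((G κ (x - y)).toReal : ℂ) *
        (Complex.exp ((2 * Real.pi * (inner ℝ ξ x : ℝ) : ℝ) * Complex.I) * (𝓕 Ψ) ξ) =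
      Complex.exp ((2 * Real.pi * (inner ℝ ξ y : ℝ) : ℝ) * Complex.I) * (𝓕 Φ) ξ := by
    intro ξ
    have h1 : ∀ x, ((G κ (x - y)).toReal : ℂ) *
        (Complex.exp ((2 * Real.pi * (inner ℝ ξ x : ℝ) : ℝ) * Complex.I) * (𝓕 Ψ) ξ) =
        (Complex.exp ((2 * Real.pi * (inner ℝ ξ y : ℝ) : ℝ) * Complex.I) * (𝓕 Ψ) ξ) *
        (fun z => ((G κ z).toReal : ℂ) *
          Complex.exp (2 * Real.pi * Complex.I * (inner ℝ z ξ : ℝ))) (x - y) := by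
      intro x
      simp only
      have h2 : Complex.exp ((2 * Real.pi * (inner ℝ ξ x : ℝ) : ℝ) * Complex.I) =
          Complex.exp ((2 * Real.pi * (inner ℝ ξ y : ℝ) : ℝ) * Complex.I) *
          Complex.exp (2 * Real.pi * Complex.I * (inner ℝ (x - y) ξ : ℝ)) := by
        rw [← Complex.exp_add]
        congr 1
        rw [inner_sub_left, real_inner_comm ξ x, real_inner_comm ξ y]
        push_cast
        ring
      rw [h2]
      ring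
    rw [integral_congr_ae (Filter.Eventually.of_forall h1), integral_const_mul,
      integral_sub_right_eq_self (fun z => ((G κ z).toReal : ℂ) *
          Complex.exp (2 * Real.pi * Complex.I * (inner ℝ z ξ : ℝ))) y, G_conv_char κ hκ ξ, hF ξ]
    have h3 : ((κ ^ 2 + 4 * Real.pi ^ 2 * ‖ξ‖ ^ 2 : ℝ) : ℂ) ≠ 0 := by
      have : (0:ℝ) < κ ^ 2 + 4 * Real.pi ^ 2 * ‖ξ‖ ^ 2 := by positivity
      exact_mod_cast this.ne'
    generalize ((κ ^ 2 + 4 * Real.pi ^ 2 * ‖ξ‖ ^ 2 : ℝ) : ℂ) = c at h3 ⊢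
    field_simp
  rw [integral_congr_ae (Filter.Eventually.of_forall e2), ← aux_inv Φ y, hΦ]

theorem res_test {d : ℕ} (κ : ℝ) (hκ : 0 < κ) (φ : E d → ℂ) (hφ : IsTest φ) (y : E d) :
    ∫ x, ((G κ (x - y)).toReal : ℂ) *
      (((κ ^ 2 : ℝ) : ℂ) * φ x - ∑ i, pd i (pd i φ) x) = φ y :=
  res_test_aux κ hκ φ hφ y

end Pool.Agent.Helper41.CE
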