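import Pool.Agent.Helper41.CE.Defs
import Pool.Agent.Helper41.CE.CE05
import Pool.Agent.Helper41.CE.CE06
import Pool.Agent.Helper41.CE.CE11
import Pool.Agent.Helper41.CE.CE12
import Pool.Agent.Helper41.CE.CE13
import Pool.Agent.Helper41.CE.CE14

/-!
# Semiclassical eigenvalue bounds for Schroedinger operators: definitions
-/

open MeasureTheory Filter Topology Set
open scoped ENNReal NNReal ContDiff

namespace Pool.Agent.Helper41.CE


section PDE

variable {d : ℕ} (κ : ℝ) (hκ : 0 < κ) (h : E d → ℝ) (hmh : Measurable h)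
  (hh : Integrable h volume)
  (hen : ∀ κ' : ℝ, 0 < κ' →
    (∫⁻ x : E d, ∫⁻ y : E d, G κ' (x - y) * ‖h x‖ₑ * ‖h y‖ₑ) < ⊤)

include hκ hmh hh hen

end PDE

/-! ## TARGETS: prove these (statements must not be changed; helper lemmas are welcome) -/

theorem u_eq_bdd {d : ℕ} {φ : E d → ℂ} (hφ : IsTest φ) :
    Continuous φ ∧ ∃ C : ℝ, ∀ x, ‖φ x‖ ≤ C :=
  ⟨hφ.1.continuous, hφ.2.exists_bound_of_continuous hφ.1.continuous⟩

theorem u_eq_bdd' {d : ℕ} (κ : ℝ) {φ : E d → ℂ} (hφ : IsTest φ) :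
    Continuous (fun x => ((κ ^ 2 : ℝ) : ℂ) * φ x - ∑ i, pd i (pd i φ) x) ∧
      ∃ C : ℝ, ∀ x, ‖((κ ^ 2 : ℝ) : ℂ) * φ x - ∑ i, pd i (pd i φ) x‖ ≤ C := by
  have h1 := u_eq_bdd hφ
  have h2 : ∀ i, Continuous (pd i (pd i φ)) ∧ ∃ C : ℝ, ∀ x, ‖pd i (pd i φ) x‖ ≤ C := fun i =>
    u_eq_bdd (pd_test i _ (pd_test i _ hφ))
  obtain ⟨C, hC⟩ := h1.2
  choose D hD using fun i => (h2 i).2
  refine ⟨(continuous_const.mul h1.1).sub (continuous_finset_sum _ (fun i _ => (h2 i).1)),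
    ‖((κ ^ 2 : ℝ) : ℂ)‖ * C + ∑ i, D i, fun x => ?_⟩
  refine (norm_sub_le _ _).trans (add_le_add ?_ ?_)
  · rw [norm_mul]
    exact mul_le_mul_of_nonneg_left (hC x) (norm_nonneg _)
  · exact (norm_sum_le _ _).trans (Finset.sum_le_sum (fun i _ => hD i x))

section PDE

variable {d : ℕ} (κ : ℝ) (hκ : 0 < κ) (h : E d → ℝ) (hmh : Measurable h)
  (hh : Integrable h volume)
  (hen : ∀ κ' : ℝ, 0 < κ' →
    (∫⁻ x : E d, ∫⁻ y : E d, G κ' (x - y) * ‖h x‖ₑ * ‖h y‖ₑ) < ⊤)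

include hκ hmh hh hen

theorem u_eq (φ : E d → ℂ) (hφ : IsTest φ) :
    ∫ x, (uG κ h x : ℂ) * (((κ ^ 2 : ℝ) : ℂ) * φ x - ∑ i, pd i (pd i φ) x)
      = ∫ x, (h x : ℂ) * φ x := by
  obtain ⟨hfc, C, hC⟩ := u_eq_bdd' κ hφ
  set f : E d → ℂ := fun x => ((κ ^ 2 : ℝ) : ℂ) * φ x - ∑ i, pd i (pd i φ) x with hf
  have hG := (G_int (d := d) κ hκ).1
  have hconv : Integrable (fun p : E d × E d => (G κ (p.1 - p.2)).toReal * h p.2)
      (volume.prod volume) := by
    have := hh.convolution_integrand (ContinuousLinearMap.mul ℝ ℝ) hG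
    refine this.congr (Filter.Eventually.of_forall fun p => ?_)
    simp only [ContinuousLinearMap.mul_apply']
    ring
  have hconvC : Integrable (fun p : E d × E d => (((G κ (p.1 - p.2)).toReal * h p.2 : ℝ) : ℂ) * f p.1)
      (volume.prod volume) := by
    apply Integrable.mul_bdd (c := C) hconv.ofReal
    · exact (hfc.comp continuous_fst).aestronglyMeasurable
    · exact Filter.Eventually.of_forall fun p => hC p.1
  calc ∫ x, (uG κ h x : ℂ) * f x
      = ∫ x, ∫ y, (((G κ (x - y)).toReal * h y : ℝ) : ℂ) * f x := by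
        congr 1
        funext x
        rw [integral_mul_const, integral_complex_ofReal]
        rfl
    _ = ∫ y, ∫ x, (((G κ (x - y)).toReal * h y : ℝ) : ℂ) * f x :=
        integral_integral_swap (f := fun x y => (((G κ (x - y)).toReal * h y : ℝ) : ℂ) * f x) hconvC
    _ = ∫ x, (h x : ℂ) * φ x := by
        congr 1
        funext y
        rw [← res_test κ hκ φ hφ y, ← integral_const_mul]
        congr 1
        funext x
        rw [hf]
        push_cast
        ring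

theorem u_final : ∃ g : Fin d → E d → ℂ, IsWeakGrad (fun x => (uG κ h x : ℂ)) g ∧
    ∀ φ : E d → ℂ, IsTest φ →
      ((κ ^ 2 : ℝ) : ℂ) * (∫ x, (uG κ h x : ℂ) * φ x) + ∑ i, (∫ x, g i x * pd i φ x)
        = ∫ x, (h x : ℂ) * φ x := by
  obtain ⟨g, hg⟩ := u_grad κ hκ h hmh hh hen
  refine ⟨fun i x => (g i x : ℂ), ?_, ?_⟩
  · intro i
    exact ⟨(hg i).1.ofReal, (hg i).2⟩
  · intro φ hφ
    have hint : ∀ ψ : E d → ℂ, IsTest ψ → Integrable (fun x => (uG κ h x : ℂ) * ψ x) volume := by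
      intro ψ hψ
      obtain ⟨h1, C, hC⟩ := u_eq_bdd hψ
      exact Integrable.mul_bdd (c := C) (u_mem κ hκ h hmh hh hen).2.1.ofReal
        h1.aestronglyMeasurable (Filter.Eventually.of_forall hC)
    rw [← u_eq κ hκ h hmh hh hen φ hφ]
    have e1 : ∀ i, ∫ x, (g i x : ℂ) * pd i φ x = - ∫ x, (uG κ h x : ℂ) * pd i (pd i φ) x := by
      intro i
      rw [(hg i).2 (pd i φ) (pd_test i φ hφ), neg_neg]
    simp only [e1]
    rw [Finset.sum_neg_distrib, ← integral_finset_sum _ (fun i _ => hint _ (pd_test i _ (pd_test i _ hφ))),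
      ← integral_const_mul, ← sub_eq_add_neg, ← integral_sub]
    · congr 1
      funext x
      rw [mul_sub, Finset.mul_sum]
      ring
    · exact (hint φ hφ).const_mul _
    · exact integrable_finset_sum _ (fun i _ => hint _ (pd_test i _ (pd_test i _ hφ)))

end PDE

end Pool.Agent.Helper41.CE
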