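import Pool.Agent.Helper41.CE.Defs
import Pool.Agent.Helper41.CE.CE02
import Pool.Agent.Helper41.CE.CE05
import Pool.Agent.Helper41.CE.CE11
import Pool.Agent.Helper41.CE.CE15

/-!
# Semiclassical eigenvalue bounds for Schroedinger operators: definitions
-/

open MeasureTheory Filter Topology Set
open scoped ENNReal NNReal ContDiff

namespace Pool.Agent.Helper41.CE


section PDE

variable {d : ℕ} (κ : ℝ) (hκ : 0 < κ) (h : E d → ℝ) (hmh : Measurable h)
  (hh : Integrable h volume)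
  (hen : ∀ κ' : ℝ, 0 < κ' →
    (∫⁻ x : E d, ∫⁻ y : E d, G κ' (x - y) * ‖h x‖ₑ * ‖h y‖ₑ) < ⊤)

include hκ hmh hh hen

end PDE

/-! ## TARGETS: prove these (statements must not be changed; helper lemmas are welcome) -/

theorem eg_hint {d : ℕ} (W : E d → ℝ) (h0 : ∀ x, 0 ≤ W x) (hm : Measurable W)
    (hI : Integrable W volume) (g : E d → ℝ) (hg : MemLp g 2 (mW W)) :
    Integrable (fun x => W x * g x) volume := by
  haveI : IsFiniteMeasure (mW W) := by
    refine ⟨?_⟩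
    unfold mW
    rw [withDensity_apply _ MeasurableSet.univ, Measure.restrict_univ]
    exact hI.lintegral_lt_top
  have h1 : Integrable g (mW W) := hg.integrable (by norm_num)
  unfold mW at h1
  rw [integrable_withDensity_iff hm.ennreal_ofReal
    (Filter.Eventually.of_forall fun x => ENNReal.ofReal_lt_top)] at h1
  refine h1.congr (Filter.Eventually.of_forall fun x => ?_)
  simp only
  rw [ENNReal.toReal_ofReal (h0 x), mul_comm]

theorem eg_energy {d : ℕ} (W : E d → ℝ) (h0 : ∀ x, 0 ≤ W x) (hm : Measurable W)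
    (hI : Integrable W volume)
    (hfin : ∀ κ' : ℝ, 0 < κ' → ∃ A : ℝ, 0 ≤ A ∧
      ∀ x : E d, ∫⁻ y, G κ' (x - y) * ENNReal.ofReal (W y) ≤ ENNReal.ofReal A)
    (c : ℝ) (hc : 0 ≤ c) (g : E d → ℝ) (hgm : Measurable g)
    (hg : MemLp g 2 (mW W)) (κ' : ℝ) (hκ' : 0 < κ') :
    (∫⁻ x : E d, ∫⁻ y : E d, G κ' (x - y) * ‖c * (W x * g x)‖ₑ * ‖c * (W y * g y)‖ₑ) < ⊤ := by
  haveI : IsFiniteMeasure (mW W) := by
    refine ⟨?_⟩
    unfold mW
    rw [withDensity_apply _ MeasurableSet.univ, Measure.restrict_univ]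
    exact hI.lintegral_lt_top
  obtain ⟨A, hA0, hA⟩ := hfin κ' hκ'
  have hGm : Measurable (Function.uncurry fun x y : E d => G κ' (x - y)) :=
    (G_meas κ').comp (measurable_fst.sub measurable_snd)
  have hGx : ∀ x, Measurable (fun y : E d => G κ' (x - y)) := fun x =>
    (G_meas κ').comp (measurable_const.sub measurable_id)
  have hmWint : ∀ F : E d → ℝ≥0∞, Measurable F →
      ∫⁻ y, F y ∂(mW W) = ∫⁻ y, ENNReal.ofReal (W y) * F y := by
    intro F hF
    unfold mW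
    rw [lintegral_withDensity_eq_lintegral_mul _ hm.ennreal_ofReal hF]
    rfl
  have hke := (kernel_energy (mW W) (fun x y : E d => G κ' (x - y)) hGm
    (fun x y => by rw [← neg_sub, G_symm]) A hA0 (fun x => by
      rw [hmWint _ (hGx x)]
      refine le_trans (le_of_eq ?_) (hA x)
      refine lintegral_congr fun y => ?_
      exact mul_comm _ _) g hg).1
  have hge : Measurable (fun x : E d => ‖g x‖ₑ) := hgm.enorm
  have hI2 : Measurable (fun p : E d × E d => G κ' (p.1 - p.2) * ‖g p.1‖ₑ * ‖g p.2‖ₑ) :=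
    (hGm.mul (hge.comp measurable_fst)).mul (hge.comp measurable_snd)
  have hI1 : Measurable (fun x : E d => ∫⁻ y, G κ' (x - y) * ‖g x‖ₑ * ‖g y‖ₑ ∂(mW W)) :=
    hI2.lintegral_prod_right'
  have henorm : ∀ x, ‖c * (W x * g x)‖ₑ = ENNReal.ofReal c * (ENNReal.ofReal (W x) * ‖g x‖ₑ) := by
    intro x
    rw [enorm_mul, enorm_mul, Real.enorm_of_nonneg hc, Real.enorm_of_nonneg (h0 x)]
  have hin : ∀ x, (∫⁻ y : E d, G κ' (x - y) * ‖c * (W x * g x)‖ₑ * ‖c * (W y * g y)‖ₑ) =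
      (ENNReal.ofReal c * ENNReal.ofReal c) *
        (ENNReal.ofReal (W x) * ∫⁻ y, G κ' (x - y) * ‖g x‖ₑ * ‖g y‖ₑ ∂(mW W)) := by
    intro x
    have hmy : Measurable (fun y : E d => G κ' (x - y) * ‖g x‖ₑ * ‖g y‖ₑ) :=
      ((hGx x).mul_const _).mul hge
    have hmy2 : Measurable (fun y : E d => ENNReal.ofReal (W y) *
        (G κ' (x - y) * ‖g x‖ₑ * ‖g y‖ₑ)) := hm.ennreal_ofReal.mul hmy
    calc (∫⁻ y : E d, G κ' (x - y) * ‖c * (W x * g x)‖ₑ * ‖c * (W y * g y)‖ₑ)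
        = ∫⁻ y : E d, (ENNReal.ofReal c * ENNReal.ofReal c * ENNReal.ofReal (W x)) *
            (ENNReal.ofReal (W y) * (G κ' (x - y) * ‖g x‖ₑ * ‖g y‖ₑ)) := by
          refine lintegral_congr fun y => ?_
          rw [henorm x, henorm y]
          ring
      _ = (ENNReal.ofReal c * ENNReal.ofReal c * ENNReal.ofReal (W x)) *
            ∫⁻ y : E d, ENNReal.ofReal (W y) * (G κ' (x - y) * ‖g x‖ₑ * ‖g y‖ₑ) :=
          lintegral_const_mul _ hmy2
      _ = _ := by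
          rw [hmWint _ hmy, mul_assoc]
  have h2 : (∫⁻ x : E d, ENNReal.ofReal (W x) *
      ∫⁻ y, G κ' (x - y) * ‖g x‖ₑ * ‖g y‖ₑ ∂(mW W)) =
      ∫⁻ x : E d, (∫⁻ y, G κ' (x - y) * ‖g x‖ₑ * ‖g y‖ₑ ∂(mW W)) ∂(mW W) :=
    (hmWint _ hI1).symm
  have hI3 : Measurable (fun x : E d => ENNReal.ofReal (W x) *
      ∫⁻ y, G κ' (x - y) * ‖g x‖ₑ * ‖g y‖ₑ ∂(mW W)) := hm.ennreal_ofReal.mul hI1
  rw [lintegral_congr hin, lintegral_const_mul _ hI3]
  rw [h2]
  exact ENNReal.mul_lt_top (ENNReal.mul_lt_top ENNReal.ofReal_lt_top ENNReal.ofReal_lt_top) hke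

theorem eig_from_g {d : ℕ} (W : E d → ℝ) (h0 : ∀ x, 0 ≤ W x) (hm : Measurable W)
    (hI : Integrable W volume)
    (hfin : ∀ κ' : ℝ, 0 < κ' → ∃ A : ℝ, 0 ≤ A ∧
      ∀ x : E d, ∫⁻ y, G κ' (x - y) * ENNReal.ofReal (W y) ≤ ENNReal.ofReal A)
    (κ : ℝ) (hκ : 0 < κ) (ħ : ℝ) (hħ : 0 < ħ) (g : E d → ℝ) (hgm : Measurable g)
    (hg : MemLp g 2 (mW W)) (hne : ¬ (g =ᵐ[mW W] 0))
    (he : ∀ᵐ x ∂(mW W), g x = (ħ ^ 2)⁻¹ * ∫ y, (G κ (x - y)).toReal * g y ∂(mW W)) :
    ∃ u : E d → ℂ, ¬ (u =ᵐ[volume] 0) ∧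
      InGraph (fun x => (-(W x) : ℂ)) ħ u (fun x => (-(ħ ^ 2 * κ ^ 2) : ℂ) * u x) := by
  have hħ2 : 0 < ħ ^ 2 := by positivity
  obtain ⟨h, hh⟩ : ∃ h : E d → ℝ, h = fun y => (ħ ^ 2)⁻¹ * (W y * g y) := ⟨_, rfl⟩
  have hmh : Measurable h := by rw [hh]; fun_prop
  have hWg := eg_hint W h0 hm hI g hg
  have hhi : Integrable h volume := by rw [hh]; exact hWg.const_mul _
  have hen : ∀ κ' : ℝ, 0 < κ' →
      (∫⁻ x : E d, ∫⁻ y : E d, G κ' (x - y) * ‖h x‖ₑ * ‖h y‖ₑ) < ⊤ := by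
    intro κ' hκ'
    rw [hh]
    exact eg_energy W h0 hm hI hfin _ (inv_nonneg.mpr hħ2.le) g hgm hg κ' hκ'
  obtain ⟨u1, u2, u3⟩ := u_mem κ hκ h hmh hhi hen
  obtain ⟨G', hG', hGφ⟩ := u_final κ hκ h hmh hhi hen
  -- `g = uG κ h` almost everywhere for `mW W`
  have hgu : ∀ᵐ x ∂(mW W), g x = uG κ h x := by
    filter_upwards [he] with x hx
    rw [hx]
    unfold mW uG
    rw [integral_withDensity_eq_integral_toReal_smul hm.ennreal_ofReal
      (Filter.Eventually.of_forall fun x => ENNReal.ofReal_lt_top), ← integral_const_mul]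
    refine integral_congr_ae (Filter.Eventually.of_forall fun y => ?_)
    simp only [smul_eq_mul, hh]
    rw [ENNReal.toReal_ofReal (h0 y)]
    ring
  have hWu : ∀ᵐ x ∂(volume : Measure (E d)), W x * uG κ h x = ħ ^ 2 * h x := by
    have h1 := hgu
    unfold mW at h1
    rw [ae_withDensity_iff hm.ennreal_ofReal] at h1
    filter_upwards [h1] with x hx
    have h2 : ħ ^ 2 * h x = W x * g x := by
      rw [hh]
      field_simp
    rw [h2]
    rcases (h0 x).eq_or_lt with h3 | h3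
    · rw [← h3]; simp
    · rw [hx (ENNReal.ofReal_pos.mpr h3).ne']
  refine ⟨fun x => (uG κ h x : ℂ), ?_, ?_⟩
  · intro hu
    apply hne
    have h1 : ∀ᵐ x ∂(mW W), ((uG κ h x : ℝ) : ℂ) = 0 := by
      have := (withDensity_absolutelyContinuous (volume : Measure (E d))
        (fun x => ENNReal.ofReal (W x))).ae_le hu
      exact this
    filter_upwards [h1, hgu] with x hx1 hx2
    rw [hx2]
    exact_mod_cast hx1
  · refine ⟨u1.ofReal, (u1.ofReal (K := ℂ)).const_mul _, ?_, G', hG', ?_⟩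
    · have h1 : Integrable (fun x : E d => ((-(ħ ^ 2) * h x : ℝ) : ℂ)) volume :=
        (hhi.const_mul (-(ħ ^ 2))).ofReal
      refine (h1.congr ?_).locallyIntegrable
      filter_upwards [hWu] with x hx
      have h2 : -(ħ ^ 2) * h x = -(W x * uG κ h x) := by rw [hx]; ring
      rw [h2]
      push_cast
      ring
    · intro φ hφ
      have h1 := hGφ φ hφ
      have h2 : (∫ x : E d, (-(W x) : ℂ) * (uG κ h x : ℂ) * φ x) =
          -((ħ ^ 2 : ℝ) : ℂ) * ∫ x, (h x : ℂ) * φ x := by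
        rw [← integral_const_mul]
        refine integral_congr_ae ?_
        filter_upwards [hWu] with x hx
        have h3 : ((W x * uG κ h x : ℝ) : ℂ) = ((ħ ^ 2 * h x : ℝ) : ℂ) := by rw [hx]
        push_cast at h3 ⊢
        linear_combination (-(φ x)) * h3
      have h3 : (∫ x : E d, (-(ħ ^ 2 * κ ^ 2) : ℂ) * (uG κ h x : ℂ) * φ x) =
          (-(ħ ^ 2 * κ ^ 2) : ℂ) * ∫ x, (uG κ h x : ℂ) * φ x := by
        rw [← integral_const_mul]
        refine integral_congr_ae (Filter.Eventually.of_forall fun x => ?_)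
        simp only
        ring
      rw [h2, h3, ← h1]
      push_cast
      ring

end Pool.Agent.Helper41.CE
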