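import Pool.Agent.Helper41.CE.Defs


/-!
# Semiclassical eigenvalue bounds for Schroedinger operators: definitions
-/

open MeasureTheory Filter Topology Set
open scoped ENNReal NNReal ContDiff

namespace Pool.Agent.Helper41.CE

/-! ## TARGETS: prove these (statements must not be changed; helper lemmas are welcome) -/

theorem am_congr {d : ℕ} {V : E d → ℂ} {ħ : ℝ} {u u' f f' : E d → ℂ} (hu : u =ᵐ[volume] u')
    (hf : f =ᵐ[volume] f') (h : InGraph V ħ u f) : InGraph V ħ u' f' := by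
  obtain ⟨h1, h2, h3, g, hg, h4⟩ := h
  refine ⟨(memLp_congr_ae hu).1 h1, (memLp_congr_ae hf).1 h2, ?_, g, ?_, ?_⟩
  · intro x
    obtain ⟨s, hs, hi⟩ := h3 x
    refine ⟨s, hs, hi.congr (ae_restrict_of_ae ?_)⟩
    filter_upwards [hu] with y hy
    rw [hy]
  · intro i
    refine ⟨(hg i).1, fun φ hφ => ?_⟩
    rw [← (hg i).2 φ hφ]
    apply integral_congr_ae
    filter_upwards [hu] with y hy
    rw [hy]
  · intro φ hφ
    have e1 : ∫ x, V x * u' x * φ x = ∫ x, V x * u x * φ x := by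
      apply integral_congr_ae
      filter_upwards [hu] with y hy
      rw [hy]
    have e2 : ∫ x, f' x * φ x = ∫ x, f x * φ x := by
      apply integral_congr_ae
      filter_upwards [hf] with y hy
      rw [hy]
    rw [e1, e2]
    exact h4 φ hφ

theorem algMult_pos {d : ℕ} (V : E d → ℂ) (ħ : ℝ) (z : ℂ) (u : E d → ℂ)
    (hu : ¬ (u =ᵐ[volume] 0)) (h : InGraph V ħ u (fun x => z * u x)) :
    1 ≤ algMult V ħ z := by
  obtain ⟨v, hv⟩ : ∃ v : Lp ℂ 2 (volume : Measure (E d)), v = h.1.toLp u := ⟨_, rfl⟩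
  have hvu : (v : E d → ℂ) =ᵐ[volume] u := by
    rw [hv]
    exact h.1.coeFn_toLp
  have hv0 : v ≠ 0 := by
    intro h0
    apply hu
    rw [h0] at hvu
    exact hvu.symm.trans (Lp.coeFn_zero _ _ _)
  have hmem : v ∈ genVec V ħ z 1 := by
    refine ⟨0, rfl, ?_⟩
    refine am_congr hvu.symm ?_ h
    filter_upwards [hvu, Lp.coeFn_zero ℂ 2 (volume : Measure (E d))] with x hx h0
    rw [hx, h0]
    simp
  have hspan : v ∈ Submodule.span ℂ (⋃ n, genVec V ħ z n) :=
    Submodule.subset_span (Set.mem_iUnion.2 ⟨1, hmem⟩)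
  have hrank : (1 : Cardinal) ≤ Module.rank ℂ (Submodule.span ℂ (⋃ n, genVec V ħ z n)) := by
    rw [Cardinal.one_le_iff_ne_zero]
    intro h0
    rw [Submodule.rank_eq_zero] at h0
    rw [h0, Submodule.mem_bot] at hspan
    exact hv0 hspan
  unfold algMult
  have h1 := OrderHomClass.mono Cardinal.toENat hrank
  rw [map_one] at h1
  exact h1

theorem dRay_neg (e : ℝ) (he : 0 < e) : dRay (-(e : ℂ)) = e ∧ (-(e : ℂ)) ∉ posRay := by
  have hnorm : ‖-(e : ℂ)‖ = e := by
    rw [norm_neg, Complex.norm_real, Real.norm_eq_abs, abs_of_pos he]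
  have h0 : (0 : ℂ) ∈ posRay := ⟨rfl, le_rfl⟩
  constructor
  · apply le_antisymm
    · have h1 := Metric.infDist_le_dist_of_mem (x := -(e : ℂ)) h0
      rw [dist_zero_right, hnorm] at h1
      exact h1
    · refine (Metric.le_infDist ⟨0, h0⟩).2 fun y hy => ?_
      have h2 := Complex.abs_re_le_norm (-(e : ℂ) - y)
      rw [dist_eq_norm]
      refine le_trans ?_ h2
      have h3 : (-(e : ℂ) - y).re = -(e + y.re) := by
        simp
        ring
      rw [h3, abs_neg, abs_of_nonneg (by linarith [hy.2])]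
      linarith [hy.2]
  · rintro ⟨_, h1⟩
    simp at h1
    linarith

theorem eigSum_ge {d : ℕ} (α β γ : ℝ) (τ : Trunc) (V : E d → ℂ) (ħ : ℝ) (e : ℝ) (he : 0 < e)
    (u : E d → ℂ) (hu : ¬ (u =ᵐ[volume] 0)) (h : InGraph V ħ u (fun x => (-(e : ℂ)) * u x))
    (hk : τ.Keeps γ (NN γ V ħ) (-(e : ℂ))) :
    ENNReal.ofReal (e ^ α) ≤ eigSum α β γ τ V ħ := by
  have hd := dRay_neg e he
  have hnorm : ‖-(e : ℂ)‖ = e := by
    rw [norm_neg, Complex.norm_real, Real.norm_eq_abs, abs_of_pos he]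
  have hm := algMult_pos V ħ (-(e : ℂ)) u hu h
  have hm' : (1 : ℝ≥0∞) ≤ ((algMult V ħ (-(e : ℂ)) : ℕ∞) : ℝ≥0∞) := by
    have := ENat.toENNReal_mono hm
    simpa using this
  unfold eigSum
  refine le_trans ?_ (ENNReal.le_tsum (-(e : ℂ)))
  rw [if_pos ⟨hd.2, hk⟩, hnorm, hd.1, div_self he.ne', Real.one_rpow, mul_one]
  calc ENNReal.ofReal (e ^ α) = 1 * ENNReal.ofReal (e ^ α) := (one_mul _).symm
    _ ≤ _ := by gcongr

end Pool.Agent.Helper41.CE
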