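import Pool.Agent.Helper41.CE.Defs
import Pool.Agent.Helper41.CE.CE06
import Pool.Agent.Helper41.CE.CE07
import Pool.Agent.Helper41.CE.CE10
import Pool.Agent.Helper41.CE.CE16

/-!
# Semiclassical eigenvalue bounds for Schroedinger operators: definitions
-/

open MeasureTheory Filter Topology Set
open scoped ENNReal NNReal ContDiff

namespace Pool.Agent.Helper41.CE


/-! ## TARGETS: prove these (statements must not be changed; helper lemmas are welcome) -/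

theorem j24953_log (c r : ℝ) (hc : 0 < c) (hr : 0 < r) :
    ∀ᶠ x : ℝ in atTop, (1 + Real.log x) ^ 2 ≤ c * x ^ r := by
  have h1 : Real.log =o[atTop] fun x : ℝ => x ^ (r / 2) := isLittleO_log_rpow_atTop (half_pos hr)
  have h2 : (fun _ : ℝ => (1 : ℝ)) =o[atTop] fun x : ℝ => x ^ (r / 2) := by
    rw [Asymptotics.isLittleO_const_left]
    right
    have := tendsto_rpow_atTop (half_pos hr)
    exact tendsto_norm_atTop_atTop.comp this
  have h3 : (fun x : ℝ => 1 + Real.log x) =o[atTop] fun x : ℝ => x ^ (r / 2) := h2.add h1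
  have h4 := h3.bound (Real.sqrt_pos.mpr hc)
  filter_upwards [h4, eventually_gt_atTop (0 : ℝ)] with x hx hx0
  have h5 : (1 + Real.log x) ^ 2 ≤ (Real.sqrt c * ‖x ^ (r / 2)‖) ^ 2 := by
    rw [← sq_abs (1 + Real.log x)]
    exact pow_le_pow_left₀ (abs_nonneg _) hx 2
  refine h5.trans (le_of_eq ?_)
  rw [mul_pow, Real.sq_sqrt hc.le, Real.norm_of_nonneg (Real.rpow_nonneg hx0.le _),
    ← Real.rpow_natCast, ← Real.rpow_mul hx0.le]
  congr 2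
  push_cast
  ring

theorem j24953_NN (d : ℕ) (γ : ℝ) (ħ : ℝ) :
    NN γ (fun x : E d => (-(WW d (γ + (d : ℝ) / 2) x) : ℂ)) ħ =
      ħ ^ (-(d : ℝ)) * ∫ x, |WW d (γ + (d : ℝ) / 2) x| ^ (γ + (d : ℝ) / 2) := by
  unfold NN
  congr 1
  refine integral_congr_ae (Filter.Eventually.of_forall fun x => ?_)
  simp only [norm_neg, Complex.norm_real, Real.norm_eq_abs]

/-- pure exponent bookkeeping: upper bound -/
theorem j24953_upper (D γ I ħ κ : ℝ) (hD : 0 < D) (hγ : 0 < γ) (hI : 0 < I) (hħ : 0 < ħ)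
    (hκ : 0 < κ)
    (h : 1 ≤ (ħ ^ 2)⁻¹ * (I ^ ((2 - D / (γ + D / 2)) / (2 * γ)) *
      κ ^ (D / (γ + D / 2) - 2))) :
    (ħ ^ 2 * κ ^ 2) ^ γ ≤ ħ ^ (-D) * I := by
  set q := γ + D / 2 with hqdef
  have hq : 0 < q := by positivity
  set s := 2 - D / q with hs
  have hsval : s = 2 * γ / q := by
    rw [hs]; field_simp; rw [hqdef]; ring
  have hs0 : 0 < s := by rw [hsval]; positivity
  have hneg : D / q - 2 = -s := by rw [hs]; ring
  rw [hneg] at h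
  have hħ2 : 0 < ħ ^ 2 := by positivity
  -- κ^s ≤ I^(s/(2γ)) / ħ²
  have hks : κ ^ s ≤ I ^ (s / (2 * γ)) * (ħ ^ 2)⁻¹ := by
    have h1 : 0 < κ ^ s := Real.rpow_pos_of_pos hκ _
    have h2 : κ ^ (-s) = (κ ^ s)⁻¹ := Real.rpow_neg hκ.le _
    rw [h2] at h
    have h3 : κ ^ s * 1 ≤ κ ^ s * ((ħ ^ 2)⁻¹ * (I ^ (s / (2 * γ)) * (κ ^ s)⁻¹)) :=
      mul_le_mul_of_nonneg_left h h1.le
    calc κ ^ s = κ ^ s * 1 := (mul_one _).symm
      _ ≤ κ ^ s * ((ħ ^ 2)⁻¹ * (I ^ (s / (2 * γ)) * (κ ^ s)⁻¹)) := h3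
      _ = I ^ (s / (2 * γ)) * (ħ ^ 2)⁻¹ := by field_simp
  -- raise to the power 2γ/s
  have hp : 0 ≤ 2 * γ / s := by positivity
  have h4 : (κ ^ s) ^ (2 * γ / s) ≤ (I ^ (s / (2 * γ)) * (ħ ^ 2)⁻¹) ^ (2 * γ / s) :=
    Real.rpow_le_rpow (Real.rpow_nonneg hκ.le _) hks hp
  rw [← Real.rpow_mul hκ.le, Real.mul_rpow (Real.rpow_nonneg hI.le _) (by positivity),
    ← Real.rpow_mul hI.le] at h4
  have e1 : s * (2 * γ / s) = 2 * γ := by field_simp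
  have e2 : s / (2 * γ) * (2 * γ / s) = 1 := by field_simp
  rw [e1, e2, Real.rpow_one] at h4
  have e3 : ((ħ ^ 2)⁻¹ : ℝ) ^ (2 * γ / s) = ħ ^ (-(2 * q)) := by
    have : ((ħ ^ 2)⁻¹ : ℝ) = ħ ^ (-2 : ℝ) := by
      rw [Real.rpow_neg hħ.le]
      norm_cast
    rw [this, ← Real.rpow_mul hħ.le]
    congr 1
    rw [hsval]
    field_simp
  rw [e3] at h4
  have e4 : (ħ ^ 2 * κ ^ 2) ^ γ = ħ ^ (2 * γ) * κ ^ (2 * γ) := by
    rw [Real.mul_rpow (by positivity) (by positivity), ← Real.rpow_natCast ħ 2,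
      ← Real.rpow_natCast κ 2, ← Real.rpow_mul hħ.le, ← Real.rpow_mul hκ.le]
    norm_num
  rw [e4]
  calc ħ ^ (2 * γ) * κ ^ (2 * γ) ≤ ħ ^ (2 * γ) * (I * ħ ^ (-(2 * q))) :=
        mul_le_mul_of_nonneg_left h4 (Real.rpow_nonneg hħ.le _)
    _ = (ħ ^ (2 * γ) * ħ ^ (-(2 * q))) * I := by ring
    _ = ħ ^ (-D) * I := by
        rw [← Real.rpow_add hħ]
        congr 2
        rw [hqdef]; ring

/-- pure exponent bookkeeping: lower bound -/
theorem j24953_lower (D γ η η' ħ κ : ℝ) (hD : 0 < D) (hγ : 0 < γ) (hħ : 0 < ħ) (hħ1 : ħ ≤ 1)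
    (h1 : 2 * η' / (2 - D / (γ + D / 2)) ≤ η)
    (h : ħ ^ (-((2 - η') / (2 - D / (γ + D / 2)))) ≤ κ) :
    ħ ^ (η - D / γ) ≤ ħ ^ 2 * κ ^ 2 := by
  set q := γ + D / 2 with hqdef
  have hq : 0 < q := by positivity
  set s := 2 - D / q with hs
  have hsval : s = 2 * γ / q := by
    rw [hs]; field_simp; rw [hqdef]; ring
  have hs0 : 0 < s := by rw [hsval]; positivity
  have h2 : (ħ ^ (-((2 - η') / s))) ^ 2 ≤ κ ^ 2 :=
    pow_le_pow_left₀ (Real.rpow_nonneg hħ.le _) h 2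
  calc ħ ^ (η - D / γ) ≤ ħ ^ (2 - 2 * ((2 - η') / s)) := by
        apply Real.rpow_le_rpow_of_exponent_ge hħ hħ1
        have e1 : 2 - 2 * ((2 - η') / s) = (2 - 4 / s) + 2 * η' / s := by ring
        have e2 : 2 - 4 / s = - (D / γ) := by
          rw [hsval, hqdef]; field_simp; ring
        rw [e1, e2]; linarith
    _ = ħ ^ 2 * (ħ ^ (-((2 - η') / s))) ^ 2 := by
        rw [← Real.rpow_natCast (ħ ^ (-((2 - η') / s))) 2, ← Real.rpow_mul hħ.le,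
          ← Real.rpow_natCast ħ 2, ← Real.rpow_add hħ]
        congr 1
        push_cast
        ring
    _ ≤ ħ ^ 2 * κ ^ 2 := mul_le_mul_of_nonneg_left h2 (by positivity)

theorem main_eig (d : ℕ) (hd : 1 ≤ d) (γ : ℝ) (hγ : 0 < γ) (hq : 1 ≤ γ + (d : ℝ) / 2)
    (η : ℝ) (hη : 0 < η) : ∃ h0 : ℝ, 0 < h0 ∧ h0 ≤ 1 ∧ ∀ ħ : ℝ, 0 < ħ → ħ < h0 →
      ∃ e : ℝ, ħ ^ (η - (d : ℝ) / γ) ≤ e ∧
        e ^ γ ≤ NN γ (fun x : E d => (-(WW d (γ + (d : ℝ) / 2) x) : ℂ)) ħ ∧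
        ∃ u : E d → ℂ, ¬ (u =ᵐ[volume] 0) ∧
          InGraph (fun x : E d => (-(WW d (γ + (d : ℝ) / 2) x) : ℂ)) ħ u
            (fun x => (-(e : ℂ)) * u x) := by
  have hD : (0 : ℝ) < (d : ℝ) := by exact_mod_cast hd
  set q := γ + (d : ℝ) / 2 with hqdef
  have hq0 : 0 < q := by linarith
  set s := 2 - (d : ℝ) / q with hs
  have hsval : s = 2 * γ / q := by
    rw [hs]; field_simp; rw [hqdef]; ring
  have hs0 : 0 < s := by rw [hsval]; positivity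
  have hqd : (d : ℝ) / q < 2 := by linarith
  obtain ⟨hW0, hWm, hWL, hWI, hIpos⟩ := WW_facts d hd q hq
  set I := ∫ x, |WW d q x| ^ q with hIdef
  obtain ⟨c, hc, hbs⟩ := bs_main d hd q hq hqd
  have hε0 : 0 < I ^ (s / (2 * γ)) := Real.rpow_pos_of_pos hIpos _
  obtain ⟨κ1, hκ1, hGs⟩ := G_small d q hq hqd hd (WW d q) hW0 hWm hWL _ hε0
  obtain ⟨C, hC, hGb⟩ := G_bound d q hq hqd
  set η' := min 1 (η * s / 2) with hη'
  have hη'0 : 0 < η' := lt_min one_pos (by positivity)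
  have hη'1 : η' ≤ 1 := min_le_left _ _
  have hη'2 : 2 * η' / s ≤ η := by
    rw [div_le_iff₀ hs0]
    have : η' ≤ η * s / 2 := min_le_right _ _
    linarith
  set p := (2 - η') / s with hp
  have hp0 : 0 < p := div_pos (by linarith) hs0
  set r := η' * s / (2 - η') with hr
  have hr0 : 0 < r := div_pos (by positivity) (by linarith)
  obtain ⟨K0, hK0⟩ := eventually_atTop.mp (j24953_log c r hc hr0)
  set K := max (max 2 κ1) K0 with hK
  have hK2 : 2 ≤ K := (le_max_left _ _).trans (le_max_left _ _)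
  have hKκ : κ1 ≤ K := (le_max_right _ _).trans (le_max_left _ _)
  have hKK : K0 ≤ K := le_max_right _ _
  have hKpos : 0 < K := by linarith
  refine ⟨min 1 (K ^ (-(1 / p))), lt_min one_pos (Real.rpow_pos_of_pos hKpos _),
    min_le_left _ _, fun ħ hħ hħh => ?_⟩
  have hħ1 : ħ < 1 := lt_of_lt_of_le hħh (min_le_left _ _)
  have hħK : ħ < K ^ (-(1 / p)) := lt_of_lt_of_le hħh (min_le_right _ _)
  set κ0 := ħ ^ (-p) with hκ0
  have hκ0K : K ≤ κ0 := by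
    have h1 : (K ^ (-(1 / p))) ^ (-p) < ħ ^ (-p) :=
      Real.rpow_lt_rpow_of_neg hħ hħK (by linarith)
    have h2 : (K ^ (-(1 / p))) ^ (-p) = K := by
      rw [← Real.rpow_mul hKpos.le]
      have : -(1 / p) * -p = 1 := by field_simp
      rw [this, Real.rpow_one]
    rw [h2] at h1
    exact h1.le
  have hκ0pos : 0 < κ0 := by linarith
  have hκ0log : (1 + Real.log κ0) ^ 2 ≤ c * κ0 ^ r := hK0 κ0 (hKK.trans hκ0K)
  have hlogpos : 0 < (1 + Real.log κ0) ^ 2 := by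
    have : 0 ≤ Real.log κ0 := Real.log_nonneg (by linarith)
    positivity
  have hħ2 : 0 < ħ ^ 2 := by positivity
  have hcond : 1 ≤ (ħ ^ 2)⁻¹ * (c * κ0 ^ ((d : ℝ) / q - 2) * ((1 + Real.log κ0) ^ 2)⁻¹) := by
    have e1 : (d : ℝ) / q - 2 = -s := by rw [hs]; ring
    have e2 : (ħ ^ 2)⁻¹ * κ0 ^ (-s) = κ0 ^ r := by
      have e3 : (ħ ^ 2 : ℝ)⁻¹ = ħ ^ (-2 : ℝ) := by
        rw [Real.rpow_neg hħ.le]
        norm_cast
      rw [e3, hκ0, ← Real.rpow_mul hħ.le, ← Real.rpow_mul hħ.le, ← Real.rpow_add hħ]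
      congr 1
      rw [hp, hr]
      have h2 : (2 - η') ≠ 0 := by linarith
      field_simp
      ring
    rw [e1]
    have e4 : (ħ ^ 2)⁻¹ * (c * κ0 ^ (-s) * ((1 + Real.log κ0) ^ 2)⁻¹) =
        (c * κ0 ^ r) * ((1 + Real.log κ0) ^ 2)⁻¹ := by
      rw [← e2]; ring
    rw [e4, ← div_eq_mul_inv, one_le_div hlogpos]
    exact hκ0log
  obtain ⟨κ, hκκ0, g, hgm, hgL, hgne, hge⟩ := hbs κ0 (hK2.trans hκ0K) (ħ ^ 2)⁻¹
    (inv_pos.mpr hħ2) hcond
  have hκpos : 0 < κ := by linarith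
  have hup : 1 ≤ (ħ ^ 2)⁻¹ * (I ^ (s / (2 * γ)) * κ ^ ((d : ℝ) / q - 2)) := by
    refine bs_upper (WW d q) hW0 hWm hWI κ hκpos _ ?_ ?_ _ (inv_pos.mpr hħ2) g hgL hgne hge
    · positivity
    · exact hGs κ (by linarith)
  refine ⟨ħ ^ 2 * κ ^ 2, ?_, ?_, ?_⟩
  · exact j24953_lower d γ η η' ħ κ hD hγ hħ hħ1.le hη'2 hκκ0
  · have h5 := j24953_upper d γ I ħ κ hD hγ hIpos hħ hκpos hup
    have h6 := j24953_NN d γ ħ
    rw [h6]
    exact h5
  · have hfin : ∀ κ' : ℝ, 0 < κ' → ∃ A : ℝ, 0 ≤ A ∧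
        ∀ x : E d, ∫⁻ y, G κ' (x - y) * ENNReal.ofReal (WW d q y) ≤ ENNReal.ofReal A := by
      intro κ' hκ'
      have hfinN : eLpNorm (WW d q) (ENNReal.ofReal q) volume ≠ ⊤ := hWL.2.ne
      refine ⟨C * κ' ^ ((d : ℝ) / q - 2) *
        (eLpNorm (WW d q) (ENNReal.ofReal q) volume).toReal, by positivity, fun x => ?_⟩
      refine (hGb (WW d q) hW0 hWm hWL κ' hκ' x).trans (le_of_eq ?_)
      rw [ENNReal.ofReal_mul (p := C * κ' ^ ((d : ℝ) / q - 2)) (by positivity),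
        ENNReal.ofReal_toReal hfinN]
    obtain ⟨u, hu0, hu⟩ := eig_from_g (WW d q) hW0 hWm hWI hfin κ hκpos ħ hħ g hgm hgL hgne hge
    refine ⟨u, hu0, ?_⟩
    have e7 : (fun x => (-(((ħ ^ 2 * κ ^ 2 : ℝ)) : ℂ)) * u x) =
        fun x => (-(ħ ^ 2 * κ ^ 2) : ℂ) * u x := by
      funext x
      push_cast
      ring
    rw [e7]
    exact hu

end Pool.Agent.Helper41.CE
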