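import Pool.Agent.Helper41.CE.TDefs


/-!
# Semiclassical eigenvalue bounds for Schroedinger operators: definitions
-/

open MeasureTheory Filter Topology Set
open scoped ENNReal NNReal ContDiff

namespace Pool.Agent.Helper41.CE

/-! ## TARGETS: prove these (statements must not be changed; helper lemmas are welcome) -/

theorem BM_of_BV {d : ℕ} {f : E d → ℂ} (hf : BV f) : BM f := ⟨hf.1, hf.2.1⟩

theorem BM_of_BC {d : ℕ} {f : E d → ℂ} (hf : BC f) : BM f := ⟨hf.1, hf.2.1⟩

theorem BV_of_BC {d : ℕ} {f : E d → ℂ} (hf : BC f) : BV f := by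
  refine ⟨hf.1, hf.2.1, fun ε hε => ?_⟩
  obtain ⟨R, hR⟩ := hf.2.2
  refine ⟨R, fun x hx => ?_⟩
  rw [hR x hx, norm_zero]
  exact hε.le

theorem mulop_memLp {d : ℕ} {f : E d → ℂ} (hf : Measurable f) {C : ℝ} (hC : ∀ x, ‖f x‖ ≤ C)
    (u : L2 d) : MemLp (fun x => f x * u x) 2 volume := by
  refine (Lp.memLp u).of_le_mul (c := C) (hf.aestronglyMeasurable.mul (Lp.aestronglyMeasurable u)) ?_
  filter_upwards with x
  rw [norm_mul]
  exact mul_le_mul_of_nonneg_right (hC x) (norm_nonneg _)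

theorem mulop_exists {d : ℕ} {f : E d → ℂ} (hf : BM f) :
    ∃ T : L2 d →L[ℂ] L2 d, ∀ u : L2 d, T u =ᵐ[volume] fun x => f x * u x := by
  obtain ⟨hm, C, hC⟩ := hf
  let T₀ : L2 d →ₗ[ℂ] L2 d :=
    { toFun := fun u => (mulop_memLp hm hC u).toLp _
      map_add' := by
        intro u v
        apply Lp.ext
        filter_upwards [(mulop_memLp hm hC (u + v)).coeFn_toLp, (mulop_memLp hm hC u).coeFn_toLp,
          (mulop_memLp hm hC v).coeFn_toLp, Lp.coeFn_add u v,
          Lp.coeFn_add ((mulop_memLp hm hC u).toLp _) ((mulop_memLp hm hC v).toLp _)]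
          with x h1 h2 h3 h4 h5
        rw [h1, h5, Pi.add_apply, h2, h3, h4, Pi.add_apply]
        ring
      map_smul' := by
        intro c u
        apply Lp.ext
        filter_upwards [(mulop_memLp hm hC (c • u)).coeFn_toLp, (mulop_memLp hm hC u).coeFn_toLp,
          Lp.coeFn_smul c u, Lp.coeFn_smul c ((mulop_memLp hm hC u).toLp _)] with x h1 h2 h3 h4
        rw [h1, RingHom.id_apply, h4, Pi.smul_apply, h2, h3, Pi.smul_apply, smul_eq_mul,
          smul_eq_mul]
        ring }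
  have hT₀ : ∀ u : L2 d, T₀ u =ᵐ[volume] fun x => f x * u x := fun u =>
    (mulop_memLp hm hC u).coeFn_toLp
  refine ⟨T₀.mkContinuous C (fun u => ?_), fun u => hT₀ u⟩
  apply Lp.norm_le_mul_norm_of_ae_le_mul
  filter_upwards [hT₀ u] with x hx
  rw [hx, norm_mul]
  exact mul_le_mul_of_nonneg_right (hC x) (norm_nonneg _)

theorem mulop_spec {d : ℕ} {f : E d → ℂ} (hf : BM f) (u : L2 d) :
    (mulop f u : E d → ℂ) =ᵐ[volume] fun x => f x * u x := by
  have h := mulop_exists hf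
  unfold mulop
  rw [dif_pos h]
  exact h.choose_spec u

theorem mulop_norm {d : ℕ} {f : E d → ℂ} (hf : BM f) (C : ℝ) (hC : ∀ x, ‖f x‖ ≤ C) :
    ‖mulop f‖ ≤ C := by
  apply ContinuousLinearMap.opNorm_le_bound _ ((norm_nonneg _).trans (hC 0))
  intro u
  apply Lp.norm_le_mul_norm_of_ae_le_mul
  filter_upwards [mulop_spec hf u] with x hx
  rw [hx, norm_mul]
  exact mul_le_mul_of_nonneg_right (hC x) (norm_nonneg _)

theorem BM.mul' {d : ℕ} {f g : E d → ℂ} (hf : BM f) (hg : BM g) : BM (fun x => f x * g x) := by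
  obtain ⟨hf, C, hC⟩ := hf
  obtain ⟨hg, D, hD⟩ := hg
  refine ⟨hf.mul hg, C * D, fun x => ?_⟩
  rw [norm_mul]
  exact mul_le_mul (hC x) (hD x) (norm_nonneg _) ((norm_nonneg _).trans (hC x))

theorem BM.add' {d : ℕ} {f g : E d → ℂ} (hf : BM f) (hg : BM g) : BM (fun x => f x + g x) := by
  obtain ⟨hf, C, hC⟩ := hf
  obtain ⟨hg, D, hD⟩ := hg
  exact ⟨hf.add hg, C + D, fun x => (norm_add_le _ _).trans (add_le_add (hC x) (hD x))⟩

theorem BM.const' {d : ℕ} (c : ℂ) : BM (fun _ : E d => c) :=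
  ⟨measurable_const, ‖c‖, fun _ => le_rfl⟩

theorem BM.conj' {d : ℕ} {f : E d → ℂ} (hf : BM f) : BM (fun x => (starRingEnd ℂ) (f x)) := by
  obtain ⟨hf, C, hC⟩ := hf
  refine ⟨Complex.continuous_conj.measurable.comp hf, C, fun x => ?_⟩
  rw [Complex.norm_conj]
  exact hC x

theorem mulop_mul {d : ℕ} {f g : E d → ℂ} (hf : BM f) (hg : BM g) :
    mulop f * mulop g = mulop (fun x => f x * g x) := by
  apply ContinuousLinearMap.ext
  intro u
  apply Lp.ext
  rw [ContinuousLinearMap.mul_apply]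
  filter_upwards [mulop_spec hf (mulop g u), mulop_spec hg u, mulop_spec (hf.mul' hg) u]
    with x h1 h2 h3
  rw [h1, h2, h3]
  ring

theorem mulop_add {d : ℕ} {f g : E d → ℂ} (hf : BM f) (hg : BM g) :
    mulop f + mulop g = mulop (fun x => f x + g x) := by
  apply ContinuousLinearMap.ext
  intro u
  apply Lp.ext
  have h0 : (mulop f + mulop g) u = mulop f u + mulop g u := rfl
  rw [h0]
  filter_upwards [mulop_spec hf u, mulop_spec hg u, mulop_spec (hf.add' hg) u,
    Lp.coeFn_add (mulop f u) (mulop g u)] with x h1 h2 h3 h4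
  rw [h4, Pi.add_apply, h1, h2, h3]
  ring

theorem mulop_smul {d : ℕ} {f : E d → ℂ} (hf : BM f) (c : ℂ) :
    c • mulop f = mulop (fun x => c * f x) := by
  apply ContinuousLinearMap.ext
  intro u
  apply Lp.ext
  have h0 : (c • mulop f) u = c • mulop f u := rfl
  rw [h0]
  filter_upwards [mulop_spec hf u, mulop_spec ((BM.const' c).mul' hf) u,
    Lp.coeFn_smul c (mulop f u)] with x h1 h2 h3
  rw [h3, Pi.smul_apply, h1, h2, smul_eq_mul]
  ring

theorem mulop_one (d : ℕ) : mulop (fun _ : E d => (1 : ℂ)) = 1 := by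
  apply ContinuousLinearMap.ext
  intro u
  apply Lp.ext
  have h0 : (1 : L2 d →L[ℂ] L2 d) u = u := rfl
  rw [h0]
  filter_upwards [mulop_spec (BM.const' 1) u] with x h1
  rw [h1, one_mul]

theorem mulop_inner {d : ℕ} {f : E d → ℂ} (hf : BM f) (u v : L2 d) :
    inner ℂ (mulop f u) v = inner ℂ u (mulop (fun x => (starRingEnd ℂ) (f x)) v) := by
  rw [L2.inner_def, L2.inner_def]
  apply integral_congr_ae
  filter_upwards [mulop_spec hf u, mulop_spec hf.conj' v] with x h1 h2
  rw [h1, h2]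
  simp only [RCLike.inner_apply, map_mul]
  ring

end Pool.Agent.Helper41.CE
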