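import Pool.Agent.Helper41.CE.TDefs
import Pool.Agent.Helper41.CE.CU01

/-!
# Semiclassical eigenvalue bounds for Schroedinger operators: definitions
-/

open MeasureTheory Filter Topology Set
open scoped ENNReal NNReal ContDiff

namespace Pool.Agent.Helper41.CE


/-! ## TARGETS: prove these (statements must not be changed; helper lemmas are welcome) -/

theorem Fm_apply {d : ℕ} (f : E d → ℂ) (u : L2 d) : FT d (Fm f u) = mulop f (FT d u) := by
  unfold Fm
  simp

theorem Fm_apply' {d : ℕ} (f : E d → ℂ) (u : L2 d) : Fm f u = (FT d).symm (mulop f (FT d u)) := by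
  rw [← Fm_apply]
  simp

theorem Fm_norm {d : ℕ} {f : E d → ℂ} (hf : BM f) (C : ℝ) (hC : ∀ x, ‖f x‖ ≤ C) :
    ‖Fm f‖ ≤ C := by
  have h1 := mulop_norm hf C hC
  have h0 : 0 ≤ C := (norm_nonneg _).trans h1
  refine ContinuousLinearMap.opNorm_le_bound _ h0 (fun u => ?_)
  rw [Fm_apply', LinearIsometryEquiv.norm_map]
  have h2 := (mulop f).le_opNorm (FT d u)
  rw [LinearIsometryEquiv.norm_map] at h2
  exact h2.trans (mul_le_mul_of_nonneg_right h1 (norm_nonneg _))

theorem Fm_mul {d : ℕ} {f g : E d → ℂ} (hf : BM f) (hg : BM g) :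
    Fm f * Fm g = Fm (fun x => f x * g x) := by
  apply ContinuousLinearMap.ext
  intro u
  apply (FT d).injective
  rw [ContinuousLinearMap.mul_apply, Fm_apply, Fm_apply, Fm_apply, ← mulop_mul hf hg]
  rfl

theorem Fm_add {d : ℕ} {f g : E d → ℂ} (hf : BM f) (hg : BM g) :
    Fm f + Fm g = Fm (fun x => f x + g x) := by
  apply ContinuousLinearMap.ext
  intro u
  apply (FT d).injective
  rw [ContinuousLinearMap.add_apply, map_add, Fm_apply, Fm_apply, Fm_apply, ← mulop_add hf hg]
  rfl

theorem Fm_smul {d : ℕ} {f : E d → ℂ} (hf : BM f) (c : ℂ) :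
    c • Fm f = Fm (fun x => c * f x) := by
  apply ContinuousLinearMap.ext
  intro u
  apply (FT d).injective
  rw [ContinuousLinearMap.smul_apply, map_smul, Fm_apply, Fm_apply, ← mulop_smul hf]
  rfl

theorem Fm_one (d : ℕ) : Fm (fun _ : E d => (1 : ℂ)) = 1 := by
  apply ContinuousLinearMap.ext
  intro u
  apply (FT d).injective
  rw [Fm_apply, mulop_one]
  rfl

theorem Fm_inner {d : ℕ} {f : E d → ℂ} (hf : BM f) (u v : L2 d) :
    inner ℂ (Fm f u) v = inner ℂ u (Fm (fun x => (starRingEnd ℂ) (f x)) v) := by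
  rw [← (FT d).inner_map_map (Fm f u) v, ← (FT d).inner_map_map u, Fm_apply, Fm_apply,
    mulop_inner hf]

end Pool.Agent.Helper41.CE
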