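import Pool.Agent.Helper41.CE.TDefs
import Pool.Agent.Helper41.CE.CU01
import Pool.Agent.Helper41.CE.CU02

/-!
# Semiclassical eigenvalue bounds for Schroedinger operators: definitions
-/

open MeasureTheory Filter Topology Set
open scoped ENNReal NNReal ContDiff

namespace Pool.Agent.Helper41.CE


/-! ## TARGETS: prove these (statements must not be changed; helper lemmas are welcome) -/

theorem res_bound (x : ℝ) {z : ℂ} (hz : z.im ≠ 0) : ‖((x : ℂ) - z)⁻¹‖ ≤ 1 / |z.im| := by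
  rw [norm_inv, one_div]
  have h1 : |z.im| ≤ ‖(x : ℂ) - z‖ := by
    have h := Complex.abs_im_le_norm ((x : ℂ) - z)
    simpa using h
  exact inv_anti₀ (abs_pos.2 hz) h1

theorem res_ne (x : ℝ) {z : ℂ} (hz : z.im ≠ 0) : (x : ℂ) - z ≠ 0 := by
  intro h
  apply hz
  have h2 := congrArg Complex.im h
  simpa using h2

theorem BM_mul' {d : ℕ} {f g : E d → ℂ} (hf : BM f) (hg : BM g) : BM (fun x => f x * g x) := by
  obtain ⟨hf1, C, hC⟩ := hf
  obtain ⟨hg1, D, hD⟩ := hg
  refine ⟨hf1.mul hg1, C * D, fun x => ?_⟩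
  rw [norm_mul]
  exact mul_le_mul (hC x) (hD x) (norm_nonneg _) ((norm_nonneg _).trans (hC x))

theorem BM_smul' {d : ℕ} {f : E d → ℂ} (hf : BM f) (c : ℂ) : BM (fun x => c * f x) := by
  obtain ⟨hf1, C, hC⟩ := hf
  refine ⟨hf1.const_mul c, ‖c‖ * C, fun x => ?_⟩
  rw [norm_mul]
  exact mul_le_mul_of_nonneg_left (hC x) (norm_nonneg _)

theorem BM_res {d : ℕ} {s : E d → ℝ} (hs : Measurable s) {z : ℂ} (hz : z.im ≠ 0) :
    BM (fun ξ => ((s ξ : ℂ) - z)⁻¹) := by
  refine ⟨((Complex.measurable_ofReal.comp hs).sub_const z).inv, 1 / |z.im|, fun ξ => ?_⟩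
  exact res_bound (s ξ) hz

theorem Rs_norm {d : ℕ} {s : E d → ℝ} (hs : Measurable s) {z : ℂ} (hz : 0 < z.im) :
    ‖Rs s z‖ ≤ 1 / z.im := by
  refine Fm_norm (BM_res hs hz.ne') _ fun ξ => ?_
  have h := res_bound (s ξ) hz.ne'
  rwa [abs_of_pos hz] at h

theorem Rs_sub {d : ℕ} {s : E d → ℝ} (hs : Measurable s) {z w : ℂ} (hz : 0 < z.im)
    (hw : 0 < w.im) : Rs s z - Rs s w = (z - w) • (Rs s z * Rs s w) := by
  have hbz := BM_res hs hz.ne'
  have hbw := BM_res hs hw.ne'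
  have e1 : Rs s z - Rs s w = Rs s z + (-1 : ℂ) • Rs s w := by
    rw [neg_one_smul, sub_eq_add_neg]
  rw [e1]
  unfold Rs
  rw [Fm_smul hbw, Fm_add hbz (BM_smul' hbw _), Fm_mul hbz hbw, Fm_smul (BM_mul' hbz hbw)]
  congr 1
  funext ξ
  have h1 := res_ne (s ξ) hz.ne'
  have h2 := res_ne (s ξ) hw.ne'
  field_simp
  ring

theorem Rs_diff {d : ℕ} {s : E d → ℝ} (hs : Measurable s) :
    DifferentiableOn ℂ (fun z => Rs s z) {z : ℂ | 0 < z.im} := by
  intro w hw
  have hw' : 0 < w.im := hw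
  have hev : ∀ᶠ z : ℂ in 𝓝 w, w.im / 2 < z.im := by
    have h1 : ContinuousAt (fun z : ℂ => z.im) w := Complex.continuous_im.continuousAt
    exact h1.eventually (lt_mem_nhds (by linarith))
  have hcont : Tendsto (fun z => Rs s z) (𝓝 w) (𝓝 (Rs s w)) := by
    rw [tendsto_iff_norm_sub_tendsto_zero]
    have hlim : Tendsto (fun z : ℂ => ‖z - w‖ * (2 / w.im * (1 / w.im))) (𝓝 w) (𝓝 0) := by
      have h1 : Continuous (fun z : ℂ => ‖z - w‖ * (2 / w.im * (1 / w.im))) := by fun_prop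
      have h2 := h1.tendsto w
      simpa using h2
    refine squeeze_zero' (Eventually.of_forall fun z => norm_nonneg _) ?_ hlim
    filter_upwards [hev] with z hz
    have hz' : 0 < z.im := by linarith
    rw [Rs_sub hs hz' hw', norm_smul]
    refine mul_le_mul_of_nonneg_left ((norm_mul_le _ _).trans ?_) (norm_nonneg _)
    refine mul_le_mul ((Rs_norm hs hz').trans ?_) (Rs_norm hs hw') (norm_nonneg _)
      (by positivity)
    rw [div_le_div_iff₀ hz' hw']
    linarith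
  have hder : HasDerivAt (fun z => Rs s z) (Rs s w * Rs s w) w := by
    rw [hasDerivAt_iff_tendsto_slope]
    have h1 : Tendsto (fun z => Rs s z * Rs s w) (𝓝[≠] w) (𝓝 (Rs s w * Rs s w)) :=
      (hcont.mono_left nhdsWithin_le_nhds).mul_const (Rs s w)
    refine h1.congr' ?_
    have hev' : ∀ᶠ z : ℂ in 𝓝[≠] w, w.im / 2 < z.im := hev.filter_mono nhdsWithin_le_nhds
    filter_upwards [hev', self_mem_nhdsWithin] with z hz hne
    have hz' : 0 < z.im := by linarith
    have hne' : z - w ≠ 0 := sub_ne_zero.2 hne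
    rw [slope_def_module, Rs_sub hs hz' hw', smul_smul, inv_mul_cancel₀ hne', one_smul]
  exact hder.differentiableAt.differentiableWithinAt

end Pool.Agent.Helper41.CE
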