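import Pool.Agent.Helper41.CE.TDefs
import Pool.Agent.Helper41.CE.CU01
import Pool.Agent.Helper41.CE.CU02

/-!
# Semiclassical eigenvalue bounds for Schroedinger operators: definitions
-/

open MeasureTheory Filter Topology Set
open scoped ENNReal NNReal ContDiff

namespace Pool.Agent.Helper41.CE


/-! ## TARGETS: prove these (statements must not be changed; helper lemmas are welcome) -/

theorem cp_lip {d : ℕ} (w : E d → ℂ) (hw : Integrable w) (r : ℝ) (hr : 0 ≤ r)
    (hsupp : ∀ x, r < ‖x‖ → w x = 0) (ξ η : E d) :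
    ‖FourierTransform.fourier w ξ - FourierTransform.fourier w η‖ ≤
      2 * Real.pi * r * ‖ξ - η‖ * ∫ x, ‖w x‖ := by
  rw [Real.fourier_eq, Real.fourier_eq]
  have hi : ∀ ξ : E d, Integrable (fun v => Real.fourierChar (-inner ℝ v ξ) • w v) := by
    intro ξ
    have := (Real.fourierIntegral_convergent_iff (μ := (volume : Measure (E d))) (f := w) ξ).2 hw
    exact this
  rw [← integral_sub (hi ξ) (hi η), ← integral_const_mul]
  refine norm_integral_le_of_norm_le (hw.norm.const_mul _) (Filter.Eventually.of_forall fun v => ?_)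
  by_cases hv : r < ‖v‖
  · rw [hsupp v hv]
    simp
  · push Not at hv
    have h1 : ‖(Real.fourierChar (-inner ℝ v ξ) : ℂ) - (Real.fourierChar (-inner ℝ v η) : ℂ)‖ ≤
        2 * Real.pi * r * ‖ξ - η‖ := by
      have h2 : (Real.fourierChar (-inner ℝ v ξ) : ℂ) =
          (Real.fourierChar (-inner ℝ v η) : ℂ) * (Real.fourierChar (-inner ℝ v (ξ - η)) : ℂ) := by
        rw [← Circle.coe_mul, ← AddChar.map_add_eq_mul]
        congr 2
        rw [inner_sub_right]
        ring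
      have h3 : (Real.fourierChar (-inner ℝ v η) : ℂ) * (Real.fourierChar (-inner ℝ v (ξ - η)) : ℂ) -
          (Real.fourierChar (-inner ℝ v η) : ℂ) =
          (Real.fourierChar (-inner ℝ v η) : ℂ) * ((Real.fourierChar (-inner ℝ v (ξ - η)) : ℂ) - 1) := by
        ring
      rw [h2, h3, norm_mul, Circle.norm_coe, one_mul, Real.fourierChar_apply]
      have h4 := Real.norm_exp_I_mul_ofReal_sub_one_le (x := 2 * Real.pi * (-inner ℝ v (ξ - η)))
      rw [mul_comm Complex.I] at h4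
      refine h4.trans ?_
      rw [Real.norm_eq_abs, abs_mul, abs_neg, abs_of_pos (by positivity : (0 : ℝ) < 2 * Real.pi)]
      have h5 := abs_real_inner_le_norm v (ξ - η)
      have h6 : ‖v‖ * ‖ξ - η‖ ≤ r * ‖ξ - η‖ := mul_le_mul_of_nonneg_right hv (norm_nonneg _)
      have h7 : |inner ℝ v (ξ - η)| ≤ r * ‖ξ - η‖ := h5.trans h6
      calc 2 * Real.pi * |inner ℝ v (ξ - η)| ≤ 2 * Real.pi * (r * ‖ξ - η‖) :=
            mul_le_mul_of_nonneg_left h7 (by positivity)
        _ = 2 * Real.pi * r * ‖ξ - η‖ := by ring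
    have h8 : Real.fourierChar (-inner ℝ v ξ) • w v - Real.fourierChar (-inner ℝ v η) • w v =
        ((Real.fourierChar (-inner ℝ v ξ) : ℂ) - (Real.fourierChar (-inner ℝ v η) : ℂ)) * w v := by
      rw [Circle.smul_def, Circle.smul_def, smul_eq_mul, smul_eq_mul]
      ring
    rw [h8, norm_mul]
    exact mul_le_mul_of_nonneg_right h1 (norm_nonneg _)

theorem cp_step {d : ℕ} (R δ : ℝ) (hδ : 0 < δ) : ∃ s : SimpleFunc (E d) (E d),
    ∀ x : E d, ‖x‖ ≤ R → ‖x - s x‖ ≤ δ := by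
  classical
  obtain ⟨t, ht, hfin, hcov⟩ := (isCompact_closedBall (0 : E d) R).finite_cover_balls hδ
  have key : ∀ t : Finset (E d), ∃ s : SimpleFunc (E d) (E d),
      ∀ x : E d, x ∈ ⋃ y ∈ t, Metric.ball y δ → ‖x - s x‖ ≤ δ := by
    intro t
    induction t using Finset.induction_on with
    | empty => exact ⟨SimpleFunc.const _ 0, by simp⟩
    | insert y t _ ih =>
      obtain ⟨s, hs⟩ := ih
      refine ⟨SimpleFunc.piecewise (Metric.ball y δ) Metric.isOpen_ball.measurableSet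
        (SimpleFunc.const _ y) s, ?_⟩
      intro x hx
      rw [SimpleFunc.piecewise_apply]
      split_ifs with h
      · rw [SimpleFunc.const_apply, ← dist_eq_norm]
        exact (Metric.mem_ball.1 h).le
      · apply hs
        simp only [Finset.mem_insert, Set.iUnion_iUnion_eq_or_left, Set.mem_union] at hx
        rcases hx with hx | hx
        · exact absurd hx h
        · exact hx
  obtain ⟨s, hs⟩ := key hfin.toFinset
  refine ⟨s, fun x hx => hs x ?_⟩
  have := hcov (by simpa using hx : x ∈ Metric.closedBall (0 : E d) R)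
  simpa using this

theorem cp_memLp {d : ℕ} {f : E d → ℂ} (hf : BC f) : MemLp f 2 (volume : Measure (E d)) := by
  obtain ⟨hm, ⟨C, hC⟩, R, hR⟩ := hf
  have h1 : f = (Metric.closedBall (0 : E d) R).indicator f := by
    funext x
    by_cases hx : x ∈ Metric.closedBall (0 : E d) R
    · rw [Set.indicator_of_mem hx]
    · rw [Set.indicator_of_notMem hx]
      apply hR
      simpa using hx
  rw [h1]
  rw [memLp_indicator_iff_restrict measurableSet_closedBall]
  have : IsFiniteMeasure ((volume : Measure (E d)).restrict (Metric.closedBall 0 R)) :=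
    ⟨by
      rw [Measure.restrict_apply_univ]
      exact measure_closedBall_lt_top⟩
  exact MemLp.of_bound hm.aestronglyMeasurable C (Filter.Eventually.of_forall hC)

theorem cp_cut (d : ℕ) (R : ℝ) : ∃ χ : E d → ℂ, ContDiff ℝ ∞ χ ∧ HasCompactSupport χ ∧
    (∀ x, ‖x‖ ≤ R → χ x = 1) ∧ BC χ ∧ ∃ r : ℝ, 0 ≤ r ∧ ∀ x, r < ‖x‖ → χ x = 0 := by
  let b : ContDiffBump (0 : E d) := ⟨max R 1, max R 1 + 1, by positivity, by linarith⟩
  have hb : ContDiff ℝ ∞ (fun x => ((b x : ℝ) : ℂ)) :=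
    Complex.ofRealCLM.contDiff.comp b.contDiff
  have hout : ∀ x : E d, max R 1 + 1 < ‖x‖ → b x = 0 := by
    intro x hx
    apply b.zero_of_le_dist
    rw [dist_zero_right]
    exact hx.le
  refine ⟨fun x => ((b x : ℝ) : ℂ), hb, ?_, ?_, ?_, max R 1 + 1, by positivity, ?_⟩
  · exact b.hasCompactSupport.comp_left (g := fun y : ℝ => (y : ℂ)) (by simp)
  · intro x hx
    have : b x = 1 := by
      apply b.one_of_mem_closedBall
      rw [mem_closedBall_zero_iff]
      exact hx.trans (le_max_left _ _)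
    simp [this]
  · refine ⟨hb.continuous.measurable, ⟨1, fun x => ?_⟩, max R 1 + 1, fun x hx => ?_⟩
    · rw [Complex.norm_real, Real.norm_eq_abs, abs_of_nonneg b.nonneg]
      exact b.le_one
    · simp [hout x hx]
  · intro x hx
    simp [hout x hx]

theorem cp_wsch {d : ℕ} {χ : E d → ℂ} (h1 : ContDiff ℝ ∞ χ) (h2 : HasCompactSupport χ)
    (hχ : BC χ) (u : SchwartzMap (E d) ℂ) : ∃ w : SchwartzMap (E d) ℂ,
    (∀ x, w x = χ x * u x) ∧ mulop χ (u.toLp 2) = w.toLp 2 := by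
  have hc : HasCompactSupport (fun x => χ x * u x) := h2.mul_right
  have hd : ContDiff ℝ ∞ (fun x => χ x * u x) := h1.mul (u.smooth ⊤)
  refine ⟨hc.toSchwartzMap hd, fun x => rfl, ?_⟩
  apply Lp.ext
  filter_upwards [mulop_spec (BM_of_BC hχ) (u.toLp 2), u.coeFn_toLp 2,
    (hc.toSchwartzMap hd).coeFn_toLp 2] with x h3 h4 h5
  rw [h3, h4, h5]
  rfl

theorem cp_l1 {d : ℕ} {χ : E d → ℂ} (hχ : MemLp χ 2 (volume : Measure (E d)))
    (u w : SchwartzMap (E d) ℂ) (h : ∀ x, w x = χ x * u x) :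
    ∫ x, ‖w x‖ ≤ (eLpNorm χ 2 volume).toReal * ‖u.toLp 2 (volume : Measure (E d))‖ := by
  have hu : MemLp (fun x => u x) 2 (volume : Measure (E d)) := u.memLp 2
  have h1 : (fun x => w x) = χ • (fun x => u x) := by
    funext x
    rw [h x]
    rfl
  have h2 : eLpNorm (fun x => w x) 1 volume ≤ eLpNorm χ 2 volume * eLpNorm (fun x => u x) 2 volume := by
    rw [h1]
    exact eLpNorm_smul_le_mul_eLpNorm hu.1 hχ.1
  have h3 : ∫ x, ‖w x‖ = (eLpNorm (fun x => w x) 1 volume).toReal := by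
    rw [eLpNorm_one_eq_lintegral_enorm]
    exact integral_norm_eq_lintegral_enorm w.continuous.aestronglyMeasurable
  have h4 : ‖u.toLp 2 (volume : Measure (E d))‖ = (eLpNorm (fun x => u x) 2 volume).toReal :=
    SchwartzMap.norm_toLp
  rw [h3, h4, ← ENNReal.toReal_mul]
  exact ENNReal.toReal_mono (ENNReal.mul_ne_top hχ.eLpNorm_ne_top hu.eLpNorm_ne_top) h2

theorem cp_inner {d : ℕ} {χ : E d → ℂ} (hχ : BC χ) (y : E d) : ∃ φ : L2 d,
    ∀ u w : SchwartzMap (E d) ℂ, (∀ x, w x = χ x * u x) →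
      inner ℂ φ (u.toLp 2) = FourierTransform.fourier (w : E d → ℂ) y := by
  have hm : BC (fun x => (starRingEnd ℂ) ((Real.fourierChar (-inner ℝ x y) : ℂ) * χ x)) := by
    obtain ⟨hm, ⟨C, hC⟩, R, hR⟩ := hχ
    refine ⟨?_, ⟨C, fun x => ?_⟩, R, fun x hx => ?_⟩
    · have h1 : Continuous (fun x : E d => (Real.fourierChar (-inner ℝ x y) : ℂ)) := by
        fun_prop
      have h2 : Measurable (fun x : E d => (Real.fourierChar (-inner ℝ x y) : ℂ) * χ x) :=
        h1.measurable.mul hm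
      exact Complex.continuous_conj.measurable.comp h2
    · rw [RCLike.norm_conj, norm_mul, Circle.norm_coe, one_mul]
      exact hC x
    · simp [hR x hx]
  refine ⟨(cp_memLp hm).toLp _, fun u w h => ?_⟩
  rw [L2.inner_def, Real.fourier_eq]
  apply integral_congr_ae
  filter_upwards [(cp_memLp hm).coeFn_toLp, u.coeFn_toLp 2] with x h1 h2
  rw [h1, h2, h x, Circle.smul_def, smul_eq_mul, RCLike.inner_apply]
  simp
  ring

theorem cp_rank {d : ℕ} (F : Finset (E d)) (φ ψ : E d → L2 d) : ∃ T : L2 d →L[ℂ] L2 d,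
    IsCompactOperator T ∧ ∀ v, T v = ∑ y ∈ F, inner ℂ (φ y) v • ψ y := by
  have h3 : ∀ y, IsCompactOperator (ContinuousLinearMap.toSpanSingleton ℂ (ψ y)) := fun y =>
    isCompactOperator_of_locallyCompactSpace_rng _
  refine ⟨∑ y ∈ F, (ContinuousLinearMap.toSpanSingleton ℂ (ψ y)).comp (innerSL ℂ (φ y)), ?_, ?_⟩
  · have hm : (∑ y ∈ F, (ContinuousLinearMap.toSpanSingleton ℂ (ψ y)).comp (innerSL ℂ (φ y))) ∈
        compactOperator (RingHom.id ℂ) (L2 d) (L2 d) := by
      apply Submodule.sum_mem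
      intro y _
      exact (h3 y).comp_clm (innerSL ℂ (φ y))
    exact hm
  · intro v
    rw [ContinuousLinearMap.sum_apply]
    rfl

set_option maxHeartbeats 1000000 in
theorem cp_approx {d : ℕ} {χ σ : E d → ℂ} (h1 : ContDiff ℝ ∞ χ) (h2 : HasCompactSupport χ)
    (hχ : BC χ) (hσ : BC σ) (ε : ℝ) (hε : 0 < ε) : ∃ T : L2 d →L[ℂ] L2 d, IsCompactOperator T ∧
      ‖(mulop σ).comp (((FT d).toContinuousLinearEquiv : L2 d →L[ℂ] L2 d).comp (mulop χ)) - T‖ ≤ ε := by
  classical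
  obtain ⟨Rχ, hRχ⟩ := hχ.2.2
  obtain ⟨Rσ, hRσ⟩ := hσ.2.2
  set r : ℝ := max Rχ 0 with hr
  have hr0 : 0 ≤ r := le_max_right _ _
  have hrχ : ∀ x, r < ‖x‖ → χ x = 0 := fun x hx => hRχ x ((le_max_left _ _).trans_lt hx)
  set A : ℝ := (eLpNorm χ 2 volume).toReal with hA
  have hA0 : 0 ≤ A := ENNReal.toReal_nonneg
  set σL : L2 d := (cp_memLp hσ).toLp σ with hσL
  set B : ℝ := ‖σL‖ with hB
  have hB0 : 0 ≤ B := norm_nonneg _
  set δ : ℝ := ε / (2 * Real.pi * r * A * B + 1) with hδ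
  have hden : 0 < 2 * Real.pi * r * A * B + 1 := by positivity
  have hδ0 : 0 < δ := by positivity
  have hδε : 2 * Real.pi * r * δ * A * B ≤ ε := by
    have : δ * (2 * Real.pi * r * A * B + 1) = ε := by
      rw [hδ]; field_simp
    nlinarith
  obtain ⟨s, hs⟩ := cp_step (d := d) Rσ δ hδ0
  choose φ hφ using fun y : E d => cp_inner hχ y
  have hmem : ∀ y, MemLp ((s ⁻¹' {y}).indicator σ) 2 (volume : Measure (E d)) := fun y =>
    (cp_memLp hσ).indicator (s.measurableSet_preimage {y})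
  let ψ : E d → L2 d := fun y => (hmem y).toLp _
  have hψ : ∀ y, ψ y =ᵐ[volume] (s ⁻¹' {y}).indicator σ := fun y => (hmem y).coeFn_toLp
  obtain ⟨T, hTc, hTv⟩ := cp_rank s.range φ ψ
  refine ⟨T, hTc, ?_⟩
  set S : L2 d →L[ℂ] L2 d :=
    (mulop σ).comp (((FT d).toContinuousLinearEquiv : L2 d →L[ℂ] L2 d).comp (mulop χ)) with hS
  have hSch : ∀ u : SchwartzMap (E d) ℂ, ‖(S - T) (u.toLp 2)‖ ≤ ε * ‖u.toLp 2 (volume : Measure (E d))‖ := by
    intro u
    obtain ⟨w, hw, hwm⟩ := cp_wsch h1 h2 hχ u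
    have hSu : S (u.toLp 2) = mulop σ ((FourierTransform.fourier w).toLp 2) := by
      rw [hS]
      change mulop σ (FT d (mulop χ (u.toLp 2))) = _
      rw [hwm]
      congr 1
      exact SchwartzMap.toLp_fourier_eq w
    have hTu : T (u.toLp 2) = ∑ y ∈ s.range, FourierTransform.fourier (w : E d → ℂ) y • ψ y := by
      rw [hTv]
      apply Finset.sum_congr rfl
      intro y _
      rw [hφ y u w hw]
    have hl1 := cp_l1 (cp_memLp hχ) u w hw
    rw [← hA] at hl1
    have hwsupp : ∀ x, r < ‖x‖ → w x = 0 := by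
      intro x hx
      rw [hw x, hrχ x hx, zero_mul]
    have hae : ∀ᵐ ξ ∂(volume : Measure (E d)), ‖((S - T) (u.toLp 2) : L2 d) ξ‖ ≤
        (2 * Real.pi * r * δ * (A * ‖u.toLp 2 (volume : Measure (E d))‖)) * ‖(σL : L2 d) ξ‖ := by
      have e1 : ((S - T) (u.toLp 2) : L2 d) = S (u.toLp 2) - T (u.toLp 2) := rfl
      have e2 : ∀ᵐ ξ ∂(volume : Measure (E d)), ∀ y ∈ s.range,
          ψ y ξ = (s ⁻¹' {y}).indicator σ ξ := by
        rw [Finset.eventually_all]
        exact fun y _ => hψ y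
      have e3 : ∀ᵐ ξ ∂(volume : Measure (E d)), ∀ y ∈ s.range,
          ((FourierTransform.fourier (w : E d → ℂ) y • ψ y : L2 d)) ξ =
            FourierTransform.fourier (w : E d → ℂ) y * ψ y ξ := by
        rw [Finset.eventually_all]
        intro y _
        filter_upwards [Lp.coeFn_smul (FourierTransform.fourier (w : E d → ℂ) y) (ψ y)] with ξ h
        rw [h]
        rfl
      rw [e1, hSu, hTu]
      filter_upwards [e2, e3, Lp.coeFn_sub (mulop σ ((FourierTransform.fourier w).toLp 2))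
        (∑ y ∈ s.range, FourierTransform.fourier (w : E d → ℂ) y • ψ y),
        mulop_spec (BM_of_BC hσ) ((FourierTransform.fourier w).toLp 2),
        (FourierTransform.fourier w).coeFn_toLp 2,
        Lp.coeFn_finsetSum s.range (fun y => FourierTransform.fourier (w : E d → ℂ) y • ψ y),
        (cp_memLp hσ).coeFn_toLp] with ξ f2 f3 f4 f5 f6 f7 f8
      rw [f4, Pi.sub_apply, f5, f6, f7, Finset.sum_apply]
      have g1 : ∑ y ∈ s.range, ((FourierTransform.fourier (w : E d → ℂ) y • ψ y : L2 d)) ξ =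
          FourierTransform.fourier (w : E d → ℂ) (s ξ) * σ ξ := by
        rw [Finset.sum_eq_single (s ξ)]
        · rw [f3 _ (s.mem_range_self ξ), f2 _ (s.mem_range_self ξ), Set.indicator_of_mem]
          simp
        · intro y hy hne
          rw [f3 y hy, f2 y hy, Set.indicator_of_notMem, mul_zero]
          simp only [Set.mem_preimage, Set.mem_singleton_iff]
          exact fun h => hne h.symm
        · intro h
          exact absurd (s.mem_range_self ξ) h
      have g1' : ∑ c ∈ s.range, ((fun y => FourierTransform.fourier (w : E d → ℂ) y • ψ y) c : L2 d) ξ =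
          FourierTransform.fourier (w : E d → ℂ) (s ξ) * σ ξ := g1
      rw [g1', hσL, f8]
      have g2 : σ ξ * (FourierTransform.fourier w : SchwartzMap (E d) ℂ) ξ -
          FourierTransform.fourier (w : E d → ℂ) (s ξ) * σ ξ =
          (FourierTransform.fourier (w : E d → ℂ) ξ - FourierTransform.fourier (w : E d → ℂ) (s ξ)) *
            σ ξ := by
        rw [SchwartzMap.fourier_coe]
        ring
      rw [g2, norm_mul]
      by_cases hξ : Rσ < ‖ξ‖
      · rw [hRσ ξ hξ]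
        simp
      · push Not at hξ
        apply mul_le_mul_of_nonneg_right _ (norm_nonneg _)
        refine (cp_lip (w : E d → ℂ) w.integrable r hr0 hwsupp ξ (s ξ)).trans ?_
        have g3 := hs ξ hξ
        have g4 : 0 ≤ ∫ x, ‖w x‖ := integral_nonneg fun _ => norm_nonneg _
        have g5 : 0 ≤ 2 * Real.pi * r := by positivity
        calc 2 * Real.pi * r * ‖ξ - s ξ‖ * ∫ x, ‖w x‖
            ≤ 2 * Real.pi * r * δ * ∫ x, ‖w x‖ :=
              mul_le_mul_of_nonneg_right (mul_le_mul_of_nonneg_left g3 g5) g4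
          _ ≤ _ := mul_le_mul_of_nonneg_left hl1 (by positivity)
    refine (Lp.norm_le_mul_norm_of_ae_le_mul hae).trans ?_
    rw [← hB]
    have hu0 : 0 ≤ ‖u.toLp 2 (volume : Measure (E d))‖ := norm_nonneg _
    calc 2 * Real.pi * r * δ * (A * ‖u.toLp 2 (volume : Measure (E d))‖) * B
        = (2 * Real.pi * r * δ * A * B) * ‖u.toLp 2 (volume : Measure (E d))‖ := by ring
      _ ≤ ε * ‖u.toLp 2 (volume : Measure (E d))‖ := mul_le_mul_of_nonneg_right hδε hu0
  apply ContinuousLinearMap.opNorm_le_bound _ hε.le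
  intro v
  refine DenseRange.induction_on (p := fun v : L2 d => ‖(S - T) v‖ ≤ ε * ‖v‖)
    (SchwartzMap.denseRange_toLpCLM (p := 2) (μ := (volume : Measure (E d))) (F := ℂ)
      ENNReal.ofNat_ne_top) v ?_ ?_
  · exact isClosed_le ((S - T).continuous.norm) (continuous_const.mul continuous_norm)
  · intro u
    exact hSch u

theorem cp_closed {d : ℕ} (S : L2 d →L[ℂ] L2 d)
    (h : ∀ ε : ℝ, 0 < ε → ∃ T : L2 d →L[ℂ] L2 d, IsCompactOperator T ∧ ‖S - T‖ ≤ ε) :
    IsCompactOperator S := by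
  have hcl : IsClosed {f : L2 d →L[ℂ] L2 d | IsCompactOperator f} :=
    isClosed_setOfPred_isCompactOperator
  have hmem : S ∈ closure {f : L2 d →L[ℂ] L2 d | IsCompactOperator f} := by
    rw [Metric.mem_closure_iff]
    intro ε hε
    obtain ⟨T, hT, hST⟩ := h (ε / 2) (by positivity)
    refine ⟨T, hT, ?_⟩
    rw [dist_eq_norm]
    linarith
  rw [hcl.closure_eq] at hmem
  exact hmem

theorem cp_BC {d : ℕ} {σ f : E d → ℂ} (hσ : BC σ) (hf : BC f) :
    IsCompactOperator (Fm σ * mulop f) := by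
  obtain ⟨R, hR⟩ := hf.2.2
  obtain ⟨χ, h1, h2, h3, h4, -⟩ := cp_cut d R
  have hS := cp_closed _ (fun ε hε => cp_approx h1 h2 h4 hσ ε hε)
  have hχf : mulop χ * mulop f = mulop f := by
    rw [mulop_mul (BM_of_BC h4) (BM_of_BC hf)]
    congr 1
    funext x
    by_cases hx : R < ‖x‖
    · rw [hR x hx, mul_zero]
    · rw [h3 x (not_lt.1 hx), one_mul]
  rw [← hχf]
  have h5 := (hS.comp_clm (mulop f)).clm_comp
    ((FT d).symm.toContinuousLinearEquiv : L2 d →L[ℂ] L2 d)
  exact h5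

theorem cp_trunc {d : ℕ} {σ : E d → ℂ} (hσ : BV σ) (ε : ℝ) (hε : 0 < ε) : ∃ σ' : E d → ℂ, BC σ' ∧
    BM (fun x => σ x + (-1) * σ' x) ∧ (∀ x, ‖σ x + (-1) * σ' x‖ ≤ ε) ∧ (∀ x, ‖σ' x‖ ≤ ‖σ x‖) := by
  obtain ⟨hm, ⟨C, hC⟩, hV⟩ := hσ
  obtain ⟨R, hR⟩ := hV ε hε
  have hb : ∀ x, ‖σ x + (-1) * (Metric.closedBall (0 : E d) R).indicator σ x‖ ≤ ε := by
    intro x
    by_cases hx : x ∈ Metric.closedBall (0 : E d) R
    · rw [Set.indicator_of_mem hx]
      simp [hε.le]
    · rw [Set.indicator_of_notMem hx]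
      simp only [mul_zero, add_zero]
      apply hR
      simpa using hx
  have hmi : Measurable ((Metric.closedBall (0 : E d) R).indicator σ) :=
    hm.indicator measurableSet_closedBall
  refine ⟨(Metric.closedBall (0 : E d) R).indicator σ, ⟨hmi, ⟨C, fun x => ?_⟩, R, fun x hx => ?_⟩,
    ⟨hm.add (hmi.const_mul _), ε, hb⟩, hb, fun x => ?_⟩
  · exact (norm_indicator_le_norm_self _ _).trans (hC x)
  · rw [Set.indicator_of_notMem]
    simpa using hx
  · exact norm_indicator_le_norm_self _ _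

theorem Fm_mulop_compact {d : ℕ} {σ f : E d → ℂ} (hσ : BV σ) (hf : BV f) :
    IsCompactOperator (Fm σ * mulop f) := by
  obtain ⟨Cσ, hCσ⟩ := hσ.2.1
  obtain ⟨Cf, hCf⟩ := hf.2.1
  have hCσ0 : 0 ≤ Cσ := (norm_nonneg _).trans (hCσ 0)
  have hCf0 : 0 ≤ Cf := (norm_nonneg _).trans (hCf 0)
  refine cp_closed _ (fun ε hε => ?_)
  set η : ℝ := ε / (Cσ + Cf + 1) with hη
  have hη0 : 0 < η := by positivity
  obtain ⟨σ', hσ1, hσ2, hσ3, hσ4⟩ := cp_trunc hσ η hη0
  obtain ⟨f', hf1, hf2, hf3, hf4⟩ := cp_trunc hf η hη0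
  refine ⟨Fm σ' * mulop f', cp_BC hσ1 hf1, ?_⟩
  have e1 : Fm σ - Fm σ' = Fm (fun x => σ x + (-1) * σ' x) := by
    have hs : BM (fun x => (-1 : ℂ) * σ' x) := by
      obtain ⟨hm, ⟨C, hC⟩, -⟩ := hσ1
      exact ⟨hm.const_mul _, C, fun x => by simpa using hC x⟩
    rw [← Fm_add (BM_of_BV hσ) hs, ← Fm_smul (BM_of_BC hσ1)]
    simp [sub_eq_add_neg]
  have e2 : mulop f - mulop f' = mulop (fun x => f x + (-1) * f' x) := by
    have hs : BM (fun x => (-1 : ℂ) * f' x) := by
      obtain ⟨hm, ⟨C, hC⟩, -⟩ := hf1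
      exact ⟨hm.const_mul _, C, fun x => by simpa using hC x⟩
    rw [← mulop_add (BM_of_BV hf) hs, ← mulop_smul (BM_of_BC hf1)]
    simp [sub_eq_add_neg]
  have e3 : Fm σ * mulop f - Fm σ' * mulop f' =
      (Fm σ - Fm σ') * mulop f + Fm σ' * (mulop f - mulop f') := by
    rw [sub_mul, mul_sub]
    abel
  have n1 : ‖Fm σ - Fm σ'‖ ≤ η := by
    rw [e1]; exact Fm_norm hσ2 η hσ3
  have n2 : ‖mulop f - mulop f'‖ ≤ η := by
    rw [e2]; exact mulop_norm hf2 η hf3
  have n3 : ‖mulop f‖ ≤ Cf := mulop_norm (BM_of_BV hf) Cf hCf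
  have n4 : ‖Fm σ'‖ ≤ Cσ := Fm_norm (BM_of_BC hσ1) Cσ (fun x => (hσ4 x).trans (hCσ x))
  rw [e3]
  calc ‖(Fm σ - Fm σ') * mulop f + Fm σ' * (mulop f - mulop f')‖
      ≤ ‖(Fm σ - Fm σ') * mulop f‖ + ‖Fm σ' * (mulop f - mulop f')‖ := norm_add_le _ _
    _ ≤ ‖Fm σ - Fm σ'‖ * ‖mulop f‖ + ‖Fm σ'‖ * ‖mulop f - mulop f'‖ :=
        add_le_add (norm_mul_le _ _) (norm_mul_le _ _)
    _ ≤ η * Cf + Cσ * η := by
        apply add_le_add
        · exact mul_le_mul n1 n3 (norm_nonneg _) hη0.le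
        · exact mul_le_mul n4 n2 (norm_nonneg _) hCσ0
    _ ≤ ε := by
        have : η * (Cσ + Cf + 1) = ε := by
          rw [hη]; field_simp
        nlinarith
end Pool.Agent.Helper41.CE
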