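import Pool.Agent.Helper41.CE.TDefs


/-!
# Semiclassical eigenvalue bounds for Schroedinger operators: definitions
-/

open MeasureTheory Filter Topology Set
open scoped ENNReal NNReal ContDiff

namespace Pool.Agent.Helper41.CE

/-! ## TARGETS: prove these (statements must not be changed; helper lemmas are welcome) -/

theorem fred_alt {X : Type*} [NormedAddCommGroup X] [NormedSpace ℂ X] [CompleteSpace X]
    (K : X →L[ℂ] X) (hK : IsCompactOperator K) : IsUnit (1 + K) ∨ ∃ x : X, x ≠ 0 ∧ x + K x = 0 := by
  have hne : (-1 : ℂ) ≠ 0 := by norm_num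
  rcases hK.hasEigenvalue_or_mem_resolventSet hne with h | h
  · right
    obtain ⟨x, hx⟩ := h.exists_hasEigenvector
    refine ⟨x, hx.2, ?_⟩
    have h1 : K x = (-1 : ℂ) • x := hx.apply_eq_smul
    rw [h1]
    simp
  · left
    rw [spectrum.mem_resolventSet_iff] at h
    have h2 : (1 + K) = -(algebraMap ℂ (X →L[ℂ] X) (-1) - K) := by
      rw [map_neg, map_one]
      abel
    rw [h2]
    exact h.neg

end Pool.Agent.Helper41.CE
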