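import Pool.Agent.Helper41.CE.TDefs


/-!
# Semiclassical eigenvalue bounds for Schroedinger operators: definitions
-/

open MeasureTheory Filter Topology Set
open scoped ENNReal NNReal ContDiff

namespace Pool.Agent.Helper41.CE

/-! ## TARGETS: prove these (statements must not be changed; helper lemmas are welcome) -/

theorem fr1 {X : Type*} [NormedAddCommGroup X] [InnerProductSpace ℂ X] [CompleteSpace X]
    (T : X →L[ℂ] X) (hT : IsCompactOperator T) (ε : ℝ) (hε : 0 < ε) :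
    ∃ (F : Submodule ℂ X) (_ : FiniteDimensional ℂ F) (_ : F.HasOrthogonalProjection),
      ‖T - F.starProjection * T‖ ≤ ε := by
  obtain ⟨C, hC, hTC⟩ := IsCompactOperator.image_closedBall_subset_compact
    (f := (T : X →ₗ[ℂ] X)) hT 1
  obtain ⟨t, htf, ht⟩ := (Metric.totallyBounded_iff.mp hC.totallyBounded) ε hε
  let F := Submodule.span ℂ t
  have h1 : FiniteDimensional ℂ F := FiniteDimensional.span_of_finite ℂ htf
  have h2 : CompleteSpace F := FiniteDimensional.complete ℂ F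
  refine ⟨F, h1, inferInstance, ?_⟩
  refine ContinuousLinearMap.opNorm_le_of_unit_norm hε.le ?_
  intro x hx
  have h1 : T x ∈ C := hTC ⟨x, by simp [hx], rfl⟩
  obtain ⟨y, hy, hxy⟩ := mem_iUnion₂.mp (ht h1)
  have hyF : F.starProjection y = y :=
    Submodule.starProjection_eq_self_iff.mpr (Submodule.subset_span hy)
  have h2 : (T - F.starProjection * T) x = Fᗮ.starProjection (T x - y) := by
    rw [Submodule.starProjection_orthogonal_val, map_sub, hyF]
    show T x - F.starProjection (T x) = _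
    abel
  rw [h2]
  calc _ ≤ ‖T x - y‖ := Submodule.norm_starProjection_apply_le _ _
    _ ≤ ε := by rw [← dist_eq_norm]; exact (Metric.mem_ball.mp hxy).le

theorem fr2 {U V : Type*} [NormedAddCommGroup U] [NormedSpace ℂ U] [NormedAddCommGroup V]
    [NormedSpace ℂ V] (A : U →L[ℂ] V) (B : V →L[ℂ] U) (h : IsUnit (1 + A ∘L B : V →L[ℂ] V)) :
    IsUnit (1 + B ∘L A : U →L[ℂ] U) := by
  obtain ⟨C, hC⟩ := h
  have h1 : ∀ v, (↑C⁻¹ : V →L[ℂ] V) v + A (B ((↑C⁻¹ : V →L[ℂ] V) v)) = v := by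
    intro v
    have := congrArg (fun f : V →L[ℂ] V => f v) (C.mul_inv)
    rw [hC] at this
    exact this
  have h2 : ∀ v, (↑C⁻¹ : V →L[ℂ] V) (v + A (B v)) = v := by
    intro v
    have := congrArg (fun f : V →L[ℂ] V => f v) (C.inv_mul)
    rw [hC] at this
    exact this
  refine ⟨⟨1 + B ∘L A, 1 - B ∘L (↑C⁻¹ : V →L[ℂ] V) ∘L A, ?_, ?_⟩, rfl⟩
  · ext u
    show (u - B ((↑C⁻¹ : V →L[ℂ] V) (A u))) + B (A (u - B ((↑C⁻¹ : V →L[ℂ] V) (A u)))) = u
    have h3 := congrArg B (h1 (A u))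
    rw [map_add] at h3
    rw [map_sub, map_sub]
    rw [← h3]
    abel
  · ext u
    show (u + B (A u)) - B ((↑C⁻¹ : V →L[ℂ] V) (A (u + B (A u)))) = u
    rw [map_add, h2]
    abel

theorem fr3 {F : Type*} [NormedAddCommGroup F] [NormedSpace ℂ F] [FiniteDimensional ℂ F]
    (f : F →L[ℂ] F) : IsUnit f ↔ LinearMap.det (f : F →ₗ[ℂ] F) ≠ 0 := by
  rw [← isUnit_iff_ne_zero, ← LinearMap.isUnit_iff_isUnit_det]
  have := MulEquiv.isUnit_map (Module.End.toContinuousLinearMap F (𝕜 := ℂ)) (x := (f : F →ₗ[ℂ] F))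
  rw [← this]
  rfl

theorem fr4 {F : Type*} [NormedAddCommGroup F] [NormedSpace ℂ F] [FiniteDimensional ℂ F] :
    Differentiable ℂ (fun f : F →L[ℂ] F => LinearMap.det (f : F →ₗ[ℂ] F)) := by
  classical
  let b := Module.finBasis ℂ F
  have h : (fun f : F →L[ℂ] F => LinearMap.det (f : F →ₗ[ℂ] F)) =
      fun f : F →L[ℂ] F => ∑ σ : Equiv.Perm (Fin (Module.finrank ℂ F)),
        ((Equiv.Perm.sign σ : ℤ) : ℂ) * ∏ i, (LinearMap.toContinuousLinearMap (b.coord (σ i))) (f (b i)) := by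
    funext f
    rw [← LinearMap.det_toMatrix b, Matrix.det_apply']
    simp only [LinearMap.toMatrix_apply]
    rfl
  rw [h]
  fun_prop

theorem fr5 {X : Type*} [NormedAddCommGroup X] [InnerProductSpace ℂ X] [CompleteSpace X]
    (K : ℂ → X →L[ℂ] X) (w : ℂ) (hK : ∀ᶠ z in 𝓝 w, DifferentiableAt ℂ K z)
    (hKc : IsCompactOperator (K w)) :
    ∃ D : ℂ → ℂ, AnalyticAt ℂ D w ∧ ∀ᶠ z in 𝓝 w, (IsUnit (1 + K z) ↔ D z ≠ 0) := by
  obtain ⟨F, i1, i2, hF⟩ := fr1 (K w) hKc (1 / 2) (by norm_num)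
  let B : ℂ → X →L[ℂ] X := fun z => 1 + (K z - F.starProjection * K z)
  have hB : ∀ᶠ z in 𝓝 w, IsUnit (B z) := by
    have hc : ContinuousAt (fun z => ‖K z - F.starProjection * K z‖) w := by
      have := hK.self_of_nhds.continuousAt
      exact (this.sub (continuousAt_const.mul this)).norm
    have h1 : ‖K w - F.starProjection * K w‖ < 1 := lt_of_le_of_lt hF (by norm_num)
    filter_upwards [hc.eventually (gt_mem_nhds h1)] with z hz
    have h2 : B z = 1 - (-(K z - F.starProjection * K z)) := by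
      show 1 + (K z - F.starProjection * K z) = _
      rw [sub_neg_eq_add]
    rw [h2]
    apply isUnit_one_sub_of_norm_lt_one
    rw [norm_neg]
    exact hz
  let A : ℂ → X →L[ℂ] F := fun z => F.orthogonalProjectionOnto ∘L (K z * Ring.inverse (B z))
  let D : ℂ → ℂ := fun z =>
    LinearMap.det ((1 + (A z) ∘L F.subtypeL : F →L[ℂ] F) : F →ₗ[ℂ] F)
  refine ⟨D, ?_, ?_⟩
  · rw [Complex.analyticAt_iff_eventually_differentiableAt]
    filter_upwards [hK, hB] with z hKz hBz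
    have h1 : DifferentiableAt ℂ B z :=
      (differentiableAt_const _).add (hKz.sub ((differentiableAt_const _).mul hKz))
    have h2 : DifferentiableAt ℂ (fun z => Ring.inverse (B z)) z :=
      (differentiableAt_inverse (𝕜 := ℂ) hBz).comp z h1
    have h3 : DifferentiableAt ℂ (fun z => K z * Ring.inverse (B z)) z := hKz.mul h2
    have h4 : DifferentiableAt ℂ A z := by
      exact (differentiableAt_const _).clm_comp h3
    have h5 : DifferentiableAt ℂ (fun z => (1 + (A z) ∘L F.subtypeL : F →L[ℂ] F)) z :=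
      (differentiableAt_const _).add (h4.clm_comp (differentiableAt_const _))
    exact (fr4 (F := F)).differentiableAt.comp z h5
  · filter_upwards [hB] with z hBz
    have h1 : 1 + K z = (1 + F.subtypeL ∘L A z) * B z := by
      have h2 : (F.subtypeL ∘L A z) * B z = F.starProjection * K z := by
        have h3 : F.subtypeL ∘L A z = F.starProjection * (K z * Ring.inverse (B z)) := rfl
        rw [h3, mul_assoc, mul_assoc, Ring.inverse_mul_cancel _ hBz, mul_one]
      rw [add_mul, h2, one_mul]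
      show _ = 1 + (K z - F.starProjection * K z) + _
      abel
    have h2 : IsUnit (1 + K z) ↔ IsUnit (1 + F.subtypeL ∘L A z : X →L[ℂ] X) := by
      obtain ⟨u, hu⟩ := hBz
      rw [h1, ← hu]
      exact Units.isUnit_mul_units _ u
    rw [h2]
    show _ ↔ LinearMap.det ((1 + (A z) ∘L F.subtypeL : F →L[ℂ] F) : F →ₗ[ℂ] F) ≠ 0
    rw [← fr3]
    exact ⟨fr2 _ _, fr2 _ _⟩

theorem an_fred {X : Type*} [NormedAddCommGroup X] [InnerProductSpace ℂ X] [CompleteSpace X]
    (Ω : Set ℂ) (hΩ : IsOpen Ω) (hc : IsPreconnected Ω) (K : ℂ → X →L[ℂ] X)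
    (hK : DifferentiableOn ℂ K Ω) (hKc : ∀ z ∈ Ω, IsCompactOperator (K z))
    (z1 : ℂ) (hz1 : z1 ∈ Ω) (h1 : IsUnit (1 + K z1)) (z0 : ℂ) (hz0 : z0 ∈ Ω) :
    ∀ᶠ z in 𝓝[≠] z0, IsUnit (1 + K z) := by
  have hdich : ∀ w ∈ Ω, (∀ᶠ z in 𝓝 w, ¬ IsUnit (1 + K z)) ∨ ∀ᶠ z in 𝓝[≠] w, IsUnit (1 + K z) := by
    intro w hw
    have hd : ∀ᶠ z in 𝓝 w, DifferentiableAt ℂ K z := by
      filter_upwards [hΩ.mem_nhds hw] with z hz
      exact hK.differentiableAt (hΩ.mem_nhds hz)
    obtain ⟨D, hD, hD2⟩ := fr5 K w hd (hKc w hw)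
    rcases hD.eventually_eq_zero_or_eventually_ne_zero with h | h
    · left
      filter_upwards [hD2, h] with z hz1 hz2
      rw [hz1]
      exact fun h => h hz2
    · right
      filter_upwards [hD2.filter_mono nhdsWithin_le_nhds, h] with z hz1 hz2
      exact hz1.mpr hz2
  set U1 : Set ℂ := {w | ∀ᶠ z in 𝓝 w, ¬ IsUnit (1 + K z)} with hU1
  set U2 : Set ℂ := {w | ∀ᶠ z in 𝓝[≠] w, IsUnit (1 + K z)} with hU2
  have o1 : IsOpen U1 := isOpen_iff_eventually.mpr fun w hw => eventually_eventually_nhds.mpr hw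
  have o2 : IsOpen U2 := by
    rw [isOpen_iff_mem_nhds]
    intro w hw
    have hw' : ∀ᶠ z in 𝓝[≠] w, IsUnit (1 + K z) := hw
    rw [eventually_nhdsWithin_iff] at hw'
    obtain ⟨V, hV, hVo, hwV⟩ := eventually_nhds_iff.mp hw'
    filter_upwards [hVo.mem_nhds hwV] with y hy
    show ∀ᶠ z in 𝓝[≠] y, IsUnit (1 + K z)
    by_cases hyw : y = w
    · rw [hyw]; exact hw
    · have h2 : V \ {w} ∈ 𝓝 y := (hVo.sdiff isClosed_singleton).mem_nhds ⟨hy, hyw⟩
      filter_upwards [nhdsWithin_le_nhds h2] with z hz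
      exact hV z hz.1 hz.2
  have h12 : ∀ w, w ∈ U1 → w ∈ U2 → False := by
    intro w hw1 hw2
    have a1 : ∀ᶠ z in 𝓝[≠] w, ¬ IsUnit (1 + K z) := Filter.Eventually.filter_mono nhdsWithin_le_nhds hw1
    obtain ⟨z, hz1, hz2⟩ := (a1.and hw2).exists
    exact hz1 hz2
  have hsub : Ω ⊆ U1 ∪ U2 := fun w hw => hdich w hw
  have hz1' : z1 ∈ U2 := by
    rcases hsub hz1 with h | h
    · have h' : ∀ᶠ z in 𝓝 z1, ¬ IsUnit (1 + K z) := h
      exact absurd h1 h'.self_of_nhds
    · exact h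
  by_contra hcon
  have hz0' : z0 ∈ U1 := by
    rcases hsub hz0 with h | h
    · exact h
    · exact absurd h hcon
  obtain ⟨w, -, hw1, hw2⟩ := hc U1 U2 o1 o2 hsub ⟨z0, hz0, hz0'⟩ ⟨z1, hz1, hz1'⟩
  exact h12 w hw1 hw2

end Pool.Agent.Helper41.CE
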