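import Pool.Agent.Helper41.CE.TDefs


/-!
# Semiclassical eigenvalue bounds for Schroedinger operators: definitions
-/

open MeasureTheory Filter Topology Set
open scoped ENNReal NNReal ContDiff

namespace Pool.Agent.Helper41.CE

theorem persist_unit {R : Type*} [NormedRing R] [CompleteSpace R] (T S P : R)
    (hSP : S * P = 1) (hPS : P * S = 1) (hR : ‖S * (T - P)‖ ≤ 1 / 2) :
    IsUnit T ∧ ‖Ring.inverse T‖ ≤ 2 * ‖S‖ := by
  have h1 : S * T = 1 - (-(S * (T - P))) := by
    rw [mul_sub, hSP]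
    abel
  have h2 : IsUnit (S * T) := by
    rw [h1]
    apply isUnit_one_sub_of_norm_lt_one
    rw [norm_neg]
    linarith
  have hP : IsUnit P := ⟨⟨P, S, hPS, hSP⟩, rfl⟩
  have hT : IsUnit T := by
    have h3 : T = P * (S * T) := by rw [← mul_assoc, hPS, one_mul]
    rw [h3]
    exact hP.mul h2
  refine ⟨hT, ?_⟩
  have h4 : Ring.inverse T = S - S * (T - P) * Ring.inverse T := by
    have h5 : S * (T - P) * Ring.inverse T = S - Ring.inverse T := by
      rw [mul_sub, hSP, sub_mul, mul_assoc, Ring.mul_inverse_cancel T hT, mul_one, one_mul]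
    rw [h5]
    abel
  have h6 : ‖Ring.inverse T‖ ≤ ‖S‖ + 1 / 2 * ‖Ring.inverse T‖ := by
    calc ‖Ring.inverse T‖ = ‖S - S * (T - P) * Ring.inverse T‖ := by rw [← h4]
      _ ≤ ‖S‖ + ‖S * (T - P) * Ring.inverse T‖ := norm_sub_le _ _
      _ ≤ ‖S‖ + ‖S * (T - P)‖ * ‖Ring.inverse T‖ := by
          gcongr
          exact norm_mul_le _ _
      _ ≤ ‖S‖ + 1 / 2 * ‖Ring.inverse T‖ := by gcongr
  linarith

/-! ## TARGETS: prove these (statements must not be changed; helper lemmas are welcome) -/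

theorem persist {X : Type*} [NormedAddCommGroup X] [NormedSpace ℂ X] [CompleteSpace X]
    {ι : Type*} (l : Filter ι) (Ω : Set ℂ) (hΩ : IsOpen Ω) (z0 : ℂ) (r : ℝ) (hr : 0 < r)
    (hD : Metric.closedBall z0 r ⊆ Ω) (M A : ι → ℂ → X →L[ℂ] X) (B : ℂ → X →L[ℂ] X)
    (hM : ∀ᶠ i in l, DifferentiableOn ℂ (M i) Ω) (hB : ContinuousOn B (Metric.sphere z0 r))
    (hBu : ∀ z ∈ Metric.sphere z0 r, IsUnit (B z)) (C : ℝ)
    (hA : ∀ᶠ i in l, ∀ z ∈ Metric.sphere z0 r, ∃ A' : X →L[ℂ] X,
      A' * A i z = 1 ∧ A i z * A' = 1 ∧ ‖A'‖ ≤ C)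
    (hR : ∀ ε : ℝ, 0 < ε → ∀ᶠ i in l, ∀ z ∈ Metric.closedBall z0 r, ‖M i z - A i z * B z‖ ≤ ε)
    (hz0 : ∃ x : X, x ≠ 0 ∧ B z0 x = 0) :
    ∀ᶠ i in l, ∃ z ∈ Metric.closedBall z0 r, ¬ IsUnit (M i z) := by
  obtain ⟨x, hx0, hx⟩ := hz0
  have hxn : 0 < ‖x‖ := norm_pos_iff.2 hx0
  -- bound for the inverse of B
  have hinvB : ContinuousOn (fun z => Ring.inverse (B z)) (Metric.sphere z0 r) := by
    intro z hz
    obtain ⟨b, hb⟩ := hBu z hz
    have h1 : ContinuousAt Ring.inverse (B z) := by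
      rw [← hb]
      exact NormedRing.inverse_continuousAt b
    exact h1.comp_continuousWithinAt (hB z hz)
  obtain ⟨C2, hC2⟩ := (isCompact_sphere z0 r).exists_bound_of_continuousOn hinvB
  set c : ℝ := max C 0 with hc
  set c2 : ℝ := max C2 0 with hc2
  have hc0 : 0 ≤ c := le_max_right _ _
  have hc20 : 0 ≤ c2 := le_max_right _ _
  set C3 : ℝ := 2 * (c2 * c) + 1 with hC3
  have hC30 : 0 < C3 := by positivity
  have hε : 0 < 1 / (2 * C3) := by positivity
  filter_upwards [hM, hA, hR _ hε] with i hMi hAi hRi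
  by_contra hcon
  push Not at hcon
  have hsphere : ∀ z ∈ Metric.sphere z0 r, ‖Ring.inverse (M i z)‖ ≤ C3 := by
    intro z hz
    obtain ⟨A', hA1, hA2, hA3⟩ := hAi z hz
    have hBz := hBu z hz
    have hS : ‖Ring.inverse (B z) * A'‖ ≤ c2 * c := by
      refine (norm_mul_le _ _).trans ?_
      exact mul_le_mul ((hC2 z hz).trans (le_max_left _ _)) (hA3.trans (le_max_left _ _))
        (norm_nonneg _) hc20
    have hRz := hRi z (Metric.sphere_subset_closedBall hz)
    have h1 : ‖Ring.inverse (B z) * A' * (M i z - A i z * B z)‖ ≤ 1 / 2 := by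
      refine (norm_mul_le _ _).trans ?_
      calc ‖Ring.inverse (B z) * A'‖ * ‖M i z - A i z * B z‖
          ≤ (c2 * c) * (1 / (2 * C3)) := mul_le_mul hS hRz (norm_nonneg _) (by positivity)
        _ ≤ 1 / 2 := by
            rw [mul_one_div, div_le_iff₀ (by positivity)]
            have : 0 ≤ c2 * c := by positivity
            linarith
    have h2 := persist_unit (M i z) (Ring.inverse (B z) * A') (A i z * B z) (by
      rw [mul_assoc, ← mul_assoc A', hA1, one_mul, Ring.inverse_mul_cancel _ hBz]) (by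
      rw [mul_assoc, ← mul_assoc (B z), Ring.mul_inverse_cancel _ hBz, one_mul, hA2]) h1
    refine h2.2.trans ?_
    linarith
  have hdiff : DifferentiableOn ℂ (fun z => Ring.inverse (M i z)) (closure (Metric.ball z0 r)) := by
    rw [closure_ball z0 hr.ne']
    intro z hz
    have h1 : DifferentiableAt ℂ (M i) z := hMi.differentiableAt (hΩ.mem_nhds (hD hz))
    have h2 : DifferentiableAt ℂ Ring.inverse (M i z) := differentiableAt_inverse (hcon z hz)
    exact (h2.comp z h1).differentiableWithinAt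
  have hmax := Complex.norm_le_of_forall_mem_frontier_norm_le Metric.isBounded_ball
    hdiff.diffContOnCl (C := C3) (by
      intro z hz
      rw [frontier_ball z0 hr.ne'] at hz
      exact hsphere z hz) (z := z0) (subset_closure (Metric.mem_ball_self hr))
  have hz0c : z0 ∈ Metric.closedBall z0 r := Metric.mem_closedBall_self hr.le
  have h3 : M i z0 x = (M i z0 - A i z0 * B z0) x := by
    rw [ContinuousLinearMap.sub_apply, ContinuousLinearMap.mul_apply, hx, map_zero, sub_zero]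
  have h4 : ‖M i z0 x‖ ≤ 1 / (2 * C3) * ‖x‖ := by
    rw [h3]
    exact (ContinuousLinearMap.le_opNorm _ _).trans
      (mul_le_mul_of_nonneg_right (hRi z0 hz0c) (norm_nonneg _))
  have h5 : x = Ring.inverse (M i z0) (M i z0 x) := by
    rw [← ContinuousLinearMap.mul_apply, Ring.inverse_mul_cancel _ (hcon z0 hz0c)]
    rfl
  have h6 : ‖x‖ ≤ C3 * (1 / (2 * C3) * ‖x‖) := by
    calc ‖x‖ = ‖Ring.inverse (M i z0) (M i z0 x)‖ := by rw [← h5]
      _ ≤ ‖Ring.inverse (M i z0)‖ * ‖M i z0 x‖ := ContinuousLinearMap.le_opNorm _ _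
      _ ≤ C3 * (1 / (2 * C3) * ‖x‖) := mul_le_mul hmax h4 (norm_nonneg _) hC30.le
  have h7 : C3 * (1 / (2 * C3) * ‖x‖) = ‖x‖ / 2 := by
    field_simp
  rw [h7] at h6
  linarith

end Pool.Agent.Helper41.CE
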