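import Pool.Agent.Helper41.CE.TDefs
import Pool.Agent.Helper41.CE.CU01
import Pool.Agent.Helper41.CE.CU02

/-!
# Semiclassical eigenvalue bounds for Schroedinger operators: definitions
-/

open MeasureTheory Filter Topology Set
open scoped ENNReal NNReal ContDiff

namespace Pool.Agent.Helper41.CE


/-! ## TARGETS: prove these (statements must not be changed; helper lemmas are welcome) -/

theorem bm_eo {n : ℕ} (θ : ℝ) :
    BM (fun X : E (n + 1) => Complex.exp (Complex.I * ((θ * X 0 : ℝ) : ℂ))) := by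
  refine ⟨?_, 1, ?_⟩
  · apply Continuous.measurable
    fun_prop
  · intro x
    rw [Complex.norm_exp_I_mul_ofReal]

/-- translation on `L²` -/
noncomputable def tr {d : ℕ} (b : E d) : L2 d →ₗᵢ[ℂ] L2 d :=
  Lp.compMeasurePreservingₗᵢ ℂ (fun x => x - b) (measurePreserving_sub_right volume b)

theorem tr_spec {d : ℕ} (b : E d) (u : L2 d) : (tr b u : E d → ℂ) =ᵐ[volume] fun x => u (x - b) :=
  Lp.coeFn_compMeasurePreserving u _

theorem tr_key {n : ℕ} (θ : ℝ) (v : L2 (n + 1)) :
    (FT (n + 1)).symm (tr ((θ / (2 * Real.pi)) • EuclideanSpace.single 0 1) v) =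
      eo θ ((FT (n + 1)).symm v) := by
  set b : E (n + 1) := (θ / (2 * Real.pi)) • EuclideanSpace.single 0 1 with hb
  have hdense := SchwartzMap.denseRange_toLpCLM (E := E (n + 1)) (F := ℂ) (p := 2)
    (μ := volume) ENNReal.ofNat_ne_top
  refine hdense.induction_on (p := fun v => (FT (n + 1)).symm (tr b v) =
      eo θ ((FT (n + 1)).symm v)) v ?_ ?_
  · apply isClosed_eq
    · exact (FT (n + 1)).symm.continuous.comp (tr b).continuous
    · exact (eo θ).continuous.comp (FT (n + 1)).symm.continuous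
  · intro f
    have h1 : tr b (SchwartzMap.toLpCLM ℝ ℂ 2 volume f) =
        (f.compSubConstCLM ℂ b).toLp 2 := by
      apply Lp.ext
      have e1 := tr_spec b (SchwartzMap.toLpCLM ℝ ℂ 2 volume f)
      have e2 := SchwartzMap.coeFn_toLp (f.compSubConstCLM ℂ b) 2 volume
      have e3 : ∀ᵐ x ∂(volume : Measure (E (n + 1))),
          (SchwartzMap.toLpCLM ℝ ℂ 2 volume f : L2 (n + 1)) (x - b) = f (x - b) :=
        (measurePreserving_sub_right volume b).quasiMeasurePreserving.ae
          (SchwartzMap.coeFn_toLp f 2 volume)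
      filter_upwards [e1, e2, e3] with x h1 h2 h3
      rw [h1, h2, h3]
      rfl
    have h2 : ∀ g : SchwartzMap (E (n + 1)) ℂ, (FT (n + 1)).symm (g.toLp 2) =
        (FourierTransformInv.fourierInv g).toLp 2 := fun g => SchwartzMap.toLp_fourierInv_eq g
    show (FT (n + 1)).symm (tr b (SchwartzMap.toLpCLM ℝ ℂ 2 volume f)) =
      eo θ ((FT (n + 1)).symm (f.toLp 2))
    rw [h1, h2, h2]
    apply Lp.ext
    have e1 := SchwartzMap.coeFn_toLp (FourierTransformInv.fourierInv (f.compSubConstCLM ℂ b)) 2 volume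
    have e2 := SchwartzMap.coeFn_toLp (FourierTransformInv.fourierInv f) 2 volume
    have e3 := mulop_spec (bm_eo θ) ((FourierTransformInv.fourierInv f).toLp 2)
    unfold eo
    filter_upwards [e1, e2, e3] with x h1 h2 h3
    rw [h1, h3, h2]
    rw [SchwartzMap.fourierInv_coe, SchwartzMap.fourierInv_coe, Real.fourierInv_eq', Real.fourierInv_eq']
    have hin : 2 * Real.pi * inner ℝ b x = θ * x 0 := by
      rw [hb, real_inner_smul_left, EuclideanSpace.inner_single_left]
      simp only [map_one, one_mul]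
      field_simp
    have hF : ∀ w : E (n + 1), Complex.exp ((↑(2 * Real.pi * inner ℝ w x) : ℂ) * Complex.I) •
        (f.compSubConstCLM ℂ b) w = (fun w => Complex.exp (Complex.I * ((θ * x 0 : ℝ) : ℂ)) *
          (Complex.exp ((↑(2 * Real.pi * inner ℝ w x) : ℂ) * Complex.I) • f w)) (w - b) := by
      intro w
      show _ = Complex.exp (Complex.I * ((θ * x 0 : ℝ) : ℂ)) *
          (Complex.exp ((↑(2 * Real.pi * inner ℝ (w - b) x) : ℂ) * Complex.I) • f (w - b))
      rw [SchwartzMap.compSubConstCLM_apply, smul_eq_mul, smul_eq_mul, ← mul_assoc, ← Complex.exp_add,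
        ← hin, inner_sub_left]
      congr 2
      push_cast
      ring
    simp_rw [hF]
    rw [integral_sub_right_eq_self
      (fun w => Complex.exp (Complex.I * ((θ * x 0 : ℝ) : ℂ)) *
          (Complex.exp ((↑(2 * Real.pi * inner ℝ w x) : ℂ) * Complex.I) • f w)) b,
      integral_const_mul]

theorem eo_norm {n : ℕ} (θ : ℝ) : ‖(eo θ : L2 (n + 1) →L[ℂ] L2 (n + 1))‖ ≤ 1 := by
  apply mulop_norm (bm_eo θ)
  intro x
  rw [Complex.norm_exp_I_mul_ofReal]

theorem eo_add {n : ℕ} (θ η : ℝ) :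
    (eo θ : L2 (n + 1) →L[ℂ] L2 (n + 1)) * eo η = eo (θ + η) := by
  unfold eo
  rw [mulop_mul (bm_eo θ) (bm_eo η)]
  congr 1
  funext x
  rw [← Complex.exp_add]
  congr 1
  push_cast
  ring

theorem eo_mulop {n : ℕ} (θ : ℝ) {f : E (n + 1) → ℂ} (hf : BM f) :
    (eo θ : L2 (n + 1) →L[ℂ] L2 (n + 1)) * mulop f = mulop f * eo θ := by
  unfold eo
  rw [mulop_mul (bm_eo θ) hf, mulop_mul hf (bm_eo θ)]
  congr 1
  funext x
  ring

theorem eo_Fm {n : ℕ} (θ : ℝ) {σ : E (n + 1) → ℂ} (hσ : BM σ) :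
    (eo θ : L2 (n + 1) →L[ℂ] L2 (n + 1)) * Fm σ * eo (-θ) =
      Fm (fun ξ => σ (ξ - (θ / (2 * Real.pi)) • EuclideanSpace.single 0 1)) := by
  set b : E (n + 1) := (θ / (2 * Real.pi)) • EuclideanSpace.single 0 1 with hb
  have hσ' : BM (fun ξ => σ (ξ - b)) := by
    obtain ⟨h1, C, hC⟩ := hσ
    exact ⟨h1.comp (measurable_id.sub_const b), C, fun x => hC _⟩
  ext1 u
  have hbn : ((-θ) / (2 * Real.pi)) • EuclideanSpace.single 0 1 = -b := by
    rw [hb, neg_div, neg_smul]
  have h1 : eo (-θ) u = (FT (n + 1)).symm (tr (-b) (FT (n + 1) u)) := by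
    have := tr_key (-θ) (FT (n + 1) u)
    rw [hbn, LinearIsometryEquiv.symm_apply_apply] at this
    exact this.symm
  have h2 : Fm σ (eo (-θ) u) = (FT (n + 1)).symm (mulop σ (tr (-b) (FT (n + 1) u))) := by
    rw [LinearIsometryEquiv.eq_symm_apply, Fm_apply, h1, LinearIsometryEquiv.apply_symm_apply]
  have h3 : Fm (fun ξ => σ (ξ - b)) u = (FT (n + 1)).symm (mulop (fun ξ => σ (ξ - b)) (FT (n + 1) u)) := by
    rw [LinearIsometryEquiv.eq_symm_apply, Fm_apply]
  show eo θ (Fm σ (eo (-θ) u)) = _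
  rw [h2, h3, ← tr_key θ, ← hb]
  congr 1
  apply Lp.ext
  have e1 := tr_spec b (mulop σ (tr (-b) (FT (n + 1) u)))
  have e2 := mulop_spec hσ' (FT (n + 1) u)
  have q := (measurePreserving_sub_right (volume : Measure (E (n + 1))) b).quasiMeasurePreserving
  have e3 := q.ae (mulop_spec hσ (tr (-b) (FT (n + 1) u)))
  have e4 := q.ae (tr_spec (-b) (FT (n + 1) u))
  filter_upwards [e1, e2, e3, e4] with x h1 h2 h3 h4
  rw [h1, h2, h3, h4]
  simp

end Pool.Agent.Helper41.CE
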