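import Pool.Agent.Helper41.CE.TDefs
import Pool.Agent.Helper41.CE.CU01
import Pool.Agent.Helper41.CE.CU08

/-!
# Semiclassical eigenvalue bounds for Schroedinger operators: definitions
-/

open MeasureTheory Filter Topology Set
open scoped ENNReal NNReal ContDiff

namespace Pool.Agent.Helper41.CE


/-! ## TARGETS: prove these (statements must not be changed; helper lemmas are welcome) -/

theorem j28702_op {H : Type} [NormedAddCommGroup H] [InnerProductSpace ℂ H]
    (f : H →L[ℂ] H) (c : ℝ) (h : ∀ z : H, ‖z‖ ≤ 1 → ‖f z‖ ≤ c) : ‖f‖ ≤ c := by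
  rw [← ContinuousLinearMap.sSup_unitClosedBall_eq_norm]
  apply csSup_le
  · exact ⟨‖f 0‖, 0, Metric.mem_closedBall_self zero_le_one, rfl⟩
  · rintro _ ⟨z, hz, rfl⟩
    exact h z (mem_closedBall_zero_iff.1 hz)

theorem j28702_abs {H : Type} [NormedAddCommGroup H] [InnerProductSpace ℂ H] [CompleteSpace H]
    {ι : Type} (l : Filter ι) (U : ι → H →L[ℂ] H) (hU : ∀ θ, ‖U θ‖ ≤ 1)
    (hw : ∀ u v : H, Tendsto (fun θ => (inner ℂ (U θ u) v : ℂ)) l (𝓝 0))
    (K K' : H →L[ℂ] H) (hK : IsCompactOperator K) (hK' : IsCompactOperator K') :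
    Tendsto (fun θ => ‖K * U θ * K'‖) l (𝓝 0) := by
  have hA : IsCompact (closure (K' '' Metric.closedBall 0 1)) :=
    hK'.isCompact_closure_image_closedBall 1
  have hB : IsCompact (closure (K '' Metric.closedBall 0 ‖K'‖)) :=
    hK.isCompact_closure_image_closedBall ‖K'‖
  obtain ⟨R, hR⟩ : ∃ R : ℝ, R = ‖K‖ * ‖K'‖ := ⟨_, rfl⟩
  have hR0 : 0 ≤ R := by rw [hR]; positivity
  have hBR : ∀ z ∈ closure (K '' Metric.closedBall 0 ‖K'‖), ‖z‖ ≤ R := by
    intro z hz
    have : closure (K '' Metric.closedBall 0 ‖K'‖) ⊆ Metric.closedBall 0 R := by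
      apply closure_minimal _ Metric.isClosed_closedBall
      rintro _ ⟨u, hu, rfl⟩
      rw [mem_closedBall_zero_iff] at hu ⊢
      rw [hR]
      exact (K.le_opNorm u).trans (mul_le_mul_of_nonneg_left hu (norm_nonneg _))
    exact mem_closedBall_zero_iff.1 (this hz)
  rw [Metric.tendsto_nhds]
  intro ε' hε'
  obtain ⟨ε, hε, hεε⟩ : ∃ ε : ℝ, 0 < ε ∧ ε < ε' := ⟨ε' / 2, by linarith, by linarith⟩
  have hden : 0 < 1 + ‖K‖ * R + R := by positivity
  obtain ⟨η, hη, hηe⟩ : ∃ η : ℝ, 0 < η ∧ η * (1 + ‖K‖ * R + R) ≤ ε ^ 2 :=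
    ⟨ε ^ 2 / (1 + ‖K‖ * R + R), by positivity, by
      rw [div_mul_cancel₀ _ hden.ne']⟩
  obtain ⟨t', ht's, ht'f, ht'c⟩ := hA.finite_cover_balls hη
  obtain ⟨t, hts, htf, htc⟩ := hB.finite_cover_balls hη
  have hev : ∀ᶠ θ in l, ∀ k ∈ t', ∀ z ∈ t,
      ‖(inner ℂ (U θ k) (ContinuousLinearMap.adjoint K z) : ℂ)‖ ≤ η := by
    rw [eventually_all_finite ht'f]
    intro k _
    rw [eventually_all_finite htf]
    intro z _
    have h1 := (hw k (ContinuousLinearMap.adjoint K z)).norm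
    rw [norm_zero] at h1
    exact (h1.eventually (gt_mem_nhds hη)).mono fun θ h => h.le
  filter_upwards [hev] with θ hθ
  rw [dist_zero_right, norm_norm]
  refine lt_of_le_of_lt ?_ hεε
  have hb : ‖K * U θ * K'‖ ≤ ε := by
    apply j28702_op
    intro u hu
    have hk1 : K' u ∈ closure (K' '' Metric.closedBall 0 1) :=
      subset_closure ⟨u, mem_closedBall_zero_iff.2 hu, rfl⟩
    obtain ⟨k, hk, hkd⟩ : ∃ k ∈ t', dist (K' u) k < η := by
      have := ht'c hk1
      simpa only [mem_iUnion, Metric.mem_ball, exists_prop] using this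
    have hUn : ∀ x : H, ‖U θ x‖ ≤ ‖x‖ := fun x =>
      ((U θ).le_opNorm x).trans (mul_le_of_le_one_left (norm_nonneg _) (hU θ))
    have hK'u : ‖K' u‖ ≤ ‖K'‖ :=
      (K'.le_opNorm u).trans (mul_le_of_le_one_right (norm_nonneg _) hu)
    have hy1 : K (U θ (K' u)) ∈ closure (K '' Metric.closedBall 0 ‖K'‖) :=
      subset_closure ⟨_, mem_closedBall_zero_iff.2 ((hUn _).trans hK'u), rfl⟩
    obtain ⟨z, hz, hzd⟩ : ∃ z ∈ t, dist (K (U θ (K' u))) z < η := by
      have := htc hy1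
      simpa only [mem_iUnion, Metric.mem_ball, exists_prop] using this
    have hzR : ‖z‖ ≤ R := hBR z (hts hz)
    change ‖K (U θ (K' u))‖ ≤ ε
    generalize hy : K (U θ (K' u)) = y at *
    have hyR : ‖y‖ ≤ R := hBR y hy1
    have e1 : (inner ℂ y y : ℂ) = inner ℂ (U θ k) (ContinuousLinearMap.adjoint K z) +
        inner ℂ (U θ (K' u - k)) (ContinuousLinearMap.adjoint K z) + inner ℂ y (y - z) := by
      rw [← inner_add_left, ← map_add, add_sub_cancel, ContinuousLinearMap.adjoint_inner_right,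
        hy, ← inner_add_right, add_sub_cancel]
    have e2 : ‖y‖ ^ 2 = ‖(inner ℂ y y : ℂ)‖ := by
      rw [inner_self_eq_norm_sq_to_K, norm_pow]
      simp
    have e3 : ‖(inner ℂ (U θ (K' u - k)) (ContinuousLinearMap.adjoint K z) : ℂ)‖ ≤
        η * (‖K‖ * R) := by
      refine (norm_inner_le_norm _ _).trans ?_
      apply mul_le_mul _ _ (norm_nonneg _) hη.le
      · refine (hUn _).trans ?_
        rw [← dist_eq_norm]
        exact hkd.le
      · refine ((ContinuousLinearMap.adjoint K).le_opNorm z).trans ?_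
        rw [LinearIsometryEquiv.norm_map]
        exact mul_le_mul_of_nonneg_left hzR (norm_nonneg _)
    have e4 : ‖(inner ℂ y (y - z) : ℂ)‖ ≤ R * η := by
      refine (norm_inner_le_norm _ _).trans ?_
      apply mul_le_mul hyR _ (norm_nonneg _) hR0
      rw [← dist_eq_norm]
      exact hzd.le
    have e5 := hθ k hk z hz
    have e6 : ‖y‖ ^ 2 ≤ ε ^ 2 := by
      rw [e2, e1]
      refine (norm_add₃_le).trans ?_
      nlinarith
    exact (sq_le_sq₀ (norm_nonneg _) hε.le).1 e6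
  exact hb

theorem j28702_BM {n : ℕ} (θ : ℝ) :
    BM (fun X : E (n + 1) => Complex.exp (Complex.I * ((θ * X 0 : ℝ) : ℂ))) := by
  constructor
  · apply Continuous.measurable
    fun_prop
  · refine ⟨1, fun x => ?_⟩
    rw [Complex.norm_exp_I_mul_ofReal]

theorem j28702_weak {n : ℕ} (u v : L2 (n + 1)) :
    Tendsto (fun θ : ℝ => (inner ℂ (eo θ u) v : ℂ)) (cocompact ℝ) (𝓝 0) := by
  have h1 := tendsto_integral_exp_inner_smul_cocompact
    (fun x : E (n + 1) => (v : E (n + 1) → ℂ) x * (starRingEnd ℂ) ((u : E (n + 1) → ℂ) x))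
  have h2 : Tendsto (fun θ : ℝ => (θ / (2 * Real.pi)) •
      (EuclideanSpace.single 0 1 : E (n + 1))) (cocompact ℝ) (cocompact (E (n + 1))) := by
    rw [← Metric.cobounded_eq_cocompact, ← Metric.cobounded_eq_cocompact,
      ← tendsto_norm_atTop_iff_cobounded]
    have h3 : ∀ θ : ℝ, ‖(θ / (2 * Real.pi)) • (EuclideanSpace.single 0 1 : E (n + 1))‖ =
        ‖θ‖ / (2 * Real.pi) := by
      intro θ
      rw [norm_smul, PiLp.norm_single, norm_one, mul_one, norm_div,
        Real.norm_of_nonneg (by positivity : 0 ≤ 2 * Real.pi)]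
    simp_rw [h3]
    exact tendsto_norm_cobounded_atTop.atTop_div_const (by positivity)
  refine (h1.comp h2).congr fun θ => ?_
  rw [Function.comp_apply, MeasureTheory.L2.inner_def]
  apply integral_congr_ae
  filter_upwards [mulop_spec (j28702_BM θ) u] with x hx
  unfold eo
  rw [hx, RCLike.inner_apply, Circle.smul_def, Real.fourierChar_apply, map_mul,
    ← Complex.exp_conj, inner_smul_right, EuclideanSpace.inner_single_right]
  have e1 : ((2 * Real.pi * -(θ / (2 * Real.pi) * (1 * (starRingEnd ℝ) (x 0))) : ℝ) : ℂ) *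
      Complex.I = (starRingEnd ℂ) (Complex.I * ((θ * x 0 : ℝ) : ℂ)) := by
    rw [map_mul, Complex.conj_I, Complex.conj_ofReal]
    have : 2 * Real.pi * -(θ / (2 * Real.pi) * (1 * (starRingEnd ℝ) (x 0))) = -(θ * x 0) := by
      have hpi : Real.pi ≠ 0 := Real.pi_ne_zero
      simp only [conj_trivial]
      field_simp
    rw [this]
    push_cast
    ring
  rw [e1, smul_eq_mul]
  ring

theorem wn {n : ℕ} (K K' : L2 (n + 1) →L[ℂ] L2 (n + 1)) (hK : IsCompactOperator K)
    (hK' : IsCompactOperator K') :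
    Tendsto (fun θ : ℝ => ‖K * eo θ * K'‖) (cocompact ℝ) (𝓝 0) :=
  j28702_abs (cocompact ℝ) (fun θ => eo θ) eo_norm j28702_weak K K' hK hK'

end Pool.Agent.Helper41.CE
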