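import Pool.Agent.Helper41.CE.TDefs
import Pool.Agent.Helper41.CE.CU01

/-!
# Semiclassical eigenvalue bounds for Schroedinger operators: definitions
-/

open MeasureTheory Filter Topology Set
open scoped ENNReal NNReal ContDiff

namespace Pool.Agent.Helper41.CE


/-! ## TARGETS: prove these (statements must not be changed; helper lemmas are welcome) -/

theorem BM_shift {d : ℕ} {W : E d → ℂ} (hW : BC W) (h : E d) : BM (fun x => W (x - h)) := by
  obtain ⟨h1, ⟨C, hC⟩, _⟩ := hW
  exact ⟨h1.comp (measurable_id.sub_const h), C, fun x => hC _⟩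

theorem shift_pt {d : ℕ} {W : E d → ℂ} (hW : BC W) (u : L2 d) (C : ℝ) (hC : ∀ x, ‖W x‖ ≤ C)
    (hC0 : 0 < C) (ε : ℝ) (hε : 0 < ε) :
    ∀ᶠ h in cocompact (E d), ‖mulop (fun x => W (x - h)) u‖ < ε := by
  obtain ⟨R, hR⟩ := hW.2.2
  have hu : MemLp (u : E d → ℂ) 2 volume := Lp.memLp u
  have hε' : ENNReal.ofReal (ε / (2 * C)) ≠ 0 := by
    have : 0 < ε / (2 * C) := by positivity
    simpa using this
  obtain ⟨g, g1, g2, g3, g4⟩ := hu.exists_hasCompactSupport_eLpNorm_sub_le (by norm_num) hε'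
  set G : L2 d := g4.toLp g with hG
  have hGc : (G : E d → ℂ) =ᵐ[volume] g := g4.coeFn_toLp
  have hdist : ‖u - G‖ ≤ ε / (2 * C) := by
    rw [Lp.norm_def]
    have e1 : eLpNorm ((u - G : L2 d) : E d → ℂ) 2 volume = eLpNorm ((u : E d → ℂ) - g) 2 volume := by
      refine eLpNorm_congr_ae ?_
      filter_upwards [Lp.coeFn_sub u G, hGc] with x hx1 hx2
      rw [hx1, Pi.sub_apply, Pi.sub_apply, hx2]
    rw [e1]
    exact ENNReal.toReal_le_of_le_ofReal (by positivity) g2
  -- support of g is bounded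
  obtain ⟨R', hR'⟩ := g1.isCompact.isBounded.subset_closedBall (0 : E d)
  have hev : ∀ᶠ h in cocompact (E d), R + R' < ‖h‖ :=
    (tendsto_norm_cocompact_atTop (E := E d)).eventually_gt_atTop (R + R')
  filter_upwards [hev] with h hh
  have hz : mulop (fun x => W (x - h)) G = 0 := by
    apply Lp.ext
    filter_upwards [mulop_spec (BM_shift hW h) G, hGc, Lp.coeFn_zero ℂ 2 (volume : Measure (E d))]
      with x hx1 hx2 hx3
    rw [hx1, hx3, hx2, Pi.zero_apply]
    by_cases hx : R < ‖x - h‖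
    · rw [hR _ hx, zero_mul]
    · have hxx : x ∉ tsupport g := by
        intro hx'
        have := hR' hx'
        rw [mem_closedBall_zero_iff] at this
        have h3 : ‖h‖ ≤ ‖x - h‖ + ‖x‖ := by
          have := norm_sub_le x (x - h)
          simp only [sub_sub_cancel] at this
          linarith
        linarith [not_lt.1 hx]
      rw [image_eq_zero_of_notMem_tsupport hxx, mul_zero]
  have h1 : mulop (fun x => W (x - h)) u = mulop (fun x => W (x - h)) (u - G) := by
    rw [map_sub, hz, sub_zero]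
  rw [h1]
  have h2 := (mulop (fun x => W (x - h))).le_opNorm (u - G)
  have h3 := mulop_norm (BM_shift hW h) C (fun x => hC _)
  have h4 : ‖mulop (fun x => W (x - h))‖ * ‖u - G‖ ≤ C * (ε / (2 * C)) :=
    mul_le_mul h3 hdist (norm_nonneg _) hC0.le
  have h5 : C * (ε / (2 * C)) = ε / 2 := by field_simp
  linarith

theorem far {d : ℕ} (hd : 1 ≤ d) {W : E d → ℂ} (hW : BC W) (K : L2 d →L[ℂ] L2 d)
    (hK : IsCompactOperator K) :
    Tendsto (fun h : E d => ‖mulop (fun x => W (x - h)) * K‖) (cocompact (E d)) (𝓝 0) := by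
  obtain ⟨C0, hC0⟩ := hW.2.1
  set C : ℝ := |C0| + 1 with hCdef
  have hCpos : 0 < C := by positivity
  have hC : ∀ x, ‖W x‖ ≤ C := fun x => by
    have := hC0 x
    have := le_abs_self C0
    simp only [hCdef]; linarith
  obtain ⟨S, hS, hSK⟩ := hK.image_closedBall_subset_compact 1
  rw [Metric.tendsto_nhds]
  intro ε hε
  set η : ℝ := ε / (2 * (C + 1)) with hη
  have hηpos : 0 < η := by positivity
  obtain ⟨t, htS, htf, htc⟩ := hS.finite_cover_balls hηpos
  have hev : ∀ᶠ h in cocompact (E d), ∀ u ∈ t, ‖mulop (fun x => W (x - h)) u‖ < η := by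
    rw [Filter.eventually_all_finite htf]
    intro u hu
    exact shift_pt hW u C hC hCpos η hηpos
  filter_upwards [hev] with h hh
  rw [Real.dist_0_eq_abs, abs_of_nonneg (norm_nonneg _)]
  set T := mulop (fun x => W (x - h)) with hT
  have hTn : ‖T‖ ≤ C := mulop_norm (BM_shift hW h) C (fun x => hC _)
  have hball : ∀ v : L2 d, ‖v‖ ≤ 1 → ‖T (K v)‖ ≤ (C + 1) * η := by
    intro v hv
    have hKv : K v ∈ S := hSK ⟨v, by simpa using hv, rfl⟩
    have := htc hKv
    simp only [mem_iUnion, Metric.mem_ball] at this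
    obtain ⟨u, hu, hd'⟩ := this
    have e1 : T (K v) = T (K v - u) + T u := by rw [← map_add, sub_add_cancel]
    have e2 : ‖T (K v - u)‖ ≤ C * η := by
      refine (T.le_opNorm _).trans (mul_le_mul hTn ?_ (norm_nonneg _) hCpos.le)
      rw [← dist_eq_norm]; exact hd'.le
    have e3 := hh u hu
    calc ‖T (K v)‖ ≤ ‖T (K v - u)‖ + ‖T u‖ := by rw [e1]; exact norm_add_le _ _
      _ ≤ C * η + η := by linarith
      _ = (C + 1) * η := by ring
  have hle : ‖T * K‖ ≤ (C + 1) * η := by
    refine ContinuousLinearMap.opNorm_le_bound _ (by positivity) ?_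
    intro x
    by_cases hx : x = 0
    · simp [hx]
    have hxn : 0 < ‖x‖ := norm_pos_iff.2 hx
    have hy : ‖((‖x‖⁻¹ : ℝ) : ℂ) • x‖ ≤ 1 := by
      rw [norm_smul, Complex.norm_real, norm_inv, norm_norm, inv_mul_cancel₀ hxn.ne']
    have h1 := hball _ hy
    rw [map_smul, map_smul, norm_smul, Complex.norm_real, norm_inv, norm_norm,
      inv_mul_le_iff₀ hxn] at h1
    show ‖T (K x)‖ ≤ _
    linarith
  have h6 : (C + 1) * η = ε / 2 := by
    rw [hη]; field_simp
  linarith

end Pool.Agent.Helper41.CE
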