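import Pool.Agent.Helper41.CE.TDefs
import Pool.Agent.Helper41.CE.CU01
import Pool.Agent.Helper41.CE.CU02

/-!
# Semiclassical eigenvalue bounds for Schroedinger operators: definitions
-/

open MeasureTheory Filter Topology Set
open scoped ENNReal NNReal ContDiff

namespace Pool.Agent.Helper41.CE


/-! ## TARGETS: prove these (statements must not be changed; helper lemmas are welcome) -/

theorem lc_lin_map {d : ℕ} (A : E d ≃L[ℝ] E d) :
    ∃ c : ℝ, 0 < c ∧ Measure.map A (volume : Measure (E d)) = ENNReal.ofReal c • volume := by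
  have h1 : LinearMap.det ((A.toLinearEquiv : E d ≃ₗ[ℝ] E d) : E d →ₗ[ℝ] E d) ≠ 0 :=
    (LinearEquiv.isUnit_det' A.toLinearEquiv).ne_zero
  refine ⟨|(LinearMap.det ((A.toLinearEquiv : E d ≃ₗ[ℝ] E d) : E d →ₗ[ℝ] E d))⁻¹|,
    abs_pos.2 (inv_ne_zero h1), ?_⟩
  exact Measure.map_linearMap_addHaar_eq_smul_addHaar _ h1

theorem lc_lin_qmp {d : ℕ} (A : E d ≃L[ℝ] E d) :
    Measure.QuasiMeasurePreserving A (volume : Measure (E d)) volume := by
  obtain ⟨c, hc, h⟩ := lc_lin_map A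
  refine ⟨A.continuous.measurable, ?_⟩
  rw [h]
  exact Measure.smul_absolutelyContinuous

theorem lc_lin_eLp {d : ℕ} (A : E d ≃L[ℝ] E d) : ∃ C : ℝ≥0, ∀ u : E d → ℂ,
    AEStronglyMeasurable u volume →
      eLpNorm (fun x => u (A x)) 2 volume = C * eLpNorm u 2 volume := by
  obtain ⟨c, hc, h⟩ := lc_lin_map A
  refine ⟨(ENNReal.ofReal c ^ (1 / (2 : ℝ≥0∞)).toReal).toNNReal, fun u hu => ?_⟩
  have h1 : AEStronglyMeasurable u (Measure.map A volume) := by
    rw [h]
    exact hu.mono_ac Measure.smul_absolutelyContinuous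
  have h2 := eLpNorm_map_measure (p := 2) h1 (A.continuous.measurable.aemeasurable)
  have h3 : eLpNorm (fun x => u (A x)) 2 volume = eLpNorm (u ∘ A) 2 volume := rfl
  rw [h3, ← h2, h, eLpNorm_smul_measure_of_ne_top (by norm_num)]
  rw [smul_eq_mul, ENNReal.coe_toNNReal]
  exact ENNReal.rpow_ne_top_of_nonneg ENNReal.toReal_nonneg ENNReal.ofReal_ne_top

theorem lc_lin_exists {d : ℕ} (A : E d ≃L[ℝ] E d) : ∃ T : L2 d →L[ℂ] L2 d, ∀ u : L2 d,
    T u =ᵐ[volume] fun x => u (A x) := by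
  obtain ⟨C, hC⟩ := lc_lin_eLp A
  have hq := lc_lin_qmp A
  have hmem : ∀ u : L2 d, MemLp (fun x => u (A x)) 2 volume := by
    intro u
    refine ⟨(Lp.aestronglyMeasurable u).comp_quasiMeasurePreserving hq, ?_⟩
    rw [hC u (Lp.aestronglyMeasurable u)]
    exact ENNReal.mul_lt_top ENNReal.coe_lt_top (Lp.eLpNorm_lt_top u)
  let T0 : L2 d →ₗ[ℂ] L2 d :=
    { toFun := fun u => (hmem u).toLp _
      map_add' := by
        intro u v
        refine Lp.ext ?_
        have h1 := (hmem (u + v)).coeFn_toLp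
        have h2 := (hmem u).coeFn_toLp
        have h3 := (hmem v).coeFn_toLp
        have h4 := Lp.coeFn_add ((hmem u).toLp _) ((hmem v).toLp _)
        have h5 := hq.ae_eq_comp (Lp.coeFn_add u v)
        filter_upwards [h1, h2, h3, h4, h5] with x a1 a2 a3 a4 a5
        rw [a1, a4, Pi.add_apply, a2, a3]
        exact a5
      map_smul' := by
        intro r u
        refine Lp.ext ?_
        have h1 := (hmem (r • u)).coeFn_toLp
        have h2 := (hmem u).coeFn_toLp
        have h4 := Lp.coeFn_smul r ((hmem u).toLp _)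
        have h5 := hq.ae_eq_comp (Lp.coeFn_smul r u)
        filter_upwards [h1, h2, h4, h5] with x a1 a2 a4 a5
        rw [a1, RingHom.id_apply, a4, Pi.smul_apply, a2]
        exact a5 }
  refine ⟨T0.mkContinuous C ?_, fun u => (hmem u).coeFn_toLp⟩
  intro u
  show ‖(hmem u).toLp _‖ ≤ _
  rw [Lp.norm_toLp, hC u (Lp.aestronglyMeasurable u), ENNReal.toReal_mul, Lp.norm_def]
  simp

theorem compop_lin_spec {d : ℕ} (A : E d ≃L[ℝ] E d) (u : L2 d) :
    (compop A u : E d → ℂ) =ᵐ[volume] fun x => u (A x) := by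
  unfold compop
  rw [dif_pos (lc_lin_exists A)]
  exact (lc_lin_exists A).choose_spec u

/-- the inverse of the adjoint -/
theorem lc_exists_B {d : ℕ} (A : E d ≃L[ℝ] E d) : ∃ B : E d ≃L[ℝ] E d,
    (∀ ξ, ContinuousLinearMap.adjoint (A : E d →L[ℝ] E d) (B ξ) = ξ) ∧
    ∀ x ξ : E d, inner ℝ (A.symm x) ξ = inner ℝ x (B ξ) := by
  have h1 : (ContinuousLinearMap.adjoint (A : E d →L[ℝ] E d)).comp
      (ContinuousLinearMap.adjoint (A.symm : E d →L[ℝ] E d)) = ContinuousLinearMap.id ℝ _ := by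
    rw [← ContinuousLinearMap.adjoint_comp]
    have : ((A.symm : E d →L[ℝ] E d)).comp (A : E d →L[ℝ] E d) = ContinuousLinearMap.id ℝ _ := by
      ext1 x; simp
    rw [this]
    exact ContinuousLinearMap.adjoint_id
  have h2 : (ContinuousLinearMap.adjoint (A.symm : E d →L[ℝ] E d)).comp
      (ContinuousLinearMap.adjoint (A : E d →L[ℝ] E d)) = ContinuousLinearMap.id ℝ _ := by
    rw [← ContinuousLinearMap.adjoint_comp]
    have : ((A : E d →L[ℝ] E d)).comp (A.symm : E d →L[ℝ] E d) = ContinuousLinearMap.id ℝ _ := by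
      ext1 x; simp
    rw [this]
    exact ContinuousLinearMap.adjoint_id
  refine ⟨ContinuousLinearEquiv.equivOfInverse
    (ContinuousLinearMap.adjoint (A.symm : E d →L[ℝ] E d))
    (ContinuousLinearMap.adjoint (A : E d →L[ℝ] E d)) (fun x => ?_) (fun x => ?_), ?_, ?_⟩
  · exact congrArg (fun T : E d →L[ℝ] E d => T x) h1
  · exact congrArg (fun T : E d →L[ℝ] E d => T x) h2
  · intro ξ
    exact congrArg (fun T : E d →L[ℝ] E d => T ξ) h1
  · intro x ξ
    show inner ℝ (A.symm x) ξ = inner ℝ x (ContinuousLinearMap.adjoint (A.symm : E d →L[ℝ] E d) ξ)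
    rw [ContinuousLinearMap.adjoint_inner_right]
    rfl

open FourierTransform in
theorem lc_schwartz {d : ℕ} (A B : E d ≃L[ℝ] E d) {c : ℝ} (hc : 0 < c)
    (hA : Measure.map A (volume : Measure (E d)) = ENNReal.ofReal c • volume)
    (hB : ∀ x ξ : E d, inner ℝ (A.symm x) ξ = inner ℝ x (B ξ)) (f : SchwartzMap (E d) ℂ) (ξ : E d) :
    (𝓕 (SchwartzMap.compCLMOfContinuousLinearEquiv ℂ A f) : SchwartzMap (E d) ℂ) ξ =
      (c : ℂ) * (𝓕 f : SchwartzMap (E d) ℂ) (B ξ) := by
  rw [SchwartzMap.fourier_coe, SchwartzMap.fourier_coe, Real.fourier_eq, Real.fourier_eq]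
  have h1 : ∀ v : E d, (Real.fourierChar (-inner ℝ v ξ)) •
      (SchwartzMap.compCLMOfContinuousLinearEquiv ℂ A f) v =
      (fun y : E d => (Real.fourierChar (-inner ℝ y (B ξ))) • f y) (A v) := by
    intro v
    show _ = (Real.fourierChar (-inner ℝ (A v) (B ξ))) • f (A v)
    rw [← hB, A.symm_apply_apply]
    rfl
  simp_rw [h1]
  have hme : MeasurableEmbedding (A : E d → E d) := A.toHomeomorph.measurableEmbedding
  have h2 := hme.integral_map (μ := (volume : Measure (E d)))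
    (fun y : E d => (Real.fourierChar (-inner ℝ y (B ξ))) • f y)
  rw [← h2, hA, integral_smul_measure, ENNReal.toReal_ofReal hc.le]
  exact Complex.real_smul

open FourierTransform in
theorem lc_FT {d : ℕ} (A : E d ≃L[ℝ] E d) : ∃ (c : ℂ) (B : E d ≃L[ℝ] E d),
    (∀ ξ, ContinuousLinearMap.adjoint (A : E d →L[ℝ] E d) (B ξ) = ξ) ∧
    ∀ u : L2 d, FT d (compop A u) = c • compop B (FT d u) := by
  obtain ⟨c, hc, hA⟩ := lc_lin_map A
  obtain ⟨B, hB1, hB2⟩ := lc_exists_B A
  refine ⟨(c : ℂ), B, hB1, fun u => ?_⟩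
  refine DenseRange.induction_on
    (p := fun u : L2 d => FT d (compop A u) = (c : ℂ) • compop B (FT d u))
    (SchwartzMap.denseRange_toLpCLM (F := ℂ) (E := E d) (p := 2) (μ := volume)
      ENNReal.ofNat_ne_top) u ?_ ?_
  · refine isClosed_eq ?_ ?_
    · exact (FT d).continuous.comp (compop A).continuous
    · exact ((compop B).continuous.comp (FT d).continuous).const_smul (c : ℂ)
  · intro f
    rw [SchwartzMap.toLpCLM_apply]
    have h1 : compop A (f.toLp 2 volume) =
        (SchwartzMap.compCLMOfContinuousLinearEquiv ℂ A f).toLp 2 volume := by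
      refine Lp.ext ?_
      have e1 := compop_lin_spec A (f.toLp 2 volume)
      have e2 := (lc_lin_qmp A).ae_eq_comp (f.coeFn_toLp 2 volume)
      have e3 := (SchwartzMap.compCLMOfContinuousLinearEquiv ℂ A f).coeFn_toLp 2 volume
      filter_upwards [e1, e2, e3] with x a1 a2 a3
      rw [a1, a3]
      exact a2
    have h2 : ∀ g : SchwartzMap (E d) ℂ, FT d (g.toLp 2 volume) = (𝓕 g).toLp 2 volume :=
      fun g => SchwartzMap.toLp_fourier_eq g
    rw [h1, h2, h2]
    refine Lp.ext ?_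
    have e1 := (𝓕 (SchwartzMap.compCLMOfContinuousLinearEquiv ℂ A f) :
      SchwartzMap (E d) ℂ).coeFn_toLp 2 volume
    have e2 := Lp.coeFn_smul (c : ℂ) (compop B ((𝓕 f).toLp 2 volume))
    have e3 := compop_lin_spec B ((𝓕 f).toLp 2 volume)
    have e4 := (lc_lin_qmp B).ae_eq_comp ((𝓕 f).coeFn_toLp 2 volume)
    filter_upwards [e1, e2, e3, e4] with x a1 a2 a3 a4
    rw [a1, a2, Pi.smul_apply, a3, smul_eq_mul, lc_schwartz A B hc hA hB2 f x]
    congr 1
    exact a4.symm

theorem Fm_compop_lin {d : ℕ} (A : E d ≃L[ℝ] E d) {σ : E d → ℂ} (hσ : BM σ) :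
    Fm σ * compop A =
      compop A * Fm (fun ξ => σ (ContinuousLinearMap.adjoint (A : E d →L[ℝ] E d) ξ)) := by
  obtain ⟨c, B, hB, hF⟩ := lc_FT A
  refine ContinuousLinearMap.ext fun u => ?_
  apply (FT d).injective
  show FT d (Fm σ (compop A u)) = FT d (compop A (Fm _ u))
  rw [Fm_apply, hF, hF, Fm_apply]
  have hσ' : BM (fun ξ => σ (ContinuousLinearMap.adjoint (A : E d →L[ℝ] E d) ξ)) := by
    obtain ⟨hm, C, hC⟩ := hσ
    exact ⟨hm.comp (ContinuousLinearMap.adjoint (A : E d →L[ℝ] E d)).continuous.measurable,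
      C, fun x => hC _⟩
  refine Lp.ext ?_
  have e1 := mulop_spec hσ (c • compop B (FT d u))
  have e2 := Lp.coeFn_smul c (compop B (FT d u))
  have e3 := compop_lin_spec B (FT d u)
  have e4 := Lp.coeFn_smul c (compop B (mulop
    (fun ξ => σ (ContinuousLinearMap.adjoint (A : E d →L[ℝ] E d) ξ)) (FT d u)))
  have e5 := compop_lin_spec B (mulop
    (fun ξ => σ (ContinuousLinearMap.adjoint (A : E d →L[ℝ] E d) ξ)) (FT d u))
  have e6 := (lc_lin_qmp B).ae_eq_comp (mulop_spec hσ' (FT d u))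
  filter_upwards [e1, e2, e3, e4, e5, e6] with x a1 a2 a3 a4 a5 a6
  rw [a1, a2, a4, Pi.smul_apply, Pi.smul_apply, a3, a5]
  have a6' : (mulop (fun ξ => σ (ContinuousLinearMap.adjoint (A : E d →L[ℝ] E d) ξ)) (FT d u) :
      E d → ℂ) (B x) = σ (ContinuousLinearMap.adjoint (A : E d →L[ℝ] E d) (B x)) *
        (FT d u : E d → ℂ) (B x) := a6
  rw [a6', hB, smul_eq_mul, smul_eq_mul]
  ring

end Pool.Agent.Helper41.CE
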