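import Pool.Agent.Helper41.CE.TDefs
import Pool.Agent.Helper41.CE.CU01
import Pool.Agent.Helper41.CE.CU02

/-!
# Semiclassical eigenvalue bounds for Schroedinger operators: definitions
-/

open MeasureTheory Filter Topology Set
open scoped ENNReal NNReal ContDiff

namespace Pool.Agent.Helper41.CE


/-! ## TARGETS: prove these (statements must not be changed; helper lemmas are welcome) -/

/-- translation as a linear isometry -/
noncomputable def job28758LI {d : ℕ} (h : E d) : L2 d →ₗᵢ[ℂ] L2 d :=
  Lp.compMeasurePreservingₗᵢ ℂ (fun x => x - h) (measurePreserving_sub_right volume h)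

theorem job28758_spec {d : ℕ} (h : E d) (u : L2 d) :
    (job28758LI h u : E d → ℂ) =ᵐ[volume] fun x => u (x - h) :=
  Lp.coeFn_compMeasurePreserving u (measurePreserving_sub_right volume h)

theorem compop_trans_spec {d : ℕ} (h : E d) (u : L2 d) :
    (compop (fun x => x - h) u : E d → ℂ) =ᵐ[volume] fun x => u (x - h) := by
  have hex : ∃ T : L2 d →L[ℂ] L2 d, ∀ u : L2 d, T u =ᵐ[volume] fun x => u (x - h) :=
    ⟨(job28758LI h).toContinuousLinearMap, fun u => job28758_spec h u⟩
  unfold compop
  rw [dif_pos hex]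
  exact hex.choose_spec u

theorem job28758_eq {d : ℕ} (h : E d) (u : L2 d) :
    compop (fun x => x - h) u = job28758LI h u :=
  Lp.ext ((compop_trans_spec h u).trans (job28758_spec h u).symm)

theorem job28758_ae {d : ℕ} (h : E d) {f g : E d → ℂ} (hfg : f =ᵐ[volume] g) :
    (fun x => f (x - h)) =ᵐ[volume] fun x => g (x - h) :=
  (measurePreserving_sub_right volume h).quasiMeasurePreserving.ae_eq_comp hfg

theorem compop_trans_norm {d : ℕ} (h : E d) (u : L2 d) :
    ‖compop (fun x => x - h) u‖ = ‖u‖ := by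
  rw [job28758_eq]
  exact (job28758LI h).norm_map u

theorem compop_trans_add {d : ℕ} (h k : E d) :
    (compop (fun x => x - h) : L2 d →L[ℂ] L2 d) * compop (fun x => x - k) =
      compop (fun x => x - (h + k)) := by
  refine ContinuousLinearMap.ext fun u => Lp.ext ?_
  have h1 := compop_trans_spec h (compop (fun x => x - k) u)
  have h2 := job28758_ae h (compop_trans_spec k u)
  have h3 := compop_trans_spec (h + k) u
  change (compop (fun x => x - h) (compop (fun x => x - k) u) : E d → ℂ) =ᵐ[volume] _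
  filter_upwards [h1, h2, h3] with x e1 e2 e3
  rw [e1, e2, e3, sub_sub]

theorem compop_trans_zero (d : ℕ) : (compop (fun x => x - 0) : L2 d →L[ℂ] L2 d) = 1 := by
  refine ContinuousLinearMap.ext fun u => Lp.ext ?_
  have h1 := compop_trans_spec (0 : E d) u
  change (compop (fun x => x - 0) u : E d → ℂ) =ᵐ[volume] (u : E d → ℂ)
  filter_upwards [h1] with x e1
  rw [e1, sub_zero]

open FourierTransform in
theorem job28758_four {d : ℕ} (h : E d) (f : SchwartzMap (E d) ℂ) (ξ : E d) :
    (𝓕 (f.compSubConstCLM ℂ h) : SchwartzMap (E d) ℂ) ξ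
      = ((Real.fourierChar (-(inner ℝ h ξ)) : Circle) : ℂ) * (𝓕 f : SchwartzMap (E d) ℂ) ξ := by
  rw [SchwartzMap.fourier_coe, SchwartzMap.fourier_coe, Real.fourier_eq, Real.fourier_eq]
  have h1 : (fun v : E d => Real.fourierChar (-(inner ℝ v ξ)) • (f.compSubConstCLM ℂ h) v)
      = fun v : E d => (fun w : E d => Real.fourierChar (-(inner ℝ (w + h) ξ)) • f w) (v - h) := by
    funext v
    simp only [SchwartzMap.compSubConstCLM_apply, sub_add_cancel]
  rw [h1, integral_sub_right_eq_self (fun w : E d => Real.fourierChar (-(inner ℝ (w + h) ξ)) • f w) h,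
    ← smul_eq_mul, ← integral_smul]
  congr 1
  funext w
  rw [inner_add_left, neg_add, AddChar.map_add_eq_mul]
  simp only [Circle.smul_def, Circle.coe_mul, smul_eq_mul]
  ring

theorem job28758_BM {d : ℕ} (h : E d) :
    BM (fun ξ : E d => ((Real.fourierChar (-(inner ℝ h ξ)) : Circle) : ℂ)) := by
  refine ⟨?_, 1, fun ξ => ?_⟩
  · refine Continuous.measurable ?_
    exact continuous_induced_dom.comp (Real.continuous_fourierChar.comp
      ((continuous_const.inner continuous_id).neg))
  · rw [Circle.norm_coe]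

open FourierTransform in
theorem job28758_FT {d : ℕ} (h : E d) (u : L2 d) :
    FT d (job28758LI h u)
      = mulop (fun ξ : E d => ((Real.fourierChar (-(inner ℝ h ξ)) : Circle) : ℂ)) (FT d u) := by
  have hd : DenseRange (SchwartzMap.toLpCLM ℂ (E := E d) ℂ 2 volume) :=
    SchwartzMap.denseRange_toLpCLM ENNReal.ofNat_ne_top
  have hc1 : Continuous (fun u : L2 d => FT d (job28758LI h u)) :=
    (FT d).continuous.comp (job28758LI h).continuous
  have hc2 : Continuous (fun u : L2 d =>
      mulop (fun ξ : E d => ((Real.fourierChar (-(inner ℝ h ξ)) : Circle) : ℂ)) (FT d u)) :=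
    (mulop _).continuous.comp (FT d).continuous
  refine congr_fun (hd.equalizer hc1 hc2 ?_) u
  funext f
  change FT d (job28758LI h (f.toLp 2))
    = mulop (fun ξ : E d => ((Real.fourierChar (-(inner ℝ h ξ)) : Circle) : ℂ)) (FT d (f.toLp 2))
  have e1 : job28758LI h (f.toLp 2) = (f.compSubConstCLM ℂ h).toLp 2 := by
    refine Lp.ext ?_
    have h1 := job28758_spec h (f.toLp 2)
    have h2 := job28758_ae h (f.coeFn_toLp 2 volume)
    have h3 := (f.compSubConstCLM ℂ h).coeFn_toLp 2 volume
    filter_upwards [h1, h2, h3] with x e1 e2 e3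
    rw [e1, e2, e3, SchwartzMap.compSubConstCLM_apply]
  have e2 : ∀ g : SchwartzMap (E d) ℂ, FT d (g.toLp 2) = (𝓕 g).toLp 2 :=
    fun g => SchwartzMap.toLp_fourier_eq g
  rw [e1, e2, e2]
  refine Lp.ext ?_
  have h1 := (𝓕 (f.compSubConstCLM ℂ h)).coeFn_toLp 2 volume
  have h2 := (𝓕 f).coeFn_toLp 2 volume
  have h3 := mulop_spec (job28758_BM h) ((𝓕 f).toLp 2)
  filter_upwards [h1, h2, h3] with x e1 e2 e3
  rw [e1, e3, e2, job28758_four]

theorem Fm_trans {d : ℕ} (h : E d) {σ : E d → ℂ} (hσ : BM σ) :
    Fm σ * compop (fun x => x - h) = compop (fun x => x - h) * Fm σ := by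
  refine ContinuousLinearMap.ext fun u => ?_
  change Fm σ (compop (fun x => x - h) u) = compop (fun x => x - h) (Fm σ u)
  rw [job28758_eq, job28758_eq]
  apply (FT d).injective
  rw [Fm_apply, job28758_FT, job28758_FT, Fm_apply]
  have h1 := mulop_mul hσ (job28758_BM h)
  have h2 := mulop_mul (job28758_BM h) hσ
  have h3 : (fun x => σ x * ((Real.fourierChar (-(inner ℝ h x)) : Circle) : ℂ))
      = fun x => ((Real.fourierChar (-(inner ℝ h x)) : Circle) : ℂ) * σ x := by
    funext x; ring
  rw [h3, ← h2] at h1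
  exact congr_arg (fun T : L2 d →L[ℂ] L2 d => T (FT d u)) h1

theorem mulop_trans {d : ℕ} (h : E d) {f : E d → ℂ} (hf : BM f) :
    mulop (fun x => f (x - h)) * compop (fun x => x - h) = compop (fun x => x - h) * mulop f := by
  refine ContinuousLinearMap.ext fun u => Lp.ext ?_
  change (mulop (fun x => f (x - h)) (compop (fun x => x - h) u) : E d → ℂ) =ᵐ[volume]
    (compop (fun x => x - h) (mulop f u) : E d → ℂ)
  have hf' : BM (fun x => f (x - h)) := by
    obtain ⟨h1, C, hC⟩ := hf
    exact ⟨h1.comp (measurable_id.sub_const h), C, fun x => hC _⟩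
  have h1 := mulop_spec hf' (compop (fun x => x - h) u)
  have h2 := compop_trans_spec h u
  have h3 := compop_trans_spec h (mulop f u)
  have h4 := job28758_ae h (mulop_spec hf u)
  filter_upwards [h1, h2, h3, h4] with x e1 e2 e3 e4
  rw [e1, e2, e3, e4]

end Pool.Agent.Helper41.CE
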