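import Pool.Agent.Helper41.CE.TDefs
import Pool.Agent.Helper41.CE.CU01
import Pool.Agent.Helper41.CE.CU02

/-!
# Semiclassical eigenvalue bounds for Schroedinger operators: definitions
-/

open MeasureTheory Filter Topology Set
open scoped ENNReal NNReal ContDiff

namespace Pool.Agent.Helper41.CE


/-! ## TARGETS: prove these (statements must not be changed; helper lemmas are welcome) -/

theorem rf_apply {n : ℕ} (X : E (n + 1)) (i : Fin (n + 1)) :
    (rfx X) i = if i = 0 then - X 0 else X i := by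
  unfold rfx
  by_cases h : i = 0
  · subst h
    simp
    ring
  · simp [h]

theorem rfx_zero {n : ℕ} (X : E (n + 1)) : (rfx X) 0 = - X 0 := by
  rw [rf_apply, if_pos rfl]

theorem rfx_rfx {n : ℕ} (X : E (n + 1)) : rfx (rfx X) = X := by
  ext i
  rw [rf_apply, rfx_zero, rf_apply]
  by_cases h : i = 0
  · subst h
    simp
  · simp [h]

theorem rfx_norm {n : ℕ} (X : E (n + 1)) : ‖rfx X‖ = ‖X‖ := by
  rw [EuclideanSpace.norm_eq, EuclideanSpace.norm_eq]
  congr 1
  apply Finset.sum_congr rfl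
  intro i _
  rw [rf_apply]
  by_cases h : i = 0
  · subst h
    simp
  · simp [h]

/-- the reflection as a linear map -/
noncomputable def rfL (n : ℕ) : E (n + 1) →ₗ[ℝ] E (n + 1) where
  toFun := rfx
  map_add' X Y := by
    ext i
    rw [PiLp.add_apply, rf_apply, rf_apply, rf_apply]
    by_cases h : i = 0
    · simp [h]
      ring
    · simp [h]
  map_smul' c X := by
    ext i
    rw [RingHom.id_apply, PiLp.smul_apply, rf_apply, rf_apply]
    by_cases h : i = 0
    · simp [h]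
    · simp [h]

/-- the reflection as a linear isometry -/
noncomputable def rfI (n : ℕ) : E (n + 1) ≃ₗᵢ[ℝ] E (n + 1) where
  toLinearEquiv := LinearEquiv.ofInvolutive (rfL n) (fun X => rfx_rfx X)
  norm_map' := fun X => rfx_norm X

theorem rfI_coe (n : ℕ) : (rfI n : E (n + 1) → E (n + 1)) = rfx := rfl

theorem rfx_mp_cu13 (n : ℕ) : MeasurePreserving (rfx : E (n + 1) → E (n + 1)) volume volume := by
  rw [← rfI_coe]
  exact (rfI n).measurePreserving

theorem rfx_meas {n : ℕ} : Measurable (rfx : E (n + 1) → E (n + 1)) := (rfx_mp_cu13 n).measurable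

theorem Rf_spec {n : ℕ} (u : L2 (n + 1)) :
    (Rf n u : E (n + 1) → ℂ) =ᵐ[volume] fun x => u (rfx x) := by
  have h : ∃ T : L2 (n + 1) →L[ℂ] L2 (n + 1), ∀ u : L2 (n + 1),
      T u =ᵐ[volume] fun x => u (rfx x) :=
    ⟨(Lp.compMeasurePreservingₗᵢ ℂ rfx (rfx_mp_cu13 n)).toContinuousLinearMap, fun u =>
      Lp.coeFn_compMeasurePreserving u (rfx_mp_cu13 n)⟩
  unfold Rf compop
  rw [dif_pos h]
  exact h.choose_spec u

theorem Rf_eq {n : ℕ} (u : L2 (n + 1)) : Rf n u = Lp.compMeasurePreserving rfx (rfx_mp_cu13 n) u := by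
  apply Lp.ext
  exact (Rf_spec u).trans (Lp.coeFn_compMeasurePreserving u (rfx_mp_cu13 n)).symm

theorem Rf_norm {n : ℕ} (u : L2 (n + 1)) : ‖Rf n u‖ = ‖u‖ := by
  rw [Rf_eq]
  exact Lp.norm_compMeasurePreserving _ _

theorem rf_ae {n : ℕ} {f g : E (n + 1) → ℂ} (h : f =ᵐ[volume] g) :
    (fun x => f (rfx x)) =ᵐ[volume] fun x => g (rfx x) :=
  (rfx_mp_cu13 n).quasiMeasurePreserving.ae_eq_comp h

theorem Rf_Rf {n : ℕ} (u : L2 (n + 1)) : Rf n (Rf n u) = u := by
  apply Lp.ext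
  refine (Rf_spec _).trans ((rf_ae (Rf_spec u)).trans ?_)
  simp only [rfx_rfx]
  exact Filter.EventuallyEq.rfl

theorem Rf_sq (n : ℕ) : Rf n * Rf n = 1 := by
  ext1 u
  exact Rf_Rf u

theorem bm_rfx {n : ℕ} {f : E (n + 1) → ℂ} (hf : BM f) : BM (fun x => f (rfx x)) := by
  obtain ⟨h1, C, hC⟩ := hf
  exact ⟨h1.comp rfx_meas, C, fun x => hC _⟩

theorem Rf_mulop_apply {n : ℕ} {f : E (n + 1) → ℂ} (hf : BM f) (u : L2 (n + 1)) :
    Rf n (mulop f u) = mulop (fun x => f (rfx x)) (Rf n u) := by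
  apply Lp.ext
  refine (Rf_spec _).trans ((rf_ae (mulop_spec hf u)).trans ?_)
  refine Filter.EventuallyEq.trans ?_ (mulop_spec (bm_rfx hf) (Rf n u)).symm
  filter_upwards [Rf_spec u] with x hx
  rw [hx]

theorem Rf_mulop {n : ℕ} {f : E (n + 1) → ℂ} (hf : BM f) :
    Rf n * mulop f = mulop (fun x => f (rfx x)) * Rf n := by
  ext1 u
  exact Rf_mulop_apply hf u

theorem Rf_FT {n : ℕ} (u : L2 (n + 1)) : Rf n (FT (n + 1) u) = FT (n + 1) (Rf n u) := by
  apply DenseRange.induction_on (p := fun u => Rf n (FT (n + 1) u) = FT (n + 1) (Rf n u))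
    (SchwartzMap.denseRange_toLpCLM (E := E (n + 1)) (F := ℂ) (μ := volume) (p := 2)
      ENNReal.ofNat_ne_top) u
  · apply isClosed_eq
    · exact (Rf n).continuous.comp (FT (n + 1)).continuous
    · exact (FT (n + 1)).continuous.comp (Rf n).continuous
  intro f
  have h1 : ∀ g : SchwartzMap (E (n + 1)) ℂ, Rf n (g.toLp 2 volume) =
      (SchwartzMap.compCLMOfContinuousLinearEquiv ℂ (rfI n).toContinuousLinearEquiv g).toLp 2
        volume := by
    intro g
    apply Lp.ext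
    refine (Rf_spec _).trans ((rf_ae (SchwartzMap.coeFn_toLp g 2 (volume : Measure (E (n + 1))))).trans ?_)
    exact (SchwartzMap.coeFn_toLp (SchwartzMap.compCLMOfContinuousLinearEquiv ℂ
      (rfI n).toContinuousLinearEquiv g) 2 (volume : Measure (E (n + 1)))).symm
  have h2 : ∀ g : SchwartzMap (E (n + 1)) ℂ, FT (n + 1) (g.toLp 2 volume) =
      (FourierTransform.fourier g : SchwartzMap (E (n + 1)) ℂ).toLp 2 volume := fun g =>
    SchwartzMap.toLp_fourier_eq g
  show Rf n (FT (n + 1) (f.toLp 2 volume)) = FT (n + 1) (Rf n (f.toLp 2 volume))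
  rw [h2, h1, h1, h2]
  congr 1
  ext w
  rw [SchwartzMap.compCLMOfContinuousLinearEquiv_apply, SchwartzMap.fourier_coe,
    SchwartzMap.fourier_coe, SchwartzMap.compCLMOfContinuousLinearEquiv_apply]
  exact (Real.fourier_comp_linearIsometry (W := E (n + 1)) (V := E (n + 1)) (rfI n) (f : E (n + 1) → ℂ) w).symm

theorem Rf_Fm {n : ℕ} {σ : E (n + 1) → ℂ} (hσ : BM σ) :
    Rf n * Fm σ = Fm (fun ξ => σ (rfx ξ)) * Rf n := by
  ext1 u
  show Rf n (Fm σ u) = Fm (fun ξ => σ (rfx ξ)) (Rf n u)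
  apply (FT (n + 1)).injective
  rw [← Rf_FT, Fm_apply, Fm_apply, Rf_mulop_apply hσ, Rf_FT]

theorem Rf_eo {n : ℕ} (θ : ℝ) : Rf n * eo θ = eo (-θ) * Rf n := by
  unfold eo
  rw [Rf_mulop]
  · congr 2
    funext X
    rw [rfx_zero]
    congr 2
    push_cast
    ring
  · refine ⟨by fun_prop, 1, fun X => ?_⟩
    show ‖Complex.exp (Complex.I * ((θ * X 0 : ℝ) : ℂ))‖ ≤ 1
    rw [mul_comm, Complex.norm_exp_ofReal_mul_I]

end Pool.Agent.Helper41.CE
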