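import Pool.Agent.Helper41.CE.TDefs
import Pool.Agent.Helper41.CE.CU01

/-!
# Semiclassical eigenvalue bounds for Schroedinger operators: definitions
-/

open MeasureTheory Filter Topology Set
open scoped ENNReal NNReal ContDiff

namespace Pool.Agent.Helper41.CE


/-! ## TARGETS: prove these (statements must not be changed; helper lemmas are welcome) -/

theorem ws_nonneg {n : ℕ} (X : E (n + 1)) : 0 ≤ ‖X‖ ^ 2 - (X 0) ^ 2 := by
  rw [EuclideanSpace.norm_sq_eq]
  have h := Finset.single_le_sum (f := fun i => ‖X i‖ ^ 2) (fun i _ => sq_nonneg _)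
    (Finset.mem_univ (0 : Fin (n + 1)))
  have h2 : ‖X 0‖ ^ 2 = (X 0) ^ 2 := by rw [Real.norm_eq_abs, sq_abs]
  simp only [h2] at h
  linarith

theorem ws_rfx0 {n : ℕ} (X : E (n + 1)) : (rfx X) 0 = -X 0 := by
  unfold rfx
  simp
  ring

theorem ws_rfx {n : ℕ} (X : E (n + 1)) (i : Fin (n + 1)) (hi : i ≠ 0) : (rfx X) i = X i := by
  unfold rfx
  simp [hi]

theorem ws_norm {n : ℕ} (X : E (n + 1)) : ‖rfx X‖ ^ 2 = ‖X‖ ^ 2 := by
  rw [EuclideanSpace.norm_sq_eq, EuclideanSpace.norm_sq_eq]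
  refine Finset.sum_congr rfl fun i _ => ?_
  by_cases hi : i = 0
  · rw [hi, ws_rfx0, norm_neg]
  · rw [ws_rfx X i hi]

theorem ws_meas {n : ℕ} : Measurable (fun X : E (n + 1) => ‖X‖ ^ 2 - (X 0) ^ 2) := by
  have h : Continuous (fun X : E (n + 1) => ‖X‖ ^ 2 - (X 0) ^ 2) := by fun_prop
  exact h.measurable

theorem ws_meas0 {n : ℕ} : Measurable (fun X : E (n + 1) => X 0) := by
  have h : Continuous (fun X : E (n + 1) => X 0) := by fun_prop
  exact h.measurable

theorem wt_meas {n : ℕ} : Measurable (wt : E (n + 1) → ℝ) := by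
  unfold wt
  exact (measurable_const.add ws_meas).pow_const _

theorem wt_pos {n : ℕ} (X : E (n + 1)) : 0 < wt X := by
  unfold wt
  have h := ws_nonneg X
  exact Real.rpow_pos_of_pos (by linarith) _

theorem wt_le_one {n : ℕ} (X : E (n + 1)) : wt X ≤ 1 := by
  unfold wt
  have h := ws_nonneg X
  exact Real.rpow_le_one_of_one_le_of_nonpos (by linarith) (by norm_num)

theorem wt_rfx {n : ℕ} (X : E (n + 1)) : wt (rfx X) = wt X := by
  unfold wt
  rw [ws_norm, ws_rfx0, neg_sq]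

theorem BM_wt {n : ℕ} : BM (fun X : E (n + 1) => (wt X : ℂ)) := by
  refine ⟨Complex.measurable_ofReal.comp wt_meas, 1, fun X => ?_⟩
  rw [Complex.norm_real, Real.norm_eq_abs, abs_of_pos (wt_pos X)]
  exact wt_le_one X

theorem Wt_norm (n : ℕ) : ‖Wt n‖ ≤ 1 := by
  unfold Wt
  refine mulop_norm BM_wt 1 fun X => ?_
  rw [Complex.norm_real, Real.norm_eq_abs, abs_of_pos (wt_pos X)]
  exact wt_le_one X

theorem rp_meas {n : ℕ} : Measurable (rp : E (n + 1) → ℝ) := by
  unfold rp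
  exact measurable_const.mul ws_meas

theorem rp_nonneg {n : ℕ} (ξ : E (n + 1)) : 0 ≤ rp ξ := by
  unfold rp
  exact mul_nonneg (by positivity) (ws_nonneg ξ)

theorem rp_rfx {n : ℕ} (ξ : E (n + 1)) : rp (rfx ξ) = rp ξ := by
  unfold rp
  rw [ws_norm, ws_rfx0, neg_sq]

theorem sym_meas {n : ℕ} (δ : ℝ) : Measurable (sd δ : E (n + 1) → ℝ) ∧
    Measurable (sp : E (n + 1) → ℝ) ∧ Measurable (sm : E (n + 1) → ℝ) := by
  refine ⟨?_, ?_, ?_⟩
  · unfold sd
    exact (((measurable_const.mul ((measurable_const.mul ws_meas0).pow_const 2)).add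
      rp_meas).sub measurable_const)
  · unfold sp
    exact (measurable_const.mul ws_meas0).add rp_meas
  · unfold sm
    exact (measurable_const.mul ws_meas0).neg.add rp_meas

theorem sym_rfx {n : ℕ} (δ : ℝ) (ξ : E (n + 1)) :
    sd δ (rfx ξ) = sd δ ξ ∧ sp (rfx ξ) = sm ξ ∧ sm (rfx ξ) = sp ξ := by
  unfold sd sp sm
  rw [rp_rfx, ws_rfx0]
  refine ⟨by ring, by ring, by ring⟩

end Pool.Agent.Helper41.CE
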