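import Pool.Agent.Helper41.CE.TDefs
import Pool.Agent.Helper41.CE.CU01
import Pool.Agent.Helper41.CE.CU02
import Pool.Agent.Helper41.CE.CU14

/-!
# Semiclassical eigenvalue bounds for Schroedinger operators: definitions
-/

open MeasureTheory Filter Topology Set
open scoped ENNReal NNReal ContDiff

namespace Pool.Agent.Helper41.CE


/-! ## helper lemmas for `hf_time` -/

/-- The character `exp (2πi ⟨v, X⟩)`. -/
noncomputable def hfe {d : ℕ} (v : E d) (X : E d) : ℂ :=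
  Complex.exp (((2 * Real.pi * inner ℝ v X : ℝ) : ℂ) * Complex.I)

theorem hfe_norm {d : ℕ} (v X : E d) : ‖hfe v X‖ = 1 := by
  unfold hfe; exact Complex.norm_exp_ofReal_mul_I _

theorem hfe_meas {d : ℕ} (v : E d) : Measurable (hfe v) := by
  unfold hfe; fun_prop

theorem hfe_BM {d : ℕ} (v : E d) : BM (hfe v) :=
  ⟨hfe_meas v, 1, fun x => (hfe_norm v x).le⟩

theorem hfe_neg {d : ℕ} (v X : E d) : hfe v X * hfe (-v) X = 1 := by
  unfold hfe
  rw [← Complex.exp_add]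
  simp [inner_neg_left]

/-- translation on `L²`. -/
noncomputable def hfV {d : ℕ} (v : E d) : L2 d →ₗᵢ[ℂ] L2 d :=
  Lp.compMeasurePreservingₗᵢ ℂ (fun x : E d => x - v) (measurePreserving_sub_right volume v)

theorem hfV_coe {d : ℕ} (v : E d) (u : L2 d) : (hfV v u : E d → ℂ) =ᵐ[volume] fun x => u (x - v) :=
  Lp.coeFn_compMeasurePreserving u (measurePreserving_sub_right volume v)

theorem hf_symm_trans {d : ℕ} (v : E d) (w : L2 d) :
    (FT d).symm (hfV v w) = mulop (hfe v) ((FT d).symm w) := by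
  refine DenseRange.induction_on (p := fun w : L2 d =>
      (FT d).symm (hfV v w) = mulop (hfe v) ((FT d).symm w))
    (SchwartzMap.denseRange_toLpCLM (p := 2) (μ := (volume : Measure (E d)))
      ENNReal.ofNat_ne_top) w ?_ ?_
  · apply isClosed_eq
    · exact (FT d).symm.continuous.comp (hfV v).continuous
    · exact (mulop (hfe v)).continuous.comp (FT d).symm.continuous
  · intro ψ
    have h1 : hfV v (SchwartzMap.toLpCLM ℝ ℂ 2 (volume : Measure (E d)) ψ)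
        = (SchwartzMap.compSubConstCLM ℂ v ψ).toLp 2 := by
      apply Lp.ext
      refine (hfV_coe v _).trans ?_
      have h2 : (SchwartzMap.toLpCLM ℝ ℂ 2 (volume : Measure (E d)) ψ : E d → ℂ) =ᵐ[volume] ψ :=
        ψ.coeFn_toLp 2 volume
      have h3 := (measurePreserving_sub_right (volume : Measure (E d)) v).quasiMeasurePreserving.ae_eq_comp h2
      refine EventuallyEq.trans h3 ?_
      refine EventuallyEq.trans ?_ ((SchwartzMap.compSubConstCLM ℂ v ψ).coeFn_toLp 2 volume).symm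
      exact Eventually.of_forall (fun x => rfl)
    have h4 : ∀ φ : SchwartzMap (E d) ℂ, (FT d).symm (φ.toLp 2) = (FourierTransformInv.fourierInv φ : SchwartzMap (E d) ℂ).toLp 2 :=
      fun φ => SchwartzMap.toLp_fourierInv_eq φ
    have h5 : (SchwartzMap.toLpCLM ℝ ℂ 2 (volume : Measure (E d)) ψ : L2 d) = ψ.toLp 2 := rfl
    rw [h1, h4, h5, h4]
    apply Lp.ext
    refine (SchwartzMap.coeFn_toLp _ 2 volume).trans ?_
    refine EventuallyEq.trans ?_ (mulop_spec (hfe_BM v) _).symm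
    filter_upwards [SchwartzMap.coeFn_toLp (FourierTransformInv.fourierInv ψ : SchwartzMap (E d) ℂ) 2 (volume : Measure (E d))] with x hx
    rw [hx, SchwartzMap.fourierInv_coe, SchwartzMap.fourierInv_coe, Real.fourierInv_eq',
      Real.fourierInv_eq']
    rw [← integral_const_mul]
    rw [← integral_sub_right_eq_self (fun ξ => hfe v x * _) v]
    apply integral_congr_ae
    refine Eventually.of_forall (fun ξ => ?_)
    simp only [SchwartzMap.compSubConstCLM_apply, smul_eq_mul, hfe]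
    rw [← mul_assoc, ← Complex.exp_add]
    congr 2
    rw [inner_sub_left]
    push_cast
    ring

theorem hf_Fm_eq {d : ℕ} (σ : E d → ℂ) (u : L2 d) :
    Fm σ u = (FT d).symm (mulop σ (FT d u)) := rfl

/-- conjugation relation -/
theorem hf_conj {d : ℕ} {σ : E d → ℂ} (hσ : BM σ) (v : E d) :
    Fm (fun ξ => σ (ξ - v)) * mulop (hfe v) = mulop (hfe v) * Fm σ := by
  have hσ' : BM (fun ξ => σ (ξ - v)) := by
    obtain ⟨h1, C, hC⟩ := hσ
    exact ⟨h1.comp (measurable_id.sub_const v), C, fun x => hC _⟩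
  have hV : ∀ w : L2 d, hfV v (mulop σ w) = mulop (fun ξ => σ (ξ - v)) (hfV v w) := by
    intro w
    apply Lp.ext
    refine (hfV_coe v _).trans ?_
    refine EventuallyEq.trans ?_ (mulop_spec hσ' _).symm
    have h3 := (measurePreserving_sub_right (volume : Measure (E d)) v).quasiMeasurePreserving.ae_eq_comp (mulop_spec hσ w)
    filter_upwards [h3, hfV_coe v w] with x hx hx2
    rw [hx2]
    exact hx
  ext1 u
  show Fm (fun ξ => σ (ξ - v)) (mulop (hfe v) u) = mulop (hfe v) (Fm σ u)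
  have hu : FT d (mulop (hfe v) u) = hfV v (FT d u) := by
    have := hf_symm_trans v (FT d u)
    rw [LinearIsometryEquiv.symm_apply_apply] at this
    rw [← this, LinearIsometryEquiv.apply_symm_apply]
  rw [hf_Fm_eq, hf_Fm_eq, hu, ← hV, hf_symm_trans]

theorem hf_rp_eq {n : ℕ} (ξ : E (n + 1)) :
    rp ξ = ∑ k : Fin n, (2 * Real.pi * ξ k.succ) ^ 2 := by
  unfold rp
  rw [EuclideanSpace.real_norm_sq_eq, Fin.sum_univ_succ]
  simp only [add_sub_cancel_left]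
  rw [Finset.mul_sum]
  exact Finset.sum_congr rfl (fun k _ => by ring)

/-- shift direction -/
noncomputable def hfd {n : ℕ} (k : Fin n) (s : ℝ) : E (n + 1) :=
  s • EuclideanSpace.single k.succ (1 : ℝ)

theorem hfd_apply {n : ℕ} (k : Fin n) (s : ℝ) (i : Fin (n + 1)) :
    hfd k s i = if i = k.succ then s else 0 := by
  unfold hfd
  simp [PiLp.smul_apply]

theorem hfd_inner {n : ℕ} (k : Fin n) (s : ℝ) (X : E (n + 1)) :
    inner ℝ (hfd k s) X = s * X k.succ := by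
  unfold hfd
  rw [real_inner_smul_left, EuclideanSpace.inner_single_left]
  simp

theorem hf_rp_shift {n : ℕ} (k : Fin n) (s : ℝ) (ξ : E (n + 1)) :
    rp (ξ - hfd k s) = rp ξ + 4 * Real.pi ^ 2 * (s ^ 2 - 2 * s * ξ k.succ) := by
  rw [hf_rp_eq, hf_rp_eq]
  have h1 : ∀ k' : Fin n, (2 * Real.pi * (ξ - hfd k s) k'.succ) ^ 2
      = (2 * Real.pi * ξ k'.succ) ^ 2 +
        if k' = k then 4 * Real.pi ^ 2 * (s ^ 2 - 2 * s * ξ k.succ) else 0 := by
    intro k'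
    rw [PiLp.sub_apply, hfd_apply]
    by_cases h : k' = k
    · subst h; simp; ring
    · have : ¬ (k'.succ = k.succ) := fun h' => h (Fin.succ_injective _ h')
      simp [h, this]
  rw [Finset.sum_congr rfl (fun k' _ => h1 k'), Finset.sum_add_distrib]
  simp

theorem hf_sq_le {n : ℕ} (k : Fin n) (ξ : E (n + 1)) : (2 * Real.pi * ξ k.succ) ^ 2 ≤ rp ξ := by
  rw [hf_rp_eq]
  exact Finset.single_le_sum (f := fun k : Fin n => (2 * Real.pi * ξ k.succ) ^ 2)
    (fun i _ => sq_nonneg _) (Finset.mem_univ k)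

/-- the multiplier `2πξ_j / (rp + N)` -/
noncomputable def hfm {n : ℕ} (N : ℝ) (k : Fin n) (ξ : E (n + 1)) : ℝ :=
  2 * Real.pi * ξ k.succ / (rp ξ + N)

theorem hfm_bound {n : ℕ} {N : ℝ} (hN : 1 ≤ N) (k : Fin n) (ξ : E (n + 1)) :
    |hfm N k ξ| ≤ 1 / (2 * Real.sqrt N) := by
  unfold hfm
  have h0 := rp_nonneg ξ
  have h1 := hf_sq_le k ξ
  have hs : 0 < Real.sqrt N := Real.sqrt_pos.mpr (by linarith)
  have hss : Real.sqrt N ^ 2 = N := Real.sq_sqrt (by linarith)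
  rw [abs_div, abs_of_pos (show 0 < rp ξ + N by linarith), div_le_div_iff₀ (by linarith) (by positivity)]
  nlinarith [sq_nonneg (|2 * Real.pi * ξ k.succ| - Real.sqrt N), sq_abs (2 * Real.pi * ξ k.succ)]

theorem hfm_meas {n : ℕ} (N : ℝ) (k : Fin n) : Measurable (hfm N k : E (n + 1) → ℝ) := by
  unfold hfm
  apply Measurable.div
  · fun_prop
  · exact rp_meas.add_const N

theorem hfm_BM {n : ℕ} {N : ℝ} (hN : 1 ≤ N) (k : Fin n) :
    BM (fun ξ : E (n + 1) => ((hfm N k ξ : ℝ) : ℂ)) := by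
  refine ⟨Complex.measurable_ofReal.comp (hfm_meas N k), 1 / (2 * Real.sqrt N), fun x => ?_⟩
  rw [Complex.norm_real, Real.norm_eq_abs]
  exact hfm_bound hN k x

theorem hfm_shift {n : ℕ} {N : ℝ} (hN : 1 ≤ N) (k : Fin n) {s : ℝ} (hs : 0 ≤ s) (ξ : E (n + 1)) :
    |hfm N k (ξ + hfd k s) - hfm N k ξ| ≤ 2 * Real.pi * s / N := by
  have h0 := rp_nonneg ξ
  have h1 := hf_sq_le k ξ
  have hsh : rp (ξ + hfd k s) = rp ξ + 4 * Real.pi ^ 2 * (s ^ 2 + 2 * s * ξ k.succ) := by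
    have := hf_rp_shift k (-s) ξ
    have h2 : ξ - hfd k (-s) = ξ + hfd k s := by
      unfold hfd; rw [neg_smul, sub_neg_eq_add]
    rw [h2] at this
    rw [this]; ring
  have hap : (ξ + hfd k s) k.succ = ξ k.succ + s := by
    rw [PiLp.add_apply, hfd_apply]; simp
  unfold hfm
  rw [hsh, hap]
  set u : ℝ := 2 * Real.pi * ξ k.succ with hu
  set R : ℝ := rp ξ - u ^ 2 + N with hR
  have hRN : N ≤ R := by rw [hR]; linarith
  have hR0 : 0 < R := by linarith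
  set w : ℝ := 2 * Real.pi * (ξ k.succ + s) with hw
  have e1 : rp ξ + 4 * Real.pi ^ 2 * (s ^ 2 + 2 * s * ξ k.succ) + N = w ^ 2 + R := by
    rw [hR, hw, hu]; ring
  have e2 : rp ξ + N = u ^ 2 + R := by rw [hR]; ring
  rw [e1, e2]
  have hwu : w - u = 2 * Real.pi * s := by rw [hw, hu]; ring
  have hpu : 0 < u ^ 2 + R := by positivity
  have hpw : 0 < w ^ 2 + R := by positivity
  have e3 : w / (w ^ 2 + R) - u / (u ^ 2 + R) = (w - u) * (R - u * w) / ((u ^ 2 + R) * (w ^ 2 + R)) := by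
    field_simp
    ring
  rw [e3, abs_div, abs_mul, hwu, abs_of_nonneg (show 0 ≤ 2 * Real.pi * s by positivity),
    abs_of_pos (mul_pos hpu hpw)]
  rw [div_le_div_iff₀ (mul_pos hpu hpw) (by linarith)]
  have h3 : |R - u * w| * N ≤ (u ^ 2 + R) * (w ^ 2 + R) := by
    have h4 : |R - u * w| ≤ R + |u * w| := by
      calc |R - u * w| ≤ |R| + |u * w| := abs_sub _ _
        _ = R + |u * w| := by rw [abs_of_pos hR0]
    have h5 : |u * w| ^ 2 = u ^ 2 * w ^ 2 := by rw [sq_abs]; ring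
    have h6 : 0 ≤ |u * w| := abs_nonneg _
    have h7 : 2 * |u * w| ≤ u ^ 2 + w ^ 2 := by
      rw [abs_mul]
      nlinarith [sq_nonneg (|u| - |w|), sq_abs u, sq_abs w]
    calc |R - u * w| * N ≤ (R + |u * w|) * R := by
          apply mul_le_mul h4 hRN (by linarith) (by positivity)
      _ ≤ (u ^ 2 + R) * (w ^ 2 + R) := by nlinarith
  have h8 : 0 ≤ 2 * Real.pi * s := by positivity
  calc 2 * Real.pi * s * |R - u * w| * N = 2 * Real.pi * s * (|R - u * w| * N) := by ring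
    _ ≤ 2 * Real.pi * s * ((u ^ 2 + R) * (w ^ 2 + R)) := mul_le_mul_of_nonneg_left h3 h8

theorem hf_wt_mul {n : ℕ} (k : Fin n) (X : E (n + 1)) : wt X * |X k.succ| ≤ 1 := by
  have h1 : (X k.succ) ^ 2 ≤ ‖X‖ ^ 2 - (X 0) ^ 2 := by
    rw [EuclideanSpace.real_norm_sq_eq, Fin.sum_univ_succ, add_sub_cancel_left]
    exact Finset.single_le_sum (f := fun k : Fin n => (X k.succ) ^ 2)
      (fun i _ => sq_nonneg _) (Finset.mem_univ k)
  have h2 : 0 ≤ (X k.succ) ^ 2 := sq_nonneg _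
  unfold wt
  set q : ℝ := 1 + (‖X‖ ^ 2 - (X 0) ^ 2) with hq
  have hq0 : 0 < q := by rw [hq]; linarith
  rw [Real.rpow_neg hq0.le, ← Real.sqrt_eq_rpow]
  have hs : 0 < Real.sqrt q := Real.sqrt_pos.mpr hq0
  rw [inv_mul_le_iff₀ hs, mul_one]
  apply Real.le_sqrt_of_sq_le
  rw [sq_abs, hq]; linarith

theorem hf_wt_osc {n : ℕ} (k : Fin n) {s : ℝ} (hs : 0 ≤ s) (X : E (n + 1)) :
    ‖(wt X : ℂ) * (hfe (hfd k s) X - 1)‖ ≤ 2 * Real.pi * s := by
  rw [norm_mul, Complex.norm_real, Real.norm_eq_abs, abs_of_pos (wt_pos X)]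
  have h1 : ‖hfe (hfd k s) X - 1‖ ≤ 2 * Real.pi * s * |X k.succ| := by
    unfold hfe
    rw [mul_comm, hfd_inner]
    refine (Real.norm_exp_I_mul_ofReal_sub_one_le).trans ?_
    rw [Real.norm_eq_abs, abs_mul, abs_of_pos (by positivity : (0:ℝ) < 2 * Real.pi), abs_mul,
      abs_of_nonneg hs]
    linarith
  calc wt X * ‖hfe (hfd k s) X - 1‖ ≤ wt X * (2 * Real.pi * s * |X k.succ|) :=
        mul_le_mul_of_nonneg_left h1 (wt_pos X).le
    _ = 2 * Real.pi * s * (wt X * |X k.succ|) := by ring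
    _ ≤ 2 * Real.pi * s * 1 := mul_le_mul_of_nonneg_left (hf_wt_mul k X) (by positivity)
    _ = 2 * Real.pi * s := mul_one _

theorem hf_mulop_sub_one {d : ℕ} {f : E d → ℂ} (hf : BM f) :
    mulop f - 1 = mulop (fun x => f x - 1) := by
  have h1 : BM (fun _ : E d => (-1 : ℂ)) := ⟨measurable_const, 1, fun x => by simp⟩
  have h2 : BM (fun _ : E d => (1 : ℂ)) := ⟨measurable_const, 1, fun x => by simp⟩
  have h3 : mulop (fun _ : E d => (-1 : ℂ)) = -1 := by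
    have := mulop_smul h2 (-1)
    rw [mulop_one] at this
    simp only [mul_one] at this
    rw [← this]; simp
  rw [sub_eq_add_neg, ← h3, mulop_add hf h1]
  rfl

theorem hf_Fm_sub {d : ℕ} {f g : E d → ℂ} (hf : BM f) (hg : BM g) :
    Fm f - Fm g = Fm (fun x => f x - g x) := by
  have hg' : BM (fun x => (-1 : ℂ) * g x) := by
    obtain ⟨h1, C, hC⟩ := hg
    exact ⟨h1.const_mul _, C, fun x => by simpa using hC x⟩
  have h1 := Fm_smul hg (-1)
  have h2 := Fm_add hf hg'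
  rw [← h1] at h2
  have h3 : Fm f - Fm g = Fm f + (-1 : ℂ) • Fm g := by simp [sub_eq_add_neg]
  rw [h3, h2]
  congr 1
  funext x
  ring

theorem hf_op_bound {n : ℕ} (k : Fin n) {N : ℝ} (hN : 1 ≤ N) {σ : E (n + 1) → ℂ} (hσ : Measurable σ)
    (hσ1 : ∀ x, ‖σ x‖ ≤ 1) {s : ℝ} (hs : 0 ≤ s) :
    ‖Wt n * Fm (fun ξ => ((hfm N k ξ : ℝ) : ℂ) * (σ (ξ - hfd k s) - σ ξ)) * Wt n‖
      ≤ 4 * Real.pi * s / Real.sqrt N := by
  have hσB : BM σ := ⟨hσ, 1, hσ1⟩
  have hσsB : BM (fun ξ => σ (ξ - hfd k s)) :=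
    ⟨hσ.comp (measurable_id.sub_const _), 1, fun x => hσ1 _⟩
  have hmB := hfm_BM hN k
  have hm'B : BM (fun ξ : E (n + 1) => ((hfm N k (ξ + hfd k s) : ℝ) : ℂ)) := by
    obtain ⟨h1, C, hC⟩ := hmB
    exact ⟨h1.comp (measurable_id.add_const _), C, fun x => hC _⟩
  have hsq : 0 < Real.sqrt N := Real.sqrt_pos.mpr (by linarith)
  have hsqN : Real.sqrt N ≤ N := by
    rw [Real.sqrt_le_left (by linarith)]; nlinarith
  set U : L2 (n + 1) →L[ℂ] L2 (n + 1) := mulop (hfe (hfd k s)) with hU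
  set U' : L2 (n + 1) →L[ℂ] L2 (n + 1) := mulop (hfe (-(hfd k s))) with hU'
  set A : L2 (n + 1) →L[ℂ] L2 (n + 1) := Wt n with hA
  set M : L2 (n + 1) →L[ℂ] L2 (n + 1) := Fm (fun ξ : E (n + 1) => ((hfm N k ξ : ℝ) : ℂ)) with hM
  set M' : L2 (n + 1) →L[ℂ] L2 (n + 1) :=
    Fm (fun ξ : E (n + 1) => ((hfm N k (ξ + hfd k s) : ℝ) : ℂ)) with hM'
  set Es : L2 (n + 1) →L[ℂ] L2 (n + 1) := Fm (fun ξ => σ (ξ - hfd k s)) with hEs
  set E0 : L2 (n + 1) →L[ℂ] L2 (n + 1) := Fm σ with hE0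
  have hUU : U * U' = 1 := by
    rw [hU, hU', mulop_mul (hfe_BM _) (hfe_BM _), ← mulop_one]
    congr 1
    funext x
    exact hfe_neg _ x
  have hc1 : Es * U = U * E0 := hf_conj hσB (hfd k s)
  have hEs2 : Es = U * E0 * U' := by
    rw [← hc1, mul_assoc, hUU, mul_one]
  have hc2 : M * U = U * M' := by
    have := hf_conj hm'B (hfd k s)
    simp only [sub_add_cancel] at this
    exact this
  have hAU : A * U' = U' * A := by
    rw [hA, hU']
    unfold Wt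
    rw [mulop_mul BM_wt (hfe_BM _), mulop_mul (hfe_BM _) BM_wt]
    congr 1
    funext x
    ring
  have hfac : Fm (fun ξ => ((hfm N k ξ : ℝ) : ℂ) * (σ (ξ - hfd k s) - σ ξ)) = M * (Es - E0) := by
    rw [hEs, hE0, hf_Fm_sub hσsB hσB, hM, Fm_mul hmB]
    obtain ⟨h1, C, hC⟩ := hσsB
    obtain ⟨h2, C2, hC2⟩ := hσB
    exact ⟨h1.sub h2, C + C2, fun x => (norm_sub_le _ _).trans (add_le_add (hC x) (hC2 x))⟩
  have hmain : A * (M * (Es - E0)) * A
      = (A * U * (M' - M) + (A * (U - 1)) * M) * E0 * A * U' - A * M * E0 * ((U - 1) * A) * U' := by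
    have e1 : A * (M * (Es - E0)) * A = A * M * (U * E0 - E0 * U) * A * U' := by
      have : Es - E0 = (U * E0 - E0 * U) * U' := by
        rw [hEs2, sub_mul, mul_assoc E0 U U', hUU, mul_one]
      rw [this]
      calc A * (M * ((U * E0 - E0 * U) * U')) * A = A * M * (U * E0 - E0 * U) * (U' * A) := by
            simp only [mul_assoc]
        _ = A * M * (U * E0 - E0 * U) * (A * U') := by rw [hAU]
        _ = A * M * (U * E0 - E0 * U) * A * U' := by simp only [mul_assoc]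
    have e2 : A * M * (U * E0 - E0 * U) = (A * (M * U) - A * M) * E0 - A * M * E0 * (U - 1) := by
      noncomm_ring
    have e3 : A * (M * U) - A * M = A * U * (M' - M) + (A * (U - 1)) * M := by
      rw [hc2]; noncomm_ring
    rw [e1, e2, e3]
    noncomm_ring
  have nU : ‖U‖ ≤ 1 := mulop_norm (hfe_BM _) 1 (fun x => (hfe_norm _ x).le)
  have nU' : ‖U'‖ ≤ 1 := mulop_norm (hfe_BM _) 1 (fun x => (hfe_norm _ x).le)
  have nE : ‖E0‖ ≤ 1 := Fm_norm hσB 1 hσ1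
  have nA : ‖A‖ ≤ 1 := Wt_norm n
  have nM : ‖M‖ ≤ 1 / (2 * Real.sqrt N) := Fm_norm hmB _ (fun x => by
    rw [Complex.norm_real, Real.norm_eq_abs]; exact hfm_bound hN k x)
  have nMM : ‖M' - M‖ ≤ 2 * Real.pi * s / N := by
    rw [hM', hM, hf_Fm_sub hm'B hmB]
    apply Fm_norm
    · obtain ⟨h1, C, hC⟩ := hm'B
      obtain ⟨h2, C2, hC2⟩ := hmB
      exact ⟨h1.sub h2, C + C2, fun x => (norm_sub_le _ _).trans (add_le_add (hC x) (hC2 x))⟩
    · intro x
      rw [← Complex.ofReal_sub, Complex.norm_real, Real.norm_eq_abs]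
      exact hfm_shift hN k hs x
  have hU1B : BM (fun x : E (n + 1) => hfe (hfd k s) x - 1) :=
    ⟨(hfe_meas _).sub_const _, 2, fun x => by
      refine (norm_sub_le _ _).trans ?_
      rw [hfe_norm, norm_one]; norm_num⟩
  have nAU : ‖A * (U - 1)‖ ≤ 2 * Real.pi * s := by
    rw [hU, hf_mulop_sub_one (hfe_BM _), hA]
    unfold Wt
    rw [mulop_mul BM_wt hU1B]
    apply mulop_norm
    · obtain ⟨h1, C, hC⟩ := hU1B
      exact ⟨(Complex.measurable_ofReal.comp wt_meas).mul h1, 2 * Real.pi * s,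
        fun x => hf_wt_osc k hs x⟩
    · exact fun x => hf_wt_osc k hs x
  have nUA : ‖(U - 1) * A‖ ≤ 2 * Real.pi * s := by
    rw [hU, hf_mulop_sub_one (hfe_BM _), hA]
    unfold Wt
    rw [mulop_mul hU1B BM_wt]
    have : (fun x : E (n + 1) => (hfe (hfd k s) x - 1) * (wt x : ℂ))
        = fun x => (wt x : ℂ) * (hfe (hfd k s) x - 1) := by funext x; ring
    rw [this]
    apply mulop_norm
    · obtain ⟨h1, C, hC⟩ := hU1B
      exact ⟨(Complex.measurable_ofReal.comp wt_meas).mul h1, 2 * Real.pi * s,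
        fun x => hf_wt_osc k hs x⟩
    · exact fun x => hf_wt_osc k hs x
  rw [hfac, hmain]
  have hp : 0 ≤ 2 * Real.pi * s := by positivity
  have b1 : ‖(A * U * (M' - M) + (A * (U - 1)) * M) * E0 * A * U'‖
      ≤ 2 * Real.pi * s / N + 2 * Real.pi * s * (1 / (2 * Real.sqrt N)) := by
    have c1 : ‖A * U * (M' - M)‖ ≤ 2 * Real.pi * s / N := by
      calc ‖A * U * (M' - M)‖ ≤ (1 * 1) * (2 * Real.pi * s / N) :=
            norm_mul_le_of_le (norm_mul_le_of_le nA nU) nMM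
        _ = 2 * Real.pi * s / N := by ring
    have c2 : ‖(A * (U - 1)) * M‖ ≤ 2 * Real.pi * s * (1 / (2 * Real.sqrt N)) :=
      norm_mul_le_of_le nAU nM
    calc ‖(A * U * (M' - M) + (A * (U - 1)) * M) * E0 * A * U'‖
        ≤ (2 * Real.pi * s / N + 2 * Real.pi * s * (1 / (2 * Real.sqrt N))) * 1 * 1 * 1 :=
          norm_mul_le_of_le (norm_mul_le_of_le (norm_mul_le_of_le (norm_add_le_of_le c1 c2) nE) nA) nU'
      _ = _ := by ring
  have b2 : ‖A * M * E0 * ((U - 1) * A) * U'‖ ≤ 2 * Real.pi * s * (1 / (2 * Real.sqrt N)) := by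
    calc ‖A * M * E0 * ((U - 1) * A) * U'‖
        ≤ 1 * (1 / (2 * Real.sqrt N)) * 1 * (2 * Real.pi * s) * 1 :=
          norm_mul_le_of_le (norm_mul_le_of_le (norm_mul_le_of_le (norm_mul_le_of_le nA nM) nE) nUA) nU'
      _ = _ := by ring
  refine (norm_sub_le _ _).trans ((add_le_add b1 b2).trans ?_)
  have hN0 : 0 < N := by linarith
  have c3 : 2 * Real.pi * s / N ≤ 2 * Real.pi * s / Real.sqrt N :=
    div_le_div_of_nonneg_left hp hsq hsqN
  have c4 : 2 * Real.pi * s * (1 / (2 * Real.sqrt N)) = Real.pi * s / Real.sqrt N := by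
    field_simp
  have c5 : 2 * Real.pi * s / Real.sqrt N = 2 * (Real.pi * s / Real.sqrt N) := by ring
  have c6 : 4 * Real.pi * s / Real.sqrt N = 4 * (Real.pi * s / Real.sqrt N) := by ring
  rw [c4, c6]
  linarith

theorem hf_weak {d : ℕ} {h : ℕ → E d → ℂ} {g : E d → ℂ} (hB : ∀ i, BM (h i)) (gB : BM g) (C : ℝ)
    (hC : ∀ i x, ‖h i x‖ ≤ C) (hlim : ∀ x, Tendsto (fun i => h i x) atTop (𝓝 (g x)))
    (v z : L2 d) :
    Tendsto (fun i => inner ℂ (Fm (h i) v) z) atTop (𝓝 (inner ℂ (Fm g v) z)) := by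
  have key : ∀ f : E d → ℂ, BM f → inner ℂ (Fm f v) z
      = ∫ x, inner ℂ (f x * (FT d v : E d → ℂ) x) ((FT d z : E d → ℂ) x) := by
    intro f hf
    rw [← (FT d).inner_map_map, Fm_apply, L2.inner_def]
    apply integral_congr_ae
    filter_upwards [mulop_spec hf (FT d v)] with x hx
    rw [hx]
  rw [key g gB]
  simp_rw [fun i => key (h i) (hB i)]
  have hint : Integrable (fun x => ‖(FT d v : E d → ℂ) x‖ * ‖(FT d z : E d → ℂ) x‖) volume :=
    MemLp.integrable_mul (p := 2) (q := 2) (Lp.memLp (FT d v)).norm (Lp.memLp (FT d z)).norm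
  apply tendsto_integral_of_dominated_convergence
    (fun x => C * (‖(FT d v : E d → ℂ) x‖ * ‖(FT d z : E d → ℂ) x‖))
  · intro i
    apply AEStronglyMeasurable.inner
    · exact ((hB i).1.aestronglyMeasurable).mul (Lp.aestronglyMeasurable _)
    · exact Lp.aestronglyMeasurable _
  · exact hint.const_mul C
  · intro i
    refine Eventually.of_forall (fun x => ?_)
    refine (norm_inner_le_norm _ _).trans ?_
    rw [norm_mul, ← mul_assoc]
    apply mul_le_mul_of_nonneg_right _ (norm_nonneg _)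
    exact mul_le_mul_of_nonneg_right (hC i x) (norm_nonneg _)
  · refine Eventually.of_forall (fun x => ?_)
    exact ((hlim x).mul_const _).inner tendsto_const_nhds

theorem hf_lim_bound {d : ℕ} {h : ℕ → E d → ℂ} {g : E d → ℂ} (hB : ∀ i, BM (h i)) (gB : BM g)
    (C : ℝ) (hC : ∀ i x, ‖h i x‖ ≤ C) (hlim : ∀ x, Tendsto (fun i => h i x) atTop (𝓝 (g x)))
    (A B : L2 d →L[ℂ] L2 d) (K : ℝ) (hK : ∀ i, ‖A * Fm (h i) * B‖ ≤ K) :
    ‖A * Fm g * B‖ ≤ K := by
  have hK0 : 0 ≤ K := (norm_nonneg _).trans (hK 0)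
  apply ContinuousLinearMap.opNorm_le_bound _ hK0
  intro u
  set w := (A * Fm g * B) u with hw
  have h1 : ∀ f : E d → ℂ, inner ℂ ((A * Fm f * B) u) w
      = inner ℂ (Fm f (B u)) (ContinuousLinearMap.adjoint A w) := by
    intro f
    rw [ContinuousLinearMap.adjoint_inner_right]
    rfl
  have h2 : Tendsto (fun i => inner ℂ ((A * Fm (h i) * B) u) w) atTop
      (𝓝 (inner ℂ ((A * Fm g * B) u) w)) := by
    simp_rw [h1]
    exact hf_weak hB gB C hC hlim _ _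
  have h3 : ‖inner ℂ ((A * Fm g * B) u) w‖ ≤ K * ‖u‖ * ‖w‖ := by
    apply le_of_tendsto h2.norm
    refine Eventually.of_forall (fun i => ?_)
    refine (norm_inner_le_norm _ _).trans ?_
    apply mul_le_mul_of_nonneg_right _ (norm_nonneg _)
    exact ((A * Fm (h i) * B).le_opNorm u).trans
      (mul_le_mul_of_nonneg_right (hK i) (norm_nonneg _))
  rw [← hw, inner_self_eq_norm_sq_to_K] at h3
  have h4 : ‖((‖w‖ : ℂ)) ^ 2‖ = ‖w‖ ^ 2 := by simp
  by_cases hw0 : ‖w‖ = 0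
  · rw [hw0]; positivity
  · have hwp : 0 < ‖w‖ := lt_of_le_of_ne (norm_nonneg _) (Ne.symm hw0)
    have h5 : ‖w‖ ^ 2 ≤ K * ‖u‖ * ‖w‖ := by
      rw [← h4]; exact h3
    nlinarith

/-- phase -/
noncomputable def hfθ (τ y s : ℝ) : ℝ := -(τ * (4 * Real.pi ^ 2 * (s ^ 2 - 2 * s * y)))

/-- the symbol `exp(-iτ(a + rp))` -/
noncomputable def hfσ {n : ℕ} (a : ℝ → ℝ) (τ : ℝ) (ξ : E (n + 1)) : ℂ :=
  Complex.exp (-(Complex.I * ((τ * (a (ξ 0) + rp ξ) : ℝ) : ℂ)))

theorem hfσ_norm {n : ℕ} (a : ℝ → ℝ) (τ : ℝ) (ξ : E (n + 1)) : ‖hfσ a τ ξ‖ = 1 := by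
  unfold hfσ
  have : -(Complex.I * ((τ * (a (ξ 0) + rp ξ) : ℝ) : ℂ))
      = ((-(τ * (a (ξ 0) + rp ξ)) : ℝ) : ℂ) * Complex.I := by push_cast; ring
  rw [this, Complex.norm_exp_ofReal_mul_I]

theorem hfσ_meas {n : ℕ} {a : ℝ → ℝ} (ha : Measurable a) (τ : ℝ) :
    Measurable (hfσ a τ : E (n + 1) → ℂ) := by
  unfold hfσ
  apply Complex.measurable_exp.comp
  apply Measurable.neg
  apply Measurable.const_mul
  apply Complex.measurable_ofReal.comp
  apply Measurable.const_mul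
  apply Measurable.add
  · apply ha.comp
    fun_prop
  · exact rp_meas

theorem hfσ_shift {n : ℕ} (a : ℝ → ℝ) (τ : ℝ) (k : Fin n) (s : ℝ) (ξ : E (n + 1)) :
    hfσ a τ (ξ - hfd k s) = hfσ a τ ξ * Complex.exp (Complex.I * (hfθ τ (ξ k.succ) s : ℂ)) := by
  unfold hfσ hfθ
  have h0 : (ξ - hfd k s) 0 = ξ 0 := by
    rw [PiLp.sub_apply, hfd_apply]
    have : ¬ ((0 : Fin (n + 1)) = k.succ) := (Fin.succ_ne_zero k).symm
    simp [this]
  rw [h0, hf_rp_shift, ← Complex.exp_add]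
  congr 1
  push_cast
  ring

/-- approximating symbols -/
noncomputable def hfh {n : ℕ} (a : ℝ → ℝ) (τ N : ℝ) (k : Fin n) (s : ℝ) (ξ : E (n + 1)) : ℂ :=
  (4 * Real.pi * Complex.I * τ * s)⁻¹ * (((hfm N k ξ : ℝ) : ℂ) * (hfσ a τ (ξ - hfd k s) - hfσ a τ ξ))

theorem hfh_bound {n : ℕ} (a : ℝ → ℝ) {τ N : ℝ} (hτ : 0 < τ) (hN : 1 ≤ N) (k : Fin n) {s : ℝ}
    (hs : 0 < s) (hs1 : s ≤ 1) (ξ : E (n + 1)) : ‖hfh a τ N k s ξ‖ ≤ Real.pi + 1 := by
  unfold hfh
  rw [hfσ_shift]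
  have e1 : hfσ a τ ξ * Complex.exp (Complex.I * (hfθ τ (ξ k.succ) s : ℂ)) - hfσ a τ ξ
      = hfσ a τ ξ * (Complex.exp (Complex.I * (hfθ τ (ξ k.succ) s : ℂ)) - 1) := by ring
  rw [e1, norm_mul, norm_mul, norm_mul, hfσ_norm, one_mul, norm_inv]
  have e2 : ‖(4 * Real.pi * Complex.I * τ * s : ℂ)‖ = 4 * Real.pi * τ * s := by
    simp only [norm_mul, Complex.norm_I, Complex.norm_real, Real.norm_eq_abs, abs_of_pos hτ,
      abs_of_pos hs, abs_of_pos Real.pi_pos]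
    norm_num
  rw [e2, Complex.norm_real, Real.norm_eq_abs]
  have h1 : ‖Complex.exp (Complex.I * (hfθ τ (ξ k.succ) s : ℂ)) - 1‖
      ≤ τ * (4 * Real.pi ^ 2 * (s ^ 2 + 2 * s * |ξ k.succ|)) := by
    refine (Real.norm_exp_I_mul_ofReal_sub_one_le).trans ?_
    unfold hfθ
    rw [Real.norm_eq_abs, abs_neg, abs_mul, abs_of_pos hτ, abs_mul,
      abs_of_pos (by positivity : (0:ℝ) < 4 * Real.pi ^ 2)]
    apply mul_le_mul_of_nonneg_left _ hτ.le
    apply mul_le_mul_of_nonneg_left _ (by positivity)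
    refine (abs_sub _ _).trans ?_
    rw [abs_mul, abs_of_pos (by positivity : 0 < 2 * s), abs_of_nonneg (sq_nonneg s)]
  have h2 : |hfm N k ξ| ≤ 1 := by
    refine (hfm_bound hN k ξ).trans ?_
    have : 1 ≤ Real.sqrt N := by rw [Real.one_le_sqrt]; exact hN
    rw [div_le_one (by positivity)]; linarith
  have h3 : |hfm N k ξ| * (2 * |ξ k.succ|) ≤ 1 / Real.pi := by
    unfold hfm
    have h0 := rp_nonneg ξ
    have h4 := hf_sq_le k ξ
    have hpi := Real.pi_pos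
    rw [abs_div, abs_of_pos (show 0 < rp ξ + N by linarith), abs_mul,
      abs_of_pos (by positivity : (0:ℝ) < 2 * Real.pi), div_mul_eq_mul_div,
      div_le_div_iff₀ (by linarith) hpi]
    have h5 : |ξ k.succ| * |ξ k.succ| = ξ k.succ ^ 2 := by rw [← sq, sq_abs]
    nlinarith [h5]
  have hA0 : 0 ≤ |hfm N k ξ| := abs_nonneg _
  calc (4 * Real.pi * τ * s)⁻¹ * (|hfm N k ξ| * ‖Complex.exp (Complex.I * (hfθ τ (ξ k.succ) s : ℂ)) - 1‖)
      ≤ (4 * Real.pi * τ * s)⁻¹ * (|hfm N k ξ| * (τ * (4 * Real.pi ^ 2 * (s ^ 2 + 2 * s * |ξ k.succ|)))) := by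
        apply mul_le_mul_of_nonneg_left _ (by positivity)
        exact mul_le_mul_of_nonneg_left h1 hA0
    _ = Real.pi * (|hfm N k ξ| * s) + Real.pi * (|hfm N k ξ| * (2 * |ξ k.succ|)) := by
        field_simp
    _ ≤ Real.pi * (1 * 1) + Real.pi * (1 / Real.pi) := by
        apply add_le_add
        · apply mul_le_mul_of_nonneg_left _ Real.pi_pos.le
          exact mul_le_mul h2 hs1 hs.le (by norm_num)
        · exact mul_le_mul_of_nonneg_left h3 Real.pi_pos.le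
    _ = Real.pi + 1 := by field_simp

/-- limiting symbol -/
noncomputable def hfg {n : ℕ} (a : ℝ → ℝ) (τ N : ℝ) (k : Fin n) (ξ : E (n + 1)) : ℂ :=
  hfσ a τ ξ * ((((2 * Real.pi * ξ k.succ) ^ 2 / (rp ξ + N)) : ℝ) : ℂ)

theorem hfh_lim {n : ℕ} (a : ℝ → ℝ) {τ N : ℝ} (hτ : 0 < τ) (hN : 1 ≤ N) (k : Fin n) (ξ : E (n + 1)) :
    Tendsto (fun i : ℕ => hfh a τ N k (1 / ((i : ℝ) + 1)) ξ) atTop (𝓝 (hfg a τ N k ξ)) := by
  set y : ℝ := ξ k.succ with hy
  have hd : HasDerivAt (fun s : ℝ => hfθ τ y s) (8 * Real.pi ^ 2 * τ * y) 0 := by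
    unfold hfθ
    have h1 : HasDerivAt (fun s : ℝ => s ^ 2 - 2 * s * y) (2 * (0:ℝ) ^ 1 * 1 - 2 * 1 * y) 0 := by
      apply HasDerivAt.sub
      · simpa using (hasDerivAt_pow 2 (0 : ℝ))
      · exact ((hasDerivAt_id (0 : ℝ)).const_mul 2).mul_const y
    have h2 := ((h1.const_mul (4 * Real.pi ^ 2)).const_mul τ).neg
    exact h2.congr_deriv (by ring)
  have hd2 : HasDerivAt (fun s : ℝ => Complex.exp (Complex.I * (hfθ τ y s : ℂ)))
      (Complex.exp (Complex.I * (hfθ τ y 0 : ℂ)) * (Complex.I * ((8 * Real.pi ^ 2 * τ * y : ℝ) : ℂ))) 0 :=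
    (hd.ofReal_comp.const_mul Complex.I).cexp
  have h0 : hfθ τ y 0 = 0 := by unfold hfθ; ring
  rw [h0] at hd2
  simp only [Complex.ofReal_zero, mul_zero, Complex.exp_zero, one_mul] at hd2
  rw [hasDerivAt_iff_tendsto_slope_zero] at hd2
  simp only [zero_add, h0, Complex.ofReal_zero, mul_zero, Complex.exp_zero] at hd2
  have hseq : Tendsto (fun i : ℕ => 1 / ((i : ℝ) + 1)) atTop (𝓝[≠] (0 : ℝ)) := by
    rw [tendsto_nhdsWithin_iff]
    refine ⟨tendsto_one_div_add_atTop_nhds_zero_nat, Eventually.of_forall (fun i => ?_)⟩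
    have : (0 : ℝ) < 1 / ((i : ℝ) + 1) := by positivity
    exact this.ne'
  have h3 := hd2.comp hseq
  have h4 := h3.const_mul ((4 * Real.pi * Complex.I * τ)⁻¹ * (((hfm N k ξ : ℝ) : ℂ) * hfσ a τ ξ))
  have hne : (4 * Real.pi * Complex.I * τ : ℂ) ≠ 0 := by
    have : (Real.pi : ℂ) ≠ 0 := by exact_mod_cast Real.pi_ne_zero
    have h6 : (τ : ℂ) ≠ 0 := by exact_mod_cast hτ.ne'
    simp [this, h6]
  have hval : (4 * Real.pi * Complex.I * τ)⁻¹ * (((hfm N k ξ : ℝ) : ℂ) * hfσ a τ ξ) *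
      (Complex.I * ((8 * Real.pi ^ 2 * τ * y : ℝ) : ℂ)) = hfg a τ N k ξ := by
    unfold hfg hfm
    rw [← hy]
    have h0 := rp_nonneg ξ
    have hD : ((rp ξ + N : ℝ) : ℂ) ≠ 0 := by
      have : rp ξ + N ≠ 0 := by linarith
      exact_mod_cast this
    have hτ' : (τ : ℂ) ≠ 0 := by exact_mod_cast hτ.ne'
    have hpi' : (Real.pi : ℂ) ≠ 0 := by exact_mod_cast Real.pi_ne_zero
    have hI : Complex.I ≠ 0 := Complex.I_ne_zero
    push_cast at hD ⊢
    field_simp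
    ring
  rw [hval] at h4
  refine h4.congr (fun i => ?_)
  simp only [Function.comp]
  unfold hfh
  rw [hfσ_shift, ← hy]
  have hi : ((1 / ((i : ℝ) + 1) : ℝ) : ℂ) ≠ 0 := by
    have : (1 / ((i : ℝ) + 1)) ≠ 0 := by positivity
    exact_mod_cast this
  rw [Complex.real_smul, Complex.ofReal_inv]
  generalize ((1 / ((i : ℝ) + 1) : ℝ) : ℂ) = c at hi ⊢
  field_simp

theorem hfh_BM {n : ℕ} {a : ℝ → ℝ} (ha : Measurable a) {τ N : ℝ} (hτ : 0 < τ) (hN : 1 ≤ N) (k : Fin n)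
    {s : ℝ} (hs : 0 < s) (hs1 : s ≤ 1) : BM (hfh a τ N k s : E (n + 1) → ℂ) := by
  refine ⟨?_, Real.pi + 1, fun ξ => hfh_bound a hτ hN k hs hs1 ξ⟩
  unfold hfh
  apply Measurable.const_mul
  apply Measurable.mul
  · exact Complex.measurable_ofReal.comp (hfm_meas N k)
  · exact ((hfσ_meas ha τ).comp (measurable_id.sub_const _)).sub (hfσ_meas ha τ)

theorem hfg_bound {n : ℕ} (a : ℝ → ℝ) (τ : ℝ) {N : ℝ} (hN : 1 ≤ N) (k : Fin n) (ξ : E (n + 1)) :
    ‖hfg a τ N k ξ‖ ≤ 1 := by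
  unfold hfg
  have h0 := rp_nonneg ξ
  have h1 := hf_sq_le k ξ
  rw [norm_mul, hfσ_norm, one_mul, Complex.norm_real, Real.norm_eq_abs, abs_of_nonneg (by positivity),
    div_le_one (by linarith)]
  linarith

theorem hfg_BM {n : ℕ} {a : ℝ → ℝ} (ha : Measurable a) (τ : ℝ) {N : ℝ} (hN : 1 ≤ N) (k : Fin n) :
    BM (hfg a τ N k : E (n + 1) → ℂ) := by
  refine ⟨?_, 1, fun ξ => hfg_bound a τ hN k ξ⟩
  unfold hfg
  apply (hfσ_meas ha τ).mul
  apply Complex.measurable_ofReal.comp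
  apply Measurable.div
  · fun_prop
  · exact rp_meas.add_const N

theorem hfg_op {n : ℕ} {a : ℝ → ℝ} (ha : Measurable a) {τ N : ℝ} (hτ : 0 < τ) (hN : 1 ≤ N)
    (k : Fin n) : ‖Wt n * Fm (hfg a τ N k) * Wt n‖ ≤ 1 / (τ * Real.sqrt N) := by
  have hs : ∀ i : ℕ, 0 < 1 / ((i : ℝ) + 1) := fun i => by positivity
  have hs1 : ∀ i : ℕ, 1 / ((i : ℝ) + 1) ≤ 1 := fun i => by
    rw [div_le_one (by positivity)]
    have : (0 : ℝ) ≤ i := Nat.cast_nonneg i
    linarith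
  apply hf_lim_bound (h := fun i : ℕ => hfh a τ N k (1 / ((i : ℝ) + 1)))
    (fun i => hfh_BM ha hτ hN k (hs i) (hs1 i)) (hfg_BM ha τ hN k) (Real.pi + 1)
    (fun i x => hfh_bound a hτ hN k (hs i) (hs1 i) x) (fun x => hfh_lim a hτ hN k x)
  intro i
  set s : ℝ := 1 / ((i : ℝ) + 1) with hsdef
  have hsp := hs i
  rw [← hsdef] at hsp
  have hb : BM (fun ξ : E (n + 1) => ((hfm N k ξ : ℝ) : ℂ) * (hfσ a τ (ξ - hfd k s) - hfσ a τ ξ)) := by
    refine ⟨?_, 2, fun ξ => ?_⟩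
    · apply Measurable.mul
      · exact Complex.measurable_ofReal.comp (hfm_meas N k)
      · exact ((hfσ_meas ha τ).comp (measurable_id.sub_const _)).sub (hfσ_meas ha τ)
    · rw [norm_mul, Complex.norm_real, Real.norm_eq_abs]
      have h2 : |hfm N k ξ| ≤ 1 := by
        refine (hfm_bound hN k ξ).trans ?_
        have : 1 ≤ Real.sqrt N := by rw [Real.one_le_sqrt]; exact hN
        rw [div_le_one (by positivity)]; linarith
      have h3 : ‖hfσ a τ (ξ - hfd k s) - hfσ a τ ξ‖ ≤ 2 := by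
        refine (norm_sub_le _ _).trans ?_
        rw [hfσ_norm, hfσ_norm]; norm_num
      calc |hfm N k ξ| * ‖hfσ a τ (ξ - hfd k s) - hfσ a τ ξ‖ ≤ 1 * 2 :=
            mul_le_mul h2 h3 (norm_nonneg _) (by norm_num)
        _ = 2 := by norm_num
  have e1 : Fm (hfh a τ N k s : E (n + 1) → ℂ) = (4 * Real.pi * Complex.I * τ * s : ℂ)⁻¹ •
      Fm (fun ξ : E (n + 1) => ((hfm N k ξ : ℝ) : ℂ) * (hfσ a τ (ξ - hfd k s) - hfσ a τ ξ)) := by
    rw [Fm_smul hb]
    rfl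
  show ‖Wt n * Fm (hfh a τ N k s) * Wt n‖ ≤ _
  rw [e1, mul_smul_comm, smul_mul_assoc, norm_smul, norm_inv]
  have e2 : ‖(4 * Real.pi * Complex.I * τ * s : ℂ)‖ = 4 * Real.pi * τ * s := by
    simp only [norm_mul, Complex.norm_I, Complex.norm_real, Real.norm_eq_abs, abs_of_pos hτ,
      abs_of_pos hsp, abs_of_pos Real.pi_pos]
    norm_num
  rw [e2]
  have h5 := hf_op_bound k hN (hfσ_meas ha τ) (fun x => (hfσ_norm a τ x).le) hsp.le
  have hsq : 0 < Real.sqrt N := Real.sqrt_pos.mpr (by linarith)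
  calc (4 * Real.pi * τ * s)⁻¹ * ‖Wt n * Fm (fun ξ : E (n + 1) =>
        ((hfm N k ξ : ℝ) : ℂ) * (hfσ a τ (ξ - hfd k s) - hfσ a τ ξ)) * Wt n‖
      ≤ (4 * Real.pi * τ * s)⁻¹ * (4 * Real.pi * s / Real.sqrt N) :=
        mul_le_mul_of_nonneg_left h5 (by positivity)
    _ = 1 / (τ * Real.sqrt N) := by
        have := Real.pi_pos
        field_simp

theorem hfsum_op {n : ℕ} {a : ℝ → ℝ} (ha : Measurable a) {τ N : ℝ} (hτ : 0 < τ) (hN : 1 ≤ N)
    (S : Finset (Fin n)) : BM (fun ξ : E (n + 1) => ∑ k ∈ S, hfg a τ N k ξ) ∧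
      ‖Wt n * Fm (fun ξ : E (n + 1) => ∑ k ∈ S, hfg a τ N k ξ) * Wt n‖
        ≤ (S.card : ℝ) * (1 / (τ * Real.sqrt N)) := by
  classical
  induction S using Finset.induction_on with
  | empty =>
    simp only [Finset.sum_empty, Finset.card_empty, Nat.cast_zero, zero_mul]
    have h1 : BM (fun _ : E (n + 1) => (0 : ℂ)) := ⟨measurable_const, 0, fun x => by simp⟩
    refine ⟨h1, ?_⟩
    have h2 : ‖Fm (fun _ : E (n + 1) => (0 : ℂ))‖ ≤ 0 := Fm_norm h1 0 (fun x => by simp)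
    have h3 : Fm (fun _ : E (n + 1) => (0 : ℂ)) = 0 := norm_le_zero_iff.mp h2
    rw [h3]; simp
  | insert k S hk ih =>
    obtain ⟨h1, h2⟩ := ih
    have e1 : (fun ξ : E (n + 1) => ∑ k' ∈ insert k S, hfg a τ N k' ξ)
        = fun ξ => hfg a τ N k ξ + ∑ k' ∈ S, hfg a τ N k' ξ := by
      funext ξ; rw [Finset.sum_insert hk]
    rw [e1]
    have hg := hfg_BM (n := n) ha τ hN k
    refine ⟨?_, ?_⟩
    · obtain ⟨m1, C1, hC1⟩ := hg
      obtain ⟨m2, C2, hC2⟩ := h1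
      exact ⟨m1.add m2, C1 + C2, fun x => (norm_add_le _ _).trans (add_le_add (hC1 x) (hC2 x))⟩
    · rw [← Fm_add hg h1, Finset.card_insert_of_notMem hk]
      have e2 : Wt n * (Fm (hfg a τ N k) + Fm (fun ξ : E (n + 1) => ∑ k' ∈ S, hfg a τ N k' ξ)) * Wt n
          = Wt n * Fm (hfg a τ N k) * Wt n +
            Wt n * Fm (fun ξ : E (n + 1) => ∑ k' ∈ S, hfg a τ N k' ξ) * Wt n := by
        rw [mul_add, add_mul]
      rw [e2]
      refine (norm_add_le _ _).trans ((add_le_add (hfg_op ha hτ hN k) h2).trans ?_)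
      push_cast
      linarith

/-! ## TARGETS -/

theorem hf_time (n : ℕ) : ∃ C : ℝ, 0 < C ∧ ∀ a : ℝ → ℝ, Measurable a → ∀ N τ : ℝ, 1 ≤ N → 0 < τ →
    ‖Wt n * Fm (fun ξ : E (n + 1) =>
        Complex.exp (-(Complex.I * ((τ * (a (ξ 0) + rp ξ) : ℝ) : ℂ))) *
          ((rp ξ / (rp ξ + N) : ℝ) : ℂ)) * Wt n‖ ≤ C / (τ * Real.sqrt N) := by
  refine ⟨n + 1, by positivity, fun a ha N τ hN hτ => ?_⟩
  have e1 : (fun ξ : E (n + 1) =>
        Complex.exp (-(Complex.I * ((τ * (a (ξ 0) + rp ξ) : ℝ) : ℂ))) *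
          ((rp ξ / (rp ξ + N) : ℝ) : ℂ)) = fun ξ => ∑ k : Fin n, hfg a τ N k ξ := by
    funext ξ
    unfold hfg
    rw [← Finset.mul_sum, ← Complex.ofReal_sum, ← Finset.sum_div, ← hf_rp_eq]
    rfl
  rw [e1]
  refine (hfsum_op ha hτ hN Finset.univ).2.trans ?_
  have hsq : 0 < Real.sqrt N := Real.sqrt_pos.mpr (by linarith)
  rw [Finset.card_univ, Fintype.card_fin, mul_one_div]
  apply div_le_div_of_nonneg_right _ (by positivity)
  linarith

end Pool.Agent.Helper41.CE
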