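import Pool.Agent.Helper41.CE.TDefs
import Pool.Agent.Helper41.CE.CU01
import Pool.Agent.Helper41.CE.CU02
import Pool.Agent.Helper41.CE.CU03
import Pool.Agent.Helper41.CE.CU14
import Pool.Agent.Helper41.CE.CU21

/-!
# Semiclassical eigenvalue bounds for Schroedinger operators: definitions
-/

open MeasureTheory Filter Topology Set
open scoped ENNReal NNReal ContDiff

namespace Pool.Agent.Helper41.CE


theorem aux_laplace {d : ℕ} {σ : E d → ℝ} (hσ : Measurable σ) {h : E d → ℂ} (hh : Measurable h)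
    (hh1 : ∀ ξ, ‖h ξ‖ ≤ 1) {W0 : E d → ℂ} (hW : Integrable W0 volume) {lam : ℂ} (hl : 0 < lam.im)
    {M c0 τ0 : ℝ} (hM : 0 ≤ M) (h0 : 0 < τ0) (hc : 0 ≤ c0)
    (b1 : ∀ τ : ℝ, 0 < τ →
      ‖∫ ξ, (Complex.exp (-(Complex.I * ((τ * σ ξ : ℝ) : ℂ))) * h ξ) * W0 ξ‖ ≤ M)
    (b2 : ∀ τ : ℝ, 0 < τ →
      ‖∫ ξ, (Complex.exp (-(Complex.I * ((τ * σ ξ : ℝ) : ℂ))) * h ξ) * W0 ξ‖ ≤ M * (c0 / τ)) :
    ‖∫ ξ, (((σ ξ : ℂ) - lam)⁻¹ * h ξ) * W0 ξ‖ ≤ M * (τ0 + c0 / τ0 / lam.im) := by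
  obtain ⟨F, hF⟩ : ∃ F : E d → ℝ → ℂ, ∀ ξ τ, F ξ τ =
      Complex.exp ((Complex.I * (lam - (σ ξ : ℂ))) * (τ : ℂ)) * (h ξ * W0 ξ) :=
    ⟨_, fun _ _ => rfl⟩
  have hFe : F = fun (ξ : E d) (τ : ℝ) => Complex.exp ((Complex.I * (lam - (σ ξ : ℂ))) * (τ : ℂ)) *
      (h ξ * W0 ξ) := by
    funext ξ τ
    exact hF ξ τ
  have hre : ∀ ξ, (Complex.I * (lam - (σ ξ : ℂ))).re = -lam.im := by
    intro ξ
    simp
  have hWh : Integrable (fun ξ => h ξ * W0 ξ) volume := by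
    refine hW.mono (hh.aestronglyMeasurable.mul hW.1) (ae_of_all _ fun ξ => ?_)
    rw [norm_mul]
    calc ‖h ξ‖ * ‖W0 ξ‖ ≤ 1 * ‖W0 ξ‖ := mul_le_mul_of_nonneg_right (hh1 ξ) (norm_nonneg _)
      _ = _ := one_mul _
  have hexp : IntegrableOn (fun τ : ℝ => Real.exp (-lam.im * τ)) (Ioi 0) :=
    integrableOn_exp_mul_Ioi (by linarith) 0
  have hne : ∀ ξ, Complex.exp ((Complex.I * (lam - (σ ξ : ℂ)))) ≠ 0 := fun ξ => Complex.exp_ne_zero _
  have hnorm : ∀ ξ (τ : ℝ), ‖Complex.exp ((Complex.I * (lam - (σ ξ : ℂ))) * (τ : ℂ))‖ =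
      Real.exp (-lam.im * τ) := by
    intro ξ τ
    rw [Complex.norm_exp]
    congr 1
    rw [Complex.re_mul_ofReal, hre]
  have hFint : Integrable (Function.uncurry F)
      ((volume : Measure (E d)).prod ((volume : Measure ℝ).restrict (Ioi 0))) := by
    have hprod : Integrable (fun z : E d × ℝ => ‖h z.1 * W0 z.1‖ * Real.exp (-lam.im * z.2))
        ((volume : Measure (E d)).prod ((volume : Measure ℝ).restrict (Ioi 0))) :=
      hWh.norm.mul_prod hexp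
    refine hprod.mono' ?_ (ae_of_all _ fun z => ?_)
    · have m1 : Measurable fun z : E d × ℝ =>
          Complex.exp ((Complex.I * (lam - (σ z.1 : ℂ))) * (z.2 : ℂ)) := by
        apply Complex.measurable_exp.comp
        refine (measurable_const.mul (measurable_const.sub ?_)).mul ?_
        · exact Complex.measurable_ofReal.comp (hσ.comp measurable_fst)
        · exact Complex.measurable_ofReal.comp measurable_snd
      have m2 : AEStronglyMeasurable (fun z : E d × ℝ => h z.1 * W0 z.1)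
          ((volume : Measure (E d)).prod ((volume : Measure ℝ).restrict (Ioi 0))) :=
        hWh.1.comp_fst
      have m3 := m1.aestronglyMeasurable.mul m2
      have : Function.uncurry F = fun z : E d × ℝ =>
          Complex.exp ((Complex.I * (lam - (σ z.1 : ℂ))) * (z.2 : ℂ)) * (h z.1 * W0 z.1) := by
        funext z
        exact hF z.1 z.2
      rw [this]
      exact m3
    · show ‖F z.1 z.2‖ ≤ _
      rw [hF, norm_mul, hnorm, mul_comm]
  have e1 : (∫ ξ, (((σ ξ : ℂ) - lam)⁻¹ * h ξ) * W0 ξ) =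
      ∫ ξ, Complex.I * ∫ τ in Ioi (0 : ℝ), F ξ τ := by
    congr 1
    funext ξ
    have h1 : (∫ τ in Ioi (0 : ℝ), F ξ τ) =
        (∫ τ in Ioi (0 : ℝ), Complex.exp ((Complex.I * (lam - (σ ξ : ℂ))) * (τ : ℂ))) *
          (h ξ * W0 ξ) := by
      rw [hFe]
      exact integral_mul_const _ _
    have h2 := integral_exp_mul_complex_Ioi (a := Complex.I * (lam - (σ ξ : ℂ)))
      (by rw [hre]; linarith) 0
    rw [h1, h2]
    have hne1 : (σ ξ : ℂ) - lam ≠ 0 := by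
      intro hz
      have := congrArg Complex.im hz
      simp at this
      linarith
    have hne2 : lam - (σ ξ : ℂ) ≠ 0 := by
      intro hz
      apply hne1
      rw [← neg_sub, hz, neg_zero]
    simp only [Complex.ofReal_zero, mul_zero, Complex.exp_zero]
    have hI := Complex.I_ne_zero
    field_simp
    ring
  have e2 : (∫ ξ, Complex.I * ∫ τ in Ioi (0 : ℝ), F ξ τ) =
      Complex.I * ∫ τ in Ioi (0 : ℝ), ∫ ξ, F ξ τ := by
    rw [integral_const_mul, integral_integral_swap hFint]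
  rw [e1, e2, norm_mul, Complex.norm_I, one_mul]
  have hg1 : ∀ τ : ℝ, ‖∫ ξ, F ξ τ‖ = Real.exp (-lam.im * τ) *
      ‖∫ ξ, (Complex.exp (-(Complex.I * ((τ * σ ξ : ℝ) : ℂ))) * h ξ) * W0 ξ‖ := by
    intro τ
    have h1 : (∫ ξ, F ξ τ) = Complex.exp (Complex.I * lam * (τ : ℂ)) *
        ∫ ξ, (Complex.exp (-(Complex.I * ((τ * σ ξ : ℝ) : ℂ))) * h ξ) * W0 ξ := by
      rw [← integral_const_mul]
      congr 1
      funext ξ
      rw [hF]
      have : (Complex.I * (lam - (σ ξ : ℂ))) * (τ : ℂ) =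
          Complex.I * lam * (τ : ℂ) + -(Complex.I * ((τ * σ ξ : ℝ) : ℂ)) := by
        push_cast
        ring
      rw [this, Complex.exp_add]
      ring
    rw [h1, norm_mul, Complex.norm_exp]
    congr 2
    simp
  have hbd : ∀ τ ∈ Ioi (0 : ℝ), ‖∫ ξ, F ξ τ‖ ≤ (Ioc 0 τ0).indicator (fun _ => M) τ +
      M * (c0 / τ0) * Real.exp (-lam.im * τ) := by
    intro τ hτ
    have hτ' : 0 < τ := hτ
    rw [hg1]
    have hE0 : 0 < Real.exp (-lam.im * τ) := Real.exp_pos _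
    have hE1 : Real.exp (-lam.im * τ) ≤ 1 := by
      apply Real.exp_le_one_iff.2
      have := mul_pos hl hτ'
      linarith
    by_cases hc1 : τ ≤ τ0
    · have hmem : τ ∈ Ioc 0 τ0 := ⟨hτ', hc1⟩
      rw [indicator_of_mem hmem]
      have h1 := b1 τ hτ'
      have h2 : Real.exp (-lam.im * τ) *
        ‖∫ ξ, (Complex.exp (-(Complex.I * ((τ * σ ξ : ℝ) : ℂ))) * h ξ) * W0 ξ‖ ≤ 1 * M :=
        mul_le_mul hE1 h1 (norm_nonneg _) zero_le_one
      have h3 : 0 ≤ M * (c0 / τ0) * Real.exp (-lam.im * τ) := by positivity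
      linarith
    · have hmem : τ ∉ Ioc 0 τ0 := fun hm => hc1 hm.2
      rw [indicator_of_notMem hmem, zero_add]
      push Not at hc1
      have h1 := b2 τ hτ'
      have h2 : c0 / τ ≤ c0 / τ0 := div_le_div_of_nonneg_left hc h0 hc1.le
      have h3 : M * (c0 / τ) ≤ M * (c0 / τ0) := mul_le_mul_of_nonneg_left h2 hM
      calc _ ≤ Real.exp (-lam.im * τ) * (M * (c0 / τ0)) :=
            mul_le_mul_of_nonneg_left (h1.trans h3) hE0.le
        _ = _ := by ring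
  have hind : Integrable ((Ioc 0 τ0).indicator (fun _ : ℝ => M))
      ((volume : Measure ℝ).restrict (Ioi 0)) := by
    refine (IntegrableOn.integrable_indicator ?_ measurableSet_Ioc).restrict
    exact integrableOn_const (by simp)
  have hgi : Integrable (fun τ : ℝ => (Ioc 0 τ0).indicator (fun _ => M) τ +
      M * (c0 / τ0) * Real.exp (-lam.im * τ)) ((volume : Measure ℝ).restrict (Ioi 0)) :=
    hind.add (hexp.integrable.const_mul _)
  have hfin := norm_integral_le_of_norm_le hgi ((ae_restrict_iff' measurableSet_Ioi).2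
    (ae_of_all _ hbd))
  refine hfin.trans ?_
  rw [integral_add hind (hexp.integrable.const_mul _), integral_const_mul,
    integral_exp_mul_Ioi (by linarith : -lam.im < 0) 0]
  have hI1 : (∫ τ in Ioi (0 : ℝ), (Ioc 0 τ0).indicator (fun _ : ℝ => M) τ) = M * τ0 := by
    rw [integral_indicator measurableSet_Ioc, Measure.restrict_restrict measurableSet_Ioc]
    have : Ioc 0 τ0 ∩ Ioi (0 : ℝ) = Ioc 0 τ0 := by
      ext x
      constructor
      · exact fun hx => hx.1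
      · exact fun hx => ⟨hx, hx.1⟩
    rw [this]
    simp [h0.le, mul_comm]
  rw [hI1]
  have : M * (c0 / τ0) * (-Real.exp (-lam.im * 0) / -lam.im) = M * (c0 / τ0 / lam.im) := by
    rw [mul_zero, Real.exp_zero, neg_div_neg_eq]
    ring
  rw [this]
  apply le_of_eq
  ring

/-! ## TARGETS: prove these (statements must not be changed; helper lemmas are welcome) -/

theorem hf (n : ℕ) : ∃ C : ℝ, 0 < C ∧ ∀ a : ℝ → ℝ, Measurable a → ∀ (N : ℝ) (lam : ℂ), 1 ≤ N →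
    0 < lam.im →
    ‖Wt n * (Rs (fun ξ : E (n + 1) => a (ξ 0) + rp ξ) lam *
        Fm (fun ξ : E (n + 1) => ((rp ξ / (rp ξ + N) : ℝ) : ℂ))) * Wt n‖ ≤
      C * (1 + 1 / lam.im) * N ^ (-(1 / 4) : ℝ) := by
  obtain ⟨C, hC, hCt⟩ := hf_time n
  refine ⟨1 + C, by linarith, ?_⟩
  intro a ha N lam hN hl
  have hN0 : 0 < N := by linarith
  obtain ⟨σ, hσ⟩ : ∃ σ : E (n + 1) → ℝ, ∀ ξ, σ ξ = a (ξ 0) + rp ξ := ⟨_, fun _ => rfl⟩
  have hσe : (fun ξ : E (n + 1) => a (ξ 0) + rp ξ) = σ := funext fun ξ => (hσ ξ).symm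
  have hσm : Measurable σ := by
    rw [← hσe]
    exact (ha.comp (by fun_prop : Measurable fun ξ : E (n + 1) => ξ 0)).add rp_meas
  obtain ⟨h, hh⟩ : ∃ h : E (n + 1) → ℂ, ∀ ξ, h ξ = ((rp ξ / (rp ξ + N) : ℝ) : ℂ) :=
    ⟨_, fun _ => rfl⟩
  have hhe : (fun ξ : E (n + 1) => ((rp ξ / (rp ξ + N) : ℝ) : ℂ)) = h :=
    funext fun ξ => (hh ξ).symm
  have hhm : Measurable h := by
    rw [← hhe]
    exact Complex.measurable_ofReal.comp (rp_meas.div (rp_meas.add_const N))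
  have hh1 : ∀ ξ, ‖h ξ‖ ≤ 1 := by
    intro ξ
    have h0 := rp_nonneg ξ
    rw [hh, Complex.norm_real, Real.norm_eq_abs, abs_of_nonneg (by positivity)]
    exact (div_le_one (by linarith)).2 (by linarith)
  rw [hσe, hhe]
  have hBMh : BM h := ⟨hhm, 1, hh1⟩
  have hBMr : BM (fun ξ => ((σ ξ : ℂ) - lam)⁻¹) := BM_res hσm hl.ne'
  have hRF : Rs σ lam * Fm h = Fm (fun ξ => ((σ ξ : ℂ) - lam)⁻¹ * h ξ) := Fm_mul hBMr hBMh
  rw [hRF]
  obtain ⟨f1, hf1⟩ : ∃ f1 : E (n + 1) → ℂ, ∀ ξ, f1 ξ = ((σ ξ : ℂ) - lam)⁻¹ * h ξ :=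
    ⟨_, fun _ => rfl⟩
  have hf1e : (fun ξ => ((σ ξ : ℂ) - lam)⁻¹ * h ξ) = f1 := funext fun ξ => (hf1 ξ).symm
  rw [hf1e]
  have hBM1 : BM f1 := by
    obtain ⟨m1, C1, hC1⟩ := hBMr
    refine ⟨?_, C1, ?_⟩
    · rw [← hf1e]
      exact m1.mul hhm
    · intro ξ
      rw [hf1, norm_mul]
      calc _ ≤ C1 * 1 := mul_le_mul (hC1 ξ) (hh1 ξ) (norm_nonneg _)
            ((norm_nonneg _).trans (hC1 ξ))
        _ = _ := mul_one _
  -- time functions
  have hBM2 : ∀ τ : ℝ, BM (fun ξ => Complex.exp (-(Complex.I * ((τ * σ ξ : ℝ) : ℂ))) * h ξ) ∧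
      ∀ ξ, ‖Complex.exp (-(Complex.I * ((τ * σ ξ : ℝ) : ℂ))) * h ξ‖ ≤ 1 := by
    intro τ
    have hb : ∀ ξ, ‖Complex.exp (-(Complex.I * ((τ * σ ξ : ℝ) : ℂ))) * h ξ‖ ≤ 1 := by
      intro ξ
      rw [norm_mul, Complex.norm_exp]
      have : (-(Complex.I * ((τ * σ ξ : ℝ) : ℂ))).re = 0 := by simp
      rw [this, Real.exp_zero, one_mul]
      exact hh1 ξ
    refine ⟨⟨?_, 1, hb⟩, hb⟩
    refine Measurable.mul (Complex.measurable_exp.comp (Measurable.neg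
      (measurable_const.mul (Complex.measurable_ofReal.comp (hσm.const_mul τ))))) hhm
  -- representation of matrix elements
  have hrep : ∀ (f : E (n + 1) → ℂ), BM f → ∀ u v : L2 (n + 1),
      inner ℂ u ((Wt n * Fm f * Wt n) v) = ∫ ξ, f ξ *
        (inner ℂ ((FT (n + 1) (Wt n u) : L2 (n + 1)) ξ) ((FT (n + 1) (Wt n v) : L2 (n + 1)) ξ)) := by
    intro f hf u v
    have h1 : inner ℂ u ((Wt n * Fm f * Wt n) v) = inner ℂ (Wt n u) (Fm f (Wt n v)) := by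
      have h2 := mulop_inner (BM_wt (n := n)) u (Fm f (Wt n v))
      have h3 : (fun x : E (n + 1) => (starRingEnd ℂ) ((wt x : ℂ))) = fun x => (wt x : ℂ) := by
        funext x
        exact Complex.conj_ofReal _
      rw [h3] at h2
      exact h2.symm
    rw [h1, ← (FT (n + 1)).inner_map_map, Fm_apply, L2.inner_def]
    apply integral_congr_ae
    filter_upwards [mulop_spec hf (FT (n + 1) (Wt n v))] with ξ hξ
    rw [hξ, ← smul_eq_mul, inner_smul_right]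
  -- the bound for matrix elements
  have hkey : ∀ u v : L2 (n + 1), ‖inner ℂ u ((Wt n * Fm f1 * Wt n) v)‖ ≤
      (1 + C) * (1 + 1 / lam.im) * N ^ (-(1 / 4) : ℝ) * (‖u‖ * ‖v‖) := by
    intro u v
    obtain ⟨W0, hW0⟩ : ∃ W0 : E (n + 1) → ℂ, ∀ ξ, W0 ξ =
      (inner ℂ ((FT (n + 1) (Wt n u) : L2 (n + 1)) ξ) ((FT (n + 1) (Wt n v) : L2 (n + 1)) ξ)) :=
      ⟨_, fun _ => rfl⟩
    have hW0e : (fun ξ => (inner ℂ ((FT (n + 1) (Wt n u) : L2 (n + 1)) ξ)
        ((FT (n + 1) (Wt n v) : L2 (n + 1)) ξ))) = W0 := funext fun ξ => (hW0 ξ).symm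
    have hWint : Integrable W0 volume := by
      rw [← hW0e]
      exact L2.integrable_inner _ _
    have hrep' : ∀ f : E (n + 1) → ℂ, BM f →
        inner ℂ u ((Wt n * Fm f * Wt n) v) = ∫ ξ, f ξ * W0 ξ := by
      intro f hf
      rw [hrep f hf u v]
      congr 1
      funext ξ
      rw [hW0]
    have hop : ∀ f : E (n + 1) → ℂ, BM f → ∀ K : ℝ, ‖Wt n * Fm f * Wt n‖ ≤ K →
        ‖∫ ξ, f ξ * W0 ξ‖ ≤ ‖u‖ * ‖v‖ * K := by
      intro f hf K hK
      rw [← hrep' f hf]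
      calc _ ≤ ‖u‖ * ‖(Wt n * Fm f * Wt n) v‖ := norm_inner_le_norm _ _
        _ ≤ ‖u‖ * (‖Wt n * Fm f * Wt n‖ * ‖v‖) :=
          mul_le_mul_of_nonneg_left (ContinuousLinearMap.le_opNorm _ _) (norm_nonneg _)
        _ ≤ ‖u‖ * (K * ‖v‖) := by
          apply mul_le_mul_of_nonneg_left _ (norm_nonneg _)
          exact mul_le_mul_of_nonneg_right hK (norm_nonneg _)
        _ = _ := by ring
    have hs : 0 < Real.sqrt N := Real.sqrt_pos.2 hN0
    have hb1 : ∀ τ : ℝ, 0 < τ →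
        ‖∫ ξ, (Complex.exp (-(Complex.I * ((τ * σ ξ : ℝ) : ℂ))) * h ξ) * W0 ξ‖ ≤ ‖u‖ * ‖v‖ := by
      intro τ _
      have h1 := hop _ (hBM2 τ).1 1 (by
        have a1 : ‖Fm (fun ξ => Complex.exp (-(Complex.I * ((τ * σ ξ : ℝ) : ℂ))) * h ξ)‖ ≤ 1 :=
          Fm_norm (hBM2 τ).1 1 (hBM2 τ).2
        have a2 := Wt_norm n
        calc _ ≤ ‖Wt n * Fm (fun ξ => Complex.exp (-(Complex.I * ((τ * σ ξ : ℝ) : ℂ))) * h ξ)‖ *
              ‖Wt n‖ := norm_mul_le _ _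
          _ ≤ (‖Wt n‖ * ‖Fm (fun ξ => Complex.exp (-(Complex.I * ((τ * σ ξ : ℝ) : ℂ))) * h ξ)‖) *
              ‖Wt n‖ := mul_le_mul_of_nonneg_right (norm_mul_le _ _) (norm_nonneg _)
          _ ≤ (1 * 1) * 1 := by
            apply mul_le_mul _ a2 (norm_nonneg _) (by norm_num)
            exact mul_le_mul a2 a1 (norm_nonneg _) zero_le_one
          _ = 1 := by norm_num)
      rw [mul_one] at h1
      exact h1
    have hb2 : ∀ τ : ℝ, 0 < τ →
        ‖∫ ξ, (Complex.exp (-(Complex.I * ((τ * σ ξ : ℝ) : ℂ))) * h ξ) * W0 ξ‖ ≤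
          ‖u‖ * ‖v‖ * (C / Real.sqrt N / τ) := by
      intro τ hτ
      have h1 := hCt a ha N τ hN hτ
      have h2 : (fun ξ : E (n + 1) => Complex.exp (-(Complex.I * ((τ * (a (ξ 0) + rp ξ) : ℝ) : ℂ))) *
          ((rp ξ / (rp ξ + N) : ℝ) : ℂ)) =
          fun ξ => Complex.exp (-(Complex.I * ((τ * σ ξ : ℝ) : ℂ))) * h ξ := by
        funext ξ
        rw [hσ, hh]
      rw [h2] at h1
      have h3 := hop _ (hBM2 τ).1 _ h1
      have h4 : C / (τ * Real.sqrt N) = C / Real.sqrt N / τ := by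
        rw [div_div, mul_comm]
      rw [h4] at h3
      exact h3
    have hfin := aux_laplace hσm hhm hh1 hWint hl (M := ‖u‖ * ‖v‖) (c0 := C / Real.sqrt N)
      (τ0 := N ^ (-(1 / 4) : ℝ)) (by positivity) (Real.rpow_pos_of_pos hN0 _) (by positivity) hb1 hb2
    have h5 : (∫ ξ, (((σ ξ : ℂ) - lam)⁻¹ * h ξ) * W0 ξ) = ∫ ξ, f1 ξ * W0 ξ := by
      congr 1
      funext ξ
      rw [hf1]
    rw [h5, ← hrep' f1 hBM1] at hfin
    refine hfin.trans ?_
    have h6 : C / Real.sqrt N / N ^ (-(1 / 4) : ℝ) = C * N ^ (-(1 / 4) : ℝ) := by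
      rw [div_div, div_eq_mul_inv]
      congr 1
      rw [Real.sqrt_eq_rpow, ← Real.rpow_add hN0, ← Real.rpow_neg hN0.le]
      congr 1
      norm_num
    rw [h6]
    have hp : 0 < N ^ (-(1 / 4) : ℝ) := Real.rpow_pos_of_pos hN0 _
    obtain ⟨P, hP⟩ : ∃ P, P = N ^ (-(1 / 4) : ℝ) := ⟨_, rfl⟩
    rw [← hP] at hp ⊢
    have h7 : P + C * P / lam.im ≤ (1 + C) * (1 + 1 / lam.im) * P := by
      have a1 : 0 < 1 / lam.im := by positivity
      have a2 : C * P / lam.im = C * P * (1 / lam.im) := by ring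
      rw [a2]
      have a3 : (1 + C) * (1 + 1 / lam.im) * P = P + C * P * (1 / lam.im) +
        (C * P + P * (1 / lam.im)) := by ring
      rw [a3]
      have a4 : 0 ≤ C * P + P * (1 / lam.im) := by positivity
      linarith
    calc ‖u‖ * ‖v‖ * (P + C * P / lam.im) ≤ ‖u‖ * ‖v‖ * ((1 + C) * (1 + 1 / lam.im) * P) :=
          mul_le_mul_of_nonneg_left h7 (by positivity)
      _ = _ := by ring
  apply ContinuousLinearMap.opNorm_le_bound
  · have : 0 < N ^ (-(1 / 4) : ℝ) := Real.rpow_pos_of_pos hN0 _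
    positivity
  · intro v
    have h1 := hkey ((Wt n * Fm f1 * Wt n) v) v
    obtain ⟨y, hy⟩ : ∃ y, y = (Wt n * Fm f1 * Wt n) v := ⟨_, rfl⟩
    rw [← hy] at h1 ⊢
    have h2 : ‖inner ℂ y y‖ = ‖y‖ * ‖y‖ := by
      rw [inner_self_eq_norm_sq_to_K]
      simp [pow_two]
    rw [h2] at h1
    rcases (norm_nonneg y).eq_or_lt with h3 | h3
    · rw [← h3]
      have : 0 < N ^ (-(1 / 4) : ℝ) := Real.rpow_pos_of_pos hN0 _
      positivity
    · have h4 : ‖y‖ * ‖y‖ ≤ ((1 + C) * (1 + 1 / lam.im) * N ^ (-(1 / 4) : ℝ) * ‖v‖) * ‖y‖ := by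
        calc _ ≤ _ := h1
          _ = _ := by ring
      exact le_of_mul_le_mul_right h4 h3

end Pool.Agent.Helper41.CE
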