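import Pool.Agent.Helper41.CE.TDefs
import Pool.Agent.Helper41.CE.CU14

/-!
# Semiclassical eigenvalue bounds for Schroedinger operators: definitions
-/

open MeasureTheory Filter Topology Set
open scoped ENNReal NNReal ContDiff

namespace Pool.Agent.Helper41.CE


/-! ## TARGETS: prove these (statements must not be changed; helper lemmas are welcome) -/

theorem low_nim (r c : ℝ) (y : ℂ) (hyi : c ≤ |y.im|) : c ≤ ‖(r : ℂ) + y‖ := by
  have h := Complex.abs_im_le_norm ((r : ℂ) + y)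
  rw [Complex.add_im, Complex.ofReal_im, zero_add] at h
  exact hyi.trans h

theorem low_nre (r M : ℝ) (y : ℂ) (hy : ‖y‖ ≤ M) : |r| - M ≤ ‖(r : ℂ) + y‖ := by
  have h := norm_sub_le ((r : ℂ) + y) y
  rw [add_sub_cancel_right, Complex.norm_real, Real.norm_eq_abs] at h
  linarith

theorem low_aux (M c δ t : ℝ) (y : ℂ) (hM : 0 < M) (hc : 0 < c) (hδ : 0 < δ) (hδM : δ * M ≤ 1)
    (ht : 0 ≤ t) (hy : ‖y‖ ≤ M) (hyi : c ≤ |y.im|) :
    ‖((((t ^ 2 - 1) / δ : ℝ) : ℂ) + y)⁻¹ - (((2 * (t - 1) / δ : ℝ) : ℂ) + y)⁻¹ -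
      (((-(2 * (t + 1)) / δ : ℝ) : ℂ) + y)⁻¹‖ ≤ δ * (3 + 4 * M ^ 2 / c ^ 2) := by
  set A := (((t ^ 2 - 1) / δ : ℝ) : ℂ) + y with hA
  set B := ((2 * (t - 1) / δ : ℝ) : ℂ) + y with hB
  set D := ((-(2 * (t + 1)) / δ : ℝ) : ℂ) + y with hD
  have hAc : c ≤ ‖A‖ := low_nim _ c y hyi
  have hBc : c ≤ ‖B‖ := low_nim _ c y hyi
  have hA0 : A ≠ 0 := norm_pos_iff.mp (hc.trans_le hAc)
  have hB0 : B ≠ 0 := norm_pos_iff.mp (hc.trans_le hBc)
  have hMδ : M ≤ 1 / δ := by rw [le_div_iff₀ hδ]; linarith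
  have hD1 : ‖D⁻¹‖ ≤ δ := by
    have h1 := low_nre (-(2 * (t + 1)) / δ) M y hy
    have h2 : 2 / δ ≤ |-(2 * (t + 1)) / δ| := by
      rw [abs_div, abs_neg, abs_of_pos hδ, abs_of_nonneg (by linarith)]
      exact div_le_div_of_nonneg_right (by linarith) hδ.le
    have h3 : 2 / δ = 1 / δ + 1 / δ := by ring
    have h4 : 1 / δ ≤ ‖D‖ := by linarith
    rw [norm_inv]
    rw [inv_le_comm₀ ((by positivity : (0:ℝ) < 1 / δ).trans_le h4) hδ]
    simpa using h4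
  have hdiff : A⁻¹ - B⁻¹ = (B - A) / (A * B) := by field_simp
  have hBA : B - A = ((-((t - 1) ^ 2 / δ) : ℝ) : ℂ) := by
    rw [hA, hB]
    have : (-((t - 1) ^ 2 / δ) : ℝ) = 2 * (t - 1) / δ - (t ^ 2 - 1) / δ := by ring
    rw [this]; push_cast; ring
  have hn : ‖A⁻¹ - B⁻¹‖ = (t - 1) ^ 2 / δ / (‖A‖ * ‖B‖) := by
    rw [hdiff, hBA, norm_div, norm_mul, Complex.norm_real, norm_neg, Real.norm_eq_abs,
      abs_of_nonneg (by positivity)]
  have hAB : ‖A⁻¹ - B⁻¹‖ ≤ δ * (2 + 4 * M ^ 2 / c ^ 2) := by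
    rw [hn]
    have hABpos : 0 < ‖A‖ * ‖B‖ := mul_pos (hc.trans_le hAc) (hc.trans_le hBc)
    rw [div_le_iff₀ hABpos]
    rcases le_or_gt (2 * M * δ) |t - 1| with h | h
    · have hMt : M ≤ |t - 1| / (2 * δ) := by
        rw [le_div_iff₀ (by positivity)]; linarith
      have hAl : |t - 1| / (2 * δ) ≤ ‖A‖ := by
        have h1 := low_nre ((t ^ 2 - 1) / δ) M y hy
        have h2 : |t - 1| / δ ≤ |(t ^ 2 - 1) / δ| := by
          rw [abs_div, abs_of_pos hδ]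
          apply div_le_div_of_nonneg_right _ hδ.le
          have e : t ^ 2 - 1 = (t - 1) * (t + 1) := by ring
          rw [e, abs_mul, abs_of_nonneg (by linarith : (0:ℝ) ≤ t + 1)]
          nlinarith [abs_nonneg (t - 1)]
        have h3 : |t - 1| / δ = |t - 1| / (2 * δ) + |t - 1| / (2 * δ) := by field_simp; ring
        linarith
      have hBl : |t - 1| / δ ≤ ‖B‖ := by
        have h1 := low_nre (2 * (t - 1) / δ) M y hy
        have h2 : |2 * (t - 1) / δ| = |t - 1| / δ + |t - 1| / δ := by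
          rw [abs_div, abs_of_pos hδ, abs_mul, abs_of_pos (by norm_num : (0:ℝ) < 2)]
          ring
        have h3 : |t - 1| / (2 * δ) ≤ |t - 1| / δ := by
          apply div_le_div_of_nonneg_left (abs_nonneg _) hδ (by linarith)
        linarith
      have hprod : |t - 1| / (2 * δ) * (|t - 1| / δ) ≤ ‖A‖ * ‖B‖ :=
        mul_le_mul hAl hBl (by positivity) (norm_nonneg _)
      have e1 : (t - 1) ^ 2 / δ = δ * 2 * (|t - 1| / (2 * δ) * (|t - 1| / δ)) := by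
        rw [← sq_abs (t - 1)]; field_simp
      rw [e1]
      have h5 : 0 ≤ 4 * M ^ 2 / c ^ 2 := by positivity
      have h6 : δ * 2 * (|t - 1| / (2 * δ) * (|t - 1| / δ)) ≤ δ * 2 * (‖A‖ * ‖B‖) :=
        mul_le_mul_of_nonneg_left hprod (by positivity)
      have h7 : δ * 2 * (‖A‖ * ‖B‖) ≤ δ * (2 + 4 * M ^ 2 / c ^ 2) * (‖A‖ * ‖B‖) := by
        apply mul_le_mul_of_nonneg_right _ hABpos.le
        apply mul_le_mul_of_nonneg_left _ hδ.le
        linarith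
      exact h6.trans h7
    · have h1 : (t - 1) ^ 2 ≤ (2 * M * δ) ^ 2 := by
        rw [← sq_abs (t - 1)]
        exact pow_le_pow_left₀ (abs_nonneg _) h.le 2
      have h2 : (t - 1) ^ 2 / δ ≤ 4 * M ^ 2 * δ := by
        rw [div_le_iff₀ hδ]
        calc (t - 1) ^ 2 ≤ (2 * M * δ) ^ 2 := h1
          _ = 4 * M ^ 2 * δ * δ := by ring
      have h3 : c ^ 2 ≤ ‖A‖ * ‖B‖ := by
        rw [sq]; exact mul_le_mul hAc hBc hc.le (norm_nonneg _)
      have h4 : 4 * M ^ 2 * δ = δ * (4 * M ^ 2 / c ^ 2) * c ^ 2 := by field_simp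
      calc (t - 1) ^ 2 / δ ≤ δ * (4 * M ^ 2 / c ^ 2) * c ^ 2 := by rw [← h4]; exact h2
        _ ≤ δ * (4 * M ^ 2 / c ^ 2) * (‖A‖ * ‖B‖) := mul_le_mul_of_nonneg_left h3 (by positivity)
        _ ≤ δ * (2 + 4 * M ^ 2 / c ^ 2) * (‖A‖ * ‖B‖) := by
          apply mul_le_mul_of_nonneg_right _ hABpos.le
          apply mul_le_mul_of_nonneg_left _ hδ.le
          linarith
  calc ‖A⁻¹ - B⁻¹ - D⁻¹‖ ≤ ‖A⁻¹ - B⁻¹‖ + ‖D⁻¹‖ := norm_sub_le _ _
    _ ≤ δ * (2 + 4 * M ^ 2 / c ^ 2) + δ := add_le_add hAB hD1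
    _ = δ * (3 + 4 * M ^ 2 / c ^ 2) := by ring

theorem low_sym (n : ℕ) (K : Set ℂ) (hK : IsCompact K) (hKi : K ⊆ {z : ℂ | 0 < z.im}) (N : ℝ)
    (hN : 1 ≤ N) (ε : ℝ) (hε : 0 < ε) :
    ∀ᶠ δ in 𝓝[>] (0 : ℝ), ∀ lam ∈ K, ∀ ξ : E (n + 1),
      ‖(((sd δ ξ : ℂ) - lam)⁻¹ - (((4 * Real.pi * ξ 0 - 2 / δ + rp ξ : ℝ) : ℂ) - lam)⁻¹ -
        (((-(4 * Real.pi * ξ 0) - 2 / δ + rp ξ : ℝ) : ℂ) - lam)⁻¹) *
          ((N / (rp ξ + N) : ℝ) : ℂ)‖ ≤ ε := by
  rcases K.eq_empty_or_nonempty with hKe | hKne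
  · subst hKe
    exact Eventually.of_forall fun δ lam hl => absurd hl (Set.notMem_empty _)
  obtain ⟨Λ, hΛ⟩ := hK.isBounded.exists_norm_le
  obtain ⟨z0, hz0, hmin⟩ := hK.exists_isMinOn hKne Complex.continuous_im.continuousOn
  set c := z0.im with hcdef
  have hc : 0 < c := hKi hz0
  have hcl : ∀ lam ∈ K, c ≤ lam.im := fun lam hl => hmin hl
  have hΛ0 : 0 ≤ Λ := (norm_nonneg _).trans (hΛ z0 hz0)
  have hN0 : 0 < N := by linarith
  set M2 := 3 * N / (c * ε) with hM2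
  have hM2pos : 0 < M2 := by positivity
  set M := M2 + Λ with hMdef
  have hM : 0 < M := by positivity
  set κ := 3 + 4 * M ^ 2 / c ^ 2 with hκ
  have hκpos : 0 < κ := by positivity
  have hδ0 : 0 < min (1 / M) (ε / κ) := lt_min (by positivity) (by positivity)
  have hmem : Set.Ioo (0:ℝ) (min (1 / M) (ε / κ)) ∈ 𝓝[>] (0:ℝ) := Ioo_mem_nhdsGT hδ0
  filter_upwards [hmem] with δ hδ lam hlam ξ
  have hδpos : 0 < δ := hδ.1
  have hδM : δ * M ≤ 1 := by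
    have h1 : δ ≤ 1 / M := hδ.2.le.trans (min_le_left _ _)
    rwa [le_div_iff₀ hM] at h1
  have hδκ : δ * κ ≤ ε := by
    have h1 : δ ≤ ε / κ := hδ.2.le.trans (min_le_right _ _)
    rwa [le_div_iff₀ hκpos] at h1
  have hrp := rp_nonneg ξ
  set y : ℂ := (rp ξ : ℂ) - lam with hy
  have hyi : c ≤ |y.im| := by
    have : y.im = - lam.im := by rw [hy, Complex.sub_im, Complex.ofReal_im, zero_sub]
    rw [this, abs_neg]
    exact (hcl lam hlam).trans (le_abs_self _)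
  set t := δ * (2 * Real.pi * ξ 0) with ht
  have eA : (sd δ ξ : ℂ) - lam = (((t ^ 2 - 1) / δ : ℝ) : ℂ) + y := by
    have : sd δ ξ = (t ^ 2 - 1) / δ + rp ξ := by
      unfold sd; rw [ht]; field_simp; ring
    rw [this, hy]; push_cast; ring
  have eB : ((4 * Real.pi * ξ 0 - 2 / δ + rp ξ : ℝ) : ℂ) - lam =
      ((2 * (t - 1) / δ : ℝ) : ℂ) + y := by
    have : 4 * Real.pi * ξ 0 - 2 / δ + rp ξ = 2 * (t - 1) / δ + rp ξ := by
      rw [ht]; field_simp; ring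
    rw [this, hy]; push_cast; ring
  have eD : ((-(4 * Real.pi * ξ 0) - 2 / δ + rp ξ : ℝ) : ℂ) - lam =
      ((-(2 * (t + 1)) / δ : ℝ) : ℂ) + y := by
    have : -(4 * Real.pi * ξ 0) - 2 / δ + rp ξ = -(2 * (t + 1)) / δ + rp ξ := by
      rw [ht]; field_simp; ring
    rw [this, hy]; push_cast; ring
  rw [eA, eB, eD, norm_mul, Complex.norm_real, Real.norm_eq_abs,
    abs_of_nonneg (by positivity : 0 ≤ N / (rp ξ + N))]
  rcases le_total (rp ξ) M2 with h | h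
  · -- bounded rp
    have hyM : ‖y‖ ≤ M := by
      rw [hy]
      refine (norm_sub_le _ _).trans ?_
      rw [Complex.norm_real, Real.norm_eq_abs, abs_of_nonneg hrp, hMdef]
      exact add_le_add h (hΛ lam hlam)
    have hw : N / (rp ξ + N) ≤ 1 := by
      rw [div_le_one (by linarith)]; linarith
    have hmain : ‖((((t ^ 2 - 1) / δ : ℝ) : ℂ) + y)⁻¹ - (((2 * (t - 1) / δ : ℝ) : ℂ) + y)⁻¹ -
        (((-(2 * (t + 1)) / δ : ℝ) : ℂ) + y)⁻¹‖ ≤ δ * κ := by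
      rcases le_total 0 t with ht0 | ht0
      · exact low_aux M c δ t y hM hc hδpos hδM ht0 hyM hyi
      · have h1 := low_aux M c δ (-t) y hM hc hδpos hδM (by linarith) hyM hyi
        have e1 : ((-t) ^ 2 - 1) / δ = (t ^ 2 - 1) / δ := by ring
        have e2 : 2 * (-t - 1) / δ = -(2 * (t + 1)) / δ := by ring
        have e3 : -(2 * (-t + 1)) / δ = 2 * (t - 1) / δ := by ring
        rw [e1, e2, e3, sub_right_comm] at h1
        exact h1
    calc _ ≤ (δ * κ) * 1 := mul_le_mul hmain hw (by positivity) (by positivity)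
      _ ≤ ε := by linarith
  · have hinv : ∀ r : ℝ, ‖((r : ℂ) + y)⁻¹‖ ≤ 1 / c := by
      intro r
      rw [norm_inv, inv_eq_one_div]
      exact one_div_le_one_div_of_le hc (low_nim r c y hyi)
    have h3 : ‖((((t ^ 2 - 1) / δ : ℝ) : ℂ) + y)⁻¹ - (((2 * (t - 1) / δ : ℝ) : ℂ) + y)⁻¹ -
        (((-(2 * (t + 1)) / δ : ℝ) : ℂ) + y)⁻¹‖ ≤ 3 / c := by
      refine (norm_sub_le _ _).trans ?_
      have := norm_sub_le ((((t ^ 2 - 1) / δ : ℝ) : ℂ) + y)⁻¹ (((2 * (t - 1) / δ : ℝ) : ℂ) + y)⁻¹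
      have k1 := hinv ((t ^ 2 - 1) / δ)
      have k2 := hinv (2 * (t - 1) / δ)
      have k3 := hinv (-(2 * (t + 1)) / δ)
      have e : 3 / c = 1 / c + 1 / c + 1 / c := by ring
      linarith
    have h4 : N / (rp ξ + N) ≤ N / M2 :=
      div_le_div_of_nonneg_left hN0.le hM2pos (by linarith)
    calc _ ≤ 3 / c * (N / M2) := mul_le_mul h3 h4 (by positivity) (by positivity)
      _ = ε := by rw [hM2]; field_simp

end Pool.Agent.Helper41.CE
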