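import Pool.Agent.Helper41.CE.TDefs
import Pool.Agent.Helper41.CE.CU01
import Pool.Agent.Helper41.CE.CU02
import Pool.Agent.Helper41.CE.CU03
import Pool.Agent.Helper41.CE.CU08
import Pool.Agent.Helper41.CE.CU14
import Pool.Agent.Helper41.CE.CU22
import Pool.Agent.Helper41.CE.CU23

/-!
# Semiclassical eigenvalue bounds for Schroedinger operators: definitions
-/

open MeasureTheory Filter Topology Set
open scoped ENNReal NNReal ContDiff

namespace Pool.Agent.Helper41.CE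


/-! ## TARGETS: prove these (statements must not be changed; helper lemmas are welcome) -/

theorem rp_shift {n : ℕ} (ξ : E (n + 1)) (c : ℝ) :
    rp (ξ - c • EuclideanSpace.single 0 1) = rp ξ := by
  simp only [rp, EuclideanSpace.norm_sq_eq, Fin.sum_univ_succ]
  congr 1
  simp [Fin.succ_ne_zero]

theorem coord_shift {n : ℕ} (ξ : E (n + 1)) (c : ℝ) :
    (ξ - c • EuclideanSpace.single 0 1 : E (n + 1)) 0 = ξ 0 - c := by
  simp

theorem eo_conj {n : ℕ} (θ : ℝ) {s : E (n + 1) → ℝ} (hs : Measurable s) {lam : ℂ}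
    (hl : lam.im ≠ 0) :
    (eo θ : L2 (n + 1) →L[ℂ] L2 (n + 1)) * (Wt n * Rs s lam * Wt n) * eo (-θ) =
      Wt n * Rs (fun ξ => s (ξ - (θ / (2 * Real.pi)) • EuclideanSpace.single 0 1)) lam * Wt n := by
  have h1 : (eo θ : L2 (n + 1) →L[ℂ] L2 (n + 1)) * Wt n = Wt n * eo θ := eo_mulop θ BM_wt
  have h2 : (eo (-θ) : L2 (n + 1) →L[ℂ] L2 (n + 1)) * Wt n = Wt n * eo (-θ) :=
    eo_mulop (-θ) BM_wt
  have h3 := eo_Fm θ (BM_res hs hl)
  calc (eo θ : L2 (n + 1) →L[ℂ] L2 (n + 1)) * (Wt n * Rs s lam * Wt n) * eo (-θ)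
      = (eo θ * Wt n) * Rs s lam * (Wt n * eo (-θ)) := by simp only [mul_assoc]
    _ = (Wt n * eo θ) * Rs s lam * (eo (-θ) * Wt n) := by rw [h1, h2]
    _ = Wt n * (eo θ * Rs s lam * eo (-θ)) * Wt n := by simp only [mul_assoc]
    _ = _ := by
      rw [Rs, h3]
      rfl

theorem Fm_sub {d : ℕ} {f g : E d → ℂ} (hf : BM f) (hg : BM g) :
    Fm f - Fm g = Fm (fun x => f x - g x) := by
  have hg' : BM (fun x => (-1 : ℂ) * g x) := by
    refine ⟨hg.1.const_mul _, ?_⟩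
    obtain ⟨C, hC⟩ := hg.2
    exact ⟨C, fun x => by simpa using hC x⟩
  have h := Fm_add hf hg'
  rw [← Fm_smul hg, neg_one_smul, ← sub_eq_add_neg] at h
  rw [h]
  congr 1
  funext x
  ring

theorem BM_sub {d : ℕ} {f g : E d → ℂ} (hf : BM f) (hg : BM g) : BM (fun x => f x - g x) := by
  obtain ⟨C, hC⟩ := hf.2
  obtain ⟨C', hC'⟩ := hg.2
  exact ⟨hf.1.sub hg.1, C + C', fun x => (norm_sub_le _ _).trans (add_le_add (hC x) (hC' x))⟩

theorem BM_mul_cu24 {d : ℕ} {f g : E d → ℂ} (hf : BM f) (hg : BM g) : BM (fun x => f x * g x) := by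
  obtain ⟨C, hC⟩ := hf.2
  obtain ⟨C', hC'⟩ := hg.2
  refine ⟨hf.1.mul hg.1, C * C', fun x => ?_⟩
  rw [norm_mul]
  exact mul_le_mul (hC x) (hC' x) (norm_nonneg _) ((norm_nonneg _).trans (hC x))

theorem BM_low {n : ℕ} {N : ℝ} (hN : 1 ≤ N) :
    BM (fun ξ : E (n + 1) => ((N / (rp ξ + N) : ℝ) : ℂ)) := by
  refine ⟨Complex.measurable_ofReal.comp (measurable_const.div (rp_meas.add_const N)), 1,
    fun ξ => ?_⟩
  have h0 := rp_nonneg ξ
  rw [Complex.norm_real, Real.norm_eq_abs, abs_of_nonneg (by positivity), div_le_one (by linarith)]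
  linarith

theorem BM_high {n : ℕ} {N : ℝ} (hN : 1 ≤ N) :
    BM (fun ξ : E (n + 1) => ((rp ξ / (rp ξ + N) : ℝ) : ℂ)) := by
  refine ⟨Complex.measurable_ofReal.comp (rp_meas.div (rp_meas.add_const N)), 1,
    fun ξ => ?_⟩
  have h0 := rp_nonneg ξ
  rw [Complex.norm_real, Real.norm_eq_abs, abs_of_nonneg (by positivity), div_le_one (by linarith)]
  linarith

theorem one_split {n : ℕ} {N : ℝ} (hN : 1 ≤ N) :
    (1 : L2 (n + 1) →L[ℂ] L2 (n + 1)) =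
      Fm (fun ξ : E (n + 1) => ((N / (rp ξ + N) : ℝ) : ℂ)) +
        Fm (fun ξ : E (n + 1) => ((rp ξ / (rp ξ + N) : ℝ) : ℂ)) := by
  rw [Fm_add (BM_low hN) (BM_high hN), ← Fm_one]
  congr 1
  funext ξ
  have h0 := rp_nonneg ξ
  rw [← Complex.ofReal_add, ← add_div, add_comm N, div_self (by linarith), Complex.ofReal_one]

theorem bstar (n : ℕ) (K : Set ℂ) (hK : IsCompact K) (hKi : K ⊆ {z : ℂ | 0 < z.im})
    (ε : ℝ) (hε : 0 < ε) :
    ∀ᶠ δ in 𝓝[>] (0 : ℝ), ∀ lam ∈ K,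
      ‖Wt n * Rs (sd δ) lam * Wt n - eo (1 / δ) * (Wt n * Rs sp lam * Wt n) * eo (-(1 / δ)) -
        eo (-(1 / δ)) * (Wt n * Rs sm lam * Wt n) * eo (1 / δ)‖ ≤ ε := by
  rcases K.eq_empty_or_nonempty with rfl | hne
  · exact Eventually.of_forall fun δ lam h => absurd h (Set.notMem_empty lam)
  obtain ⟨lam0, hlam0, hmin⟩ := hK.exists_isMinOn hne Complex.continuous_im.continuousOn
  have hc : 0 < lam0.im := hKi hlam0
  obtain ⟨C, hC0, hC⟩ := hf n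
  -- choice of `N`
  obtain ⟨N, hN1, hN⟩ : ∃ N : ℝ, 1 ≤ N ∧
      3 * (C * (1 + 1 / lam0.im) * N ^ (-(1 / 4) : ℝ)) ≤ ε / 2 := by
    have h1 : Tendsto (fun N : ℝ => 3 * (C * (1 + 1 / lam0.im) * N ^ (-(1 / 4) : ℝ))) atTop
        (𝓝 (3 * (C * (1 + 1 / lam0.im) * 0))) :=
      (tendsto_const_nhds.mul (tendsto_rpow_neg_atTop (by norm_num))).const_mul 3
    rw [mul_zero, mul_zero] at h1
    obtain ⟨N, h2, h3⟩ := ((h1.eventually_lt_const (half_pos hε)).and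
      (eventually_ge_atTop (1 : ℝ))).exists
    exact ⟨N, h3, h2.le⟩
  filter_upwards [low_sym n K hK hKi N hN1 (ε / 2) (half_pos hε), self_mem_nhdsWithin]
    with δ hlow hδ lam hlam
  have hδ0 : (0 : ℝ) < δ := hδ
  have hlim : 0 < lam.im := hKi hlam
  have hcle : lam0.im ≤ lam.im := hmin hlam
  set s1 : E (n + 1) → ℝ := fun ξ => 4 * Real.pi * ξ 0 - 2 / δ + rp ξ with hs1
  set s2 : E (n + 1) → ℝ := fun ξ => -(4 * Real.pi * ξ 0) - 2 / δ + rp ξ with hs2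
  have hm0 : Measurable fun ξ : E (n + 1) => ξ 0 :=
    (EuclideanSpace.proj (𝕜 := ℝ) (0 : Fin (n + 1))).continuous.measurable
  have hs1m : Measurable s1 := ((hm0.const_mul _).sub_const _).add rp_meas
  have hs2m : Measurable s2 := (((hm0.const_mul _).neg).sub_const _).add rp_meas
  have hsdm : Measurable (sd δ : E (n + 1) → ℝ) := (sym_meas δ).1
  have hpi : (Real.pi : ℝ) ≠ 0 := Real.pi_ne_zero
  have e1 : (eo (1 / δ) : L2 (n + 1) →L[ℂ] L2 (n + 1)) * (Wt n * Rs sp lam * Wt n) *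
      eo (-(1 / δ)) = Wt n * Rs s1 lam * Wt n := by
    rw [eo_conj (1 / δ) (sym_meas δ).2.1 hlim.ne']
    congr 3
    funext ξ
    simp only [sp, hs1, rp_shift, coord_shift]
    field_simp
    ring
  have e2 : (eo (-(1 / δ)) : L2 (n + 1) →L[ℂ] L2 (n + 1)) * (Wt n * Rs sm lam * Wt n) *
      eo (1 / δ) = Wt n * Rs s2 lam * Wt n := by
    have h := eo_conj (n := n) (-(1 / δ)) (sym_meas δ).2.2 hlim.ne'
    rw [neg_neg] at h
    rw [h]
    congr 3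
    funext ξ
    simp only [sm, hs2, rp_shift, coord_shift]
    field_simp
    ring
  rw [e1, e2]
  set L : L2 (n + 1) →L[ℂ] L2 (n + 1) :=
    Fm (fun ξ : E (n + 1) => ((N / (rp ξ + N) : ℝ) : ℂ)) with hL
  set H : L2 (n + 1) →L[ℂ] L2 (n + 1) :=
    Fm (fun ξ : E (n + 1) => ((rp ξ / (rp ξ + N) : ℝ) : ℂ)) with hH
  have h1 : (1 : L2 (n + 1) →L[ℂ] L2 (n + 1)) = L + H := one_split hN1
  -- decomposition
  have hdec : ∀ R : L2 (n + 1) →L[ℂ] L2 (n + 1),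
      Wt n * R * Wt n = Wt n * (R * L) * Wt n + Wt n * (R * H) * Wt n := by
    intro R
    calc Wt n * R * Wt n = Wt n * (R * 1) * Wt n := by rw [mul_one]
      _ = _ := by rw [h1, mul_add, mul_add, add_mul]
  have hb0 : BM (fun ξ : E (n + 1) => ((sd δ ξ : ℂ) - lam)⁻¹) := BM_res hsdm hlim.ne'
  have hb1 : BM (fun ξ : E (n + 1) => ((s1 ξ : ℂ) - lam)⁻¹) := BM_res hs1m hlim.ne'
  have hb2 : BM (fun ξ : E (n + 1) => ((s2 ξ : ℂ) - lam)⁻¹) := BM_res hs2m hlim.ne'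
  have hT : (Rs (sd δ) lam - Rs s1 lam - Rs s2 lam) * L =
      Fm (fun ξ : E (n + 1) => (((sd δ ξ : ℂ) - lam)⁻¹ - ((s1 ξ : ℂ) - lam)⁻¹ -
        ((s2 ξ : ℂ) - lam)⁻¹) * ((N / (rp ξ + N) : ℝ) : ℂ)) := by
    rw [Rs, Rs, Rs, Fm_sub hb0 hb1, Fm_sub (BM_sub hb0 hb1) hb2, hL,
      Fm_mul (BM_sub (BM_sub hb0 hb1) hb2) (BM_low hN1)]
  have hTn : ‖(Rs (sd δ) lam - Rs s1 lam - Rs s2 lam) * L‖ ≤ ε / 2 := by
    rw [hT]
    exact Fm_norm (BM_mul_cu24 (BM_sub (BM_sub hb0 hb1) hb2) (BM_low hN1)) _ (hlow lam hlam)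
  have hW1 := Wt_norm n
  have hWTW : ‖Wt n * ((Rs (sd δ) lam - Rs s1 lam - Rs s2 lam) * L) * Wt n‖ ≤ ε / 2 := by
    calc ‖Wt n * ((Rs (sd δ) lam - Rs s1 lam - Rs s2 lam) * L) * Wt n‖
        ≤ ‖Wt n * ((Rs (sd δ) lam - Rs s1 lam - Rs s2 lam) * L)‖ * ‖Wt n‖ := norm_mul_le _ _
      _ ≤ (‖Wt n‖ * ‖(Rs (sd δ) lam - Rs s1 lam - Rs s2 lam) * L‖) * ‖Wt n‖ := by
        gcongr
        exact norm_mul_le _ _
      _ ≤ (1 * (ε / 2)) * 1 := by gcongr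
      _ = ε / 2 := by ring
  have hbound : ∀ a : ℝ → ℝ, Measurable a →
      ‖Wt n * (Rs (fun ξ : E (n + 1) => a (ξ 0) + rp ξ) lam * H) * Wt n‖ ≤
        C * (1 + 1 / lam0.im) * N ^ (-(1 / 4) : ℝ) := by
    intro a ha
    refine (hC a ha N lam hN1 hlim).trans ?_
    gcongr
  have g0 := hbound (fun t => δ * (2 * Real.pi * t) ^ 2 - 1 / δ) (by fun_prop)
  have g1 := hbound (fun t => 4 * Real.pi * t - 2 / δ) (by fun_prop)
  have g2 := hbound (fun t => -(4 * Real.pi * t) - 2 / δ) (by fun_prop)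
  have f0 : (fun ξ : E (n + 1) => (fun t : ℝ => δ * (2 * Real.pi * t) ^ 2 - 1 / δ) (ξ 0) + rp ξ) =
      sd δ := by
    funext ξ
    simp only [sd]
    ring
  rw [f0] at g0
  have hfin : Wt n * Rs (sd δ) lam * Wt n - Wt n * Rs s1 lam * Wt n - Wt n * Rs s2 lam * Wt n =
      Wt n * ((Rs (sd δ) lam - Rs s1 lam - Rs s2 lam) * L) * Wt n +
        Wt n * (Rs (sd δ) lam * H) * Wt n - Wt n * (Rs s1 lam * H) * Wt n -
        Wt n * (Rs s2 lam * H) * Wt n := by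
    rw [hdec (Rs (sd δ) lam), hdec (Rs s1 lam), hdec (Rs s2 lam)]
    noncomm_ring
  rw [hfin]
  calc _ ≤ ‖Wt n * ((Rs (sd δ) lam - Rs s1 lam - Rs s2 lam) * L) * Wt n +
        Wt n * (Rs (sd δ) lam * H) * Wt n - Wt n * (Rs s1 lam * H) * Wt n‖ +
        ‖Wt n * (Rs s2 lam * H) * Wt n‖ := norm_sub_le _ _
    _ ≤ (‖Wt n * ((Rs (sd δ) lam - Rs s1 lam - Rs s2 lam) * L) * Wt n +
        Wt n * (Rs (sd δ) lam * H) * Wt n‖ + ‖Wt n * (Rs s1 lam * H) * Wt n‖) +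
        ‖Wt n * (Rs s2 lam * H) * Wt n‖ := by
        gcongr
        exact norm_sub_le _ _
    _ ≤ ((‖Wt n * ((Rs (sd δ) lam - Rs s1 lam - Rs s2 lam) * L) * Wt n‖ +
        ‖Wt n * (Rs (sd δ) lam * H) * Wt n‖) + ‖Wt n * (Rs s1 lam * H) * Wt n‖) +
        ‖Wt n * (Rs s2 lam * H) * Wt n‖ := by
        gcongr
        exact norm_add_le _ _
    _ ≤ ((ε / 2 + C * (1 + 1 / lam0.im) * N ^ (-(1 / 4) : ℝ)) +
        C * (1 + 1 / lam0.im) * N ^ (-(1 / 4) : ℝ)) +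
        C * (1 + 1 / lam0.im) * N ^ (-(1 / 4) : ℝ) :=
        add_le_add (add_le_add (add_le_add hWTW g0) g1) g2
    _ ≤ ε := by linarith

end Pool.Agent.Helper41.CE
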