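import Pool.Agent.Helper41.CE.TDefs
import Pool.Agent.Helper41.CE.CU01
import Pool.Agent.Helper41.CE.CU02
import Pool.Agent.Helper41.CE.CU03
import Pool.Agent.Helper41.CE.CU14

/-!
# Semiclassical eigenvalue bounds for Schroedinger operators: definitions
-/

open MeasureTheory Filter Topology Set
open scoped ENNReal NNReal ContDiff

namespace Pool.Agent.Helper41.CE


/-! ## TARGETS: prove these (statements must not be changed; helper lemmas are welcome) -/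

theorem sp_meas {n : ℕ} : Measurable (sp : E (n + 1) → ℝ) := (sym_meas (n := n) 1).2.1

theorem norm_mul4 {n : ℕ} (A B C D : L2 (n + 1) →L[ℂ] L2 (n + 1)) {a b c d : ℝ} (ha : ‖A‖ ≤ a)
    (hb : ‖B‖ ≤ b) (hc : ‖C‖ ≤ c) (hd : ‖D‖ ≤ d) : ‖A * B * C * D‖ ≤ a * b * c * d := by
  have ha0 := (norm_nonneg A).trans ha
  have hb0 := (norm_nonneg B).trans hb
  have hc0 := (norm_nonneg C).trans hc
  calc ‖A * B * C * D‖ ≤ ‖A * B * C‖ * ‖D‖ := norm_mul_le _ _
    _ ≤ (‖A * B‖ * ‖C‖) * ‖D‖ := mul_le_mul_of_nonneg_right (norm_mul_le _ _) (norm_nonneg _)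
    _ ≤ ((‖A‖ * ‖B‖) * ‖C‖) * ‖D‖ := mul_le_mul_of_nonneg_right
        (mul_le_mul_of_nonneg_right (norm_mul_le _ _) (norm_nonneg _)) (norm_nonneg _)
    _ ≤ a * b * c * d := mul_le_mul (mul_le_mul (mul_le_mul ha hb (norm_nonneg _) ha0) hc
        (norm_nonneg _) (mul_nonneg ha0 hb0)) hd (norm_nonneg _)
        (mul_nonneg (mul_nonneg ha0 hb0) hc0)

theorem Kop_norm {n : ℕ} {p : E (n + 1) → ℂ} (hp : BM p) (C : ℝ) (hC : ∀ x, ‖p x‖ ≤ C) {lam : ℂ}
    (h : 0 < lam.im) : ‖Kop p lam‖ ≤ C / lam.im := by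
  unfold Kop
  refine (norm_mul4 _ _ _ _ (Wt_norm n) (Rs_norm sp_meas h) (Wt_norm n)
    (mulop_norm hp C hC)).trans (le_of_eq ?_)
  ring

theorem Kop_sub {n : ℕ} {p q : E (n + 1) → ℂ} (hp : BM p) (hq : BM q) (lam : ℂ) :
    Kop p lam - Kop q lam = Kop (fun x => p x - q x) lam := by
  have hpq : BM (fun x => p x - q x) := by
    obtain ⟨hp1, C, hC⟩ := hp
    obtain ⟨hq1, D, hD⟩ := hq
    exact ⟨hp1.sub hq1, C + D, fun x => (norm_sub_le _ _).trans (add_le_add (hC x) (hD x))⟩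
  have h1 : mulop (fun x => p x - q x) = mulop p - mulop q := by
    have h2 := mulop_add hpq hq
    have h3 : (fun x => p x - q x + q x) = p := by
      funext x
      ring
    rw [h3] at h2
    exact eq_sub_of_add_eq h2
  unfold Kop
  rw [h1, mul_sub]

theorem Kop_lip {n : ℕ} {p : E (n + 1) → ℂ} (hp : BM p) (C : ℝ) (hC : ∀ x, ‖p x‖ ≤ C) {z w : ℂ}
    (hz : 0 < z.im) (hw : 0 < w.im) : ‖Kop p z - Kop p w‖ ≤ C * ‖z - w‖ / (z.im * w.im) := by
  have h1 : Kop p z - Kop p w = Wt n * (Rs sp z - Rs sp w) * Wt n * mulop p := by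
    unfold Kop
    rw [mul_sub, sub_mul, sub_mul]
  have h2 : ‖Rs (sp : E (n + 1) → ℝ) z - Rs sp w‖ ≤ ‖z - w‖ * (1 / z.im * (1 / w.im)) := by
    rw [Rs_sub sp_meas hz hw, norm_smul]
    apply mul_le_mul_of_nonneg_left _ (norm_nonneg _)
    exact (norm_mul_le _ _).trans (mul_le_mul (Rs_norm sp_meas hz) (Rs_norm sp_meas hw)
      (norm_nonneg _) (by positivity))
  rw [h1]
  refine (norm_mul4 _ _ _ _ (Wt_norm n) h2 (Wt_norm n)
    (mulop_norm hp C hC)).trans (le_of_eq ?_)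
  field_simp

theorem Kop_diff {n : ℕ} {p : E (n + 1) → ℂ} (hp : BM p) :
    DifferentiableOn ℂ (fun z => Kop p z) {z : ℂ | 0 < z.im} := by
  unfold Kop
  exact (((Rs_diff sp_meas).const_mul (Wt n)).mul_const (Wt n)).mul_const (mulop p)

end Pool.Agent.Helper41.CE
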