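import Pool.Agent.Helper41.CE.TDefs
import Pool.Agent.Helper41.CE.CU01
import Pool.Agent.Helper41.CE.CU02
import Pool.Agent.Helper41.CE.CU03
import Pool.Agent.Helper41.CE.CU04
import Pool.Agent.Helper41.CE.CU14
import Pool.Agent.Helper41.CE.CU22

/-!
# Semiclassical eigenvalue bounds for Schroedinger operators: definitions
-/

open MeasureTheory Filter Topology Set
open scoped ENNReal NNReal ContDiff

namespace Pool.Agent.Helper41.CE


/-! ## TARGETS: prove these (statements must not be changed; helper lemmas are welcome) -/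

theorem kc_BMA {n : ℕ} (N : ℝ) (hN : 1 ≤ N) :
    BM (fun ξ : E (n + 1) => ((N / (rp ξ + N) : ℝ) : ℂ)) := by
  refine ⟨?_, 1, ?_⟩
  · exact Complex.measurable_ofReal.comp (measurable_const.div (rp_meas.add_const N))
  · intro ξ
    have h1 := rp_nonneg ξ
    have h2 : 0 < rp ξ + N := by linarith
    rw [Complex.norm_real, Real.norm_eq_abs, abs_of_nonneg (by positivity), div_le_one h2]
    linarith

theorem kc_BMB {n : ℕ} (N : ℝ) (hN : 1 ≤ N) :
    BM (fun ξ : E (n + 1) => ((rp ξ / (rp ξ + N) : ℝ) : ℂ)) := by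
  refine ⟨?_, 1, ?_⟩
  · exact Complex.measurable_ofReal.comp (rp_meas.div (rp_meas.add_const N))
  · intro ξ
    have h1 := rp_nonneg ξ
    have h2 : 0 < rp ξ + N := by linarith
    rw [Complex.norm_real, Real.norm_eq_abs, abs_of_nonneg (by positivity), div_le_one h2]
    linarith

theorem kc_sum {n : ℕ} (N : ℝ) (hN : 1 ≤ N) :
    Fm (fun ξ : E (n + 1) => ((N / (rp ξ + N) : ℝ) : ℂ)) +
      Fm (fun ξ : E (n + 1) => ((rp ξ / (rp ξ + N) : ℝ) : ℂ)) = 1 := by
  rw [Fm_add (kc_BMA N hN) (kc_BMB N hN), ← Fm_one]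
  congr 1
  funext ξ
  have h1 := rp_nonneg ξ
  have h2 : 0 < rp ξ + N := by linarith
  rw [← Complex.ofReal_add, ← add_div, add_comm N, div_self h2.ne', Complex.ofReal_one]

theorem kc_BV {n : ℕ} (N : ℝ) (hN : 1 ≤ N) {lam : ℂ} (h : 0 < lam.im) :
    BV (fun ξ : E (n + 1) => ((sp ξ : ℂ) - lam)⁻¹ * ((N / (rp ξ + N) : ℝ) : ℂ)) := by
  have hN0 : 0 < N := by linarith
  have hb : ∀ ξ : E (n + 1), ‖((sp ξ : ℂ) - lam)⁻¹‖ ≤ 1 / lam.im := by
    intro ξ
    rw [norm_inv, ← one_div]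
    apply one_div_le_one_div_of_le h
    have h1 := Complex.abs_im_le_norm ((sp ξ : ℂ) - lam)
    have h2 : ((sp ξ : ℂ) - lam).im = -lam.im := by simp
    rw [h2, abs_neg, abs_of_pos h] at h1
    exact h1
  have hA : ∀ ξ : E (n + 1), ‖((N / (rp ξ + N) : ℝ) : ℂ)‖ = N / (rp ξ + N) := by
    intro ξ
    have h1 := rp_nonneg ξ
    rw [Complex.norm_real, Real.norm_eq_abs, abs_of_nonneg (by positivity)]
  have hA1 : ∀ ξ : E (n + 1), N / (rp ξ + N) ≤ 1 := by
    intro ξ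
    have h1 := rp_nonneg ξ
    have h2 : 0 < rp ξ + N := by linarith
    rw [div_le_one h2]
    linarith
  refine ⟨?_, ⟨1 / lam.im, ?_⟩, ?_⟩
  · exact (BM_res (sym_meas (n := n) 1).2.1 h.ne').1.mul (kc_BMA N hN).1
  · intro ξ
    rw [norm_mul, hA]
    have h1 := rp_nonneg ξ
    calc ‖((sp ξ : ℂ) - lam)⁻¹‖ * (N / (rp ξ + N)) ≤ 1 / lam.im * 1 :=
          mul_le_mul (hb ξ) (hA1 ξ) (by positivity) (by positivity)
      _ = 1 / lam.im := mul_one _
  · intro ε hε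
    set M : ℝ := N / (ε * lam.im) + 1 with hM
    have hM1 : 1 ≤ M := by
      have : 0 ≤ N / (ε * lam.im) := by positivity
      linarith
    set L : ℝ := (1 / ε + M + ‖lam‖) / (4 * Real.pi) with hL
    have hpi := Real.pi_pos
    have hpi3 := Real.pi_gt_three
    have hL0 : 0 ≤ L := by positivity
    refine ⟨L + M, ?_⟩
    intro ξ hξ
    rw [norm_mul, hA]
    have h1 := rp_nonneg ξ
    rcases le_or_gt M (rp ξ) with hc | hc
    · have h2 : N / (rp ξ + N) ≤ N / M := by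
        apply div_le_div_of_nonneg_left hN0.le (by linarith) (by linarith)
      have h3 : 1 / lam.im * (N / M) ≤ ε := by
        rw [← mul_div_assoc, div_le_iff₀ (by linarith)]
        have h4 : N / (ε * lam.im) ≤ M := by linarith
        rw [div_le_iff₀ (by positivity)] at h4
        rw [one_div, inv_mul_le_iff₀ h]
        linarith
      calc ‖((sp ξ : ℂ) - lam)⁻¹‖ * (N / (rp ξ + N)) ≤ 1 / lam.im * (N / M) :=
            mul_le_mul (hb ξ) h2 (by positivity) (by positivity)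
        _ ≤ ε := h3
    · have h2 : L < |ξ 0| := by
        have h3 : 4 * Real.pi ^ 2 * (‖ξ‖ ^ 2 - (ξ 0) ^ 2) < M := hc
        have h4 : ‖ξ‖ ^ 2 - (ξ 0) ^ 2 < M := by
          by_contra hcon
          push Not at hcon
          have h5 : 1 * M ≤ 4 * Real.pi ^ 2 * (‖ξ‖ ^ 2 - (ξ 0) ^ 2) :=
            mul_le_mul (by nlinarith) hcon (by linarith) (by positivity)
          linarith
        have h6 : (L + M) ^ 2 < ‖ξ‖ ^ 2 := by
          apply pow_lt_pow_left₀ hξ (by linarith) (by norm_num)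
        apply lt_of_pow_lt_pow_left₀ 2 (abs_nonneg _)
        rw [sq_abs]
        nlinarith
      have h7 : 4 * Real.pi * L = 1 / ε + M + ‖lam‖ := by
        rw [hL]
        field_simp
      have h8 : 1 / ε ≤ ‖(sp ξ : ℂ) - lam‖ := by
        have h9 : ‖(sp ξ : ℂ)‖ - ‖lam‖ ≤ ‖(sp ξ : ℂ) - lam‖ := norm_sub_norm_le _ _
        have h10 : ‖(sp ξ : ℂ)‖ = |4 * Real.pi * ξ 0 + rp ξ| := by
          rw [Complex.norm_real, Real.norm_eq_abs]
          rfl
        have h11 : |4 * Real.pi * ξ 0| - |rp ξ| ≤ |4 * Real.pi * ξ 0 + rp ξ| := by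
          have := abs_sub_abs_le_abs_sub (4 * Real.pi * ξ 0) (-rp ξ)
          rw [abs_neg, sub_neg_eq_add] at this
          exact this
        have h12 : |4 * Real.pi * ξ 0| = 4 * Real.pi * |ξ 0| := by
          rw [abs_mul, abs_of_pos (by positivity : (0:ℝ) < 4 * Real.pi)]
        have h13 : 4 * Real.pi * L ≤ 4 * Real.pi * |ξ 0| :=
          mul_le_mul_of_nonneg_left h2.le (by positivity)
        rw [abs_of_nonneg h1, h12] at h11
        linarith
      have h14 : ‖((sp ξ : ℂ) - lam)⁻¹‖ ≤ ε := by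
        rw [norm_inv]
        apply inv_le_of_inv_le₀ hε
        rw [← one_div]
        exact h8
      calc ‖((sp ξ : ℂ) - lam)⁻¹‖ * (N / (rp ξ + N)) ≤ ε * 1 :=
            mul_le_mul h14 (hA1 ξ) (by positivity) hε.le
        _ = ε := mul_one _

theorem kc_BV2 {n : ℕ} {p : E (n + 1) → ℂ} (hp : BV p) :
    BV (fun X : E (n + 1) => (wt X : ℂ) * p X) := by
  obtain ⟨h1, ⟨C, hC⟩, h3⟩ := hp
  have hw : ∀ X : E (n + 1), ‖(wt X : ℂ) * p X‖ ≤ ‖p X‖ := by
    intro X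
    rw [norm_mul, Complex.norm_real, Real.norm_eq_abs, abs_of_pos (wt_pos X)]
    calc wt X * ‖p X‖ ≤ 1 * ‖p X‖ := mul_le_mul_of_nonneg_right (wt_le_one X) (norm_nonneg _)
      _ = _ := one_mul _
  refine ⟨?_, ⟨C, fun X => (hw X).trans (hC X)⟩, ?_⟩
  · exact (BM_wt).1.mul h1
  · intro ε hε
    obtain ⟨R, hR⟩ := h3 ε hε
    exact ⟨R, fun X hX => (hw X).trans (hR X hX)⟩

theorem Kop_compact {n : ℕ} {p : E (n + 1) → ℂ} (hp : BV p) {lam : ℂ} (h : 0 < lam.im) :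
    IsCompactOperator (Kop p lam) := by
  have hpBM := BM_of_BV hp
  obtain ⟨C, hC0, hC⟩ := hf n
  have hWp : Wt n * mulop p = mulop (fun X : E (n + 1) => (wt X : ℂ) * p X) := by
    unfold Wt
    rw [mulop_mul BM_wt hpBM]
  have hspBM : BM (fun ξ : E (n + 1) => ((sp ξ : ℂ) - lam)⁻¹) := BM_res (sym_meas (n := n) 1).2.1 h.ne'
  set KN : ℕ → L2 (n + 1) →L[ℂ] L2 (n + 1) := fun k =>
    Wt n * (Fm (fun ξ : E (n + 1) => ((sp ξ : ℂ) - lam)⁻¹ *
      (((((k : ℝ) + 1)) / (rp ξ + ((k : ℝ) + 1)) : ℝ) : ℂ)) *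
      mulop (fun X : E (n + 1) => (wt X : ℂ) * p X)) with hKN
  have hcomp : ∀ k, IsCompactOperator (KN k) := by
    intro k
    have h1 : (1 : ℝ) ≤ (k : ℝ) + 1 := by
      have : (0 : ℝ) ≤ k := Nat.cast_nonneg k
      linarith
    exact (Fm_mulop_compact (kc_BV _ h1 h) (kc_BV2 hp)).clm_comp (Wt n)
  have hdiff : ∀ k, ‖KN k - Kop p lam‖ ≤
      C * (1 + 1 / lam.im) * ((k : ℝ) + 1) ^ (-(1 / 4) : ℝ) * ‖(mulop p : L2 (n + 1) →L[ℂ] L2 (n + 1))‖ := by
    intro k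
    have h1 : (1 : ℝ) ≤ (k : ℝ) + 1 := by
      have : (0 : ℝ) ≤ k := Nat.cast_nonneg k
      linarith
    have h2 : KN k = Wt n * (Rs sp lam * Fm (fun ξ : E (n + 1) =>
        (((((k : ℝ) + 1)) / (rp ξ + ((k : ℝ) + 1)) : ℝ) : ℂ))) * Wt n * mulop p := by
      have h3 : Rs (sp : E (n + 1) → ℝ) lam * Fm (fun ξ : E (n + 1) =>
        (((((k : ℝ) + 1)) / (rp ξ + ((k : ℝ) + 1)) : ℝ) : ℂ)) =
        Fm (fun ξ : E (n + 1) => ((sp ξ : ℂ) - lam)⁻¹ *
          (((((k : ℝ) + 1)) / (rp ξ + ((k : ℝ) + 1)) : ℝ) : ℂ)) := by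
        unfold Rs
        rw [Fm_mul hspBM (kc_BMA _ h1)]
      rw [h3, hKN]
      simp only
      rw [← hWp]
      simp only [mul_assoc]
    have h4 : Kop p lam = Wt n * (Rs sp lam * Fm (fun ξ : E (n + 1) =>
        (((((k : ℝ) + 1)) / (rp ξ + ((k : ℝ) + 1)) : ℝ) : ℂ))) * Wt n * mulop p +
        (Wt n * (Rs sp lam * Fm (fun ξ : E (n + 1) =>
        ((rp ξ / (rp ξ + ((k : ℝ) + 1)) : ℝ) : ℂ))) * Wt n) * mulop p := by
      unfold Kop
      rw [← add_mul, ← add_mul, ← mul_add, ← mul_add, kc_sum _ h1, mul_one]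
    have h5 : KN k - Kop p lam = -((Wt n * (Rs sp lam * Fm (fun ξ : E (n + 1) =>
        ((rp ξ / (rp ξ + ((k : ℝ) + 1)) : ℝ) : ℂ))) * Wt n) * mulop p) := by
      rw [h2, h4]
      abel
    rw [h5, norm_neg]
    refine (norm_mul_le _ _).trans ?_
    apply mul_le_mul_of_nonneg_right _ (norm_nonneg _)
    exact hC (fun t => 4 * Real.pi * t) (by fun_prop) _ lam h1 h
  have hlim : Tendsto KN atTop (𝓝 (Kop p lam)) := by
    rw [tendsto_iff_norm_sub_tendsto_zero]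
    refine squeeze_zero (fun _ => norm_nonneg _) hdiff ?_
    have h1 : Tendsto (fun k : ℕ => (k : ℝ) + 1) atTop atTop :=
      tendsto_atTop_add_const_right _ _ tendsto_natCast_atTop_atTop
    have h2 := (tendsto_rpow_neg_atTop (by norm_num : (0:ℝ) < 1 / 4)).comp h1
    have h3 := (h2.const_mul (C * (1 + 1 / lam.im))).mul_const
      ‖(mulop p : L2 (n + 1) →L[ℂ] L2 (n + 1))‖
    simpa using h3
  exact isCompactOperator_of_tendsto hlim (Filter.Eventually.of_forall hcomp)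

end Pool.Agent.Helper41.CE
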