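import Pool.Agent.Helper41.CE.TDefs
import Pool.Agent.Helper41.CE.CU01
import Pool.Agent.Helper41.CE.CU06
import Pool.Agent.Helper41.CE.CU13
import Pool.Agent.Helper41.CE.CU25
import Pool.Agent.Helper41.CE.CU26

/-!
# Semiclassical eigenvalue bounds for Schroedinger operators: definitions
-/

open MeasureTheory Filter Topology Set
open scoped ENNReal NNReal ContDiff

namespace Pool.Agent.Helper41.CE


/-! ## TARGETS: prove these (statements must not be changed; helper lemmas are welcome) -/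

theorem Kop_isolated {n : ℕ} {p : E (n + 1) → ℂ} (hp : BV p) {z0 : ℂ} (h : 0 < z0.im) :
    ∀ᶠ z in 𝓝[≠] z0, IsUnit (1 + Kop p z * Rf n) := by
  have hopen : IsOpen {z : ℂ | 0 < z.im} := isOpen_lt continuous_const Complex.continuous_im
  have hconv : Convex ℝ {z : ℂ | 0 < z.im} := convex_halfSpace_im_gt 0
  obtain ⟨C0, hC0⟩ := hp.2.1
  have hC : ∀ x, ‖p x‖ ≤ max C0 0 := fun x => (hC0 x).trans (le_max_left _ _)
  set C := max C0 0 with hCdef
  have hC00 : 0 ≤ C := le_max_right _ _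
  have hRf : ‖Rf n‖ ≤ 1 := by
    refine ContinuousLinearMap.opNorm_le_bound _ zero_le_one fun u => ?_
    rw [Rf_norm, one_mul]
  set z1 : ℂ := ((C + 1 : ℝ) : ℂ) * Complex.I with hz1
  have hz1im : z1.im = C + 1 := by simp [hz1]
  have hz1mem : 0 < z1.im := by rw [hz1im]; linarith
  refine an_fred {z : ℂ | 0 < z.im} hopen hconv.isPreconnected (fun z => Kop p z * Rf n) ?_ ?_ z1
    hz1mem ?_ z0 h
  · exact (Kop_diff (BM_of_BV hp)).mul_const (Rf n)
  · intro z hz
    exact (Kop_compact hp hz).comp_clm (Rf n)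
  · have h1 : ‖-(Kop p z1 * Rf n)‖ < 1 := by
      rw [norm_neg]
      calc ‖Kop p z1 * Rf n‖ ≤ ‖Kop p z1‖ * ‖Rf n‖ := norm_mul_le _ _
        _ ≤ (C / z1.im) * 1 :=
          mul_le_mul (Kop_norm (BM_of_BV hp) C hC hz1mem) hRf (norm_nonneg _) (by positivity)
        _ < 1 := by
          rw [hz1im, mul_one, div_lt_one (by linarith)]; linarith
    have h2 := isUnit_one_sub_of_norm_lt_one h1
    rwa [sub_neg_eq_add] at h2

end Pool.Agent.Helper41.CE
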