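import Pool.Agent.Helper41.CE.TDefs
import Pool.Agent.Helper41.CE.CU01
import Pool.Agent.Helper41.CE.CU02
import Pool.Agent.Helper41.CE.CU03
import Pool.Agent.Helper41.CE.CU14

/-!
# Semiclassical eigenvalue bounds for Schroedinger operators: definitions
-/

open MeasureTheory Filter Topology Set
open scoped ENNReal NNReal ContDiff

namespace Pool.Agent.Helper41.CE


/-! ## TARGETS: prove these (statements must not be changed; helper lemmas are welcome) -/

open FourierTransform SchwartzMap in
theorem h939_FT_ae {d : ℕ} (f : E d → ℂ) (hf : Integrable f) (hf2 : MemLp f 2 volume) :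
    (FT d (hf2.toLp f) : E d → ℂ) =ᵐ[volume] 𝓕 f := by
  have hcont : Continuous (𝓕 f) :=
    VectorFourier.fourierIntegral_continuous Real.continuous_fourierChar
      (L := innerₗ (E d)) continuous_inner hf
  apply ae_eq_of_integral_contDiff_smul_eq
  · exact (Lp.memLp _).locallyIntegrable (by norm_num)
  · exact hcont.locallyIntegrable
  · intro g g_smooth g_cpt
    have hg₁ : HasCompactSupport (Complex.ofRealCLM ∘ g) := g_cpt.comp_left rfl
    have hg₂ : ContDiff ℝ ∞ (Complex.ofRealCLM ∘ g) := by fun_prop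
    set G : 𝓢(E d, ℂ) := hg₁.toSchwartzMap hg₂ with hG
    have hGx : ∀ x, G x = (g x : ℂ) := fun x => rfl
    have h1 : ∫ x, g x • (FT d (hf2.toLp f) : E d → ℂ) x =
        Lp.toTemperedDistribution (𝓕 (hf2.toLp f)) G := by
      rw [Lp.toTemperedDistribution_apply]
      apply integral_congr_ae
      filter_upwards with x
      rw [hGx]
      change (g x) • _ = _
      rw [← Complex.coe_smul]
      rfl
    rw [h1, ← Lp.fourier_toTemperedDistribution_eq, TemperedDistribution.fourier_apply,
      Lp.toTemperedDistribution_apply]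
    have h2 : ∫ x, (𝓕 G) x • (hf2.toLp f : E d → ℂ) x = ∫ x, (𝓕 (G : E d → ℂ)) x • f x := by
      apply integral_congr_ae
      filter_upwards [hf2.coeFn_toLp] with x hx
      rw [hx]
      rfl
    rw [h2]
    have h3 : ∫ x, (𝓕 (G : E d → ℂ)) x • f x = ∫ x, G x • 𝓕 f x := by
      have := VectorFourier.integral_fourierIntegral_smul_eq_flip (L := innerₗ (E d))
        Real.continuous_fourierChar continuous_inner (G.integrable (μ := volume)) hf
      rw [flip_innerₗ] at this
      exact this
    rw [h3]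
    apply integral_congr_ae
    filter_upwards with x
    rw [hGx, ← Complex.coe_smul]

theorem fourier_res {n : ℕ} (a S : E (n + 1) → ℂ) (ha : Integrable a) (hS : Integrable S)
    (ha2 : MemLp a 2 volume) (hS2 : MemLp S 2 volume) (lam : ℂ) (hlam : 0 < lam.im)
    (h : ∀ ξ : E (n + 1),
      ∫ X, Complex.exp (-(2 * Real.pi * Complex.I * ((inner ℝ X ξ : ℝ) : ℂ))) * S X =
        ((sp ξ : ℂ) - lam) *
          ∫ X, Complex.exp (-(2 * Real.pi * Complex.I * ((inner ℝ X ξ : ℝ) : ℂ))) * a X) :
    ha2.toLp a = Rs sp lam (hS2.toLp S) := by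
  have hFa := h939_FT_ae a ha ha2
  have hFS := h939_FT_ae S hS hS2
  have hbm : BM (fun ξ : E (n + 1) => ((sp ξ : ℂ) - lam)⁻¹) :=
    BM_res (sym_meas (n := n) 0).2.1 hlam.ne'
  have hint : ∀ (f : E (n + 1) → ℂ) (ξ : E (n + 1)), FourierTransform.fourier f ξ =
      ∫ X, Complex.exp (-(2 * Real.pi * Complex.I * ((inner ℝ X ξ : ℝ) : ℂ))) * f X := by
    intro f ξ
    rw [Real.fourier_eq']
    apply integral_congr_ae
    filter_upwards with X
    rw [smul_eq_mul]
    congr 2
    push_cast
    ring
  apply (FT (n + 1)).injective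
  unfold Rs
  rw [Fm_apply]
  apply Lp.ext
  have h4 := mulop_spec hbm (FT (n + 1) (hS2.toLp S))
  filter_upwards [hFa, hFS, h4] with ξ h1 h2 h3
  rw [h1, h3, h2, hint a ξ, hint S ξ, h ξ]
  have hne : (sp ξ : ℂ) - lam ≠ 0 := by
    intro h0
    have := congrArg Complex.im h0
    simp at this
    exact hlam.ne' this
  rw [inv_mul_cancel_left₀ hne]

end Pool.Agent.Helper41.CE
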