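import Pool.Agent.Helper41.CE.TDefs
import Pool.Agent.Helper41.CE.CU13
import Pool.Agent.Helper41.CE.CU14

/-!
# Semiclassical eigenvalue bounds for Schroedinger operators: definitions
-/

open MeasureTheory Filter Topology Set
open scoped ENNReal NNReal ContDiff

namespace Pool.Agent.Helper41.CE


/-! ## TARGETS: prove these (statements must not be changed; helper lemmas are welcome) -/

theorem aux_R_nonneg {n : ℕ} (X : E (n + 1)) : 0 ≤ ‖X‖ ^ 2 - (X 0) ^ 2 := by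
  have h := PiLp.norm_apply_le X 0
  rw [Real.norm_eq_abs] at h
  have h2 : |X 0| ^ 2 ≤ ‖X‖ ^ 2 := pow_le_pow_left₀ (abs_nonneg _) h 2
  rw [sq_abs] at h2
  linarith

theorem aux_base_ne (y : ℝ) : (1 + Complex.I * ((y : ℝ) : ℂ)) ≠ 0 := by
  intro h
  have := congrArg Complex.re h
  simp at this

theorem aux_norm_base (y : ℝ) : ‖(1 + Complex.I * ((y : ℝ) : ℂ))‖ = Real.sqrt (1 + y ^ 2) := by
  have h := Complex.norm_add_mul_I 1 y
  rw [one_pow] at h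
  rw [← h]
  congr 1
  push_cast
  ring

theorem aux_re (R y : ℝ) : (-((R : ℝ) : ℂ) / (2 * (1 + Complex.I * ((y : ℝ) : ℂ)))).re
    = -R / (2 * (1 + y ^ 2)) := by
  have hy : (1 + y ^ 2 : ℝ) ≠ 0 := by positivity
  have hy' : ((1 + y ^ 2 : ℝ) : ℂ) ≠ 0 := by exact_mod_cast hy
  have hb := aux_base_ne y
  have e : -((R : ℝ) : ℂ) / (2 * (1 + Complex.I * ((y : ℝ) : ℂ)))
      = ((-R / (2 * (1 + y ^ 2)) : ℝ) : ℂ) * (1 - Complex.I * ((y : ℝ) : ℂ)) := by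
    rw [div_eq_iff (mul_ne_zero two_ne_zero hb)]
    push_cast
    push_cast at hy'
    field_simp
    linear_combination (-(R : ℂ)) * (y : ℂ) ^ 2 * Complex.I_sq
  rw [e, Complex.re_ofReal_mul]
  simp

theorem gg_facts (n : ℕ) (gg : E (n + 1) → ℂ)
    (hgg : ∀ X, gg X = (1 + Complex.I * ((X 0 + 1 : ℝ) : ℂ)) ^ (-((n : ℂ) / 2)) *
      Complex.exp (-((‖X‖ ^ 2 - (X 0) ^ 2 : ℝ) : ℂ) / (2 * (1 + Complex.I * ((X 0 + 1 : ℝ) : ℂ))))) :
    Measurable gg ∧ (∀ X, gg X ≠ 0) ∧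
    ∀ X, ‖gg X‖ = (1 + (X 0 + 1) ^ 2) ^ (-((n : ℝ) / 4)) *
      Real.exp (-(‖X‖ ^ 2 - (X 0) ^ 2) / (2 * (1 + (X 0 + 1) ^ 2))) := by
  refine ⟨?_, ?_, ?_⟩
  · have e : gg = fun X => (1 + Complex.I * ((X 0 + 1 : ℝ) : ℂ)) ^ (-((n : ℂ) / 2)) *
      Complex.exp (-((‖X‖ ^ 2 - (X 0) ^ 2 : ℝ) : ℂ) / (2 * (1 + Complex.I * ((X 0 + 1 : ℝ) : ℂ)))) :=
      funext hgg
    rw [e]
    have h0 : Measurable (fun X : E (n + 1) => X 0) := by fun_prop
    have h1 : Measurable (fun X : E (n + 1) => ‖X‖) := measurable_norm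
    have h2 : Measurable (fun X : E (n + 1) => (1 + Complex.I * ((X 0 + 1 : ℝ) : ℂ))) :=
      measurable_const.add (measurable_const.mul (Complex.measurable_ofReal.comp (h0.add_const 1)))
    have h3 : Measurable (fun X : E (n + 1) => (-((‖X‖ ^ 2 - (X 0) ^ 2 : ℝ) : ℂ))) :=
      (Complex.measurable_ofReal.comp ((h1.pow_const 2).sub (h0.pow_const 2))).neg
    exact (h2.pow_const _).mul (Complex.measurable_exp.comp (h3.div (measurable_const.mul h2)))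
  · intro X
    rw [hgg]
    refine mul_ne_zero ?_ (Complex.exp_ne_zero _)
    rw [Complex.cpow_ne_zero_iff]
    exact Or.inl (aux_base_ne _)
  · intro X
    rw [hgg, norm_mul, Complex.norm_exp, aux_re]
    congr 1
    have e : (-((n : ℂ) / 2)) = ((-((n : ℝ) / 2) : ℝ) : ℂ) := by push_cast; ring
    rw [e, Complex.norm_cpow_real, aux_norm_base, Real.sqrt_eq_rpow, ← Real.rpow_mul (by positivity)]
    congr 1
    ring

theorem aux_wt {n : ℕ} (X : E (n + 1)) : ((wt X) ^ 2)⁻¹ = 1 + (‖X‖ ^ 2 - (X 0) ^ 2) := by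
  have h := aux_R_nonneg X
  have h1 : 0 ≤ 1 + (‖X‖ ^ 2 - (X 0) ^ 2) := by linarith
  unfold wt
  rw [← Real.rpow_natCast, ← Real.rpow_mul h1]
  norm_num
  rw [Real.rpow_neg_one, inv_inv]

theorem aux_bound (n : ℕ) (gg : E (n + 1) → ℂ)
    (hgg : ∀ X, gg X = (1 + Complex.I * ((X 0 + 1 : ℝ) : ℂ)) ^ (-((n : ℂ) / 2)) *
      Complex.exp (-((‖X‖ ^ 2 - (X 0) ^ 2 : ℝ) : ℂ) / (2 * (1 + Complex.I * ((X 0 + 1 : ℝ) : ℂ)))))
    (X : E (n + 1)) (hX1 : -1 < X 0) (hX2 : X 0 < -(1 / 2)) :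
    ‖4 * Complex.I * Complex.exp (-(X 0 : ℂ)) * (gg X / gg (rfx X)) *
        ((((wt X) ^ 2)⁻¹ : ℝ) : ℂ)‖ ≤
      (40 * Real.exp 1 * (5 : ℝ) ^ ((n : ℝ) / 4)) * Real.exp (-(‖X‖ ^ 2 - (X 0) ^ 2) / 10) := by
  obtain ⟨-, hne, hnorm⟩ := gg_facts n gg hgg
  have hR := aux_R_nonneg X
  rw [norm_mul, norm_mul, norm_mul, norm_mul, norm_div, hnorm X, hnorm (rfx X), rfx_zero, rfx_norm,
    aux_wt, Complex.norm_real, Complex.norm_I, Complex.norm_exp, Real.norm_eq_abs,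
    abs_of_nonneg (by linarith : 0 ≤ 1 + (‖X‖ ^ 2 - (X 0) ^ 2))]
  have h4 : ‖(4 : ℂ)‖ = 4 := by simp
  rw [h4, neg_sq]
  set R := ‖X‖ ^ 2 - (X 0) ^ 2 with hRdef
  set y := X 0 with hy
  have e1 : Real.exp ((-(y : ℂ)).re) ≤ Real.exp 1 := by
    rw [Real.exp_le_exp]; simp; linarith
  have hA : (1 + (y + 1) ^ 2 : ℝ) ^ (-((n : ℝ) / 4)) ≤ 1 :=
    Real.rpow_le_one_of_one_le_of_nonpos (by nlinarith [sq_nonneg (y + 1)])
      (by have : (0:ℝ) ≤ (n : ℝ) / 4 := by positivity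
          linarith)
  have hA0 : 0 ≤ (1 + (y + 1) ^ 2 : ℝ) ^ (-((n : ℝ) / 4)) := by positivity
  have hB : ((1 + (-y + 1) ^ 2 : ℝ) ^ (-((n : ℝ) / 4)))⁻¹ ≤ (5 : ℝ) ^ ((n : ℝ) / 4) := by
    rw [Real.rpow_neg (by positivity), inv_inv]
    exact Real.rpow_le_rpow (by positivity) (by nlinarith) (by positivity)
  have hB0 : 0 ≤ ((1 + (-y + 1) ^ 2 : ℝ) ^ (-((n : ℝ) / 4)))⁻¹ := by positivity
  have hexp : Real.exp (-R / (2 * (1 + (y + 1) ^ 2))) * (Real.exp (-R / (2 * (1 + (-y + 1) ^ 2))))⁻¹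
      ≤ Real.exp (-R / 5) := by
    rw [← Real.exp_neg, ← Real.exp_add, Real.exp_le_exp]
    have d1 : (4 / 5 : ℝ) ≤ 1 / (1 + (y + 1) ^ 2) := by
      rw [div_le_div_iff₀ (by norm_num) (by positivity)]
      nlinarith
    have d2 : 1 / (1 + (-y + 1) ^ 2) ≤ (4 / 13 : ℝ) := by
      rw [div_le_div_iff₀ (by positivity) (by norm_num)]
      nlinarith
    have e : -R / (2 * (1 + (y + 1) ^ 2)) + -(-R / (2 * (1 + (-y + 1) ^ 2)))
        = -(R / 2) * (1 / (1 + (y + 1) ^ 2) - 1 / (1 + (-y + 1) ^ 2)) := by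
      have p1 : (1 + (y + 1) ^ 2 : ℝ) ≠ 0 := by positivity
      have p2 : (1 + (-y + 1) ^ 2 : ℝ) ≠ 0 := by positivity
      field_simp
      ring
    rw [e]
    nlinarith
  have hpoly : (1 + R) ≤ 10 * Real.exp (R / 10) := by
    have := Real.add_one_le_exp (R / 10)
    nlinarith
  have hfinal : Real.exp (-R / 5) * (10 * Real.exp (R / 10)) = 10 * Real.exp (-R / 10) := by
    have : Real.exp (-R / 10) = Real.exp (-R / 5) * Real.exp (R / 10) := by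
      rw [← Real.exp_add]; congr 1; ring
    rw [this]; ring
  have hex0 : 0 ≤ Real.exp (-R / (2 * (1 + (y + 1) ^ 2))) *
      (Real.exp (-R / (2 * (1 + (-y + 1) ^ 2))))⁻¹ := by positivity
  calc 4 * 1 * Real.exp ((-(y : ℂ)).re) *
        ((1 + (y + 1) ^ 2) ^ (-((n : ℝ) / 4)) * Real.exp (-R / (2 * (1 + (y + 1) ^ 2))) /
        ((1 + (-y + 1) ^ 2) ^ (-((n : ℝ) / 4)) * Real.exp (-R / (2 * (1 + (-y + 1) ^ 2))))) * (1 + R)
      = 4 * Real.exp ((-(y : ℂ)).re) * ((1 + (y + 1) ^ 2) ^ (-((n : ℝ) / 4)) *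
        ((1 + (-y + 1) ^ 2) ^ (-((n : ℝ) / 4)))⁻¹) *
        ((Real.exp (-R / (2 * (1 + (y + 1) ^ 2))) *
          (Real.exp (-R / (2 * (1 + (-y + 1) ^ 2))))⁻¹) * (1 + R)) := by
        rw [div_eq_mul_inv, mul_inv]; ring
    _ ≤ 4 * Real.exp 1 * (1 * (5 : ℝ) ^ ((n : ℝ) / 4)) *
        (Real.exp (-R / 5) * (10 * Real.exp (R / 10))) := by
        gcongr
    _ = _ := by rw [hfinal]; ring

theorem pp_BV (n : ℕ) (gg : E (n + 1) → ℂ)
    (hgg : ∀ X, gg X = (1 + Complex.I * ((X 0 + 1 : ℝ) : ℂ)) ^ (-((n : ℂ) / 2)) *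
      Complex.exp (-((‖X‖ ^ 2 - (X 0) ^ 2 : ℝ) : ℂ) / (2 * (1 + Complex.I * ((X 0 + 1 : ℝ) : ℂ))))) :
    BV (fun X : E (n + 1) => if -1 < X 0 ∧ X 0 < -(1 / 2) then
      4 * Complex.I * Complex.exp (-(X 0 : ℂ)) * (gg X / gg (rfx X)) *
        ((((wt X) ^ 2)⁻¹ : ℝ) : ℂ) else 0) := by
  obtain ⟨hmeas, hne, -⟩ := gg_facts n gg hgg
  have h0 : Measurable (fun X : E (n + 1) => X 0) := by fun_prop
  set C : ℝ := 40 * Real.exp 1 * (5 : ℝ) ^ ((n : ℝ) / 4) with hC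
  have hCpos : 0 < C := by positivity
  refine ⟨?_, ⟨C, ?_⟩, ?_⟩
  · refine Measurable.ite ?_ ?_ measurable_const
    · exact (measurableSet_lt measurable_const h0).inter (measurableSet_lt h0 measurable_const)
    · have m1 : Measurable (fun X : E (n + 1) => Complex.exp (-(X 0 : ℂ))) :=
        Complex.measurable_exp.comp (Complex.measurable_ofReal.comp h0).neg
      have m2 : Measurable (fun X : E (n + 1) => gg X / gg (rfx X)) :=
        hmeas.div (hmeas.comp rfx_meas)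
      have m3 : Measurable (fun X : E (n + 1) => ((((wt X) ^ 2)⁻¹ : ℝ) : ℂ)) :=
        Complex.measurable_ofReal.comp (wt_meas.pow_const 2).inv
      exact ((measurable_const.mul m1).mul m2).mul m3
  · intro X
    simp only
    split_ifs with h
    · refine (aux_bound n gg hgg X h.1 h.2).trans ?_
      have hR := aux_R_nonneg X
      have : Real.exp (-(‖X‖ ^ 2 - (X 0) ^ 2) / 10) ≤ 1 := by
        rw [Real.exp_le_one_iff]; linarith
      calc C * Real.exp (-(‖X‖ ^ 2 - (X 0) ^ 2) / 10) ≤ C * 1 := by gcongr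
        _ = C := mul_one C
    · rw [norm_zero]; exact hCpos.le
  · intro ε hε
    refine ⟨1 + 10 * |Real.log (ε / C)|, fun X hX => ?_⟩
    simp only
    split_ifs with h
    · refine (aux_bound n gg hgg X h.1 h.2).trans ?_
      have hl : 0 ≤ |Real.log (ε / C)| := abs_nonneg _
      have hl2 : -Real.log (ε / C) ≤ |Real.log (ε / C)| := neg_le_abs _
      have hx0 : (X 0) ^ 2 ≤ 1 := by nlinarith [h.1, h.2]
      have hXn : 1 + 10 * |Real.log (ε / C)| ≤ ‖X‖ ^ 2 := by nlinarith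
      have : Real.exp (-(‖X‖ ^ 2 - (X 0) ^ 2) / 10) ≤ ε / C := by
        rw [← Real.le_log_iff_exp_le (by positivity)]
        linarith
      calc C * Real.exp (-(‖X‖ ^ 2 - (X 0) ^ 2) / 10) ≤ C * (ε / C) := by gcongr
        _ = ε := by field_simp
    · rw [norm_zero]; exact hε.le

end Pool.Agent.Helper41.CE
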