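import Pool.Agent.Helper41.CE.TDefs
import Pool.Agent.Helper41.CE.CU29

/-!
# Semiclassical eigenvalue bounds for Schroedinger operators: definitions
-/

open MeasureTheory Filter Topology Set
open scoped ENNReal NNReal ContDiff

namespace Pool.Agent.Helper41.CE


/-! ## TARGETS: prove these (statements must not be changed; helper lemmas are welcome) -/

theorem aa_bnd (k : ℕ) (hk : 1 ≤ k) : ∃ C : ℝ, 0 < C ∧ ∀ x R : ℝ, -1 < x → 0 ≤ R →
    Real.exp (-x / 2) * Real.exp (-R / (2 * (1 + (x + 1) ^ 2))) * ((1 + R) ^ k * (1 + x ^ 2) ^ k) ≤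
      C := by
  have hk' : (1 : ℝ) ≤ k := by exact_mod_cast hk
  have hk0 : (0 : ℝ) < k := by linarith
  refine ⟨(k : ℝ) ^ k * 6 ^ k * (8 * k : ℝ) ^ (4 * k) * Real.exp (3 / 2), by positivity, ?_⟩
  intro x R hx hR
  obtain ⟨P, hP⟩ : ∃ P : ℝ, P = 1 + (x + 1) ^ 2 := ⟨_, rfl⟩
  obtain ⟨u, hu⟩ : ∃ u : ℝ, u = R / (2 * P) := ⟨_, rfl⟩
  have hP1 : 1 ≤ P := by rw [hP]; nlinarith [sq_nonneg (x + 1)]
  have hu0 : 0 ≤ u := by rw [hu]; positivity
  have hexpu : Real.exp (-R / (2 * (1 + (x + 1) ^ 2))) = Real.exp (-u) := by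
    rw [hu, hP, neg_div]
  rw [hexpu]
  have h1 : (1 + u) ^ k ≤ (k : ℝ) ^ k * Real.exp u := by
    have e1 : 1 + u ≤ k * Real.exp (u / k) := by
      have e2 := Real.add_one_le_exp (u / k)
      have e3 : (k : ℝ) * (u / k + 1) ≤ k * Real.exp (u / k) :=
        mul_le_mul_of_nonneg_left e2 hk0.le
      have e4 : (k : ℝ) * (u / k + 1) = u + k := by field_simp
      linarith
    calc (1 + u) ^ k ≤ (k * Real.exp (u / k)) ^ k := pow_le_pow_left₀ (by linarith) e1 k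
      _ = (k : ℝ) ^ k * Real.exp u := by
        rw [mul_pow, ← Real.exp_nat_mul]
        congr 2
        field_simp
  have h2 : 1 + R ≤ 2 * P * (1 + u) := by
    have : 2 * P * u = R := by rw [hu]; field_simp
    nlinarith
  have h3 : (1 + R) ^ k ≤ (2 * P) ^ k * ((k : ℝ) ^ k * Real.exp u) := by
    calc (1 + R) ^ k ≤ (2 * P * (1 + u)) ^ k := pow_le_pow_left₀ (by linarith) h2 k
      _ = (2 * P) ^ k * (1 + u) ^ k := mul_pow _ _ _
      _ ≤ _ := mul_le_mul_of_nonneg_left h1 (by positivity)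
  have h4 : (2 * P) ^ k ≤ 6 ^ k * (1 + x ^ 2) ^ k := by
    rw [← mul_pow]
    apply pow_le_pow_left₀ (by linarith)
    rw [hP]
    nlinarith [sq_nonneg (x - 1), sq_nonneg x]
  have h5 : 1 + x ^ 2 ≤ (x + 3) ^ 2 := by nlinarith
  have h6 : (x + 3) ^ (4 * k) ≤ (8 * k : ℝ) ^ (4 * k) * Real.exp ((x + 3) / 2) := by
    have e1 : x + 3 ≤ 8 * k * Real.exp ((x + 3) / (8 * k)) := by
      have e2 := Real.add_one_le_exp ((x + 3) / (8 * k : ℝ))
      have e3 : (8 * k : ℝ) * ((x + 3) / (8 * k) + 1) ≤ 8 * k * Real.exp ((x + 3) / (8 * k)) :=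
        mul_le_mul_of_nonneg_left e2 (by positivity)
      have e4 : (8 * k : ℝ) * ((x + 3) / (8 * k) + 1) = x + 3 + 8 * k := by field_simp
      linarith
    calc (x + 3) ^ (4 * k) ≤ (8 * k * Real.exp ((x + 3) / (8 * k))) ^ (4 * k) :=
          pow_le_pow_left₀ (by linarith) e1 _
      _ = (8 * k : ℝ) ^ (4 * k) * Real.exp ((x + 3) / 2) := by
        rw [mul_pow, ← Real.exp_nat_mul]
        congr 2
        push_cast
        field_simp
        ring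
  have h7 : (1 + x ^ 2) ^ k * (1 + x ^ 2) ^ k ≤ (x + 3) ^ (4 * k) := by
    have : (1 + x ^ 2) ^ k * (1 + x ^ 2) ^ k = (1 + x ^ 2) ^ (2 * k) := by
      rw [two_mul, pow_add]
    rw [this]
    calc (1 + x ^ 2) ^ (2 * k) ≤ ((x + 3) ^ 2) ^ (2 * k) := pow_le_pow_left₀ (by positivity) h5 _
      _ = (x + 3) ^ (4 * k) := by rw [← pow_mul]; congr 1; ring
  calc Real.exp (-x / 2) * Real.exp (-u) * ((1 + R) ^ k * (1 + x ^ 2) ^ k)
      ≤ Real.exp (-x / 2) * Real.exp (-u) *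
        (((2 * P) ^ k * ((k : ℝ) ^ k * Real.exp u)) * (1 + x ^ 2) ^ k) := by
        apply mul_le_mul_of_nonneg_left _ (by positivity)
        exact mul_le_mul_of_nonneg_right h3 (by positivity)
    _ = (Real.exp (-u) * Real.exp u) * (Real.exp (-x / 2) * (k : ℝ) ^ k * (1 + x ^ 2) ^ k) *
        (2 * P) ^ k := by ring
    _ = (Real.exp (-x / 2) * (k : ℝ) ^ k * (1 + x ^ 2) ^ k) * (2 * P) ^ k := by
        rw [← Real.exp_add, neg_add_cancel, Real.exp_zero, one_mul]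
    _ ≤ (Real.exp (-x / 2) * (k : ℝ) ^ k * (1 + x ^ 2) ^ k) * (6 ^ k * (1 + x ^ 2) ^ k) :=
        mul_le_mul_of_nonneg_left h4 (by positivity)
    _ = Real.exp (-x / 2) * (k : ℝ) ^ k * 6 ^ k * ((1 + x ^ 2) ^ k * (1 + x ^ 2) ^ k) := by ring
    _ ≤ Real.exp (-x / 2) * (k : ℝ) ^ k * 6 ^ k *
        ((8 * k : ℝ) ^ (4 * k) * Real.exp ((x + 3) / 2)) :=
        mul_le_mul_of_nonneg_left (h7.trans h6) (by positivity)
    _ = (k : ℝ) ^ k * 6 ^ k * (8 * k : ℝ) ^ (4 * k) *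
        (Real.exp (-x / 2) * Real.exp ((x + 3) / 2)) := by ring
    _ = (k : ℝ) ^ k * 6 ^ k * (8 * k : ℝ) ^ (4 * k) * Real.exp (3 / 2) := by
        rw [← Real.exp_add]
        congr 2
        ring

theorem aa_bnd2 (n : ℕ) : ∃ C : ℝ, 0 < C ∧ ∀ X : E (n + 1), -1 < X 0 →
    Real.exp (-X 0 / 2) * Real.exp (-(‖X‖ ^ 2 - (X 0) ^ 2) / (2 * (1 + (X 0 + 1) ^ 2))) ≤
      C * (1 + ‖X‖) ^ (-((n + 2 : ℕ) : ℝ)) := by
  obtain ⟨C, hC, h⟩ := aa_bnd (n + 2) (by omega)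
  refine ⟨C * 2 ^ (n + 2), by positivity, ?_⟩
  intro X hX
  have hle : (X 0) ^ 2 ≤ ‖X‖ ^ 2 := by
    have h1 := PiLp.norm_apply_le X 0
    rw [Real.norm_eq_abs] at h1
    rw [← sq_abs (X 0)]
    exact pow_le_pow_left₀ (abs_nonneg _) h1 2
  have h1 := h (X 0) (‖X‖ ^ 2 - (X 0) ^ 2) hX (by linarith)
  have hpos : 0 < (1 + ‖X‖) ^ (n + 2) := by positivity
  rw [Real.rpow_neg (by positivity), Real.rpow_natCast, ← div_eq_mul_inv, le_div_iff₀ hpos]
  have h2 : (1 + ‖X‖) ^ (n + 2) ≤ 2 ^ (n + 2) *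
      ((1 + (‖X‖ ^ 2 - (X 0) ^ 2)) ^ (n + 2) * (1 + (X 0) ^ 2) ^ (n + 2)) := by
    rw [← mul_pow, ← mul_pow]
    apply pow_le_pow_left₀ (by positivity)
    have h3 : 1 + ‖X‖ ^ 2 ≤ (1 + (‖X‖ ^ 2 - (X 0) ^ 2)) * (1 + (X 0) ^ 2) := by
      nlinarith [mul_nonneg (sub_nonneg.2 hle) (sq_nonneg (X 0))]
    nlinarith [sq_nonneg (‖X‖ - 1), norm_nonneg X]
  have hE : 0 ≤ Real.exp (-X 0 / 2) *
      Real.exp (-(‖X‖ ^ 2 - (X 0) ^ 2) / (2 * (1 + (X 0 + 1) ^ 2))) := by positivity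
  calc Real.exp (-X 0 / 2) * Real.exp (-(‖X‖ ^ 2 - (X 0) ^ 2) / (2 * (1 + (X 0 + 1) ^ 2))) *
        (1 + ‖X‖) ^ (n + 2)
      ≤ Real.exp (-X 0 / 2) * Real.exp (-(‖X‖ ^ 2 - (X 0) ^ 2) / (2 * (1 + (X 0 + 1) ^ 2))) *
        (2 ^ (n + 2) *
      ((1 + (‖X‖ ^ 2 - (X 0) ^ 2)) ^ (n + 2) * (1 + (X 0) ^ 2) ^ (n + 2))) :=
        mul_le_mul_of_nonneg_left h2 hE
    _ = 2 ^ (n + 2) * (Real.exp (-X 0 / 2) *
        Real.exp (-(‖X‖ ^ 2 - (X 0) ^ 2) / (2 * (1 + (X 0 + 1) ^ 2))) *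
      ((1 + (‖X‖ ^ 2 - (X 0) ^ 2)) ^ (n + 2) * (1 + (X 0) ^ 2) ^ (n + 2))) := by ring
    _ ≤ 2 ^ (n + 2) * C := mul_le_mul_of_nonneg_left h1 (by positivity)
    _ = C * 2 ^ (n + 2) := by ring

theorem aa_gen (n : ℕ) (f : E (n + 1) → ℂ) (hf : Measurable f) (C : ℝ) (hC : 0 < C)
    (h : ∀ X, ‖f X‖ ≤ C * (1 + ‖X‖) ^ (-((n + 2 : ℕ) : ℝ))) :
    Integrable f ∧ MemLp f 2 volume := by
  have hint : Integrable (fun X : E (n + 1) => (1 + ‖X‖) ^ (-((n + 2 : ℕ) : ℝ))) := by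
    apply integrable_one_add_norm
    rw [finrank_euclideanSpace, Fintype.card_fin]
    push_cast
    linarith
  have h1 : Integrable f :=
    (hint.const_mul C).mono' hf.aestronglyMeasurable (Filter.Eventually.of_forall h)
  refine ⟨h1, ?_⟩
  have hb : ∀ X, ‖f X‖ ≤ C := by
    intro X
    refine (h X).trans ?_
    have : (1 + ‖X‖) ^ (-((n + 2 : ℕ) : ℝ)) ≤ 1 := by
      apply Real.rpow_le_one_of_one_le_of_nonpos
      · linarith [norm_nonneg X]
      · rw [neg_nonpos]; positivity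
    calc C * (1 + ‖X‖) ^ (-((n + 2 : ℕ) : ℝ)) ≤ C * 1 := mul_le_mul_of_nonneg_left this hC.le
      _ = C := mul_one _
  rw [memLp_two_iff_integrable_sq_norm hf.aestronglyMeasurable]
  refine (h1.norm.const_mul C).mono' (hf.norm.pow_const 2).aestronglyMeasurable
    (Filter.Eventually.of_forall fun X => ?_)
  rw [Real.norm_of_nonneg (by positivity), sq]
  exact mul_le_mul_of_nonneg_right (hb X) (norm_nonneg _)

theorem aa_int (n : ℕ) (gg : E (n + 1) → ℂ)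
    (hgg : ∀ X, gg X = (1 + Complex.I * ((X 0 + 1 : ℝ) : ℂ)) ^ (-((n : ℂ) / 2)) *
      Complex.exp (-((‖X‖ ^ 2 - (X 0) ^ 2 : ℝ) : ℂ) / (2 * (1 + Complex.I * ((X 0 + 1 : ℝ) : ℂ)))))
    (a S : E (n + 1) → ℂ)
    (ha : ∀ X, a X = ((max 0 (min 1 (2 * (X 0 + 1))) : ℝ) : ℂ) * Complex.exp (-(X 0 : ℂ) / 2) * gg X)
    (hS : ∀ X, S X = if -1 < X 0 ∧ X 0 < -(1 / 2) then
      -4 * Complex.I * Complex.exp (-(X 0 : ℂ) / 2) * gg X else 0) :
    Integrable a ∧ Integrable S ∧ MemLp a 2 volume ∧ MemLp S 2 volume ∧ ¬ (a =ᵐ[volume] 0) := by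
  obtain ⟨hgm, hg0, hgn⟩ := gg_facts n gg hgg
  obtain ⟨C, hC, hbd⟩ := aa_bnd2 n
  have hX0 : Measurable (fun X : E (n + 1) => X 0) := by fun_prop
  have hgle : ∀ X, ‖gg X‖ ≤
      Real.exp (-(‖X‖ ^ 2 - (X 0) ^ 2) / (2 * (1 + (X 0 + 1) ^ 2))) := by
    intro X
    rw [hgn]
    have h1 : (1 + (X 0 + 1) ^ 2) ^ (-((n : ℝ) / 4)) ≤ 1 := by
      apply Real.rpow_le_one_of_one_le_of_nonpos
      · nlinarith [sq_nonneg (X 0 + 1)]
      · rw [neg_nonpos]; positivity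
    calc _ ≤ 1 * Real.exp (-(‖X‖ ^ 2 - (X 0) ^ 2) / (2 * (1 + (X 0 + 1) ^ 2))) :=
          mul_le_mul_of_nonneg_right h1 (Real.exp_pos _).le
      _ = _ := one_mul _
  have hexp : ∀ X : E (n + 1), ‖Complex.exp (-(X 0 : ℂ) / 2)‖ = Real.exp (-X 0 / 2) := by
    intro X
    rw [Complex.norm_exp]
    congr 1
    have : (-(X 0 : ℂ) / 2) = ((-X 0 / 2 : ℝ) : ℂ) := by push_cast; ring
    rw [this, Complex.ofReal_re]
  have ham : Measurable a := by
    have h1 : a = fun X => ((max 0 (min 1 (2 * (X 0 + 1))) : ℝ) : ℂ) *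
      Complex.exp (-(X 0 : ℂ) / 2) * gg X := by funext X; exact ha X
    rw [h1]
    have h2 : Measurable (fun X : E (n + 1) => ((max 0 (min 1 (2 * (X 0 + 1))) : ℝ) : ℂ)) :=
      Complex.measurable_ofReal.comp
        (measurable_const.max (measurable_const.min ((hX0.add_const 1).const_mul 2)))
    have h3 : Measurable (fun X : E (n + 1) => Complex.exp (-(X 0 : ℂ) / 2)) :=
      Complex.measurable_exp.comp ((Complex.measurable_ofReal.comp hX0).neg.div_const 2)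
    exact (h2.mul h3).mul hgm
  have hSm : Measurable S := by
    have h1 : S = fun X => if -1 < X 0 ∧ X 0 < -(1 / 2) then
      -4 * Complex.I * Complex.exp (-(X 0 : ℂ) / 2) * gg X else 0 := by funext X; exact hS X
    rw [h1]
    have h3 : Measurable (fun X : E (n + 1) => Complex.exp (-(X 0 : ℂ) / 2)) :=
      Complex.measurable_exp.comp ((Complex.measurable_ofReal.comp hX0).neg.div_const 2)
    refine Measurable.ite ?_ ((h3.const_mul _).mul hgm) measurable_const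
    exact (measurableSet_lt measurable_const hX0).inter (measurableSet_lt hX0 measurable_const)
  have hab : ∀ X, ‖a X‖ ≤ C * (1 + ‖X‖) ^ (-((n + 2 : ℕ) : ℝ)) := by
    intro X
    by_cases hX : -1 < X 0
    · refine le_trans ?_ (hbd X hX)
      rw [ha, norm_mul, norm_mul, hexp, Complex.norm_real]
      have h1 : ‖max 0 (min 1 (2 * (X 0 + 1)))‖ ≤ 1 := by
        rw [Real.norm_of_nonneg (le_max_left _ _)]
        exact max_le zero_le_one (min_le_left _ _)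
      have h2 : ‖max 0 (min 1 (2 * (X 0 + 1)))‖ * Real.exp (-X 0 / 2) ≤ Real.exp (-X 0 / 2) := by
        calc _ ≤ 1 * Real.exp (-X 0 / 2) := mul_le_mul_of_nonneg_right h1 (Real.exp_pos _).le
          _ = _ := one_mul _
      exact mul_le_mul h2 (hgle X) (norm_nonneg _) (Real.exp_pos _).le
    · have h1 : max 0 (min 1 (2 * (X 0 + 1))) = 0 := by
        apply max_eq_left
        exact (min_le_right _ _).trans (by linarith)
      rw [ha, h1]
      simp only [Complex.ofReal_zero, zero_mul, norm_zero]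
      positivity
  have hSb : ∀ X, ‖S X‖ ≤ (4 * C) * (1 + ‖X‖) ^ (-((n + 2 : ℕ) : ℝ)) := by
    intro X
    rw [hS]
    split_ifs with hX
    · have h1 := hbd X hX.1
      rw [norm_mul, norm_mul, hexp]
      have h2 : ‖(-4 * Complex.I : ℂ)‖ = 4 := by simp
      rw [h2]
      calc 4 * Real.exp (-X 0 / 2) * ‖gg X‖
          ≤ 4 * Real.exp (-X 0 / 2) *
            Real.exp (-(‖X‖ ^ 2 - (X 0) ^ 2) / (2 * (1 + (X 0 + 1) ^ 2))) :=
            mul_le_mul_of_nonneg_left (hgle X) (by positivity)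
        _ = 4 * (Real.exp (-X 0 / 2) *
            Real.exp (-(‖X‖ ^ 2 - (X 0) ^ 2) / (2 * (1 + (X 0 + 1) ^ 2)))) := by ring
        _ ≤ 4 * (C * (1 + ‖X‖) ^ (-((n + 2 : ℕ) : ℝ))) :=
            mul_le_mul_of_nonneg_left h1 (by norm_num)
        _ = _ := by ring
    · rw [norm_zero]
      positivity
  obtain ⟨i1, m1⟩ := aa_gen n a ham C hC hab
  obtain ⟨i2, m2⟩ := aa_gen n S hSm (4 * C) (by positivity) hSb
  refine ⟨i1, i2, m1, m2, ?_⟩
  intro hae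
  have hcont : Continuous (fun X : E (n + 1) => X 0) := by fun_prop
  have hopen : IsOpen {X : E (n + 1) | 0 < X 0} := isOpen_lt continuous_const hcont
  have hne : {X : E (n + 1) | 0 < X 0}.Nonempty :=
    ⟨EuclideanSpace.single 0 1, by simp⟩
  have hpos := hopen.measure_pos volume hne
  have hz : volume {X : E (n + 1) | 0 < X 0} = 0 := by
    refine measure_mono_null ?_ (ae_iff.1 hae)
    intro X hX
    have hX' : 0 < X 0 := hX
    show ¬ a X = (0 : E (n + 1) → ℂ) X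
    rw [ha]
    have h1 : max 0 (min 1 (2 * (X 0 + 1))) = 1 := by
      rw [min_eq_left (by linarith), max_eq_right zero_le_one]
    rw [h1]
    simp only [Complex.ofReal_one, one_mul, Pi.zero_apply]
    exact mul_ne_zero (Complex.exp_ne_zero _) (hg0 X)
  rw [hz] at hpos
  exact lt_irrefl _ hpos

end Pool.Agent.Helper41.CE
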