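import Pool.Agent.Helper41.CE.TDefs
import Pool.Agent.Helper41.CE.CU29
import Pool.Agent.Helper41.CE.CU30

/-!
# Semiclassical eigenvalue bounds for Schroedinger operators: definitions
-/

open MeasureTheory Filter Topology Set
open scoped ENNReal NNReal ContDiff

namespace Pool.Agent.Helper41.CE


/-! ## TARGETS: prove these (statements must not be changed; helper lemmas are welcome) -/

/-- splitting off the first coordinate -/
noncomputable def h396_eq (n : ℕ) : ℝ × E n ≃ᵐ E (n + 1) :=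
  ((MeasurableEquiv.refl ℝ).prodCongr (MeasurableEquiv.toLp 2 (Fin n → ℝ)).symm).trans
   ((MeasurableEquiv.piFinSuccAbove (fun _ : Fin (n + 1) => ℝ) 0).symm.trans
     (MeasurableEquiv.toLp 2 (Fin (n+1) → ℝ)))

theorem h396_eq_zero (n : ℕ) (t : ℝ) (x : E n) : h396_eq n (t, x) 0 = t := by
  rfl

theorem h396_eq_succ (n : ℕ) (t : ℝ) (x : E n) (i : Fin n) : h396_eq n (t, x) i.succ = x i := by
  rfl

theorem h396_eq_mp (n : ℕ) : MeasurePreserving (h396_eq n)
    ((volume : Measure ℝ).prod (volume : Measure (E n))) volume := by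
  have m1 : MeasurePreserving (Prod.map (id : ℝ → ℝ) (WithLp.ofLp : E n → (Fin n → ℝ)))
      ((volume : Measure ℝ).prod (volume : Measure (E n)))
      ((volume : Measure ℝ).prod (volume : Measure (Fin n → ℝ))) :=
    MeasurePreserving.prod (MeasurePreserving.id volume) (PiLp.volume_preserving_ofLp (Fin n))
  have m2 : MeasurePreserving (MeasurableEquiv.piFinSuccAbove (fun _ : Fin (n + 1) => ℝ) 0).symm
      ((volume : Measure ℝ).prod (volume : Measure (Fin n → ℝ))) volume :=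
    (volume_preserving_piFinSuccAbove (fun _ : Fin (n + 1) => ℝ) 0).symm
  have m3 : MeasurePreserving (WithLp.toLp 2 : (Fin (n+1) → ℝ) → E (n+1)) volume volume :=
    PiLp.volume_preserving_toLp (Fin (n + 1))
  exact m3.comp (m2.comp m1)

theorem h396_split (n : ℕ) (F : E (n + 1) → ℂ) (hF : Integrable F) :
    ∫ X, F X = ∫ t : ℝ, ∫ x : E n, F (h396_eq n (t, x)) := by
  have mp := h396_eq_mp n
  rw [← mp.integral_comp' F]
  have hint : Integrable (fun p : ℝ × E n => F (h396_eq n p))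
      ((volume : Measure ℝ).prod (volume : Measure (E n))) :=
    (mp.integrable_comp_emb (h396_eq n).measurableEmbedding).2 hF
  rw [integral_prod _ hint]

/-- the last coordinates -/
noncomputable def h396_tail {n : ℕ} (ξ : E (n + 1)) : E n := WithLp.toLp 2 (fun i => ξ i.succ)

theorem h396_norm (n : ℕ) (t : ℝ) (x : E n) :
    ‖h396_eq n (t, x)‖ ^ 2 - (h396_eq n (t, x) 0) ^ 2 = ‖x‖ ^ 2 := by
  rw [EuclideanSpace.norm_sq_eq, EuclideanSpace.norm_sq_eq, Fin.sum_univ_succ]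
  simp only [h396_eq_zero, h396_eq_succ, Real.norm_eq_abs, sq_abs]
  ring

theorem h396_inner (n : ℕ) (t : ℝ) (x : E n) (ξ : E (n + 1)) :
    inner ℝ (h396_eq n (t, x)) ξ = t * ξ 0 + inner ℝ (h396_tail ξ) x := by
  rw [PiLp.inner_apply, PiLp.inner_apply, Fin.sum_univ_succ]
  simp only [h396_eq_zero, h396_eq_succ, h396_tail]
  simp [mul_comm]

theorem h396_rp (n : ℕ) (ξ : E (n + 1)) : rp ξ = 4 * Real.pi ^ 2 * ‖h396_tail ξ‖ ^ 2 := by
  unfold rp
  congr 1
  rw [EuclideanSpace.norm_sq_eq, EuclideanSpace.norm_sq_eq, Fin.sum_univ_succ]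
  simp only [h396_tail, Real.norm_eq_abs, sq_abs]
  ring

theorem h396_cpow (n : ℕ) (c : ℂ) (hc : 0 < c.re) :
    c ^ (-((n : ℂ) / 2)) * ((Real.pi : ℂ) / (1 / (2 * c))) ^ ((n : ℂ) / 2) =
      Complex.exp (((n : ℂ) / 2) * (Real.log (2 * Real.pi) : ℂ)) := by
  have hc0 : c ≠ 0 := by
    intro h
    rw [h, Complex.zero_re] at hc
    exact lt_irrefl _ hc
  have hpi : (0:ℝ) < 2 * Real.pi := Real.two_pi_pos
  have e1 : (Real.pi : ℂ) / (1 / (2 * c)) = ((2 * Real.pi : ℝ) : ℂ) * c := by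
    push_cast
    field_simp
  rw [e1]
  have hne : ((2 * Real.pi : ℝ) : ℂ) * c ≠ 0 :=
    mul_ne_zero (by exact_mod_cast hpi.ne') hc0
  rw [Complex.cpow_def_of_ne_zero hc0, Complex.cpow_def_of_ne_zero hne,
    Complex.log_ofReal_mul hpi hc0, ← Complex.exp_add]
  congr 1
  ring

theorem h396_inner_int (n : ℕ) (gg : E (n + 1) → ℂ)
    (hgg : ∀ X, gg X = (1 + Complex.I * ((X 0 + 1 : ℝ) : ℂ)) ^ (-((n : ℂ) / 2)) *
      Complex.exp (-((‖X‖ ^ 2 - (X 0) ^ 2 : ℝ) : ℂ) / (2 * (1 + Complex.I * ((X 0 + 1 : ℝ) : ℂ)))))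
    (ξ : E (n + 1)) (t : ℝ) :
    ∫ x : E n, Complex.exp (-(2 * Real.pi * Complex.I *
        ((inner ℝ (h396_eq n (t, x)) ξ : ℝ) : ℂ))) * gg (h396_eq n (t, x)) =
      Complex.exp (((n : ℂ) / 2) * (Real.log (2 * Real.pi) : ℂ)) *
        Complex.exp (-((rp ξ : ℂ) / 2) * (1 + Complex.I * ((t + 1 : ℝ) : ℂ)) -
          2 * Real.pi * Complex.I * t * (ξ 0 : ℂ)) := by
  obtain ⟨c, hc⟩ : ∃ c : ℂ, c = 1 + Complex.I * ((t + 1 : ℝ) : ℂ) := ⟨_, rfl⟩
  have hcre : c.re = 1 := by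
    rw [hc]
    simp
  have hc0 : c ≠ 0 := by
    intro h
    rw [h, Complex.zero_re] at hcre
    exact zero_ne_one hcre
  have hb : 0 < (1 / (2 * c)).re := by
    have e : 1 / (2 * c) = (2 * c)⁻¹ := one_div _
    rw [e, Complex.inv_re]
    apply div_pos
    · simp [hcre]
    · exact Complex.normSq_pos.2 (mul_ne_zero two_ne_zero hc0)
  have hG := GaussianFourier.integral_cexp_neg_mul_sq_norm_add hb (-(2 * Real.pi * Complex.I))
    (h396_tail ξ)
  have e1 : ∀ x : E n, Complex.exp (-(2 * Real.pi * Complex.I *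
        ((inner ℝ (h396_eq n (t, x)) ξ : ℝ) : ℂ))) * gg (h396_eq n (t, x)) =
      (c ^ (-((n : ℂ) / 2)) * Complex.exp (-(2 * Real.pi * Complex.I * t * (ξ 0 : ℂ)))) *
        Complex.exp (-(1 / (2 * c)) * (‖x‖ : ℂ) ^ 2 + -(2 * Real.pi * Complex.I) *
          ((inner ℝ (h396_tail ξ) x : ℝ) : ℂ)) := by
    intro x
    rw [hgg, h396_norm, h396_inner, h396_eq_zero, ← hc]
    have hexp : Complex.exp (-(2 * Real.pi * Complex.I *
        ((t * ξ 0 + inner ℝ (h396_tail ξ) x : ℝ) : ℂ))) *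
          Complex.exp (-((‖x‖ ^ 2 : ℝ) : ℂ) / (2 * c)) =
        Complex.exp (-(2 * Real.pi * Complex.I * t * (ξ 0 : ℂ))) *
          Complex.exp (-(1 / (2 * c)) * (‖x‖ : ℂ) ^ 2 + -(2 * Real.pi * Complex.I) *
          ((inner ℝ (h396_tail ξ) x : ℝ) : ℂ)) := by
      rw [← Complex.exp_add, ← Complex.exp_add]
      congr 1
      push_cast
      field_simp
      ring
    linear_combination (c ^ (-((n : ℂ) / 2))) * hexp
  simp only [e1]
  rw [integral_const_mul, hG, finrank_euclideanSpace_fin]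
  have e2 := h396_cpow n c (by rw [hcre]; exact one_pos)
  have e3 : (-(2 * (Real.pi : ℂ) * Complex.I)) ^ 2 * (‖h396_tail ξ‖ : ℂ) ^ 2 /
      (4 * (1 / (2 * c))) = -((rp ξ : ℂ) / 2) * c := by
    rw [h396_rp]
    have hI : Complex.I ^ 2 = -1 := Complex.I_sq
    push_cast
    field_simp
    linear_combination (16 * (‖h396_tail ξ‖ : ℂ) ^ 2) * hI
  rw [e3, ← e2, ← hc]
  rw [sub_eq_add_neg, Complex.exp_add]
  ring

theorem h396_ramp (k : ℂ) (hk : k.re < 0) :
    ∫ t : ℝ, ((max 0 (min 1 (2 * (t + 1))) : ℝ) : ℂ) * Complex.exp (k * t) =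
      (2 / k ^ 2) * (Complex.exp (k * ((-1 : ℝ) : ℂ)) - Complex.exp (k * ((-(1/2) : ℝ) : ℂ))) := by
  have hk0 : k ≠ 0 := by
    intro h
    rw [h, Complex.zero_re] at hk
    exact lt_irrefl _ hk
  have hc : Continuous (fun t : ℝ => ((max 0 (min 1 (2 * (t + 1))) : ℝ) : ℂ) * Complex.exp (k * t)) := by
    fun_prop
  have hint : ∀ a : ℝ, IntegrableOn (fun t : ℝ => ((max 0 (min 1 (2 * (t + 1))) : ℝ) : ℂ) *
      Complex.exp (k * t)) (Ioi a) := by
    intro a
    refine (integrableOn_exp_mul_complex_Ioi hk a).norm.mono' hc.aestronglyMeasurable ?_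
    refine Filter.Eventually.of_forall fun t => ?_
    rw [norm_mul]
    have h1 : ‖((max 0 (min 1 (2 * (t + 1))) : ℝ) : ℂ)‖ ≤ 1 := by
      rw [Complex.norm_real, Real.norm_eq_abs, abs_of_nonneg (le_max_left _ _)]
      exact max_le zero_le_one (min_le_left _ _)
    calc _ ≤ 1 * ‖Complex.exp (k * t)‖ := mul_le_mul_of_nonneg_right h1 (norm_nonneg _)
      _ = _ := one_mul _
  have e0 : ∫ t : ℝ, ((max 0 (min 1 (2 * (t + 1))) : ℝ) : ℂ) * Complex.exp (k * t) =
      ∫ t in Ioi (-1 : ℝ), ((max 0 (min 1 (2 * (t + 1))) : ℝ) : ℂ) * Complex.exp (k * t) := by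
    symm
    apply setIntegral_eq_integral_of_forall_compl_eq_zero
    intro t ht
    have ht' : t ≤ -1 := not_lt.1 ht
    have h1 : max 0 (min 1 (2 * (t + 1))) = 0 := by
      apply max_eq_left
      exact (min_le_right _ _).trans (by linarith)
    rw [h1]
    simp
  have e1 := intervalIntegral.integral_interval_add_Ioi (hint (-1)) (hint (-(1/2)))
  have e2 : ∫ t in (-1 : ℝ)..(-(1/2)), ((max 0 (min 1 (2 * (t + 1))) : ℝ) : ℂ) * Complex.exp (k * t) =
      ∫ t in (-1 : ℝ)..(-(1/2)), (2 * ((t : ℂ) + 1)) * Complex.exp (k * t) := by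
    apply intervalIntegral.integral_congr
    intro t ht
    rw [uIcc_of_le (by norm_num)] at ht
    have h1 : max 0 (min 1 (2 * (t + 1))) = 2 * (t + 1) := by
      rw [min_eq_right (by linarith [ht.2]), max_eq_right (by linarith [ht.1])]
    simp only [h1]
    push_cast
    ring
  have hd : ∀ t : ℝ, HasDerivAt (fun t : ℝ => (2 * ((t : ℂ) + 1) / k - 2 / k ^ 2) *
      Complex.exp (k * t)) ((2 * ((t : ℂ) + 1)) * Complex.exp (k * t)) t := by
    intro t
    have h0 : HasDerivAt (fun t : ℝ => (t : ℂ)) 1 t := Complex.ofRealCLM.hasDerivAt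
    have h1 : HasDerivAt (fun t : ℝ => 2 * ((t : ℂ) + 1) / k - 2 / k ^ 2) (2 * 1 / k) t :=
      (((h0.add_const 1).const_mul 2).div_const k).sub_const _
    have h2 : HasDerivAt (fun t : ℝ => Complex.exp (k * t)) (Complex.exp (k * t) * (k * 1)) t :=
      (h0.const_mul k).cexp
    refine (h1.mul h2).congr_deriv ?_
    field_simp
    ring
  have e3 : ∫ t in (-1 : ℝ)..(-(1/2)), (2 * ((t : ℂ) + 1)) * Complex.exp (k * t) =
      (2 * (((-(1/2) : ℝ) : ℂ) + 1) / k - 2 / k ^ 2) * Complex.exp (k * ((-(1/2) : ℝ) : ℂ)) -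
      (2 * (((-1 : ℝ) : ℂ) + 1) / k - 2 / k ^ 2) * Complex.exp (k * ((-1 : ℝ) : ℂ)) := by
    apply intervalIntegral.integral_eq_sub_of_hasDerivAt (fun t _ => hd t)
    apply Continuous.intervalIntegrable
    fun_prop
  have e4 : ∫ t in Ioi (-(1/2) : ℝ), ((max 0 (min 1 (2 * (t + 1))) : ℝ) : ℂ) * Complex.exp (k * t) =
      -Complex.exp (k * ((-(1/2) : ℝ) : ℂ)) / k := by
    rw [← integral_exp_mul_complex_Ioi hk (-(1/2))]
    apply setIntegral_congr_fun measurableSet_Ioi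
    intro t ht
    have ht' : -(1/2) < t := ht
    have h1 : max 0 (min 1 (2 * (t + 1))) = 1 := by
      rw [min_eq_left (by linarith), max_eq_right (by norm_num)]
    simp only [h1]
    simp
  rw [e0, ← e1, e2, e3, e4]
  push_cast
  field_simp
  ring

theorem h396_box (k : ℂ) (hk0 : k ≠ 0) :
    ∫ t : ℝ, (if -1 < t ∧ t < -(1 / 2) then (1 : ℂ) else 0) * Complex.exp (k * t) =
      (Complex.exp (k * ((-(1/2) : ℝ) : ℂ)) - Complex.exp (k * ((-1 : ℝ) : ℂ))) / k := by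
  rw [← integral_exp_mul_complex hk0, intervalIntegral.integral_of_le (by norm_num),
    integral_Ioc_eq_integral_Ioo, ← integral_indicator measurableSet_Ioo]
  apply integral_congr_ae
  refine Filter.Eventually.of_forall fun t => ?_
  simp only [Set.indicator_apply, Set.mem_Ioo]
  by_cases h : -1 < t ∧ t < -(1 / 2)
  · rw [if_pos h, if_pos h, one_mul]
  · rw [if_neg h, if_neg h, zero_mul]

theorem h396_exp_norm (r : ℝ) : ‖Complex.exp (-(2 * Real.pi * Complex.I * (r : ℂ)))‖ = 1 := by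
  have e : -(2 * (Real.pi : ℂ) * Complex.I * (r : ℂ)) = ((-(2 * Real.pi * r) : ℝ) : ℂ) * Complex.I := by
    push_cast
    ring
  rw [e, Complex.norm_exp_ofReal_mul_I]

theorem h396_int {d : ℕ} (f : E d → ℂ) (hf : Integrable f) (ξ : E d) :
    Integrable (fun X => Complex.exp (-(2 * Real.pi * Complex.I * ((inner ℝ X ξ : ℝ) : ℂ))) * f X) := by
  have hc : Continuous (fun X : E d =>
      Complex.exp (-(2 * Real.pi * Complex.I * ((inner ℝ X ξ : ℝ) : ℂ)))) := by
    fun_prop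
  refine hf.norm.mono' (hc.aestronglyMeasurable.mul hf.aestronglyMeasurable) ?_
  refine Filter.Eventually.of_forall fun X => ?_
  rw [norm_mul, h396_exp_norm, one_mul]

theorem aa_fourier (n : ℕ) (gg : E (n + 1) → ℂ)
    (hgg : ∀ X, gg X = (1 + Complex.I * ((X 0 + 1 : ℝ) : ℂ)) ^ (-((n : ℂ) / 2)) *
      Complex.exp (-((‖X‖ ^ 2 - (X 0) ^ 2 : ℝ) : ℂ) / (2 * (1 + Complex.I * ((X 0 + 1 : ℝ) : ℂ)))))
    (a S : E (n + 1) → ℂ)
    (ha : ∀ X, a X = ((max 0 (min 1 (2 * (X 0 + 1))) : ℝ) : ℂ) * Complex.exp (-(X 0 : ℂ) / 2) * gg X)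
    (hS : ∀ X, S X = if -1 < X 0 ∧ X 0 < -(1 / 2) then
      -4 * Complex.I * Complex.exp (-(X 0 : ℂ) / 2) * gg X else 0) (ξ : E (n + 1)) :
    ∫ X, Complex.exp (-(2 * Real.pi * Complex.I * ((inner ℝ X ξ : ℝ) : ℂ))) * S X =
      ((sp ξ : ℂ) - Complex.I) *
        ∫ X, Complex.exp (-(2 * Real.pi * Complex.I * ((inner ℝ X ξ : ℝ) : ℂ))) * a X := by
  obtain ⟨hai, hSi, _, _, _⟩ := aa_int n gg hgg a S ha hS
  rw [h396_split n _ (h396_int S hSi ξ), h396_split n _ (h396_int a hai ξ)]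
  obtain ⟨k, hk⟩ : ∃ k : ℂ, k = -(1/2) - Complex.I * (rp ξ : ℂ) / 2 -
    2 * Real.pi * Complex.I * (ξ 0 : ℂ) := ⟨_, rfl⟩
  have hkre : k.re = -(1/2) := by
    have e : k = ((-(1/2) : ℝ) : ℂ) + ((-(rp ξ / 2) - 2 * Real.pi * ξ 0 : ℝ) : ℂ) * Complex.I := by
      rw [hk]
      push_cast
      ring
    rw [e]
    simp
  have hkneg : k.re < 0 := by rw [hkre]; norm_num
  have hk0 : k ≠ 0 := by
    intro h
    rw [h, Complex.zero_re] at hkneg
    exact lt_irrefl _ hkneg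
  obtain ⟨C1, hC1⟩ : ∃ C1 : ℂ, C1 = Complex.exp (((n : ℂ) / 2) * (Real.log (2 * Real.pi) : ℂ)) *
    Complex.exp (-((rp ξ : ℂ) / 2) * (1 + Complex.I)) := ⟨_, rfl⟩
  have hmain : ∀ t : ℝ, Complex.exp (-(t : ℂ) / 2) * ∫ x : E n, Complex.exp (-(2 * Real.pi * Complex.I *
        ((inner ℝ (h396_eq n (t, x)) ξ : ℝ) : ℂ))) * gg (h396_eq n (t, x)) =
      C1 * Complex.exp (k * t) := by
    intro t
    rw [h396_inner_int n gg hgg ξ t, hC1]
    have hexp : Complex.exp (-(t : ℂ) / 2) *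
        Complex.exp (-((rp ξ : ℂ) / 2) * (1 + Complex.I * ((t + 1 : ℝ) : ℂ)) -
          2 * Real.pi * Complex.I * t * (ξ 0 : ℂ)) =
        Complex.exp (-((rp ξ : ℂ) / 2) * (1 + Complex.I)) * Complex.exp (k * t) := by
      rw [← Complex.exp_add, ← Complex.exp_add]
      congr 1
      rw [hk]
      push_cast
      ring
    linear_combination (Complex.exp (((n : ℂ) / 2) * (Real.log (2 * Real.pi) : ℂ))) * hexp
  have hSt : ∀ t : ℝ, ∫ x : E n, Complex.exp (-(2 * Real.pi * Complex.I *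
        ((inner ℝ (h396_eq n (t, x)) ξ : ℝ) : ℂ))) * S (h396_eq n (t, x)) =
      (-4 * Complex.I * C1) *
        ((if -1 < t ∧ t < -(1 / 2) then (1 : ℂ) else 0) * Complex.exp (k * t)) := by
    intro t
    by_cases h : -1 < t ∧ t < -(1 / 2)
    · have e1 : ∀ x : E n, Complex.exp (-(2 * Real.pi * Complex.I *
          ((inner ℝ (h396_eq n (t, x)) ξ : ℝ) : ℂ))) * S (h396_eq n (t, x)) =
          (-4 * Complex.I * Complex.exp (-(t : ℂ) / 2)) * (Complex.exp (-(2 * Real.pi * Complex.I *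
          ((inner ℝ (h396_eq n (t, x)) ξ : ℝ) : ℂ))) * gg (h396_eq n (t, x))) := by
        intro x
        rw [hS, h396_eq_zero, if_pos h]
        ring
      simp only [e1]
      rw [integral_const_mul, if_pos h, one_mul, mul_assoc (-4 * Complex.I), hmain t]
      ring
    · have e1 : ∀ x : E n, Complex.exp (-(2 * Real.pi * Complex.I *
          ((inner ℝ (h396_eq n (t, x)) ξ : ℝ) : ℂ))) * S (h396_eq n (t, x)) = 0 := by
        intro x
        rw [hS, h396_eq_zero, if_neg h, mul_zero]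
      simp only [e1]
      rw [if_neg h, zero_mul, mul_zero, integral_zero]
  have hat : ∀ t : ℝ, ∫ x : E n, Complex.exp (-(2 * Real.pi * Complex.I *
        ((inner ℝ (h396_eq n (t, x)) ξ : ℝ) : ℂ))) * a (h396_eq n (t, x)) =
      C1 * (((max 0 (min 1 (2 * (t + 1))) : ℝ) : ℂ) * Complex.exp (k * t)) := by
    intro t
    have e1 : ∀ x : E n, Complex.exp (-(2 * Real.pi * Complex.I *
        ((inner ℝ (h396_eq n (t, x)) ξ : ℝ) : ℂ))) * a (h396_eq n (t, x)) =
        (((max 0 (min 1 (2 * (t + 1))) : ℝ) : ℂ) * Complex.exp (-(t : ℂ) / 2)) *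
        (Complex.exp (-(2 * Real.pi * Complex.I *
        ((inner ℝ (h396_eq n (t, x)) ξ : ℝ) : ℂ))) * gg (h396_eq n (t, x))) := by
      intro x
      rw [ha, h396_eq_zero]
      ring
    simp only [e1]
    rw [integral_const_mul, mul_assoc, hmain t]
    ring
  simp only [hSt, hat]
  rw [integral_const_mul, integral_const_mul, h396_box k hk0, h396_ramp k hkneg]
  have hsp : ((sp ξ : ℂ) - Complex.I) = 2 * Complex.I * k := by
    unfold sp
    rw [hk]
    have hI : Complex.I ^ 2 = -1 := Complex.I_sq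
    push_cast
    linear_combination ((4 * (Real.pi : ℂ) * (ξ 0 : ℂ)) + (rp ξ : ℂ)) * hI
  rw [hsp]
  field_simp
  ring

end Pool.Agent.Helper41.CE
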