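import Pool.Agent.Helper41.CE.TDefs
import Pool.Agent.Helper41.CE.CU01
import Pool.Agent.Helper41.CE.CU02
import Pool.Agent.Helper41.CE.CU03
import Pool.Agent.Helper41.CE.CU13
import Pool.Agent.Helper41.CE.CU14
import Pool.Agent.Helper41.CE.CU28
import Pool.Agent.Helper41.CE.CU29
import Pool.Agent.Helper41.CE.CU30
import Pool.Agent.Helper41.CE.CU31

/-!
# Semiclassical eigenvalue bounds for Schroedinger operators: definitions
-/

open MeasureTheory Filter Topology Set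
open scoped ENNReal NNReal ContDiff

namespace Pool.Agent.Helper41.CE


/-! ## TARGETS: prove these (statements must not be changed; helper lemmas are welcome) -/

noncomputable def rfxE (n : ℕ) : E (n+1) ≃ₗᵢ[ℝ] E (n+1) where
  toFun := rfx
  invFun := rfx
  map_add' X Y := by
    unfold rfx
    rw [PiLp.add_apply, mul_add, add_smul]
    abel
  map_smul' c X := by
    unfold rfx
    rw [PiLp.smul_apply, smul_sub, smul_smul]
    simp only [smul_eq_mul, RingHom.id_apply]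
    congr 2
    ring
  left_inv := rfx_rfx
  right_inv := rfx_rfx
  norm_map' := rfx_norm

theorem rfx_mp_cu32 (n : ℕ) : MeasurePreserving (rfx : E (n + 1) → E (n + 1)) volume volume :=
  (rfxE n).measurePreserving

theorem explicit (n : ℕ) : ∃ p : E (n + 1) → ℂ, BV p ∧ ∃ w : L2 (n + 1), w ≠ 0 ∧
    w + Kop p Complex.I (Rf n w) = 0 := by
  classical
  let gg : E (n + 1) → ℂ := fun X => (1 + Complex.I * ((X 0 + 1 : ℝ) : ℂ)) ^ (-((n : ℂ) / 2)) *
      Complex.exp (-((‖X‖ ^ 2 - (X 0) ^ 2 : ℝ) : ℂ) / (2 * (1 + Complex.I * ((X 0 + 1 : ℝ) : ℂ))))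
  have hgg : ∀ X, gg X = (1 + Complex.I * ((X 0 + 1 : ℝ) : ℂ)) ^ (-((n : ℂ) / 2)) *
      Complex.exp (-((‖X‖ ^ 2 - (X 0) ^ 2 : ℝ) : ℂ) / (2 * (1 + Complex.I * ((X 0 + 1 : ℝ) : ℂ)))) :=
    fun X => rfl
  obtain ⟨-, hg0, -⟩ := gg_facts n gg hgg
  have hp := pp_BV n gg hgg
  have hI := aa_int n gg hgg
  have hFo := aa_fourier n gg hgg
  clear_value gg
  obtain ⟨a, ha⟩ : ∃ a : E (n + 1) → ℂ, ∀ X, a X = ((max 0 (min 1 (2 * (X 0 + 1))) : ℝ) : ℂ) * Complex.exp (-(X 0 : ℂ) / 2) * gg X :=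
    ⟨_, fun X => rfl⟩
  obtain ⟨S, hS⟩ : ∃ S : E (n + 1) → ℂ, ∀ X, S X = if -1 < X 0 ∧ X 0 < -(1 / 2) then
      -4 * Complex.I * Complex.exp (-(X 0 : ℂ) / 2) * gg X else 0 := ⟨_, fun X => rfl⟩
  obtain ⟨i1, i2, m1, m2, hne⟩ := hI a S ha hS
  have hF := hFo a S ha hS
  have hres := fourier_res a S i1 i2 m1 m2 Complex.I (by simp) hF
  obtain ⟨p, hpd⟩ : ∃ p : E (n + 1) → ℂ, p = (fun X : E (n + 1) => if -1 < X 0 ∧ X 0 < -(1 / 2) then
      4 * Complex.I * Complex.exp (-(X 0 : ℂ)) * (gg X / gg (rfx X)) *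
        ((((wt X) ^ 2)⁻¹ : ℝ) : ℂ) else 0) := ⟨_, rfl⟩
  rw [← hpd] at hp
  have hpt : ∀ X, (wt X : ℂ) * (p X * ((wt (rfx X) : ℂ) * a (rfx X))) = - S X := by
    intro X
    rw [hpd, hS, ha]
    simp only
    by_cases hX : -1 < X 0 ∧ X 0 < -(1 / 2)
    · rw [if_pos hX, if_pos hX, wt_rfx, rfx_zero]
      have h1 : max 0 (min 1 (2 * (-X 0 + 1))) = 1 := by
        rw [min_eq_left (by linarith [hX.2]), max_eq_right zero_le_one]
      rw [h1]
      have hw : (wt X : ℂ) ≠ 0 := by exact_mod_cast (wt_pos X).ne'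
      have hgr := hg0 (rfx X)
      have hexp : Complex.exp (-(X 0 : ℂ)) * Complex.exp (-((-X 0 : ℝ) : ℂ) / 2) = Complex.exp (-(X 0 : ℂ) / 2) := by
        rw [← Complex.exp_add]
        congr 1
        push_cast
        ring
      rw [← hexp]
      push_cast
      field_simp
    · rw [if_neg hX, if_neg hX]
      simp
  refine ⟨p, hp, Wt n (m1.toLp a), ?_, ?_⟩
  · intro h0
    apply hne
    have h1 := mulop_spec (BM_wt (n := n)) (m1.toLp a)
    have h2 : (mulop (fun X : E (n + 1) => (wt X : ℂ)) (m1.toLp a) : E (n + 1) → ℂ) =ᵐ[volume] 0 := by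
      have : mulop (fun X : E (n + 1) => (wt X : ℂ)) (m1.toLp a) = 0 := h0
      rw [this]
      exact Lp.coeFn_zero _ _ _
    filter_upwards [h1, h2, m1.coeFn_toLp] with x e1 e2 e3
    rw [e1, e3] at e2
    have hw : (wt x : ℂ) ≠ 0 := by exact_mod_cast (wt_pos x).ne'
    exact (mul_eq_zero.1 e2).resolve_left hw
  · have key : Wt n (mulop p (Rf n (Wt n (m1.toLp a)))) = - m2.toLp S := by
      apply Lp.ext
      have h1 := mulop_spec (BM_wt (n := n)) (mulop p (Rf n (Wt n (m1.toLp a))))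
      have h2 := mulop_spec (BM_of_BV hp) (Rf n (Wt n (m1.toLp a)))
      have h3 := Rf_spec (Wt n (m1.toLp a))
      have h4 := (rfx_mp_cu32 n).quasiMeasurePreserving.ae_eq_comp (mulop_spec (BM_wt (n := n)) (m1.toLp a))
      have h5 := (rfx_mp_cu32 n).quasiMeasurePreserving.ae_eq_comp m1.coeFn_toLp
      have h6 := Lp.coeFn_neg (m2.toLp S)
      filter_upwards [h1, h2, h3, h4, h5, h6, m2.coeFn_toLp] with x e1 e2 e3 e4 e5 e6 e7
      have e1' : (Wt n (mulop p (Rf n (Wt n (m1.toLp a)))) : E (n + 1) → ℂ) x = (wt x : ℂ) * (mulop p (Rf n (Wt n (m1.toLp a))) : E (n + 1) → ℂ) x := e1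
      rw [e1', e2, e3, e6]
      have e4' : (Wt n (m1.toLp a) : E (n + 1) → ℂ) (rfx x) = (wt (rfx x) : ℂ) * (m1.toLp a : E (n + 1) → ℂ) (rfx x) := e4
      have e5' : (m1.toLp a : E (n + 1) → ℂ) (rfx x) = a (rfx x) := e5
      rw [e4', e5', Pi.neg_apply, e7]
      exact hpt x
    have e : Kop p Complex.I (Rf n (Wt n (m1.toLp a))) =
        Wt n (Rs sp Complex.I (Wt n (mulop p (Rf n (Wt n (m1.toLp a)))))) := rfl
    rw [e, key, map_neg, ← hres, map_neg, add_neg_cancel]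

end Pool.Agent.Helper41.CE
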