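import Pool.Agent.Helper41.CE.TDefs
import Pool.Agent.Helper41.CE.CU01
import Pool.Agent.Helper41.CE.CU05
import Pool.Agent.Helper41.CE.CU07
import Pool.Agent.Helper41.CE.CU13
import Pool.Agent.Helper41.CE.CU25
import Pool.Agent.Helper41.CE.CU26
import Pool.Agent.Helper41.CE.CU27
import Pool.Agent.Helper41.CE.CU32

/-!
# Semiclassical eigenvalue bounds for Schroedinger operators: definitions
-/

open MeasureTheory Filter Topology Set
open scoped ENNReal NNReal ContDiff

namespace Pool.Agent.Helper41.CE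


/-! ## TARGETS: prove these (statements must not be changed; helper lemmas are welcome) -/

theorem trunc_exists (n : ℕ) : ∃ p : E (n + 1) → ℂ, BC p ∧ ∃ lam : ℂ, 0 < lam.im ∧
    ∃ w : L2 (n + 1), w ≠ 0 ∧ w + Kop p lam (Rf n w) = 0 := by
  obtain ⟨p, hp, w0, hw0, hw0e⟩ := explicit n
  have hpM := BM_of_BV hp
  have hpm := hp.1
  obtain ⟨C0, hC0⟩ := hp.2.1
  have hpv := hp.2.2
  -- truncated
  let pL : ℕ → E (n + 1) → ℂ := fun L x => if ‖x‖ ≤ (L : ℝ) then p x else 0
  have hpL : ∀ L, BC (pL L) := by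
    intro L
    refine ⟨?_, ⟨C0, ?_⟩, ⟨(L : ℝ), ?_⟩⟩
    · exact Measurable.ite (measurableSet_le measurable_norm measurable_const) hpm measurable_const
    · intro x
      show ‖(if ‖x‖ ≤ (L : ℝ) then p x else 0)‖ ≤ C0
      split_ifs
      · exact hC0 x
      · rw [norm_zero]; exact (norm_nonneg _).trans (hC0 x)
    · intro x hx
      show (if ‖x‖ ≤ (L : ℝ) then p x else 0) = 0
      rw [if_neg (not_le.2 hx)]
  have hI : 0 < Complex.I.im := by simp
  -- isolated radius
  have h1 := Kop_isolated hp (z0 := Complex.I) hI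
  rw [eventually_nhdsWithin_iff, Metric.eventually_nhds_iff] at h1
  obtain ⟨ε, hε, h1⟩ := h1
  obtain ⟨r, hr, hrε, hr4⟩ : ∃ r : ℝ, 0 < r ∧ r < ε ∧ r < 1 / 2 :=
    ⟨min (ε / 2) (1 / 4), by positivity, lt_of_le_of_lt (min_le_left _ _) (by linarith),
      lt_of_le_of_lt (min_le_right _ _) (by norm_num)⟩
  have him : ∀ z ∈ Metric.closedBall Complex.I r, 1 / 2 ≤ z.im := by
    intro z hz
    have h2 := Complex.abs_im_le_norm (z - Complex.I)
    rw [Metric.mem_closedBall, dist_eq_norm] at hz
    have h3 : |z.im - 1| ≤ r := by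
      have : (z - Complex.I).im = z.im - 1 := by simp
      rw [this] at h2
      exact h2.trans hz
    have := (abs_le.1 h3).1
    linarith
  have hRn : ‖Rf n‖ ≤ 1 := by
    refine ContinuousLinearMap.opNorm_le_bound _ zero_le_one fun u => ?_
    rw [Rf_norm, one_mul]
  have hsub : Metric.closedBall Complex.I r ⊆ {z : ℂ | 0 < z.im} := by
    intro z hz
    have := him z hz
    show 0 < z.im
    linarith
  have hMd : ∀ q : E (n + 1) → ℂ, BM q →
      DifferentiableOn ℂ (fun z => (1 + Kop q z * Rf n : L2 (n + 1) →L[ℂ] L2 (n + 1)))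
        {z : ℂ | 0 < z.im} := by
    intro q hq
    exact (differentiableOn_const _).add ((Kop_diff hq).mul_const _)
  have key := persist (X := L2 (n + 1)) (atTop : Filter ℕ) {z : ℂ | 0 < z.im}
    (isOpen_lt continuous_const Complex.continuous_im) Complex.I r hr hsub
    (fun L z => 1 + Kop (pL L) z * Rf n) (fun _ _ => 1) (fun z => 1 + Kop p z * Rf n)
    (Eventually.of_forall fun L => hMd _ (BM_of_BC (hpL L)))
    (((hMd p hpM).continuousOn).mono (Metric.sphere_subset_closedBall.trans hsub))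
    (by
      intro z hz
      rw [Metric.mem_sphere] at hz
      refine h1 (by rw [hz]; exact hrε) ?_
      intro h
      rw [Set.mem_singleton_iff] at h
      rw [h, dist_self] at hz
      linarith) 1
    (Eventually.of_forall fun L z _ => ⟨1, one_mul _, one_mul _, ContinuousLinearMap.norm_id_le⟩)
    (by
      intro η hη
      obtain ⟨R, hR⟩ := hpv (η / 2) (by positivity)
      obtain ⟨L0, hL0⟩ := exists_nat_ge R
      filter_upwards [eventually_ge_atTop L0] with L hL z hz
      have hz1 := him z hz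
      have hzp : 0 < z.im := by linarith
      have e1 : (1 + Kop (pL L) z * Rf n) - 1 * (1 + Kop p z * Rf n)
          = Kop (fun x => pL L x - p x) z * Rf n := by
        rw [← Kop_sub (BM_of_BC (hpL L)) hpM z, one_mul, sub_mul]
        abel
      have hd : ∀ x, ‖pL L x - p x‖ ≤ η / 2 := by
        intro x
        show ‖(if ‖x‖ ≤ (L : ℝ) then p x else 0) - p x‖ ≤ η / 2
        split_ifs with hx
        · rw [sub_self, norm_zero]; positivity
        · rw [zero_sub, norm_neg]
          apply hR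
          have : (L0 : ℝ) ≤ L := by exact_mod_cast hL
          linarith [not_le.1 hx]
      have hBM : BM (fun x => pL L x - p x) :=
        ⟨(hpL L).1.sub hpm, ⟨η / 2, hd⟩⟩
      have hn := Kop_norm hBM (η / 2) hd hzp
      show ‖(1 + Kop (pL L) z * Rf n) - 1 * (1 + Kop p z * Rf n)‖ ≤ η
      rw [e1]
      calc ‖Kop (fun x => pL L x - p x) z * Rf n‖
          ≤ ‖Kop (fun x => pL L x - p x) z‖ * ‖Rf n‖ := norm_mul_le _ _
        _ ≤ (η / 2 / z.im) * 1 := by
            apply mul_le_mul hn hRn (norm_nonneg _)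
            positivity
        _ ≤ η := by
            rw [mul_one, div_le_iff₀ hzp]
            nlinarith)
    ⟨w0, hw0, by
      show (1 + Kop p Complex.I * Rf n) w0 = 0
      exact hw0e⟩
  obtain ⟨L, z, hz, hnu⟩ := key.exists
  have hz1 := him z hz
  have hzp : 0 < z.im := by linarith
  refine ⟨pL L, hpL L, z, hzp, ?_⟩
  have hcomp : IsCompactOperator (Kop (pL L) z * Rf n : L2 (n + 1) →L[ℂ] L2 (n + 1)) :=
    (Kop_compact (BV_of_BC (hpL L)) hzp).comp_clm (Rf n)
  rcases fred_alt (Kop (pL L) z * Rf n) hcomp with h | ⟨x, hx, hxe⟩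
  · exact absurd h hnu
  · exact ⟨x, hx, hxe⟩

end Pool.Agent.Helper41.CE
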