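import Pool.Agent.Helper41.CE.TDefs


/-!
# Semiclassical eigenvalue bounds for Schroedinger operators: definitions
-/

open MeasureTheory Filter Topology Set
open scoped ENNReal NNReal ContDiff

namespace Pool.Agent.Helper41.CE

/-! ## TARGETS: prove these (statements must not be changed; helper lemmas are welcome) -/

/-- `a` has a two sided inverse of norm at most `M`. -/
def InvB {A : Type*} [NormedRing A] (a : A) (M : ℝ) : Prop :=
  ∃ b : A, a * b = 1 ∧ b * a = 1 ∧ ‖b‖ ≤ M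

theorem invB_mono {A : Type*} [NormedRing A] {a : A} {M M' : ℝ} (h : InvB a M) (hM : M ≤ M') :
    InvB a M' := by
  obtain ⟨b, h1, h2, h3⟩ := h
  exact ⟨b, h1, h2, h3.trans hM⟩

theorem invB_one_add {A : Type*} [NormedRing A] [CompleteSpace A] (h1 : ‖(1 : A)‖ ≤ 1)
    (g : A) (hg : ‖g‖ ≤ 1 / 2) : InvB (1 + g) 2 := by
  have hlt : ‖-g‖ < 1 := by rw [norm_neg]; linarith
  have hu : IsUnit (1 - -g) := isUnit_one_sub_of_norm_lt_one hlt
  rw [sub_neg_eq_add] at hu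
  obtain ⟨u, hu⟩ := hu
  refine ⟨((u⁻¹ : Aˣ) : A), ?_, ?_, ?_⟩
  · rw [← hu]; exact u.mul_inv
  · rw [← hu]; exact u.inv_mul
  · have h2 : (1 + g) * ((u⁻¹ : Aˣ) : A) = 1 := by rw [← hu]; exact u.mul_inv
    have h3 : ((u⁻¹ : Aˣ) : A) = 1 - g * ((u⁻¹ : Aˣ) : A) := by
      rw [add_mul, one_mul] at h2
      exact eq_sub_of_add_eq h2
    have h4 : ‖((u⁻¹ : Aˣ) : A)‖ ≤ ‖(1 : A)‖ + ‖g‖ * ‖((u⁻¹ : Aˣ) : A)‖ := by
      calc ‖((u⁻¹ : Aˣ) : A)‖ = ‖1 - g * ((u⁻¹ : Aˣ) : A)‖ := by rw [← h3]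
        _ ≤ ‖(1 : A)‖ + ‖g * ((u⁻¹ : Aˣ) : A)‖ := norm_sub_le _ _
        _ ≤ _ := by gcongr; exact norm_mul_le _ _
    have h5 : ‖g‖ * ‖((u⁻¹ : Aˣ) : A)‖ ≤ 1 / 2 * ‖((u⁻¹ : Aˣ) : A)‖ :=
      mul_le_mul_of_nonneg_right hg (norm_nonneg _)
    linarith

theorem invB_mul {A : Type*} [NormedRing A] {a c : A} {M M' : ℝ} (ha : InvB a M) (hc : InvB c M')
    (hM : 0 ≤ M) : InvB (a * c) (M' * M) := by
  obtain ⟨b, h1, h2, h3⟩ := ha
  obtain ⟨d, h4, h5, h6⟩ := hc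
  refine ⟨d * b, ?_, ?_, ?_⟩
  · rw [mul_assoc, ← mul_assoc c, h4, one_mul, h1]
  · rw [mul_assoc, ← mul_assoc b, h2, one_mul, h5]
  · calc ‖d * b‖ ≤ ‖d‖ * ‖b‖ := norm_mul_le _ _
      _ ≤ M' * M := mul_le_mul h6 h3 (norm_nonneg _) (le_trans (norm_nonneg _) h6)

theorem invB_pert {A : Type*} [NormedRing A] [CompleteSpace A] (h1 : ‖(1 : A)‖ ≤ 1)
    (a f : A) (M : ℝ) (hM : 0 < M) (ha : InvB a M) (hf : ‖f‖ ≤ 1 / (2 * M)) :
    InvB (a + f) (2 * M) := by
  obtain ⟨b, h2, h3, h4⟩ := ha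
  have hg : ‖b * f‖ ≤ 1 / 2 := by
    calc ‖b * f‖ ≤ ‖b‖ * ‖f‖ := norm_mul_le _ _
      _ ≤ M * (1 / (2 * M)) := mul_le_mul h4 hf (norm_nonneg _) hM.le
      _ = 1 / 2 := by field_simp
  have h5 := invB_one_add h1 (b * f) hg
  have h6 : a + f = a * (1 + b * f) := by
    rw [mul_add, mul_one, ← mul_assoc, h2, one_mul]
  rw [h6]
  exact invB_mul ⟨b, h2, h3, h4⟩ h5 hM.le

theorem invB_swap {A : Type*} [NormedRing A] (h1 : ‖(1 : A)‖ ≤ 1)
    (J Y : A) (C M : ℝ) (hC : 0 ≤ C) (hJ : ‖J‖ ≤ C) (hY : ‖Y‖ ≤ C) (h : InvB (1 + Y * J) M) :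
    InvB (1 + J * Y) (1 + C * M * C) := by
  obtain ⟨b, h2, h3, h4⟩ := h
  have hM : 0 ≤ M := le_trans (norm_nonneg _) h4
  refine ⟨1 - J * b * Y, ?_, ?_, ?_⟩
  · have : (1 + J * Y) * (1 - J * b * Y) = 1 + J * Y - J * ((1 + Y * J) * b) * Y := by
      noncomm_ring
    rw [this, h2]; noncomm_ring
  · have : (1 - J * b * Y) * (1 + J * Y) = 1 + J * Y - J * (b * (1 + Y * J)) * Y := by
      noncomm_ring
    rw [this, h3]; noncomm_ring
  · calc ‖1 - J * b * Y‖ ≤ ‖(1 : A)‖ + ‖J * b * Y‖ := norm_sub_le _ _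
      _ ≤ 1 + C * M * C := by
        refine add_le_add h1 ?_
        calc ‖J * b * Y‖ ≤ ‖J * b‖ * ‖Y‖ := norm_mul_le _ _
          _ ≤ (‖J‖ * ‖b‖) * ‖Y‖ := by gcongr; exact norm_mul_le _ _
          _ ≤ (C * M) * C := by gcongr

theorem invB_isUnit {A : Type*} [NormedRing A] {a : A} {M : ℝ} (h : InvB a M) :
    IsUnit a ∧ ‖Ring.inverse a‖ ≤ M := by
  obtain ⟨b, h1, h2, h3⟩ := h
  have hu : IsUnit a := ⟨⟨a, b, h1, h2⟩, rfl⟩
  refine ⟨hu, ?_⟩
  have : Ring.inverse a = b := by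
    have e := Ring.inverse_mul_cancel a hu
    calc Ring.inverse a = Ring.inverse a * (a * b) := by rw [h1, mul_one]
      _ = b := by rw [← mul_assoc, e, one_mul]
  rw [this]; exact h3

theorem invB_of_isUnit {A : Type*} [NormedRing A] {a : A} {M : ℝ} (h : IsUnit a)
    (hM : ‖Ring.inverse a‖ ≤ M) : InvB a M :=
  ⟨Ring.inverse a, Ring.mul_inverse_cancel a h, Ring.inverse_mul_cancel a h, hM⟩

theorem abs_model {X : Type*} [NormedAddCommGroup X] [NormedSpace ℂ X] [CompleteSpace X]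
    {ι : Type*} (l : Filter ι) (Ω : Set ℂ) (hΩ : IsOpen Ω) (z0 : ℂ) (r : ℝ) (hr : 0 < r)
    (hD : Metric.closedBall z0 r ⊆ Ω) (s : ι → ℂ) (hs : Tendsto s l (𝓝 1))
    (T Y Er Z : ι → ℂ → X →L[ℂ] X) (J : ι → X →L[ℂ] X) (N : ℂ → X →L[ℂ] X)
    (hT : ∀ᶠ i in l, DifferentiableOn ℂ (T i) Ω) (hN : DifferentiableOn ℂ N Ω)
    (C : ℝ) (hJ : ∀ᶠ i in l, ‖J i‖ ≤ C)
    (hY : ∀ᶠ i in l, ∀ z ∈ Metric.closedBall z0 r, ‖Y i z‖ ≤ C)
    (hZ : ∀ᶠ i in l, ∀ z ∈ Metric.closedBall z0 r, ‖Z i z‖ ≤ C)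
    (hE : ∀ ε : ℝ, 0 < ε → ∀ᶠ i in l, ∀ z ∈ Metric.closedBall z0 r, ‖Er i z‖ ≤ ε)
    (hZ2 : ∀ ε : ℝ, 0 < ε → ∀ᶠ i in l, ∀ z ∈ Metric.closedBall z0 r, ‖Z i z * Z i z‖ ≤ ε)
    (hZN : ∀ ε : ℝ, 0 < ε → ∀ᶠ i in l, ∀ z ∈ Metric.closedBall z0 r, ‖Z i z * N z‖ ≤ ε)
    (hTe : ∀ᶠ i in l, ∀ z ∈ Metric.closedBall z0 r, T i z = s i • (J i * Y i z + Er i z))
    (hYJ : ∀ᶠ i in l, ∀ z ∈ Metric.closedBall z0 r, Y i z * J i = N z + Z i z)
    (hcirc : ∀ z ∈ Metric.sphere z0 r, IsUnit (1 + N z))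
    (hz0 : ∃ x : X, x ≠ 0 ∧ x + N z0 x = 0) :
    ∀ᶠ i in l, ∃ z ∈ Metric.closedBall z0 r, ¬ IsUnit (1 + T i z) := by
  classical
  have one_le : ‖(1 : X →L[ℂ] X)‖ ≤ 1 := ContinuousLinearMap.norm_id_le
  set K := Metric.closedBall z0 r with hK
  have hSK : Metric.sphere z0 r ⊆ K := Metric.sphere_subset_closedBall
  -- constants
  let C1 : ℝ := max C 0
  have hC1 : 0 ≤ C1 := le_max_right _ _
  have hCC1 : C ≤ C1 := le_max_left _ _
  obtain ⟨M0, hM0⟩ : ∃ M0 : ℝ, ∀ z ∈ Metric.sphere z0 r, ‖Ring.inverse (1 + N z)‖ ≤ M0 := by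
    have hcomp : IsCompact (Metric.sphere z0 r) := isCompact_sphere z0 r
    have hcont : ContinuousOn (fun z => Ring.inverse (1 + N z)) (Metric.sphere z0 r) := by
      intro z hz
      have hzΩ : z ∈ Ω := hD (hSK hz)
      have h1 : DifferentiableAt ℂ N z := hN.differentiableAt (hΩ.mem_nhds hzΩ)
      obtain ⟨u, hu⟩ := hcirc z hz
      have h2 : ContinuousAt (Ring.inverse : (X →L[ℂ] X) → (X →L[ℂ] X)) (1 + N z) := by
        rw [← hu]; exact NormedRing.inverse_continuousAt u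
      exact (ContinuousAt.comp (f := fun z => 1 + N z) h2
        (continuousAt_const.add h1.continuousAt)).continuousWithinAt
    exact hcomp.exists_bound_of_continuousOn hcont
  let M : ℝ := max M0 1
  have hMpos : 0 < M := lt_of_lt_of_le one_pos (le_max_right _ _)
  have hMN : ∀ z ∈ Metric.sphere z0 r, InvB (1 + N z) M := fun z hz =>
    invB_of_isUnit (hcirc z hz) ((hM0 z hz).trans (le_max_left _ _))
  let M1 : ℝ := M * (2 * (1 + C1))
  have hM1 : 0 < M1 := by positivity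
  let M2 : ℝ := 1 + C1 * (2 * M1) * C1
  have hM2 : 0 < M2 := by positivity
  let C4 : ℝ := 2 * M2
  have hC4 : 0 < C4 := by positivity
  let C5 : ℝ := 1 + C1 * (2 * C4) * C1
  have hC5 : 0 < C5 := by positivity
  -- smallness
  let η : ℝ := 1 / (2 * C4)
  have hη : 0 < η := by positivity
  have hηM2 : η ≤ 1 / (2 * M2) := by
    apply one_div_le_one_div_of_le (by positivity)
    have : M2 ≤ C4 := by simp only [C4]; linarith
    linarith
  have hs1 : ∀ᶠ i in l, ‖s i - 1‖ ≤ η / (2 * (C1 * C1 + 1)) := by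
    have h0 : Tendsto (fun i => ‖s i - 1‖) l (𝓝 0) := by
      have := (hs.sub_const 1).norm
      simpa using this
    exact (h0.eventually (gt_mem_nhds (by positivity))).mono fun i hi => hi.le
  have hs2 : ∀ᶠ i in l, ‖s i‖ ≤ 2 := by
    have h0 : Tendsto (fun i => ‖s i‖) l (𝓝 1) := by
      simpa using hs.norm
    exact (h0.eventually (gt_mem_nhds (by norm_num : (1:ℝ) < 2))).mono fun i hi => hi.le
  by_contra hcon
  rw [Filter.not_eventually] at hcon
  have hev := hT.and (hJ.and (hY.and (hZ.and ((hE (η / 4) (by positivity)).and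
    ((hZ2 (1 / 2) (by norm_num)).and ((hZN (min (1 / (2 * M1)) (1 / (2 * C5))) (by positivity)).and
    (hTe.and (hYJ.and (hs1.and hs2))))))))) 
  obtain ⟨i, hi, hTi, hJi, hYi, hZi, hEi, hZ2i, hZNi, hTei, hYJi, hs1i, hs2i⟩ :=
    (hcon.and_eventually hev).exists
  push Not at hi
  have hJ1 : ‖J i‖ ≤ C1 := hJi.trans hCC1
  have hY1 : ∀ z ∈ K, ‖Y i z‖ ≤ C1 := fun z hz => (hYi z hz).trans hCC1
  have hZ1 : ∀ z ∈ K, ‖Z i z‖ ≤ C1 := fun z hz => (hZi z hz).trans hCC1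
  have hF : ∀ z ∈ K, ‖T i z - J i * Y i z‖ ≤ η := by
    intro z hz
    have e : T i z - J i * Y i z = (s i - 1) • (J i * Y i z) + s i • Er i z := by
      rw [hTei z hz, smul_add, sub_smul, one_smul]; abel
    rw [e]
    calc ‖(s i - 1) • (J i * Y i z) + s i • Er i z‖
        ≤ ‖(s i - 1) • (J i * Y i z)‖ + ‖s i • Er i z‖ := norm_add_le _ _
      _ ≤ ‖s i - 1‖ * (C1 * C1) + 2 * (η / 4) := by
        refine add_le_add ?_ ?_
        · rw [norm_smul]
          refine mul_le_mul_of_nonneg_left ?_ (norm_nonneg _)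
          exact (norm_mul_le _ _).trans (mul_le_mul hJ1 (hY1 z hz) (norm_nonneg _) hC1)
        · rw [norm_smul]
          exact mul_le_mul hs2i (hEi z hz) (norm_nonneg _) (by norm_num)
      _ ≤ (η / (2 * (C1 * C1 + 1))) * (C1 * C1) + η / 2 := by
        have := mul_le_mul_of_nonneg_right hs1i (mul_nonneg hC1 hC1)
        linarith
      _ ≤ η := by
        have h3 : (η / (2 * (C1 * C1 + 1))) * (C1 * C1) ≤ η / 2 := by
          rw [div_mul_eq_mul_div, div_le_div_iff₀ (by positivity) (by norm_num)]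
          nlinarith [mul_nonneg hC1 hC1]
        linarith
  -- bound on the sphere
  have hsph : ∀ z ∈ Metric.sphere z0 r, ‖Ring.inverse (1 + T i z)‖ ≤ C4 := by
    intro z hz
    have hzK : z ∈ K := hSK hz
    have a1 : InvB (1 + Z i z) (2 * (1 + C1)) := by
      have b1 : InvB (1 + -(Z i z * Z i z)) 2 :=
        invB_one_add one_le _ (by rw [norm_neg]; exact hZ2i z hzK)
      obtain ⟨b, b2, b3, b4⟩ := b1
      have c1 : (1 + Z i z) * (1 - Z i z) = 1 + -(Z i z * Z i z) := by noncomm_ring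
      have c2 : (1 - Z i z) * (1 + Z i z) = 1 + -(Z i z * Z i z) := by noncomm_ring
      have hr : (1 + Z i z) * ((1 - Z i z) * b) = 1 := by rw [← mul_assoc, c1, b2]
      have hl : (b * (1 - Z i z)) * (1 + Z i z) = 1 := by rw [mul_assoc, c2, b3]
      have heq : b * (1 - Z i z) = (1 - Z i z) * b := by
        calc b * (1 - Z i z) = (b * (1 - Z i z)) * ((1 + Z i z) * ((1 - Z i z) * b)) := by
              rw [hr, mul_one]
          _ = ((b * (1 - Z i z)) * (1 + Z i z)) * ((1 - Z i z) * b) := by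
              simp only [mul_assoc]
          _ = _ := by rw [hl, one_mul]
      refine ⟨b * (1 - Z i z), by rw [heq]; exact hr, hl, ?_⟩
      calc ‖b * (1 - Z i z)‖ ≤ ‖b‖ * ‖1 - Z i z‖ := norm_mul_le _ _
        _ ≤ 2 * (1 + C1) := by
          refine mul_le_mul b4 ?_ (norm_nonneg _) (by norm_num)
          exact (norm_sub_le _ _).trans (add_le_add one_le (hZ1 z hzK))
    have a2 : InvB ((1 + Z i z) * (1 + N z)) M1 := invB_mul a1 (hMN z hz) (by positivity)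
    have a3 : InvB (1 + Y i z * J i) (2 * M1) := by
      have e : 1 + Y i z * J i = (1 + Z i z) * (1 + N z) + -(Z i z * N z) := by
        rw [hYJi z hzK]
        simp only [mul_add, add_mul, one_mul, mul_one]
        abel
      rw [e]
      exact invB_pert one_le _ _ M1 hM1 a2
        (by rw [norm_neg]; exact (hZNi z hzK).trans (min_le_left _ _))
    have a4 : InvB (1 + J i * Y i z) M2 := invB_swap one_le (J i) (Y i z) C1 (2 * M1) hC1 hJ1
      (hY1 z hzK) a3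
    have a5 : InvB (1 + T i z) C4 := by
      have e : 1 + T i z = (1 + J i * Y i z) + (T i z - J i * Y i z) := by abel
      rw [e]
      exact invB_pert one_le _ _ M2 hM2 a4 ((hF z hzK).trans hηM2)
    exact (invB_isUnit a5).2
  -- maximum principle
  have hdiff : DifferentiableOn ℂ (fun z => Ring.inverse (1 + T i z)) K := by
    intro z hz
    have hzΩ : z ∈ Ω := hD hz
    have h1 : DifferentiableAt ℂ (T i) z := hTi.differentiableAt (hΩ.mem_nhds hzΩ)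
    obtain ⟨u, hu⟩ := hi z hz
    have h2 : DifferentiableAt ℂ (Ring.inverse : (X →L[ℂ] X) → (X →L[ℂ] X)) (1 + T i z) := by
      rw [← hu]; exact differentiableAt_inverse u.isUnit
    exact (DifferentiableAt.comp (f := fun z => 1 + T i z) z h2
      ((differentiableAt_const _).add h1)).differentiableWithinAt
  have hz0K : z0 ∈ K := Metric.mem_closedBall_self hr.le
  have hcent : ‖Ring.inverse (1 + T i z0)‖ ≤ C4 := by
    have hdc : DiffContOnCl ℂ (fun z => Ring.inverse (1 + T i z)) (Metric.ball z0 r) :=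
      hdiff.diffContOnCl_ball (le_refl _)
    refine Complex.norm_le_of_forall_mem_frontier_norm_le Metric.isBounded_ball hdc ?_
      (subset_closure (Metric.mem_ball_self hr))
    intro z hz
    rw [frontier_ball z0 hr.ne'] at hz
    exact hsph z hz
  have d1 : InvB (1 + T i z0) C4 := invB_of_isUnit (hi z0 hz0K) hcent
  have d2 : InvB (1 + J i * Y i z0) (2 * C4) := by
    have e : 1 + J i * Y i z0 = (1 + T i z0) + -(T i z0 - J i * Y i z0) := by abel
    rw [e]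
    exact invB_pert one_le _ _ C4 hC4 d1 (by rw [norm_neg]; exact hF z0 hz0K)
  have d3 : InvB (1 + Y i z0 * J i) C5 := invB_swap one_le (Y i z0) (J i) C1 (2 * C4) hC1
    (hY1 z0 hz0K) hJ1 d2
  obtain ⟨b, _, b2, b3⟩ := d3
  obtain ⟨x, hx, hNx⟩ := hz0
  have hxN : x = -(N z0 x) := eq_neg_of_add_eq_zero_left hNx
  have e1 : (1 + Y i z0 * J i) x = -((Z i z0 * N z0) x) := by
    rw [hYJi z0 hz0K]
    have : (1 + (N z0 + Z i z0)) x = (x + N z0 x) + Z i z0 x := by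
      simp only [ContinuousLinearMap.add_apply, ContinuousLinearMap.one_apply]; abel
    rw [this, hNx, zero_add]
    rw [ContinuousLinearMap.mul_apply, ← map_neg, ← hxN]
  have e2 : x = b (-((Z i z0 * N z0) x)) := by
    rw [← e1, ← ContinuousLinearMap.mul_apply, b2, ContinuousLinearMap.one_apply]
  have e3 : ‖x‖ ≤ C5 * ((1 / (2 * C5)) * ‖x‖) := by
    calc ‖x‖ = ‖b (-((Z i z0 * N z0) x))‖ := by rw [← e2]
      _ ≤ ‖b‖ * ‖-((Z i z0 * N z0) x)‖ := b.le_opNorm _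
      _ ≤ C5 * ((1 / (2 * C5)) * ‖x‖) := by
        refine mul_le_mul b3 ?_ (norm_nonneg _) hC5.le
        rw [norm_neg]
        refine ((Z i z0 * N z0).le_opNorm x).trans ?_
        exact mul_le_mul_of_nonneg_right ((hZNi z0 hz0K).trans (min_le_right _ _)) (norm_nonneg _)
  have e4 : C5 * ((1 / (2 * C5)) * ‖x‖) = ‖x‖ / 2 := by field_simp
  rw [e4] at e3
  have : 0 < ‖x‖ := norm_pos_iff.mpr hx
  linarith

end Pool.Agent.Helper41.CE
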