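import Pool.Agent.Helper41.CE.TDefs
import Pool.Agent.Helper41.CE.CU01
import Pool.Agent.Helper41.CE.CU02
import Pool.Agent.Helper41.CE.CU03
import Pool.Agent.Helper41.CE.CU08
import Pool.Agent.Helper41.CE.CU13
import Pool.Agent.Helper41.CE.CU14
import Pool.Agent.Helper41.CE.CU25

/-!
# Semiclassical eigenvalue bounds for Schroedinger operators: definitions
-/

open MeasureTheory Filter Topology Set
open scoped ENNReal NNReal ContDiff

namespace Pool.Agent.Helper41.CE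


/-! ## TARGETS: prove these (statements must not be changed; helper lemmas are welcome) -/

theorem osc_rfx {n : ℕ} (p : E (n + 1) → ℂ) (δ : ℝ) (X : E (n + 1)) :
    osc p δ (rfx X) = osc p δ X := by
  unfold osc
  rw [rfx_rfx, rfx_zero]
  have h1 : 2 / δ * -X 0 = -2 / δ * X 0 := by ring
  have h2 : -2 / δ * -X 0 = 2 / δ * X 0 := by ring
  rw [h1, h2, add_comm]

theorem meas_coord0 {n : ℕ} : Measurable (fun X : E (n + 1) => X 0) := by
  have h : Continuous (fun X : E (n + 1) => X 0) := by fun_prop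
  exact h.measurable

theorem BM_exp {n : ℕ} (θ : ℝ) :
    BM (fun X : E (n + 1) => Complex.exp (Complex.I * ((θ * X 0 : ℝ) : ℂ))) := by
  constructor
  · have h : Measurable (fun X : E (n + 1) => θ * X 0) := meas_coord0.const_mul θ
    exact Complex.measurable_exp.comp ((Complex.measurable_ofReal.comp h).const_mul Complex.I)
  · refine ⟨1, fun X => ?_⟩
    show ‖Complex.exp (Complex.I * ((θ * X 0 : ℝ) : ℂ))‖ ≤ 1
    rw [mul_comm, Complex.norm_exp_ofReal_mul_I]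

theorem BM_comp_rfx {n : ℕ} {p : E (n + 1) → ℂ} (hp : BM p) : BM (fun X => p (rfx X)) := by
  obtain ⟨h1, C, hC⟩ := hp
  exact ⟨h1.comp rfx_meas, C, fun X => hC _⟩

theorem BM_mul_cu35 {d : ℕ} {f g : E d → ℂ} (hf : BM f) (hg : BM g) : BM (fun X => f X * g X) := by
  obtain ⟨h1, C, hC⟩ := hf
  obtain ⟨h2, D, hD⟩ := hg
  refine ⟨h1.mul h2, C * D, fun X => ?_⟩
  rw [norm_mul]
  exact mul_le_mul (hC X) (hD X) (norm_nonneg _) ((norm_nonneg _).trans (hC X))

theorem BM_add {d : ℕ} {f g : E d → ℂ} (hf : BM f) (hg : BM g) : BM (fun X => f X + g X) := by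
  obtain ⟨h1, C, hC⟩ := hf
  obtain ⟨h2, D, hD⟩ := hg
  refine ⟨h1.add h2, C + D, fun X => ?_⟩
  exact (norm_add_le _ _).trans (add_le_add (hC X) (hD X))

theorem osc_BM {n : ℕ} {p : E (n + 1) → ℂ} (hp : BM p) (δ : ℝ) : BM (osc p δ) := by
  exact BM_add (BM_mul_cu35 hp (BM_exp (2 / δ))) (BM_mul_cu35 (BM_comp_rfx hp) (BM_exp (-2 / δ)))

theorem osc_BC {n : ℕ} {p : E (n + 1) → ℂ} (hp : BC p) (δ : ℝ) : BC (osc p δ) := by
  obtain ⟨h1, h2⟩ := osc_BM (BM_of_BC hp) δ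
  obtain ⟨_, _, R, hR⟩ := hp
  refine ⟨h1, h2, R, fun X hX => ?_⟩
  unfold osc
  rw [hR X hX, hR (rfx X) (by rw [rfx_norm]; exact hX)]
  simp

theorem osc_mulop {n : ℕ} {p : E (n + 1) → ℂ} (hp : BM p) (δ : ℝ) :
    mulop (osc p δ) = mulop p * eo (2 / δ) + mulop (fun X => p (rfx X)) * eo (-2 / δ) := by
  unfold eo
  rw [mulop_mul hp (BM_exp (2 / δ)), mulop_mul (BM_comp_rfx hp) (BM_exp (-2 / δ)),
    mulop_add (BM_mul_cu35 hp (BM_exp (2 / δ))) (BM_mul_cu35 (BM_comp_rfx hp) (BM_exp (-2 / δ)))]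
  rfl

theorem eo_zero {n : ℕ} : (eo 0 : L2 (n + 1) →L[ℂ] L2 (n + 1)) = 1 := by
  unfold eo
  rw [← mulop_one]
  congr 1
  ext X
  simp

theorem Rf_Wt (n : ℕ) : Rf n * Wt n = Wt n * Rf n := by
  unfold Wt
  rw [Rf_mulop BM_wt]
  simp only [wt_rfx]

theorem Rf_Rs_sp {n : ℕ} {lam : ℂ} (hl : 0 < lam.im) :
    Rf n * Rs sp lam = Rs sm lam * Rf n := by
  unfold Rs
  rw [Rf_Fm (BM_res (sym_meas 1).2.1 hl.ne')]
  simp only [(sym_rfx 1 _).2.1]

theorem Rf_osc {n : ℕ} {p : E (n + 1) → ℂ} (hp : BM p) (δ : ℝ) :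
    Rf n * mulop (osc p δ) = mulop (osc p δ) * Rf n := by
  rw [Rf_mulop (osc_BM hp δ)]
  congr 2
  ext X
  exact osc_rfx p δ X

theorem Rf_Pi (n : ℕ) : Rf n * ((1 / 2 : ℂ) • (1 + Rf n)) = (1 / 2 : ℂ) • (1 + Rf n) := by
  rw [mul_smul_comm, mul_add, mul_one, Rf_sq, add_comm (Rf n) 1]

theorem Pi_Pi (n : ℕ) : ((1 / 2 : ℂ) • (1 + Rf n)) * (1 + Rf n) = 1 + Rf n := by
  rw [smul_mul_assoc, mul_add, mul_one, add_mul, one_mul, Rf_sq]
  have : (1 + Rf n + (Rf n + 1) : L2 (n + 1) →L[ℂ] L2 (n + 1)) = (2 : ℂ) • (1 + Rf n) := by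
    rw [two_smul]
    abel
  rw [this, smul_smul]
  norm_num

theorem xy_one {n : ℕ} {p : E (n + 1) → ℂ} (hp : BM p) (δ : ℝ) (hδ : 0 < δ) {lam : ℂ}
    (hl : 0 < lam.im) :
    (eo (1 / δ) * (Wt n * Rs sp lam * Wt n) * eo (-(1 / δ)) +
      eo (-(1 / δ)) * (Wt n * Rs sm lam * Wt n) * eo (1 / δ)) *
        (mulop (osc p δ) * ((1 / 2 : ℂ) • (1 + Rf n))) =
      ((1 + Rf n) * eo (1 / δ)) * ((Wt n * Rs sp lam * Wt n) * eo (-(1 / δ)) *
        (mulop (osc p δ) * ((1 / 2 : ℂ) • (1 + Rf n)))) := by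
  have hP := Rf_Pi n
  generalize hPi : ((1 / 2 : ℂ) • (1 + Rf n) : L2 (n + 1) →L[ℂ] L2 (n + 1)) = Q at hP ⊢
  have h1 : Rf n * eo (1 / δ) = eo (-(1 / δ)) * Rf n := Rf_eo _
  have h2 : Rf n * eo (-(1 / δ)) = eo (1 / δ) * Rf n := by
    rw [Rf_eo, neg_neg]
  have h3 := Rf_Wt n
  have h4 := Rf_Rs_sp (n := n) hl
  have h5 := Rf_osc hp δ
  generalize mulop (osc p δ) = V at *
  generalize (eo (1 / δ) : L2 (n + 1) →L[ℂ] L2 (n + 1)) = e at *
  generalize (eo (-(1 / δ)) : L2 (n + 1) →L[ℂ] L2 (n + 1)) = f at *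
  generalize Wt n = W at *
  generalize Rs sp lam = A at *
  generalize Rs sm lam = B at *
  generalize Rf n = R at *
  have key : R * e * (W * A * W * f * (V * Q)) = f * (W * B * W) * e * (V * Q) := by
    calc R * e * (W * A * W * f * (V * Q)) = (R * e) * W * A * W * f * V * Q := by
          simp only [mul_assoc]
      _ = f * (R * W) * A * W * f * V * Q := by rw [h1]; simp only [mul_assoc]
      _ = f * W * (R * A) * W * f * V * Q := by rw [h3]; simp only [mul_assoc]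
      _ = f * W * B * (R * W) * f * V * Q := by rw [h4]; simp only [mul_assoc]
      _ = f * W * B * W * (R * f) * V * Q := by rw [h3]; simp only [mul_assoc]
      _ = f * W * B * W * e * (R * V) * Q := by rw [h2]; simp only [mul_assoc]
      _ = f * W * B * W * e * V * (R * Q) := by rw [h5]; simp only [mul_assoc]
      _ = f * (W * B * W) * e * (V * Q) := by rw [hP]; simp only [mul_assoc]
  rw [add_mul, add_mul, one_mul, add_mul, key]
  simp only [mul_assoc]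

theorem xy_two {n : ℕ} {p : E (n + 1) → ℂ} (hp : BM p) (δ : ℝ) (hδ : 0 < δ) {lam : ℂ}
    (hl : 0 < lam.im) :
    ((Wt n * Rs sp lam * Wt n) * eo (-(1 / δ)) *
        (mulop (osc p δ) * ((1 / 2 : ℂ) • (1 + Rf n)))) * ((1 + Rf n) * eo (1 / δ)) =
      Kop p lam * Rf n + (Kop p lam * eo (2 / δ) + Kop (fun X => p (rfx X)) lam * eo (-2 / δ) +
        Kop (fun X => p (rfx X)) lam * eo (-4 / δ) * Rf n) := by
  have hPP := Pi_Pi n
  have h1 : Rf n * eo (1 / δ) = eo (-(1 / δ)) * Rf n := Rf_eo _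
  have h2 : (eo (-(1 / δ)) : L2 (n + 1) →L[ℂ] L2 (n + 1)) * mulop (osc p δ) =
      mulop (osc p δ) * eo (-(1 / δ)) := eo_mulop _ (osc_BM hp δ)
  have h3 : (eo (-(1 / δ)) : L2 (n + 1) →L[ℂ] L2 (n + 1)) * eo (1 / δ) = 1 := by
    rw [eo_add, neg_add_cancel, eo_zero]
  have h4 : (eo (-(1 / δ)) : L2 (n + 1) →L[ℂ] L2 (n + 1)) * eo (-(1 / δ)) = eo (-2 / δ) := by
    rw [eo_add]
    congr 1
    ring
  have h5 : (eo (2 / δ) : L2 (n + 1) →L[ℂ] L2 (n + 1)) * eo (-2 / δ) = 1 := by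
    rw [eo_add, ← eo_zero]
    congr 1
    ring
  have h6 : (eo (-2 / δ) : L2 (n + 1) →L[ℂ] L2 (n + 1)) * eo (-2 / δ) = eo (-4 / δ) := by
    rw [eo_add]
    congr 1
    ring
  have h7 := osc_mulop hp δ
  unfold Kop
  generalize ((1 / 2 : ℂ) • (1 + Rf n) : L2 (n + 1) →L[ℂ] L2 (n + 1)) = Q at *
  generalize mulop (osc p δ) = V at *
  generalize (eo (1 / δ) : L2 (n + 1) →L[ℂ] L2 (n + 1)) = e at *
  generalize (eo (-(1 / δ)) : L2 (n + 1) →L[ℂ] L2 (n + 1)) = f at *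
  generalize (eo (2 / δ) : L2 (n + 1) →L[ℂ] L2 (n + 1)) = e2 at *
  generalize (eo (-2 / δ) : L2 (n + 1) →L[ℂ] L2 (n + 1)) = f2 at *
  generalize (eo (-4 / δ) : L2 (n + 1) →L[ℂ] L2 (n + 1)) = f4 at *
  generalize mulop (fun X => p (rfx X)) = P' at *
  generalize mulop p = P at *
  generalize Wt n = W at *
  generalize Rs sp lam = A at *
  generalize Rf n = R at *
  calc W * A * W * f * (V * Q) * ((1 + R) * e)
      = W * A * W * f * V * (Q * (1 + R)) * e := by simp only [mul_assoc]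
    _ = W * A * W * (f * V) * (1 + R) * e := by rw [hPP]; simp only [mul_assoc]
    _ = W * A * W * V * f * (e + R * e) := by
        rw [h2, mul_assoc _ (1 + R) e, add_mul, one_mul]; simp only [mul_assoc]
    _ = W * A * W * V * (f * e + (f * f) * R) := by
        rw [h1, mul_assoc _ f _, mul_add]; simp only [mul_assoc]
    _ = W * A * W * (P * e2 + P' * f2) * (1 + f2 * R) := by rw [h3, h4, h7]
    _ = W * A * W * (P * e2 + P' * f2 + (P * (e2 * f2) * R + P' * (f2 * f2) * R)) := by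
        rw [mul_assoc]
        congr 1
        rw [mul_add, mul_one, add_mul]
        simp only [mul_assoc]
    _ = W * A * W * P * R + (W * A * W * P * e2 + W * A * W * P' * f2 +
        W * A * W * P' * f4 * R) := by
        rw [h5, h6]
        simp only [mul_add, mul_one, mul_assoc]
        abel

end Pool.Agent.Helper41.CE
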