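import Pool.Agent.Helper41.CE.TDefs
import Pool.Agent.Helper41.CE.CU01
import Pool.Agent.Helper41.CE.CU08
import Pool.Agent.Helper41.CE.CU09
import Pool.Agent.Helper41.CE.CU13
import Pool.Agent.Helper41.CE.CU25
import Pool.Agent.Helper41.CE.CU26

/-!
# Semiclassical eigenvalue bounds for Schroedinger operators: definitions
-/

open MeasureTheory Filter Topology Set
open scoped ENNReal NNReal ContDiff

namespace Pool.Agent.Helper41.CE


/-! ## TARGETS: prove these (statements must not be changed; helper lemmas are welcome) -/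

theorem zop_small_mul1 {A : Type*} [NormedRing A] {a b : A} {ε : ℝ} (hε : 0 ≤ ε) (ha : ‖a‖ ≤ ε)
    (hb : ‖b‖ ≤ 1) : ‖a * b‖ ≤ ε := by
  calc ‖a * b‖ ≤ ‖a‖ * ‖b‖ := norm_mul_le _ _
    _ ≤ ε * 1 := mul_le_mul ha hb (norm_nonneg _) hε
    _ = ε := mul_one _

theorem zop_small_alg {A : Type*} [NormedRing A] (P Q e2 e2' e4 R : A) (ε : ℝ) (hε : 0 ≤ ε)
    (h1 : ‖e2‖ ≤ 1) (h2 : ‖e2'‖ ≤ 1) (h3 : ‖e4‖ ≤ 1) (h4 : ‖R‖ ≤ 1)
    (u1 : ‖P * e2 * P‖ ≤ ε / 9) (u2 : ‖P * e2 * Q‖ ≤ ε / 9) (u3 : ‖Q * e2' * P‖ ≤ ε / 9)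
    (u4 : ‖Q * e2' * Q‖ ≤ ε / 9) (u5 : ‖Q * e4 * (R * P)‖ ≤ ε / 9)
    (u6 : ‖Q * e4 * (R * Q)‖ ≤ ε / 9) :
    ‖(P * e2 + Q * e2' + Q * e4 * R) * (P * e2 + Q * e2' + Q * e4 * R)‖ ≤ ε ∧
      ‖(P * e2 + Q * e2' + Q * e4 * R) * (P * R)‖ ≤ ε := by
  have h9 : 0 ≤ ε / 9 := by positivity
  constructor
  · have e : (P * e2 + Q * e2' + Q * e4 * R) * (P * e2 + Q * e2' + Q * e4 * R) =
        P * e2 * P * e2 + P * e2 * Q * e2' + P * e2 * Q * e4 * R +
        Q * e2' * P * e2 + Q * e2' * Q * e2' + Q * e2' * Q * e4 * R +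
        Q * e4 * (R * P) * e2 + Q * e4 * (R * Q) * e2' + Q * e4 * (R * Q) * e4 * R := by
      noncomm_ring
    rw [e]
    have t1 := zop_small_mul1 h9 u1 h1
    have t2 := zop_small_mul1 h9 u2 h2
    have t3 := zop_small_mul1 h9 (zop_small_mul1 h9 u2 h3) h4
    have t4 := zop_small_mul1 h9 u3 h1
    have t5 := zop_small_mul1 h9 u4 h2
    have t6 := zop_small_mul1 h9 (zop_small_mul1 h9 u4 h3) h4
    have t7 := zop_small_mul1 h9 u5 h1
    have t8 := zop_small_mul1 h9 u6 h2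
    have t9 := zop_small_mul1 h9 (zop_small_mul1 h9 u6 h3) h4
    have n1 := norm_add_le (P * e2 * P * e2) (P * e2 * Q * e2')
    have n2 := norm_add_le (P * e2 * P * e2 + P * e2 * Q * e2') (P * e2 * Q * e4 * R)
    have n3 := norm_add_le (P * e2 * P * e2 + P * e2 * Q * e2' + P * e2 * Q * e4 * R)
      (Q * e2' * P * e2)
    have n4 := norm_add_le (P * e2 * P * e2 + P * e2 * Q * e2' + P * e2 * Q * e4 * R +
      Q * e2' * P * e2) (Q * e2' * Q * e2')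
    have n5 := norm_add_le (P * e2 * P * e2 + P * e2 * Q * e2' + P * e2 * Q * e4 * R +
      Q * e2' * P * e2 + Q * e2' * Q * e2') (Q * e2' * Q * e4 * R)
    have n6 := norm_add_le (P * e2 * P * e2 + P * e2 * Q * e2' + P * e2 * Q * e4 * R +
      Q * e2' * P * e2 + Q * e2' * Q * e2' + Q * e2' * Q * e4 * R) (Q * e4 * (R * P) * e2)
    have n7 := norm_add_le (P * e2 * P * e2 + P * e2 * Q * e2' + P * e2 * Q * e4 * R +
      Q * e2' * P * e2 + Q * e2' * Q * e2' + Q * e2' * Q * e4 * R + Q * e4 * (R * P) * e2)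
      (Q * e4 * (R * Q) * e2')
    have n8 := norm_add_le (P * e2 * P * e2 + P * e2 * Q * e2' + P * e2 * Q * e4 * R +
      Q * e2' * P * e2 + Q * e2' * Q * e2' + Q * e2' * Q * e4 * R + Q * e4 * (R * P) * e2 +
      Q * e4 * (R * Q) * e2') (Q * e4 * (R * Q) * e4 * R)
    linarith
  · have e : (P * e2 + Q * e2' + Q * e4 * R) * (P * R) =
        P * e2 * P * R + Q * e2' * P * R + Q * e4 * (R * P) * R := by
      noncomm_ring
    rw [e]
    have t1 := zop_small_mul1 h9 u1 h4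
    have t2 := zop_small_mul1 h9 u3 h4
    have t3 := zop_small_mul1 h9 u5 h4
    have n1 := norm_add_le (P * e2 * P * R) (Q * e2' * P * R)
    have n2 := norm_add_le (P * e2 * P * R + Q * e2' * P * R) (Q * e4 * (R * P) * R)
    linarith

theorem zop_small_unif {n : ℕ} (K : Set ℂ) (hK : IsCompact K)
    (F H : ℂ → (L2 (n + 1) →L[ℂ] L2 (n + 1))) (hF : ∀ y ∈ K, ContinuousAt F y)
    (hH : ∀ y ∈ K, ContinuousAt H y) (hFc : ∀ y ∈ K, IsCompactOperator (F y))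
    (hHc : ∀ y ∈ K, IsCompactOperator (H y)) (θ : ℝ → ℝ)
    (hθ : Tendsto θ (𝓝[>] (0 : ℝ)) (cocompact ℝ)) (ε : ℝ) (hε : 0 < ε) :
    ∀ᶠ δ in 𝓝[>] (0 : ℝ), ∀ lam ∈ K, ‖F lam * eo (θ δ) * H lam‖ ≤ ε := by
  have key : ∀ᶠ δ in 𝓝 (0 : ℝ), ∀ lam ∈ K, 0 < δ → ‖F lam * eo (θ δ) * H lam‖ ≤ ε := by
    refine hK.eventually_forall_of_forall_eventually
      (P := fun (δ : ℝ) (lam : ℂ) => 0 < δ → ‖F lam * eo (θ δ) * H lam‖ ≤ ε) ?_
    intro y hy
    have h1 : ∀ᶠ δ in 𝓝 (0 : ℝ), 0 < δ → ‖F y * eo (θ δ) * H y‖ ≤ ε / 2 := by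
      have h2 := (wn (F y) (H y) (hFc y hy) (hHc y hy)).comp hθ
      have h3 : ∀ᶠ δ in 𝓝[>] (0 : ℝ), ‖F y * eo (θ δ) * H y‖ < ε / 2 :=
        h2.eventually (gt_mem_nhds (by positivity))
      rw [eventually_nhdsWithin_iff] at h3
      filter_upwards [h3] with δ h4 hδ
      exact (h4 hδ).le
    have h2 : ∀ᶠ lam in 𝓝 y, ‖F lam - F y‖ * ‖H lam‖ + ‖F y‖ * ‖H lam - H y‖ < ε / 2 := by
      have c1 : ContinuousAt (fun lam => ‖F lam - F y‖ * ‖H lam‖ + ‖F y‖ * ‖H lam - H y‖) y :=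
        (((hF y hy).sub continuousAt_const).norm.mul (hH y hy).norm).add
          (continuousAt_const.mul ((hH y hy).sub continuousAt_const).norm)
      refine c1.eventually (gt_mem_nhds ?_)
      simp only [sub_self, norm_zero, zero_mul, mul_zero, add_zero]
      positivity
    filter_upwards [h1.prod_nhds h2] with x hx hδ
    obtain ⟨hx1, hx2⟩ := hx
    have hx1' := hx1 hδ
    have e : F x.2 * eo (θ x.1) * H x.2 = F y * eo (θ x.1) * H y +
        (F x.2 - F y) * eo (θ x.1) * H x.2 + F y * eo (θ x.1) * (H x.2 - H y) := by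
      noncomm_ring
    rw [e]
    have n1 := norm_add_le (F y * eo (θ x.1) * H y) ((F x.2 - F y) * eo (θ x.1) * H x.2)
    have n2 := norm_add_le (F y * eo (θ x.1) * H y + (F x.2 - F y) * eo (θ x.1) * H x.2)
      (F y * eo (θ x.1) * (H x.2 - H y))
    have he : ‖(eo (θ x.1) : L2 (n + 1) →L[ℂ] L2 (n + 1))‖ ≤ 1 := eo_norm _
    have n3 : ‖(F x.2 - F y) * eo (θ x.1) * H x.2‖ ≤ ‖F x.2 - F y‖ * ‖H x.2‖ := by
      refine (norm_mul_le _ _).trans (mul_le_mul_of_nonneg_right ?_ (norm_nonneg _))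
      exact zop_small_mul1 (norm_nonneg _) le_rfl he
    have n4 : ‖F y * eo (θ x.1) * (H x.2 - H y)‖ ≤ ‖F y‖ * ‖H x.2 - H y‖ := by
      refine (norm_mul_le _ _).trans (mul_le_mul_of_nonneg_right ?_ (norm_nonneg _))
      exact zop_small_mul1 (norm_nonneg _) le_rfl he
    linarith
  rw [eventually_nhdsWithin_iff]
  filter_upwards [key] with δ h hδ lam hlam
  exact h lam hlam hδ

theorem zop_small_theta (c : ℝ) (hc : c ≠ 0) :
    Tendsto (fun δ : ℝ => c / δ) (𝓝[>] (0 : ℝ)) (cocompact ℝ) := by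
  have h1 : Tendsto (fun δ : ℝ => δ⁻¹) (𝓝[>] (0 : ℝ)) atTop := tendsto_inv_nhdsGT_zero
  rcases lt_or_gt_of_ne hc with h | h
  · have h2 : Tendsto (fun δ : ℝ => c * δ⁻¹) (𝓝[>] (0 : ℝ)) atBot :=
      h1.const_mul_atTop_of_neg h
    exact (h2.mono_right atBot_le_cocompact).congr fun δ => (div_eq_mul_inv c δ).symm
  · have h2 : Tendsto (fun δ : ℝ => c * δ⁻¹) (𝓝[>] (0 : ℝ)) atTop := h1.const_mul_atTop h
    exact (h2.mono_right atTop_le_cocompact).congr fun δ => (div_eq_mul_inv c δ).symm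

theorem zop_small {n : ℕ} {p : E (n + 1) → ℂ} (hp : BV p) (K : Set ℂ) (hK : IsCompact K)
    (hKi : K ⊆ {z : ℂ | 0 < z.im}) (ε : ℝ) (hε : 0 < ε) :
    ∀ᶠ δ in 𝓝[>] (0 : ℝ), ∀ lam ∈ K,
      ‖(Kop p lam * eo (2 / δ) + Kop (fun X => p (rfx X)) lam * eo (-2 / δ) +
        Kop (fun X => p (rfx X)) lam * eo (-4 / δ) * Rf n) *
        (Kop p lam * eo (2 / δ) + Kop (fun X => p (rfx X)) lam * eo (-2 / δ) +
        Kop (fun X => p (rfx X)) lam * eo (-4 / δ) * Rf n)‖ ≤ ε ∧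
      ‖(Kop p lam * eo (2 / δ) + Kop (fun X => p (rfx X)) lam * eo (-2 / δ) +
        Kop (fun X => p (rfx X)) lam * eo (-4 / δ) * Rf n) * (Kop p lam * Rf n)‖ ≤ ε := by
  have hp' : BV (fun X : E (n + 1) => p (rfx X)) := by
    obtain ⟨a1, ⟨C, a2⟩, a3⟩ := hp
    refine ⟨a1.comp rfx_meas, ⟨C, fun x => a2 _⟩, ?_⟩
    intro ε' hε'
    obtain ⟨R, hR⟩ := a3 ε' hε'
    exact ⟨R, fun x hx => hR _ (by rw [rfx_norm]; exact hx)⟩
  have hopen : IsOpen {z : ℂ | 0 < z.im} := isOpen_lt continuous_const Complex.continuous_im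
  have cP : ∀ y ∈ K, ContinuousAt (fun z => Kop p z) y := fun y hy =>
    ((Kop_diff (BM_of_BV hp)).differentiableAt (hopen.mem_nhds (hKi hy))).continuousAt
  have cQ : ∀ y ∈ K, ContinuousAt (fun z => Kop (fun X => p (rfx X)) z) y := fun y hy =>
    ((Kop_diff (BM_of_BV hp')).differentiableAt (hopen.mem_nhds (hKi hy))).continuousAt
  have cRP : ∀ y ∈ K, ContinuousAt (fun z => Rf n * Kop p z) y := fun y hy =>
    continuousAt_const.mul (cP y hy)
  have cRQ : ∀ y ∈ K, ContinuousAt (fun z => Rf n * Kop (fun X => p (rfx X)) z) y := fun y hy =>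
    continuousAt_const.mul (cQ y hy)
  have kP : ∀ y ∈ K, IsCompactOperator (Kop p y) := fun y hy => Kop_compact hp (hKi hy)
  have kQ : ∀ y ∈ K, IsCompactOperator (Kop (fun X => p (rfx X)) y) := fun y hy =>
    Kop_compact hp' (hKi hy)
  have kRP : ∀ y ∈ K, IsCompactOperator (Rf n * Kop p y) := fun y hy =>
    (kP y hy).clm_comp (Rf n)
  have kRQ : ∀ y ∈ K, IsCompactOperator (Rf n * Kop (fun X => p (rfx X)) y) := fun y hy =>
    (kQ y hy).clm_comp (Rf n)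
  have hR : ‖Rf n‖ ≤ 1 := by
    refine ContinuousLinearMap.opNorm_le_bound _ zero_le_one fun u => ?_
    rw [Rf_norm, one_mul]
  have h9 : 0 < ε / 9 := by positivity
  have w1 := zop_small_unif K hK _ _ cP cP kP kP _ (zop_small_theta 2 (by norm_num)) _ h9
  have w2 := zop_small_unif K hK _ _ cP cQ kP kQ _ (zop_small_theta 2 (by norm_num)) _ h9
  have w3 := zop_small_unif K hK _ _ cQ cP kQ kP _ (zop_small_theta (-2) (by norm_num)) _ h9
  have w4 := zop_small_unif K hK _ _ cQ cQ kQ kQ _ (zop_small_theta (-2) (by norm_num)) _ h9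
  have w5 := zop_small_unif K hK _ _ cQ cRP kQ kRP _ (zop_small_theta (-4) (by norm_num)) _ h9
  have w6 := zop_small_unif K hK _ _ cQ cRQ kQ kRQ _ (zop_small_theta (-4) (by norm_num)) _ h9
  filter_upwards [w1, w2, w3, w4, w5, w6] with δ v1 v2 v3 v4 v5 v6 lam hlam
  exact zop_small_alg _ _ _ _ _ _ ε hε.le (eo_norm _) (eo_norm _) (eo_norm _) hR
    (v1 lam hlam) (v2 lam hlam) (v3 lam hlam) (v4 lam hlam) (v5 lam hlam) (v6 lam hlam)

end Pool.Agent.Helper41.CE
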