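import Pool.Agent.Helper41.CE.TDefs
import Pool.Agent.Helper41.CE.CU01
import Pool.Agent.Helper41.CE.CU02
import Pool.Agent.Helper41.CE.CU03
import Pool.Agent.Helper41.CE.CU08
import Pool.Agent.Helper41.CE.CU13
import Pool.Agent.Helper41.CE.CU14
import Pool.Agent.Helper41.CE.CU24
import Pool.Agent.Helper41.CE.CU25
import Pool.Agent.Helper41.CE.CU26
import Pool.Agent.Helper41.CE.CU27
import Pool.Agent.Helper41.CE.CU34
import Pool.Agent.Helper41.CE.CU35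
import Pool.Agent.Helper41.CE.CU36

/-!
# Semiclassical eigenvalue bounds for Schroedinger operators: definitions
-/

open MeasureTheory Filter Topology Set
open scoped ENNReal NNReal ContDiff

namespace Pool.Agent.Helper41.CE


/-! ## TARGETS: prove these (statements must not be changed; helper lemmas are welcome) -/

theorem sd_lower (δ m N x0 R pi : ℝ) (hR : R = 4 * pi ^ 2 * (N ^ 2 - x0 ^ 2)) (hm0 : 0 < m) (hm1 : m ≤ 1)
    (hmd : m ≤ δ) (hN : 1 ≤ N) (hR0 : 0 ≤ R) (hpi : 1 ≤ 4 * pi ^ 2) :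
    δ * (2 * pi * x0) ^ 2 + R - 1 / δ ≥ m * N - 1 / δ := by
  have h1 : m * (2 * pi * x0) ^ 2 ≤ δ * (2 * pi * x0) ^ 2 := mul_le_mul_of_nonneg_right hmd (sq_nonneg _)
  have h2 : m * R ≤ R := by nlinarith
  have h3 : m * (2 * pi * x0) ^ 2 + m * R = m * ((4 * pi ^ 2) * N ^ 2) := by
    rw [hR]
    ring
  have h4 : N ≤ (4 * pi ^ 2) * N ^ 2 := by nlinarith
  have h5 : m * N ≤ m * ((4 * pi ^ 2) * N ^ 2) := mul_le_mul_of_nonneg_left h4 hm0.le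
  linarith

theorem sd_res_BV {n : ℕ} (δ : ℝ) (hδ : 0 < δ) {lam : ℂ} (hl : 0 < lam.im) :
    BV (fun ξ : E (n + 1) => ((sd δ ξ : ℂ) - lam)⁻¹) := by
  have h1 := BM_res (sym_meas (n := n) δ).1 hl.ne'
  refine ⟨h1.1, h1.2, ?_⟩
  intro ε hε
  obtain ⟨m, hm⟩ : ∃ m : ℝ, m = min δ 1 := ⟨_, rfl⟩
  have hm0 : 0 < m := by rw [hm]; exact lt_min hδ one_pos
  have hm1 : m ≤ 1 := by rw [hm]; exact min_le_right _ _
  have hmd : m ≤ δ := by rw [hm]; exact min_le_left _ _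
  refine ⟨max 1 ((1 / ε + 1 / δ + ‖lam‖) / m), fun ξ hξ => ?_⟩
  have hξ1 : 1 < ‖ξ‖ := (le_max_left _ _).trans_lt hξ
  have hξ2 : (1 / ε + 1 / δ + ‖lam‖) / m < ‖ξ‖ := (le_max_right _ _).trans_lt hξ
  rw [div_lt_iff₀ hm0] at hξ2
  have hrp := rp_nonneg ξ
  have hpi : 1 ≤ 4 * Real.pi ^ 2 := by
    have := Real.pi_gt_three
    nlinarith
  have hA : sd δ ξ ≥ m * ‖ξ‖ - 1 / δ := sd_lower δ m ‖ξ‖ (ξ 0) (rp ξ) Real.pi rfl hm0 hm1 hmd hξ1.le hrp hpi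
  have hB : 1 / ε ≤ sd δ ξ - ‖lam‖ := by
    linarith
  have hC : sd δ ξ - ‖lam‖ ≤ ‖(sd δ ξ : ℂ) - lam‖ := by
    have h2 := norm_sub_norm_le (sd δ ξ : ℂ) lam
    rw [Complex.norm_real] at h2
    have h3 := Real.le_norm_self (sd δ ξ)
    linarith
  rw [norm_inv]
  have h4 : 0 < 1 / ε := by positivity
  rw [inv_le_comm₀ (by linarith) hε]
  rw [one_div] at hB
  linarith

theorem one_Rf_norm (n : ℕ) : ‖(1 + Rf n : L2 (n + 1) →L[ℂ] L2 (n + 1))‖ ≤ 2 := by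
  refine ContinuousLinearMap.opNorm_le_bound _ (by norm_num) fun u => ?_
  refine (norm_add_le _ _).trans ?_
  have h1 := Rf_norm u
  show ‖u‖ + ‖Rf n u‖ ≤ 2 * ‖u‖
  linarith

theorem half_norm (n : ℕ) : ‖((1 / 2 : ℂ) • (1 + Rf n) : L2 (n + 1) →L[ℂ] L2 (n + 1))‖ ≤ 1 := by
  have h1 := one_Rf_norm n
  rw [norm_smul]
  norm_num
  linarith

theorem Rf_norm1 (n : ℕ) : ‖(Rf n : L2 (n + 1) →L[ℂ] L2 (n + 1))‖ ≤ 1 := by
  refine ContinuousLinearMap.opNorm_le_bound _ (by norm_num) fun u => ?_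
  rw [Rf_norm]
  linarith

theorem osc_bd {n : ℕ} (p : E (n + 1) → ℂ) (δ C : ℝ) (hC : ∀ x, ‖p x‖ ≤ C) (X : E (n + 1)) :
    ‖osc p δ X‖ ≤ 2 * C := by
  unfold osc
  refine (norm_add_le _ _).trans ?_
  rw [norm_mul, norm_mul, mul_comm Complex.I, mul_comm Complex.I, Complex.norm_exp_ofReal_mul_I,
    Complex.norm_exp_ofReal_mul_I]
  have := hC X
  have := hC (rfx X)
  linarith

theorem mul_bd {A : Type*} [NormedRing A] (a b : A) (x y : ℝ) (ha : ‖a‖ ≤ x) (hb : ‖b‖ ≤ y) :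
    ‖a * b‖ ≤ x * y :=
  (norm_mul_le _ _).trans (mul_le_mul ha hb (norm_nonneg _) ((norm_nonneg _).trans ha))

theorem M_bd {n : ℕ} {p : E (n + 1) → ℂ} (hp : BM p) (δ C : ℝ) (hC : ∀ x, ‖p x‖ ≤ C) :
    ‖mulop (osc p δ) * ((1 / 2 : ℂ) • (1 + Rf n))‖ ≤ 2 * C * 1 :=
  mul_bd _ _ _ _ (mulop_norm (osc_BM hp δ) _ (osc_bd p δ C hC)) (half_norm n)

theorem W_bd {n : ℕ} {s : E (n + 1) → ℝ} (hs : Measurable s) {z : ℂ} (hz : 0 < z.im) (m : ℝ) (hm : 0 < m)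
    (hmz : m ≤ z.im) : ‖Wt n * Rs s z * Wt n‖ ≤ 1 * (1 / m) * 1 := by
  refine mul_bd _ _ _ _ (mul_bd _ _ _ _ (Wt_norm n) ((Rs_norm hs hz).trans ?_)) (Wt_norm n)
  exact one_div_le_one_div_of_le hm hmz

theorem Y_bd {n : ℕ} {p : E (n + 1) → ℂ} (hp : BM p) (δ C : ℝ) (hC : ∀ x, ‖p x‖ ≤ C)
    {z : ℂ} (hz : 0 < z.im) (m : ℝ) (hm : 0 < m) (hmz : m ≤ z.im) :
    ‖(Wt n * Rs sp z * Wt n) * eo (-(1 / δ)) * (mulop (osc p δ) * ((1 / 2 : ℂ) • (1 + Rf n)))‖ ≤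
      (1 * (1 / m) * 1) * 1 * (2 * C * 1) :=
  mul_bd _ _ _ _ (mul_bd _ _ _ _ (W_bd (sym_meas (n := n) δ).2.1 hz m hm hmz) (eo_norm _)) (M_bd hp δ C hC)

theorem J_bd {n : ℕ} (δ : ℝ) : ‖((1 + Rf n) * eo (1 / δ) : L2 (n + 1) →L[ℂ] L2 (n + 1))‖ ≤ 2 * 1 :=
  mul_bd _ _ _ _ (one_Rf_norm n) (eo_norm _)

theorem Z_bd {n : ℕ} {p : E (n + 1) → ℂ} (hp : BM p) (δ C : ℝ) (hC : ∀ x, ‖p x‖ ≤ C) (hC0 : 0 ≤ C)
    {z : ℂ} (hz : 0 < z.im) (m : ℝ) (hm : 0 < m) (hmz : m ≤ z.im) :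
    ‖Kop p z * eo (2 / δ) + Kop (fun X => p (rfx X)) z * eo (-2 / δ) +
        Kop (fun X => p (rfx X)) z * eo (-4 / δ) * Rf n‖ ≤ 3 * (C / m) := by
  have hp2 : BM (fun X : E (n + 1) => p (rfx X)) :=
    ⟨hp.1.comp rfx_meas, C, fun x => hC _⟩
  have hk1 : ‖Kop p z‖ ≤ C / m := (Kop_norm hp C hC hz).trans (div_le_div_of_nonneg_left hC0 hm hmz)
  have hk2 : ‖Kop (fun X => p (rfx X)) z‖ ≤ C / m :=
    (Kop_norm hp2 C (fun x => hC _) hz).trans (div_le_div_of_nonneg_left hC0 hm hmz)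
  have h1 := mul_bd _ _ _ _ hk1 (eo_norm (n := n) (2 / δ))
  have h2 := mul_bd _ _ _ _ hk2 (eo_norm (n := n) (-2 / δ))
  have h3 := mul_bd _ _ _ _ (mul_bd _ _ _ _ hk2 (eo_norm (n := n) (-4 / δ))) (Rf_norm1 n)
  refine (norm_add_le _ _).trans ?_
  have h4 := norm_add_le (Kop p z * eo (2 / δ)) (Kop (fun X => p (rfx X)) z * eo (-2 / δ))
  linarith

theorem T_split {n : ℕ} {p : E (n + 1) → ℂ} (hp : BM p) (δ : ℝ) (hδ : 0 < δ) {z : ℂ}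
    (hz : 0 < z.im) :
    (Wt n * Rs (sd δ) z * Wt n) * (mulop (osc p δ) * ((1 / 2 : ℂ) • (1 + Rf n))) =
      ((1 + Rf n) * eo (1 / δ)) * ((Wt n * Rs sp z * Wt n) * eo (-(1 / δ)) *
        (mulop (osc p δ) * ((1 / 2 : ℂ) • (1 + Rf n)))) +
      (Wt n * Rs (sd δ) z * Wt n - eo (1 / δ) * (Wt n * Rs sp z * Wt n) * eo (-(1 / δ)) -
        eo (-(1 / δ)) * (Wt n * Rs sm z * Wt n) * eo (1 / δ)) *
        (mulop (osc p δ) * ((1 / 2 : ℂ) • (1 + Rf n))) := by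
  rw [← xy_one hp δ hδ hz, ← add_mul]
  congr 1
  abel

theorem Er_bd {n : ℕ} {p : E (n + 1) → ℂ} (hp : BM p) (C : ℝ) (hC : ∀ x, ‖p x‖ ≤ C) (hC0 : 0 ≤ C)
    (K : Set ℂ) (hK : IsCompact K) (hKi : K ⊆ {z : ℂ | 0 < z.im}) (ε : ℝ) (hε : 0 < ε) :
    ∀ᶠ δ in 𝓝[>] (0 : ℝ), ∀ z ∈ K,
      ‖(Wt n * Rs (sd δ) z * Wt n - eo (1 / δ) * (Wt n * Rs sp z * Wt n) * eo (-(1 / δ)) -
        eo (-(1 / δ)) * (Wt n * Rs sm z * Wt n) * eo (1 / δ)) *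
        (mulop (osc p δ) * ((1 / 2 : ℂ) • (1 + Rf n)))‖ ≤ ε := by
  have hpos : 0 < 2 * C * 1 + 1 := by linarith
  filter_upwards [bstar n K hK hKi (ε / (2 * C * 1 + 1)) (by positivity)] with δ hδ z hz
  refine (mul_bd _ _ _ _ (hδ z hz) (M_bd hp δ C hC)).trans ?_
  rw [div_mul_eq_mul_div, div_le_iff₀ hpos]
  nlinarith

theorem T_diff {n : ℕ} (p : E (n + 1) → ℂ) (δ : ℝ) (s : ℂ) :
    DifferentiableOn ℂ (fun z => s • ((Wt n * Rs (sd δ) z * Wt n) *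
          (mulop (osc p δ) * ((1 / 2 : ℂ) • (1 + Rf n))))) {z : ℂ | 0 < z.im} := by
  have h := Rs_diff (sym_meas (n := n) δ).1
  exact (((h.const_mul (Wt n)).mul_const (Wt n)).mul_const _).const_smul s

theorem pick_r {n : ℕ} {p : E (n + 1) → ℂ} (hp : BV p) (lam0 : ℂ) (h0 : 0 < lam0.im) (r : ℝ) (hr : 0 < r) :
    ∃ r' : ℝ, 0 < r' ∧ r' ≤ r ∧ r' ≤ lam0.im / 2 ∧
      ∀ z ∈ Metric.closedBall lam0 r', z ≠ lam0 → IsUnit (1 + Kop p z * Rf n) := by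
  have h1 := Kop_isolated hp h0
  rw [eventually_nhdsWithin_iff, Metric.eventually_nhds_iff] at h1
  obtain ⟨e, he, hb⟩ := h1
  refine ⟨min (min r (lam0.im / 2)) (e / 2), by positivity, (min_le_left _ _).trans (min_le_left _ _),
    (min_le_left _ _).trans (min_le_right _ _), ?_⟩
  intro z hz hzn
  refine hb ?_ hzn
  rw [Metric.mem_closedBall] at hz
  have := hz.trans (min_le_right _ _)
  linarith

theorem model_one {n : ℕ} {p : E (n + 1) → ℂ} (hp : BC p) (lam0 : ℂ) (h0 : 0 < lam0.im)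
    (hw : ∃ w : L2 (n + 1), w ≠ 0 ∧ w + Kop p lam0 (Rf n w) = 0) (r : ℝ) (hr : 0 < r) :
    ∃ δ0 : ℝ, 0 < δ0 ∧ ∃ η : ℝ, 0 < η ∧ ∀ δ s : ℝ, 0 < δ → δ < δ0 → 1 ≤ s → s ≤ 1 + η →
      ∃ lam : ℂ, ‖lam - lam0‖ ≤ r ∧ 0 < lam.im ∧
        ¬ IsUnit (1 + (s : ℂ) • ((Wt n * Rs (sd δ) lam * Wt n) *
          (mulop (osc p δ) * ((1 / 2 : ℂ) • (1 + Rf n))))) := by
  obtain ⟨r', hr', hr'r, hr'i, huni⟩ := pick_r (BV_of_BC hp) lam0 h0 r hr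
  have hpB := BM_of_BC hp
  obtain ⟨C, hC⟩ := hpB.2
  have hC0 : 0 ≤ C := (norm_nonneg _).trans (hC 0)
  have him : ∀ z ∈ Metric.closedBall lam0 r', lam0.im / 2 ≤ z.im := by
    intro z hz
    rw [Metric.mem_closedBall, dist_eq_norm] at hz
    have h1 := (Complex.abs_im_le_norm (z - lam0)).trans hz
    rw [Complex.sub_im, abs_le] at h1
    linarith [h1.1]
  have hm : 0 < lam0.im / 2 := by linarith
  have him0 : ∀ z ∈ Metric.closedBall lam0 r', 0 < z.im := fun z hz => hm.trans_le (him z hz)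
  have hKc : IsCompact (Metric.closedBall lam0 r') := isCompact_closedBall _ _
  have hΩ : IsOpen {z : ℂ | 0 < z.im} := isOpen_lt continuous_const Complex.continuous_im
  have hpr : ∀ {P : ℝ → Prop}, (∀ᶠ δ in 𝓝[>] (0 : ℝ), P δ) →
      ∀ᶠ i : ℝ × ℝ in 𝓝[>] (0 : ℝ) ×ˢ 𝓝 (1 : ℝ), P i.1 := by
    intro P hP
    exact tendsto_fst.eventually hP
  have hpos : ∀ᶠ δ in 𝓝[>] (0 : ℝ), 0 < δ := eventually_mem_nhdsWithin
  obtain ⟨w, hw0, hww⟩ := hw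
  have key := abs_model (X := L2 (n + 1)) (𝓝[>] (0 : ℝ) ×ˢ 𝓝 (1 : ℝ)) {z : ℂ | 0 < z.im} hΩ lam0 r' hr'
    him0 (fun i => ((i.2 : ℝ) : ℂ))
    (by
      have h1 : Tendsto (fun i : ℝ × ℝ => ((i.2 : ℝ) : ℂ)) (𝓝[>] (0 : ℝ) ×ˢ 𝓝 (1 : ℝ)) (𝓝 ((1 : ℝ) : ℂ)) :=
        (Complex.continuous_ofReal.tendsto 1).comp tendsto_snd
      simpa using h1)
    (fun i z => ((i.2 : ℝ) : ℂ) • ((Wt n * Rs (sd i.1) z * Wt n) *
          (mulop (osc p i.1) * ((1 / 2 : ℂ) • (1 + Rf n)))))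
    (fun i z => (Wt n * Rs sp z * Wt n) * eo (-(1 / i.1)) * (mulop (osc p i.1) * ((1 / 2 : ℂ) • (1 + Rf n))))
    (fun i z => (Wt n * Rs (sd i.1) z * Wt n - eo (1 / i.1) * (Wt n * Rs sp z * Wt n) * eo (-(1 / i.1)) -
        eo (-(1 / i.1)) * (Wt n * Rs sm z * Wt n) * eo (1 / i.1)) *
        (mulop (osc p i.1) * ((1 / 2 : ℂ) • (1 + Rf n))))
    (fun i z => Kop p z * eo (2 / i.1) + Kop (fun X => p (rfx X)) z * eo (-2 / i.1) +
        Kop (fun X => p (rfx X)) z * eo (-4 / i.1) * Rf n)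
    (fun i => (1 + Rf n) * eo (1 / i.1))
    (fun z => Kop p z * Rf n)
    (Filter.Eventually.of_forall fun i => T_diff p i.1 _)
    ((Kop_diff hpB).mul_const _)
    (2 + (1 * (1 / (lam0.im / 2)) * 1) * 1 * (2 * C * 1) + 3 * (C / (lam0.im / 2)))
    (Filter.Eventually.of_forall fun i => by
      refine (J_bd i.1).trans ?_
      have h1 : 0 ≤ (1 * (1 / (lam0.im / 2)) * 1) * 1 * (2 * C * 1) := by positivity
      have h2 : 0 ≤ 3 * (C / (lam0.im / 2)) := by positivity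
      linarith)
    (Filter.Eventually.of_forall fun i z hz => by
      refine (Y_bd hpB i.1 C hC (him0 z hz) _ hm (him z hz)).trans ?_
      have h2 : 0 ≤ 3 * (C / (lam0.im / 2)) := by positivity
      linarith)
    (Filter.Eventually.of_forall fun i z hz => by
      refine (Z_bd hpB i.1 C hC hC0 (him0 z hz) _ hm (him z hz)).trans ?_
      have h1 : 0 ≤ (1 * (1 / (lam0.im / 2)) * 1) * 1 * (2 * C * 1) := by positivity
      linarith)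
    (fun ε hε => hpr (Er_bd hpB C hC hC0 _ hKc him0 ε hε))
    (fun ε hε => hpr ((zop_small (BV_of_BC hp) _ hKc him0 ε hε).mono fun δ h z hz => (h z hz).1))
    (fun ε hε => hpr ((zop_small (BV_of_BC hp) _ hKc him0 ε hε).mono fun δ h z hz => (h z hz).2))
    (hpr (hpos.mono fun δ hδ => trivial) |>.and (hpr hpos) |>.mono fun i hi z hz => by
      rw [T_split hpB i.1 hi.2 (him0 z hz)])
    (hpr hpos |>.mono fun i hi z hz => xy_two hpB i.1 hi (him0 z hz))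
    (fun z hz => huni z (Metric.sphere_subset_closedBall hz) (by
      rintro rfl
      rw [Metric.mem_sphere, dist_self] at hz
      linarith))
    ⟨w, hw0, hww⟩
  rw [eventually_prod_iff] at key
  obtain ⟨pa, hpa, pb, hpb, hab⟩ := key
  obtain ⟨δ0, hδ0, hδs⟩ := mem_nhdsGT_iff_exists_Ioo_subset.1 hpa
  rw [Metric.eventually_nhds_iff] at hpb
  obtain ⟨η, hη, hηs⟩ := hpb
  refine ⟨δ0, hδ0, η / 2, by positivity, ?_⟩
  intro δ s hδ hδl hs1 hs2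
  have h1 : pa δ := hδs ⟨hδ, hδl⟩
  have h2 : pb s := hηs (by
    rw [Real.dist_eq, abs_of_nonneg (by linarith)]
    linarith)
  obtain ⟨z, hz, hzn⟩ := hab h1 h2
  refine ⟨z, ?_, him0 z hz, hzn⟩
  rw [Metric.mem_closedBall, dist_eq_norm] at hz
  exact hz.trans hr'r

end Pool.Agent.Helper41.CE
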