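import Pool.Agent.Helper41.CE.TDefs
import Pool.Agent.Helper41.CE.CU01
import Pool.Agent.Helper41.CE.CU02
import Pool.Agent.Helper41.CE.CU03
import Pool.Agent.Helper41.CE.CU04
import Pool.Agent.Helper41.CE.CU05
import Pool.Agent.Helper41.CE.CU13
import Pool.Agent.Helper41.CE.CU14
import Pool.Agent.Helper41.CE.CU35
import Pool.Agent.Helper41.CE.CU37

/-!
# Semiclassical eigenvalue bounds for Schroedinger operators: definitions
-/

open MeasureTheory Filter Topology Set
open scoped ENNReal NNReal ContDiff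

namespace Pool.Agent.Helper41.CE


/-! ## TARGETS: prove these (statements must not be changed; helper lemmas are welcome) -/

theorem model_two {n : ℕ} {p : E (n + 1) → ℂ} (hp : BC p) (δ s : ℝ) (hδ : 0 < δ) (hs : 0 < s)
    (lam : ℂ) (hl : 0 < lam.im)
    (h : ¬ IsUnit (1 + (s : ℂ) • ((Wt n * Rs (sd δ) lam * Wt n) *
          (mulop (osc p δ) * ((1 / 2 : ℂ) • (1 + Rf n)))))) :
    ∃ u : L2 (n + 1), u ≠ 0 ∧
      u + (s : ℂ) • Rs (sd δ) lam (mulop (fun X => ((wt X ^ 2 : ℝ) : ℂ) * osc p δ X) u) = 0 := by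
  have hO : BM (osc p δ) := osc_BM (BM_of_BC hp) δ
  have hσ : BV (fun ξ : E (n + 1) => ((sd δ ξ : ℂ) - lam)⁻¹) := sd_res_BV δ hδ hl
  have hσB : BM (fun ξ : E (n + 1) => ((sd δ ξ : ℂ) - lam)⁻¹) := BM_of_BV hσ
  have hWO : BC (fun X : E (n + 1) => (wt X : ℂ) * osc p δ X) := by
    obtain ⟨o1, ⟨C, o2⟩, R, o3⟩ := osc_BC hp δ
    refine ⟨(BM_wt (n := n)).1.mul o1, ⟨C, fun X => ?_⟩, R, fun X hX => by
      show (wt X : ℂ) * osc p δ X = 0
      rw [o3 X hX, mul_zero]⟩
    rw [norm_mul, Complex.norm_real, Real.norm_eq_abs, abs_of_pos (wt_pos X)]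
    have h1 := wt_le_one X
    have h2 := wt_pos X
    have h3 := o2 X
    have h4 : 0 ≤ ‖osc p δ X‖ := norm_nonneg _
    nlinarith
  have hWOB := BM_of_BC hWO
  have eWO : Wt n * mulop (osc p δ) = mulop (fun X : E (n + 1) => (wt X : ℂ) * osc p δ X) :=
    mulop_mul BM_wt hO
  have hcomp0 : IsCompactOperator (Fm (fun ξ : E (n + 1) => ((sd δ ξ : ℂ) - lam)⁻¹) *
      mulop (fun X : E (n + 1) => (wt X : ℂ) * osc p δ X)) := Fm_mulop_compact hσ (BV_of_BC hWO)
  set Pi : L2 (n + 1) →L[ℂ] L2 (n + 1) := (1 / 2 : ℂ) • (1 + Rf n) with hPi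
  set T : L2 (n + 1) →L[ℂ] L2 (n + 1) :=
    (Wt n * Rs (sd δ) lam * Wt n) * (mulop (osc p δ) * Pi) with hT
  have eT : T = Wt n * (Rs (sd δ) lam * (Wt n * mulop (osc p δ))) * Pi := by
    rw [hT]; simp only [mul_assoc]
  have hTc : IsCompactOperator T := by
    rw [eT, eWO]
    have h1 := hcomp0.clm_comp (Wt n)
    exact h1.comp_clm Pi
  have hK : IsCompactOperator ((s : ℂ) • T) := hTc.smul (s : ℂ)
  obtain ⟨w, hw0, hw⟩ := (fred_alt _ hK).resolve_left h
  -- commutation
  have c1 : Rf n * Wt n = Wt n * Rf n := by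
    have := Rf_mulop (n := n) (BM_wt (n := n))
    simp only [wt_rfx] at this
    exact this
  have c2 : Rf n * Rs (sd δ) lam = Rs (sd δ) lam * Rf n := by
    have := Rf_Fm (n := n) hσB
    simp only [(sym_rfx δ _).1] at this
    exact this
  have c3 : Rf n * mulop (osc p δ) = mulop (osc p δ) * Rf n := by
    have := Rf_mulop (n := n) hO
    simp only [osc_rfx] at this
    exact this
  have c4 : Rf n * Pi = Pi := by
    rw [hPi, mul_smul_comm, mul_add, mul_one, Rf_sq]
    congr 1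
    exact add_comm _ _
  have c5 : Rf n * T = T := by
    calc Rf n * T = (Rf n * Wt n) * Rs (sd δ) lam * Wt n * (mulop (osc p δ) * Pi) := by
          rw [hT]; simp only [mul_assoc]
      _ = Wt n * (Rf n * Rs (sd δ) lam) * Wt n * (mulop (osc p δ) * Pi) := by
          rw [c1]; simp only [mul_assoc]
      _ = Wt n * Rs (sd δ) lam * (Rf n * Wt n) * (mulop (osc p δ) * Pi) := by
          rw [c2]; simp only [mul_assoc]
      _ = Wt n * Rs (sd δ) lam * Wt n * (Rf n * mulop (osc p δ)) * Pi := by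
          rw [c1]; simp only [mul_assoc]
      _ = Wt n * Rs (sd δ) lam * Wt n * mulop (osc p δ) * (Rf n * Pi) := by
          rw [c3]; simp only [mul_assoc]
      _ = T := by rw [c4, hT]; simp only [mul_assoc]
  have hw' : w = -((s : ℂ) • T w) := by
    have : w + (s : ℂ) • T w = 0 := hw
    exact eq_neg_of_add_eq_zero_left this
  have hRw : Rf n w = w := by
    have h1 : Rf n (T w) = T w := by
      have := congrArg (fun A : L2 (n + 1) →L[ℂ] L2 (n + 1) => A w) c5
      exact this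
    have h2 : Rf n w = -((s : ℂ) • Rf n (T w)) := by
      conv_lhs => rw [hw']
      rw [map_neg, map_smul]
    rw [h2, h1, ← hw']
  have hPw : Pi w = w := by
    rw [hPi]
    show (1 / 2 : ℂ) • (w + Rf n w) = w
    rw [hRw, ← two_smul ℂ w, smul_smul]
    norm_num
  set V := mulop (fun X : E (n + 1) => (wt X : ℂ) * osc p δ X) with hV
  have hTw : T w = Wt n (Rs (sd δ) lam (V w)) := by
    rw [eT, eWO]
    show Wt n (Rs (sd δ) lam (V (Pi w))) = _
    rw [hPw]
  set u : L2 (n + 1) := -((s : ℂ) • Rs (sd δ) lam (V w)) with hu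
  have hWu : Wt n u = w := by
    rw [hu, map_neg, map_smul, ← hTw, ← hw']
  refine ⟨u, ?_, ?_⟩
  · intro h0
    rw [h0, map_zero] at hWu
    exact hw0 hWu.symm
  · have e1 : mulop (fun X : E (n + 1) => ((wt X ^ 2 : ℝ) : ℂ) * osc p δ X) = V * Wt n := by
      have := mulop_mul hWOB (BM_wt (n := n))
      have h2 : V * Wt n = mulop (fun X : E (n + 1) => (wt X : ℂ) * osc p δ X * (wt X : ℂ)) := this
      rw [h2]
      congr 1
      funext X
      push_cast
      ring
    have e2 : mulop (fun X : E (n + 1) => ((wt X ^ 2 : ℝ) : ℂ) * osc p δ X) u = V w := by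
      rw [e1]
      show V (Wt n u) = V w
      rw [hWu]
    rw [e2, hu, neg_add_cancel]

end Pool.Agent.Helper41.CE
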