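import Pool.Agent.Helper41.CE.TDefs
import Pool.Agent.Helper41.CE.CU01
import Pool.Agent.Helper41.CE.CU02
import Pool.Agent.Helper41.CE.CU03
import Pool.Agent.Helper41.CE.CU11
import Pool.Agent.Helper41.CE.CU14
import Pool.Agent.Helper41.CE.CU35

/-!
# Semiclassical eigenvalue bounds for Schroedinger operators: definitions
-/

open MeasureTheory Filter Topology Set
open scoped ENNReal NNReal ContDiff

namespace Pool.Agent.Helper41.CE


/-! ## TARGETS: prove these (statements must not be changed; helper lemmas are welcome) -/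

/-- The dilation as a linear equivalence. -/
noncomputable def AL {n : ℕ} (δ : ℝ) (hδ : 0 < δ) : E (n + 1) ≃L[ℝ] E (n + 1) :=
  LinearEquiv.toContinuousLinearEquiv
    { toFun := dila δ
      map_add' := by
        intro x y
        simp only [dila, PiLp.add_apply, smul_add, mul_add, add_smul]
        abel
      map_smul' := by
        intro c x
        simp only [dila, PiLp.smul_apply, smul_eq_mul, RingHom.id_apply, smul_add, smul_smul]
        congr 2 <;> ring
      invFun := fun x => (Real.sqrt δ)⁻¹ • x +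
        ((δ⁻¹ - (Real.sqrt δ)⁻¹) * x 0) • EuclideanSpace.single 0 1
      left_inv := by
        intro x
        have h0 : Real.sqrt δ ≠ 0 := (Real.sqrt_pos.2 hδ).ne'
        ext i
        by_cases hi : i = 0
        · subst hi
          simp [dila]
          field_simp
          ring
        · simp [dila, hi]
          field_simp
      right_inv := by
        intro x
        have h0 : Real.sqrt δ ≠ 0 := (Real.sqrt_pos.2 hδ).ne'
        ext i
        by_cases hi : i = 0
        · subst hi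
          simp [dila]
          field_simp
          ring
        · simp [dila, hi]
          field_simp }

lemma AL_apply {n : ℕ} (δ : ℝ) (hδ : 0 < δ) (x : E (n + 1)) : AL δ hδ x = dila δ x := rfl

lemma dila_inner {n : ℕ} (δ : ℝ) (x y : E (n + 1)) :
    inner ℝ (dila δ x) y = inner ℝ x (dila δ y) := by
  simp only [dila, inner_add_left, inner_add_right, inner_smul_left, inner_smul_right,
    EuclideanSpace.inner_single_left, EuclideanSpace.inner_single_right]
  simp
  ring

lemma AL_adj {n : ℕ} (δ : ℝ) (hδ : 0 < δ) (x : E (n + 1)) :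
    ContinuousLinearMap.adjoint ((AL δ hδ : E (n + 1) ≃L[ℝ] E (n + 1)) : E (n + 1) →L[ℝ] E (n + 1)) x = dila δ x := by
  have h : ((AL δ hδ : E (n + 1) ≃L[ℝ] E (n + 1)) : E (n + 1) →L[ℝ] E (n + 1)) =
      ContinuousLinearMap.adjoint
        ((AL δ hδ : E (n + 1) ≃L[ℝ] E (n + 1)) : E (n + 1) →L[ℝ] E (n + 1)) := by
    rw [ContinuousLinearMap.eq_adjoint_iff]
    intro x y
    exact dila_inner δ x y
  rw [← h]; rfl

lemma dila_norm {n : ℕ} (δ : ℝ) (hδ : 0 < δ) (x : E (n + 1)) :
    ‖dila δ x‖ ^ 2 = δ * (‖x‖ ^ 2 - (x 0) ^ 2) + δ ^ 2 * (x 0) ^ 2 := by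
  have h0 : Real.sqrt δ * Real.sqrt δ = δ := Real.mul_self_sqrt hδ.le
  rw [← real_inner_self_eq_norm_sq (dila δ x), ← real_inner_self_eq_norm_sq x]
  simp only [dila, inner_add_left, inner_add_right, inner_smul_left, inner_smul_right,
    EuclideanSpace.inner_single_left, EuclideanSpace.inner_single_right]
  simp
  generalize Real.sqrt δ = r at h0
  subst h0
  ring

lemma rho_dila {n : ℕ} (δ : ℝ) (hδ : 0 < δ) (lam : ℂ) (η : E (n + 1)) :
    ((rho (dila δ η) : ℂ) - (1 + δ * lam)) = δ * ((sd δ η : ℂ) - lam) := by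
  have h : rho (dila δ η) = δ * sd δ η + 1 := by
    unfold rho sd rp
    rw [dila_norm δ hδ]
    field_simp
    ring
  rw [h]; push_cast; ring

lemma AL_qmp {d : ℕ} (A : E d ≃L[ℝ] E d) :
    Measure.QuasiMeasurePreserving A (volume : Measure (E d)) volume := by
  have := MeasureTheory.Measure.LinearMap.quasiMeasurePreserving (volume : Measure (E d))
    (f := (A.toLinearEquiv : E d →ₗ[ℝ] E d)) (LinearEquiv.isUnit_det' A.toLinearEquiv).ne_zero
  exact this

lemma rho_meas {d : ℕ} : Measurable (rho : E d → ℝ) := by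
  unfold rho; fun_prop

theorem model_three {n : ℕ} {p : E (n + 1) → ℂ} (hp : BC p) (δ s : ℝ) (hδ : 0 < δ) (lam : ℂ)
    (hl : 0 < lam.im) (h : ∃ u : L2 (n + 1), u ≠ 0 ∧
      u + (s : ℂ) • Rs (sd δ) lam (mulop (fun X => ((wt X ^ 2 : ℝ) : ℂ) * osc p δ X) u) = 0) :
    Zs s (1 + δ * lam) (V1 p δ) := by
  obtain ⟨u, hu, heq⟩ := h
  set W : E (n + 1) → ℂ := fun X => ((wt X ^ 2 : ℝ) : ℂ) * osc p δ X with hW
  have hδ' : (δ : ℂ) ≠ 0 := by exact_mod_cast hδ.ne'
  have hosc := osc_BM (BM_of_BC hp) δ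
  have hWB : BM W := by
    refine ⟨?_, ?_⟩
    · exact (Complex.measurable_ofReal.comp (wt_meas.pow_const 2)).mul hosc.1
    · obtain ⟨C, hC⟩ := hosc.2
      refine ⟨C, fun x => ?_⟩
      rw [hW]
      simp only [norm_mul, Complex.norm_real, Real.norm_eq_abs]
      have h1 : |wt x ^ 2| ≤ 1 := by
        rw [abs_of_nonneg (by positivity)]
        exact pow_le_one₀ (wt_pos x).le (wt_le_one x)
      calc |wt x ^ 2| * ‖osc p δ x‖ ≤ 1 * ‖osc p δ x‖ := by gcongr
        _ ≤ C := by rw [one_mul]; exact hC x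
  have hV1 : V1 p δ = fun x => (δ : ℂ) * W (AL δ hδ x) := by
    funext x
    rw [hW]
    simp only [V1, AL_apply]
    push_cast
    ring
  have hVB : BM (V1 p δ) := by
    rw [hV1]
    refine ⟨?_, ?_⟩
    · exact (hWB.1.comp (AL δ hδ).continuous.measurable).const_mul _
    · obtain ⟨C, hC⟩ := hWB.2
      refine ⟨δ * C, fun x => ?_⟩
      rw [norm_mul, Complex.norm_real, Real.norm_eq_abs, abs_of_pos hδ]
      exact mul_le_mul_of_nonneg_left (hC _) hδ.le
  have hz : ((1 : ℂ) + δ * lam).im ≠ 0 := by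
    simp [Complex.add_im, Complex.mul_im]
    exact ⟨hδ.ne', hl.ne'⟩
  refine ⟨compop (AL δ hδ) u, ?_, ?_⟩
  · intro h0
    apply hu
    have h1 := compop_lin_spec (AL δ hδ) u
    rw [h0] at h1
    have h2 : (fun x => u (AL δ hδ x)) =ᵐ[volume] (0 : E (n + 1) → ℂ) :=
      h1.symm.trans (Lp.coeFn_zero _ _ _)
    have h3 := (AL_qmp (AL δ hδ).symm).ae_eq_comp h2
    apply Lp.ext
    refine EventuallyEq.trans ?_ (Lp.coeFn_zero _ _ _).symm
    filter_upwards [h3] with x hx
    simpa using hx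
  · have k1 : mulop (V1 p δ) (compop (AL δ hδ) u) = (δ : ℂ) • compop (AL δ hδ) (mulop W u) := by
      apply Lp.ext
      have a1 := mulop_spec hVB (compop (AL δ hδ) u)
      have a2 := compop_lin_spec (AL δ hδ) u
      have a3 := Lp.coeFn_smul (δ : ℂ) (compop (AL δ hδ) (mulop W u))
      have a4 := compop_lin_spec (AL δ hδ) (mulop W u)
      have a5 := (AL_qmp (AL δ hδ)).ae_eq_comp (mulop_spec hWB u)
      filter_upwards [a1, a2, a3, a4, a5] with x a1 a2 a3 a4 a5
      rw [a1, a2, a3, Pi.smul_apply, a4, hV1]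
      simp only [Function.comp_apply] at a5
      rw [a5, smul_eq_mul]
      ring
    have k2 : (Rz (1 + δ * lam) : L2 (n + 1) →L[ℂ] L2 (n + 1)) *
        (compop (AL δ hδ) : L2 (n + 1) →L[ℂ] L2 (n + 1)) =
        (compop (AL δ hδ) : L2 (n + 1) →L[ℂ] L2 (n + 1)) *
          ((δ : ℂ)⁻¹ • (Rs (sd δ) lam : L2 (n + 1) →L[ℂ] L2 (n + 1))) := by
      unfold Rz
      rw [Fm_compop_lin (AL δ hδ) (BM_res rho_meas hz)]
      unfold Rs
      rw [Fm_smul (BM_res (sym_meas δ).1 hl.ne')]
      congr 2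
      funext ξ
      rw [AL_adj, rho_dila δ hδ, mul_inv]
    have k3 : Rz (1 + δ * lam) (mulop (V1 p δ) (compop (AL δ hδ) u)) =
        compop (AL δ hδ) (Rs (sd δ) lam (mulop W u)) := by
      rw [k1, map_smul]
      have := congrArg (fun T : L2 (n + 1) →L[ℂ] L2 (n + 1) => T (mulop W u)) k2
      simp only [ContinuousLinearMap.mul_apply, ContinuousLinearMap.smul_apply, map_smul] at this
      rw [this, smul_smul, mul_inv_cancel₀ hδ', one_smul]
    rw [k3, ← map_smul, ← map_add, heq, map_zero]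

end Pool.Agent.Helper41.CE
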