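import Pool.Agent.Helper41.CE.TDefs
import Pool.Agent.Helper41.CE.CU01
import Pool.Agent.Helper41.CE.CU02
import Pool.Agent.Helper41.CE.CU03
import Pool.Agent.Helper41.CE.CU04
import Pool.Agent.Helper41.CE.CU05
import Pool.Agent.Helper41.CE.CU06

/-!
# Semiclassical eigenvalue bounds for Schroedinger operators: definitions
-/

open MeasureTheory Filter Topology Set
open scoped ENNReal NNReal ContDiff

namespace Pool.Agent.Helper41.CE


/-! ## TARGETS: prove these (statements must not be changed; helper lemmas are welcome) -/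

theorem res_BV_meas {d : ℕ} : Measurable (rho : E d → ℝ) := by
  unfold rho
  fun_prop

theorem res_BV {d : ℕ} {z : ℂ} (hz : 0 < z.im) : BV (fun ξ : E d => ((rho ξ : ℂ) - z)⁻¹) := by
  obtain ⟨h1, h2⟩ := BM_res (res_BV_meas (d := d)) hz.ne'
  refine ⟨h1, h2, fun ε hε => ⟨‖z‖ + 1 / ε + 1, fun x hx => ?_⟩⟩
  have hz0 : 0 ≤ ‖z‖ := norm_nonneg z
  have he0 : 0 < 1 / ε := by positivity
  have hx1 : 1 ≤ ‖x‖ := by linarith
  have hpi : (1 : ℝ) ≤ 4 * Real.pi ^ 2 := by nlinarith [Real.pi_gt_three]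
  have hrho : ‖x‖ ≤ rho x := by
    unfold rho
    nlinarith [mul_le_mul_of_nonneg_right hpi (sq_nonneg ‖x‖)]
  have hle : 1 / ε ≤ ‖(rho x : ℂ) - z‖ := by
    have h3 : ‖(rho x : ℂ)‖ - ‖z‖ ≤ ‖(rho x : ℂ) - z‖ := norm_sub_norm_le _ _
    have h4 : ‖(rho x : ℂ)‖ = rho x := by
      rw [Complex.norm_real, Real.norm_eq_abs, abs_of_nonneg (by linarith)]
    rw [h4] at h3
    linarith
  simp only [norm_inv]
  have h5 : ‖(rho x : ℂ) - z‖⁻¹ ≤ (1 / ε)⁻¹ := inv_anti₀ he0 hle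
  rw [one_div, inv_inv] at h5
  exact h5

theorem RV_compact {d : ℕ} {V : E d → ℂ} (hV : BC V) {z : ℂ} (hz : 0 < z.im) :
    IsCompactOperator ((Rz z : L2 d →L[ℂ] L2 d) * mulop V) :=
  Fm_mulop_compact (res_BV hz) (BV_of_BC hV)

theorem Zs_iff_compact {d : ℕ} {V : E d → ℂ} (hV : BC V) (g : ℝ) {z : ℂ} (hz : 0 < z.im) :
    IsCompactOperator ((g : ℂ) • ((Rz z : L2 d →L[ℂ] L2 d) * mulop V)) := by
  have := (RV_compact hV hz).smul (g : ℂ)
  exact this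

theorem Zs_iff {d : ℕ} {V : E d → ℂ} (hV : BC V) (g : ℝ) {z : ℂ} (hz : 0 < z.im) :
    Zs g z V ↔ ¬ IsUnit (1 + (g : ℂ) • (Rz z * mulop V)) := by
  constructor
  · rintro ⟨u, hu, h0⟩ hU
    obtain ⟨W, hW⟩ := hU
    apply hu
    have h1 : (W : L2 d →L[ℂ] L2 d) u = 0 := by
      rw [hW]
      exact h0
    have h2 : ((W⁻¹ * W : (L2 d →L[ℂ] L2 d)ˣ) : L2 d →L[ℂ] L2 d) u = u := by
      rw [inv_mul_cancel]; rfl
    rw [← h2, Units.val_mul]
    show (W⁻¹ : (L2 d →L[ℂ] L2 d)ˣ).val ((W : L2 d →L[ℂ] L2 d) u) = 0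
    rw [h1, map_zero]
  · intro hU
    rcases fred_alt _ (Zs_iff_compact hV g hz) with h | ⟨x, hx, h⟩
    · exact absurd h hU
    · exact ⟨x, hx, h⟩

theorem Zs_isolated {d : ℕ} {V : E d → ℂ} (hV : BC V) (g : ℝ) {z0 : ℂ} (h0 : 0 < z0.im) :
    ∀ᶠ z in 𝓝[≠] z0, IsUnit (1 + (g : ℂ) • (Rz z * mulop V)) := by
  have hm := res_BV_meas (d := d)
  set t : ℝ := |g| * ‖(mulop V : L2 d →L[ℂ] L2 d)‖ + 1 with ht
  have ht0 : 0 < t := by positivity
  have him : ((t : ℂ) * Complex.I).im = t := by simp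
  refine an_fred {z : ℂ | 0 < z.im} (isOpen_lt continuous_const Complex.continuous_im)
    (convex_halfSpace_im_gt 0).isPreconnected
    (fun z => (g : ℂ) • ((Rz z : L2 d →L[ℂ] L2 d) * mulop V)) ?_
    (fun z hz => Zs_iff_compact hV g hz) ((t : ℂ) * Complex.I) ?_ ?_ z0 h0
  · have h1 : DifferentiableOn ℂ (fun z => (Rz z : L2 d →L[ℂ] L2 d)) {z : ℂ | 0 < z.im} := Rs_diff hm
    exact (h1.mul_const (mulop V)).const_smul (g : ℂ)
  · show 0 < ((t : ℂ) * Complex.I).im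
    rw [him]; exact ht0
  · have hn : ‖(Rz ((t : ℂ) * Complex.I) : L2 d →L[ℂ] L2 d)‖ ≤ 1 / t := by
      have h2 := Rs_norm hm (z := (t : ℂ) * Complex.I) (by rw [him]; exact ht0)
      rw [him] at h2
      exact h2
    have hK : ‖(g : ℂ) • ((Rz ((t : ℂ) * Complex.I) : L2 d →L[ℂ] L2 d) * mulop V)‖ < 1 := by
      rw [norm_smul, Complex.norm_real, Real.norm_eq_abs]
      have h3 : ‖(Rz ((t : ℂ) * Complex.I) : L2 d →L[ℂ] L2 d) * mulop V‖ ≤
          1 / t * ‖(mulop V : L2 d →L[ℂ] L2 d)‖ :=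
        (norm_mul_le _ _).trans (mul_le_mul_of_nonneg_right hn (norm_nonneg _))
      have h4 : |g| * ‖(Rz ((t : ℂ) * Complex.I) : L2 d →L[ℂ] L2 d) * mulop V‖ ≤
          |g| * (1 / t * ‖(mulop V : L2 d →L[ℂ] L2 d)‖) :=
        mul_le_mul_of_nonneg_left h3 (abs_nonneg _)
      refine lt_of_le_of_lt h4 ?_
      have h5 : |g| * (1 / t * ‖(mulop V : L2 d →L[ℂ] L2 d)‖) = (t - 1) / t := by
        rw [ht]; ring
      rw [h5, div_lt_one ht0]
      linarith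
    have h6 := isUnit_one_sub_of_norm_lt_one (x := -((g : ℂ) • ((Rz ((t : ℂ) * Complex.I) : L2 d →L[ℂ] L2 d) * mulop V)))
      (by rw [norm_neg]; exact hK)
    rw [sub_neg_eq_add] at h6
    exact h6

end Pool.Agent.Helper41.CE
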