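import Pool.Agent.Helper41.CE.TDefs
import Pool.Agent.Helper41.CE.CU01
import Pool.Agent.Helper41.CE.CU02
import Pool.Agent.Helper41.CE.CU03
import Pool.Agent.Helper41.CE.CU11
import Pool.Agent.Helper41.CE.CU12

/-!
# Semiclassical eigenvalue bounds for Schroedinger operators: definitions
-/

open MeasureTheory Filter Topology Set
open scoped ENNReal NNReal ContDiff

namespace Pool.Agent.Helper41.CE


/-! ## TARGETS: prove these (statements must not be changed; helper lemmas are welcome) -/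

theorem zs_rho_meas {d : ℕ} : Measurable (rho : E d → ℝ) := by
  have h : Continuous (rho : E d → ℝ) := by
    unfold rho
    fun_prop
  exact h.measurable

theorem zs_BMt {d : ℕ} {V : E d → ℂ} (hV : BM V) (h : E d) : BM (fun x => V (x - h)) := by
  obtain ⟨h1, C, hC⟩ := hV
  exact ⟨h1.comp (measurable_id.sub_const h), C, fun x => hC _⟩

theorem zs_trans_aux {d : ℕ} {V : E d → ℂ} (hV : BM V) (h : E d) (g : ℝ) {z : ℂ}
    (hz : 0 < z.im) (hZ : Zs g z V) : Zs g z (fun x => V (x - h)) := by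
  obtain ⟨u, hu, hu2⟩ := hZ
  refine ⟨compop (fun x => x - h) u, ?_, ?_⟩
  · intro h0
    have h1 := compop_trans_norm h u
    rw [h0, norm_zero] at h1
    exact hu (norm_eq_zero.mp h1.symm)
  · have hres : BM (fun ξ : E d => ((rho ξ : ℂ) - z)⁻¹) := BM_res zs_rho_meas hz.ne'
    have e1 : mulop (fun x => V (x - h)) (compop (fun x => x - h) u) =
        compop (fun x => x - h) (mulop V u) :=
      congrArg (fun T : L2 d →L[ℂ] L2 d => T u) (mulop_trans h hV)
    have e2 : Rz z (compop (fun x => x - h) (mulop V u)) =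
        compop (fun x => x - h) (Rz z (mulop V u)) :=
      congrArg (fun T : L2 d →L[ℂ] L2 d => T (mulop V u)) (Fm_trans h hres)
    rw [e1, e2, ← map_smul, ← map_add, hu2, map_zero]

theorem Zs_trans {d : ℕ} {V : E d → ℂ} (hV : BM V) (h : E d) (g : ℝ) {z : ℂ} (hz : 0 < z.im) :
    Zs g z (fun x => V (x - h)) ↔ Zs g z V := by
  constructor
  · intro h1
    have h2 := zs_trans_aux (zs_BMt hV h) (-h) g hz h1
    have h3 : (fun x => V (x - -h - h)) = V := by
      funext x
      congr 1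
      abel
    rw [h3] at h2
    exact h2
  · exact zs_trans_aux hV h g hz

theorem zs_scale_aux {d : ℕ} {V : E d → ℂ} (hV : BM V) (κ μ : ℝ) (hκ : 0 < κ) (g : ℝ)
    (z : ℂ) (hz : 0 < z.im) (h : Zs (g * μ / κ ^ 2) z V) :
    Zs g ((κ : ℂ) ^ 2 * z) (fun x => (μ : ℂ) * V (κ • x)) := by
  obtain ⟨u, hu, hu2⟩ := h
  obtain ⟨A, hA⟩ : ∃ A : E d ≃L[ℝ] E d, ∀ x, A x = κ • x :=
    ⟨ContinuousLinearEquiv.smulLeft (Units.mk0 κ hκ.ne'), fun x => rfl⟩
  have hAadj : ∀ ξ : E d, ContinuousLinearMap.adjoint (A : E d →L[ℝ] E d) ξ = κ • ξ := by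
    intro ξ
    apply ext_inner_right ℝ
    intro y
    rw [ContinuousLinearMap.adjoint_inner_left]
    show inner ℝ ξ (A y) = inner ℝ (κ • ξ) y
    rw [hA, inner_smul_left, inner_smul_right]
    simp
  have hres : BM (fun ξ : E d => ((rho ξ : ℂ) - z)⁻¹) := BM_res zs_rho_meas hz.ne'
  have hκz : 0 < ((κ : ℂ) ^ 2 * z).im := by
    have : ((κ : ℂ) ^ 2 * z).im = κ ^ 2 * z.im := by
      rw [← Complex.ofReal_pow, Complex.im_ofReal_mul]
    rw [this]
    positivity
  have hres2 : BM (fun ξ : E d => ((rho ξ : ℂ) - (κ : ℂ) ^ 2 * z)⁻¹) :=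
    BM_res zs_rho_meas hκz.ne'
  have hqA : Measure.QuasiMeasurePreserving (fun x : E d => κ • x) volume volume :=
    Measure.quasiMeasurePreserving_smul volume hκ.ne'
  have hqB : Measure.QuasiMeasurePreserving (fun x : E d => κ⁻¹ • x) volume volume :=
    Measure.quasiMeasurePreserving_smul volume (inv_ne_zero hκ.ne')
  have hspec : ∀ w : L2 d, (compop A w : E d → ℂ) =ᵐ[volume] fun x => w (κ • x) := by
    intro w
    have h1 := compop_lin_spec A w
    have h2 : (fun x => w (A x)) = (fun x => w (κ • x)) := by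
      funext x
      rw [hA]
    rw [h2] at h1
    exact h1
  refine ⟨compop A u, ?_, ?_⟩
  · intro h0
    apply hu
    have h1 := hspec u
    rw [h0] at h1
    have h2 : (fun x : E d => u (κ • x)) =ᵐ[volume] fun _ => (0 : ℂ) :=
      h1.symm.trans (Lp.coeFn_zero ℂ 2 volume)
    have h3 := hqB.ae_eq_comp h2
    have h4 : (fun x : E d => u (κ • x)) ∘ (fun x : E d => κ⁻¹ • x) = u := by
      funext x
      show u (κ • κ⁻¹ • x) = u x
      rw [smul_inv_smul₀ hκ.ne']
    rw [h4] at h3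
    exact Lp.eq_zero_iff_ae_eq_zero.mpr h3
  · have hV' : BM (fun x : E d => (μ : ℂ) * V (κ • x)) := by
      obtain ⟨h1, C, hC⟩ := hV
      refine ⟨(h1.comp (measurable_const_smul κ)).const_mul _, |μ| * C, fun x => ?_⟩
      rw [norm_mul, Complex.norm_real, Real.norm_eq_abs]
      exact mul_le_mul_of_nonneg_left (hC _) (abs_nonneg _)
    have e1 : mulop (fun x => (μ : ℂ) * V (κ • x)) (compop A u) =
        (μ : ℂ) • compop A (mulop V u) := by
      apply Lp.ext
      have a1 := mulop_spec hV' (compop A u)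
      have a2 := hspec u
      have a3 := Lp.coeFn_smul (μ : ℂ) (compop A (mulop V u))
      have a4 := hspec (mulop V u)
      have a5 := hqA.ae_eq_comp (mulop_spec hV u)
      filter_upwards [a1, a2, a3, a4, a5] with x b1 b2 b3 b4 b5
      rw [b1, b2, b3, Pi.smul_apply, b4]
      have b6 : (mulop V u : E d → ℂ) (κ • x) = V (κ • x) * u (κ • x) := b5
      rw [b6, smul_eq_mul]
      ring
    have e2 : ∀ w : L2 d, Rz ((κ : ℂ) ^ 2 * z) (compop A w) =
        ((κ : ℂ) ^ 2)⁻¹ • compop A (Rz z w) := by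
      intro w
      have c1 : Rz ((κ : ℂ) ^ 2 * z) (compop A w) = compop A
          (Fm (fun ξ => ((rho (ContinuousLinearMap.adjoint (A : E d →L[ℝ] E d) ξ) : ℂ) -
            (κ : ℂ) ^ 2 * z)⁻¹) w) :=
        congrArg (fun T : L2 d →L[ℂ] L2 d => T w) (Fm_compop_lin A hres2)
      have c2 : (fun ξ : E d => ((rho (ContinuousLinearMap.adjoint (A : E d →L[ℝ] E d) ξ) : ℂ) -
            (κ : ℂ) ^ 2 * z)⁻¹) = fun ξ => ((κ : ℂ) ^ 2)⁻¹ * ((rho ξ : ℂ) - z)⁻¹ := by
        funext ξ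
        rw [hAadj, ← mul_inv]
        congr 1
        unfold rho
        rw [norm_smul, Real.norm_eq_abs, mul_pow, sq_abs]
        push_cast
        ring
      rw [c1, c2, ← Fm_smul hres]
      rw [← map_smul]
      rfl
    rw [e1, map_smul, e2, smul_smul, smul_smul, ← map_smul, ← map_add]
    have e3 : (g : ℂ) * ((μ : ℂ) * ((κ : ℂ) ^ 2)⁻¹) = ((g * μ / κ ^ 2 : ℝ) : ℂ) := by
      push_cast
      rw [div_eq_mul_inv]
      ring
    have e4 : (g : ℂ) * (μ : ℂ) * ((κ : ℂ) ^ 2)⁻¹ = ((g * μ / κ ^ 2 : ℝ) : ℂ) := by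
      rw [← e3]; ring
    first
      | rw [e3, hu2, map_zero]
      | rw [e4, hu2, map_zero]

theorem Zs_scale {d : ℕ} {V : E d → ℂ} (hV : BM V) (κ μ : ℝ) (hκ : 0 < κ) (x0 : E d) (g : ℝ)
    (z : ℂ) (hz : 0 < z.im) (h : Zs (g * μ / κ ^ 2) z V) :
    Zs g ((κ : ℂ) ^ 2 * z) (fun x => (μ : ℂ) * V (κ • (x - x0))) := by
  have h1 := zs_scale_aux hV κ μ hκ g z hz h
  have hκz : 0 < ((κ : ℂ) ^ 2 * z).im := by
    have : ((κ : ℂ) ^ 2 * z).im = κ ^ 2 * z.im := by
      rw [← Complex.ofReal_pow, Complex.im_ofReal_mul]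
    rw [this]
    positivity
  have hV' : BM (fun x : E d => (μ : ℂ) * V (κ • x)) := by
    obtain ⟨h1, C, hC⟩ := hV
    refine ⟨(h1.comp (measurable_const_smul κ)).const_mul _, |μ| * C, fun x => ?_⟩
    rw [norm_mul, Complex.norm_real, Real.norm_eq_abs]
    exact mul_le_mul_of_nonneg_left (hC _) (abs_nonneg _)
  exact (Zs_trans hV' x0 g hκz).mpr h1

end Pool.Agent.Helper41.CE
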