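import Pool.Agent.Helper41.CE.TDefs
import Pool.Agent.Helper41.CE.CU01
import Pool.Agent.Helper41.CE.CU02
import Pool.Agent.Helper41.CE.CU03
import Pool.Agent.Helper41.CE.CU10
import Pool.Agent.Helper41.CE.CU41

/-!
# Semiclassical eigenvalue bounds for Schroedinger operators: definitions
-/

open MeasureTheory Filter Topology Set
open scoped ENNReal NNReal ContDiff

namespace Pool.Agent.Helper41.CE


/-! ## TARGETS: prove these (statements must not be changed; helper lemmas are welcome) -/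

theorem far_res_meas_rho {d : ℕ} : Measurable (rho : E d → ℝ) := by
  unfold rho
  exact (measurable_norm.pow_const 2).const_mul _

theorem far_res {d : ℕ} (hd : 1 ≤ d) {V W : E d → ℂ} (hV : BC V) (hW : BC W) (K : Set ℂ)
    (hK : IsCompact K) (hKi : K ⊆ {z : ℂ | 0 < z.im}) (ε : ℝ) (hε : 0 < ε) :
    ∃ R0 : ℝ, ∀ h : E d, R0 ≤ ‖h‖ → ∀ z ∈ K,
      ‖mulop (fun x => W (x - h)) * (Rz z * mulop V)‖ ≤ ε := by
  obtain ⟨C, hC⟩ := hW.2.1
  have hC0 : 0 ≤ C := (norm_nonneg _).trans (hC 0)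
  have hWn : ∀ h : E d, ‖(mulop (fun x => W (x - h)) : L2 d →L[ℂ] L2 d)‖ ≤ C := by
    intro h
    apply mulop_norm
    · exact ⟨hW.1.comp (measurable_id.sub_const h), C, fun x => hC _⟩
    · exact fun x => hC _
  refine hK.induction_on (p := fun S : Set ℂ => ∃ R0 : ℝ, ∀ h : E d, R0 ≤ ‖h‖ → ∀ z ∈ S,
      ‖mulop (fun x => W (x - h)) * (Rz z * mulop V)‖ ≤ ε) ?_ ?_ ?_ ?_
  · exact ⟨0, fun h _ z hz => absurd hz (Set.notMem_empty z)⟩
  · rintro s t hst ⟨R0, hR⟩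
    exact ⟨R0, fun h hh z hz => hR h hh z (hst hz)⟩
  · rintro s t ⟨R1, hR1⟩ ⟨R2, hR2⟩
    refine ⟨max R1 R2, fun h hh z hz => ?_⟩
    rcases hz with hz | hz
    · exact hR1 h ((le_max_left _ _).trans hh) z hz
    · exact hR2 h ((le_max_right _ _).trans hh) z hz
  · intro z0 hz0
    have him : 0 < z0.im := hKi hz0
    have hopen : IsOpen {z : ℂ | 0 < z.im} := isOpen_lt continuous_const Complex.continuous_im
    have hcont : ContinuousAt (fun z => (Rs rho z : L2 d →L[ℂ] L2 d)) z0 :=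
      ((Rs_diff (d := d) far_res_meas_rho).continuousOn).continuousAt (hopen.mem_nhds him)
    have hlim : Tendsto (fun z => C * (‖(Rs rho z : L2 d →L[ℂ] L2 d) - Rs rho z0‖ *
        ‖(mulop V : L2 d →L[ℂ] L2 d)‖)) (𝓝 z0) (𝓝 0) := by
      have h1 : Tendsto (fun z => (Rs rho z : L2 d →L[ℂ] L2 d) - Rs rho z0) (𝓝 z0) (𝓝 0) := by
        have := hcont.tendsto.sub_const (Rs rho z0 : L2 d →L[ℂ] L2 d)
        simpa using this
      have h2 := (h1.norm.mul_const ‖(mulop V : L2 d →L[ℂ] L2 d)‖).const_mul C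
      simpa using h2
    have hev : ∀ᶠ z in 𝓝 z0, C * (‖(Rs rho z : L2 d →L[ℂ] L2 d) - Rs rho z0‖ *
        ‖(mulop V : L2 d →L[ℂ] L2 d)‖) < ε / 2 := hlim.eventually (gt_mem_nhds (by linarith))
    have hfar := far hd hW (Rz z0 * mulop V) (RV_compact hV him)
    have hev2 : ∀ᶠ h in cocompact (E d), ‖mulop (fun x => W (x - h)) * (Rz z0 * mulop V)‖ < ε / 2 :=
      hfar.eventually (gt_mem_nhds (by linarith))
    rw [← Metric.cobounded_eq_cocompact] at hev2
    obtain ⟨R0, _, hR0⟩ := (hasBasis_cobounded_norm (E := E d)).eventually_iff.1 hev2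
    refine ⟨{z | C * (‖(Rs rho z : L2 d →L[ℂ] L2 d) - Rs rho z0‖ *
        ‖(mulop V : L2 d →L[ℂ] L2 d)‖) < ε / 2}, mem_nhdsWithin_of_mem_nhds hev, R0, ?_⟩
    intro h hh z hz
    have hz' : C * (‖(Rs rho z : L2 d →L[ℂ] L2 d) - Rs rho z0‖ *
        ‖(mulop V : L2 d →L[ℂ] L2 d)‖) < ε / 2 := hz
    have e1 : (mulop (fun x => W (x - h)) * (Rz z * mulop V) : L2 d →L[ℂ] L2 d) =
        mulop (fun x => W (x - h)) * (Rz z0 * mulop V) +
        mulop (fun x => W (x - h)) * ((Rs rho z - Rs rho z0) * mulop V) := by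
      rw [← mul_add, ← add_mul]
      congr 2
      show (Rs rho z : L2 d →L[ℂ] L2 d) = Rs rho z0 + (Rs rho z - Rs rho z0)
      abel
    rw [e1]
    refine (norm_add_le _ _).trans ?_
    have e2 : ‖(mulop (fun x => W (x - h)) * (Rz z0 * mulop V) : L2 d →L[ℂ] L2 d)‖ < ε / 2 :=
      hR0 hh
    have e3 : ‖(mulop (fun x => W (x - h)) * ((Rs rho z - Rs rho z0) * mulop V) :
        L2 d →L[ℂ] L2 d)‖ ≤ C * (‖(Rs rho z : L2 d →L[ℂ] L2 d) - Rs rho z0‖ *
        ‖(mulop V : L2 d →L[ℂ] L2 d)‖) := by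
      refine (norm_mul_le _ _).trans ?_
      refine mul_le_mul (hWn h) (norm_mul_le _ _) (norm_nonneg _) hC0
    linarith

end Pool.Agent.Helper41.CE
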