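import Pool.Agent.Helper41.CE.TDefs
import Pool.Agent.Helper41.CE.CU01
import Pool.Agent.Helper41.CE.CU02
import Pool.Agent.Helper41.CE.CU03
import Pool.Agent.Helper41.CE.CU07
import Pool.Agent.Helper41.CE.CU12
import Pool.Agent.Helper41.CE.CU41
import Pool.Agent.Helper41.CE.CU43

/-!
# Semiclassical eigenvalue bounds for Schroedinger operators: definitions
-/

open MeasureTheory Filter Topology Set
open scoped ENNReal NNReal ContDiff

namespace Pool.Agent.Helper41.CE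


/-! ## TARGETS: prove these (statements must not be changed; helper lemmas are welcome) -/

theorem conj833 {𝔸 : Type*} [Ring 𝔸] [Algebra ℂ 𝔸] (T T' R W Wh Q' : 𝔸) (γ : ℂ)
    (h1 : T * T' = 1) (h2 : T' * T = 1) (h3 : R * T = T * R) (h4 : Wh * T = T * W)
    (h5 : Q' * (1 + γ • (R * W)) = 1) (h6 : (1 + γ • (R * W)) * Q' = 1) :
    (T * Q' * T') * (1 + γ • (R * Wh)) = 1 ∧ (1 + γ • (R * Wh)) * (T * Q' * T') = 1 := by
  have e1 : (1 + γ • (R * Wh)) * T = T * (1 + γ • (R * W)) := by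
    rw [add_mul, mul_add, one_mul, mul_one, smul_mul_assoc, mul_smul_comm, mul_assoc, h4,
      ← mul_assoc, h3, mul_assoc]
  have e2 : (1 + γ • (R * Wh)) = T * (1 + γ • (R * W)) * T' := by
    rw [← e1, mul_assoc, h1, mul_one]
  rw [e2]
  generalize hQ : (1 + γ • (R * W)) = Q at h5 h6 ⊢
  constructor
  · calc (T * Q' * T') * (T * Q * T') = T * Q' * (T' * T) * Q * T' := by noncomm_ring
      _ = T * (Q' * Q) * T' := by rw [h2]; noncomm_ring
      _ = 1 := by rw [h5, mul_one, h1]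
  · calc (T * Q * T') * (T * Q' * T') = T * Q * (T' * T) * Q' * T' := by noncomm_ring
      _ = T * (Q * Q') * T' := by rw [h2]; noncomm_ring
      _ = 1 := by rw [h6, mul_one, h1]

theorem ident833 {𝔸 : Type*} [Ring 𝔸] [Algebra ℂ 𝔸] (R V W : 𝔸) (γ g : ℂ) :
    (1 + γ • (R * (V + W))) - (1 + γ • (R * W)) * (1 + g • (R * V))
      = (γ - g) • (R * V) - (γ * g) • (R * (W * (R * V))) := by
  simp only [mul_add, add_mul, one_mul, mul_one, smul_mul_assoc, mul_smul_comm, smul_smul,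
    sub_smul, smul_add, mul_assoc]
  rw [mul_comm g γ]
  abel

theorem pert833 {𝔸 : Type*} [NormedRing 𝔸] [CompleteSpace 𝔸] (a a' p : 𝔸) (C : ℝ)
    (h1 : a' * a = 1) (h2 : a * a' = 1) (h3 : ‖a'‖ ≤ C) (h4 : C * ‖p‖ ≤ 1 / 2) :
    ∃ b' : 𝔸, b' * (a + p) = 1 ∧ (a + p) * b' = 1 ∧ ‖b'‖ ≤ 2 * C := by
  have hC : 0 ≤ C := (norm_nonneg _).trans h3
  have ht : ‖-(a' * p)‖ < 1 := by
    rw [norm_neg]
    calc ‖a' * p‖ ≤ ‖a'‖ * ‖p‖ := norm_mul_le _ _
      _ ≤ C * ‖p‖ := mul_le_mul_of_nonneg_right h3 (norm_nonneg _)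
      _ < 1 := by linarith
  obtain ⟨u, hu⟩ : ∃ u : 𝔸ˣ, (u : 𝔸) = 1 - -(a' * p) := ⟨Units.oneSub _ ht, rfl⟩
  have e1 : a + p = a * (u : 𝔸) := by
    rw [hu, sub_neg_eq_add, mul_add, mul_one, ← mul_assoc, h2, one_mul]
  have k1 : (((u⁻¹ : 𝔸ˣ) : 𝔸) * a') * (a + p) = 1 := by
    rw [e1]
    calc (((u⁻¹ : 𝔸ˣ) : 𝔸) * a') * (a * (u : 𝔸)) = ((u⁻¹ : 𝔸ˣ) : 𝔸) * (a' * a) * u := by
          noncomm_ring
      _ = 1 := by rw [h1, mul_one, Units.inv_mul]
  have k2 : (a + p) * (((u⁻¹ : 𝔸ˣ) : 𝔸) * a') = 1 := by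
    rw [e1]
    calc (a * (u : 𝔸)) * (((u⁻¹ : 𝔸ˣ) : 𝔸) * a') = a * ((u : 𝔸) * ((u⁻¹ : 𝔸ˣ) : 𝔸)) * a' := by
          noncomm_ring
      _ = 1 := by rw [Units.mul_inv, mul_one, h2]
  generalize hb : (((u⁻¹ : 𝔸ˣ) : 𝔸) * a') = b' at k1 k2
  refine ⟨b', k1, k2, ?_⟩
  have e2 : b' = a' - b' * p * a' := by
    have : b' * a = 1 - b' * p := by
      rw [← k1]; noncomm_ring
    calc b' = b' * (a * a') := by rw [h2, mul_one]
      _ = (b' * a) * a' := by rw [mul_assoc]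
      _ = (1 - b' * p) * a' := by rw [this]
      _ = a' - b' * p * a' := by rw [sub_mul, one_mul]
  have e3 : ‖b'‖ ≤ C + ‖b'‖ * (1 / 2) := by
    calc ‖b'‖ = ‖a' - b' * p * a'‖ := by rw [← e2]
      _ ≤ ‖a'‖ + ‖b' * p * a'‖ := norm_sub_le _ _
      _ ≤ C + ‖b'‖ * ‖p‖ * C := by
          refine add_le_add h3 ?_
          calc ‖b' * p * a'‖ ≤ ‖b' * p‖ * ‖a'‖ := norm_mul_le _ _
            _ ≤ (‖b'‖ * ‖p‖) * C := mul_le_mul (norm_mul_le _ _) h3 (norm_nonneg _) (by positivity)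
      _ = C + ‖b'‖ * (C * ‖p‖) := by ring
      _ ≤ C + ‖b'‖ * (1 / 2) := by
          have := mul_le_mul_of_nonneg_left h4 (norm_nonneg b')
          linarith
  linarith

/-- inverses of a perturbed continuous family of units on a compact set -/
theorem family833 {𝔸 : Type*} [NormedRing 𝔸] [NormedAlgebra ℂ 𝔸] [CompleteSpace 𝔸] (K : Set ℂ)
    (hK : IsCompact K) (F : ℂ → 𝔸) (hF : ContinuousOn F K) (g : ℝ)
    (hu : ∀ z ∈ K, IsUnit (1 + (g : ℂ) • F z)) (g' : ℕ → ℝ) (hg : Tendsto g' atTop (𝓝 g)) :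
    ∃ C : ℝ, ∀ᶠ N in atTop, ∀ z ∈ K, ∃ Q' : 𝔸,
      Q' * (1 + (g' N : ℂ) • F z) = 1 ∧ (1 + (g' N : ℂ) • F z) * Q' = 1 ∧ ‖Q'‖ ≤ C := by
  have hc : ContinuousOn (fun z => Ring.inverse (1 + (g : ℂ) • F z)) K := by
    intro z hz
    have h1 : ContinuousWithinAt (fun z => 1 + (g : ℂ) • F z) K z :=
      continuousWithinAt_const.add ((hF z hz).const_smul _)
    obtain ⟨u, hu'⟩ := hu z hz
    have h2 : ContinuousAt (Ring.inverse : 𝔸 → 𝔸) (1 + (g : ℂ) • F z) := by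
      rw [← hu']
      exact NormedRing.inverse_continuousAt u
    exact Tendsto.comp h2 h1
  obtain ⟨C0, hC0⟩ := hK.exists_bound_of_continuousOn hc
  obtain ⟨C1, hC1⟩ := hK.exists_bound_of_continuousOn hF
  have hpos : 0 < (|C0| + 1) * (|C1| + 1) := by positivity
  refine ⟨2 * (|C0| + 1), ?_⟩
  have hev : ∀ᶠ N in atTop, |g' N - g| < 1 / (2 * ((|C0| + 1) * (|C1| + 1))) := by
    have := (Metric.tendsto_nhds.mp hg) (1 / (2 * ((|C0| + 1) * (|C1| + 1)))) (by positivity)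
    filter_upwards [this] with N hN
    rwa [Real.dist_eq] at hN
  filter_upwards [hev] with N hN z hz
  obtain ⟨h1, h2⟩ : Ring.inverse (1 + (g : ℂ) • F z) * (1 + (g : ℂ) • F z) = 1 ∧
      (1 + (g : ℂ) • F z) * Ring.inverse (1 + (g : ℂ) • F z) = 1 :=
    ⟨Ring.inverse_mul_cancel _ (hu z hz), Ring.mul_inverse_cancel _ (hu z hz)⟩
  have h3 : ‖Ring.inverse (1 + (g : ℂ) • F z)‖ ≤ |C0| + 1 :=
    (hC0 z hz).trans ((le_abs_self _).trans (by linarith))
  have h4 : (|C0| + 1) * ‖((g' N - g : ℝ) : ℂ) • F z‖ ≤ 1 / 2 := by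
    rw [norm_smul, Complex.norm_real, Real.norm_eq_abs]
    have h5 : ‖F z‖ ≤ |C1| + 1 := (hC1 z hz).trans ((le_abs_self _).trans (by linarith))
    have h6 : |g' N - g| * ‖F z‖ ≤ 1 / (2 * ((|C0| + 1) * (|C1| + 1))) * (|C1| + 1) :=
      mul_le_mul hN.le h5 (norm_nonneg _) (by positivity)
    calc (|C0| + 1) * (|g' N - g| * ‖F z‖)
        ≤ (|C0| + 1) * (1 / (2 * ((|C0| + 1) * (|C1| + 1))) * (|C1| + 1)) :=
          mul_le_mul_of_nonneg_left h6 (by positivity)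
      _ = 1 / 2 := by
          have : (|C0| + 1) ≠ 0 := by positivity
          have : (|C1| + 1) ≠ 0 := by positivity
          field_simp
  obtain ⟨b, hb1, hb2, hb3⟩ := pert833 _ _ _ _ h1 h2 h3 h4
  have e : (1 + (g : ℂ) • F z) + ((g' N - g : ℝ) : ℂ) • F z = 1 + (g' N : ℂ) • F z := by
    rw [add_assoc, ← add_smul]
    congr 2
    push_cast
    ring
  rw [e] at hb1 hb2
  exact ⟨b, hb1, hb2, hb3⟩

theorem rho_meas833 {d : ℕ} : Measurable (rho : E d → ℝ) := by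
  unfold rho
  fun_prop

theorem Rz_diff833 {d : ℕ} : DifferentiableOn ℂ (fun z => (Rz z : L2 d →L[ℂ] L2 d))
    {z : ℂ | 0 < z.im} := Rs_diff rho_meas833

theorem BC_shift833 {d : ℕ} {W : E d → ℂ} (hW : BC W) (h : E d) : BC (fun x => W (x - h)) := by
  obtain ⟨h1, ⟨C, hC⟩, ⟨R, hR⟩⟩ := hW
  refine ⟨h1.comp (measurable_id.sub_const h), ⟨C, fun x => hC _⟩, ⟨R + ‖h‖, fun x hx => hR _ ?_⟩⟩
  have := norm_sub_norm_le x h
  linarith

theorem BC_add833 {d : ℕ} {V W : E d → ℂ} (hV : BC V) (hW : BC W) : BC (fun x => V x + W x) := by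
  obtain ⟨h1, ⟨C, hC⟩, ⟨R, hR⟩⟩ := hV
  obtain ⟨h1', ⟨C', hC'⟩, ⟨R', hR'⟩⟩ := hW
  refine ⟨h1.add h1', ⟨C + C', fun x => (norm_add_le _ _).trans (add_le_add (hC x) (hC' x))⟩,
    ⟨max R R', fun x hx => ?_⟩⟩
  show V x + W x = 0
  rw [hR x ((le_max_left _ _).trans_lt hx), hR' x ((le_max_right _ _).trans_lt hx), add_zero]

theorem BM_Rz833 {d : ℕ} {z : ℂ} (hz : 0 < z.im) : BM (fun ξ : E d => ((rho ξ : ℂ) - z)⁻¹) :=
  BM_res rho_meas833 hz.ne'

theorem compop_norm_le833 {d : ℕ} (h : E d) :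
    ‖(compop (fun x => x - h) : L2 d →L[ℂ] L2 d)‖ ≤ 1 := by
  refine ContinuousLinearMap.opNorm_le_bound _ zero_le_one (fun u => ?_)
  rw [compop_trans_norm, one_mul]

theorem compop_inv833 {d : ℕ} (h : E d) :
    (compop (fun x => x - h) : L2 d →L[ℂ] L2 d) * compop (fun x => x - (-h)) = 1 := by
  rw [compop_trans_add, add_neg_cancel]
  exact compop_trans_zero d

theorem compop_inv833' {d : ℕ} (h : E d) :
    (compop (fun x => x - (-h)) : L2 d →L[ℂ] L2 d) * compop (fun x => x - h) = 1 := by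
  rw [compop_trans_add, neg_add_cancel]
  exact compop_trans_zero d

/-- the inverse of the far away part -/
theorem far_inv833 {d : ℕ} {W : E d → ℂ} (hW : BC W) {z : ℂ} (hz : 0 < z.im) (γ : ℂ) (h : E d)
    (Q' : L2 d →L[ℂ] L2 d) (C : ℝ)
    (h1 : Q' * (1 + γ • (Rz z * mulop W)) = 1) (h2 : (1 + γ • (Rz z * mulop W)) * Q' = 1)
    (h3 : ‖Q'‖ ≤ C) :
    ∃ A' : L2 d →L[ℂ] L2 d, A' * (1 + γ • (Rz z * mulop (fun x => W (x - h)))) = 1 ∧
      (1 + γ • (Rz z * mulop (fun x => W (x - h)))) * A' = 1 ∧ ‖A'‖ ≤ C := by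
  have k1 : (Rz z : L2 d →L[ℂ] L2 d) * compop (fun x => x - h) = compop (fun x => x - h) * Rz z :=
    Fm_trans h (BM_Rz833 hz)
  have k2 : mulop (fun x => W (x - h)) * compop (fun x => x - h)
      = compop (fun x => x - h) * mulop W := mulop_trans h (BM_of_BC hW)
  have k3 := conj833 (compop (fun x => x - h) : L2 d →L[ℂ] L2 d) (compop (fun x => x - (-h)))
    (Rz z) (mulop W) (mulop (fun x => W (x - h))) Q' γ (compop_inv833 h) (compop_inv833' h)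
    k1 k2 h1 h2
  refine ⟨_, k3.1, k3.2, ?_⟩
  have hC : 0 ≤ C := (norm_nonneg _).trans h3
  calc ‖(compop (fun x => x - h) : L2 d →L[ℂ] L2 d) * Q' * compop (fun x => x - (-h))‖
      ≤ ‖(compop (fun x => x - h) : L2 d →L[ℂ] L2 d) * Q'‖ * ‖(compop (fun x => x - (-h)) : L2 d →L[ℂ] L2 d)‖ :=
        norm_mul_le _ _
    _ ≤ (‖(compop (fun x => x - h) : L2 d →L[ℂ] L2 d)‖ * ‖Q'‖) * ‖(compop (fun x => x - (-h)) : L2 d →L[ℂ] L2 d)‖ :=
        mul_le_mul_of_nonneg_right (norm_mul_le _ _) (norm_nonneg _)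
    _ ≤ (1 * C) * 1 :=
        mul_le_mul (mul_le_mul (compop_norm_le833 h) h3 (norm_nonneg _) zero_le_one)
          (compop_norm_le833 (-h)) (norm_nonneg _) (by positivity)
    _ = C := by ring

theorem bound833 {𝔸 : Type*} [NormedRing 𝔸] [NormedAlgebra ℂ 𝔸] (R V W : 𝔸) (γ g : ℝ)
    (G C δ : ℝ) (hγ : |γ| ≤ G) (hg : |g| ≤ G) (hR : ‖R‖ ≤ C) (h : ‖W * (R * V)‖ ≤ δ) :
    ‖(1 + (γ : ℂ) • (R * (V + W))) - (1 + (γ : ℂ) • (R * W)) * (1 + (g : ℂ) • (R * V))‖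
      ≤ |γ - g| * (C * ‖V‖) + G * G * (C * δ) := by
  have hG : 0 ≤ G := (abs_nonneg _).trans hγ
  have hC : 0 ≤ C := (norm_nonneg _).trans hR
  rw [ident833]
  refine (norm_sub_le _ _).trans (add_le_add ?_ ?_)
  · rw [norm_smul, ← Complex.ofReal_sub, Complex.norm_real, Real.norm_eq_abs]
    refine mul_le_mul_of_nonneg_left ?_ (abs_nonneg _)
    exact (norm_mul_le _ _).trans (mul_le_mul_of_nonneg_right hR (norm_nonneg _))
  · rw [norm_smul, ← Complex.ofReal_mul, Complex.norm_real, Real.norm_eq_abs, abs_mul]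
    refine mul_le_mul (mul_le_mul hγ hg (abs_nonneg _) hG) ?_ (norm_nonneg _) (by positivity)
    exact (norm_mul_le _ _).trans (mul_le_mul hR h (norm_nonneg _) hC)

theorem sup1 {d : ℕ} (hd : 1 ≤ d) {V W : E d → ℂ} (hV : BC V) (hW : BC W) (g1 g2 : ℝ)
    (hg1 : 0 < g1) (hg2 : g1 ≤ g2) (c : ℂ) (r r' : ℝ) (hr : r < r')
    (hb : Metric.closedBall c r' ⊆ {z : ℂ | 0 < z.im})
    (hP : ∀ g ∈ Icc g1 g2, ∃ z ∈ Metric.closedBall c r, Zs g z V) :
    ∃ R0 : ℝ, ∀ h : E d, R0 ≤ ‖h‖ → ∀ g ∈ Icc g1 g2, ∃ z ∈ Metric.closedBall c r',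
      Zs g z (fun x => V x + W (x - h)) := by
  by_contra hcon
  push Not at hcon
  choose hh hh1 gg hgg hno using fun N : ℕ => hcon N
  obtain ⟨g, hg, ph, hph, hlim⟩ := isCompact_Icc.tendsto_subseq hgg
  obtain ⟨z0, hz0, hZ0⟩ := hP g hg
  have hz0c : dist z0 c ≤ r := hz0
  have hsub0 : Metric.closedBall c r ⊆ {z : ℂ | 0 < z.im} :=
    (Metric.closedBall_subset_closedBall hr.le).trans hb
  have him0 : 0 < z0.im := hsub0 hz0
  have hiso := (Zs_isolated hV g him0).and (Zs_isolated hW g him0)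
  rw [eventually_nhdsWithin_iff, Metric.eventually_nhds_iff] at hiso
  obtain ⟨ε0, hε0, hiso⟩ := hiso
  obtain ⟨ρ, hρ, hρ1, hρ2⟩ : ∃ ρ : ℝ, 0 < ρ ∧ ρ < ε0 ∧ ρ ≤ r' - r :=
    ⟨min (ε0 / 2) (r' - r), lt_min (by linarith) (by linarith),
      (min_le_left _ _).trans_lt (by linarith), min_le_right _ _⟩
  have hball : Metric.closedBall z0 ρ ⊆ Metric.closedBall c r' := by
    intro z hz
    rw [Metric.mem_closedBall] at hz ⊢
    linarith [dist_triangle z z0 c]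
  have hball2 : Metric.closedBall z0 ρ ⊆ {z : ℂ | 0 < z.im} := hball.trans hb
  have hsph : Metric.sphere z0 ρ ⊆ {z : ℂ | 0 < z.im} :=
    Metric.sphere_subset_closedBall.trans hball2
  have hunit : ∀ z ∈ Metric.sphere z0 ρ,
      IsUnit (1 + (g : ℂ) • ((Rz z : L2 d →L[ℂ] L2 d) * mulop V)) ∧
      IsUnit (1 + (g : ℂ) • ((Rz z : L2 d →L[ℂ] L2 d) * mulop W)) := by
    intro z hz
    have hz' : dist z z0 = ρ := hz
    refine hiso (by rw [hz']; exact hρ1) ?_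
    rintro rfl
    rw [dist_self] at hz'
    exact hρ.ne hz'
  have hΩ : IsOpen {z : ℂ | 0 < z.im} := isOpen_lt continuous_const Complex.continuous_im
  -- differentiability
  have hdiff : ∀ (γ : ℂ) (m : L2 d →L[ℂ] L2 d),
      DifferentiableOn ℂ (fun z => 1 + γ • ((Rz z : L2 d →L[ℂ] L2 d) * m)) {z : ℂ | 0 < z.im} := by
    intro γ m
    exact (differentiableOn_const _).add
      ((Rz_diff833.mul (differentiableOn_const m)).const_smul γ)
  have hdiff2 : ∀ (m : L2 d →L[ℂ] L2 d),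
      DifferentiableOn ℂ (fun z => ((Rz z : L2 d →L[ℂ] L2 d) * m)) {z : ℂ | 0 < z.im} := by
    intro m
    exact Rz_diff833.mul (differentiableOn_const m)
  -- uniform inverses
  obtain ⟨C, hC⟩ := family833 (Metric.sphere z0 ρ) (isCompact_sphere z0 ρ)
    (fun z => (Rz z : L2 d →L[ℂ] L2 d) * mulop W) ((hdiff2 (mulop W)).continuousOn.mono hsph) g
    (fun z hz => (hunit z hz).2) (fun N => gg (ph N)) hlim
  -- bounds on the resolvent
  obtain ⟨C2, hC2⟩ := (isCompact_closedBall z0 ρ).exists_bound_of_continuousOn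
    (Rz_diff833 (d := d).continuousOn.mono hball2)
  have hC20 : 0 ≤ C2 := (norm_nonneg _).trans (hC2 z0 (Metric.mem_closedBall_self hρ.le))
  have hgb : ∀ γ ∈ Icc g1 g2, |γ| ≤ g2 := by
    intro γ hγ
    rw [abs_of_pos (hg1.trans_le hγ.1)]
    exact hγ.2
  have hg20 : 0 < g2 := hg1.trans_le hg2
  have hmul : ∀ N : ℕ, mulop (fun x => V x + W (x - hh (ph N)))
      = mulop V + mulop (fun x => W (x - hh (ph N))) := by
    intro N
    exact (mulop_add (BM_of_BC hV) (BM_of_BC (BC_shift833 hW (hh (ph N))))).symm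
  have hfin := persist (X := L2 d) (atTop : Filter ℕ) {z : ℂ | 0 < z.im} hΩ z0 ρ hρ hball2
    (fun N z => 1 + ((gg (ph N) : ℝ) : ℂ) •
      ((Rz z : L2 d →L[ℂ] L2 d) * mulop (fun x => V x + W (x - hh (ph N)))))
    (fun N z => 1 + ((gg (ph N) : ℝ) : ℂ) •
      ((Rz z : L2 d →L[ℂ] L2 d) * mulop (fun x => W (x - hh (ph N)))))
    (fun z => 1 + (g : ℂ) • ((Rz z : L2 d →L[ℂ] L2 d) * mulop V))
    (Eventually.of_forall fun N => hdiff _ _)
    ((hdiff (g : ℂ) (mulop V)).continuousOn.mono hsph)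
    (fun z hz => (hunit z hz).1) C ?_ ?_ ?_
  · obtain ⟨N, z, hz, hzu⟩ := hfin.exists
    have hzi : 0 < z.im := hball2 hz
    refine hno (ph N) z (hball hz) ?_
    rw [Zs_iff (BC_add833 hV (BC_shift833 hW (hh (ph N)))) (gg (ph N)) hzi]
    exact hzu
  · filter_upwards [hC] with N hN z hz
    obtain ⟨Q', q1, q2, q3⟩ := hN z hz
    exact far_inv833 hW (hsph hz) _ (hh (ph N)) Q' C q1 q2 q3
  · intro ε hε
    have hδ : 0 < ε / (2 * (g2 * g2 * (C2 + 1))) := by positivity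
    obtain ⟨R0, hR0⟩ := far_res hd hV hW (Metric.closedBall z0 ρ) (isCompact_closedBall z0 ρ)
      hball2 (ε / (2 * (g2 * g2 * (C2 + 1)))) hδ
    have hev1 : ∀ᶠ N in (atTop : Filter ℕ), R0 ≤ ‖hh (ph N)‖ := by
      obtain ⟨n0, hn0⟩ := exists_nat_ge R0
      filter_upwards [eventually_ge_atTop n0] with N hN
      have h1 : (n0 : ℝ) ≤ N := by exact_mod_cast hN
      have h2 : (N : ℝ) ≤ ph N := by exact_mod_cast hph.id_le N
      linarith [hh1 (ph N)]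
    have hη : 0 < ε / (2 * ((C2 + 1) * (‖(mulop V : L2 d →L[ℂ] L2 d)‖ + 1))) := by positivity
    have hev2 : ∀ᶠ N in (atTop : Filter ℕ),
        |gg (ph N) - g| < ε / (2 * ((C2 + 1) * (‖(mulop V : L2 d →L[ℂ] L2 d)‖ + 1))) := by
      have := (Metric.tendsto_nhds.mp hlim) _ hη
      filter_upwards [this] with N hN
      rwa [Real.dist_eq] at hN
    filter_upwards [hev1, hev2] with N hN1 hN2 z hz
    have hfar := hR0 (hh (ph N)) hN1 z hz
    rw [hmul N]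
    refine (bound833 (Rz z : L2 d →L[ℂ] L2 d) (mulop V) (mulop (fun x => W (x - hh (ph N))))
      (gg (ph N)) g g2 C2 _ (hgb _ (hgg _)) (hgb _ hg) (hC2 z hz) hfar).trans ?_
    have t1 : |gg (ph N) - g| * (C2 * ‖(mulop V : L2 d →L[ℂ] L2 d)‖) ≤ ε / 2 := by
      calc |gg (ph N) - g| * (C2 * ‖(mulop V : L2 d →L[ℂ] L2 d)‖)
          ≤ (ε / (2 * ((C2 + 1) * (‖(mulop V : L2 d →L[ℂ] L2 d)‖ + 1)))) *
            ((C2 + 1) * (‖(mulop V : L2 d →L[ℂ] L2 d)‖ + 1)) := by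
            refine mul_le_mul hN2.le ?_ (by positivity) hη.le
            exact mul_le_mul (by linarith) (by linarith) (norm_nonneg _) (by linarith)
        _ = ε / 2 := by
            have a1 : C2 + 1 ≠ 0 := by positivity
            have a2 : ‖(mulop V : L2 d →L[ℂ] L2 d)‖ + 1 ≠ 0 := by positivity
            field_simp
    have t2 : g2 * g2 * (C2 * (ε / (2 * (g2 * g2 * (C2 + 1))))) ≤ ε / 2 := by
      calc g2 * g2 * (C2 * (ε / (2 * (g2 * g2 * (C2 + 1)))))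
          ≤ g2 * g2 * ((C2 + 1) * (ε / (2 * (g2 * g2 * (C2 + 1))))) := by
            refine mul_le_mul_of_nonneg_left ?_ (by positivity)
            exact mul_le_mul_of_nonneg_right (by linarith) hδ.le
        _ = ε / 2 := by
            have a1 : C2 + 1 ≠ 0 := by positivity
            have a2 : g2 ≠ 0 := hg20.ne'
            field_simp
    linarith
  · obtain ⟨u, hu, hu'⟩ := hZ0
    exact ⟨u, hu, hu'⟩

end Pool.Agent.Helper41.CE
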