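import Pool.Agent.Helper41.CE.TDefs
import Pool.Agent.Helper41.CE.CU01
import Pool.Agent.Helper41.CE.CU42
import Pool.Agent.Helper41.CE.CU44

/-!
# Semiclassical eigenvalue bounds for Schroedinger operators: definitions
-/

open MeasureTheory Filter Topology Set
open scoped ENNReal NNReal ContDiff

namespace Pool.Agent.Helper41.CE


theorem plBC_add {d : ℕ} {V W : E d → ℂ} (hV : BC V) (hW : BC W) : BC (fun x => V x + W x) := by
  obtain ⟨m1, ⟨C1, h1⟩, R1, k1⟩ := hV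
  obtain ⟨m2, ⟨C2, h2⟩, R2, k2⟩ := hW
  refine ⟨m1.add m2, ⟨C1 + C2, fun x => (norm_add_le _ _).trans (add_le_add (h1 x) (h2 x))⟩,
    max R1 R2, fun x hx => ?_⟩
  show V x + W x = 0
  rw [k1 x ((le_max_left _ _).trans_lt hx), k2 x ((le_max_right _ _).trans_lt hx), add_zero]

theorem plBC_zero {d : ℕ} : BC (fun _ : E d => (0 : ℂ)) :=
  ⟨measurable_const, ⟨0, fun _ => by simp⟩, 0, fun _ _ => rfl⟩

theorem plBC_trans {d : ℕ} {V : E d → ℂ} (hV : BC V) (h : E d) : BC (fun x => V (x - h)) := by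
  obtain ⟨m1, ⟨C1, h1⟩, R1, k1⟩ := hV
  refine ⟨m1.comp (measurable_sub_const h), ⟨C1, fun x => h1 _⟩, R1 + ‖h‖, fun x hx => ?_⟩
  apply k1
  have := norm_sub_norm_le x h
  linarith

theorem plBC_sum {d : ℕ} (W : ℕ → E d → ℂ) (hW : ∀ k, BC (W k)) (h : ℕ → E d) (m : ℕ) :
    BC (fun x => ∑ j ∈ Finset.range m, W j (x - h j)) := by
  induction m with
  | zero => simpa using plBC_zero
  | succ m ih =>
    simp only [Finset.sum_range_succ]
    exact plBC_add ih (plBC_trans (hW m) (h m))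

theorem pl_large {d : ℕ} (hd : 1 ≤ d) (T : ℝ) : ∃ v : E d, T ≤ ‖v‖ := by
  refine ⟨EuclideanSpace.single (⟨0, hd⟩ : Fin d) |T|, ?_⟩
  rw [PiLp.norm_single]
  simp only [Real.norm_eq_abs, abs_abs]
  exact le_abs_self T

/-- the intermediate radii -/
noncomputable def plRad (r r' : ℕ → ℝ) (k m : ℕ) : ℝ := r' k - (r' k - r k) * (1 / 2) ^ (m + 1)

theorem plRad_lt (r r' : ℕ → ℝ) (hr : ∀ k, r k < r' k) (k m : ℕ) :
    plRad r r' k m < plRad r r' k (m + 1) := by
  unfold plRad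
  have h1 : (0 : ℝ) < (1 / 2) ^ (m + 1) := by positivity
  have h2 : ((1 : ℝ) / 2) ^ (m + 1 + 1) = (1 / 2) ^ (m + 1) * (1 / 2) := pow_succ _ _
  rw [h2]
  nlinarith [hr k, mul_pos (sub_pos.2 (hr k)) h1]

theorem plRad_lt' (r r' : ℕ → ℝ) (hr : ∀ k, r k < r' k) (k m : ℕ) : plRad r r' k m < r' k := by
  unfold plRad
  have h1 : (0 : ℝ) < (1 / 2) ^ (m + 1) := by positivity
  nlinarith [mul_pos (sub_pos.2 (hr k)) h1]

theorem lt_plRad (r r' : ℕ → ℝ) (hr : ∀ k, r k < r' k) (k m : ℕ) : r k < plRad r r' k m := by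
  unfold plRad
  have h1 : ((1 : ℝ) / 2) ^ (m + 1) < 1 := pow_lt_one₀ (by norm_num) (by norm_num) (by omega)
  nlinarith [mul_pos (sub_pos.2 (hr k)) (sub_pos.2 h1)]

/-- the induction statement -/
def plQ {d : ℕ} (W : ℕ → E d → ℂ) (g1 g2 : ℕ → ℝ) (c : ℕ → ℂ) (r r' : ℕ → ℝ) (m : ℕ)
    (h : ℕ → E d) : Prop :=
  (∀ k, k < m → ∀ x, ‖x‖ ≤ (k : ℝ) → W k (x - h k) = 0) ∧
  (∀ j k, j < k → k < m → ∀ x, W j (x - h j) = 0 ∨ W k (x - h k) = 0) ∧
  (∀ k, k < m → ∀ g ∈ Icc (g1 k) (g2 k), ∃ z ∈ Metric.closedBall (c k) (plRad r r' k m),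
    Zs g z (fun x => ∑ j ∈ Finset.range m, W j (x - h j)))

theorem pl_step {d : ℕ} (hd : 1 ≤ d) (W : ℕ → E d → ℂ) (hW : ∀ k, BC (W k)) (g1 g2 : ℕ → ℝ)
    (hg1 : ∀ k, 0 < g1 k) (hg2 : ∀ k, g1 k ≤ g2 k) (c : ℕ → ℂ) (r r' : ℕ → ℝ)
    (hr : ∀ k, r k < r' k) (hb : ∀ k, Metric.closedBall (c k) (r' k) ⊆ {z : ℂ | 0 < z.im})
    (hP : ∀ k, ∀ g ∈ Icc (g1 k) (g2 k), ∃ z ∈ Metric.closedBall (c k) (r k), Zs g z (W k))
    (m : ℕ) (h : ℕ → E d) (hQ : plQ W g1 g2 c r r' m h) :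
    ∃ h' : ℕ → E d, plQ W g1 g2 c r r' (m + 1) h' ∧ ∀ k, k < m → h' k = h k := by
  obtain ⟨q1, q2, q3⟩ := hQ
  have hS := plBC_sum W hW h m
  have hbr : ∀ k, Metric.closedBall (c k) (plRad r r' k (m + 1)) ⊆ {z : ℂ | 0 < z.im} := fun k =>
    (Metric.closedBall_subset_closedBall (plRad_lt' r r' hr k (m + 1)).le).trans (hb k)
  have hex : ∀ k, k < m → ∃ R0 : ℝ, ∀ v : E d, R0 ≤ ‖v‖ → ∀ g ∈ Icc (g1 k) (g2 k),
      ∃ z ∈ Metric.closedBall (c k) (plRad r r' k (m + 1)),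
        Zs g z (fun x => (∑ j ∈ Finset.range m, W j (x - h j)) + W m (x - v)) := fun k hk =>
    sup1 hd hS (hW m) (g1 k) (g2 k) (hg1 k) (hg2 k) (c k) _ _ (plRad_lt r r' hr k m) (hbr k)
      (q3 k hk)
  choose! R0 hR0 using hex
  obtain ⟨R1, hR1⟩ := sup1 hd (hW m) hS (g1 m) (g2 m) (hg1 m) (hg2 m) (c m) _ _
    (lt_plRad r r' hr m (m + 1)) (hbr m) (hP m)
  have hsup : ∀ k, ∃ B : ℝ, ∀ x, B < ‖x‖ → W k x = 0 := fun k => (hW k).2.2
  choose B hB using hsup
  obtain ⟨v, hv⟩ := pl_large (d := d) hd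
    ((∑ k ∈ Finset.range m, (|R0 k| + |B k| + ‖h k‖)) + |B m| + |R1| + (m + 1))
  have hsumnn : 0 ≤ ∑ k ∈ Finset.range m, (|R0 k| + |B k| + ‖h k‖) :=
    Finset.sum_nonneg fun k _ => by positivity
  have hone : ∀ k, k < m → |R0 k| + |B k| + ‖h k‖ ≤
      ∑ k ∈ Finset.range m, (|R0 k| + |B k| + ‖h k‖) := fun k hk =>
    Finset.single_le_sum (f := fun k => |R0 k| + |B k| + ‖h k‖) (fun _ _ => by positivity)
      (Finset.mem_range.2 hk)
  have hm0 : (0 : ℝ) ≤ m := Nat.cast_nonneg m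
  have hupd : ∀ k, k < m → Function.update h m v k = h k := fun k hk =>
    Function.update_of_ne (by omega) _ _
  have hsumeq : ∀ x : E d, ∑ j ∈ Finset.range (m + 1), W j (x - Function.update h m v j) =
      (∑ j ∈ Finset.range m, W j (x - h j)) + W m (x - v) := by
    intro x
    rw [Finset.sum_range_succ, Function.update_self]
    congr 1
    apply Finset.sum_congr rfl
    intro j hj
    rw [hupd j (Finset.mem_range.1 hj)]
  have hfar : ∀ x : E d, ‖x‖ + |B m| < ‖v‖ → W m (x - v) = 0 := by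
    intro x hx
    apply hB
    have h1 := norm_sub_norm_le v x
    rw [norm_sub_rev] at h1
    linarith [le_abs_self (B m)]
  refine ⟨Function.update h m v, ⟨?_, ?_, ?_⟩, hupd⟩
  · intro k hk x hx
    rcases Nat.lt_succ_iff_lt_or_eq.1 hk with hk' | rfl
    · rw [hupd k hk']
      exact q1 k hk' x hx
    · rw [Function.update_self]
      apply hfar
      have := abs_nonneg R1
      linarith
  · intro j k hjk hk x
    rcases Nat.lt_succ_iff_lt_or_eq.1 hk with hk' | rfl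
    · rw [hupd k hk', hupd j (hjk.trans hk')]
      exact q2 j k hjk hk' x
    · rw [Function.update_self, hupd j hjk]
      by_cases hx : B j < ‖x - h j‖
      · exact Or.inl (hB j _ hx)
      · right
        apply hfar
        rw [not_lt] at hx
        have h2 := norm_sub_norm_le x (h j)
        have h3 := hone j hjk
        have h4 := le_abs_self (B j)
        have h5 := abs_nonneg (R0 j)
        have h6 := abs_nonneg R1
        linarith
  · intro k hk g hg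
    simp only [hsumeq]
    rcases Nat.lt_succ_iff_lt_or_eq.1 hk with hk' | rfl
    · apply hR0 k hk' v _ g hg
      have h3 := hone k hk'
      have h4 := le_abs_self (R0 k)
      have h5 := abs_nonneg (B k)
      have h6 := abs_nonneg R1
      have h7 := abs_nonneg (B m)
      have h8 := norm_nonneg (h k)
      linarith
    · obtain ⟨z, hz, hzs⟩ := hR1 (-v) (by
        rw [norm_neg]
        have h4 := le_abs_self R1
        have h5 := abs_nonneg (B k)
        linarith) g hg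
      refine ⟨z, hz, ?_⟩
      have hzim : 0 < z.im := hbr k hz
      have hBM : BM (fun x => W k x + ∑ j ∈ Finset.range k, W j (x - -v - h j)) :=
        BM_of_BC (plBC_add (hW k) (plBC_trans hS (-v)))
      have h9 := (Zs_trans hBM v g hzim).2 hzs
      have h10 : (fun x : E d => (fun x => W k x + ∑ j ∈ Finset.range k, W j (x - -v - h j)) (x - v))
          = fun x => (∑ j ∈ Finset.range k, W j (x - h j)) + W k (x - v) := by
        funext x
        simp only [sub_neg_eq_add, sub_add_cancel]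
        rw [add_comm]
      rw [h10] at h9
      exact h9

/-! ## TARGETS: prove these (statements must not be changed; helper lemmas are welcome) -/

theorem place {d : ℕ} (hd : 1 ≤ d) (W : ℕ → E d → ℂ) (hW : ∀ k, BC (W k)) (g1 g2 : ℕ → ℝ)
    (hg1 : ∀ k, 0 < g1 k) (hg2 : ∀ k, g1 k ≤ g2 k) (c : ℕ → ℂ) (r r' : ℕ → ℝ)
    (hr : ∀ k, r k < r' k) (hb : ∀ k, Metric.closedBall (c k) (r' k) ⊆ {z : ℂ | 0 < z.im})
    (hP : ∀ k, ∀ g ∈ Icc (g1 k) (g2 k), ∃ z ∈ Metric.closedBall (c k) (r k), Zs g z (W k)) :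
    ∃ h : ℕ → E d,
      (∀ R : ℝ, ∃ K : ℕ, ∀ k, K ≤ k → ∀ x, ‖x‖ ≤ R → W k (x - h k) = 0) ∧
      (∀ j k, j ≠ k → ∀ x, W j (x - h j) = 0 ∨ W k (x - h k) = 0) ∧
      ∀ k m, k ≤ m → ∀ g ∈ Icc (g1 k) (g2 k), ∃ z ∈ Metric.closedBall (c k) (r' k),
        Zs g z (fun x => ∑ j ∈ Finset.range (m + 1), W j (x - h j)) := by
  have step := pl_step hd W hW g1 g2 hg1 hg2 c r r' hr hb hP
  have h0 : plQ W g1 g2 c r r' 0 (fun _ => 0) :=
    ⟨fun k hk => absurd hk (Nat.not_lt_zero _), fun j k _ hk => absurd hk (Nat.not_lt_zero _),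
      fun k hk => absurd hk (Nat.not_lt_zero _)⟩
  obtain ⟨F, hF⟩ : ∃ F : ∀ m : ℕ, {h : ℕ → E d // plQ W g1 g2 c r r' m h},
      ∀ m k, k < m → (F (m + 1)).1 k = (F m).1 k := by
    choose st hst1 hst2 using step
    let G0 : ∀ m : ℕ, {h : ℕ → E d // plQ W g1 g2 c r r' m h} := fun m =>
      Nat.rec ⟨_, h0⟩ (fun m ih => ⟨st m ih.1 ih.2, hst1 m ih.1 ih.2⟩) m
    exact ⟨G0, fun m k hk => hst2 m (G0 m).1 (G0 m).2 k hk⟩
  have hagree : ∀ m k, k < m → (F m).1 k = (F (k + 1)).1 k := by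
    intro m
    induction m with
    | zero => intro k hk; exact absurd hk (Nat.not_lt_zero _)
    | succ m ih =>
      intro k hk
      rcases Nat.lt_succ_iff_lt_or_eq.1 hk with hk' | rfl
      · rw [hF m k hk', ih k hk']
      · rfl
  refine ⟨fun k => (F (k + 1)).1 k, ?_, ?_, ?_⟩
  · intro R
    obtain ⟨K, hK⟩ := exists_nat_ge R
    refine ⟨K, fun k hk x hx => ?_⟩
    apply (F (k + 1)).2.1 k (Nat.lt_succ_self k) x
    have : (K : ℝ) ≤ k := by exact_mod_cast hk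
    linarith
  · have key : ∀ j k, j < k → ∀ x, W j (x - (F (j + 1)).1 j) = 0 ∨ W k (x - (F (k + 1)).1 k) = 0 := by
      intro j k hjk x
      have := (F (k + 1)).2.2.1 j k hjk (Nat.lt_succ_self k) x
      rw [hagree (k + 1) j (hjk.trans (Nat.lt_succ_self k))] at this
      exact this
    intro j k hjk x
    rcases lt_or_gt_of_ne hjk with h | h
    · exact key j k h x
    · exact (key k j h x).symm
  · intro k m hkm g hg
    obtain ⟨z, hz, hzs⟩ := (F (m + 1)).2.2.2 k (Nat.lt_succ_of_le hkm) g hg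
    refine ⟨z, Metric.closedBall_subset_closedBall (plRad_lt' r r' hr k (m + 1)).le hz, ?_⟩
    have e : (fun x : E d => ∑ j ∈ Finset.range (m + 1), W j (x - (F (m + 1)).1 j)) =
        fun x => ∑ j ∈ Finset.range (m + 1), W j (x - (F (j + 1)).1 j) := by
      funext x
      apply Finset.sum_congr rfl
      intro j hj
      rw [hagree (m + 1) j (Finset.mem_range.1 hj)]
    rw [e] at hzs
    exact hzs

end Pool.Agent.Helper41.CE
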