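import Pool.Agent.Helper41.CE.TDefs
import Pool.Agent.Helper41.CE.CU01
import Pool.Agent.Helper41.CE.CU02

/-!
# Semiclassical eigenvalue bounds for Schroedinger operators: definitions
-/

open MeasureTheory Filter Topology Set
open scoped ENNReal NNReal ContDiff

namespace Pool.Agent.Helper41.CE


/-! ## TARGETS: prove these (statements must not be changed; helper lemmas are welcome) -/

theorem rho_nonneg' {d : ℕ} (ξ : E d) : 0 ≤ rho ξ := by unfold rho; positivity

theorem Ah_BV (d : ℕ) : BV (fun ξ : E d => (((1 + rho ξ) ^ (-(1 / 2 : ℝ)) : ℝ) : ℂ)) := by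
  have hn : ∀ x : E d, ‖((((1 + rho x) ^ (-(1 / 2 : ℝ)) : ℝ)) : ℂ)‖
      = (1 + rho x) ^ (-(1 / 2 : ℝ)) := by
    intro x
    have h0 := rho_nonneg' x
    rw [Complex.norm_real, Real.norm_eq_abs, abs_of_nonneg (by positivity)]
  refine ⟨?_, ⟨1, ?_⟩, ?_⟩
  · have hc : Continuous (fun ξ : E d => (1 + rho ξ) ^ (-(1 / 2 : ℝ))) := by
      refine Continuous.rpow_const ?_ ?_
      · unfold rho; fun_prop
      · intro x
        left
        have h0 := rho_nonneg' x
        positivity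
    exact Complex.measurable_ofReal.comp hc.measurable
  · intro x
    rw [hn x]
    have h0 := rho_nonneg' x
    exact Real.rpow_le_one_of_one_le_of_nonpos (by linarith) (by norm_num)
  · intro ε hε
    refine ⟨1 / ε, fun x hx => ?_⟩
    rw [hn x]
    have hxpos : 0 < ‖x‖ := lt_trans (by positivity) hx
    have h1 : ‖x‖ ^ 2 ≤ 1 + rho x := by
      unfold rho
      have hpi : (1 : ℝ) ≤ 4 * Real.pi ^ 2 := by nlinarith [Real.pi_gt_three]
      nlinarith [sq_nonneg ‖x‖]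
    have h2 : (1 + rho x) ^ (-(1 / 2 : ℝ)) ≤ (‖x‖ ^ 2) ^ (-(1 / 2 : ℝ)) :=
      Real.rpow_le_rpow_of_nonpos (by positivity) h1 (by norm_num)
    have h3 : (‖x‖ ^ 2) ^ (-(1 / 2 : ℝ)) = ‖x‖⁻¹ := by
      rw [Real.rpow_neg (by positivity), ← Real.sqrt_eq_rpow, Real.sqrt_sq hxpos.le]
    rw [h3] at h2
    refine h2.trans ?_
    rw [inv_le_comm₀ hxpos hε]
    rw [one_div] at hx
    exact hx.le

theorem Ah_inner {d : ℕ} (u v : L2 d) : inner ℂ (Ah d u) v = inner ℂ u (Ah d v) := by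
  unfold Ah
  rw [Fm_inner (BM_of_BV (Ah_BV d))]
  simp only [Complex.conj_ofReal]

theorem Ah_inj {d : ℕ} (u : L2 d) (h : Ah d u = 0) : u = 0 := by
  have h1 : FT d (Ah d u) = mulop (fun ξ : E d => (((1 + rho ξ) ^ (-(1 / 2 : ℝ)) : ℝ) : ℂ))
      (FT d u) := Fm_apply _ u
  rw [h, map_zero] at h1
  have h2 := mulop_spec (BM_of_BV (Ah_BV d)) (FT d u)
  rw [← h1] at h2
  have h3 : FT d u = 0 := by
    apply Lp.ext
    filter_upwards [h2, Lp.coeFn_zero ℂ 2 (volume : Measure (E d))] with x hx hx0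
    rw [hx0] at hx ⊢
    simp only [Pi.zero_apply] at hx ⊢
    have h0 := rho_nonneg' x
    have hne : ((((1 + rho x) ^ (-(1 / 2 : ℝ)) : ℝ)) : ℂ) ≠ 0 := by
      have : (0 : ℝ) < (1 + rho x) ^ (-(1 / 2 : ℝ)) := by positivity
      exact_mod_cast this.ne'
    rcases mul_eq_zero.1 hx.symm with h | h
    · exact absurd h hne
    · exact h
  exact (FT d).map_eq_zero_iff.1 h3

end Pool.Agent.Helper41.CE
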