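import Pool.Agent.Helper41.CE.TDefs
import Pool.Agent.Helper41.CE.CE05
import Pool.Agent.Helper41.CE.CE06
import Pool.Agent.Helper41.CE.CE13
import Pool.Agent.Helper41.CE.CU01
import Pool.Agent.Helper41.CE.CU02
import Pool.Agent.Helper41.CE.CU48

/-!
# Semiclassical eigenvalue bounds for Schroedinger operators: definitions
-/

open MeasureTheory Filter Topology Set
open scoped ENNReal NNReal ContDiff

namespace Pool.Agent.Helper41.CE


/-! ## TARGETS: prove these (statements must not be changed; helper lemmas are welcome) -/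

section rk

open scoped FourierTransform SchwartzMap Convolution

theorem res_kernel_pairL2 {d : ℕ} (u : L2 d) (ψ : 𝓢(E d, ℂ)) :
    ∫ ξ, ψ ξ • (FT d u : E d → ℂ) ξ = ∫ x, (𝓕 ψ) x • (u : E d → ℂ) x := by
  have h := congrArg (fun T : 𝓢'(E d, ℂ) => T ψ) (Lp.fourier_toTemperedDistribution_eq u)
  simp only [TemperedDistribution.fourier_apply, Lp.toTemperedDistribution_apply] at h
  exact h.symm

theorem res_kernel_pairL1 {d : ℕ} {h : E d → ℂ} (hh : Integrable h) (ψ : 𝓢(E d, ℂ)) :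
    ∫ ξ, ψ ξ • (𝓕 h) ξ = ∫ x, (𝓕 ψ) x • h x := by
  have h1 := VectorFourier.integral_fourierIntegral_smul_eq_flip (L := innerₗ (E d))
    Real.continuous_fourierChar continuous_inner (ψ.integrable (μ := volume)) hh
  rw [flip_innerₗ] at h1
  exact h1.symm

theorem res_kernel_unique {d : ℕ} {f f' : E d → ℂ} (hf : LocallyIntegrable f volume)
    (hf' : LocallyIntegrable f' volume)
    (h : ∀ φ : 𝓢(E d, ℂ), ∫ x, φ x • f x = ∫ x, φ x • f' x) : f =ᵐ[volume] f' := by
  refine ae_eq_of_integral_contDiff_smul_eq hf hf' ?_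
  intro g g_smooth g_cpt
  have hg₁ : HasCompactSupport (Complex.ofRealCLM ∘ g) := g_cpt.comp_left rfl
  have hg₂ : ContDiff ℝ ∞ (Complex.ofRealCLM ∘ g) := by fun_prop
  have := h (hg₁.toSchwartzMap hg₂)
  simpa using this

theorem res_kernel_FT {d : ℕ} (g : E d → ℂ) (hg : Integrable g) (hg2 : MemLp g 2 volume) :
    (FT d (hg2.toLp g) : E d → ℂ) =ᵐ[volume] 𝓕 g := by
  refine res_kernel_unique ((Lp.memLp _).locallyIntegrable (by norm_num)) ?_ ?_
  · exact (VectorFourier.fourierIntegral_continuous (L := innerₗ (E d))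
      Real.continuous_fourierChar continuous_inner hg).locallyIntegrable
  · intro φ
    rw [res_kernel_pairL2, res_kernel_pairL1 hg]
    refine integral_congr_ae ?_
    filter_upwards [hg2.coeFn_toLp] with x hx
    rw [hx]

theorem res_kernel_G {d : ℕ} (ξ : E d) :
    𝓕 (fun z : E d => ((G 1 z).toReal : ℂ)) ξ = ((1 + rho ξ : ℝ) : ℂ)⁻¹ := by
  rw [Real.fourier_eq']
  have h := G_conv_char (d := d) 1 one_pos (-ξ)
  rw [norm_neg] at h
  have e : ((1 : ℝ) ^ 2 + 4 * Real.pi ^ 2 * ‖ξ‖ ^ 2 : ℝ) = 1 + rho ξ := by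
    unfold rho
    ring
  rw [← e, ← h]
  refine integral_congr_ae (Filter.Eventually.of_forall fun z => ?_)
  show Complex.exp _ • ((G 1 z).toReal : ℂ) = ((G 1 z).toReal : ℂ) * _
  rw [smul_eq_mul, mul_comm, inner_neg_right]
  congr 2
  push_cast
  ring

theorem res_kernel_sigma {d : ℕ} (ξ : E d) :
    (((1 + rho ξ) ^ (-(1 / 2 : ℝ)) : ℝ) : ℂ) * (((1 + rho ξ) ^ (-(1 / 2 : ℝ)) : ℝ) : ℂ) =
      ((1 + rho ξ : ℝ) : ℂ)⁻¹ := by
  have hpos : 0 < 1 + rho ξ := by
    unfold rho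
    positivity
  rw [← Complex.ofReal_mul, ← Complex.ofReal_inv, ← Real.rpow_add hpos, ← Real.rpow_neg_one]
  norm_num

theorem res_kernel_AA {d : ℕ} (g : E d → ℂ) (hg : Integrable g) (hg2 : MemLp g 2 volume) :
    (Ah d (Ah d (hg2.toLp g)) : E d → ℂ) =ᵐ[volume]
      fun x => ∫ y, ((G 1 (x - y)).toReal : ℂ) * g y := by
  have hG' : Integrable (fun z : E d => ((G 1 z).toReal : ℂ)) := (G_int (d := d) 1 one_pos).1.ofReal
  have hH : (fun x => ∫ y, ((G 1 (x - y)).toReal : ℂ) * g y) =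
      (g ⋆[ContinuousLinearMap.mul ℂ ℂ, volume] (fun z : E d => ((G 1 z).toReal : ℂ))) := by
    funext x
    show _ = ∫ t, g t * ((G 1 (x - t)).toReal : ℂ)
    refine integral_congr_ae (Filter.Eventually.of_forall fun y => ?_)
    exact mul_comm _ _
  have hHi : Integrable (g ⋆[ContinuousLinearMap.mul ℂ ℂ, volume]
      (fun z : E d => ((G 1 z).toReal : ℂ))) :=
    hg.integrable_convolution (ContinuousLinearMap.mul ℂ ℂ) hG'
  rw [hH]
  refine res_kernel_unique ((Lp.memLp _).locallyIntegrable (by norm_num)) hHi.locallyIntegrable ?_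
  intro φ
  obtain ⟨ψ, hψ⟩ : ∃ ψ : 𝓢(E d, ℂ), 𝓕 ψ = φ := ⟨𝓕⁻ φ, FourierTransform.fourier_fourierInv_eq φ⟩
  rw [← hψ, ← res_kernel_pairL2, ← res_kernel_pairL1 hHi]
  refine integral_congr_ae ?_
  have hBM := BM_of_BV (Ah_BV d)
  have h1 := mulop_spec hBM (FT d (Ah d (hg2.toLp g)))
  have h2 := mulop_spec hBM (FT d (hg2.toLp g))
  have e1 : FT d (Ah d (Ah d (hg2.toLp g))) =
      mulop (fun ξ : E d => (((1 + rho ξ) ^ (-(1 / 2 : ℝ)) : ℝ) : ℂ)) (FT d (Ah d (hg2.toLp g))) :=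
    Fm_apply _ _
  have e2 : FT d (Ah d (hg2.toLp g)) =
      mulop (fun ξ : E d => (((1 + rho ξ) ^ (-(1 / 2 : ℝ)) : ℝ) : ℂ)) (FT d (hg2.toLp g)) :=
    Fm_apply _ _
  rw [← e1] at h1
  rw [← e2] at h2
  filter_upwards [h1, h2, res_kernel_FT g hg hg2] with ξ a1 a2 a3
  rw [a1, a2, a3, Real.fourier_mul_convolution_eq hg hG', res_kernel_G, ← res_kernel_sigma]
  congr 1
  ring

end rk

theorem res_kernel {d : ℕ} (f g : E d → ℂ) (hf : Integrable f) (hf2 : MemLp f 2 volume)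
    (hg : Integrable g) (hg2 : MemLp g 2 volume) :
    inner ℂ (hf2.toLp f) (Ah d (Ah d (hg2.toLp g))) =
      ∫ x, ∫ y, (starRingEnd ℂ) (f x) * ((G 1 (x - y)).toReal : ℂ) * g y := by
  rw [L2.inner_def]
  refine integral_congr_ae ?_
  filter_upwards [hf2.coeFn_toLp, res_kernel_AA g hg hg2] with x h1 h2
  rw [h1, h2, RCLike.inner_apply, mul_comm, ← integral_const_mul]
  refine integral_congr_ae (Filter.Eventually.of_forall fun y => ?_)
  exact (mul_assoc _ _ _).symm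

end Pool.Agent.Helper41.CE
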