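import Pool.Agent.Helper41.CE.TDefs
import Pool.Agent.Helper41.CE.CE05
import Pool.Agent.Helper41.CE.CE06
import Pool.Agent.Helper41.CE.CU01
import Pool.Agent.Helper41.CE.CU02
import Pool.Agent.Helper41.CE.CU46
import Pool.Agent.Helper41.CE.CU48

/-!
# Semiclassical eigenvalue bounds for Schroedinger operators: definitions
-/

open MeasureTheory Filter Topology Set
open scoped ENNReal NNReal ContDiff

namespace Pool.Agent.Helper41.CE


/-! ## TARGETS: prove these (statements must not be changed; helper lemmas are welcome) -/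

theorem hv_amgm (a b : ℝ≥0∞) : a * b ≤ a ^ 2 + b ^ 2 := by
  rcases le_total a b with h | h
  · calc a * b ≤ b * b := mul_le_mul' h le_rfl
      _ = b ^ 2 := (sq b).symm
      _ ≤ a ^ 2 + b ^ 2 := le_add_self
  · calc a * b ≤ a * a := mul_le_mul' le_rfl h
      _ = a ^ 2 := (sq a).symm
      _ ≤ a ^ 2 + b ^ 2 := le_self_add

theorem hv_BM {d : ℕ} {V : E d → ℂ} (hV : BC V) :
    BM (fun x : E d => ((Real.sqrt ‖V x‖ : ℝ) : ℂ)) := by
  obtain ⟨hm, ⟨C, hC⟩, _⟩ := hV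
  refine ⟨Complex.measurable_ofReal.comp (hm.norm.sqrt), Real.sqrt C, fun x => ?_⟩
  rw [Complex.norm_real, Real.norm_eq_abs, abs_of_nonneg (Real.sqrt_nonneg _)]
  exact Real.sqrt_le_sqrt (hC x)

theorem hv_memLp {d : ℕ} {f : E d → ℂ} (hf : BC f) (p : ℝ≥0∞) : MemLp f p volume := by
  obtain ⟨hm, ⟨C, hC⟩, R, hR⟩ := hf
  have h1 : MemLp f p (volume.restrict (Metric.closedBall (0 : E d) R)) := by
    have : IsFiniteMeasure (volume.restrict (Metric.closedBall (0 : E d) R)) :=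
      ⟨by rw [Measure.restrict_apply_univ]; exact measure_closedBall_lt_top⟩
    exact MemLp.of_bound hm.aestronglyMeasurable C (Filter.Eventually.of_forall hC)
  have h2 : (Metric.closedBall (0 : E d) R).indicator f = f := by
    funext x
    by_cases hx : x ∈ Metric.closedBall (0 : E d) R
    · rw [indicator_of_mem hx]
    · rw [indicator_of_notMem hx]
      rw [mem_closedBall_zero_iff, not_le] at hx
      exact (hR x hx).symm
  rw [← h2]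
  exact (memLp_indicator_iff_restrict measurableSet_closedBall).2 h1

theorem hv_sqrt_BC {d : ℕ} {V : E d → ℂ} (hV : BC V) :
    BC (fun x : E d => ((Real.sqrt ‖V x‖ : ℝ) : ℂ)) := by
  obtain ⟨h1, h2⟩ := hv_BM hV
  obtain ⟨R, hR⟩ := hV.2.2
  refine ⟨h1, h2, R, fun x hx => ?_⟩
  show ((Real.sqrt ‖V x‖ : ℝ) : ℂ) = 0
  rw [hR x hx]
  simp

theorem hv_norm_sq {d : ℕ} (h : L2 d) :
    ∫⁻ x, ‖(h : E d → ℂ) x‖ₑ ^ 2 = ENNReal.ofReal (‖h‖ ^ 2) := by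
  have h1 := eLpNorm_nnreal_pow_eq_lintegral (μ := (volume : Measure (E d)))
    (f := (h : E d → ℂ)) (p := 2) (by norm_num)
  have h2 : eLpNorm (h : E d → ℂ) 2 volume = ENNReal.ofReal ‖h‖ := by
    rw [Lp.norm_def, ENNReal.ofReal_toReal (Lp.eLpNorm_ne_top h)]
  have h3 : ((2 : ℝ≥0) : ℝ≥0∞) = 2 := rfl
  rw [h3, h2] at h1
  have h4 : (((2 : ℝ≥0) : ℝ)) = ((2 : ℕ) : ℝ) := by norm_num
  rw [h4] at h1
  simp only [ENNReal.rpow_natCast] at h1
  rw [← h1, ENNReal.ofReal_pow (norm_nonneg _)]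

theorem hv_est (d : ℕ) (q : ℝ) (hq1 : 1 ≤ q) (C₀ : ℝ) (hC₀ : 0 < C₀)
    (hG : ∀ W : E d → ℝ, (∀ x, 0 ≤ W x) → Measurable W → MemLp W (ENNReal.ofReal q) volume →
      ∀ κ, 0 < κ → ∀ x : E d, ∫⁻ y, G κ (x - y) * ENNReal.ofReal (W y)
        ≤ ENNReal.ofReal (C₀ * κ ^ ((d : ℝ) / q - 2)) * eLpNorm W (ENNReal.ofReal q) volume)
    (V : E d → ℂ) (hV : BC V) (h : L2 d) :
    ‖Ah d (mulop (fun x : E d => ((Real.sqrt ‖V x‖ : ℝ) : ℂ)) h)‖ ^ 2 ≤
      2 * C₀ * (∫ x, ‖V x‖ ^ q) ^ (1 / q) * ‖h‖ ^ 2 := by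
  set vC : E d → ℂ := fun x => ((Real.sqrt ‖V x‖ : ℝ) : ℂ) with hvC
  set Nq : ℝ := (∫ x, ‖V x‖ ^ q) ^ (1 / q) with hNq
  have hNq0 : 0 ≤ Nq := Real.rpow_nonneg (integral_nonneg fun x => by positivity) _
  have hvBM : BM vC := hv_BM hV
  set f0 : E d → ℂ := fun x => vC x * h x with hf0
  have hae : (mulop vC h : E d → ℂ) =ᵐ[volume] f0 := mulop_spec hvBM h
  have hf2 : MemLp f0 2 volume := (memLp_congr_ae hae).1 (Lp.memLp _)
  have htoLp : hf2.toLp f0 = mulop vC h := by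
    apply Lp.ext
    exact hf2.coeFn_toLp.trans hae.symm
  have hf1 : Integrable f0 volume := (hv_memLp (hv_sqrt_BC hV) 2).integrable_mul (Lp.memLp h)
  have e1 : ‖Ah d (mulop vC h)‖ ^ 2 = (∫ x, ∫ y, (starRingEnd ℂ) (f0 x) *
      ((G 1 (x - y)).toReal : ℂ) * f0 y).re := by
    rw [← res_kernel f0 f0 hf1 hf2 hf1 hf2, htoLp, ← Ah_inner]
    exact (inner_self_eq_norm_sq (𝕜 := ℂ) _).symm
  set W : E d → ℝ≥0∞ := fun x => ENNReal.ofReal ‖V x‖ with hW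
  set H : E d → ℝ≥0∞ := fun x => ‖(h : E d → ℂ) x‖ₑ ^ 2 with hH
  have hWm : Measurable W := ENNReal.measurable_ofReal.comp hV.1.norm
  have hHm : Measurable H := ((Lp.stronglyMeasurable h).measurable.enorm).pow_const 2
  have hGm : Measurable (G 1 : E d → ℝ≥0∞) := G_meas 1
  have hvsq : ∀ x, ‖vC x‖ₑ ^ 2 = W x := by
    intro x
    show ‖((Real.sqrt ‖V x‖ : ℝ) : ℂ)‖ₑ ^ 2 = ENNReal.ofReal ‖V x‖
    rw [← ofReal_norm, Complex.norm_real, Real.norm_eq_abs,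
      abs_of_nonneg (Real.sqrt_nonneg _), ← ENNReal.ofReal_pow (Real.sqrt_nonneg _),
      Real.sq_sqrt (norm_nonneg _)]
  have hpt : ∀ x y, ‖(starRingEnd ℂ) (f0 x) * ((G 1 (x - y)).toReal : ℂ) * f0 y‖ₑ ≤
      G 1 (x - y) * (W x * H y) + G 1 (x - y) * (W y * H x) := by
    intro x y
    rw [enorm_mul, enorm_mul]
    have h1 : ‖(starRingEnd ℂ) (f0 x)‖ₑ = ‖vC x‖ₑ * ‖(h : E d → ℂ) x‖ₑ := by
      rw [← ofReal_norm, Complex.norm_conj, ofReal_norm, hf0, enorm_mul]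
    have h2 : ‖f0 y‖ₑ = ‖vC y‖ₑ * ‖(h : E d → ℂ) y‖ₑ := by rw [hf0, enorm_mul]
    have h3 : ‖((G 1 (x - y)).toReal : ℂ)‖ₑ ≤ G 1 (x - y) := by
      rw [← ofReal_norm, Complex.norm_real, Real.norm_eq_abs,
        abs_of_nonneg ENNReal.toReal_nonneg]
      exact ENNReal.ofReal_toReal_le
    rw [h1, h2]
    calc ‖vC x‖ₑ * ‖(h : E d → ℂ) x‖ₑ * ‖((G 1 (x - y)).toReal : ℂ)‖ₑ *
          (‖vC y‖ₑ * ‖(h : E d → ℂ) y‖ₑ)
        ≤ ‖vC x‖ₑ * ‖(h : E d → ℂ) x‖ₑ * G 1 (x - y) * (‖vC y‖ₑ * ‖(h : E d → ℂ) y‖ₑ) := by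
          gcongr
      _ = G 1 (x - y) * ((‖vC x‖ₑ * ‖(h : E d → ℂ) y‖ₑ) * (‖vC y‖ₑ * ‖(h : E d → ℂ) x‖ₑ)) := by
          ring
      _ ≤ G 1 (x - y) * ((‖vC x‖ₑ * ‖(h : E d → ℂ) y‖ₑ) ^ 2 +
            (‖vC y‖ₑ * ‖(h : E d → ℂ) x‖ₑ) ^ 2) := by
          gcongr
          exact hv_amgm _ _
      _ = G 1 (x - y) * (W x * H y) + G 1 (x - y) * (W y * H x) := by
          rw [mul_pow, mul_pow, hvsq, hvsq, mul_add]
  set K : ℝ≥0∞ := ENNReal.ofReal (C₀ * Nq) with hK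
  have hWK : ∀ x, ∫⁻ y, G 1 (x - y) * W y ≤ K := by
    intro x
    have hWL : MemLp (fun x => ‖V x‖) (ENNReal.ofReal q) volume := (hv_memLp hV _).norm
    have h1 := hG (fun x => ‖V x‖) (fun x => norm_nonneg _) hV.1.norm hWL 1 one_pos x
    rw [Real.one_rpow, mul_one] at h1
    have h2 : eLpNorm (fun x => ‖V x‖) (ENNReal.ofReal q) volume = ENNReal.ofReal Nq := by
      rw [hWL.eLpNorm_eq_integral_rpow_norm (by
        rw [Ne, ENNReal.ofReal_eq_zero, not_le]; linarith) ENNReal.ofReal_ne_top,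
        ENNReal.toReal_ofReal (by linarith)]
      simp only [norm_norm]
      rw [hNq, one_div]
    rw [h2, ← ENNReal.ofReal_mul hC₀.le] at h1
    exact h1
  have hS : ∫⁻ x, ∫⁻ y, G 1 (x - y) * (W y * H x) ≤ K * ENNReal.ofReal (‖h‖ ^ 2) := by
    calc ∫⁻ x, ∫⁻ y, G 1 (x - y) * (W y * H x) = ∫⁻ x, (∫⁻ y, G 1 (x - y) * W y) * H x := by
          refine lintegral_congr fun x => ?_
          rw [← lintegral_mul_const]
          · refine lintegral_congr fun y => ?_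
            rw [mul_assoc]
          · exact (hGm.comp (measurable_const.sub measurable_id)).mul hWm
      _ ≤ ∫⁻ x, K * H x := lintegral_mono fun x => mul_le_mul' (hWK x) le_rfl
      _ = K * ∫⁻ x, H x := lintegral_const_mul _ hHm
      _ = K * ENNReal.ofReal (‖h‖ ^ 2) := by rw [hH, hv_norm_sq]
  have hF : ∫⁻ x, ∫⁻ y, G 1 (x - y) * (W x * H y) = ∫⁻ x, ∫⁻ y, G 1 (x - y) * (W y * H x) := by
    rw [lintegral_lintegral_swap]
    · refine lintegral_congr fun x => lintegral_congr fun y => ?_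
      rw [← G_symm 1 (x - y), neg_sub]
    · have : Measurable (Function.uncurry fun x y => G 1 (x - y) * (W x * H y)) :=
        (hGm.comp (measurable_fst.sub measurable_snd)).mul
          ((hWm.comp measurable_fst).mul (hHm.comp measurable_snd))
      exact this.aemeasurable
  have e2 : ENNReal.ofReal (‖Ah d (mulop vC h)‖ ^ 2) ≤
      K * ENNReal.ofReal (‖h‖ ^ 2) + K * ENNReal.ofReal (‖h‖ ^ 2) := by
    rw [e1]
    calc ENNReal.ofReal (∫ x, ∫ y, (starRingEnd ℂ) (f0 x) *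
          ((G 1 (x - y)).toReal : ℂ) * f0 y).re
        ≤ ENNReal.ofReal ‖∫ x, ∫ y, (starRingEnd ℂ) (f0 x) *
          ((G 1 (x - y)).toReal : ℂ) * f0 y‖ := ENNReal.ofReal_le_ofReal (Complex.re_le_norm _)
      _ = ‖∫ x, ∫ y, (starRingEnd ℂ) (f0 x) * ((G 1 (x - y)).toReal : ℂ) * f0 y‖ₑ :=
          ofReal_norm _
      _ ≤ ∫⁻ x, ‖∫ y, (starRingEnd ℂ) (f0 x) * ((G 1 (x - y)).toReal : ℂ) * f0 y‖ₑ :=
          enorm_integral_le_lintegral_enorm _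
      _ ≤ ∫⁻ x, ∫⁻ y, ‖(starRingEnd ℂ) (f0 x) * ((G 1 (x - y)).toReal : ℂ) * f0 y‖ₑ :=
          lintegral_mono fun x => enorm_integral_le_lintegral_enorm _
      _ ≤ ∫⁻ x, ∫⁻ y, (G 1 (x - y) * (W x * H y) + G 1 (x - y) * (W y * H x)) :=
          lintegral_mono fun x => lintegral_mono fun y => hpt x y
      _ = ∫⁻ x, ((∫⁻ y, G 1 (x - y) * (W x * H y)) + ∫⁻ y, G 1 (x - y) * (W y * H x)) := by
          refine lintegral_congr fun x => ?_
          rw [lintegral_add_left]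
          exact (hGm.comp (measurable_const.sub measurable_id)).mul (measurable_const.mul hHm)
      _ = (∫⁻ x, ∫⁻ y, G 1 (x - y) * (W x * H y)) +
            ∫⁻ x, ∫⁻ y, G 1 (x - y) * (W y * H x) := by
          rw [lintegral_add_left]
          have : Measurable (Function.uncurry fun x y => G 1 (x - y) * (W x * H y)) :=
            (hGm.comp (measurable_fst.sub measurable_snd)).mul
              ((hWm.comp measurable_fst).mul (hHm.comp measurable_snd))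
          exact this.lintegral_prod_right'
      _ ≤ K * ENNReal.ofReal (‖h‖ ^ 2) + K * ENNReal.ofReal (‖h‖ ^ 2) := by
          rw [hF]
          exact add_le_add hS hS
  have h5 : K * ENNReal.ofReal (‖h‖ ^ 2) + K * ENNReal.ofReal (‖h‖ ^ 2) =
      ENNReal.ofReal (2 * C₀ * Nq * ‖h‖ ^ 2) := by
    rw [hK, ← ENNReal.ofReal_mul (by positivity), ← ENNReal.ofReal_add (by positivity)
      (by positivity)]
    congr 1
    ring
  rw [h5] at e2
  exact (ENNReal.ofReal_le_ofReal_iff (by positivity)).1 e2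

theorem hv_key (d : ℕ) (q : ℝ) (hq1 : 1 ≤ q) (hqd : (d : ℝ) / q < 2) :
    ∃ C : ℝ, 0 < C ∧ ∀ V : E d → ℂ, BC V → ∀ h : L2 d,
      ‖Ah d (mulop (fun x : E d => ((Real.sqrt ‖V x‖ : ℝ) : ℂ)) h)‖ ≤
        C * Real.sqrt ((∫ x, ‖V x‖ ^ q) ^ (1 / q)) * ‖h‖ := by
  obtain ⟨C₀, hC₀, hG⟩ := G_bound d q hq1 hqd
  refine ⟨Real.sqrt (2 * C₀), by positivity, fun V hV h => ?_⟩
  have h1 := hv_est d q hq1 C₀ hC₀ hG V hV h
  have hN : 0 ≤ (∫ x, ‖V x‖ ^ q) ^ (1 / q) :=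
    Real.rpow_nonneg (integral_nonneg fun x => by positivity) _
  refine (sq_le_sq₀ (norm_nonneg _) (by positivity)).1 (h1.trans (le_of_eq ?_))
  rw [mul_pow, mul_pow, Real.sq_sqrt (by positivity), Real.sq_sqrt hN]

theorem hv_both (d : ℕ) (q : ℝ) (hq1 : 1 ≤ q) (hqd : (d : ℝ) / q < 2) :
    ∃ C : ℝ, 0 < C ∧ ∀ V : E d → ℂ, BC V →
      ‖mulop (fun x : E d => ((Real.sqrt ‖V x‖ : ℝ) : ℂ)) * Ah d‖ ≤
        C * Real.sqrt ((∫ x, ‖V x‖ ^ q) ^ (1 / q)) ∧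
      ‖Ah d * mulop (fun x : E d => ((Real.sqrt ‖V x‖ : ℝ) : ℂ))‖ ≤
        C * Real.sqrt ((∫ x, ‖V x‖ ^ q) ^ (1 / q)) := by
  obtain ⟨C, hC, hk⟩ := hv_key d q hq1 hqd
  refine ⟨C, hC, fun V hV => ?_⟩
  have hk' := hk V hV
  have hBM := hv_BM hV
  set vC : E d → ℂ := fun x => ((Real.sqrt ‖V x‖ : ℝ) : ℂ) with hvC
  set B : ℝ := C * Real.sqrt ((∫ x, ‖V x‖ ^ q) ^ (1 / q)) with hB
  have hB0 : 0 ≤ B := mul_nonneg hC.le (Real.sqrt_nonneg _)
  have hconj : (fun x => (starRingEnd ℂ) (vC x)) = vC := by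
    funext x
    exact Complex.conj_ofReal _
  constructor
  · refine ContinuousLinearMap.opNorm_le_bound _ hB0 fun k => ?_
    set M : L2 d := mulop vC (Ah d k) with hM
    show ‖M‖ ≤ B * ‖k‖
    have e : inner ℂ M M = inner ℂ k (Ah d (mulop vC M)) := by
      conv_lhs => rw [hM]
      rw [mulop_inner hBM, hconj, Ah_inner]
    have h1 : ‖M‖ ^ 2 ≤ ‖k‖ * (B * ‖M‖) := by
      rw [← inner_self_eq_norm_sq (𝕜 := ℂ) M, e]
      refine (re_inner_le_norm (𝕜 := ℂ) _ _).trans ?_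
      exact mul_le_mul_of_nonneg_left (hk' M) (norm_nonneg _)
    rcases (norm_nonneg M).eq_or_lt with h0 | h0
    · rw [← h0]
      positivity
    · have h2 : ‖M‖ * ‖M‖ ≤ (B * ‖k‖) * ‖M‖ := by nlinarith
      exact le_of_mul_le_mul_right h2 h0
  · exact ContinuousLinearMap.opNorm_le_bound _ hB0 fun k => hk' k

theorem hvb (d : ℕ) (hd : 1 ≤ d) (q : ℝ) (hq1 : 1 ≤ q) (hqd : (d : ℝ) / q < 2) :
    ∃ C : ℝ, 0 < C ∧ ∀ V : E d → ℂ, BC V →
      ‖mulop (fun x : E d => ((Real.sqrt ‖V x‖ : ℝ) : ℂ)) * Ah d‖ ≤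
        C * Real.sqrt ((∫ x, ‖V x‖ ^ q) ^ (1 / q)) := by
  obtain ⟨C, hC, hk⟩ := hv_both d q hq1 hqd
  exact ⟨C, hC, fun V hV => (hk V hV).1⟩

theorem form_bd (d : ℕ) (hd : 1 ≤ d) (q : ℝ) (hq1 : 1 ≤ q) (hqd : (d : ℝ) / q < 2) :
    ∃ C : ℝ, 0 < C ∧ ∀ V : E d → ℂ, BC V →
      ‖Ah d * mulop V * Ah d‖ ≤ C * (∫ x, ‖V x‖ ^ q) ^ (1 / q) := by
  obtain ⟨C, hC, hk⟩ := hv_both d q hq1 hqd
  refine ⟨C ^ 2, by positivity, fun V hV => ?_⟩
  obtain ⟨h1, h2⟩ := hk V hV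
  have hBM := hv_BM hV
  have hN : 0 ≤ (∫ x, ‖V x‖ ^ q) ^ (1 / q) :=
    Real.rpow_nonneg (integral_nonneg fun x => by positivity) _
  set vC : E d → ℂ := fun x => ((Real.sqrt ‖V x‖ : ℝ) : ℂ) with hvC
  set s : E d → ℂ := fun x => V x / (‖V x‖ : ℂ) with hs
  have hs1 : ∀ x, ‖s x‖ ≤ 1 := by
    intro x
    rw [hs]
    simp only [norm_div, Complex.norm_real, norm_norm]
    exact div_self_le_one _
  have hsBM : BM s := ⟨hV.1.div (Complex.measurable_ofReal.comp hV.1.norm), 1, hs1⟩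
  have hBMs : BM (fun x => vC x * s x) := by
    obtain ⟨hm, C', hC'⟩ := hBM
    refine ⟨hm.mul hsBM.1, C', fun x => ?_⟩
    rw [norm_mul]
    calc ‖vC x‖ * ‖s x‖ ≤ ‖vC x‖ * 1 := mul_le_mul_of_nonneg_left (hs1 x) (norm_nonneg _)
      _ = ‖vC x‖ := mul_one _
      _ ≤ C' := hC' x
  have hVe : (fun x => vC x * s x * vC x) = V := by
    funext x
    by_cases h0 : V x = 0
    · simp [hs, h0]
    · have h3 : (‖V x‖ : ℂ) ≠ 0 := by
        rw [Ne, Complex.ofReal_eq_zero, norm_eq_zero]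
        exact h0
      have h4 : vC x * vC x = (‖V x‖ : ℂ) := by
        rw [hvC]
        simp only
        rw [← Complex.ofReal_mul, Real.mul_self_sqrt (norm_nonneg _)]
      calc vC x * s x * vC x = (vC x * vC x) * s x := by ring
        _ = (‖V x‖ : ℂ) * (V x / (‖V x‖ : ℂ)) := by rw [h4]
        _ = V x := mul_div_cancel₀ _ h3
  have hfac : Ah d * mulop V * Ah d = (Ah d * mulop vC) * mulop s * (mulop vC * Ah d) := by
    have h5 : mulop V = mulop vC * mulop s * mulop vC := by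
      rw [mulop_mul hBM hsBM, mulop_mul hBMs hBM, hVe]
    rw [h5]
    simp only [mul_assoc]
  rw [hfac]
  have h6 : ‖mulop s‖ ≤ 1 := mulop_norm hsBM 1 hs1
  set B : ℝ := C * Real.sqrt ((∫ x, ‖V x‖ ^ q) ^ (1 / q)) with hB
  have hB0 : 0 ≤ B := mul_nonneg hC.le (Real.sqrt_nonneg _)
  calc ‖(Ah d * mulop vC) * mulop s * (mulop vC * Ah d)‖
      ≤ ‖(Ah d * mulop vC) * mulop s‖ * ‖mulop vC * Ah d‖ := norm_mul_le _ _
    _ ≤ (‖Ah d * mulop vC‖ * ‖mulop s‖) * ‖mulop vC * Ah d‖ := by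
        gcongr
        exact norm_mul_le _ _
    _ ≤ (B * 1) * B := by gcongr
    _ = C ^ 2 * (∫ x, ‖V x‖ ^ q) ^ (1 / q) := by
        rw [hB]
        calc _ = C ^ 2 * Real.sqrt ((∫ x, ‖V x‖ ^ q) ^ (1 / q)) ^ 2 := by ring
          _ = _ := by rw [Real.sq_sqrt hN]

end Pool.Agent.Helper41.CE
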