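import Pool.Agent.Helper41.CE.TDefs
import Pool.Agent.Helper41.CE.CU01
import Pool.Agent.Helper41.CE.CU02
import Pool.Agent.Helper41.CE.CU04
import Pool.Agent.Helper41.CE.CU47
import Pool.Agent.Helper41.CE.CU48

/-!
# Semiclassical eigenvalue bounds for Schroedinger operators: definitions
-/

open MeasureTheory Filter Topology Set
open scoped ENNReal NNReal ContDiff

namespace Pool.Agent.Helper41.CE


theorem form_op_sub {d : ℕ} {f g : E d → ℂ} (hf : BM f) (hg : BM g) :
    mulop f - mulop g = mulop (fun x => f x - g x) := by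
  have h1 := mulop_smul hg (-1)
  have h2 : BM (fun x => (-1 : ℂ) * g x) := by
    obtain ⟨hm, C, hC⟩ := hg
    refine ⟨hm.const_mul _, C, fun x => ?_⟩
    rw [norm_mul]
    simpa using hC x
  have h3 := mulop_add hf h2
  rw [← h1] at h3
  have h4 : (fun x => f x + -1 * g x) = (fun x => f x - g x) := by
    funext x; ring
  rw [h4] at h3
  rw [← h3]
  simp [sub_eq_add_neg]

theorem form_op_BC_sub {d : ℕ} {f g : E d → ℂ} (hf : BC f) (hg : BC g) :
    BC (fun x => f x - g x) := by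
  obtain ⟨hm, ⟨C, hC⟩, R, hR⟩ := hf
  obtain ⟨hm', ⟨C', hC'⟩, R', hR'⟩ := hg
  refine ⟨hm.sub hm', ⟨C + C', fun x => (norm_sub_le _ _).trans (add_le_add (hC x) (hC' x))⟩,
    max R R', fun x hx => ?_⟩
  show f x - g x = 0
  rw [hR x (lt_of_le_of_lt (le_max_left _ _) hx), hR' x (lt_of_le_of_lt (le_max_right _ _) hx), sub_zero]

/-! ## TARGETS: prove these (statements must not be changed; helper lemmas are welcome) -/

theorem form_op (d : ℕ) (hd : 1 ≤ d) (q : ℝ) (hq1 : 1 ≤ q) (hqd : (d : ℝ) / q < 2)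
    (S : ℕ → E d → ℂ) (hS : ∀ m, BC (S m)) (V : E d → ℂ) (hVm : Measurable V)
    (hVq : MemLp V (ENNReal.ofReal q) volume)
    (hloc : ∀ R : ℝ, ∃ m0 : ℕ, ∀ m, m0 ≤ m → ∀ x, ‖x‖ ≤ R → S m x = V x)
    (hdom : ∀ m x, S m x = 0 ∨ S m x = V x) :
    ∃ T : L2 d →L[ℂ] L2 d, IsCompactOperator T ∧
      Tendsto (fun m => Ah d * mulop (S m) * Ah d) atTop (𝓝 T) := by
  have hq0 : 0 < q := lt_of_lt_of_le one_pos hq1
  obtain ⟨C, hC0, hC⟩ := form_bd d hd q hq1 hqd
  -- integrability
  have hVint : Integrable (fun x => ‖V x‖ ^ q) volume := by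
    have h := hVq.integrable_norm_rpow (by simpa using hq0) ENNReal.ofReal_ne_top
    rwa [ENNReal.toReal_ofReal hq0.le] at h
  have hz : (0 : ℝ) ^ q = 0 := Real.zero_rpow hq0.ne'
  have hmeas : ∀ m, Measurable (fun x => ‖S m x - V x‖ ^ q) := fun m =>
    (((hS m).1.sub hVm).norm).pow_const q
  have hbd : ∀ m x, ‖S m x - V x‖ ^ q ≤ ‖V x‖ ^ q := by
    intro m x
    rcases hdom m x with h | h
    · rw [h, zero_sub, norm_neg]
    · rw [h, sub_self, norm_zero, hz]; positivity
  have hFint : ∀ m, Integrable (fun x => ‖S m x - V x‖ ^ q) volume := by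
    intro m
    refine hVint.mono' (hmeas m).aestronglyMeasurable (ae_of_all _ fun x => ?_)
    rw [Real.norm_of_nonneg (by positivity)]
    exact hbd m x
  have hlim : Tendsto (fun m => ∫ x, ‖S m x - V x‖ ^ q) atTop (𝓝 0) := by
    have h := tendsto_integral_of_dominated_convergence (μ := (volume : Measure (E d)))
      (F := fun m x => ‖S m x - V x‖ ^ q) (f := fun _ => (0 : ℝ)) (fun x => ‖V x‖ ^ q)
      (fun m => (hmeas m).aestronglyMeasurable) hVint
      (fun m => ae_of_all _ fun x => by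
        rw [Real.norm_of_nonneg (by positivity)]
        exact hbd m x)
      (ae_of_all _ fun x => by
        obtain ⟨m0, hm0⟩ := hloc ‖x‖
        apply tendsto_const_nhds.congr'
        filter_upwards [eventually_ge_atTop m0] with m hm
        rw [hm0 m hm x le_rfl, sub_self, norm_zero, hz])
    simpa using h
  have hmono : ∀ m k, ∫ x, ‖S m x - S k x‖ ^ q ≤ (∫ x, ‖S m x - V x‖ ^ q) + ∫ x, ‖S k x - V x‖ ^ q := by
    intro m k
    rw [← integral_add (hFint m) (hFint k)]
    apply integral_mono_of_nonneg (ae_of_all _ fun x => by positivity) ((hFint m).add (hFint k))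
    refine ae_of_all _ fun x => ?_
    show ‖S m x - S k x‖ ^ q ≤ ‖S m x - V x‖ ^ q + ‖S k x - V x‖ ^ q
    rcases hdom m x with h | h <;> rcases hdom k x with h' | h'
    · rw [h, h', sub_self, norm_zero, hz]; positivity
    · rw [h, h', sub_self, norm_zero, hz, add_zero]
    · rw [h, h', sub_self, norm_zero, hz, zero_add, sub_zero, zero_sub, norm_neg]
    · rw [h, h', sub_self, norm_zero, hz, add_zero]
  have hdist : ∀ m k, ‖Ah d * mulop (S m) * Ah d - Ah d * mulop (S k) * Ah d‖ ≤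
      C * ((∫ x, ‖S m x - V x‖ ^ q) + ∫ x, ‖S k x - V x‖ ^ q) ^ (1 / q) := by
    intro m k
    have h1 : Ah d * mulop (S m) * Ah d - Ah d * mulop (S k) * Ah d =
        Ah d * mulop (fun x => S m x - S k x) * Ah d := by
      rw [← form_op_sub (BM_of_BC (hS m)) (BM_of_BC (hS k))]
      rw [mul_sub, sub_mul]
    rw [h1]
    refine (hC _ (form_op_BC_sub (hS m) (hS k))).trans ?_
    apply mul_le_mul_of_nonneg_left _ hC0.le
    apply Real.rpow_le_rpow (integral_nonneg fun x => by positivity) (hmono m k) (by positivity)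
  have hcau : CauchySeq (fun m => Ah d * mulop (S m) * Ah d) := by
    rw [Metric.cauchySeq_iff']
    intro ε hε
    have hη : 0 < (ε / (2 * C)) ^ q / 2 := by positivity
    obtain ⟨N, hN⟩ := (Metric.tendsto_atTop.1 hlim) _ hη
    refine ⟨N, fun m hm => ?_⟩
    rw [dist_eq_norm]
    refine lt_of_le_of_lt (hdist m N) ?_
    have ha : ∀ k, 0 ≤ ∫ x, ‖S k x - V x‖ ^ q := fun k => integral_nonneg fun x => by positivity
    have h1 := hN m hm
    have h2 := hN N le_rfl
    rw [Real.dist_eq, sub_zero, abs_of_nonneg (ha _)] at h1 h2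
    have h3 : ((∫ x, ‖S m x - V x‖ ^ q) + ∫ x, ‖S N x - V x‖ ^ q) ^ (1 / q) ≤ ε / (2 * C) := by
      have h4 : (∫ x, ‖S m x - V x‖ ^ q) + ∫ x, ‖S N x - V x‖ ^ q ≤ (ε / (2 * C)) ^ q := by linarith
      have h5 := Real.rpow_le_rpow (add_nonneg (ha m) (ha N)) h4 (by positivity : 0 ≤ 1 / q)
      rwa [← Real.rpow_mul (by positivity), mul_one_div_cancel hq0.ne', Real.rpow_one] at h5
    calc C * ((∫ x, ‖S m x - V x‖ ^ q) + ∫ x, ‖S N x - V x‖ ^ q) ^ (1 / q)
        ≤ C * (ε / (2 * C)) := mul_le_mul_of_nonneg_left h3 hC0.le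
      _ = ε / 2 := by field_simp
      _ < ε := by linarith
  obtain ⟨T, hT⟩ := cauchySeq_tendsto_of_complete hcau
  refine ⟨T, ?_, hT⟩
  apply isCompactOperator_of_tendsto hT
  refine Eventually.of_forall fun m => ?_
  have h1 : IsCompactOperator (Ah d * mulop (S m)) := Fm_mulop_compact (Ah_BV d) (BV_of_BC (hS m))
  exact h1.comp_clm (Ah d)

end Pool.Agent.Helper41.CE
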