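import Pool.Agent.Helper41.CE.TDefs
import Pool.Agent.Helper41.CE.CU01
import Pool.Agent.Helper41.CE.CU02
import Pool.Agent.Helper41.CE.CU03
import Pool.Agent.Helper41.CE.CU41
import Pool.Agent.Helper41.CE.CU48

/-!
# Semiclassical eigenvalue bounds for Schroedinger operators: definitions
-/

open MeasureTheory Filter Topology Set
open scoped ENNReal NNReal ContDiff

namespace Pool.Agent.Helper41.CE


/-! ## TARGETS: prove these (statements must not be changed; helper lemmas are welcome) -/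

theorem exx_rho_nn {d : ℕ} (ξ : E d) : 0 ≤ rho ξ := by
  unfold rho
  positivity

/-- the symbol `(1 + ρ)/(ρ - z)` -/
noncomputable def exx_mu {d : ℕ} (z : ℂ) (ξ : E d) : ℂ := ((1 + rho ξ : ℝ) : ℂ) * ((rho ξ : ℂ) - z)⁻¹

theorem exx_im {d : ℕ} {z : ℂ} (hz : 0 < z.im) (ξ : E d) : z.im ≤ ‖(rho ξ : ℂ) - z‖ := by
  have := Complex.abs_im_le_norm ((rho ξ : ℂ) - z)
  rw [Complex.sub_im, Complex.ofReal_im, zero_sub, abs_neg, abs_of_pos hz] at this
  exact this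

theorem exx_ne {d : ℕ} {z : ℂ} (hz : 0 < z.im) (ξ : E d) : (rho ξ : ℂ) - z ≠ 0 := by
  rw [← norm_pos_iff]
  exact lt_of_lt_of_le hz (exx_im hz ξ)

theorem exx_mu_BM {d : ℕ} {z : ℂ} (hz : 0 < z.im) : BM (exx_mu (d := d) z) := by
  refine ⟨?_, 1 + (1 + ‖z‖) / z.im, ?_⟩
  · have h1 : Measurable (fun ξ : E d => rho ξ) := by
      unfold rho
      exact (measurable_norm.pow_const 2).const_mul _
    unfold exx_mu
    refine Measurable.mul ?_ ?_
    · exact Complex.measurable_ofReal.comp (h1.const_add 1)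
    · exact ((Complex.measurable_ofReal.comp h1).sub_const z).inv
  · intro ξ
    unfold exx_mu
    have h0 := exx_im hz ξ
    have hpos : 0 < ‖(rho ξ : ℂ) - z‖ := lt_of_lt_of_le hz h0
    have hr := exx_rho_nn ξ
    rw [norm_mul, norm_inv, Complex.norm_real, Real.norm_eq_abs, abs_of_nonneg (by linarith),
      ← div_eq_mul_inv, div_le_iff₀ hpos]
    have h1 : rho ξ ≤ ‖(rho ξ : ℂ) - z‖ + ‖z‖ := by
      have := norm_add_le ((rho ξ : ℂ) - z) z
      rw [sub_add_cancel, Complex.norm_real, Real.norm_eq_abs, abs_of_nonneg hr] at this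
      exact this
    have h2 : 1 + ‖z‖ ≤ (1 + ‖z‖) / z.im * ‖(rho ξ : ℂ) - z‖ := by
      rw [div_mul_eq_mul_div, le_div_iff₀ hz]
      exact mul_le_mul_of_nonneg_left h0 (by positivity)
    nlinarith

theorem exx_AMA {d : ℕ} {z : ℂ} (hz : 0 < z.im) : Ah d * Fm (exx_mu z) * Ah d = Rz z := by
  have hA := BM_of_BV (Ah_BV d)
  have hM := exx_mu_BM (d := d) hz
  have hAM : BM (fun x : E d => (((1 + rho x) ^ (-(1 / 2 : ℝ)) : ℝ) : ℂ) * exx_mu z x) := by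
    obtain ⟨hA1, C1, hA2⟩ := hA
    obtain ⟨hM1, C2, hM2⟩ := hM
    refine ⟨hA1.mul hM1, C1 * C2, fun x => ?_⟩
    rw [norm_mul]
    exact mul_le_mul (hA2 x) (hM2 x) (norm_nonneg _) ((norm_nonneg _).trans (hA2 x))
  unfold Ah
  rw [Fm_mul hA hM, Fm_mul hAM hA]
  unfold Rz
  congr 1
  funext ξ
  have hr := exx_rho_nn ξ
  have h1 : (0 : ℝ) < 1 + rho ξ := by linarith
  have h2 : ((1 + rho ξ) ^ (-(1 / 2 : ℝ)) : ℝ) * (1 + rho ξ) * (1 + rho ξ) ^ (-(1 / 2 : ℝ)) = 1 := by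
    have h3 : ((1 + rho ξ) ^ (-(1 / 2 : ℝ)) : ℝ) * (1 + rho ξ) ^ (-(1 / 2 : ℝ)) = (1 + rho ξ)⁻¹ := by
      rw [← Real.rpow_add h1, ← Real.rpow_neg_one]
      norm_num
    rw [mul_right_comm, h3, inv_mul_cancel₀ h1.ne']
  have h4 : (((1 + rho ξ) ^ (-(1 / 2 : ℝ)) : ℝ) : ℂ) * ((1 + rho ξ : ℝ) : ℂ) *
      (((1 + rho ξ) ^ (-(1 / 2 : ℝ)) : ℝ) : ℂ) = 1 := by
    rw [← Complex.ofReal_mul, ← Complex.ofReal_mul, h2, Complex.ofReal_one]
  unfold exx_mu
  linear_combination ((rho ξ : ℂ) - z)⁻¹ * h4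

theorem exx_diff {d : ℕ} {z w : ℂ} (hz : 0 < z.im) (hw : 0 < w.im) :
    Fm (exx_mu (d := d) w) = Fm (exx_mu z) + (w - z) • (Fm (exx_mu z) * Rz w) := by
  have hM := exx_mu_BM (d := d) hz
  have hR := BM_of_BV (res_BV (d := d) hw)
  have hMR : BM (fun x : E d => exx_mu z x * ((rho x : ℂ) - w)⁻¹) := by
    obtain ⟨hA1, C1, hA2⟩ := hM
    obtain ⟨hM1, C2, hM2⟩ := hR
    refine ⟨hA1.mul hM1, C1 * C2, fun x => ?_⟩
    rw [norm_mul]
    exact mul_le_mul (hA2 x) (hM2 x) (norm_nonneg _) ((norm_nonneg _).trans (hA2 x))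
  have hMR' : BM (fun x : E d => (w - z) * (exx_mu z x * ((rho x : ℂ) - w)⁻¹)) := by
    obtain ⟨hA1, C1, hA2⟩ := hMR
    refine ⟨hA1.const_mul _, ‖w - z‖ * C1, fun x => ?_⟩
    rw [norm_mul]
    exact mul_le_mul_of_nonneg_left (hA2 x) (norm_nonneg _)
  unfold Rz
  rw [Fm_mul hM hR, Fm_smul hMR, Fm_add hM hMR']
  congr 1
  funext ξ
  unfold exx_mu
  have h1 := exx_ne hz ξ
  have h2 := exx_ne hw ξ
  field_simp
  ring

theorem exx_Rz_norm {d : ℕ} {z : ℂ} (hz : 0 < z.im) : ‖Rz (d := d) z‖ ≤ 1 / z.im := by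
  unfold Rz
  refine Fm_norm (BM_of_BV (res_BV hz)) _ (fun ξ => ?_)
  rw [norm_inv, one_div]
  exact inv_anti₀ hz (exx_im hz ξ)

theorem exx_one {d : ℕ} (g : ℝ) {z : ℂ} (hz : 0 < z.im) (V : E d → ℂ) (h : Zs g z V) :
    ∃ w : L2 d, ‖w‖ = 1 ∧ w + (g : ℂ) • Fm (exx_mu z) ((Ah d * mulop V * Ah d) w) = 0 := by
  obtain ⟨u, hu0, hu⟩ := h
  obtain ⟨w, hw⟩ : ∃ w : L2 d, w = -((g : ℂ) • Fm (exx_mu z) (Ah d (mulop V u))) := ⟨_, rfl⟩
  have hAw : Ah d w = u := by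
    have h1 : Ah d (Fm (exx_mu z) (Ah d (mulop V u))) = Rz z (mulop V u) := by
      rw [← exx_AMA hz]
      rfl
    rw [hw, map_neg, map_smul, h1]
    rw [neg_eq_iff_add_eq_zero, add_comm]
    exact hu
  have hw0 : w ≠ 0 := by
    intro h0
    rw [h0, map_zero] at hAw
    exact hu0 hAw.symm
  have hwn : ‖w‖ ≠ 0 := norm_ne_zero_iff.2 hw0
  have heq : w + (g : ℂ) • Fm (exx_mu z) ((Ah d * mulop V * Ah d) w) = 0 := by
    have h2 : (Ah d * mulop V * Ah d) w = Ah d (mulop V (Ah d w)) := rfl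
    rw [h2, hAw]
    nth_rewrite 1 [hw]
    exact neg_add_cancel _
  refine ⟨((‖w‖⁻¹ : ℝ) : ℂ) • w, ?_, ?_⟩
  · rw [norm_smul, Complex.norm_real, norm_inv, norm_norm, inv_mul_cancel₀ hwn]
  · rw [map_smul, map_smul, smul_comm (g : ℂ), ← smul_add, heq, smul_zero]

theorem extract {d : ℕ} (S : ℕ → E d → ℂ) (hS : ∀ m, BC (S m)) (T : L2 d →L[ℂ] L2 d)
    (hT : IsCompactOperator T) (hTS : Tendsto (fun m => Ah d * mulop (S m) * Ah d) atTop (𝓝 T))
    (g : ℝ) (K : Set ℂ) (hK : IsCompact K) (hKi : K ⊆ {z : ℂ | 0 < z.im})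
    (hZ : ∀ᶠ m in atTop, ∃ z ∈ K, Zs g z (S m)) :
    ∃ z ∈ K, ∃ w : L2 d, w ≠ 0 ∧
      w + (g : ℂ) • Fm (fun ξ => ((1 + rho ξ : ℝ) : ℂ) * ((rho ξ : ℂ) - z)⁻¹) (T w) = 0 := by
  obtain ⟨N, hN⟩ := eventually_atTop.1 hZ
  have hch : ∀ m, ∃ z ∈ K, ∃ w : L2 d, ‖w‖ = 1 ∧
      w + (g : ℂ) • Fm (exx_mu z) ((Ah d * mulop (S (m + N)) * Ah d) w) = 0 := by
    intro m
    obtain ⟨z, hzK, hz⟩ := hN (m + N) (Nat.le_add_left _ _)
    exact ⟨z, hzK, exx_one g (hKi hzK) _ hz⟩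
  choose z hzK w hw1 hweq using hch
  obtain ⟨z', hz'K, φ, hφ, hzlim⟩ := hK.tendsto_subseq hzK
  obtain ⟨Q, hQ, hQT⟩ := hT.image_closedBall_subset_compact 1
  have hwQ : ∀ m, T (w (φ m)) ∈ Q := by
    intro m
    apply hQT
    refine ⟨w (φ m), ?_, rfl⟩
    rw [mem_closedBall_zero_iff, hw1]
  obtain ⟨y, hyQ, ψ, hψ, hylim⟩ := hQ.tendsto_subseq hwQ
  have hz'im : 0 < z'.im := hKi hz'K
  -- the combined subsequence
  obtain ⟨χ, hχ⟩ : ∃ χ : ℕ → ℕ, χ = fun k => φ (ψ k) := ⟨_, rfl⟩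
  have hχt : Tendsto χ atTop atTop := by
    rw [hχ]
    exact hφ.tendsto_atTop.comp hψ.tendsto_atTop
  have hzl : Tendsto (fun k => z (χ k)) atTop (𝓝 z') := by
    rw [hχ]
    exact hzlim.comp hψ.tendsto_atTop
  have hyl : Tendsto (fun k => T (w (χ k))) atTop (𝓝 y) := by
    rw [hχ]
    exact hylim
  -- A_k w_k -> y
  have hAl : Tendsto (fun k => (Ah d * mulop (S (χ k + N)) * Ah d) (w (χ k))) atTop (𝓝 y) := by
    have h1 : Tendsto (fun k => Ah d * mulop (S (χ k + N)) * Ah d) atTop (𝓝 T) :=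
      hTS.comp (tendsto_atTop_mono (fun k => Nat.le_add_right (χ k) N) hχt)
    have h2 : Tendsto (fun k => ‖(Ah d * mulop (S (χ k + N)) * Ah d) - T‖) atTop (𝓝 0) :=
      tendsto_iff_norm_sub_tendsto_zero.1 h1
    have h3 : Tendsto (fun k => (Ah d * mulop (S (χ k + N)) * Ah d) (w (χ k)) - T (w (χ k)))
        atTop (𝓝 0) := by
      refine squeeze_zero_norm (fun k => ?_) h2
      rw [← sub_apply]
      refine (ContinuousLinearMap.le_opNorm _ _).trans ?_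
      rw [hw1, mul_one]
    have h4 := h3.add hyl
    rw [zero_add] at h4
    refine h4.congr (fun k => ?_)
    abel
  -- M_k -> M
  have hMl : Tendsto (fun k => Fm (exx_mu (d := d) (z (χ k)))) atTop (𝓝 (Fm (exx_mu z'))) := by
    rw [tendsto_iff_norm_sub_tendsto_zero]
    have him : Tendsto (fun k => (z (χ k)).im) atTop (𝓝 z'.im) :=
      (Complex.continuous_im.tendsto z').comp hzl
    have hbd : Tendsto (fun k => ‖z (χ k) - z'‖ * (‖Fm (exx_mu (d := d) z')‖ * (1 / (z (χ k)).im)))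
        atTop (𝓝 0) := by
      have h1 : Tendsto (fun k => ‖z (χ k) - z'‖) atTop (𝓝 0) :=
        tendsto_iff_norm_sub_tendsto_zero.1 hzl
      have h2 : Tendsto (fun k => ‖Fm (exx_mu (d := d) z')‖ * (1 / (z (χ k)).im)) atTop
          (𝓝 (‖Fm (exx_mu (d := d) z')‖ * (1 / z'.im))) :=
        (tendsto_const_nhds.div him hz'im.ne').const_mul _
      have h3 := h1.mul h2
      rw [zero_mul] at h3
      exact h3
    refine squeeze_zero (fun k => norm_nonneg _) (fun k => ?_) hbd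
    have hzk : 0 < (z (χ k)).im := hKi (hzK _)
    rw [exx_diff hz'im hzk, add_sub_cancel_left, norm_smul]
    refine mul_le_mul_of_nonneg_left ?_ (norm_nonneg _)
    refine (norm_mul_le _ _).trans ?_
    exact mul_le_mul_of_nonneg_left (exx_Rz_norm hzk) (norm_nonneg _)
  have hMA : Tendsto (fun k => Fm (exx_mu (d := d) (z (χ k)))
      ((Ah d * mulop (S (χ k + N)) * Ah d) (w (χ k)))) atTop (𝓝 (Fm (exx_mu z') y)) :=
    ((isBoundedBilinearMap_apply (𝕜 := ℂ) (E := L2 d) (F := L2 d)).continuous.tendsto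
      (Fm (exx_mu z'), y)).comp (hMl.prodMk_nhds hAl)
  have hwl : Tendsto (fun k => w (χ k)) atTop (𝓝 (-((g : ℂ) • Fm (exx_mu z') y))) := by
    have h1 := (hMA.const_smul (g : ℂ)).neg
    refine h1.congr (fun k => ?_)
    exact (eq_neg_of_add_eq_zero_left (hweq (χ k))).symm
  obtain ⟨v, hv⟩ : ∃ v : L2 d, v = -((g : ℂ) • Fm (exx_mu z') y) := ⟨_, rfl⟩
  rw [← hv] at hwl
  have hTv : T v = y := tendsto_nhds_unique ((T.continuous.tendsto v).comp hwl) hyl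
  have hvn : ‖v‖ = 1 := by
    have h1 := hwl.norm
    simp only [hw1] at h1
    exact (tendsto_nhds_unique h1 tendsto_const_nhds)
  refine ⟨z', hz'K, v, ?_, ?_⟩
  · intro h0
    rw [h0, norm_zero] at hvn
    exact zero_ne_one hvn
  · change v + (g : ℂ) • Fm (exx_mu z') (T v) = 0
    rw [hTv]
    nth_rewrite 1 [hv]
    exact neg_add_cancel _

end Pool.Agent.Helper41.CE
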