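import Pool.Agent.Helper41.CE.TDefs
import Pool.Agent.Helper41.CE.CE13
import Pool.Agent.Helper41.CE.CU01
import Pool.Agent.Helper41.CE.CU02
import Pool.Agent.Helper41.CE.CU48

/-!
# Semiclassical eigenvalue bounds for Schroedinger operators: definitions
-/

open MeasureTheory Filter Topology Set
open scoped ENNReal NNReal ContDiff

namespace Pool.Agent.Helper41.CE


/-! ## TARGETS: prove these (statements must not be changed; helper lemmas are welcome) -/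

open SchwartzMap FourierTransform LineDeriv in
/-- the Schwartz function `conj φ` -/
noncomputable def cs {d : ℕ} (φ : E d → ℂ) (h : IsTest φ) : SchwartzMap (E d) ℂ :=
  HasCompactSupport.toSchwartzMap (f := fun x => (starRingEnd ℂ) (φ x))
    (h.2.comp_left (g := fun z : ℂ => (starRingEnd ℂ) z) (map_zero _))
    (Complex.conjCLE.contDiff.comp h.1)

theorem cs_apply {d : ℕ} (φ : E d → ℂ) (h : IsTest φ) (x : E d) :
    cs φ h x = (starRingEnd ℂ) (φ x) := rfl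

theorem pair_eq_inner {d : ℕ} (u : L2 d) (φ : E d → ℂ) (h : IsTest φ) :
    pair u φ = inner ℂ ((cs φ h).toLp 2 volume : L2 d) u := by
  rw [L2.inner_def]
  unfold pair
  apply integral_congr_ae
  filter_upwards [(cs φ h).coeFn_toLp 2 volume] with x hx
  rw [hx, cs_apply]
  simp [RCLike.inner_apply]

open FourierTransform in
theorem FT_toLp {d : ℕ} (f : SchwartzMap (E d) ℂ) : FT d (f.toLp 2 volume) = ((𝓕 f).toLp 2 volume : L2 d) :=
  SchwartzMap.toLp_fourier_eq f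

open LineDeriv in
theorem cs_pd {d : ℕ} (i : Fin d) (φ : E d → ℂ) (h : IsTest φ) :
    cs (pd i φ) (pd_test i φ h) = ∂_{EuclideanSpace.single i (1:ℝ)} (cs φ h) := by
  ext x
  rw [cs_apply, SchwartzMap.lineDerivOp_apply_eq_fderiv]
  have h1 : HasFDerivAt φ (fderiv ℝ φ x) x :=
    (h.1.differentiable (by simp) x).hasFDerivAt
  have h2 : HasFDerivAt (fun x => Complex.conjCLE (φ x))
      ((Complex.conjCLE : ℂ →L[ℝ] ℂ).comp (fderiv ℝ φ x)) x :=
    (Complex.conjCLE : ℂ →L[ℝ] ℂ).hasFDerivAt.comp x h1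
  have h3 : (cs φ h : E d → ℂ) = fun x => Complex.conjCLE (φ x) := rfl
  rw [h3, h2.fderiv]
  rfl

open FourierTransform LineDeriv in
theorem F_pd {d : ℕ} (i : Fin d) (φ : E d → ℂ) (h : IsTest φ) (ξ : E d) :
    (𝓕 (cs (pd i φ) (pd_test i φ h))) ξ =
      (2 * Real.pi * Complex.I * (ξ i : ℂ)) * (𝓕 (cs φ h)) ξ := by
  rw [cs_pd i φ h, SchwartzMap.fourier_lineDerivOp_eq]
  have h1 : (inner ℝ · (EuclideanSpace.single i (1:ℝ) : E d)).HasTemperateGrowth :=
    ((innerSL ℝ).flip _).hasTemperateGrowth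
  rw [_root_.smul_apply, SchwartzMap.smulLeftCLM_apply_apply h1]
  simp [EuclideanSpace.inner_single_right]
  ring

theorem sum_coe {d : ℕ} {ι : Type*} (s : Finset ι) (f : ι → L2 d) :
    ((∑ i ∈ s, f i : L2 d) : E d → ℂ) =ᵐ[volume] fun x => ∑ i ∈ s, (f i : E d → ℂ) x := by
  classical
  induction s using Finset.induction_on with
  | empty =>
    simp only [Finset.sum_empty]
    exact Lp.coeFn_zero _ _ _
  | insert a s ha ih =>
    rw [Finset.sum_insert ha]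
    filter_upwards [Lp.coeFn_add (f a) (∑ i ∈ s, f i), ih] with x h1 h2
    rw [h1, Pi.add_apply, h2, Finset.sum_insert ha]

/-- symbol of `A` -/
noncomputable def sg {d : ℕ} (ξ : E d) : ℂ := (((1 + rho ξ) ^ (-(1 / 2 : ℝ)) : ℝ) : ℂ)

theorem rho_nonneg {d : ℕ} (ξ : E d) : 0 ≤ rho ξ := by
  unfold rho
  positivity

/-- symbol of `∂_i A` -/
noncomputable def si {d : ℕ} (i : Fin d) (ξ : E d) : ℂ := (2 * Real.pi * Complex.I * (ξ i : ℂ)) * sg ξ

theorem sg_sq {d : ℕ} (ξ : E d) : sg ξ * (sg ξ * (1 + (rho ξ : ℂ))) = 1 := by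
  have h1 : 0 < 1 + rho ξ := by linarith [rho_nonneg ξ]
  have h2 : (1 + rho ξ) ^ (-(1 / 2 : ℝ)) * ((1 + rho ξ) ^ (-(1 / 2 : ℝ)) * (1 + rho ξ)) = 1 := by
    rw [← mul_assoc, ← Real.rpow_add h1]
    norm_num
    rw [Real.rpow_neg_one]
    exact inv_mul_cancel₀ h1.ne'
  unfold sg
  exact_mod_cast h2

theorem sg_BM (d : ℕ) : BM (sg : E d → ℂ) := BM_of_BV (Ah_BV d)

theorem si_BM {d : ℕ} (i : Fin d) : BM (si i : E d → ℂ) := by
  constructor
  · unfold si
    have h1 : Measurable fun ξ : E d => (ξ i : ℂ) := by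
      apply Continuous.measurable
      fun_prop
    exact (measurable_const.mul h1).mul (sg_BM d).1
  · refine ⟨1, fun ξ => ?_⟩
    have h1 : 0 < 1 + rho ξ := by linarith [rho_nonneg ξ]
    have h2 : ‖(2 * Real.pi * Complex.I * (ξ i : ℂ))‖ = 2 * Real.pi * |ξ i| := by
      simp [abs_of_pos Real.pi_pos]
    have h3 : ‖sg ξ‖ = (1 + rho ξ) ^ (-(1 / 2 : ℝ)) := by
      unfold sg
      rw [Complex.norm_real, Real.norm_of_nonneg (by positivity)]
    have h4 : |ξ i| ≤ ‖ξ‖ := by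
      have := PiLp.norm_apply_le ξ i
      simpa using this
    have h5 : 2 * Real.pi * |ξ i| ≤ (1 + rho ξ) ^ (1 / 2 : ℝ) := by
      rw [← Real.sqrt_eq_rpow]
      apply Real.le_sqrt_of_sq_le
      unfold rho
      have h6 : |ξ i| ^ 2 ≤ ‖ξ‖ ^ 2 := by gcongr
      have h7 : 0 < Real.pi ^ 2 := by positivity
      nlinarith
    unfold si
    rw [norm_mul, h2, h3]
    calc 2 * Real.pi * |ξ i| * (1 + rho ξ) ^ (-(1 / 2 : ℝ))
        ≤ (1 + rho ξ) ^ (1 / 2 : ℝ) * (1 + rho ξ) ^ (-(1 / 2 : ℝ)) := by gcongr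
      _ = 1 := by
        rw [← Real.rpow_add h1]
        norm_num

open FourierTransform in
theorem weak_grad {d : ℕ} (w : L2 d) (i : Fin d) (φ : E d → ℂ) (h : IsTest φ) :
    pair (Ah d w) (pd i φ) = - pair (Fm (si i) w : L2 d) φ := by
  rw [pair_eq_inner _ _ (pd_test i φ h), pair_eq_inner _ _ h,
    ← (FT d).inner_map_map ((cs (pd i φ) (pd_test i φ h)).toLp 2 volume : L2 d) (Ah d w),
    ← (FT d).inner_map_map ((cs φ h).toLp 2 volume : L2 d) (Fm (si i) w), FT_toLp, FT_toLp]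
  have e1 : FT d (Ah d w) = mulop sg (FT d w) := Fm_apply _ w
  rw [e1, Fm_apply, L2.inner_def, L2.inner_def, ← integral_neg]
  apply integral_congr_ae
  filter_upwards [(𝓕 (cs (pd i φ) (pd_test i φ h))).coeFn_toLp 2 volume, (𝓕 (cs φ h)).coeFn_toLp 2 volume,
    mulop_spec (sg_BM d) (FT d w), mulop_spec (si_BM i) (FT d w)] with ξ h1 h2 h3 h4
  rw [h1, h2, h3, h4, F_pd i φ h]
  simp only [RCLike.inner_apply, map_mul, si, Complex.conj_I, Complex.conj_ofReal]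
  simp only [map_ofNat]
  ring

open FourierTransform in
theorem Ah_Ah {d : ℕ} (φ : E d → ℂ) (h : IsTest φ) :
    Ah d (Ah d ((cs φ h).toLp 2 volume - ∑ i, (cs (pd i (pd i φ)) (pd_test i _ (pd_test i φ h))).toLp 2 volume)) =
      ((cs φ h).toLp 2 volume : L2 d) := by
  apply (FT d).injective
  have e1 : ∀ u : L2 d, FT d (Ah d u) = mulop sg (FT d u) := fun u => Fm_apply _ u
  rw [e1, e1, map_sub, map_sum, FT_toLp]
  simp only [FT_toLp]
  apply Lp.ext
  have h0 := (𝓕 (cs φ h)).coeFn_toLp 2 volume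
  have h1 : ∀ i : Fin d, ∀ᵐ ξ : E d,
      ((𝓕 (cs (pd i (pd i φ)) (pd_test i _ (pd_test i φ h)))).toLp 2 volume : L2 d) ξ =
        (𝓕 (cs (pd i (pd i φ)) (pd_test i _ (pd_test i φ h)))) ξ := fun i =>
    (𝓕 (cs (pd i (pd i φ)) (pd_test i _ (pd_test i φ h)))).coeFn_toLp 2 volume
  rw [← ae_all_iff] at h1
  have h2 := sum_coe (Finset.univ : Finset (Fin d)) (fun i =>
    ((𝓕 (cs (pd i (pd i φ)) (pd_test i _ (pd_test i φ h)))).toLp 2 volume : L2 d))
  have h3 := Lp.coeFn_sub ((𝓕 (cs φ h)).toLp 2 volume : L2 d) (∑ i : Fin d,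
    ((𝓕 (cs (pd i (pd i φ)) (pd_test i _ (pd_test i φ h)))).toLp 2 volume : L2 d))
  set Z : L2 d := ((𝓕 (cs φ h)).toLp 2 volume : L2 d) - (∑ i : Fin d,
    ((𝓕 (cs (pd i (pd i φ)) (pd_test i _ (pd_test i φ h)))).toLp 2 volume : L2 d)) with hZ
  filter_upwards [h0, h1, h2, h3, mulop_spec (sg_BM d) Z, mulop_spec (sg_BM d) (mulop sg Z)]
    with ξ h0 h1 h2 h3 h4 h5
  rw [h5, h4, h3, Pi.sub_apply, h2, h0]
  have h6 : ∑ i : Fin d, ((𝓕 (cs (pd i (pd i φ)) (pd_test i _ (pd_test i φ h)))).toLp 2 volume : L2 d) ξ =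
      -(rho ξ : ℂ) * (𝓕 (cs φ h)) ξ := by
    have h7 : ∀ i : Fin d, ((𝓕 (cs (pd i (pd i φ)) (pd_test i _ (pd_test i φ h)))).toLp 2 volume : L2 d) ξ =
        -(4 * Real.pi ^ 2 : ℂ) * (((ξ i) ^ 2 : ℝ) : ℂ) * (𝓕 (cs φ h)) ξ := by
      intro i
      rw [h1 i, F_pd i (pd i φ) (pd_test i φ h), F_pd i φ h]
      push_cast
      linear_combination (4 * (Real.pi : ℂ) ^ 2 * (ξ i : ℂ) ^ 2 * (𝓕 (cs φ h)) ξ) * Complex.I_sq
    rw [Finset.sum_congr rfl fun i _ => h7 i, ← Finset.sum_mul, ← Finset.mul_sum]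
    congr 1
    have h8 : ‖ξ‖ ^ 2 = ∑ i, (ξ i) ^ 2 := by
      rw [EuclideanSpace.norm_sq_eq]
      simp
    unfold rho
    rw [h8]
    push_cast
    ring
  rw [h6]
  linear_combination ((𝓕 (cs φ h)) ξ) * sg_sq ξ

theorem Ah_grad {d : ℕ} (w : L2 d) : ∃ g : Fin d → E d → ℂ, IsGrad (Ah d w) g ∧
    ∀ φ : E d → ℂ, IsTest φ → ∃ ψ : L2 d,
      (Ah d ψ : E d → ℂ) =ᵐ[volume] (fun x => (starRingEnd ℂ) (φ x)) ∧
      ∑ i, pair (g i) (pd i φ) + pair (Ah d w) φ = inner ℂ ψ w := by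
  refine ⟨fun i => (Fm (si i) w : L2 d), ?_, ?_⟩
  · intro i
    exact ⟨Lp.memLp _, fun φ hφ => weak_grad w i φ hφ⟩
  · intro φ hφ
    refine ⟨Ah d ((cs φ hφ).toLp 2 volume -
      ∑ i, (cs (pd i (pd i φ)) (pd_test i _ (pd_test i φ hφ))).toLp 2 volume), ?_, ?_⟩
    · rw [Ah_Ah φ hφ]
      exact (cs φ hφ).coeFn_toLp 2 volume
    · have e1 : ∀ u v : L2 d, inner ℂ (Ah d u) v = inner ℂ u (Ah d v) := by
        intro u v
        have h1 := Fm_inner (sg_BM d) u v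
        have h2 : (fun ξ : E d => (starRingEnd ℂ) (sg ξ)) = sg := by
          funext ξ
          unfold sg
          exact Complex.conj_ofReal _
        rw [h2] at h1
        exact h1
      rw [e1, inner_sub_left, sum_inner, ← pair_eq_inner (Ah d w) φ hφ]
      have h3 : ∀ i : Fin d, inner ℂ ((cs (pd i (pd i φ)) (pd_test i _ (pd_test i φ hφ))).toLp 2 volume : L2 d)
          (Ah d w) = - pair (Fm (si i) w : L2 d) (pd i φ) := by
        intro i
        rw [← pair_eq_inner, weak_grad w i (pd i φ) (pd_test i φ hφ)]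
      rw [Finset.sum_congr rfl fun i _ => h3 i, Finset.sum_neg_distrib]
      ring

end Pool.Agent.Helper41.CE
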