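import Pool.Agent.Helper41.CE.TDefs
import Pool.Agent.Helper41.CE.CU01
import Pool.Agent.Helper41.CE.CU02
import Pool.Agent.Helper41.CE.CU47
import Pool.Agent.Helper41.CE.CU48
import Pool.Agent.Helper41.CE.CU51

/-!
# Semiclassical eigenvalue bounds for Schroedinger operators: definitions
-/

open MeasureTheory Filter Topology Set
open scoped ENNReal NNReal ContDiff

namespace Pool.Agent.Helper41.CE


/-! ## TARGETS: prove these (statements must not be changed; helper lemmas are welcome) -/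

theorem tg_a_sq {d : ℕ} (ξ : E d) :
    (((1 + rho ξ) ^ (-(1 / 2 : ℝ)) : ℝ) : ℂ) * (((1 + rho ξ) ^ (-(1 / 2 : ℝ)) : ℝ) : ℂ) =
      ((1 + rho ξ : ℝ) : ℂ)⁻¹ := by
  have h : 0 < 1 + rho ξ := by unfold rho; positivity
  rw [← Complex.ofReal_mul, ← Real.rpow_add h, ← Complex.ofReal_inv]
  norm_num
  rw [Real.rpow_neg_one]
  push_cast
  rfl

theorem tg_BM_const {d : ℕ} (c : ℂ) : BM (fun _ : E d => c) :=
  ⟨measurable_const, ‖c‖, fun _ => le_rfl⟩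

theorem tg_BM_mul {d : ℕ} {f g : E d → ℂ} (hf : BM f) (hg : BM g) : BM (fun x => f x * g x) := by
  obtain ⟨hf1, C, hC⟩ := hf
  obtain ⟨hg1, D, hD⟩ := hg
  refine ⟨hf1.mul hg1, C * D, fun x => ?_⟩
  rw [norm_mul]
  exact mul_le_mul (hC x) (hD x) (norm_nonneg _) ((norm_nonneg _).trans (hC x))

theorem tg_BM_sig {d : ℕ} (z : ℂ) (hz : 0 < z.im) :
    BM (fun ξ : E d => ((1 + rho ξ : ℝ) : ℂ) * ((rho ξ : ℂ) - z)⁻¹) := by
  refine ⟨?_, 1 + ‖1 + z‖ / z.im, fun ξ => ?_⟩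
  · unfold rho
    fun_prop
  · have him : ((rho ξ : ℂ) - z).im = -z.im := by simp
    have hne : (rho ξ : ℂ) - z ≠ 0 := by
      intro h
      rw [h] at him
      simp at him
      linarith
    have h1 : ((1 + rho ξ : ℝ) : ℂ) * ((rho ξ : ℂ) - z)⁻¹ =
        1 + (1 + z) * ((rho ξ : ℂ) - z)⁻¹ := by
      field_simp
      push_cast
      ring
    have h2 : z.im ≤ ‖(rho ξ : ℂ) - z‖ := by
      have h3 := Complex.abs_im_le_norm ((rho ξ : ℂ) - z)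
      rw [him, abs_neg, abs_of_pos hz] at h3
      exact h3
    show ‖((1 + rho ξ : ℝ) : ℂ) * ((rho ξ : ℂ) - z)⁻¹‖ ≤ 1 + ‖1 + z‖ / z.im
    rw [h1]
    refine (norm_add_le _ _).trans ?_
    rw [norm_one, norm_mul, norm_inv, ← div_eq_mul_inv]
    gcongr

/-- the equation for `T w` -/
theorem tg_eq {d : ℕ} (T : L2 d →L[ℂ] L2 d) (ħ : ℝ) (hħ : 0 < ħ) (z : ℂ) (hz : 0 < z.im)
    (w : L2 d) (he : w + (((ħ ^ 2)⁻¹ : ℝ) : ℂ) •
      Fm (fun ξ => ((1 + rho ξ : ℝ) : ℂ) * ((rho ξ : ℂ) - z)⁻¹) (T w) = 0) :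
    T w = ((ħ ^ 2 : ℝ) : ℂ) • ((1 + z) • Ah d (Ah d w) - w) := by
  have ha : BM (fun ξ : E d => (((1 + rho ξ) ^ (-(1 / 2 : ℝ)) : ℝ) : ℂ)) := BM_of_BV (Ah_BV d)
  have hs := tg_BM_sig (d := d) z hz
  have h1 : (1 : L2 d →L[ℂ] L2 d) + (-(1 + z)) • (Ah d * Ah d) =
      Fm (fun ξ : E d => 1 + (-(1 + z)) * ((((1 + rho ξ) ^ (-(1 / 2 : ℝ)) : ℝ) : ℂ) *
        (((1 + rho ξ) ^ (-(1 / 2 : ℝ)) : ℝ) : ℂ))) := by
    rw [← Fm_add (tg_BM_const 1) (tg_BM_mul (tg_BM_const (-(1 + z))) (tg_BM_mul ha ha)),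
      ← Fm_smul (tg_BM_mul ha ha), ← Fm_mul ha ha, Fm_one]
    rfl
  have hb : BM (fun ξ : E d => 1 + (-(1 + z)) * ((((1 + rho ξ) ^ (-(1 / 2 : ℝ)) : ℝ) : ℂ) *
        (((1 + rho ξ) ^ (-(1 / 2 : ℝ)) : ℝ) : ℂ))) := by
    obtain ⟨hm, C, hC⟩ := tg_BM_mul (tg_BM_const (-(1 + z))) (tg_BM_mul ha ha)
    exact ⟨hm.const_add 1, 1 + C, fun x => (norm_add_le _ _).trans (by
      rw [norm_one]; linarith [hC x])⟩
  have h2 : ((1 : L2 d →L[ℂ] L2 d) + (-(1 + z)) • (Ah d * Ah d)) *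
      Fm (fun ξ : E d => ((1 + rho ξ : ℝ) : ℂ) * ((rho ξ : ℂ) - z)⁻¹) = 1 := by
    rw [h1, Fm_mul hb hs, ← Fm_one]
    congr 1
    funext ξ
    rw [tg_a_sq]
    have h : 0 < 1 + rho ξ := by unfold rho; positivity
    have h' : ((1 + rho ξ : ℝ) : ℂ) ≠ 0 := by exact_mod_cast h.ne'
    have him : ((rho ξ : ℂ) - z).im = -z.im := by simp
    have hne : (rho ξ : ℂ) - z ≠ 0 := by
      intro h
      rw [h] at him
      simp at him
      linarith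
    field_simp
    push_cast
    ring
  have h3 := congrArg (fun v => ((1 : L2 d →L[ℂ] L2 d) + (-(1 + z)) • (Ah d * Ah d)) v) he
  simp only [map_add, map_smul, map_zero] at h3
  have h4 : ((1 : L2 d →L[ℂ] L2 d) + (-(1 + z)) • (Ah d * Ah d))
      (Fm (fun ξ : E d => ((1 + rho ξ : ℝ) : ℂ) * ((rho ξ : ℂ) - z)⁻¹) (T w)) = T w := by
    have := congrArg (fun L : L2 d →L[ℂ] L2 d => L (T w)) h2
    exact this
  rw [h4] at h3
  have h5 : ((1 : L2 d →L[ℂ] L2 d) + (-(1 + z)) • (Ah d * Ah d)) w =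
      w + (-(1 + z)) • Ah d (Ah d w) := rfl
  rw [h5] at h3
  have hħ2 : ((ħ ^ 2 : ℝ) : ℂ) ≠ 0 := by exact_mod_cast (by positivity : ħ ^ 2 ≠ 0)
  have h6 : (((ħ ^ 2)⁻¹ : ℝ) : ℂ) • T w = -(w + (-(1 + z)) • Ah d (Ah d w)) :=
    (neg_eq_of_add_eq_zero_right h3).symm
  have h7 := congrArg (fun v => ((ħ ^ 2 : ℝ) : ℂ) • v) h6
  simp only [smul_smul] at h7
  rw [Complex.ofReal_inv, mul_inv_cancel₀ hħ2, one_smul] at h7
  rw [h7]
  congr 1
  rw [neg_add, neg_smul, neg_neg]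
  abel

/-- energy of the limit -/
theorem tg_energy (d : ℕ) (hd : 1 ≤ d) (q : ℝ) (hq1 : 1 ≤ q) (hqd : (d : ℝ) / q < 2)
    (S : ℕ → E d → ℂ) (hS : ∀ m, BC (S m)) (V : E d → ℂ) (hVm : Measurable V)
    (hVq : MemLp V (ENNReal.ofReal q) volume)
    (hloc : ∀ R : ℝ, ∃ m0 : ℕ, ∀ m, m0 ≤ m → ∀ x, ‖x‖ ≤ R → S m x = V x)
    (hdom : ∀ m x, S m x = 0 ∨ S m x = V x) (w : L2 d) :
    Integrable (fun x => ‖V x‖ * ‖(Ah d w : E d → ℂ) x‖ ^ 2) volume := by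
  obtain ⟨C, hC0, hC⟩ := hvb d hd q hq1 hqd
  have hq0 : 0 < q := by linarith
  have hVint : Integrable (fun x => ‖V x‖ ^ q) volume := by
    have h := hVq.integrable_norm_rpow (by simpa using hq0) ENNReal.ofReal_ne_top
    rwa [ENNReal.toReal_ofReal hq0.le] at h
  obtain ⟨B, hB⟩ : ∃ B : ℝ, B = C * Real.sqrt ((∫ x, ‖V x‖ ^ q) ^ (1 / q)) * ‖w‖ := ⟨_, rfl⟩
  have hBm : ∀ m, ‖mulop (fun x : E d => ((Real.sqrt ‖S m x‖ : ℝ) : ℂ)) (Ah d w)‖ ≤ B := by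
    intro m
    have h1 : ‖(mulop (fun x : E d => ((Real.sqrt ‖S m x‖ : ℝ) : ℂ)) * Ah d) w‖ ≤
        ‖mulop (fun x : E d => ((Real.sqrt ‖S m x‖ : ℝ) : ℂ)) * Ah d‖ * ‖w‖ :=
      ContinuousLinearMap.le_opNorm _ _
    refine h1.trans ?_
    rw [hB]
    refine mul_le_mul_of_nonneg_right ((hC (S m) (hS m)).trans ?_) (norm_nonneg _)
    refine mul_le_mul_of_nonneg_left (Real.sqrt_le_sqrt ?_) hC0.le
    refine Real.rpow_le_rpow (integral_nonneg fun x => by positivity) ?_ (by positivity)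
    refine integral_mono_of_nonneg (Eventually.of_forall fun x => by positivity) hVint
      (Eventually.of_forall fun x => ?_)
    show ‖S m x‖ ^ q ≤ ‖V x‖ ^ q
    rcases hdom m x with h | h
    · rw [h, norm_zero, Real.zero_rpow hq0.ne']
      positivity
    · rw [h]
  have hBM : ∀ m, BM (fun x : E d => ((Real.sqrt ‖S m x‖ : ℝ) : ℂ)) := by
    intro m
    obtain ⟨h1, ⟨D, hD⟩, h2⟩ := hS m
    refine ⟨?_, Real.sqrt D, fun x => ?_⟩
    · exact Complex.measurable_ofReal.comp (Real.continuous_sqrt.measurable.comp h1.norm)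
    · rw [Complex.norm_real, Real.norm_of_nonneg (Real.sqrt_nonneg _)]
      exact Real.sqrt_le_sqrt (hD x)
  have hFm : ∀ m, ∫⁻ x, ENNReal.ofReal (‖S m x‖ * ‖(Ah d w : E d → ℂ) x‖ ^ 2) ≤
      ENNReal.ofReal B ^ (2 : ℝ) := by
    intro m
    have h1 := mulop_spec (hBM m) (Ah d w)
    have h2 : ∫⁻ x, ENNReal.ofReal (‖S m x‖ * ‖(Ah d w : E d → ℂ) x‖ ^ 2) =
        ∫⁻ x, ‖(mulop (fun x : E d => ((Real.sqrt ‖S m x‖ : ℝ) : ℂ)) (Ah d w) : E d → ℂ) x‖ₑ ^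
          ((2 : ℝ≥0) : ℝ) := by
      refine lintegral_congr_ae ?_
      filter_upwards [h1] with x hx
      rw [hx, ← ofReal_norm, ENNReal.ofReal_rpow_of_nonneg (norm_nonneg _) (by norm_num)]
      congr 1
      rw [norm_mul, Complex.norm_real, Real.norm_of_nonneg (Real.sqrt_nonneg _)]
      norm_num
      rw [mul_pow, Real.sq_sqrt (norm_nonneg _)]
    rw [h2, ← eLpNorm_nnreal_pow_eq_lintegral (by norm_num)]
    have h3 : eLpNorm (mulop (fun x : E d => ((Real.sqrt ‖S m x‖ : ℝ) : ℂ)) (Ah d w) : E d → ℂ)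
        ((2 : ℝ≥0) : ℝ≥0∞) volume ≤ ENNReal.ofReal B := by
      have h4 := hBm m
      rw [Lp.norm_def] at h4
      have h5 : eLpNorm (mulop (fun x : E d => ((Real.sqrt ‖S m x‖ : ℝ) : ℂ)) (Ah d w) : E d → ℂ)
        2 volume ≠ ⊤ := Lp.eLpNorm_ne_top _
      exact (ENNReal.le_ofReal_iff_toReal_le h5 ((ENNReal.toReal_nonneg).trans h4)).2 h4
    exact ENNReal.rpow_le_rpow h3 (by norm_num)
  have hmeasF : ∀ m, AEMeasurable
      (fun x => ENNReal.ofReal (‖S m x‖ * ‖(Ah d w : E d → ℂ) x‖ ^ 2)) volume := by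
    intro m
    exact (((hS m).1.norm.aemeasurable).mul
      ((Lp.aestronglyMeasurable (Ah d w)).norm.aemeasurable.pow_const 2)).ennreal_ofReal
  refine ⟨hVm.norm.aestronglyMeasurable.mul ((Lp.aestronglyMeasurable (Ah d w)).norm.pow 2), ?_⟩
  rw [hasFiniteIntegral_iff_ofReal (Eventually.of_forall fun x => by positivity)]
  have hlim : ∀ x, ENNReal.ofReal (‖V x‖ * ‖(Ah d w : E d → ℂ) x‖ ^ 2) =
      liminf (fun m => ENNReal.ofReal (‖S m x‖ * ‖(Ah d w : E d → ℂ) x‖ ^ 2)) atTop := by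
    intro x
    obtain ⟨m0, hm0⟩ := hloc ‖x‖
    have h : Tendsto (fun m => ENNReal.ofReal (‖S m x‖ * ‖(Ah d w : E d → ℂ) x‖ ^ 2)) atTop
        (𝓝 (ENNReal.ofReal (‖V x‖ * ‖(Ah d w : E d → ℂ) x‖ ^ 2))) := by
      refine tendsto_const_nhds.congr' ?_
      filter_upwards [eventually_ge_atTop m0] with m hm
      rw [hm0 m hm x le_rfl]
    exact h.liminf_eq.symm
  simp_rw [hlim]
  refine lt_of_le_of_lt (lintegral_liminf_le' hmeasF) ?_
  have h7 : liminf (fun m => ∫⁻ x, ENNReal.ofReal (‖S m x‖ * ‖(Ah d w : E d → ℂ) x‖ ^ 2)) atTop ≤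
      liminf (fun _ : ℕ => ENNReal.ofReal B ^ (2 : ℝ)) atTop :=
    Filter.liminf_le_liminf (Eventually.of_forall hFm)
  refine lt_of_le_of_lt h7 ?_
  rw [Filter.liminf_const]
  exact ENNReal.rpow_lt_top_of_nonneg (by norm_num) ENNReal.ofReal_ne_top

theorem to_graph (d : ℕ) (hd : 1 ≤ d) (q : ℝ) (hq1 : 1 ≤ q) (hqd : (d : ℝ) / q < 2)
    (S : ℕ → E d → ℂ) (hS : ∀ m, BC (S m)) (V : E d → ℂ) (hVm : Measurable V)
    (hVq : MemLp V (ENNReal.ofReal q) volume)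
    (hloc : ∀ R : ℝ, ∃ m0 : ℕ, ∀ m, m0 ≤ m → ∀ x, ‖x‖ ≤ R → S m x = V x)
    (hdom : ∀ m x, S m x = 0 ∨ S m x = V x) (T : L2 d →L[ℂ] L2 d)
    (hTS : Tendsto (fun m => Ah d * mulop (S m) * Ah d) atTop (𝓝 T))
    (ħ : ℝ) (hħ : 0 < ħ) (z : ℂ) (hz : 0 < z.im) (w : L2 d) (hw : w ≠ 0)
    (he : w + (((ħ ^ 2)⁻¹ : ℝ) : ℂ) •
      Fm (fun ξ => ((1 + rho ξ : ℝ) : ℂ) * ((rho ξ : ℂ) - z)⁻¹) (T w) = 0) :
    ∃ u : E d → ℂ, ¬ (u =ᵐ[volume] 0) ∧
      Graph V ħ u (fun x => ((ħ ^ 2 : ℝ) : ℂ) * z * u x) := by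
  refine ⟨(Ah d w : E d → ℂ), ?_, Lp.memLp _, (Lp.memLp _).const_mul _,
    tg_energy d hd q hq1 hqd S hS V hVm hVq hloc hdom w, ?_⟩
  · intro h
    exact hw (Ah_inj w ((Lp.eq_zero_iff_ae_eq_zero).2 h))
  obtain ⟨g, hg, hgrad⟩ := Ah_grad w
  refine ⟨g, hg, fun φ hφ => ?_⟩
  obtain ⟨ψ, hψ, hsum⟩ := hgrad φ hφ
  have hTw := tg_eq T ħ hħ z hz w he
  -- pair u φ
  have hpu : pair (Ah d w : E d → ℂ) φ = inner ℂ (Ah d ψ) (Ah d w) := by
    rw [L2.inner_def]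
    unfold pair
    refine integral_congr_ae ?_
    filter_upwards [hψ] with x hx
    rw [hx, RCLike.inner_apply, Complex.conj_conj]
  -- pair (V u) φ
  obtain ⟨R, hR⟩ : ∃ R : ℝ, ∀ x, R < ‖x‖ → φ x = 0 := by
    obtain ⟨R, hR⟩ := hφ.2.isCompact.isBounded.subset_closedBall (0 : E d)
    refine ⟨R, fun x hx => ?_⟩
    by_contra hne
    have h1 := hR (subset_tsupport _ hne)
    rw [mem_closedBall_zero_iff] at h1
    linarith
  obtain ⟨m0, hm0⟩ := hloc R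
  have hpm : ∀ m, m0 ≤ m → pair (fun x => V x * (Ah d w : E d → ℂ) x) φ =
      inner ℂ ψ ((Ah d * mulop (S m) * Ah d) w) := by
    intro m hm
    have h1 : inner ℂ ψ ((Ah d * mulop (S m) * Ah d) w) =
        inner ℂ (Ah d ψ) (mulop (S m) (Ah d w)) := (Ah_inner _ _).symm
    rw [h1, L2.inner_def]
    unfold pair
    refine integral_congr_ae ?_
    filter_upwards [hψ, mulop_spec (BM_of_BC (hS m)) (Ah d w)] with x hx hx2
    rw [hx, hx2, RCLike.inner_apply, Complex.conj_conj]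
    by_cases hxR : ‖x‖ ≤ R
    · rw [hm0 m hm x hxR]
    · rw [hR x (not_le.1 hxR), mul_zero, mul_zero]
  have hlim : Tendsto (fun m => inner ℂ ψ ((Ah d * mulop (S m) * Ah d) w)) atTop
      (𝓝 (inner ℂ ψ (T w))) := by
    have h1 : Tendsto (fun m => (Ah d * mulop (S m) * Ah d) w) atTop (𝓝 (T w)) :=
      ((ContinuousLinearMap.apply ℂ (L2 d) w).continuous.tendsto T).comp hTS
    exact tendsto_const_nhds.inner h1
  have hpV : pair (fun x => V x * (Ah d w : E d → ℂ) x) φ = inner ℂ ψ (T w) := by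
    refine tendsto_nhds_unique (tendsto_const_nhds.congr' ?_) hlim
    filter_upwards [eventually_ge_atTop m0] with m hm
    exact hpm m hm
  have hpz : pair (fun x => ((ħ ^ 2 : ℝ) : ℂ) * z * (Ah d w : E d → ℂ) x) φ =
      ((ħ ^ 2 : ℝ) : ℂ) * z * pair (Ah d w : E d → ℂ) φ := by
    unfold pair
    rw [← integral_const_mul]
    congr 1
    funext x
    ring
  rw [hpz, hpV, hTw, inner_smul_right, inner_sub_right, inner_smul_right, hpu,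
    ← Ah_inner]
  rw [hpu] at hsum
  linear_combination (((ħ ^ 2 : ℝ) : ℂ)) * hsum

end Pool.Agent.Helper41.CE
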