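import Pool.Agent.Helper41.CE.TDefs
import Pool.Agent.Helper41.CE.CU49
import Pool.Agent.Helper41.CE.CU50
import Pool.Agent.Helper41.CE.CU52

/-!
# Semiclassical eigenvalue bounds for Schroedinger operators: definitions
-/

open MeasureTheory Filter Topology Set
open scoped ENNReal NNReal ContDiff

namespace Pool.Agent.Helper41.CE


/-! ## TARGETS: prove these (statements must not be changed; helper lemmas are welcome) -/

theorem lim_eig (d : ℕ) (hd : 1 ≤ d) (q : ℝ) (hq1 : 1 ≤ q) (hqd : (d : ℝ) / q < 2)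
    (S : ℕ → E d → ℂ) (hS : ∀ m, BC (S m)) (V : E d → ℂ) (hVm : Measurable V)
    (hVq : MemLp V (ENNReal.ofReal q) volume)
    (hloc : ∀ R : ℝ, ∃ m0 : ℕ, ∀ m, m0 ≤ m → ∀ x, ‖x‖ ≤ R → S m x = V x)
    (hdom : ∀ m x, S m x = 0 ∨ S m x = V x)
    (ħ : ℝ) (hħ : 0 < ħ) (K : Set ℂ) (hK : IsCompact K) (hKi : K ⊆ {z : ℂ | 0 < z.im})
    (hZ : ∀ᶠ m in atTop, ∃ z ∈ K, Zs ((ħ ^ 2)⁻¹) z (S m)) :
    ∃ z ∈ K, ∃ u : E d → ℂ, ¬ (u =ᵐ[volume] 0) ∧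
      Graph V ħ u (fun x => ((ħ ^ 2 : ℝ) : ℂ) * z * u x) := by
  obtain ⟨T, hT, hTS⟩ := form_op d hd q hq1 hqd S hS V hVm hVq hloc hdom
  obtain ⟨z, hz, w, hw, he⟩ := extract S hS T hT hTS ((ħ ^ 2)⁻¹) K hK hKi hZ
  exact ⟨z, hz, to_graph d hd q hq1 hqd S hS V hVm hVq hloc hdom T hTS ħ hħ z (hKi hz) w hw he⟩

end Pool.Agent.Helper41.CE
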