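import Pool.Agent.Helper41.CE.TDefs
import Pool.Agent.Helper41.CE.CU01
import Pool.Agent.Helper41.CE.CU11
import Pool.Agent.Helper41.CE.CU14
import Pool.Agent.Helper41.CE.CU35

/-!
# Semiclassical eigenvalue bounds for Schroedinger operators: definitions
-/

open MeasureTheory Filter Topology Set
open scoped ENNReal NNReal ContDiff

namespace Pool.Agent.Helper41.CE


/-! ## TARGETS: prove these (statements must not be changed; helper lemmas are welcome) -/

theorem v1_dila_zero {n : ℕ} (δ : ℝ) (x : E (n + 1)) : dila δ x 0 = δ * x 0 := by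
  simp [dila]
  ring

theorem v1_dila_ne {n : ℕ} (δ : ℝ) (x : E (n + 1)) (i : Fin (n + 1)) (hi : i ≠ 0) :
    dila δ x i = Real.sqrt δ * x i := by
  simp [dila, hi]

theorem v1_rfx_norm {n : ℕ} (x : E (n + 1)) : ‖rfx x‖ = ‖x‖ := by
  rw [EuclideanSpace.norm_eq, EuclideanSpace.norm_eq]
  congr 1
  refine Finset.sum_congr rfl fun i _ => ?_
  by_cases hi : i = 0
  · subst hi
    have : rfx x 0 = - x 0 := by
      simp [rfx]
      ring
    rw [this, norm_neg]
  · have : rfx x i = x i := by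
      simp [rfx, hi]
    rw [this]

theorem v1_box {n : ℕ} (δ R : ℝ) (hδ : 0 < δ) (x : E (n + 1)) (h : ‖dila δ x‖ ≤ R) (i : Fin (n + 1)) :
    |x i| ≤ if i = 0 then R / δ else R / Real.sqrt δ := by
  have h1 : ‖dila δ x i‖ ≤ ‖dila δ x‖ := PiLp.norm_apply_le _ i
  have h2 : |dila δ x i| ≤ R := by
    rw [Real.norm_eq_abs] at h1
    exact h1.trans h
  have hs : 0 < Real.sqrt δ := Real.sqrt_pos.mpr hδ
  split_ifs with hi
  · subst hi
    rw [v1_dila_zero, abs_mul, abs_of_pos hδ] at h2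
    rw [le_div_iff₀ hδ]
    linarith
  · rw [v1_dila_ne δ x i hi, abs_mul, abs_of_pos hs] at h2
    rw [le_div_iff₀ hs]
    linarith

theorem v1_dila_cont {n : ℕ} (δ : ℝ) : Continuous (dila δ : E (n + 1) → E (n + 1)) := by
  unfold dila
  fun_prop

theorem v1_meas {n : ℕ} {p : E (n + 1) → ℂ} (hp : BC p) (δ : ℝ) : Measurable (V1 p δ) := by
  have h1 : Measurable (dila δ : E (n + 1) → E (n + 1)) := (v1_dila_cont δ).measurable
  have h2 : Measurable (fun x : E (n + 1) => δ * (wt (dila δ x)) ^ 2) :=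
    measurable_const.mul ((wt_meas.comp h1).pow_const 2)
  exact (Complex.measurable_ofReal.comp h2).mul ((osc_BC hp δ).1.comp h1)

theorem v1_norm {n : ℕ} {p : E (n + 1) → ℂ} (δ : ℝ) (hδ : 0 < δ) (x : E (n + 1)) :
    ‖V1 p δ x‖ ≤ δ * (‖p (dila δ x)‖ + ‖p (rfx (dila δ x))‖) := by
  unfold V1
  rw [norm_mul, Complex.norm_real, Real.norm_eq_abs]
  have hw0 := wt_pos (dila δ x)
  have hw1 := wt_le_one (dila δ x)
  have h1 : |δ * (wt (dila δ x)) ^ 2| ≤ δ := by
    rw [abs_of_nonneg (by positivity)]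
    have : (wt (dila δ x)) ^ 2 ≤ 1 := pow_le_one₀ hw0.le hw1
    nlinarith
  have h2 : ‖osc p δ (dila δ x)‖ ≤ ‖p (dila δ x)‖ + ‖p (rfx (dila δ x))‖ := by
    unfold osc
    refine (norm_add_le _ _).trans ?_
    rw [norm_mul, norm_mul]
    have e1 : ∀ r : ℝ, ‖Complex.exp (Complex.I * (r : ℂ))‖ = 1 := by
      intro r
      rw [mul_comm]
      exact Complex.norm_exp_ofReal_mul_I r
    rw [e1, e1, mul_one, mul_one]
  exact mul_le_mul h1 h2 (norm_nonneg _) hδ.le

theorem V1_BC {n : ℕ} {p : E (n + 1) → ℂ} (hp : BC p) (δ : ℝ) (hδ : 0 < δ) : BC (V1 p δ) := by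
  obtain ⟨hpm, ⟨C, hC⟩, ⟨R, hR⟩⟩ := hp
  refine ⟨v1_meas ⟨hpm, ⟨C, hC⟩, ⟨R, hR⟩⟩ δ, ⟨δ * (C + C), fun x => ?_⟩,
    Real.sqrt (∑ i : Fin (n + 1), (if i = 0 then R / δ else R / Real.sqrt δ) ^ 2), fun x hx => ?_⟩
  · exact (v1_norm δ hδ x).trans
      (mul_le_mul_of_nonneg_left (add_le_add (hC _) (hC _)) hδ.le)
  · have h1 : R < ‖dila δ x‖ := by
      by_contra hcon
      push Not at hcon
      have h2 := v1_box δ R hδ x hcon
      apply absurd hx
      rw [not_lt, EuclideanSpace.norm_eq]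
      apply Real.sqrt_le_sqrt
      refine Finset.sum_le_sum fun i _ => ?_
      rw [Real.norm_eq_abs]
      exact pow_le_pow_left₀ (abs_nonneg _) (h2 i) 2
    have h2 := v1_norm (p := p) δ hδ x
    rw [hR _ h1, hR _ (by rw [v1_rfx_norm]; exact h1), norm_zero, add_zero, mul_zero] at h2
    exact norm_le_zero_iff.mp h2

theorem v1_vol {n : ℕ} (b : Fin (n + 1) → ℝ) (hb : ∀ i, 0 ≤ b i) :
    volume {x : E (n + 1) | ∀ i, |x i| ≤ b i} = ENNReal.ofReal (∏ i, (2 * b i)) := by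
  have h1 : {x : E (n + 1) | ∀ i, |x i| ≤ b i} =
      (@WithLp.ofLp 2 (Fin (n + 1) → ℝ)) ⁻¹' (Icc (-b) b) := by
    ext x
    constructor
    · intro h
      exact ⟨fun i => (abs_le.mp (h i)).1, fun i => (abs_le.mp (h i)).2⟩
    · intro h i
      exact abs_le.mpr ⟨h.1 i, h.2 i⟩
  rw [h1, (PiLp.volume_preserving_ofLp (Fin (n + 1))).measure_preimage
    measurableSet_Icc.nullMeasurableSet, Real.volume_Icc_pi,
    ENNReal.ofReal_prod_of_nonneg (fun i _ => by have := hb i; positivity)]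
  refine Finset.prod_congr rfl fun i _ => ?_
  congr 1
  show b i - (-b i) = 2 * b i
  ring

theorem V1_int {n : ℕ} {p : E (n + 1) → ℂ} (hp : BC p) (q : ℝ) (hq : 1 ≤ q) :
    ∃ C : ℝ, 0 < C ∧ ∀ δ : ℝ, 0 < δ →
      ∫ x, ‖V1 p δ x‖ ^ q ≤ C * δ ^ (q - ((n : ℝ) + 2) / 2) := by
  obtain ⟨hpm, ⟨C0, hC0⟩, ⟨R0, hR0⟩⟩ := hp
  obtain ⟨C, hC⟩ : ∃ C, C = max C0 1 := ⟨_, rfl⟩
  obtain ⟨R, hR⟩ : ∃ R, R = max R0 1 := ⟨_, rfl⟩
  have hCpos : 0 < C := by rw [hC]; exact lt_of_lt_of_le one_pos (le_max_right _ _)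
  have hRpos : 0 < R := by rw [hR]; exact lt_of_lt_of_le one_pos (le_max_right _ _)
  have hpC : ∀ x, ‖p x‖ ≤ C := fun x => (hC0 x).trans (by rw [hC]; exact le_max_left _ _)
  have hpR : ∀ x, R < ‖x‖ → p x = 0 := fun x hx =>
    hR0 x (lt_of_le_of_lt (by rw [hR]; exact le_max_left _ _) hx)
  refine ⟨(2 * C) ^ q * (2 * R) ^ (n + 1), by positivity, ?_⟩
  intro δ hδ
  have hs : 0 < Real.sqrt δ := Real.sqrt_pos.mpr hδ
  obtain ⟨b, hb⟩ : ∃ b : Fin (n + 1) → ℝ, b = fun i => if i = 0 then R / δ else R / Real.sqrt δ :=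
    ⟨_, rfl⟩
  have hb0 : ∀ i, 0 ≤ b i := by
    intro i
    rw [hb]
    show 0 ≤ if i = 0 then R / δ else R / Real.sqrt δ
    split_ifs <;> positivity
  have hvol := v1_vol b hb0
  have hprod : ∏ i, (2 * b i) = (2 * (R / δ)) * (2 * (R / Real.sqrt δ)) ^ n := by
    rw [Fin.prod_univ_succ, hb]
    simp [Fin.succ_ne_zero]
  have hmA : MeasurableSet {x : E (n + 1) | ∀ i, |x i| ≤ b i} := by
    have : {x : E (n + 1) | ∀ i, |x i| ≤ b i} = ⋂ i, {x : E (n + 1) | |x i| ≤ b i} := by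
      ext x
      simp
    rw [this]
    refine MeasurableSet.iInter fun i => ?_
    exact measurableSet_le (by fun_prop) measurable_const
  have hbound : ∀ x : E (n + 1), ‖V1 p δ x‖ ^ q ≤
      {x : E (n + 1) | ∀ i, |x i| ≤ b i}.indicator (fun _ => (δ * (2 * C)) ^ q) x := by
    intro x
    by_cases hx : x ∈ {x : E (n + 1) | ∀ i, |x i| ≤ b i}
    · rw [indicator_of_mem hx]
      refine Real.rpow_le_rpow (norm_nonneg _) ?_ (by linarith)
      refine (v1_norm δ hδ x).trans (mul_le_mul_of_nonneg_left ?_ hδ.le)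
      have h1 := hpC (dila δ x)
      have h2 := hpC (rfx (dila δ x))
      linarith
    · rw [indicator_of_notMem hx]
      have h1 : R < ‖dila δ x‖ := by
        by_contra hcon
        push Not at hcon
        apply hx
        intro i
        rw [hb]
        exact v1_box δ R hδ x hcon i
      have h2 := v1_norm (p := p) δ hδ x
      rw [hpR _ h1, hpR _ (by rw [v1_rfx_norm]; exact h1), norm_zero, add_zero, mul_zero] at h2
      rw [norm_le_zero_iff.mp h2, norm_zero, Real.zero_rpow (by linarith)]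
  have hfin : volume {x : E (n + 1) | ∀ i, |x i| ≤ b i} ≠ ⊤ := by
    rw [hvol]; exact ENNReal.ofReal_ne_top
  have hint : ∫ x, ‖V1 p δ x‖ ^ q ≤
      ∫ x, {x : E (n + 1) | ∀ i, |x i| ≤ b i}.indicator (fun _ => (δ * (2 * C)) ^ q) x := by
    apply integral_mono_of_nonneg
    · exact Eventually.of_forall fun x => Real.rpow_nonneg (norm_nonneg _) _
    · rw [integrable_indicator_iff hmA]
      exact integrableOn_const hfin
    · exact Eventually.of_forall hbound
  refine hint.trans (le_of_eq ?_)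
  rw [integral_indicator hmA, setIntegral_const, Measure.real, hvol,
    ENNReal.toReal_ofReal (Finset.prod_nonneg fun i _ => by have := hb0 i; positivity), hprod,
    smul_eq_mul, Real.mul_rpow hδ.le (by positivity)]
  have hpow : δ ^ (q - ((n : ℝ) + 2) / 2) = δ ^ q * (δ * (Real.sqrt δ) ^ n)⁻¹ := by
    rw [show q - ((n : ℝ) + 2) / 2 = q - (1 + (1 / 2) * n) by ring, Real.rpow_sub hδ,
      Real.rpow_add hδ, Real.rpow_one, Real.rpow_mul hδ.le, Real.rpow_natCast,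
      ← Real.sqrt_eq_rpow, div_eq_mul_inv]
  rw [hpow]
  have e1 : (2 * (R / Real.sqrt δ)) ^ n = (2 * R) ^ n * ((Real.sqrt δ) ^ n)⁻¹ := by
    rw [← mul_div_assoc, div_pow, div_eq_mul_inv]
  rw [e1, pow_succ, mul_inv]
  field_simp

end Pool.Agent.Helper41.CE
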