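import Pool.Agent.Helper41.CE.TDefs
import Pool.Agent.Helper41.CE.CU01
import Pool.Agent.Helper41.CE.CU33
import Pool.Agent.Helper41.CE.CU37
import Pool.Agent.Helper41.CE.CU38
import Pool.Agent.Helper41.CE.CU39
import Pool.Agent.Helper41.CE.CU42
import Pool.Agent.Helper41.CE.CU54

/-!
# Semiclassical eigenvalue bounds for Schroedinger operators: definitions
-/

open MeasureTheory Filter Topology Set
open scoped ENNReal NNReal ContDiff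

namespace Pool.Agent.Helper41.CE


/-! ## TARGETS: prove these (statements must not be changed; helper lemmas are welcome) -/

theorem blocks_k0 (C2 δ0 A Cc ε : ℝ) (hC2 : 0 < C2) (hδ0 : 0 < δ0) (hA : 0 ≤ A) (hε : 0 < ε) :
    ∃ k0 : ℕ, (∀ k : ℕ, ((k : ℝ) + k0 + 1) ^ (-C2) < δ0 ∧ ((k : ℝ) + k0 + 1) ^ (-C2) * A ≤ 1 / 2) ∧
      Summable (fun k : ℕ => Cc * ((k : ℝ) + k0 + 1) ^ (-2 : ℝ)) ∧
      ∑' k : ℕ, Cc * ((k : ℝ) + k0 + 1) ^ (-2 : ℝ) ≤ ε := by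
  have h1 : Tendsto (fun x : ℕ => ((x : ℝ) + 1) ^ (-C2)) atTop (𝓝 0) :=
    (tendsto_rpow_neg_atTop hC2).comp
      (tendsto_atTop_add_const_right _ _ tendsto_natCast_atTop_atTop)
  have h2 : Tendsto (fun x : ℕ => ((x : ℝ) + 1) ^ (-C2) * A) atTop (𝓝 0) := by
    have := h1.mul_const A
    rwa [zero_mul] at this
  have hs : Summable (fun m : ℕ => ((m : ℝ)) ^ (-2 : ℝ)) :=
    Real.summable_nat_rpow.2 (by norm_num)
  have hs1 : Summable (fun m : ℕ => ((m : ℝ) + 1) ^ (-2 : ℝ)) := by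
    have := (summable_nat_add_iff 1).2 hs
    refine this.congr (fun m => ?_)
    push_cast
    rfl
  have hs2 : Summable (fun m : ℕ => Cc * ((m : ℝ) + 1) ^ (-2 : ℝ)) := hs1.mul_left Cc
  have h3 := tendsto_sum_nat_add (fun m : ℕ => Cc * ((m : ℝ) + 1) ^ (-2 : ℝ))
  have e1 := h1.eventually (gt_mem_nhds hδ0)
  have e2 := h2.eventually (gt_mem_nhds (show (0 : ℝ) < 1 / 2 by norm_num))
  have e3 := h3.eventually (gt_mem_nhds hε)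
  obtain ⟨k0, ⟨h4, h5⟩, h6⟩ := ((e1.and e2).and e3).exists
  have hfun : (fun k : ℕ => Cc * (((k + k0 : ℕ) : ℝ) + 1) ^ (-2 : ℝ)) =
      fun k : ℕ => Cc * ((k : ℝ) + k0 + 1) ^ (-2 : ℝ) := by
    funext k
    push_cast
    rfl
  refine ⟨k0, ?_, ?_, ?_⟩
  · intro k
    have h7 : ((k : ℝ) + k0 + 1) ^ (-C2) ≤ ((k0 : ℝ) + 1) ^ (-C2) := by
      apply Real.rpow_le_rpow_of_nonpos (by positivity) _ (by linarith)
      have : (0 : ℝ) ≤ k := by positivity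
      linarith
    refine ⟨lt_of_le_of_lt h7 h4, ?_⟩
    exact (mul_le_mul_of_nonneg_right h7 hA).trans h5.le
  · rw [← hfun]
    exact (summable_nat_add_iff k0).2 hs2
  · rw [← hfun]
    exact h6.le

theorem blocks_BC {d : ℕ} {V : E d → ℂ} (hV : BC V) (κ μ : ℝ) (hκ : 0 < κ) :
    BC (fun x : E d => (μ : ℂ) * V (κ • (x - 0))) := by
  obtain ⟨hm, ⟨C, hC⟩, R, hR⟩ := hV
  refine ⟨?_, ⟨|μ| * C, fun x => ?_⟩, ⟨R / κ, fun x hx => ?_⟩⟩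
  · have h1 : Measurable (fun x : E d => κ • (x - 0)) :=
      (measurable_const_smul κ).comp (measurable_id.sub_const 0)
    exact measurable_const.mul (hm.comp h1)
  · rw [norm_mul, Complex.norm_real, Real.norm_eq_abs]
    exact mul_le_mul_of_nonneg_left (hC _) (abs_nonneg _)
  · show (μ : ℂ) * V (κ • (x - 0)) = 0
    rw [hR, mul_zero]
    rw [sub_zero, norm_smul, Real.norm_of_nonneg hκ.le]
    rwa [div_lt_iff₀ hκ, mul_comm] at hx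

theorem blocks_int {n : ℕ} (V : E (n + 1) → ℂ) (κ μ q : ℝ) (hκ : 0 < κ) (hμ : 0 < μ) :
    ∫ x, ‖(μ : ℂ) * V (κ • (x - 0))‖ ^ q = μ ^ q * (κ ^ (n + 1))⁻¹ * ∫ x, ‖V x‖ ^ q := by
  have h1 : ∀ x : E (n + 1), ‖(μ : ℂ) * V (κ • (x - 0))‖ ^ q = μ ^ q * ‖V (κ • x)‖ ^ q := by
    intro x
    rw [sub_zero, norm_mul, Complex.norm_real, Real.norm_of_nonneg hμ.le,
      Real.mul_rpow hμ.le (norm_nonneg _)]
  simp_rw [h1]
  rw [integral_const_mul]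
  have h2 : ∫ x : E (n + 1), ‖V (κ • x)‖ ^ q =
      |(κ ^ Module.finrank ℝ (E (n + 1)))⁻¹| • ∫ x : E (n + 1), ‖V x‖ ^ q :=
    Measure.integral_comp_smul (volume : Measure (E (n + 1))) (fun y => ‖V y‖ ^ q) κ
  rw [h2, finrank_euclideanSpace_fin, abs_of_pos (by positivity), smul_eq_mul]
  ring

theorem blocks_exp (n : ℕ) (γ h : ℝ) (hγ : 0 < γ) (hh : 0 < h) :
    (h ^ (-((n + 1 : ℝ) / γ))) ^ (γ + ((n : ℝ) + 1) / 2) *
      ((h ^ (-(((n + 1 : ℝ) / γ + 2) / 2))) ^ (n + 1))⁻¹ = 1 := by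
  rw [← Real.rpow_natCast, ← Real.rpow_mul hh.le, ← Real.rpow_mul hh.le, ← Real.rpow_neg hh.le,
    ← Real.rpow_add hh]
  have : -((n + 1 : ℝ) / γ) * (γ + ((n : ℝ) + 1) / 2) +
      -(-(((n + 1 : ℝ) / γ + 2) / 2) * ((n + 1 : ℕ) : ℝ)) = 0 := by
    push_cast
    field_simp
    ring
  rw [this, Real.rpow_zero]

/-- one eigenvalue of one block -/
theorem blocks_eig {n : ℕ} {p : E (n + 1) → ℂ} (hp : BC p) (lam0 : ℂ) (r δ s κ μ h L : ℝ)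
    (hδ : 0 < δ) (hs : 0 < s) (hκ : 0 < κ) (hL : κ ^ 2 = L) (hμ : μ / κ ^ 2 = h ^ 2) (g : ℝ)
    (hg : g * h ^ 2 = s)
    (hm : ∃ lam : ℂ, ‖lam - lam0‖ ≤ r ∧ 0 < lam.im ∧
        ¬ IsUnit (1 + (s : ℂ) • ((Wt n * Rs (sd δ) lam * Wt n) *
          (mulop (osc p δ) * ((1 / 2 : ℂ) • (1 + Rf n)))))) :
    ∃ z ∈ Metric.closedBall ((L : ℂ) * (1 + (δ : ℂ) * lam0) : ℂ) (L * (δ * r)),
      Zs g z (fun x : E (n + 1) => (μ : ℂ) * V1 p δ (κ • (x - 0))) := by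
  obtain ⟨lam, hlam, him, hu⟩ := hm
  have h1 := model_three hp δ s hδ lam him (model_two hp δ s hδ hs lam him hu)
  refine ⟨(κ : ℂ) ^ 2 * (1 + δ * lam), ?_, ?_⟩
  · rw [Metric.mem_closedBall, dist_eq_norm]
    have h2 : (κ : ℂ) ^ 2 = (L : ℂ) := by
      rw [← hL]
      push_cast
      rfl
    have h3 : (κ : ℂ) ^ 2 * (1 + δ * lam) - (L : ℂ) * (1 + (δ : ℂ) * lam0) =
        (L : ℂ) * ((δ : ℂ) * (lam - lam0)) := by
      rw [h2]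
      ring
    have hL0 : 0 ≤ L := by
      rw [← hL]
      positivity
    rw [h3, norm_mul, norm_mul, Complex.norm_real, Complex.norm_real, Real.norm_of_nonneg hL0,
      Real.norm_of_nonneg hδ.le]
    gcongr
  · apply Zs_scale (BM_of_BC (V1_BC hp δ hδ)) κ μ hκ 0 g
    · have : (1 + (δ : ℂ) * lam).im = δ * lam.im := by
        simp
      rw [this]
      positivity
    · have h4 : g * μ / κ ^ 2 = s := by
        rw [mul_div_assoc, hμ, hg]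
      rw [h4]
      exact h1

theorem blocks (n : ℕ) (γ : ℝ) (hγ : 1 / 2 < γ) :
    ∃ lam0 : ℂ, ∃ r : ℝ, 0 < r ∧ 2 * r < lam0.im ∧ ∃ θ : ℝ, 0 < θ ∧ θ < 1 ∧
    ∃ C2 : ℝ, 0 < C2 ∧ ∀ ε : ℝ, 0 < ε → ∃ k0 : ℕ, ∃ W : ℕ → E (n + 1) → ℂ,
      (∀ k, BC (W k)) ∧
      Summable (fun k => ∫ x, ‖W k x‖ ^ (γ + ((n : ℝ) + 1) / 2)) ∧
      (∑' k, ∫ x, ‖W k x‖ ^ (γ + ((n : ℝ) + 1) / 2)) ≤ ε ∧
      (∀ k : ℕ, ((k : ℝ) + k0 + 1) ^ (-C2) * (‖lam0‖ + 2 * r) ≤ 1 / 2) ∧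
      ∀ k : ℕ, ∀ g ∈ Icc ((θ ^ (k + k0)) ^ (-2 : ℤ)) ((θ ^ (k + k0 + 1)) ^ (-2 : ℤ)),
        ∃ z ∈ Metric.closedBall
            (((θ ^ (k + k0)) ^ (-((n + 1 : ℝ) / γ + 2)) : ℝ) *
              (1 + (((k : ℝ) + k0 + 1) ^ (-C2) : ℝ) * lam0) : ℂ)
            ((θ ^ (k + k0)) ^ (-((n + 1 : ℝ) / γ + 2)) * (((k : ℝ) + k0 + 1) ^ (-C2) * r)),
          Zs g z (W k) := by
  obtain ⟨p, hp, lam0, h0, hw⟩ := trunc_exists n
  obtain ⟨r, hrdef⟩ : ∃ r : ℝ, r = lam0.im / 4 := ⟨_, rfl⟩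
  have hr : 0 < r := by
    rw [hrdef]
    linarith
  obtain ⟨δ0, hδ0, η, hη, hmodel⟩ := model_one hp lam0 h0 hw r hr
  obtain ⟨θ, hθ⟩ : ∃ θ : ℝ, θ = (Real.sqrt (1 + η))⁻¹ := ⟨_, rfl⟩
  have hsq : 1 < Real.sqrt (1 + η) := by
    rw [Real.lt_sqrt (by norm_num)]
    linarith
  have hθ0 : 0 < θ := by
    rw [hθ]
    exact inv_pos.2 (by linarith)
  have hθ1 : θ < 1 := by
    rw [hθ]
    exact inv_lt_one_of_one_lt₀ hsq
  have hθ2 : (θ ^ 2)⁻¹ = 1 + η := by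
    rw [hθ, inv_pow, inv_inv, Real.sq_sqrt (by linarith)]
  have hγ0 : 0 < γ := by linarith
  have hγ1 : 0 < γ - 1 / 2 := by linarith
  have hq : 1 ≤ γ + ((n : ℝ) + 1) / 2 := by
    have : (0 : ℝ) ≤ n := by positivity
    linarith
  obtain ⟨C, hC, hint⟩ := V1_int hp (γ + ((n : ℝ) + 1) / 2) hq
  refine ⟨lam0, r, hr, by rw [hrdef]; linarith, θ, hθ0, hθ1, 2 / (γ - 1 / 2), by positivity, ?_⟩
  intro ε hε
  obtain ⟨k0, hk0, hsum, htsum⟩ := blocks_k0 (2 / (γ - 1 / 2)) δ0 (‖lam0‖ + 2 * r) C ε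
    (by positivity) hδ0 (by positivity) hε
  have hδpos : ∀ k : ℕ, 0 < ((k : ℝ) + k0 + 1) ^ (-(2 / (γ - 1 / 2))) := by
    intro k
    positivity
  have hhpos : ∀ k : ℕ, 0 < θ ^ (k + k0) := fun k => pow_pos hθ0 _
  have hbound : ∀ k : ℕ, ∫ x : E (n + 1),
      ‖(((θ ^ (k + k0)) ^ (-((n + 1 : ℝ) / γ)) : ℝ) : ℂ) *
        V1 p (((k : ℝ) + k0 + 1) ^ (-(2 / (γ - 1 / 2))))
        ((θ ^ (k + k0)) ^ (-(((n + 1 : ℝ) / γ + 2) / 2)) • (x - 0))‖ ^ (γ + ((n : ℝ) + 1) / 2) ≤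
      C * ((k : ℝ) + k0 + 1) ^ (-2 : ℝ) := by
    intro k
    rw [blocks_int _ _ _ _ (Real.rpow_pos_of_pos (hhpos k) _) (Real.rpow_pos_of_pos (hhpos k) _),
      blocks_exp n γ _ hγ0 (hhpos k), one_mul]
    refine (hint _ (hδpos k)).trans (le_of_eq ?_)
    congr 1
    rw [← Real.rpow_mul (by positivity)]
    congr 1
    have e1 : γ + ((n : ℝ) + 1) / 2 - ((n : ℝ) + 2) / 2 = γ - 1 / 2 := by ring
    rw [e1, neg_mul, div_mul_cancel₀ _ hγ1.ne']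
  have hnn : ∀ k : ℕ, 0 ≤ ∫ x : E (n + 1),
      ‖(((θ ^ (k + k0)) ^ (-((n + 1 : ℝ) / γ)) : ℝ) : ℂ) *
        V1 p (((k : ℝ) + k0 + 1) ^ (-(2 / (γ - 1 / 2))))
        ((θ ^ (k + k0)) ^ (-(((n + 1 : ℝ) / γ + 2) / 2)) • (x - 0))‖ ^ (γ + ((n : ℝ) + 1) / 2) := by
    intro k
    apply integral_nonneg
    intro x
    positivity
  have hsummable := Summable.of_nonneg_of_le hnn hbound hsum
  refine ⟨k0, fun k x => (((θ ^ (k + k0)) ^ (-((n + 1 : ℝ) / γ)) : ℝ) : ℂ) *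
        V1 p (((k : ℝ) + k0 + 1) ^ (-(2 / (γ - 1 / 2))))
        ((θ ^ (k + k0)) ^ (-(((n + 1 : ℝ) / γ + 2) / 2)) • (x - 0)), ?_, hsummable, ?_, ?_, ?_⟩
  · intro k
    exact blocks_BC (V1_BC hp _ (hδpos k)) _ _ (Real.rpow_pos_of_pos (hhpos k) _)
  · exact (hsummable.tsum_le_tsum hbound hsum).trans htsum
  · intro k
    exact (hk0 k).2
  · intro k g hg
    have hh := hhpos k
    have hg1 : 1 ≤ g * (θ ^ (k + k0)) ^ 2 := by
      have h1 := hg.1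
      rw [zpow_neg, zpow_ofNat, inv_le_iff_one_le_mul₀ (by positivity)] at h1
      exact h1
    have hg2 : g * (θ ^ (k + k0)) ^ 2 ≤ 1 + η := by
      have h1 := hg.2
      rw [zpow_neg, zpow_ofNat] at h1
      have h2 : ((θ ^ (k + k0 + 1)) ^ 2)⁻¹ * (θ ^ (k + k0)) ^ 2 = (θ ^ 2)⁻¹ := by
        rw [pow_succ θ (k + k0)]
        field_simp
      rw [← hθ2, ← h2]
      exact mul_le_mul_of_nonneg_right h1 (by positivity)
    refine blocks_eig hp lam0 r _ (g * (θ ^ (k + k0)) ^ 2) _ _ (θ ^ (k + k0)) _ (hδpos k)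
      (by linarith) (Real.rpow_pos_of_pos hh _) ?_ ?_ g rfl
      (hmodel _ _ (hδpos k) (hk0 k).1 hg1 hg2)
    · generalize θ ^ (k + k0) = h at hh ⊢
      rw [← Real.rpow_natCast, ← Real.rpow_mul hh.le]
      congr 1
      push_cast
      ring
    · generalize θ ^ (k + k0) = h at hh ⊢
      have e2 : (h ^ (-(((n + 1 : ℝ) / γ + 2) / 2))) ^ 2 = h ^ (-((n + 1 : ℝ) / γ + 2)) := by
        rw [← Real.rpow_natCast, ← Real.rpow_mul hh.le]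
        congr 1
        push_cast
        ring
      rw [e2, ← Real.rpow_sub hh, ← Real.rpow_natCast h 2]
      congr 1
      push_cast
      ring

end Pool.Agent.Helper41.CE
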