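import Pool.Agent.Helper41.CE.TDefs
import Pool.Agent.Helper41.CE.CU01
import Pool.Agent.Helper41.CE.CU45
import Pool.Agent.Helper41.CE.CU53
import Pool.Agent.Helper41.CE.CU55

/-!
# Semiclassical eigenvalue bounds for Schroedinger operators: definitions
-/

open MeasureTheory Filter Topology Set
open scoped ENNReal NNReal ContDiff

namespace Pool.Agent.Helper41.CE


/-! ## TARGETS: prove these (statements must not be changed; helper lemmas are welcome) -/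

theorem super_aux_cases {d : ℕ} (F : ℕ → E d → ℂ)
    (hdis : ∀ j k, j ≠ k → ∀ x, F j x = 0 ∨ F k x = 0) (x : E d) :
    (∀ k, F k x = 0) ∨ ∃ k, F k x ≠ 0 ∧ ∀ j, j ≠ k → F j x = 0 := by
  by_cases h : ∀ k, F k x = 0
  · exact Or.inl h
  · push Not at h
    obtain ⟨k, hk⟩ := h
    refine Or.inr ⟨k, hk, fun j hj => ?_⟩
    rcases hdis j k hj x with h1 | h1
    · exact h1
    · exact absurd h1 hk

theorem super_aux_bc {d : ℕ} (W : ℕ → E d → ℂ) (hW : ∀ k, BC (W k)) (h : ℕ → E d) (m : ℕ) :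
    BC (fun x => ∑ j ∈ Finset.range (m + 1), W j (x - h j)) := by
  refine ⟨?_, ?_, ?_⟩
  · refine Finset.measurable_sum _ fun j _ => ?_
    exact (hW j).1.comp (measurable_id.sub_const (h j))
  · choose C hC using fun k => (hW k).2.1
    refine ⟨∑ j ∈ Finset.range (m + 1), C j, fun x => ?_⟩
    exact (norm_sum_le _ _).trans (Finset.sum_le_sum fun j _ => hC j _)
  · choose R hR using fun k => (hW k).2.2
    refine ⟨∑ j ∈ Finset.range (m + 1), (|R j| + ‖h j‖), fun x hx => ?_⟩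
    refine Finset.sum_eq_zero fun j hj => hR j _ ?_
    have h1 : |R j| + ‖h j‖ ≤ ∑ j ∈ Finset.range (m + 1), (|R j| + ‖h j‖) :=
      Finset.single_le_sum (f := fun j => |R j| + ‖h j‖) (fun i _ => by positivity) hj
    have h2 : ‖x‖ ≤ ‖x - h j‖ + ‖h j‖ := by
      have := norm_add_le (x - h j) (h j)
      simpa using this
    have h3 := le_abs_self (R j)
    linarith

theorem super_aux_mulop {d : ℕ} (f : E d → ℂ) (hf : f =ᵐ[volume] 0) (u : L2 d) :
    mulop f u = 0 := by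
  unfold mulop
  split_ifs with h
  · have h1 := h.choose_spec u
    apply Lp.ext
    refine h1.trans ?_
    have h2 : (fun x => f x * u x) =ᵐ[volume] 0 := by
      filter_upwards [hf] with x hx
      simp [hx]
    exact h2.trans (Lp.coeFn_zero ℂ 2 volume).symm
  · rfl

theorem super_aux_int {d : ℕ} (W : E d → ℂ) (hW : BC W) (q : ℝ) (hq : 0 < q) (h : E d) :
    Integrable (fun x => ‖W (x - h)‖ ^ q) volume ∧
      ∫ x, ‖W (x - h)‖ ^ q = ∫ x, ‖W x‖ ^ q := by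
  constructor
  · have h1 : Integrable (fun x => ‖W x‖ ^ q) volume := by
      obtain ⟨hm, ⟨C, hC⟩, R, hR⟩ := hW
      have h2 : IntegrableOn (fun x => ‖W x‖ ^ q) (Metric.closedBall 0 R) volume := by
        refine Measure.integrableOn_of_bounded (M := (max C 0) ^ q) ?_ ?_ ?_
        · exact measure_closedBall_lt_top.ne
        · exact ((hm.norm.pow_const q)).aestronglyMeasurable
        · refine Filter.Eventually.of_forall fun x => ?_
          rw [Real.norm_of_nonneg (by positivity)]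
          exact Real.rpow_le_rpow (norm_nonneg _) ((hC x).trans (le_max_left _ _)) hq.le
      refine (integrableOn_iff_integrable_of_support_subset ?_).1 h2
      intro x hx
      rw [Function.mem_support] at hx
      rw [Metric.mem_closedBall, dist_zero_right]
      by_contra hcon
      push Not at hcon
      apply hx
      rw [hR x hcon]
      simp [Real.zero_rpow hq.ne']
    exact h1.comp_sub_right h
  · exact integral_sub_right_eq_self (fun x => ‖W x‖ ^ q) h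

theorem super_aux_V {d : ℕ} (W : ℕ → E d → ℂ) (hW : ∀ k, BC (W k)) (h : ℕ → E d)
    (q : ℝ) (hq : 0 < q)
    (hdis : ∀ j k, j ≠ k → ∀ x, W j (x - h j) = 0 ∨ W k (x - h k) = 0)
    (hloc : ∀ R : ℝ, ∃ K : ℕ, ∀ k, K ≤ k → ∀ x, ‖x‖ ≤ R → W k (x - h k) = 0)
    (hsum : Summable (fun k => ∫ x, ‖W k x‖ ^ q)) :
    ∃ V : E d → ℂ, Measurable V ∧ MemLp V (ENNReal.ofReal q) volume ∧
      (∫ x, ‖V x‖ ^ q) = (∑' k, ∫ x, ‖W k x‖ ^ q) ∧
      (∀ R : ℝ, ∃ m0 : ℕ, ∀ m, m0 ≤ m → ∀ x, ‖x‖ ≤ R →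
        (∑ j ∈ Finset.range (m + 1), W j (x - h j)) = V x) ∧
      (∀ m x, (∑ j ∈ Finset.range (m + 1), W j (x - h j)) = 0 ∨
        (∑ j ∈ Finset.range (m + 1), W j (x - h j)) = V x) := by
  set F : ℕ → E d → ℂ := fun k x => W k (x - h k) with hF
  have hdis' : ∀ j k, j ≠ k → ∀ x, F j x = 0 ∨ F k x = 0 := hdis
  have hcases := super_aux_cases F hdis'
  set V : E d → ℂ := fun x => ∑' k, F k x with hV
  -- value
  have hval0 : ∀ x, (∀ k, F k x = 0) → V x = 0 := by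
    intro x hx
    simp [hV, hx]
  have hval1 : ∀ x k, (∀ j, j ≠ k → F j x = 0) → V x = F k x := by
    intro x k hx
    exact tsum_eq_single k hx
  have hS0 : ∀ x m, (∀ k, F k x = 0) → (∑ j ∈ Finset.range (m + 1), F j x) = 0 := by
    intro x m hx
    exact Finset.sum_eq_zero fun j _ => hx j
  have hS1 : ∀ x k m, (∀ j, j ≠ k → F j x = 0) → k ≤ m →
      (∑ j ∈ Finset.range (m + 1), F j x) = F k x := by
    intro x k m hx hkm
    refine Finset.sum_eq_single k (fun j _ hj => hx j hj) (fun hk => ?_)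
    exact absurd (Finset.mem_range.2 (by omega)) hk
  have hS2 : ∀ x k m, (∀ j, j ≠ k → F j x = 0) → m < k →
      (∑ j ∈ Finset.range (m + 1), F j x) = 0 := by
    intro x k m hx hkm
    refine Finset.sum_eq_zero (fun j hj => hx j ?_)
    have := Finset.mem_range.1 hj
    omega
  have hdom : ∀ m x, (∑ j ∈ Finset.range (m + 1), F j x) = 0 ∨
        (∑ j ∈ Finset.range (m + 1), F j x) = V x := by
    intro m x
    rcases hcases x with h1 | ⟨k, hk, h1⟩
    · exact Or.inl (hS0 x m h1)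
    · rcases le_or_gt k m with h2 | h2
      · right
        rw [hS1 x k m h1 h2, hval1 x k h1]
      · exact Or.inl (hS2 x k m h1 h2)
  have hlocV : ∀ R : ℝ, ∃ m0 : ℕ, ∀ m, m0 ≤ m → ∀ x, ‖x‖ ≤ R →
        (∑ j ∈ Finset.range (m + 1), F j x) = V x := by
    intro R
    obtain ⟨K, hK⟩ := hloc R
    refine ⟨K, fun m hm x hx => ?_⟩
    rcases hcases x with h1 | ⟨k, hk, h1⟩
    · rw [hS0 x m h1, hval0 x h1]
    · have hkK : k < K := by
        by_contra hcon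
        push Not at hcon
        exact hk (hK k hcon x hx)
      rw [hS1 x k m h1 (by omega), hval1 x k h1]
  have hVm : Measurable V := by
    have hlim : ∀ x, Tendsto (fun m => ∑ j ∈ Finset.range (m + 1), F j x) atTop (𝓝 (V x)) := by
      intro x
      obtain ⟨m0, hm0⟩ := hlocV ‖x‖
      refine tendsto_const_nhds.congr' ?_
      filter_upwards [eventually_ge_atTop m0] with m hm
      exact (hm0 m hm x le_rfl).symm
    refine measurable_of_tendsto_metrizable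
      (f := fun m x => ∑ j ∈ Finset.range (m + 1), F j x) (fun m => ?_) (tendsto_pi_nhds.2 hlim)
    exact (super_aux_bc W hW h m).1
  have hpt : ∀ x, ENNReal.ofReal (‖V x‖ ^ q) = ∑' k, ENNReal.ofReal (‖F k x‖ ^ q) := by
    intro x
    rcases hcases x with h1 | ⟨k, hk, h1⟩
    · rw [hval0 x h1]
      simp [h1, Real.zero_rpow hq.ne']
    · rw [hval1 x k h1]
      symm
      refine tsum_eq_single k fun j hj => ?_
      rw [h1 j hj]
      simp [Real.zero_rpow hq.ne']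
  have hnn : ∀ k, 0 ≤ ∫ x, ‖W k x‖ ^ q := fun k =>
    integral_nonneg fun x => Real.rpow_nonneg (norm_nonneg _) _
  have hlint : ∫⁻ x, ENNReal.ofReal (‖V x‖ ^ q) = ENNReal.ofReal (∑' k, ∫ x, ‖W k x‖ ^ q) := by
    calc ∫⁻ x, ENNReal.ofReal (‖V x‖ ^ q) = ∫⁻ x, ∑' k, ENNReal.ofReal (‖F k x‖ ^ q) :=
          lintegral_congr hpt
      _ = ∑' k, ∫⁻ x, ENNReal.ofReal (‖F k x‖ ^ q) := by
          refine lintegral_tsum fun k => ?_
          have h1 : Measurable (F k) := (hW k).1.comp (measurable_id.sub_const (h k))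
          exact ((h1.norm.pow_const q).ennreal_ofReal).aemeasurable
      _ = ∑' k, ENNReal.ofReal (∫ x, ‖W k x‖ ^ q) := by
          refine tsum_congr fun k => ?_
          have h2 := super_aux_int (W k) (hW k) q hq (h k)
          rw [← h2.2, ofReal_integral_eq_lintegral_ofReal h2.1
            (Filter.Eventually.of_forall fun x => Real.rpow_nonneg (norm_nonneg _) _)]
      _ = ENNReal.ofReal (∑' k, ∫ x, ‖W k x‖ ^ q) :=
          (ENNReal.ofReal_tsum_of_nonneg hnn hsum).symm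
  have hVq : Measurable (fun x => ‖V x‖ ^ q) := hVm.norm.pow_const q
  have hVint : Integrable (fun x => ‖V x‖ ^ q) volume := by
    refine ⟨hVq.aestronglyMeasurable, ?_⟩
    rw [hasFiniteIntegral_iff_ofReal
      (Filter.Eventually.of_forall fun x => Real.rpow_nonneg (norm_nonneg _) _), hlint]
    exact ENNReal.ofReal_lt_top
  refine ⟨V, hVm, ?_, ?_, hlocV, hdom⟩
  · refine (integrable_norm_rpow_iff hVm.aestronglyMeasurable ?_ ENNReal.ofReal_ne_top).1 ?_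
    · simpa using hq
    · rw [ENNReal.toReal_ofReal hq.le]
      exact hVint
  · rw [integral_eq_lintegral_of_nonneg_ae
      (Filter.Eventually.of_forall fun x => Real.rpow_nonneg (norm_nonneg _) _)
      hVq.aestronglyMeasurable, hlint, ENNReal.toReal_ofReal (tsum_nonneg hnn)]

theorem super (n : ℕ) (γ : ℝ) (hγ : 1 / 2 < γ) :
    ∃ lam0 : ℂ, ∃ r : ℝ, 0 < r ∧ 2 * r < lam0.im ∧ ∃ θ : ℝ, 0 < θ ∧ θ < 1 ∧
    ∃ C2 : ℝ, 0 < C2 ∧ ∀ ε : ℝ, 0 < ε → ∃ k0 : ℕ, ∃ V : E (n + 1) → ℂ,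
      MemLp V (ENNReal.ofReal (γ + ((n + 1 : ℕ) : ℝ) / 2)) volume ∧ ¬ (V =ᵐ[volume] 0) ∧
      (∫ x, ‖V x‖ ^ (γ + ((n + 1 : ℕ) : ℝ) / 2)) ≤ ε ∧
      (∀ k : ℕ, ((k : ℝ) + k0 + 1) ^ (-C2) * (‖lam0‖ + 2 * r) ≤ 1 / 2) ∧
      ∀ k : ℕ, ∀ ħ ∈ Icc (θ ^ (k + k0 + 1)) (θ ^ (k + k0)),
        ∃ z ∈ Metric.closedBall
            (((θ ^ (k + k0)) ^ (-((n + 1 : ℝ) / γ + 2)) : ℝ) *
              (1 + (((k : ℝ) + k0 + 1) ^ (-C2) : ℝ) * lam0) : ℂ)
            ((θ ^ (k + k0)) ^ (-((n + 1 : ℝ) / γ + 2)) * (((k : ℝ) + k0 + 1) ^ (-C2) * (2 * r))),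
          ∃ u : E (n + 1) → ℂ, ¬ (u =ᵐ[volume] 0) ∧
            Graph V ħ u (fun x => ((ħ ^ 2 : ℝ) : ℂ) * z * u x) := by
  obtain ⟨lam0, r, hr0, hr2, θ, hθ0, hθ1, C2, hC2, hblocks⟩ := blocks n γ hγ
  refine ⟨lam0, r, hr0, hr2, θ, hθ0, hθ1, C2, hC2, ?_⟩
  intro ε hε
  obtain ⟨k0, W, hBC, hsum, hle, hδ, hP⟩ := hblocks ε hε
  have hn0 : (0 : ℝ) ≤ n := Nat.cast_nonneg n
  have hqpos : 0 < γ + ((n : ℝ) + 1) / 2 := by linarith
  have hq1 : 1 ≤ γ + ((n : ℝ) + 1) / 2 := by linarith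
  have hqd : (((n + 1 : ℕ) : ℝ)) / (γ + ((n : ℝ) + 1) / 2) < 2 := by
    rw [div_lt_iff₀ hqpos]
    push_cast
    linarith
  have hcast : (((n + 1 : ℕ) : ℝ)) = (n : ℝ) + 1 := by push_cast; ring
  have hκ : ∀ k : ℕ, 0 < (θ ^ (k + k0)) ^ (-((n + 1 : ℝ) / γ + 2)) := fun k =>
    Real.rpow_pos_of_pos (pow_pos hθ0 _) _
  have hδ0 : ∀ k : ℕ, 0 < ((k : ℝ) + k0 + 1) ^ (-C2) := fun k =>
    Real.rpow_pos_of_pos (by positivity) _
  have hball : ∀ k : ℕ, Metric.closedBall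
            (((θ ^ (k + k0)) ^ (-((n + 1 : ℝ) / γ + 2)) : ℝ) *
              (1 + (((k : ℝ) + k0 + 1) ^ (-C2) : ℝ) * lam0) : ℂ)
            ((θ ^ (k + k0)) ^ (-((n + 1 : ℝ) / γ + 2)) * (((k : ℝ) + k0 + 1) ^ (-C2) * (2 * r)))
          ⊆ {z : ℂ | 0 < z.im} := by
    intro k z hz
    have hκk := hκ k
    have hδk := hδ0 k
    generalize (θ ^ (k + k0)) ^ (-((n + 1 : ℝ) / γ + 2)) = κ at hz hκk
    generalize ((k : ℝ) + k0 + 1) ^ (-C2) = δ at hz hδk
    rw [Metric.mem_closedBall, dist_eq_norm] at hz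
    have h1 := (Complex.abs_im_le_norm _).trans hz
    have h2 := (abs_le.1 h1).1
    have h3 : ((κ : ℂ) * (1 + (δ : ℂ) * lam0)).im = κ * (δ * lam0.im) := by
      simp
    rw [Complex.sub_im, h3] at h2
    have h4 : 0 < κ * (δ * (lam0.im - 2 * r)) :=
      mul_pos hκk (mul_pos hδk (by linarith))
    show 0 < z.im
    nlinarith
  have hg1 : ∀ k : ℕ, 0 < (θ ^ (k + k0)) ^ (-2 : ℤ) := fun k => zpow_pos (pow_pos hθ0 _) _
  have hzp : ∀ a : ℝ, a ^ (-2 : ℤ) = (a ^ 2)⁻¹ := by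
    intro a
    rw [zpow_neg]
    norm_cast
  have hmono : ∀ k : ℕ, θ ^ (k + k0 + 1) ≤ θ ^ (k + k0) := fun k =>
    pow_le_pow_of_le_one hθ0.le hθ1.le (by omega)
  have hg2 : ∀ k : ℕ, (θ ^ (k + k0)) ^ (-2 : ℤ) ≤ (θ ^ (k + k0 + 1)) ^ (-2 : ℤ) := by
    intro k
    rw [hzp, hzp]
    have h0 : 0 < θ ^ (k + k0 + 1) := pow_pos hθ0 _
    exact inv_anti₀ (by positivity) (pow_le_pow_left₀ h0.le (hmono k) 2)
  obtain ⟨h, hloc, hdis, hpl⟩ := place (d := n + 1) (by omega) W hBC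
    (fun k => (θ ^ (k + k0)) ^ (-2 : ℤ)) (fun k => (θ ^ (k + k0 + 1)) ^ (-2 : ℤ)) hg1 hg2
    (fun k => (((θ ^ (k + k0)) ^ (-((n + 1 : ℝ) / γ + 2)) : ℝ) *
              (1 + (((k : ℝ) + k0 + 1) ^ (-C2) : ℝ) * lam0) : ℂ))
    (fun k => (θ ^ (k + k0)) ^ (-((n + 1 : ℝ) / γ + 2)) * (((k : ℝ) + k0 + 1) ^ (-C2) * r))
    (fun k => (θ ^ (k + k0)) ^ (-((n + 1 : ℝ) / γ + 2)) * (((k : ℝ) + k0 + 1) ^ (-C2) * (2 * r)))
    (fun k => by
      have h1 := hκ k
      have h2 := hδ0 k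
      have h3 : ((k : ℝ) + k0 + 1) ^ (-C2) * r < ((k : ℝ) + k0 + 1) ^ (-C2) * (2 * r) :=
        mul_lt_mul_of_pos_left (by linarith) h2
      exact mul_lt_mul_of_pos_left h3 h1)
    hball hP
  obtain ⟨V, hVm, hVq, hVint, hVloc, hVdom⟩ :=
    super_aux_V W hBC h (γ + ((n : ℝ) + 1) / 2) hqpos hdis hloc hsum
  refine ⟨k0, V, ?_, ?_, ?_, hδ, ?_⟩
  · rw [hcast]; exact hVq
  · intro hV0
    obtain ⟨z, hz, u, hu, hu2⟩ := hpl 0 0 le_rfl _ (left_mem_Icc.2 (hg2 0))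
    have hS0 : (fun x => ∑ j ∈ Finset.range (0 + 1), W j (x - h j)) =ᵐ[volume] 0 := by
      filter_upwards [hV0] with x hx
      rcases hVdom 0 x with h1 | h1
      · simpa using h1
      · rw [h1, hx]
    rw [super_aux_mulop _ hS0 u] at hu2
    apply hu
    simpa using hu2
  · rw [hcast, hVint]; exact hle
  · intro k ħ hħ
    have h0 : 0 < θ ^ (k + k0 + 1) := pow_pos hθ0 _
    have hħ0 : 0 < ħ := lt_of_lt_of_le h0 hħ.1
    have hg : (ħ ^ 2)⁻¹ ∈ Icc ((θ ^ (k + k0)) ^ (-2 : ℤ)) ((θ ^ (k + k0 + 1)) ^ (-2 : ℤ)) := by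
      rw [hzp, hzp]
      constructor
      · exact inv_anti₀ (by positivity) (pow_le_pow_left₀ hħ0.le hħ.2 2)
      · exact inv_anti₀ (by positivity) (pow_le_pow_left₀ h0.le hħ.1 2)
    exact lim_eig (n + 1) (by omega) (γ + ((n : ℝ) + 1) / 2) hq1 hqd
      (fun m x => ∑ j ∈ Finset.range (m + 1), W j (x - h j)) (super_aux_bc W hBC h) V hVm hVq
      hVloc hVdom ħ hħ0 _ (isCompact_closedBall _ _) (hball k)
      (Filter.eventually_atTop.2 ⟨k, fun m hm => hpl k m hm _ hg⟩)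

end Pool.Agent.Helper41.CE
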