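import Pool.Agent.Helper41.CE.TDefs

open MeasureTheory Filter Topology Set
open scoped ENNReal NNReal ContDiff

namespace Pool.Agent.Helper41.CE

theorem dRay_up (z : ℂ) (hre : 0 < z.re) : dRay z = |z.im| := by
  unfold dRay
  have hmem : ((z.re : ℝ) : ℂ) ∈ posRay := ⟨by simp, by simpa using hre.le⟩
  apply le_antisymm
  · refine le_trans (Metric.infDist_le_dist_of_mem hmem) (le_of_eq ?_)
    rw [Complex.dist_eq]
    have h : z - ((z.re : ℝ) : ℂ) = ((z.im : ℝ) : ℂ) * Complex.I := by
      apply Complex.ext <;> simp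
    rw [h, norm_mul, Complex.norm_I, mul_one, Complex.norm_real, Real.norm_eq_abs]
  · rw [Metric.le_infDist ⟨_, hmem⟩]
    intro y hy
    rw [Complex.dist_eq]
    have h1 := Complex.abs_im_le_norm (z - y)
    rw [Complex.sub_im, hy.1, sub_zero] at h1
    exact h1

end Pool.Agent.Helper41.CE
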