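import Pool.Agent.Helper41.CE.TDefs
import Pool.Agent.Helper41.CE.CU56
import Pool.Agent.Helper41.CE.CU57

/-!
# Semiclassical eigenvalue bounds for Schroedinger operators: definitions
-/

open MeasureTheory Filter Topology Set
open scoped ENNReal NNReal ContDiff

namespace Pool.Agent.Helper41.CE


/-! ## TARGETS: prove these (statements must not be changed; helper lemmas are welcome) -/

theorem T1_main (n : ℕ) (γ : ℝ) (hγ : 1 / 2 < γ) :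
    ∃ V : E (n + 1) → ℂ, MemLp V (ENNReal.ofReal (γ + ((n + 1 : ℕ) : ℝ) / 2)) volume ∧
      ¬ (V =ᵐ[volume] 0) ∧ ∃ c C2 : ℝ, 0 < c ∧ 0 < C2 ∧ ∃ h0 : ℝ, 0 < h0 ∧
        ∀ ħ : ℝ, 0 < ħ → ħ < h0 → ∃ z : ℂ, z ∉ posRay ∧ NN γ V ħ ≤ ‖z‖ ^ γ ∧
          c * (1 + Real.log (1 / ħ)) ^ (-C2) ≤ dRay z / ‖z‖ ∧
          ∃ u : E (n + 1) → ℂ, ¬ (u =ᵐ[volume] 0) ∧ Graph V ħ u (fun x => z * u x) := by
  obtain ⟨lam0, r, hr, hr2, θ, hθ0, hθ1, C2, hC2, hsup⟩ := super n γ hγ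
  have hγ0 : 0 < γ := by linarith
  have hd0 : (0 : ℝ) < ((n + 1 : ℕ) : ℝ) := by positivity
  have hs : 0 < ((n + 1 : ℕ) : ℝ) + 2 * γ := by linarith
  obtain ⟨k0, V, hV1, hV2, hV3, hδ, hk⟩ :=
    hsup ((2 : ℝ) ^ (-γ) * θ ^ (((n + 1 : ℕ) : ℝ) + 2 * γ)) (by positivity)
  have hlogθ : 0 < Real.log (1 / θ) := Real.log_pos (one_lt_one_div hθ0 hθ1)
  set A : ℝ := max 1 (1 / Real.log (1 / θ)) with hA
  have hA1 : 1 ≤ A := le_max_left _ _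
  have hA2 : 1 / Real.log (1 / θ) ≤ A := le_max_right _ _
  have hA0 : 0 < A := by linarith
  have him : 0 < lam0.im - 2 * r := by linarith
  refine ⟨V, hV1, hV2, (2 / 3) * (lam0.im - 2 * r) * A ^ (-C2), C2,
    mul_pos (mul_pos (by norm_num) him) (Real.rpow_pos_of_pos hA0 _), hC2, θ ^ k0,
    pow_pos hθ0 _, ?_⟩
  intro ħ hħ0 hħ1
  have hħle : ħ ≤ 1 := hħ1.le.trans (pow_le_one₀ hθ0.le hθ1.le)
  obtain ⟨N, hN1, hN2⟩ := exists_nat_pow_near_of_lt_one hħ0 hħle hθ0 hθ1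
  have hNk : k0 ≤ N := by
    by_contra h
    push Not at h
    have h' : N + 1 ≤ k0 := h
    have h'' : θ ^ k0 ≤ θ ^ (N + 1) := pow_le_pow_of_le_one hθ0.le hθ1.le h'
    exact absurd (hN1.trans hħ1) (not_lt.2 h'')
  obtain ⟨k, rfl⟩ : ∃ k, N = k + k0 := ⟨N - k0, by omega⟩
  obtain ⟨z', hz', u, hu, hG⟩ := hk k ħ ⟨hN1.le, hN2⟩
  have hδk := hδ k
  have hpθ : 0 < θ ^ (k + k0) := pow_pos hθ0 _
  have hK20 : 0 < (θ ^ (k + k0)) ^ (-((n + 1 : ℝ) / γ + 2)) := Real.rpow_pos_of_pos hpθ _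
  have hδ0 : 0 < ((k : ℝ) + k0 + 1) ^ (-C2) := Real.rpow_pos_of_pos (by positivity) _
  -- the constant `K2`
  have hK2γ : ((θ ^ (k + k0)) ^ (-((n + 1 : ℝ) / γ + 2))) ^ γ =
      (θ ^ (k + k0)) ^ (-(((n + 1 : ℕ) : ℝ) + 2 * γ)) := by
    rw [← Real.rpow_mul hpθ.le]
    congr 1
    push_cast
    field_simp
  have hδge : A ^ (-C2) * (1 + Real.log (1 / ħ)) ^ (-C2) ≤ ((k : ℝ) + k0 + 1) ^ (-C2) := by
    have hlogħ : 0 ≤ Real.log (1 / ħ) := Real.log_nonneg (by rw [le_div_iff₀ hħ0]; linarith)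
    rw [← Real.mul_rpow hA0.le (by linarith)]
    apply Real.rpow_le_rpow_of_nonpos (by positivity) _ (by linarith)
    have h1 : ((k : ℝ) + k0) * Real.log (1 / θ) ≤ Real.log (1 / ħ) := by
      have h2 : Real.log ħ ≤ Real.log (θ ^ (k + k0)) := Real.log_le_log hħ0 hN2
      rw [Real.log_pow] at h2
      rw [one_div, one_div, Real.log_inv, Real.log_inv]
      push_cast at h2
      linarith
    have h3 : (k : ℝ) + k0 ≤ Real.log (1 / ħ) * (1 / Real.log (1 / θ)) := by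
      rw [mul_one_div, le_div_iff₀ hlogθ]
      exact h1
    have h4 : Real.log (1 / ħ) * (1 / Real.log (1 / θ)) ≤ Real.log (1 / ħ) * A :=
      mul_le_mul_of_nonneg_left hA2 hlogħ
    calc (k : ℝ) + k0 + 1 ≤ Real.log (1 / ħ) * A + A := by linarith
      _ = A * (1 + Real.log (1 / ħ)) := by ring
  rw [Metric.mem_closedBall, Complex.dist_eq] at hz'
  set K2 : ℝ := (θ ^ (k + k0)) ^ (-((n + 1 : ℝ) / γ + 2)) with hK2
  set δ : ℝ := ((k : ℝ) + k0 + 1) ^ (-C2) with hδdef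
  set c0 : ℂ := (K2 : ℂ) * (1 + (δ : ℂ) * lam0) with hc0
  have h1 : ‖z' - (K2 : ℂ)‖ ≤ K2 / 2 := by
    have e1 : z' - (K2 : ℂ) = (z' - c0) + ((K2 * δ : ℝ) : ℂ) * lam0 := by
      rw [hc0]
      push_cast
      ring
    have e2 : ‖((K2 * δ : ℝ) : ℂ) * lam0‖ = K2 * δ * ‖lam0‖ := by
      rw [norm_mul, Complex.norm_real, Real.norm_of_nonneg (by positivity)]
    calc ‖z' - (K2 : ℂ)‖ ≤ ‖z' - c0‖ + ‖((K2 * δ : ℝ) : ℂ) * lam0‖ := by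
          rw [e1]; exact norm_add_le _ _
      _ ≤ K2 * (δ * (2 * r)) + K2 * δ * ‖lam0‖ := by rw [e2]; linarith
      _ = K2 * (δ * (‖lam0‖ + 2 * r)) := by ring
      _ ≤ K2 * (1 / 2) := mul_le_mul_of_nonneg_left hδk hK20.le
      _ = K2 / 2 := by ring
  have h2 : K2 / 2 ≤ z'.re := by
    have e1 := Complex.abs_re_le_norm (z' - (K2 : ℂ))
    rw [Complex.sub_re, Complex.ofReal_re] at e1
    have e2 := neg_abs_le (z'.re - K2)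
    linarith
  have h3 : ‖z'‖ ≤ 3 / 2 * K2 := by
    have e1 : z' = (z' - (K2 : ℂ)) + (K2 : ℂ) := by ring
    have e2 : ‖(K2 : ℂ)‖ = K2 := by rw [Complex.norm_real, Real.norm_of_nonneg hK20.le]
    calc ‖z'‖ ≤ ‖z' - (K2 : ℂ)‖ + ‖(K2 : ℂ)‖ := by
          conv_lhs => rw [e1]
          exact norm_add_le _ _
      _ ≤ 3 / 2 * K2 := by rw [e2]; linarith
  have h3' : K2 / 2 ≤ ‖z'‖ := by
    have e1 := Complex.abs_re_le_norm z'
    have e2 := le_abs_self z'.re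
    linarith
  have h4 : K2 * (δ * (lam0.im - 2 * r)) ≤ z'.im := by
    have e1 := Complex.abs_im_le_norm (z' - c0)
    have e2 : c0.im = K2 * (δ * lam0.im) := by
      rw [hc0, Complex.im_ofReal_mul, Complex.add_im, Complex.one_im, Complex.im_ofReal_mul]
      ring
    rw [Complex.sub_im, e2] at e1
    have e3 := neg_abs_le (z'.im - K2 * (δ * lam0.im))
    have e4 : K2 * (δ * (lam0.im - 2 * r)) = K2 * (δ * lam0.im) - K2 * (δ * (2 * r)) := by ring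
    rw [e4]
    linarith
  have hz'im : 0 < z'.im := lt_of_lt_of_le (by positivity) h4
  have hz'n : 0 < ‖z'‖ := lt_of_lt_of_le (by positivity) h3'
  have hħ2 : 0 < ħ ^ 2 := by positivity
  have hzre : (((ħ ^ 2 : ℝ) : ℂ) * z').re = ħ ^ 2 * z'.re := Complex.re_ofReal_mul _ _
  have hzim : (((ħ ^ 2 : ℝ) : ℂ) * z').im = ħ ^ 2 * z'.im := Complex.im_ofReal_mul _ _
  have hzn : ‖((ħ ^ 2 : ℝ) : ℂ) * z'‖ = ħ ^ 2 * ‖z'‖ := by
    rw [norm_mul, Complex.norm_real, Real.norm_of_nonneg hħ2.le]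
  refine ⟨((ħ ^ 2 : ℝ) : ℂ) * z', ?_, ?_, ?_, u, hu, hG⟩
  · rintro ⟨h5, -⟩
    rw [hzim] at h5
    have : 0 < ħ ^ 2 * z'.im := mul_pos hħ2 hz'im
    linarith
  · unfold NN
    rw [hzn]
    have e1 : (ħ ^ 2 * (K2 / 2)) ^ γ ≤ (ħ ^ 2 * ‖z'‖) ^ γ :=
      Real.rpow_le_rpow (by positivity) (mul_le_mul_of_nonneg_left h3' hħ2.le) hγ0.le
    refine le_trans ?_ e1
    have e2 : (ħ ^ 2 * (K2 / 2)) ^ γ = ħ ^ (2 * γ) * (K2 ^ γ * 2 ^ (-γ)) := by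
      rw [Real.mul_rpow hħ2.le (by positivity), ← Real.rpow_natCast, ← Real.rpow_mul hħ0.le,
        div_eq_mul_inv, Real.mul_rpow hK20.le (by norm_num), Real.inv_rpow (by norm_num),
        Real.rpow_neg (by norm_num)]
      push_cast
      rfl
    rw [e2, hK2γ]
    have e3 : (ħ / θ) ^ (-(((n + 1 : ℕ) : ℝ) + 2 * γ)) ≤
        (θ ^ (k + k0)) ^ (-(((n + 1 : ℕ) : ℝ) + 2 * γ)) := by
      apply Real.rpow_le_rpow_of_nonpos hpθ _ (by linarith)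
      rw [le_div_iff₀ hθ0, ← pow_succ]
      exact hN1.le
    have e4 : (ħ / θ) ^ (-(((n + 1 : ℕ) : ℝ) + 2 * γ)) =
        ħ ^ (-(((n + 1 : ℕ) : ℝ) + 2 * γ)) * θ ^ (((n + 1 : ℕ) : ℝ) + 2 * γ) := by
      rw [Real.div_rpow hħ0.le hθ0.le, Real.rpow_neg hθ0.le, div_inv_eq_mul]
    rw [e4] at e3
    have e5 : ħ ^ (-((n + 1 : ℕ) : ℝ)) = ħ ^ (2 * γ) * ħ ^ (-(((n + 1 : ℕ) : ℝ) + 2 * γ)) := by
      rw [← Real.rpow_add hħ0]
      congr 1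
      ring
    have hp1 : 0 < ħ ^ (2 * γ) := Real.rpow_pos_of_pos hħ0 _
    have hp2 : (0 : ℝ) < 2 ^ (-γ) := Real.rpow_pos_of_pos (by norm_num) _
    have hp3 : 0 < ħ ^ (-((n + 1 : ℕ) : ℝ)) := Real.rpow_pos_of_pos hħ0 _
    calc ħ ^ (-((n + 1 : ℕ) : ℝ)) * ∫ x, ‖V x‖ ^ (γ + ((n + 1 : ℕ) : ℝ) / 2)
        ≤ ħ ^ (-((n + 1 : ℕ) : ℝ)) * (2 ^ (-γ) * θ ^ (((n + 1 : ℕ) : ℝ) + 2 * γ)) :=
          mul_le_mul_of_nonneg_left hV3 hp3.le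
      _ = ħ ^ (2 * γ) * ((ħ ^ (-(((n + 1 : ℕ) : ℝ) + 2 * γ)) *
            θ ^ (((n + 1 : ℕ) : ℝ) + 2 * γ)) * 2 ^ (-γ)) := by
          rw [e5]; ring
      _ ≤ ħ ^ (2 * γ) * ((θ ^ (k + k0)) ^ (-(((n + 1 : ℕ) : ℝ) + 2 * γ)) * 2 ^ (-γ)) :=
          mul_le_mul_of_nonneg_left (mul_le_mul_of_nonneg_right e3 hp2.le) hp1.le
  · rw [dRay_up _ (by rw [hzre]; exact mul_pos hħ2 (by linarith)), hzim, hzn,
      abs_of_pos (mul_pos hħ2 hz'im), mul_div_mul_left _ _ hħ2.ne', le_div_iff₀ hz'n]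
    have e1 : (2 / 3) * (lam0.im - 2 * r) * A ^ (-C2) * (1 + Real.log (1 / ħ)) ^ (-C2) ≤
        (2 / 3) * (lam0.im - 2 * r) * δ := by
      rw [mul_assoc ((2 / 3) * (lam0.im - 2 * r))]
      exact mul_le_mul_of_nonneg_left hδge (by positivity)
    calc (2 / 3) * (lam0.im - 2 * r) * A ^ (-C2) * (1 + Real.log (1 / ħ)) ^ (-C2) * ‖z'‖
        ≤ (2 / 3) * (lam0.im - 2 * r) * δ * ‖z'‖ := mul_le_mul_of_nonneg_right e1 hz'n.le
      _ ≤ (2 / 3) * (lam0.im - 2 * r) * δ * (3 / 2 * K2) :=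
          mul_le_mul_of_nonneg_left h3 (by positivity)
      _ = K2 * (δ * (lam0.im - 2 * r)) := by ring
      _ ≤ z'.im := h4

end Pool.Agent.Helper41.CE
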