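import Pool.Agent.Helper41.CE.Defs

/-!
# Final definitions: operator, multiplicity, eigenvalue sums, sharpness
-/

open MeasureTheory Filter Topology Set
open scoped ENNReal NNReal ContDiff

namespace Pool.Agent.Helper41.CE

/-- The bilinear pairing `∫ f φ dx`. -/
noncomputable def pair {d : ℕ} (f φ : E d → ℂ) : ℂ := ∫ x, f x * φ x

/-- `g` is the weak gradient of `u`, with square integrable components. -/
def IsGrad {d : ℕ} (u : E d → ℂ) (g : Fin d → E d → ℂ) : Prop :=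
  ∀ i, MemLp (g i) 2 volume ∧ ∀ φ : E d → ℂ, IsTest φ → pair u (pd i φ) = - pair (g i) φ

/-- The weak equation `ħ² ∫ g·∇φ + ∫ V u φ = ∫ f φ` for all test functions `φ`. -/
def WeakEq {d : ℕ} (V : E d → ℂ) (ħ : ℝ) (u : E d → ℂ) (g : Fin d → E d → ℂ) (f : E d → ℂ) :
    Prop :=
  ∀ φ : E d → ℂ, IsTest φ →
    ((ħ ^ 2 : ℝ) : ℂ) * ∑ i, pair (g i) (pd i φ) + pair (fun x => V x * u x) φ = pair f φ

/-- `(u, f)` is in the graph of the operator `-ħ² Δ + V` on `L²(ℝᵈ)` defined by its quadratic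
form: `u` is in the form domain (`u ∈ H¹`, `∫ |V| |u|² < ∞`), `f ∈ L²`, and
`ħ² ∫ ∇u·∇φ + ∫ V u φ = ∫ f φ` for all test functions `φ`. -/
def Graph {d : ℕ} (V : E d → ℂ) (ħ : ℝ) (u f : E d → ℂ) : Prop :=
  MemLp u 2 volume ∧ MemLp f 2 volume ∧ Integrable (fun x => ‖V x‖ * ‖u x‖ ^ 2) volume ∧
    ∃ g : Fin d → E d → ℂ, IsGrad u g ∧ WeakEq V ħ u g f

/-- `GenVec V ħ z n u`: `(H - z)ⁿ u = 0`, where `H = -ħ² Δ + V`. -/
def GenVec {d : ℕ} (V : E d → ℂ) (ħ : ℝ) (z : ℂ) : ℕ → (E d → ℂ) → Prop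
  | 0, u => u =ᵐ[volume] 0
  | n + 1, u => ∃ w, GenVec V ħ z n w ∧ Graph V ħ u (fun x => z * u x + w x)

/-- There are `k` linearly independent (modulo equality a.e.) generalised eigenvectors. -/
def IndepVecs {d : ℕ} (V : E d → ℂ) (ħ : ℝ) (z : ℂ) (k : ℕ) : Prop :=
  ∃ u : Fin k → E d → ℂ, (∀ i, ∃ n, GenVec V ħ z n (u i)) ∧
    ∀ c : Fin k → ℂ, (fun x => ∑ i, c i * u i x) =ᵐ[volume] 0 → c = 0

/-- Algebraic multiplicity of `z` (`0` if `z` is not an eigenvalue). -/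
noncomputable def mult {d : ℕ} (V : E d → ℂ) (ħ : ℝ) (z : ℂ) : ℝ≥0∞ :=
  ⨆ k : ℕ, ⨆ _ : IndepVecs V ħ z k, (k : ℝ≥0∞)

/-- The weight `|z|^α (δ(z)/|z|)^β`, `δ(z) = dist(z, [0,∞))`. -/
noncomputable def weight (α β : ℝ) (z : ℂ) : ℝ := ‖z‖ ^ α * (dRay z / ‖z‖) ^ β

open Classical in
/-- `∑_j |E_j|^α (δ(E_j)/|E_j|)^β` over the eigenvalues in `ℂ ∖ [0,∞)` of `-ħ² Δ + V`, counted
with algebraic multiplicity, truncated as prescribed. -/
noncomputable def eigTotal {d : ℕ} (α β γ : ℝ) (τ : Trunc) (V : E d → ℂ) (ħ : ℝ) : ℝ≥0∞ :=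
  ∑' z : ℂ, if z ∉ posRay ∧ τ.Keeps γ (NN γ V ħ) z then
    mult V ħ z * ENNReal.ofReal (weight α β z) else 0

/-- The bound `(*)` with parameters `α, β, γ` in dimension `d`, with the given truncation, is
sharp up to `ħ^ε`. -/
def SharpUpToEps (d : ℕ) (α β γ : ℝ) (τ : Trunc) : Prop :=
  ∃ V : E d → ℂ, MemLp V (ENNReal.ofReal (γ + (d : ℝ) / 2)) volume ∧ ¬ (V =ᵐ[volume] 0) ∧
    ∀ ε : ℝ, 0 < ε → ∃ c : ℝ, 0 < c ∧ ∃ h0 : ℝ, 0 < h0 ∧ ∀ ħ : ℝ, 0 < ħ → ħ < h0 →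
      ENNReal.ofReal (c * ħ ^ ε * (NN γ V ħ) ^ (α / γ)) ≤ eigTotal α β γ τ V ħ

theorem Graph.indep_one {d : ℕ} {V : E d → ℂ} {ħ : ℝ} {z : ℂ} {u : E d → ℂ}
    (hu : ¬ (u =ᵐ[volume] 0)) (h : Graph V ħ u (fun x => z * u x)) : IndepVecs V ħ z 1 := by
  refine ⟨fun _ => u, fun _ => ⟨1, fun _ => 0, Filter.EventuallyEq.rfl, ?_⟩, ?_⟩
  · simpa using h
  · intro c hc
    by_contra hne
    have h0 : c 0 ≠ 0 := by
      intro h1
      apply hne
      funext i
      rw [Subsingleton.elim i 0, h1]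
      rfl
    apply hu
    filter_upwards [hc] with x hx
    simp only [Finset.univ_unique, Fin.default_eq_zero, Finset.sum_singleton, Pi.zero_apply] at hx
    rcases mul_eq_zero.1 hx with h2 | h2
    · exact absurd h2 h0
    · exact h2

theorem Graph.one_le_mult {d : ℕ} {V : E d → ℂ} {ħ : ℝ} {z : ℂ} {u : E d → ℂ}
    (hu : ¬ (u =ᵐ[volume] 0)) (h : Graph V ħ u (fun x => z * u x)) : 1 ≤ mult V ħ z := by
  unfold mult
  refine le_iSup_of_le 1 (le_iSup_of_le (Graph.indep_one hu h) ?_)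
  simp

theorem eigTotal_ge {d : ℕ} (α β γ : ℝ) (τ : Trunc) (V : E d → ℂ) (ħ : ℝ) (z : ℂ)
    (hz : z ∉ posRay) (u : E d → ℂ) (hu : ¬ (u =ᵐ[volume] 0))
    (h : Graph V ħ u (fun x => z * u x)) (hk : τ.Keeps γ (NN γ V ħ) z) :
    ENNReal.ofReal (weight α β z) ≤ eigTotal α β γ τ V ħ := by
  have hm := Graph.one_le_mult hu h
  unfold eigTotal
  refine le_trans ?_ (ENNReal.le_tsum z)
  rw [if_pos ⟨hz, hk⟩]
  calc ENNReal.ofReal (weight α β z) = 1 * ENNReal.ofReal (weight α β z) := (one_mul _).symm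
    _ ≤ _ := by gcongr

/-- If there is no kept eigenvalue, the total is zero. -/
theorem eigTotal_zero {d : ℕ} (α β γ : ℝ) (τ : Trunc) (V : E d → ℂ) (ħ : ℝ)
    (hno : ∀ z : ℂ, z ∉ posRay → τ.Keeps γ (NN γ V ħ) z → ∀ u : E d → ℂ,
      Graph V ħ u (fun x => z * u x) → u =ᵐ[volume] 0) :
    eigTotal α β γ τ V ħ = 0 := by
  unfold eigTotal
  rw [ENNReal.tsum_eq_zero]
  intro z
  split_ifs with hz
  · have hgen : ∀ n u, GenVec V ħ z n u → u =ᵐ[volume] 0 := by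
      intro n
      induction n with
      | zero => intro u hu; exact hu
      | succ n ih =>
        rintro u ⟨w, hw, hG⟩
        have hw0 := ih w hw
        apply hno z hz.1 hz.2 u
        obtain ⟨h1, h2, h3, g, hg, hW⟩ := hG
        refine ⟨h1, h1.const_mul z, h3, g, hg, ?_⟩
        intro φ hφ
        rw [hW φ hφ]
        unfold pair
        refine integral_congr_ae ?_
        filter_upwards [hw0] with x hx
        rw [hx]
        simp
    have hm : mult V ħ z = 0 := by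
      unfold mult
      rw [iSup_eq_bot.2, bot_eq_zero]
      intro k
      rw [iSup_eq_bot.2]
      · intro hk
        obtain ⟨u, hu1, hu2⟩ := hk
        rcases Nat.eq_zero_or_pos k with h0 | h0
        · rw [h0]; simp
        · exfalso
          have h1 := hu2 (fun _ => 1) (by
            have h3 : ∀ i, u i =ᵐ[volume] 0 := fun i => by
              obtain ⟨n, hn⟩ := hu1 i
              exact hgen n _ hn
            have h4 : ∀ᵐ x ∂(volume : Measure (E d)), ∀ i, u i x = 0 := by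
              rw [ae_all_iff]
              exact h3
            filter_upwards [h4] with x hx
            simp [hx])
          have h2 := congrFun h1 ⟨0, h0⟩
          simp at h2
    rw [hm, zero_mul]
  · rfl

end Pool.Agent.Helper41.CE
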