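import Pool.Agent.Helper41.CE.TDefs
import Pool.Agent.Helper41.CE.CU58
import Pool.Agent.Helper41.CE.FDefs

/-!
# Semiclassical eigenvalue bounds for Schroedinger operators: definitions
-/

open MeasureTheory Filter Topology Set
open scoped ENNReal NNReal ContDiff

namespace Pool.Agent.Helper41.CE


/-! ## TARGETS: prove these (statements must not be changed; helper lemmas are welcome) -/

theorem T1_aux_log (r : ℝ) (hr : 0 < r) : ∃ h1 : ℝ, 0 < h1 ∧ h1 ≤ 1 ∧ ∀ ħ : ℝ, 0 < ħ → ħ < h1 →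
    1 + Real.log (1 / ħ) ≤ ħ ^ (-r) := by
  have e1 : ∀ᶠ x : ℝ in atTop, ‖Real.log x‖ ≤ (1 / 2) * ‖x ^ r‖ :=
    (isLittleO_log_rpow_atTop hr).bound (by norm_num)
  have e2 : ∀ᶠ x : ℝ in atTop, 2 ≤ x ^ r := (tendsto_rpow_atTop hr).eventually_ge_atTop 2
  obtain ⟨A, hA⟩ := (((e1.and e2).and (eventually_ge_atTop (0:ℝ))).exists_forall_of_atTop)
  refine ⟨1 / (|A| + 1), by positivity, ?_, fun ħ h0 h1 => ?_⟩
  · rw [div_le_one (by positivity)]
    linarith [abs_nonneg A]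
  · have hx : A ≤ 1 / ħ := by
      rw [lt_div_iff₀ (by positivity)] at h1
      rw [le_div_iff₀ h0]
      nlinarith [le_abs_self A]
    obtain ⟨⟨a1, a2⟩, a3⟩ := hA _ hx
    rw [Real.norm_eq_abs, Real.norm_eq_abs, abs_of_nonneg (by linarith : (0:ℝ) ≤ (1 / ħ) ^ r)] at a1
    have a4 : Real.log (1 / ħ) ≤ 1 / 2 * (1 / ħ) ^ r := (le_abs_self _).trans a1
    have a5 : ħ ^ (-r) = (1 / ħ) ^ r := by
      rw [one_div, Real.inv_rpow h0.le, Real.rpow_neg h0.le]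
    rw [a5]
    linarith

theorem T1 (n : ℕ) (α β γ : ℝ) (hα : 0 < α) (hβ : 0 < β) (hγ : 1 / 2 < γ) :
    SharpUpToEps (n + 1) α β γ .ge := by
  obtain ⟨V, hV, hV0, c, C2, hc, hC2, h0, hh0, H⟩ := T1_main n γ hγ
  refine ⟨V, hV, hV0, fun ε hε => ?_⟩
  have hr : 0 < ε / (C2 * β) := by positivity
  obtain ⟨h1, hh1, hh1', K⟩ := T1_aux_log (ε / (C2 * β)) hr
  refine ⟨c ^ β, by positivity, min h0 h1, lt_min hh0 hh1, fun ħ hp hlt => ?_⟩
  have hlt0 : ħ < h0 := hlt.trans_le (min_le_left _ _)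
  have hlt1 : ħ < h1 := hlt.trans_le (min_le_right _ _)
  obtain ⟨z, hz, hN, hd, u, hu, hg⟩ := H ħ hp hlt0
  refine le_trans (ENNReal.ofReal_le_ofReal ?_) (eigTotal_ge α β γ .ge V ħ z hz u hu hg hN)
  have hγ0 : 0 < γ := by linarith
  have hNN : 0 ≤ NN γ V ħ := by
    unfold NN
    apply mul_nonneg (Real.rpow_nonneg hp.le _)
    apply integral_nonneg
    intro x
    exact Real.rpow_nonneg (norm_nonneg _) _
  have hA : (NN γ V ħ) ^ (α / γ) ≤ ‖z‖ ^ α := by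
    have h2 := Real.rpow_le_rpow hNN hN (show 0 ≤ α / γ by positivity)
    rw [← Real.rpow_mul (norm_nonneg z), mul_div_cancel₀ _ hγ0.ne'] at h2
    exact h2
  have hlog : 0 ≤ Real.log (1 / ħ) := by
    apply Real.log_nonneg
    rw [le_div_iff₀ hp]
    linarith
  have hK := K ħ hp hlt1
  have hB1 : (ħ ^ (-(ε / (C2 * β)))) ^ (-C2) ≤ (1 + Real.log (1 / ħ)) ^ (-C2) :=
    Real.rpow_le_rpow_of_nonpos (by linarith) hK (by linarith)
  have hB2 : (ħ ^ (-(ε / (C2 * β)))) ^ (-C2) = ħ ^ (ε / β) := by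
    rw [← Real.rpow_mul hp.le]
    congr 1
    field_simp
  rw [hB2] at hB1
  have hB3 : c * ħ ^ (ε / β) ≤ dRay z / ‖z‖ :=
    (mul_le_mul_of_nonneg_left hB1 hc.le).trans hd
  have hB4 : (c * ħ ^ (ε / β)) ^ β ≤ (dRay z / ‖z‖) ^ β :=
    Real.rpow_le_rpow (by positivity) hB3 hβ.le
  have hB5 : (c * ħ ^ (ε / β)) ^ β = c ^ β * ħ ^ ε := by
    rw [Real.mul_rpow hc.le (by positivity), ← Real.rpow_mul hp.le, div_mul_cancel₀ _ hβ.ne']
  rw [hB5] at hB4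
  unfold weight
  rw [mul_comm (‖z‖ ^ α)]
  exact mul_le_mul hB4 hA (Real.rpow_nonneg hNN _)
    (le_trans (by positivity) hB4)

end Pool.Agent.Helper41.CE
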