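import Pool.Agent.Helper41.CE.TDefs
import Pool.Agent.Helper41.KR.C04

open MeasureTheory Filter Topology Set
open scoped ENNReal NNReal ContDiff

namespace Pool.Agent.Helper41.CE

theorem no_eig (d : ℕ) (hd : 1 ≤ d) (γ : ℝ) (hγ : 0 < γ) (hγ' : γ ≤ 1 / 2) (h1 : d = 1 → γ = 1 / 2)
    (V : E d → ℂ) (hV : Measurable V)
    (hVp : Integrable (fun x => ‖V x‖ ^ (γ + (d : ℝ) / 2)))
    (hI : 0 < ∫ x, ‖V x‖ ^ (γ + (d : ℝ) / 2)) :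
    ∃ ħ₀ : ℝ, 0 < ħ₀ ∧ ∀ (ħ : ℝ) (e : ℂ), 0 < ħ → ħ < ħ₀ → ¬ (0 ≤ e.re ∧ e.im = 0) →
      ħ ^ (-(d : ℝ)) * (∫ x, ‖V x‖ ^ (γ + (d : ℝ) / 2)) ≤ ‖e‖ ^ γ →
      ∀ u : Lp ℂ 2 (volume : Measure (E d)),
        Integrable (fun x => ‖V x‖ * ‖(u : E d → ℂ) x‖ ^ 2) →
        (∀ φ : E d → ℂ, (ContDiff ℝ (⊤ : ℕ∞) φ ∧ HasCompactSupport φ) →
          ∫ x, ((u : E d → ℂ) x * (-((ħ : ℂ) ^ 2) * (Laplacian.laplacian φ) x) +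
              V x * (u : E d → ℂ) x * φ x) =
            e * (∫ x, (u : E d → ℂ) x * φ x)) → u = 0 :=
  Pool.Agent.Helper41.KR.no_eig d hd γ hγ hγ' h1 V hV hVp hI

end Pool.Agent.Helper41.CE
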