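import Pool.Agent.Helper41.CE.TDefs
import Pool.Agent.Helper41.CE.CE13
import Pool.Agent.Helper41.CE.CUN
import Pool.Agent.Helper41.CE.FDefs

/-!
# Semiclassical eigenvalue bounds for Schroedinger operators: definitions
-/

open MeasureTheory Filter Topology Set
open scoped ENNReal NNReal ContDiff

namespace Pool.Agent.Helper41.CE


/-! ## TARGETS: prove these (statements must not be changed; helper lemmas are welcome) -/

theorem lap_pd {d : ℕ} (φ : E d → ℂ) (hφ : IsTest φ) (x : E d) :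
    (Laplacian.laplacian φ) x = ∑ i, pd i (pd i φ) x := by
  rw [InnerProductSpace.laplacian_eq_iteratedFDeriv_orthonormalBasis φ
    (EuclideanSpace.basisFun (Fin d) ℝ)]
  apply Finset.sum_congr rfl
  intro i _
  rw [iteratedFDeriv_two_apply]
  have hd : DifferentiableAt ℝ (fderiv ℝ φ) x := by
    have h1 : ContDiff ℝ 1 (fderiv ℝ φ) := hφ.1.fderiv_right (m := 1) (by
      norm_cast)
    exact (h1.differentiable one_ne_zero) x
  show _ = fderiv ℝ (fun y => fderiv ℝ φ y (EuclideanSpace.single i 1)) x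
    (EuclideanSpace.single i 1)
  rw [fderiv_clm_apply hd (differentiableAt_const _)]
  simp

theorem t2_bdd {d : ℕ} (φ : E d → ℂ) (hφ : IsTest φ) : ∃ M, 0 ≤ M ∧ ∀ x, ‖φ x‖ ≤ M := by
  obtain ⟨C, hC⟩ := hφ.2.exists_bound_of_continuous hφ.1.continuous
  exact ⟨C, (norm_nonneg _).trans (hC 0), hC⟩

theorem t2_int1 {d : ℕ} (u φ : E d → ℂ) (hu : MemLp u 2 volume) (hφ : IsTest φ) :
    Integrable (fun x => u x * φ x) := by
  have h1 : LocallyIntegrable u volume := hu.locallyIntegrable (by norm_num)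
  have h2 := h1.integrable_smul_left_of_hasCompactSupport hφ.1.continuous hφ.2
  refine h2.congr (Filter.Eventually.of_forall fun x => ?_)
  show φ x • u x = u x * φ x
  rw [smul_eq_mul, mul_comm]

theorem t2_int2 {d : ℕ} (V u φ : E d → ℂ) (hV : LocallyIntegrable V volume)
    (hu : MemLp u 2 volume) (hVu : Integrable (fun x => ‖V x‖ * ‖u x‖ ^ 2) volume)
    (hφ : IsTest φ) : Integrable (fun x => V x * u x * φ x) := by
  obtain ⟨M, hM0, hM⟩ := t2_bdd φ hφ
  have h1 : Integrable (fun x => φ x • V x) :=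
    hV.integrable_smul_left_of_hasCompactSupport hφ.1.continuous hφ.2
  have h2 : Integrable (fun x => ‖φ x • V x‖ + M * (‖V x‖ * ‖u x‖ ^ 2)) :=
    h1.norm.add (hVu.const_mul M)
  refine h2.mono' ?_ (Filter.Eventually.of_forall fun x => ?_)
  · exact (hV.aestronglyMeasurable.mul hu.1).mul hφ.1.continuous.aestronglyMeasurable
  · rw [norm_mul, norm_mul, norm_smul]
    have a1 := norm_nonneg (V x)
    have a2 := norm_nonneg (u x)
    have a3 := norm_nonneg (φ x)
    have a4 := hM x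
    have e1 : ‖u x‖ ≤ 1 + ‖u x‖ ^ 2 := by nlinarith [sq_nonneg (‖u x‖ - 1)]
    have e2 : ‖V x‖ * ‖u x‖ * ‖φ x‖ ≤ ‖V x‖ * (1 + ‖u x‖ ^ 2) * ‖φ x‖ := by
      gcongr
    have e3 : ‖V x‖ * ‖u x‖ ^ 2 * ‖φ x‖ ≤ ‖V x‖ * ‖u x‖ ^ 2 * M := by
      gcongr
    nlinarith

theorem T2 (d : ℕ) (hd : 1 ≤ d) (α β γ : ℝ) (hγ : 0 < γ) (hγ' : γ ≤ 1 / 2)
    (h1 : d = 1 → γ = 1 / 2) : ¬ SharpUpToEps d α β γ .ge := by
  rintro ⟨V, hV, hV0, hsh⟩
  have hq1 : 1 ≤ γ + (d : ℝ) / 2 := by
    rcases Nat.lt_or_ge d 2 with h | h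
    · have hd1 : d = 1 := by omega
      have hg := h1 hd1
      rw [hg, hd1]
      norm_num
    · have : (2 : ℝ) ≤ d := by exact_mod_cast h
      linarith
  have hq0 : 0 < γ + (d : ℝ) / 2 := by linarith
  obtain ⟨V', hV'm, hVV'⟩ : ∃ V' : E d → ℂ, Measurable V' ∧ V =ᵐ[volume] V' :=
    ⟨hV.1.mk V, hV.1.stronglyMeasurable_mk.measurable, hV.1.ae_eq_mk⟩
  have hV' : MemLp V' (ENNReal.ofReal (γ + (d : ℝ) / 2)) volume := (memLp_congr_ae hVV').1 hV
  have hint : Integrable (fun x => ‖V' x‖ ^ (γ + (d : ℝ) / 2)) := by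
    have := hV'.integrable_norm_rpow (by
      rw [Ne, ENNReal.ofReal_eq_zero, not_le]
      exact hq0) ENNReal.ofReal_ne_top
    rwa [ENNReal.toReal_ofReal hq0.le] at this
  have hIeq : ∫ x, ‖V x‖ ^ (γ + (d : ℝ) / 2) = ∫ x, ‖V' x‖ ^ (γ + (d : ℝ) / 2) := by
    apply integral_congr_ae
    filter_upwards [hVV'] with x hx
    rw [hx]
  have hI0 : 0 ≤ ∫ x, ‖V' x‖ ^ (γ + (d : ℝ) / 2) := integral_nonneg fun x => by positivity
  have hI : 0 < ∫ x, ‖V' x‖ ^ (γ + (d : ℝ) / 2) := by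
    apply lt_of_le_of_ne hI0
    intro h
    apply hV0
    have h2 := (integral_eq_zero_iff_of_nonneg (fun x => by positivity) hint).1 h.symm
    filter_upwards [h2, hVV'] with x hx hx2
    have h3 : ‖V' x‖ ^ (γ + (d : ℝ) / 2) = 0 := hx
    rw [Real.rpow_eq_zero (norm_nonneg _) hq0.ne', norm_eq_zero] at h3
    rw [hx2, h3]
    rfl
  obtain ⟨ħ₀, hħ₀, hno⟩ := no_eig d hd γ hγ hγ' h1 V' hV'm hint hI
  obtain ⟨c, hc, h0, hh0, hsh⟩ := hsh 1 one_pos
  obtain ⟨ħ, hħ, hħm⟩ : ∃ ħ : ℝ, 0 < ħ ∧ ħ < min ħ₀ h0 :=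
    exists_between (lt_min hħ₀ hh0)
  have hħ1 : ħ < ħ₀ := lt_of_lt_of_le hħm (min_le_left _ _)
  have hħ2 : ħ < h0 := lt_of_lt_of_le hħm (min_le_right _ _)
  have hle := hsh ħ hħ hħ2
  have hNN : NN γ V ħ = ħ ^ (-(d : ℝ)) * ∫ x, ‖V' x‖ ^ (γ + (d : ℝ) / 2) := by
    unfold NN
    rw [hIeq]
  have hNNpos : 0 < NN γ V ħ := by
    rw [hNN]
    exact mul_pos (Real.rpow_pos_of_pos hħ _) hI
  have hloc : LocallyIntegrable V volume := hV.locallyIntegrable (by
    rw [← ENNReal.ofReal_one]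
    exact ENNReal.ofReal_le_ofReal hq1)
  rw [eigTotal_zero] at hle
  · rw [nonpos_iff_eq_zero, ENNReal.ofReal_eq_zero] at hle
    have : 0 < c * ħ ^ (1 : ℝ) * NN γ V ħ ^ (α / γ) :=
      mul_pos (mul_pos hc (Real.rpow_pos_of_pos hħ _)) (Real.rpow_pos_of_pos hNNpos _)
    linarith
  · intro z hz hk u hG
    have hk' : NN γ V ħ ≤ ‖z‖ ^ γ := hk
    obtain ⟨hu, hf, hVu, g, hg, hw⟩ := hG
    have hz' : ¬ (0 ≤ z.re ∧ z.im = 0) := fun h => hz ⟨h.2, h.1⟩
    have huu : (hu.toLp u : E d → ℂ) =ᵐ[volume] u := hu.coeFn_toLp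
    have hres := hno ħ z hħ hħ1 hz' (by rw [← hNN]; exact hk') (hu.toLp u) ?_ ?_
    · have h2 : (hu.toLp u : E d → ℂ) =ᵐ[volume] 0 := by
        rw [hres]
        exact Lp.coeFn_zero _ _ _
      exact huu.symm.trans h2
    · refine hVu.congr ?_
      filter_upwards [huu, hVV'] with x hx hx2
      rw [hx, hx2]
    · intro φ hφ
      have hφ' : IsTest φ := hφ
      have hwφ := hw φ hφ'
      have e1 : ∫ x, ((hu.toLp u : E d → ℂ) x * (-((ħ : ℂ) ^ 2) * (Laplacian.laplacian φ) x) +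
              V' x * (hu.toLp u : E d → ℂ) x * φ x) =
            ∫ x, (∑ i, (-((ħ : ℂ) ^ 2)) * (u x * pd i (pd i φ) x) + V x * u x * φ x) := by
        apply integral_congr_ae
        filter_upwards [huu, hVV'] with x hx hx2
        rw [hx, hx2, lap_pd φ hφ' x, Finset.mul_sum, Finset.mul_sum]
        congr 1
        apply Finset.sum_congr rfl
        intro i _
        ring
      have e2 : ∫ x, (hu.toLp u : E d → ℂ) x * φ x = ∫ x, u x * φ x := by
        apply integral_congr_ae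
        filter_upwards [huu] with x hx
        rw [hx]
      have hi1 : ∀ i ∈ (Finset.univ : Finset (Fin d)),
          Integrable (fun x => (-((ħ : ℂ) ^ 2)) * (u x * pd i (pd i φ) x)) := fun i _ =>
        (t2_int1 u _ hu (pd_test i _ (pd_test i φ hφ'))).const_mul _
      have hi2 := t2_int2 V u φ hloc hu hVu hφ'
      rw [e1, e2, integral_add (integrable_finset_sum _ hi1) hi2, integral_finset_sum _ hi1]
      have e3 : ∀ i, ∫ x, (-((ħ : ℂ) ^ 2)) * (u x * pd i (pd i φ) x) =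
          ((ħ ^ 2 : ℝ) : ℂ) * pair (g i) (pd i φ) := by
        intro i
        rw [integral_const_mul]
        have h4 := (hg i).2 (pd i φ) (pd_test i φ hφ')
        have h5 : ∫ x, u x * pd i (pd i φ) x = - pair (g i) (pd i φ) := h4
        rw [h5]
        push_cast
        ring
      simp only [e3]
      rw [← Finset.mul_sum]
      have h6 : pair (fun x => z * u x) φ = z * ∫ x, u x * φ x := by
        unfold pair
        rw [← integral_const_mul]
        congr 1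
        ext x
        ring
      rw [← h6]
      exact hwφ

end Pool.Agent.Helper41.CE
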