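import Mathlib

/-!
# Semiclassical eigenvalue bounds for Schroedinger operators: definitions
-/

open MeasureTheory Filter Topology Set
open scoped ENNReal NNReal ContDiff

namespace Pool.Agent.Helper41.CE

/-- The space `ℝᵈ`. -/
abbrev E (d : ℕ) := EuclideanSpace ℝ (Fin d)

/-- Test functions: smooth with compact support. -/
def IsTest {d : ℕ} (φ : E d → ℂ) : Prop := ContDiff ℝ ∞ φ ∧ HasCompactSupport φ

/-- The partial derivative `∂ φ / ∂ x_i`. -/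
noncomputable def pd {d : ℕ} (i : Fin d) (φ : E d → ℂ) (x : E d) : ℂ :=
  fderiv ℝ φ x (EuclideanSpace.single i 1)

/-- `g` is the weak gradient of `u` and its components are square integrable. -/
def IsWeakGrad {d : ℕ} (u : E d → ℂ) (g : Fin d → E d → ℂ) : Prop :=
  ∀ i, MemLp (g i) 2 volume ∧
    ∀ φ : E d → ℂ, IsTest φ → ∫ x, u x * pd i φ x = - ∫ x, g i x * φ x

/-- `(u, f)` is in the graph of the operator `-ħ² Δ + V` on `L²(ℝᵈ)`: `u` is in `H¹`, `f` in `L²`,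
`V u` is locally integrable, and `ħ² ∫ ∇u·∇φ + ∫ V u φ = ∫ f φ` for all test functions `φ`. -/
def InGraph {d : ℕ} (V : E d → ℂ) (ħ : ℝ) (u f : E d → ℂ) : Prop :=
  MemLp u 2 volume ∧ MemLp f 2 volume ∧ LocallyIntegrable (fun x => V x * u x) volume ∧
    ∃ g : Fin d → E d → ℂ, IsWeakGrad u g ∧
      ∀ φ : E d → ℂ, IsTest φ →
        ((ħ ^ 2 : ℝ) : ℂ) * ∑ i, (∫ x, g i x * pd i φ x) + ∫ x, V x * u x * φ x
          = ∫ x, f x * φ x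

/-- `genVec V ħ z n` is the set of `u ∈ L²` with `(H - z)ⁿ u = 0`, where `H = -ħ² Δ + V`. -/
def genVec {d : ℕ} (V : E d → ℂ) (ħ : ℝ) (z : ℂ) : ℕ → Set (Lp ℂ 2 (volume : Measure (E d)))
  | 0 => {0}
  | n + 1 => {u | ∃ w ∈ genVec V ħ z n, InGraph V ħ u (fun x => z * u x + w x)}

/-- Algebraic multiplicity of `z` (it is `0` when `z` is not an eigenvalue). -/
noncomputable def algMult {d : ℕ} (V : E d → ℂ) (ħ : ℝ) (z : ℂ) : ℕ∞ :=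
  Cardinal.toENat (Module.rank ℂ (Submodule.span ℂ (⋃ n, genVec V ħ z n)))

/-- The half line `[0, ∞)` in `ℂ`. -/
def posRay : Set ℂ := {z | z.im = 0 ∧ 0 ≤ z.re}

/-- `δ(z)`, the distance to `[0, ∞)`. -/
noncomputable def dRay (z : ℂ) : ℝ := Metric.infDist z posRay

/-- The three kinds of sums: over all eigenvalues, truncated `(T≤)`, truncated `(T≥)`. -/
inductive Trunc
  | all
  | le
  | ge

/-- Is the eigenvalue `z` kept in the sum? -/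
def Trunc.Keeps : Trunc → ℝ → ℝ → ℂ → Prop
  | .all, _, _, _ => True
  | .le, γ, N, z => ‖z‖ ^ γ ≤ N
  | .ge, γ, N, z => N ≤ ‖z‖ ^ γ

/-- `N_γ(V,ħ) = ħ^{-d} ∫ |V|^{γ+d/2}`. -/
noncomputable def NN {d : ℕ} (γ : ℝ) (V : E d → ℂ) (ħ : ℝ) : ℝ :=
  ħ ^ (-(d : ℝ)) * ∫ x, ‖V x‖ ^ (γ + (d : ℝ) / 2)

open Classical in
/-- `∑_j |E_j|^α (δ(E_j)/|E_j|)^β` over the eigenvalues in `ℂ ∖ [0,∞)` counted with algebraic
multiplicity, truncated as prescribed. -/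
noncomputable def eigSum {d : ℕ} (α β γ : ℝ) (τ : Trunc) (V : E d → ℂ) (ħ : ℝ) : ℝ≥0∞ :=
  ∑' z : ℂ, if z ∉ posRay ∧ τ.Keeps γ (NN γ V ħ) z then
    ((algMult V ħ z : ℕ∞) : ℝ≥0∞) * ENNReal.ofReal (‖z‖ ^ α * (dRay z / ‖z‖) ^ β) else 0

/-- `(*)` is sharp up to `ħ^ε`. -/
def Sharp (d : ℕ) (α β γ : ℝ) (τ : Trunc) : Prop :=
  ∃ V : E d → ℂ, MemLp V (ENNReal.ofReal (γ + (d : ℝ) / 2)) volume ∧ ¬ (V =ᵐ[volume] 0) ∧
    ∀ ε : ℝ, 0 < ε → ∃ c : ℝ, 0 < c ∧ ∃ h0 : ℝ, 0 < h0 ∧ ∀ ħ : ℝ, 0 < ħ → ħ < h0 →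
      ENNReal.ofReal (c * ħ ^ ε * (NN γ V ħ) ^ (α / γ)) ≤ eigSum α β γ τ V ħ

/-- Heat kernel at time `t` (generator `Δ`). -/
noncomputable def pt {d : ℕ} (t : ℝ) (z : E d) : ℝ :=
  (4 * Real.pi * t) ^ (-((d : ℝ) / 2)) * Real.exp (-‖z‖ ^ 2 / (4 * t))

/-- Resolvent kernel `(κ² - Δ)^{-1}`, with values in `[0, ∞]`. -/
noncomputable def G {d : ℕ} (κ : ℝ) (z : E d) : ℝ≥0∞ :=
  ∫⁻ t in Ioi (0 : ℝ), ENNReal.ofReal (Real.exp (-κ ^ 2 * t) * pt t z)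

/-- General superposition of heat kernels. -/
noncomputable def Kw {d : ℕ} (w : ℝ → ℝ≥0∞) (z : E d) : ℝ≥0∞ :=
  ∫⁻ t in Ioi (0 : ℝ), w t * ENNReal.ofReal (pt t z)

/-- `(κ² - Δ)^{-1} h`. -/
noncomputable def uG {d : ℕ} (κ : ℝ) (h : E d → ℝ) (x : E d) : ℝ :=
  ∫ y, (G κ (x - y)).toReal * h y

/-- The potential (up to sign) `|x|^{-d/q} (1 - log |x|)^{-2}` on the unit ball. -/
noncomputable def WW (d : ℕ) (q : ℝ) (x : E d) : ℝ :=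
  if ‖x‖ < 1 then ‖x‖ ^ (-((d : ℝ) / q)) * ((1 - Real.log ‖x‖) ^ 2)⁻¹ else 0

/-- The measure `W dx`. -/
noncomputable def mW {d : ℕ} (W : E d → ℝ) : Measure (E d) :=
  volume.withDensity (fun x => ENNReal.ofReal (W x))

end Pool.Agent.Helper41.CE
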