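import Pool.Agent.Helper41.CE.FDefs
import Pool.Agent.Helper41.CE.CE16
import Pool.Agent.Helper41.CE.CE02
import Pool.Agent.Helper41.CE.CE05
import Pool.Agent.Helper41.CE.CE11
import Pool.Agent.Helper41.CE.CE15

/-!
# Semiclassical eigenvalue bounds for Schroedinger operators: definitions
-/

open MeasureTheory Filter Topology Set
open scoped ENNReal NNReal ContDiff

namespace Pool.Agent.Helper41.CE


theorem eig_from_gF {d : ℕ} (W : E d → ℝ) (h0 : ∀ x, 0 ≤ W x) (hm : Measurable W)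
    (hI : Integrable W volume)
    (hfin : ∀ κ' : ℝ, 0 < κ' → ∃ A : ℝ, 0 ≤ A ∧
      ∀ x : E d, ∫⁻ y, G κ' (x - y) * ENNReal.ofReal (W y) ≤ ENNReal.ofReal A)
    (κ : ℝ) (hκ : 0 < κ) (ħ : ℝ) (hħ : 0 < ħ) (g : E d → ℝ) (hgm : Measurable g)
    (hg : MemLp g 2 (mW W)) (hne : ¬ (g =ᵐ[mW W] 0))
    (he : ∀ᵐ x ∂(mW W), g x = (ħ ^ 2)⁻¹ * ∫ y, (G κ (x - y)).toReal * g y ∂(mW W)) :
    ∃ u : E d → ℂ, ¬ (u =ᵐ[volume] 0) ∧
      Graph (fun x => (-(W x) : ℂ)) ħ u (fun x => (-(ħ ^ 2 * κ ^ 2) : ℂ) * u x) := by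
  have hħ2 : 0 < ħ ^ 2 := by positivity
  obtain ⟨h, hh⟩ : ∃ h : E d → ℝ, h = fun y => (ħ ^ 2)⁻¹ * (W y * g y) := ⟨_, rfl⟩
  have hmh : Measurable h := by rw [hh]; fun_prop
  have hWg := eg_hint W h0 hm hI g hg
  have hhi : Integrable h volume := by rw [hh]; exact hWg.const_mul _
  have hen : ∀ κ' : ℝ, 0 < κ' →
      (∫⁻ x : E d, ∫⁻ y : E d, G κ' (x - y) * ‖h x‖ₑ * ‖h y‖ₑ) < ⊤ := by
    intro κ' hκ'
    rw [hh]
    exact eg_energy W h0 hm hI hfin _ (inv_nonneg.mpr hħ2.le) g hgm hg κ' hκ'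
  obtain ⟨u1, u2, u3⟩ := u_mem κ hκ h hmh hhi hen
  obtain ⟨G', hG', hGφ⟩ := u_final κ hκ h hmh hhi hen
  -- `g = uG κ h` almost everywhere for `mW W`
  have hgu : ∀ᵐ x ∂(mW W), g x = uG κ h x := by
    filter_upwards [he] with x hx
    rw [hx]
    unfold mW uG
    rw [integral_withDensity_eq_integral_toReal_smul hm.ennreal_ofReal
      (Filter.Eventually.of_forall fun x => ENNReal.ofReal_lt_top), ← integral_const_mul]
    refine integral_congr_ae (Filter.Eventually.of_forall fun y => ?_)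
    simp only [smul_eq_mul, hh]
    rw [ENNReal.toReal_ofReal (h0 y)]
    ring
  have hWu : ∀ᵐ x ∂(volume : Measure (E d)), W x * uG κ h x = ħ ^ 2 * h x := by
    have h1 := hgu
    unfold mW at h1
    rw [ae_withDensity_iff hm.ennreal_ofReal] at h1
    filter_upwards [h1] with x hx
    have h2 : ħ ^ 2 * h x = W x * g x := by
      rw [hh]
      field_simp
    rw [h2]
    rcases (h0 x).eq_or_lt with h3 | h3
    · rw [← h3]; simp
    · rw [hx (ENNReal.ofReal_pos.mpr h3).ne']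
  refine ⟨fun x => (uG κ h x : ℂ), ?_, ?_⟩
  · intro hu
    apply hne
    have h1 : ∀ᵐ x ∂(mW W), ((uG κ h x : ℝ) : ℂ) = 0 := by
      have := (withDensity_absolutelyContinuous (volume : Measure (E d))
        (fun x => ENNReal.ofReal (W x))).ae_le hu
      exact this
    filter_upwards [h1, hgu] with x hx1 hx2
    rw [hx2]
    exact_mod_cast hx1
  · refine ⟨u1.ofReal, (u1.ofReal (K := ℂ)).const_mul _, ?_, G', hG', ?_⟩
    · have hg2 : Integrable (fun x => g x ^ 2) (mW W) := hg.integrable_sq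
      unfold mW at hg2
      rw [integrable_withDensity_iff hm.ennreal_ofReal
        (Filter.Eventually.of_forall fun x => ENNReal.ofReal_lt_top)] at hg2
      have h1 := hgu
      unfold mW at h1
      rw [ae_withDensity_iff hm.ennreal_ofReal] at h1
      refine hg2.congr ?_
      filter_upwards [h1] with x hx
      rw [ENNReal.toReal_ofReal (h0 x), norm_neg, Complex.norm_real, Real.norm_eq_abs,
        abs_of_nonneg (h0 x), Complex.norm_real, Real.norm_eq_abs, sq_abs]
      rcases (h0 x).eq_or_lt with h3 | h3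
      · rw [← h3]; simp
      · rw [hx (ENNReal.ofReal_pos.mpr h3).ne']
        ring
    · intro φ hφ
      have h1 := hGφ φ hφ
      have h2 : (∫ x : E d, (-(W x) : ℂ) * (uG κ h x : ℂ) * φ x) =
          -((ħ ^ 2 : ℝ) : ℂ) * ∫ x, (h x : ℂ) * φ x := by
        rw [← integral_const_mul]
        refine integral_congr_ae ?_
        filter_upwards [hWu] with x hx
        have h3 : ((W x * uG κ h x : ℝ) : ℂ) = ((ħ ^ 2 * h x : ℝ) : ℂ) := by rw [hx]
        push_cast at h3 ⊢
        linear_combination (-(φ x)) * h3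
      have h3 : (∫ x : E d, (-(ħ ^ 2 * κ ^ 2) : ℂ) * (uG κ h x : ℂ) * φ x) =
          (-(ħ ^ 2 * κ ^ 2) : ℂ) * ∫ x, (uG κ h x : ℂ) * φ x := by
        rw [← integral_const_mul]
        refine integral_congr_ae (Filter.Eventually.of_forall fun x => ?_)
        simp only
        ring
      unfold pair
      beta_reduce
      rw [h2, h3, ← h1]
      push_cast
      ring

end Pool.Agent.Helper41.CE
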