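import Pool.Agent.Helper41.CE.FDefs
import Pool.Agent.Helper41.CE.F18
import Pool.Agent.Helper41.CE.CE07
import Pool.Agent.Helper41.CE.CE17
import Pool.Agent.Helper41.CE.CE18

/-!
# Semiclassical eigenvalue bounds for Schroedinger operators: definitions
-/

open MeasureTheory Filter Topology Set
open scoped ENNReal NNReal ContDiff

namespace Pool.Agent.Helper41.CE

theorem main_sharp_auxF (d : ℕ) (hd : 1 ≤ d) (α β γ : ℝ) (hα : 0 < α) (hγ : 0 < γ)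
    (hq : 1 ≤ γ + (d : ℝ) / 2) (τ : Trunc)
    (hτ : ∀ N e : ℝ, 0 < e → e ^ γ ≤ N → τ.Keeps γ N (-(e : ℂ))) : SharpUpToEps d α β γ τ := by
  obtain ⟨hW0, hWm, hWL, hWi, hWI⟩ := WW_facts d hd (γ + (d : ℝ) / 2) hq
  have hnorm : ∀ x : E d, ‖(-(WW d (γ + (d : ℝ) / 2) x) : ℂ)‖ = |WW d (γ + (d : ℝ) / 2) x| := by
    intro x
    rw [norm_neg, Complex.norm_real, Real.norm_eq_abs]
  refine ⟨fun x : E d => (-(WW d (γ + (d : ℝ) / 2) x) : ℂ), ?_, ?_, ?_⟩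
  · exact hWL.ofReal.neg
  · intro h
    have h1 : (fun x => |WW d (γ + (d : ℝ) / 2) x| ^ (γ + (d : ℝ) / 2)) =ᵐ[volume]
        (fun _ => (0 : ℝ)) := by
      filter_upwards [h] with x hx
      have h2 : |WW d (γ + (d : ℝ) / 2) x| = 0 := by
        rw [← hnorm x, hx]
        simp
      rw [h2, Real.zero_rpow (by linarith)]
    rw [integral_congr_ae h1] at hWI
    simp at hWI
  · intro ε hε
    obtain ⟨h0, hh0, hh01, H⟩ := main_eigF d hd γ hγ hq (ε / α) (by positivity)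
    refine ⟨(∫ x, |WW d (γ + (d : ℝ) / 2) x| ^ (γ + (d : ℝ) / 2)) ^ (-(α / γ)),
      Real.rpow_pos_of_pos hWI _, h0, hh0, fun ħ hħ hħ0 => ?_⟩
    obtain ⟨e, he1, he2, u, hu, hG⟩ := H ħ hħ hħ0
    have hepos : 0 < ħ ^ (ε / α - (d : ℝ) / γ) := Real.rpow_pos_of_pos hħ _
    have he : 0 < e := hepos.trans_le he1
    have hdr := dRay_neg e he
    have hne : ‖-(e : ℂ)‖ = e := by
      rw [norm_neg, Complex.norm_real, Real.norm_eq_abs, abs_of_pos he]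
    have hw : weight α β (-(e : ℂ)) = e ^ α := by
      unfold weight
      rw [hne, hdr.1, div_self he.ne', Real.one_rpow, mul_one]
    refine le_trans ?_ (eigTotal_ge α β γ τ _ ħ (-(e : ℂ)) hdr.2 u hu hG (hτ _ e he he2))
    rw [hw]
    apply ENNReal.ofReal_le_ofReal
    have hNN : NN γ (fun x : E d => (-(WW d (γ + (d : ℝ) / 2) x) : ℂ)) ħ =
        ħ ^ (-(d : ℝ)) * ∫ x, |WW d (γ + (d : ℝ) / 2) x| ^ (γ + (d : ℝ) / 2) := by
      unfold NN
      congr 1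
      apply integral_congr_ae
      refine Eventually.of_forall fun x => ?_
      show ‖(-(WW d (γ + (d : ℝ) / 2) x) : ℂ)‖ ^ (γ + (d : ℝ) / 2) = _
      rw [hnorm]
    rw [hNN]
    set J : ℝ := ∫ x, |WW d (γ + (d : ℝ) / 2) x| ^ (γ + (d : ℝ) / 2) with hJ
    rw [Real.mul_rpow (Real.rpow_nonneg hħ.le _) hWI.le, ← Real.rpow_mul hħ.le]
    have e1 : J ^ (-(α / γ)) * ħ ^ ε * (ħ ^ (-(d : ℝ) * (α / γ)) * J ^ (α / γ)) =
        (J ^ (-(α / γ)) * J ^ (α / γ)) * (ħ ^ ε * ħ ^ (-(d : ℝ) * (α / γ))) := by ring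
    rw [e1, ← Real.rpow_add hWI, ← Real.rpow_add hħ, neg_add_cancel, Real.rpow_zero, one_mul]
    have e2 : ε + -(d : ℝ) * (α / γ) = (ε / α - (d : ℝ) / γ) * α := by
      field_simp
      ring
    rw [e2, Real.rpow_mul hħ.le]
    exact Real.rpow_le_rpow hepos.le he1 hα.le

theorem main_sharpF (d : ℕ) (hd : 1 ≤ d) (α β γ : ℝ) (hα : 0 < α) (hγ : 0 < γ)
    (hq : 1 ≤ γ + (d : ℝ) / 2) : SharpUpToEps d α β γ .all ∧ SharpUpToEps d α β γ .le := by
  refine ⟨main_sharp_auxF d hd α β γ hα hγ hq .all ?_, main_sharp_auxF d hd α β γ hα hγ hq .le ?_⟩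
  · intro N e _ _
    trivial
  · intro N e he h
    show ‖(-(e : ℂ))‖ ^ γ ≤ N
    rw [norm_neg, Complex.norm_real, Real.norm_eq_abs, abs_of_pos he]
    exact h

end Pool.Agent.Helper41.CE
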