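import Pool.Agent.Helper41.CE.FDefs

/-!
# Multiplication operators, Fourier multipliers and free resolvents on `L²(ℝᵈ)`
-/

open MeasureTheory Filter Topology Set
open scoped ENNReal NNReal ContDiff

namespace Pool.Agent.Helper41.CE

/-- `L²(ℝᵈ)`. -/
abbrev L2 (d : ℕ) : Type := ↥(Lp ℂ 2 (volume : Measure (E d)))

open Classical in
/-- Multiplication by `f` (if it is bounded on `L²`, otherwise `0`). -/
noncomputable def mulop {d : ℕ} (f : E d → ℂ) : L2 d →L[ℂ] L2 d :=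
  if h : ∃ T : L2 d →L[ℂ] L2 d, ∀ u : L2 d, T u =ᵐ[volume] fun x => f x * u x then h.choose else 0

open Classical in
/-- Composition with `φ` (if it is bounded on `L²`, otherwise `0`). -/
noncomputable def compop {d : ℕ} (φ : E d → E d) : L2 d →L[ℂ] L2 d :=
  if h : ∃ T : L2 d →L[ℂ] L2 d, ∀ u : L2 d, T u =ᵐ[volume] fun x => u (φ x) then h.choose else 0

/-- The Fourier transform on `L²`. -/
noncomputable def FT (d : ℕ) : L2 d ≃ₗᵢ[ℂ] L2 d := Lp.fourierTransformₗᵢ (E d) ℂ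

/-- Fourier multiplier with symbol `σ`. -/
noncomputable def Fm {d : ℕ} (σ : E d → ℂ) : L2 d →L[ℂ] L2 d :=
  ((FT d).symm.toContinuousLinearEquiv : L2 d →L[ℂ] L2 d).comp
    ((mulop σ).comp ((FT d).toContinuousLinearEquiv : L2 d →L[ℂ] L2 d))

/-- Bounded measurable functions. -/
def BM {d : ℕ} (f : E d → ℂ) : Prop := Measurable f ∧ ∃ C : ℝ, ∀ x, ‖f x‖ ≤ C

/-- Bounded measurable functions tending to `0` at infinity. -/
def BV {d : ℕ} (f : E d → ℂ) : Prop :=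
  Measurable f ∧ (∃ C : ℝ, ∀ x, ‖f x‖ ≤ C) ∧ ∀ ε : ℝ, 0 < ε → ∃ R : ℝ, ∀ x, R < ‖x‖ → ‖f x‖ ≤ ε

/-- Bounded measurable functions with bounded support. -/
def BC {d : ℕ} (V : E d → ℂ) : Prop :=
  Measurable V ∧ (∃ C : ℝ, ∀ x, ‖V x‖ ≤ C) ∧ ∃ R : ℝ, ∀ x, R < ‖x‖ → V x = 0

/-- Symbol of `-Δ`. -/
noncomputable def rho {d : ℕ} (ξ : E d) : ℝ := 4 * Real.pi ^ 2 * ‖ξ‖ ^ 2

/-- The free resolvent `(-Δ - z)^{-1}`. -/
noncomputable def Rz {d : ℕ} (z : ℂ) : L2 d →L[ℂ] L2 d := Fm (fun ξ => ((rho ξ : ℂ) - z)⁻¹)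

/-- `z` is an eigenvalue of `-Δ + g V`: `u = - g (-Δ - z)^{-1} V u` has a nonzero solution. -/
def Zs {d : ℕ} (g : ℝ) (z : ℂ) (V : E d → ℂ) : Prop :=
  ∃ u : L2 d, u ≠ 0 ∧ u + (g : ℂ) • Rz z (mulop V u) = 0

/-- `A = (1 - Δ)^{-1/2}`. -/
noncomputable def Ah (d : ℕ) : L2 d →L[ℂ] L2 d :=
  Fm (fun ξ => (((1 + rho ξ) ^ (-(1 / 2 : ℝ)) : ℝ) : ℂ))

/-- Symbol of `-Δ'` (all variables but the first). -/
noncomputable def rp {n : ℕ} (ξ : E (n + 1)) : ℝ := 4 * Real.pi ^ 2 * (‖ξ‖ ^ 2 - (ξ 0) ^ 2)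

/-- Symbol of `-δ ∂₀² - Δ' - 1/δ`. -/
noncomputable def sd {n : ℕ} (δ : ℝ) (ξ : E (n + 1)) : ℝ :=
  δ * (2 * Real.pi * ξ 0) ^ 2 + rp ξ - 1 / δ

/-- Symbol of `-2i ∂₀ - Δ'`. -/
noncomputable def sp {n : ℕ} (ξ : E (n + 1)) : ℝ := 4 * Real.pi * ξ 0 + rp ξ

/-- Symbol of `2i ∂₀ - Δ'`. -/
noncomputable def sm {n : ℕ} (ξ : E (n + 1)) : ℝ := -(4 * Real.pi * ξ 0) + rp ξ

/-- Resolvent `(S - lam)^{-1}` of the operator with real symbol `s`. -/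
noncomputable def Rs {d : ℕ} (s : E d → ℝ) (lam : ℂ) : L2 d →L[ℂ] L2 d :=
  Fm (fun ξ => ((s ξ : ℂ) - lam)⁻¹)

/-- The weight `(1 + |X'|²)^{-1/2}`. -/
noncomputable def wt {n : ℕ} (X : E (n + 1)) : ℝ := (1 + (‖X‖ ^ 2 - (X 0) ^ 2)) ^ (-(1 / 2 : ℝ))

/-- Multiplication by the weight. -/
noncomputable def Wt (n : ℕ) : L2 (n + 1) →L[ℂ] L2 (n + 1) := mulop (fun X => (wt X : ℂ))

/-- Multiplication by `exp(i θ X₀)`. -/
noncomputable def eo {n : ℕ} (θ : ℝ) : L2 (n + 1) →L[ℂ] L2 (n + 1) :=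
  mulop (fun X => Complex.exp (Complex.I * ((θ * X 0 : ℝ) : ℂ)))

/-- The reflection `X₀ ↦ -X₀`. -/
noncomputable def rfx {n : ℕ} (X : E (n + 1)) : E (n + 1) :=
  X - (2 * X 0) • EuclideanSpace.single 0 1

/-- Composition with the reflection. -/
noncomputable def Rf (n : ℕ) : L2 (n + 1) →L[ℂ] L2 (n + 1) := compop (rfx : E (n + 1) → E (n + 1))

/-- `K = χ (-2i∂₀ - Δ' - lam)^{-1} χ p`, where `χ` is the weight. -/
noncomputable def Kop {n : ℕ} (p : E (n + 1) → ℂ) (lam : ℂ) : L2 (n + 1) →L[ℂ] L2 (n + 1) :=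
  Wt n * Rs sp lam * Wt n * mulop p

/-- The oscillating potential (divided by the square of the weight). -/
noncomputable def osc {n : ℕ} (p : E (n + 1) → ℂ) (δ : ℝ) (X : E (n + 1)) : ℂ :=
  p X * Complex.exp (Complex.I * ((2 / δ * X 0 : ℝ) : ℂ)) +
    p (rfx X) * Complex.exp (Complex.I * ((-2 / δ * X 0 : ℝ) : ℂ))

/-- The anisotropic dilation `x ↦ (δ x₀, √δ x')`. -/
noncomputable def dila {n : ℕ} (δ : ℝ) (x : E (n + 1)) : E (n + 1) :=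
  Real.sqrt δ • x + ((δ - Real.sqrt δ) * x 0) • EuclideanSpace.single 0 1

/-- The model potential at scale one. -/
noncomputable def V1 {n : ℕ} (p : E (n + 1) → ℂ) (δ : ℝ) (x : E (n + 1)) : ℂ :=
  (δ * (wt (dila δ x)) ^ 2 : ℝ) * osc p δ (dila δ x)

end Pool.Agent.Helper41.CE
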